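import Pool.Agent.W_b58c63_h68.JLam

/-!
# Partial summation in the linear sieve (helper68)
-/

set_option autoImplicit false

noncomputable section

open Finset MeasureTheory

namespace Pool.Agent.Wb58c63

open Classical in
/-- The elements below the real number `u`. -/
def below (P : Finset ℕ) (u : ℝ) : Finset ℕ := P.filter fun p : ℕ => (p : ℝ) < u

/-- The one-sided regularity condition of dimension one: `V(u) / V(z) ≤ K log z / log u`. -/
def Reg (g : ℕ → ℝ) (P : Finset ℕ) (K u₀ : ℝ) : Prop :=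
  ∀ u z : ℝ, u₀ ≤ u → u ≤ z →
    VP g (below P u) * Real.log u ≤ K * VP g (below P z) * Real.log z

theorem JPS_VP_pos {g : ℕ → ℝ} {P : Finset ℕ} (hg : ∀ p ∈ P, 0 ≤ g p ∧ g p < 1) : 0 < VP g P := by
  unfold VP
  refine Finset.prod_pos fun p hp => ?_
  have := hg p hp
  linarith [this.2]

theorem JPS_below_below (P : Finset ℕ) (a u : ℝ) : below (below P a) u = below P (min a u) := by
  classical
  unfold below
  rw [Finset.filter_filter]
  congr 1
  ext p
  rw [lt_min_iff]

/-- Subsets below a bound inherit the condition (for `u > p` resp. `z > p` use `log` monotone, `VP ≥ 0`). -/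
theorem Reg.sub {g : ℕ → ℝ} {P : Finset ℕ} {K u₀ : ℝ} (h : Reg g P K u₀) (hu : 1 < u₀) (hK : 1 ≤ K)
    (hg : ∀ p ∈ P, 0 ≤ g p ∧ g p < 1) (a : ℝ) (ha : u₀ ≤ a) : Reg g (below P a) K u₀ := by
  intro u z huu huz
  rw [JPS_below_below, JPS_below_below]
  have hV : ∀ x : ℝ, 0 < VP g (below P x) := by
    intro x
    refine JPS_VP_pos fun p hp => hg p ?_
    unfold below at hp
    exact (Finset.mem_filter.1 hp).1
  have hlu : 0 < Real.log u := Real.log_pos (by linarith)
  have hluz : Real.log u ≤ Real.log z := Real.log_le_log (by linarith) huz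
  rcases le_or_gt z a with hza | hza
  · rw [min_eq_right hza, min_eq_right (huz.trans hza)]
    exact h u z huu huz
  · rw [min_eq_left hza.le]
    have h1 : Real.log a ≤ Real.log z := Real.log_le_log (by linarith) hza.le
    have h2 := hV a
    rcases le_or_gt u a with hua | hua
    · rw [min_eq_right hua]
      refine (h u a huu hua).trans ?_
      exact mul_le_mul_of_nonneg_left h1 (by positivity)
    · rw [min_eq_left hua.le]
      have h3 : VP g (below P a) * Real.log u ≤ VP g (below P a) * Real.log z :=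
        mul_le_mul_of_nonneg_left hluz h2.le
      have h4 : 0 ≤ VP g (below P a) * Real.log z := mul_nonneg h2.le (hlu.le.trans hluz)
      nlinarith

/-- `0 < VP`. -/
theorem VP_pos {g : ℕ → ℝ} {P : Finset ℕ} (hg : ∀ p ∈ P, 0 ≤ g p ∧ g p < 1) : 0 < VP g P :=
  JPS_VP_pos hg

theorem VP_le_one {g : ℕ → ℝ} {P : Finset ℕ} (hg : ∀ p ∈ P, 0 ≤ g p ∧ g p < 1) : VP g P ≤ 1 := by
  unfold VP
  refine Finset.prod_le_one (fun p hp => ?_) fun p hp => ?_
  · have := hg p hp
    linarith [this.2]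
  · have := hg p hp
    linarith [this.1]

theorem JPS_int (Φ : ℝ → ℝ) (hΦ : Antitone Φ) (a b : ℝ) (hab : a ≤ b)
    (hi : IntegrableOn (fun t => Φ (t - 1)) (Set.Ioi a)) :
    (b - a) * Φ (b - 1) + ∫ t in Set.Ioi b, Φ (t - 1) ≤ ∫ t in Set.Ioi a, Φ (t - 1) := by
  have h1 : IntegrableOn (fun t => Φ (t - 1)) (Set.Ioc a b) :=
    hi.mono_set Set.Ioc_subset_Ioi_self
  rw [← Set.Ioc_union_Ioi_eq_Ioi hab, setIntegral_union Set.Ioc_disjoint_Ioi_same
    measurableSet_Ioi h1 (hi.mono_set (Set.Ioi_subset_Ioi hab))]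
  have h2 : ∫ _ in Set.Ioc a b, Φ (b - 1) ≤ ∫ t in Set.Ioc a b, Φ (t - 1) := by
    refine setIntegral_mono_on (integrableOn_const (by simp) (by simp)) h1 measurableSet_Ioc
      fun t ht => hΦ (by linarith [ht.2])
  rw [setIntegral_const, Real.volume_real_Ioc_of_le hab, smul_eq_mul] at h2
  linarith

theorem JPS_core (g φ t I : ℕ → ℝ) (c : ℝ) (hc : 0 ≤ c) (Q : Finset ℕ)
    (h1 : ∀ p ∈ Q, VP g (Q.filter fun q => q < p) ≤ c * t p)
    (h2 : ∀ p ∈ Q, ∀ p' ∈ Q, p < p' → φ p ≤ φ p') (h20 : ∀ p, 0 ≤ φ p)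
    (h3 : ∀ p ∈ Q, ∀ p' ∈ Q, p < p' → (t p - t p') * φ p + I p ≤ I p') (h30 : ∀ p, 0 ≤ I p) :
    ∀ m ∈ Q, (∀ q ∈ Q, q ≤ m) →
      ∑ p ∈ Q, g p * VP g (Q.filter fun q => q < p) * φ p + VP g Q * φ m ≤
        c * (I m + t m * φ m) := by
  induction Q using Finset.induction_on_max with
  | empty => simp
  | insert a s ha ih =>
    intro m hm hmax
    have hma : m = a := by
      rcases Finset.mem_insert.1 hm with h | h
      · exact h
      · exact absurd (ha m h) (not_lt.2 (hmax a (Finset.mem_insert_self a s)))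
    subst hma
    have has : m ∉ s := fun h => lt_irrefl _ (ha m h)
    have e1 : (insert m s).filter (fun q => q < m) = s := by
      rw [Finset.filter_insert, if_neg (lt_irrefl m), Finset.filter_true_of_mem ha]
    have e2 : ∀ p ∈ s, (insert m s).filter (fun q => q < p) = s.filter (fun q => q < p) := by
      intro p hp
      rw [Finset.filter_insert, if_neg (not_lt.2 (ha p hp).le)]
    have e3 : ∑ p ∈ s, g p * VP g ((insert m s).filter fun q => q < p) * φ p =
        ∑ p ∈ s, g p * VP g (s.filter fun q => q < p) * φ p :=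
      Finset.sum_congr rfl fun p hp => by rw [e2 p hp]
    have e4 : VP g (insert m s) = (1 - g m) * VP g s := by
      unfold VP
      rw [Finset.prod_insert has]
    have hV : VP g s ≤ c * t m := by
      have := h1 m (Finset.mem_insert_self m s)
      rwa [e1] at this
    rw [Finset.sum_insert has, e1, e3, e4]
    rcases s.eq_empty_or_nonempty with rfl | hne
    · simp only [Finset.sum_empty, add_zero]
      have h4 : VP g (∅ : Finset ℕ) * φ m ≤ c * t m * φ m :=
        mul_le_mul_of_nonneg_right hV (h20 m)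
      have h5 : 0 ≤ c * I m := mul_nonneg hc (h30 m)
      nlinarith
    · have hm' := s.max'_mem hne
      have ih' := ih (fun p hp => by
          have := h1 p (Finset.mem_insert_of_mem hp)
          rwa [e2 p hp] at this)
        (fun p hp p' hp' => h2 p (Finset.mem_insert_of_mem hp) p' (Finset.mem_insert_of_mem hp'))
        (fun p hp p' hp' => h3 p (Finset.mem_insert_of_mem hp) p' (Finset.mem_insert_of_mem hp'))
        (s.max' hne) hm' fun q hq => s.le_max' q hq
      set m' := s.max' hne with hm'def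
      have hlt : m' < m := ha m' hm'
      have h4 := h2 m' (Finset.mem_insert_of_mem hm') m (Finset.mem_insert_self m s) hlt
      have h5 := h3 m' (Finset.mem_insert_of_mem hm') m (Finset.mem_insert_self m s) hlt
      have h6 : VP g s * (φ m - φ m') ≤ c * t m * (φ m - φ m') :=
        mul_le_mul_of_nonneg_right hV (by linarith)
      have h7 := mul_le_mul_of_nonneg_left h5 hc
      nlinarith

/-- **Partial summation.** `Φ` is nonnegative and antitone, `s = log D / log z`.

Proof. Let `p_1 < ... < p_m` be the elements of `P`, `V_i = VP {q < p_i}`, `V_(m+1) = VP P`, so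
`g(p_i) V_i = V_i - V_(i+1)`, `t_i = log D / log p_i > s` (decreasing in `i`), `Φ_i = Φ (t_i - 1)` (increasing in `i`).
Abel summation: the sum is `V_1 Φ_1 + ∑_{i ≥ 2} V_i (Φ_i - Φ_(i-1)) - V_(m+1) Φ_m`. By `Reg` (with `u = p_i`, `z`)
`V_i ≤ K V_(m+1) t_i / s`. So the sum is at most `(K V / s) (t_1 Φ_1 + ∑_{i ≥ 2} t_i (Φ_i - Φ_(i-1))) - V Φ_m` and the
bracket is `∑_{i < m} (t_i - t_(i+1)) Φ_i + t_m Φ_m ≤ ∫_{t_m}^{t_1} Φ(t - 1) dt + ∫_s^{t_m} Φ(t - 1) dt + s Φ_m`
(`Φ (t - 1) ≥ Φ_i` for `t ≤ t_i`). The total is `V (K / s ∫_s^∞ Φ(t - 1) dt + (K - 1) Φ_m)` and `Φ_m ≤ Φ (s - 1)`.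
For `P = ∅` both sides are `≥ 0`. -/
theorem PS (g : ℕ → ℝ) (P : Finset ℕ) (D z K u₀ : ℝ) (Φ : ℝ → ℝ)
    (hg : ∀ p ∈ P, 0 ≤ g p ∧ g p < 1) (hP : ∀ p ∈ P, u₀ ≤ (p : ℝ) ∧ (p : ℝ) < z) (hu : 1 < u₀)
    (hz : u₀ ≤ z) (hD : 1 < D) (hK : 1 ≤ K) (h : Reg g P K u₀) (hΦ : Antitone Φ) (hΦ0 : ∀ t, 0 ≤ Φ t)
    (hi : IntegrableOn (fun t => Φ (t - 1)) (Set.Ioi (Real.log D / Real.log z))) :
    ∑ p ∈ P, g p * VP g (P.filter fun q => q < p) * Φ (Real.log D / Real.log p - 1) ≤
      VP g P * (K / (Real.log D / Real.log z) *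
        (∫ t in Set.Ioi (Real.log D / Real.log z), Φ (t - 1)) +
          (K - 1) * Φ (Real.log D / Real.log z - 1)) := by
  have hlz : 0 < Real.log z := Real.log_pos (by linarith)
  have hlD : 0 < Real.log D := Real.log_pos hD
  set s : ℝ := Real.log D / Real.log z with hs
  have hs0 : 0 < s := by positivity
  have hVP := VP_pos hg
  have hI0 : ∀ b : ℝ, 0 ≤ ∫ t in Set.Ioi b, Φ (t - 1) := fun b =>
    setIntegral_nonneg measurableSet_Ioi fun t _ => hΦ0 _
  rcases P.eq_empty_or_nonempty with rfl | hne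
  · rw [Finset.sum_empty]
    have h1 := hI0 s
    have h2 := hΦ0 (s - 1)
    have h3 : 0 ≤ K - 1 := by linarith
    positivity
  have hlp : ∀ p ∈ P, 0 < Real.log p := fun p hp => Real.log_pos (by linarith [(hP p hp).1])
  have htp : ∀ p ∈ P, s ≤ Real.log D / Real.log p := fun p hp => by
    rw [hs]
    refine div_le_div_of_nonneg_left hlD.le (hlp p hp) ?_
    exact Real.log_le_log (by linarith [(hP p hp).1]) (hP p hp).2.le
  have hanti : ∀ p ∈ P, ∀ p' ∈ P, p < p' →
      Real.log D / Real.log p' ≤ Real.log D / Real.log p := fun p hp p' hp' hpp => by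
    refine div_le_div_of_nonneg_left hlD.le (hlp p hp) ?_
    refine Real.log_le_log (by linarith [(hP p hp).1]) ?_
    exact_mod_cast hpp.le
  have hbz : below P z = P := by
    unfold below
    exact Finset.filter_true_of_mem fun p hp => (hP p hp).2
  have hbp : ∀ p : ℕ, below P (p : ℝ) = P.filter fun q => q < p := by
    intro p
    unfold below
    ext q
    simp only [Finset.mem_filter, Nat.cast_lt]
  set c : ℝ := K * VP g P / s with hc
  have hc0 : 0 ≤ c := by positivity
  have h1 : ∀ p ∈ P, VP g (P.filter fun q => q < p) ≤ c * (Real.log D / Real.log p) := by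
    intro p hp
    have h2 := h p z (hP p hp).1 (hP p hp).2.le
    rw [hbz, hbp] at h2
    have h3 : c * (Real.log D / Real.log p) = K * VP g P * Real.log z / Real.log p := by
      rw [hc, hs]
      have := (hlp p hp).ne'
      field_simp
    rw [h3, le_div_iff₀ (hlp p hp)]
    exact h2
  have hcore := JPS_core g (fun p => Φ (Real.log D / Real.log p - 1))
    (fun p => Real.log D / Real.log p)
    (fun p => ∫ t in Set.Ioi (Real.log D / Real.log p), Φ (t - 1)) c hc0 P h1
    (fun p hp p' hp' hpp => hΦ (by linarith [hanti p hp p' hp' hpp])) (fun p => hΦ0 _)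
    (fun p hp p' hp' hpp => JPS_int Φ hΦ _ _ (hanti p hp p' hp' hpp)
      (hi.mono_set (Set.Ioi_subset_Ioi (htp p' hp')))) (fun p => hI0 _)
    (P.max' hne) (P.max'_mem hne) fun q hq => P.le_max' q hq
  set m := P.max' hne with hm
  have hmP : m ∈ P := P.max'_mem hne
  have h4 := JPS_int Φ hΦ s _ (htp m hmP) hi
  have h5 : Φ (Real.log D / Real.log m - 1) ≤ Φ (s - 1) := hΦ (by linarith [htp m hmP])
  have h6 : c * s = K * VP g P := by
    rw [hc]
    field_simp
  have h7 := mul_le_mul_of_nonneg_left h4 hc0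
  have h8 : VP g P * (K - 1) * Φ (Real.log D / Real.log m - 1) ≤
      VP g P * (K - 1) * Φ (s - 1) :=
    mul_le_mul_of_nonneg_left h5 (mul_nonneg hVP.le (by linarith))
  have h9 : VP g P * (K / s * (∫ t in Set.Ioi s, Φ (t - 1)) + (K - 1) * Φ (s - 1)) =
      c * (∫ t in Set.Ioi s, Φ (t - 1)) + VP g P * (K - 1) * Φ (s - 1) := by
    rw [hc]
    ring
  rw [h9]
  refine le_trans ?_ (add_le_add h7 h8)
  have h10 : c * (((Real.log D / Real.log m) - s) * Φ (Real.log D / Real.log m - 1) +
      ∫ t in Set.Ioi (Real.log D / Real.log m), Φ (t - 1)) =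
      c * ((∫ t in Set.Ioi (Real.log D / Real.log m), Φ (t - 1)) +
        Real.log D / Real.log m * Φ (Real.log D / Real.log m - 1)) -
        (c * s) * Φ (Real.log D / Real.log m - 1) := by ring
  rw [h10, h6]
  linarith

end Pool.Agent.Wb58c63
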