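import Pool.Agent.W_b58c63_h68.SUbE

/-!
# Siegel's theorem: the step (helper49)
-/

set_option autoImplicit false

noncomputable section

open Finset DirichletCharacter

namespace Pool.Agent.Wb58c63

theorem SgD_two {r : ℕ} [NeZero r] (χ : DirichletCharacter ℂ r) :
    0 < (LFunction χ ((2 : ℝ) : ℂ)).re := by
  have h2 : 1 < (((2 : ℝ) : ℂ)).re := by
    rw [Complex.ofReal_re]
    norm_num
  rw [LFunction_eq_LSeries χ h2]
  have h3 : HasSum (LSeries.term (fun n : ℕ => χ (n : ZMod r)) ((2 : ℝ) : ℂ))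
      (LSeries (fun n : ℕ => χ (n : ZMod r)) ((2 : ℝ) : ℂ)) :=
    (ZMod.LSeriesSummable_of_one_lt_re (χ ·) h2).hasSum
  have h4 := (Complex.hasSum_re h3).add hasSum_zeta_two
  have h5 : ∀ n : ℕ, 0 ≤ (LSeries.term (fun n : ℕ => χ (n : ZMod r)) ((2 : ℝ) : ℂ) n).re +
      1 / (n : ℝ) ^ 2 := by
    intro n
    have h6 : ‖LSeries.term (fun n : ℕ => χ (n : ZMod r)) ((2 : ℝ) : ℂ) n‖ ≤ 1 / (n : ℝ) ^ 2 := by
      rw [LSeries.norm_term_eq]
      split_ifs with h0
      · rw [h0]
        simp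
      · rw [Complex.ofReal_re, Real.rpow_two]
        exact div_le_div_of_nonneg_right (DirichletCharacter.norm_le_one χ _) (by positivity)
    have h7 := Complex.abs_re_le_norm
      (LSeries.term (fun n : ℕ => χ (n : ZMod r)) ((2 : ℝ) : ℂ) n)
    have h8 := neg_abs_le (LSeries.term (fun n : ℕ => χ (n : ZMod r)) ((2 : ℝ) : ℂ) n).re
    linarith
  have h6 := le_hasSum h4 1 fun j _ => h5 j
  have h7 : LSeries.term (fun n : ℕ => χ (n : ZMod r)) ((2 : ℝ) : ℂ) 1 = 1 := by
    rw [LSeries.term_of_ne_zero one_ne_zero]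
    simp
  rw [h7] at h6
  have h8 : Real.pi ^ 2 / 6 < 2 := by
    have h9 := Real.pi_lt_d2
    have h10 := Real.pi_pos
    nlinarith
  simp only [Complex.one_re, Nat.cast_one, one_pow, div_one] at h6
  linarith

/-- The L-function of a real character is positive to the right of its real zeros.

Proof. `LFunction χ y` is real for `y > 0` (`sw_real`), and continuous. It is not `0` for `y ≥ 1`
(`LFunction_ne_zero_of_one_le_re`) and for `x ≤ y < 1` (hypothesis). `Re LFunction χ 2 > 0`: `LFunction χ 2 =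
∑ χ(n) / n ^ 2` and `|LFunction χ 2 - 1| ≤ ∑_{n ≥ 2} 1 / n ^ 2 = π ^ 2 / 6 - 1 < 1`. By the intermediate value
theorem on the segment between `x` and `2` the real part at `x` is positive. -/
theorem sg_pos {r : ℕ} [NeZero r] (χ : DirichletCharacter ℂ r) (hχ : χ ≠ 1) (h2 : χ ^ 2 = 1) {x : ℝ}
    (hx : 0 < x) (hz : ∀ y : ℝ, x ≤ y → y < 1 → LFunction χ (y : ℂ) ≠ 0) : 0 < (LFunction χ (x : ℂ)).re := by
  have hcont : Continuous fun y : ℝ => (LFunction χ (y : ℂ)).re :=
    Complex.continuous_re.comp ((differentiable_LFunction hχ).continuous.comp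
      Complex.continuous_ofReal)
  by_contra hcon
  have h3 := intermediate_value_uIcc (a := x) (b := 2) hcont.continuousOn
  have h4 : (0 : ℝ) ∈ Set.uIcc ((fun y : ℝ => (LFunction χ (y : ℂ)).re) x)
      ((fun y : ℝ => (LFunction χ (y : ℂ)).re) 2) :=
    Set.mem_uIcc.2 (Or.inl ⟨not_lt.1 hcon, (SgD_two χ).le⟩)
  obtain ⟨y, hy, hy0⟩ := h3 h4
  have hy' : x ≤ y ∨ 2 ≤ y := by
    rcases Set.mem_uIcc.1 hy with h | h
    · exact Or.inl h.1
    · exact Or.inr h.1
  have hypos : 0 < y := by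
    rcases hy' with h | h
    · exact hx.trans_le h
    · linarith
  have h5 : LFunction χ (y : ℂ) = 0 := Complex.ext hy0 (sw_real χ hχ h2 hypos)
  rcases lt_or_ge y 1 with h6 | h6
  · refine hz y ?_ h6 h5
    rcases hy' with h | h
    · exact h
    · linarith
  · exact LFunction_ne_zero_of_one_le_re χ (Or.inl hχ) (by rw [Complex.ofReal_re]; exact h6) h5

/-- The zeta function is negative slightly to the left of `1`.

Proof. `(s - 1) ζ(s) → 1` (`riemannZeta_residue_one`), so for real `β < 1` close to `1` the real part of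
`(β - 1) ζ(β)` is positive. -/
theorem sg_zeta_neg {δ : ℝ} (hδ : 0 < δ) : ∃ β : ℝ, 1 - δ < β ∧ β < 1 ∧ (riemannZeta (β : ℂ)).re < 0 := by
  have h1 : Filter.Tendsto (fun β : ℝ => (β : ℂ)) (nhdsWithin 1 (Set.Iio 1))
      (nhdsWithin 1 {1}ᶜ) := by
    refine tendsto_nhdsWithin_iff.2 ⟨?_, ?_⟩
    · have h2 := (Complex.continuous_ofReal.tendsto (1 : ℝ))
      rw [Complex.ofReal_one] at h2
      exact h2.mono_left nhdsWithin_le_nhds
    · filter_upwards [self_mem_nhdsWithin] with β hβ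
      intro h3
      have h4 : (β : ℂ) = ((1 : ℝ) : ℂ) := by
        rw [Complex.ofReal_one]
        exact h3
      have h5 : β = 1 := Complex.ofReal_injective h4
      exact (ne_of_lt hβ) h5
  have h2 := (Complex.continuous_re.tendsto (1 : ℂ)).comp (riemannZeta_residue_one.comp h1)
  have h3 : ∀ᶠ β : ℝ in nhdsWithin 1 (Set.Iio 1),
      0 < (((β : ℂ) - 1) * riemannZeta (β : ℂ)).re := by
    refine h2.eventually (lt_mem_nhds ?_)
    rw [Complex.one_re]
    exact one_pos
  have h4 : ∀ᶠ β : ℝ in nhdsWithin 1 (Set.Iio 1), β ∈ Set.Ioo (1 - δ) 1 :=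
    Ioo_mem_nhdsLT (by linarith)
  obtain ⟨β, h5, h6⟩ := (h3.and h4).exists
  refine ⟨β, h6.1, h6.2, ?_⟩
  have h7 : (((β : ℂ) - 1) * riemannZeta (β : ℂ)).re = (β - 1) * (riemannZeta (β : ℂ)).re := by
    rw [Complex.mul_re, Complex.sub_re, Complex.sub_im, Complex.ofReal_re, Complex.ofReal_im,
      Complex.one_re, Complex.one_im]
    ring
  rw [h7] at h5
  have h8 := h6.2
  by_contra hcon
  have h9 : (β - 1) * (riemannZeta (β : ℂ)).re ≤ 0 :=
    mul_nonpos_of_nonpos_of_nonneg (by linarith) (not_lt.1 hcon)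
  linarith

end Pool.Agent.Wb58c63
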