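import Pool.Agent.W_b58c63_h68.SUbB

/-!
# Siegel-Walfisz, block S: the bound of the L-function (helper49)
-/

set_option autoImplicit false

noncomputable section

open Finset DirichletCharacter

namespace Pool.Agent.Wb58c63

/-- The size of the conductor at height `t`. -/
def QQ (r : ℕ) (t : ℝ) : ℝ := r * (|t| + 2)

theorem QQ_ge {r : ℕ} [NeZero r] (t : ℝ) : 2 ≤ QQ r t := by
  have h1 : (1 : ℝ) ≤ r := by exact_mod_cast Nat.one_le_iff_ne_zero.2 (NeZero.ne r)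
  have h2 := abs_nonneg t
  unfold QQ
  nlinarith

/-- The finite part.

Proof. `∑ n ∈ range N, n ^ (-1 + ε) ≤ N ^ ε ∑_{1 ≤ n < N} 1 / n ≤ N ^ ε (1 + log N)` (the term `n = 0` is
`0 ^ (-1 + ε) = 0`, `Real.zero_rpow`; `harmonic_le_one_add_log` or `one_add_log`), and
`1 + log N ≤ (1 + 1 / ε) N ^ ε` (`Real.log_le_rpow_div`). -/
theorem sw_head {ε : ℝ} (hε : 0 < ε) (hε1 : ε ≤ 1 / 2) (N : ℕ) (hN : 1 ≤ N) :
    ∑ n ∈ range N, (n : ℝ) ^ (-1 + ε) ≤ (1 + 1 / ε) * (N : ℝ) ^ (2 * ε) := by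
  have hN1 : (1 : ℝ) ≤ N := by exact_mod_cast hN
  have hN0 : (0 : ℝ) < N := by linarith
  have h1 : ∑ n ∈ range N, (n : ℝ) ^ (-1 + ε) ≤ ∑ n ∈ range N, (N : ℝ) ^ ε * ((n : ℝ))⁻¹ := by
    refine Finset.sum_le_sum fun n hn => ?_
    rcases Nat.eq_zero_or_pos n with rfl | hn0
    · rw [Nat.cast_zero, Real.zero_rpow (by linarith), inv_zero, mul_zero]
    · have h2 : (0 : ℝ) < n := by exact_mod_cast hn0
      have h3 : (n : ℝ) ≤ N := by exact_mod_cast (Finset.mem_range.1 hn).le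
      rw [Real.rpow_add h2, Real.rpow_neg_one, mul_comm]
      exact mul_le_mul_of_nonneg_right (Real.rpow_le_rpow h2.le h3 hε.le) (inv_nonneg.2 h2.le)
  have h4 : ∑ n ∈ range N, ((n : ℝ))⁻¹ ≤ 1 + Real.log N := by
    obtain ⟨M, rfl⟩ : ∃ M, N = M + 1 := ⟨N - 1, by omega⟩
    rw [Finset.sum_range_succ']
    have h5 := harmonic_le_one_add_log M
    have h6 : ((harmonic M : ℚ) : ℝ) = ∑ i ∈ range M, (((i + 1 : ℕ) : ℝ))⁻¹ := by
      unfold harmonic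
      push_cast
      rfl
    rw [h6] at h5
    rw [Nat.cast_zero, inv_zero, add_zero]
    refine h5.trans ?_
    rcases Nat.eq_zero_or_pos M with rfl | hM
    · simp
    · have h7 : Real.log M ≤ Real.log ((M + 1 : ℕ) : ℝ) :=
        Real.log_le_log (by exact_mod_cast hM) (by push_cast; linarith)
      linarith
  have h8 : Real.log N ≤ (N : ℝ) ^ ε / ε := Real.log_le_rpow_div hN0.le hε
  have h9 : 1 ≤ (N : ℝ) ^ ε := Real.one_le_rpow hN1 hε.le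
  have h10 : (N : ℝ) ^ (2 * ε) = (N : ℝ) ^ ε * (N : ℝ) ^ ε := by
    rw [← Real.rpow_add hN0]
    ring_nf
  rw [← Finset.mul_sum] at h1
  refine h1.trans ?_
  rw [h10]
  have h11 : 1 + Real.log N ≤ (1 + 1 / ε) * (N : ℝ) ^ ε := by
    have : (1 + 1 / ε) * (N : ℝ) ^ ε = (N : ℝ) ^ ε + (N : ℝ) ^ ε / ε := by ring
    rw [this]
    linarith
  calc (N : ℝ) ^ ε * ∑ n ∈ range N, ((n : ℝ))⁻¹ ≤ (N : ℝ) ^ ε * ((1 + 1 / ε) * (N : ℝ) ^ ε) :=
        mul_le_mul_of_nonneg_left (h4.trans h11) (by linarith)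
    _ = (1 + 1 / ε) * ((N : ℝ) ^ ε * (N : ℝ) ^ ε) := by ring

/-- The bound of the L-function slightly to the left of the line `Re s = 1`.

Proof. Let `Q = QQ r s.im` and `N = ⌈Q⌉₊`, so `Q ≤ N ≤ 2 Q` (`Q ≥ 2`). `sw_approx`:
`‖L‖ ≤ ∑ n ∈ range N, n ^ (-s.re) + r (1 + ‖s‖ / s.re) N ^ (-s.re)`. For `n ≥ 1`: `n ^ (-s.re) ≤ n ^ (-1 + ε)`
(and for `n = 0` the term of the L-function is `0`), so `sw_head` bounds the first sum by
`(1 + 1 / ε) (2 Q) ^ (2 ε)`. As `s.re ≥ 1 / 2` and `‖s‖ ≤ 3 + |s.im|`, the second term is at most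
`r (7 + 2 |s.im|) N ^ (-1 + ε) ≤ 4 Q · N ^ (-1) N ^ ε ≤ 4 N ^ ε ≤ 4 (2 Q) ^ (2 ε)`. With `2 ^ (2 ε) ≤ 2` the constant
`C = 2 (1 + 1 / ε) + 8` works. -/
theorem sw_eps (ε : ℝ) (hε : 0 < ε) (hε1 : ε ≤ 1 / 2) :
    ∃ C : ℝ, 1 ≤ C ∧ ∀ (r : ℕ) [NeZero r] (χ : DirichletCharacter ℂ r), χ ≠ 1 → ∀ s : ℂ, 1 - ε ≤ s.re →
      s.re ≤ 3 → ‖LFunction χ s‖ ≤ C * QQ r s.im ^ (2 * ε) := by
  have hε' : 0 < 1 / ε := by positivity
  refine ⟨2 * (1 + 1 / ε) + 8, by linarith, ?_⟩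
  intro r _ χ hχ s hs1 hs3
  set Q := QQ r s.im with hQ
  have hQ2 : 2 ≤ Q := QQ_ge s.im
  set N := ⌈Q⌉₊ with hN
  have hNQ : Q ≤ N := Nat.le_ceil Q
  have hNQ2 : (N : ℝ) ≤ 2 * Q := by
    have := Nat.ceil_lt_add_one (show 0 ≤ Q by linarith)
    linarith
  have hN0 : (0 : ℝ) < N := by linarith
  have hN1 : 1 ≤ N := by exact_mod_cast (show (1 : ℝ) ≤ N by linarith)
  have hN1' : (1 : ℝ) ≤ N := by exact_mod_cast hN1
  have hσ : 1 / 2 ≤ s.re := by linarith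
  have hσ0 : 0 < s.re := by linarith
  have hr : (0 : ℝ) ≤ r := Nat.cast_nonneg r
  have ht := abs_nonneg s.im
  have h1 := sw_approx χ hχ hN1 hσ0
  have h2 : ‖∑ n ∈ range N, χ (n : ZMod r) * (n : ℂ) ^ (-s)‖ ≤ ∑ n ∈ range N, (n : ℝ) ^ (-1 + ε) := by
    refine (norm_sum_le _ _).trans (Finset.sum_le_sum fun n _ => ?_)
    rcases Nat.eq_zero_or_pos n with rfl | hn
    · rw [SUbB_zero χ hχ, zero_mul, norm_zero, Nat.cast_zero, Real.zero_rpow (by linarith)]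
    · rw [norm_mul, Complex.norm_natCast_cpow_of_pos hn]
      have h3 : (n : ℝ) ^ (-s).re ≤ (n : ℝ) ^ (-1 + ε) := by
        apply Real.rpow_le_rpow_of_exponent_le (by exact_mod_cast hn)
        rw [Complex.neg_re]
        linarith
      calc ‖χ (n : ZMod r)‖ * (n : ℝ) ^ (-s).re ≤ 1 * (n : ℝ) ^ (-s).re :=
            mul_le_mul_of_nonneg_right (χ.norm_le_one _) (Real.rpow_nonneg (Nat.cast_nonneg n) _)
        _ ≤ _ := by rw [one_mul]; exact h3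
  have h4 := sw_head hε hε1 N hN1
  have h5 : (N : ℝ) ^ (2 * ε) ≤ 2 * Q ^ (2 * ε) := by
    calc (N : ℝ) ^ (2 * ε) ≤ (2 * Q) ^ (2 * ε) := Real.rpow_le_rpow hN0.le hNQ2 (by linarith)
      _ = 2 ^ (2 * ε) * Q ^ (2 * ε) := Real.mul_rpow (by norm_num) (by linarith)
      _ ≤ 2 ^ (1 : ℝ) * Q ^ (2 * ε) := by
          apply mul_le_mul_of_nonneg_right _ (Real.rpow_nonneg (by linarith) _)
          exact Real.rpow_le_rpow_of_exponent_le (by norm_num) (by linarith)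
      _ = 2 * Q ^ (2 * ε) := by rw [Real.rpow_one]
  have h6 : (r : ℝ) * (1 + ‖s‖ / s.re) * (N : ℝ) ^ (-s.re) ≤ 4 * (N : ℝ) ^ (2 * ε) := by
    have h7 : ‖s‖ ≤ 3 + |s.im| := by
      have := Complex.norm_le_abs_re_add_abs_im s
      rw [abs_of_pos hσ0] at this
      linarith
    have h8 : ‖s‖ / s.re ≤ 2 * (3 + |s.im|) := by
      rw [div_le_iff₀ hσ0]
      nlinarith
    have h9 : (r : ℝ) * (1 + ‖s‖ / s.re) ≤ 4 * Q := by
      have h10 : 1 + ‖s‖ / s.re ≤ 4 * (|s.im| + 2) := by linarith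
      calc (r : ℝ) * (1 + ‖s‖ / s.re) ≤ r * (4 * (|s.im| + 2)) := mul_le_mul_of_nonneg_left h10 hr
        _ = 4 * Q := by rw [hQ, QQ]; ring
    have h11 : (N : ℝ) ^ (-s.re) ≤ (N : ℝ) ^ (-1 + ε) :=
      Real.rpow_le_rpow_of_exponent_le hN1' (by linarith)
    have h12 : (N : ℝ) ^ (-1 + ε) = (N : ℝ)⁻¹ * (N : ℝ) ^ ε := by
      rw [Real.rpow_add hN0, Real.rpow_neg_one]
    have h13 : (N : ℝ) ^ ε ≤ (N : ℝ) ^ (2 * ε) :=
      Real.rpow_le_rpow_of_exponent_le hN1' (by linarith)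
    calc (r : ℝ) * (1 + ‖s‖ / s.re) * (N : ℝ) ^ (-s.re) ≤ (4 * Q) * ((N : ℝ)⁻¹ * (N : ℝ) ^ ε) := by
          apply mul_le_mul h9 (h11.trans h12.le) (Real.rpow_nonneg hN0.le _) (by linarith)
      _ ≤ (4 * N) * ((N : ℝ)⁻¹ * (N : ℝ) ^ ε) := by
          apply mul_le_mul_of_nonneg_right (by linarith)
          exact mul_nonneg (inv_nonneg.2 hN0.le) (Real.rpow_nonneg hN0.le _)
      _ = 4 * (N : ℝ) ^ ε := by
          field_simp
      _ ≤ _ := by linarith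
  have h14 : ‖LFunction χ s‖ ≤ ‖∑ n ∈ range N, χ (n : ZMod r) * (n : ℂ) ^ (-s)‖ +
      ‖LFunction χ s - ∑ n ∈ range N, χ (n : ZMod r) * (n : ℂ) ^ (-s)‖ := by
    have := norm_add_le (∑ n ∈ range N, χ (n : ZMod r) * (n : ℂ) ^ (-s))
      (LFunction χ s - ∑ n ∈ range N, χ (n : ZMod r) * (n : ℂ) ^ (-s))
    rwa [add_sub_cancel] at this
  have h15 : ‖LFunction χ s‖ ≤ (1 + 1 / ε) * (N : ℝ) ^ (2 * ε) + 4 * (N : ℝ) ^ (2 * ε) := by
    linarith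
  have h16 : (1 + 1 / ε) * (N : ℝ) ^ (2 * ε) ≤ (1 + 1 / ε) * (2 * Q ^ (2 * ε)) :=
    mul_le_mul_of_nonneg_left h5 (by linarith)
  nlinarith

end Pool.Agent.Wb58c63
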