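import Pool.Agent.W_b58c63_h68.SUbB

/-!
# Siegel-Walfisz, block S: crude bound, and real characters (helper49)
-/

set_option autoImplicit false

noncomputable section

open Finset DirichletCharacter

namespace Pool.Agent.Wb58c63

/-- A crude bound: `sw_approx` with `N = 1` (the sum over `range 1` is the term `n = 0`, which is `0`). -/
theorem sw_crude {r : ℕ} [NeZero r] (χ : DirichletCharacter ℂ r) (hχ : χ ≠ 1) {s : ℂ} (hs : 0 < s.re) :
    ‖LFunction χ s‖ ≤ r * (1 + ‖s‖ / s.re) := by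
  have h1 := sw_approx χ hχ le_rfl hs
  rw [Finset.sum_range_one, SUbB_zero χ hχ, zero_mul, sub_zero, Nat.cast_one, Real.one_rpow,
    mul_one] at h1
  exact h1

/-- The L-function of a real character is real on the positive axis.

Proof. `χ ^ 2 = 1` implies that the values `χ n` are `0, 1, -1` (`MulChar.isQuadratic_iff_sq_eq_one`), so the partial
sums `∑ n ∈ range N, χ n * n ^ (-x)` are real (`Complex.ofReal_cpow`, `n ^ (-x)` is real for `n ≥ 1`), and by
`sw_approx` they tend to `LFunction χ x` for `N → ∞` (`N ^ (-x) → 0`). -/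
theorem sw_real {r : ℕ} [NeZero r] (χ : DirichletCharacter ℂ r) (hχ : χ ≠ 1) (h2 : χ ^ 2 = 1) {x : ℝ}
    (hx : 0 < x) : (LFunction χ (x : ℂ)).im = 0 := by
  have h1 : ∀ N : ℕ, (∑ n ∈ range N, χ (n : ZMod r) * (n : ℂ) ^ (-(x : ℂ))).im = 0 := by
    intro N
    rw [Complex.im_sum]
    refine Finset.sum_eq_zero fun n _ => ?_
    have h3 : (n : ℂ) ^ (-(x : ℂ)) = (((n : ℝ) ^ (-x) : ℝ) : ℂ) := by
      rw [Complex.ofReal_cpow (Nat.cast_nonneg n)]
      push_cast
      rfl
    rw [h3]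
    rcases MulChar.isQuadratic_iff_sq_eq_one.mpr h2 (n : ZMod r) with h | h | h
    · rw [h, zero_mul]
      rfl
    · rw [h, one_mul, Complex.ofReal_im]
    · rw [h, neg_one_mul, Complex.neg_im, Complex.ofReal_im, neg_zero]
  have hre : (x : ℂ).re = x := Complex.ofReal_re x
  have h4 : ∀ N : ℕ, 1 ≤ N → |(LFunction χ (x : ℂ)).im| ≤
      r * (1 + ‖(x : ℂ)‖ / x) * (N : ℝ) ^ (-x) := by
    intro N hN
    have h5 := sw_approx χ hχ hN (s := (x : ℂ)) (by rw [hre]; exact hx)
    rw [hre] at h5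
    refine le_trans ?_ h5
    have h6 := Complex.abs_im_le_norm (LFunction χ (x : ℂ) -
      ∑ n ∈ range N, χ (n : ZMod r) * (n : ℂ) ^ (-(x : ℂ)))
    rw [Complex.sub_im, h1 N, sub_zero] at h6
    exact h6
  have h7 : |(LFunction χ (x : ℂ)).im| ≤ 0 := by
    refine ge_of_tendsto (SUbB_pow_tendsto (r * (1 + ‖(x : ℂ)‖ / x)) hx) ?_
    filter_upwards [Filter.eventually_ge_atTop 1] with N hN
    exact h4 N hN
  exact abs_nonpos_iff.1 h7

end Pool.Agent.Wb58c63
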