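import Pool.Agent.W_b58c63_h68.SgB
import Pool.Agent.W_b58c63_h68.SUbE

/-!
# Siegel's theorem: the bound on the circle (helper49)
-/

set_option autoImplicit false

noncomputable section

open Finset DirichletCharacter

namespace Pool.Agent.Wb58c63

lemma sgbb_circle {s : ℂ} (hs : ‖s - 2‖ = 4 / 3) :
    2 / 3 ≤ s.re ∧ ‖s‖ ≤ 10 / 3 ∧ 1 / 3 ≤ ‖s - 1‖ := by
  refine ⟨?_, ?_, ?_⟩
  · have h1 := Complex.abs_re_le_norm (s - 2)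
    rw [hs] at h1
    have h2 : (s - 2).re = s.re - 2 := by simp
    rw [h2] at h1
    linarith [(abs_le.1 h1).1]
  · have h1 : s = (s - 2) + 2 := by ring
    calc ‖s‖ = ‖(s - 2) + 2‖ := by rw [← h1]
      _ ≤ ‖s - 2‖ + ‖(2 : ℂ)‖ := norm_add_le _ _
      _ = 10 / 3 := by rw [hs]; norm_num
  · have h1 : s - 2 = (s - 1) - 1 := by ring
    have h2 : ‖s - 2‖ ≤ ‖s - 1‖ + ‖(1 : ℂ)‖ := by
      rw [h1]; exact norm_sub_le _ _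
    rw [hs, norm_one] at h2
    linarith

lemma sgbb_L {r : ℕ} [NeZero r] (χ : DirichletCharacter ℂ r) (hχ : χ ≠ 1) {s : ℂ}
    (hs : ‖s - 2‖ = 4 / 3) : ‖LFunction χ s‖ ≤ 6 * r := by
  obtain ⟨h1, h2, _⟩ := sgbb_circle hs
  have h0 : 0 < s.re := by linarith
  refine (sw_crude χ hχ h0).trans ?_
  have h3 : ‖s‖ / s.re ≤ 5 := by
    rw [div_le_iff₀ h0]
    linarith
  have hr : (0 : ℝ) ≤ r := Nat.cast_nonneg r
  nlinarith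

lemma sgbb_L1 {r : ℕ} [NeZero r] (χ : DirichletCharacter ℂ r) (hχ : χ ≠ 1) :
    ‖LFunction χ 1‖ ≤ 2 * r := by
  refine (sw_crude χ hχ (s := 1) (by simp)).trans (le_of_eq ?_)
  simp
  ring

/-- The bound on the circle.

Proof. On `‖s - 2‖ = 4 / 3` one has `2 / 3 ≤ s.re`, `‖s‖ ≤ 10 / 3`, so by `sw_crude` an L-function of a
nonprincipal character modulo `q` is at most `6 q`; and `‖s - 1‖ ≥ 1 / 3`. The continuous function `sgZ` is bounded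
by some `C₀ ≥ 1` on the circle (compact). So by the definition of `dslope`,
`‖sgPhi s‖ = ‖(sgG s - sgG 1) / (s - 1)‖ ≤ 3 (C₀ · 6 ^ 3 (q₁ q₂) ^ 2 + 2 ^ 3 (q₁ q₂) ^ 2)` (at `s = 1` `sw_crude` gives
`2 q`, and `sgZ 1 = 1`). -/
theorem sgPhi_bound :
    ∃ C : ℝ, 1 ≤ C ∧ ∀ (q₁ q₂ : ℕ) [NeZero q₁] [NeZero q₂] (χ₁ : DirichletCharacter ℂ q₁)
      (χ₂ : DirichletCharacter ℂ q₂), χ₁ ≠ 1 → χ₂ ≠ 1 → chi12 χ₁ χ₂ ≠ 1 → ∀ s : ℂ, ‖s - 2‖ = 4 / 3 →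
        ‖sgPhi χ₁ χ₂ s‖ ≤ C * ((q₁ : ℝ) * q₂) ^ 2 := by
  obtain ⟨C₀, hC₀⟩ := (isCompact_sphere (2 : ℂ) (4 / 3)).exists_bound_of_continuousOn
    sgZ_diff.continuous.continuousOn
  refine ⟨3 * (216 * max C₀ 1 + 8), ?_, ?_⟩
  · have := le_max_right C₀ 1
    linarith
  intro q₁ q₂ _ _ χ₁ χ₂ h1 h2 h12 s hs
  obtain ⟨_, _, hs3⟩ := sgbb_circle hs
  have hs1 : s ≠ 1 := by
    rintro rfl
    rw [sub_self, norm_zero] at hs3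
    norm_num at hs3
  have hZ : ‖sgZ s‖ ≤ max C₀ 1 :=
    (hC₀ s (by rw [mem_sphere_iff_norm]; exact hs)).trans (le_max_left _ _)
  have hZ1 : sgZ 1 = 1 := by
    unfold sgZ
    simp
  have hq1 : (0 : ℝ) ≤ q₁ := Nat.cast_nonneg _
  have hq2 : (0 : ℝ) ≤ q₂ := Nat.cast_nonneg _
  have hM : (0 : ℝ) ≤ max C₀ 1 := le_trans zero_le_one (le_max_right _ _)
  have b1 : ‖sgG χ₁ χ₂ s‖ ≤ 216 * max C₀ 1 * ((q₁ : ℝ) * q₂) ^ 2 := by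
    unfold sgG
    rw [norm_mul, norm_mul, norm_mul]
    have e1 := sgbb_L χ₁ h1 hs
    have e2 := sgbb_L χ₂ h2 hs
    have e3 := sgbb_L (chi12 χ₁ χ₂) h12 hs
    push_cast at e3
    calc ‖sgZ s‖ * ‖LFunction χ₁ s‖ * ‖LFunction χ₂ s‖ * ‖LFunction (chi12 χ₁ χ₂) s‖
        ≤ max C₀ 1 * (6 * q₁) * (6 * q₂) * (6 * (q₁ * q₂)) := by
          gcongr
      _ = 216 * max C₀ 1 * ((q₁ : ℝ) * q₂) ^ 2 := by ring
  have b2 : ‖sgG χ₁ χ₂ 1‖ ≤ 8 * ((q₁ : ℝ) * q₂) ^ 2 := by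
    unfold sgG
    rw [hZ1, one_mul, norm_mul, norm_mul]
    have e1 := sgbb_L1 χ₁ h1
    have e2 := sgbb_L1 χ₂ h2
    have e3 := sgbb_L1 (chi12 χ₁ χ₂) h12
    push_cast at e3
    calc ‖LFunction χ₁ 1‖ * ‖LFunction χ₂ 1‖ * ‖LFunction (chi12 χ₁ χ₂) 1‖
        ≤ (2 * q₁) * (2 * q₂) * (2 * (q₁ * q₂)) := by
          gcongr
      _ = 8 * ((q₁ : ℝ) * q₂) ^ 2 := by ring
  have hs0 : 0 < ‖s - 1‖ := by linarith
  unfold sgPhi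
  rw [dslope_of_ne _ hs1, slope_def_field, norm_div, div_le_iff₀ hs0]
  have b3 : ‖sgG χ₁ χ₂ s - sgG χ₁ χ₂ 1‖ ≤
      (216 * max C₀ 1 + 8) * ((q₁ : ℝ) * q₂) ^ 2 := by
    refine (norm_sub_le _ _).trans ?_
    linarith
  refine b3.trans ?_
  have h0 : 0 ≤ (216 * max C₀ 1 + 8) * ((q₁ : ℝ) * q₂) ^ 2 := by positivity
  nlinarith

end Pool.Agent.Wb58c63
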