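import Mathlib

/-!
# Siegel's theorem: the lemma of Estermann (helper49)
-/

set_option autoImplicit false

noncomputable section

open Finset

namespace Pool.Agent.Wb58c63

theorem SgC_base : (27 / 32 : ℝ) ≤ Real.exp (-(1 / 6)) := by
  have h1 : (27 / 32 : ℝ) ^ 6 ≤ (Real.exp (-(1 / 6))) ^ 6 := by
    rw [← Real.exp_nat_mul]
    have e : ((6 : ℕ) : ℝ) * (-(1 / 6)) = -1 := by norm_num
    rw [e, Real.exp_neg]
    have h := Real.exp_one_lt_d9
    have h0 := Real.exp_pos 1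
    have h2 : (2.7182818286 : ℝ)⁻¹ ≤ (Real.exp 1)⁻¹ := inv_anti₀ h0 h.le
    refine le_trans ?_ h2
    norm_num
  exact le_of_pow_le_pow_left₀ (by norm_num) (Real.exp_pos _).le h1

theorem SgC_tail {M : ℝ} (hM : 1 ≤ M) {K : ℕ} (hK : 6 * Real.log (13 * M) ≤ K) :
    32 / 5 * M * (27 / 32) ^ K ≤ 1 / 2 := by
  have hM0 : 0 < M := by linarith
  have h13 : 0 < 13 * M := by linarith
  have h1 : (27 / 32 : ℝ) ^ K ≤ (13 * M)⁻¹ := by
    calc (27 / 32 : ℝ) ^ K ≤ (Real.exp (-(1 / 6))) ^ K :=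
          pow_le_pow_left₀ (by norm_num) SgC_base K
      _ = Real.exp (K * (-(1 / 6))) := (Real.exp_nat_mul _ _).symm
      _ ≤ Real.exp (-Real.log (13 * M)) := by
          apply Real.exp_le_exp.mpr
          linarith
      _ = (13 * M)⁻¹ := by rw [Real.exp_neg, Real.exp_log h13]
  calc 32 / 5 * M * (27 / 32) ^ K ≤ 32 / 5 * M * (13 * M)⁻¹ :=
        mul_le_mul_of_nonneg_left h1 (by positivity)
    _ = 32 / 65 := by field_simp; norm_num
    _ ≤ 1 / 2 := by norm_num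

theorem SgC_pow {M s : ℝ} (hM : 1 ≤ M) (hs : 7 / 8 ≤ s) (hs1 : s < 1) {K : ℕ}
    (hK : (K : ℝ) ≤ 6 * Real.log (13 * M) + 1) :
    (2 - s) ^ K ≤ 50 * M ^ (6 * (1 - s)) := by
  have hM0 : 0 < M := by linarith
  have h13 : 0 < 13 * M := by linarith
  have h1s : 0 ≤ 1 - s := by linarith
  have hu : 2 - s ≤ Real.exp (1 - s) := by
    have := Real.add_one_le_exp (1 - s)
    linarith
  have h1 : (2 - s) ^ K ≤ Real.exp ((1 - s) + Real.log (13 * M) * (6 * (1 - s))) := by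
    calc (2 - s) ^ K ≤ (Real.exp (1 - s)) ^ K := pow_le_pow_left₀ (by linarith) hu K
      _ = Real.exp (K * (1 - s)) := (Real.exp_nat_mul _ _).symm
      _ ≤ _ := by
          apply Real.exp_le_exp.mpr
          have := mul_le_mul_of_nonneg_right hK h1s
          linarith
  have h2 : Real.exp ((1 - s) + Real.log (13 * M) * (6 * (1 - s))) =
      Real.exp (1 - s) * (13 ^ (6 * (1 - s)) * M ^ (6 * (1 - s))) := by
    rw [Real.exp_add, ← Real.rpow_def_of_pos h13, Real.mul_rpow (by norm_num) hM0.le]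
  have h3 : Real.exp (1 - s) ≤ 3 := by
    have h4 : Real.exp (1 - s) ≤ Real.exp 1 := Real.exp_le_exp.mpr (by linarith)
    have := Real.exp_one_lt_d9
    linarith
  have h5 : (13 : ℝ) ^ (6 * (1 - s)) ≤ 13 := by
    calc (13 : ℝ) ^ (6 * (1 - s)) ≤ 13 ^ (1 : ℝ) :=
          Real.rpow_le_rpow_of_exponent_le (by norm_num) (by linarith)
      _ = 13 := Real.rpow_one _
  have hMp : 0 ≤ M ^ (6 * (1 - s)) := Real.rpow_nonneg hM0.le _
  have h6 : (0 : ℝ) ≤ 13 ^ (6 * (1 - s)) := Real.rpow_nonneg (by norm_num) _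
  rw [h2] at h1
  refine h1.trans ?_
  calc Real.exp (1 - s) * (13 ^ (6 * (1 - s)) * M ^ (6 * (1 - s)))
      ≤ 3 * (13 * M ^ (6 * (1 - s))) :=
        mul_le_mul h3 (mul_le_mul_of_nonneg_right h5 hMp) (by positivity) (by norm_num)
    _ ≤ 50 * M ^ (6 * (1 - s)) := by nlinarith

theorem SgC_coeff {Φ : ℂ → ℂ} (hΦ : Differentiable ℂ Φ) {M : ℝ}
    (hb : ∀ z : ℂ, ‖z - 2‖ = 4 / 3 → ‖Φ z‖ ≤ M) {lam : ℝ} {β : ℕ → ℝ}
    (hc : ∀ m, iteratedDeriv m Φ 2 = (-1) ^ m * (m.factorial : ℂ) * ((β m : ℂ) - lam)) (m : ℕ) :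
    |β m - lam| ≤ M * (3 / 4) ^ m := by
  have h := Complex.norm_iteratedDeriv_le_of_forall_mem_sphere_norm_le (c := 2) (R := 4 / 3) (C := M)
    (f := Φ) m (by norm_num) hΦ.diffContOnCl (fun z hz => hb z (mem_sphere_iff_norm.1 hz))
  rw [hc m, norm_mul, norm_mul, norm_pow, norm_neg, norm_one, one_pow, one_mul] at h
  have e1 : ((β m : ℂ) - lam) = ((β m - lam : ℝ) : ℂ) := by push_cast; rfl
  rw [e1, Complex.norm_real, Real.norm_eq_abs, Complex.norm_natCast] at h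
  have hf : (0 : ℝ) < m.factorial := by exact_mod_cast m.factorial_pos
  have h2 : (m.factorial : ℝ) * |β m - lam| ≤ (m.factorial : ℝ) * (M * (3 / 4) ^ m) := by
    refine h.trans (le_of_eq ?_)
    rw [mul_div_assoc, div_eq_mul_inv M, ← inv_pow]
    norm_num
  exact le_of_mul_le_mul_left h2 hf

theorem SgC_hasSum {Φ : ℂ → ℂ} (hΦ : Differentiable ℂ Φ) {lam : ℝ} {β : ℕ → ℝ}
    (hc : ∀ m, iteratedDeriv m Φ 2 = (-1) ^ m * (m.factorial : ℂ) * ((β m : ℂ) - lam)) (s : ℝ) :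
    HasSum (fun m : ℕ => (β m - lam) * (2 - s) ^ m) (Φ s).re := by
  have h := Complex.hasSum_taylorSeries_of_entire hΦ 2 (s : ℂ)
  have e : (fun n : ℕ => ((n.factorial : ℂ))⁻¹ • ((s : ℂ) - 2) ^ n • iteratedDeriv n Φ 2) =
      fun n : ℕ => (((β n - lam) * (2 - s) ^ n : ℝ) : ℂ) := by
    funext n
    have hf : (n.factorial : ℂ) ≠ 0 := by exact_mod_cast n.factorial_ne_zero
    have e2 : ((s : ℂ) - 2) ^ n * (-1) ^ n = (2 - (s : ℂ)) ^ n := by
      rw [← mul_pow]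
      congr 1
      ring
    rw [hc n, smul_eq_mul, smul_eq_mul]
    push_cast
    rw [← e2]
    field_simp
  rw [e] at h
  have h2 := Complex.hasSum_re h
  simp only [Complex.ofReal_re] at h2
  exact h2

/-- The lemma of Estermann.

Proof. Cauchy's estimate (`Complex.norm_iteratedDeriv_le_of_forall_mem_sphere_norm_le`, radius `4 / 3`):
`|β m - λ| ≤ M (3 / 4) ^ m`. The Taylor series of `Φ` at `2` (`Complex.hasSum_taylorSeries_of_entire` or
`Complex.taylorSeries_eq_of_entire`) at the point `s` gives `Φ s = ∑ (β m - λ) (2 - s) ^ m`, `1 < 2 - s ≤ 9 / 8`. For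
every `K` the terms `m ≥ K` contribute at most `∑_{m ≥ K} M (27 / 32) ^ m = (32 / 5) M (27 / 32) ^ K` in absolute
value, and the terms `m < K` at least `1 - λ ∑_{m < K} (2 - s) ^ m = 1 - λ ((2 - s) ^ K - 1) / (1 - s)` (`β m ≥ 0`,
`β 0 ≥ 1`, geometric sum). So `Re Φ(s) + λ / (s - 1) ≥ 1 - (32 / 5) M (27 / 32) ^ K - λ (2 - s) ^ K / (1 - s)`. Let
`K = ⌈6 log (13 M)⌉₊`; then `(32 / 5) M (27 / 32) ^ K ≤ 1 / 2` (`6 log (32 / 27) ≥ 1`, i.e.
`(32 / 27) ^ 6 ≥ 2.7183 > e`, so `(27 / 32) ^ K ≤ exp (-K / 6) ≤ 1 / (13 M)`). If the left side is `≤ 0` we get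
`λ (2 - s) ^ K / (1 - s) ≥ 1 / 2`, so `λ > 0` and `λ ≥ (1 - s) / (2 (2 - s) ^ K)`, where
`(2 - s) ^ K ≤ exp ((1 - s) K) ≤ exp ((1 - s) (6 log (13 M) + 1)) ≤ exp (1 / 8) 13 ^ (3 / 4) M ^ (6 (1 - s))` and
`exp (1 / 8) 13 ^ (3 / 4) ≤ 3 · 13 ≤ 50`. -/
theorem sg_estermann {Φ : ℂ → ℂ} (hΦ : Differentiable ℂ Φ) {M : ℝ} (hM : 1 ≤ M)
    (hb : ∀ z : ℂ, ‖z - 2‖ = 4 / 3 → ‖Φ z‖ ≤ M) {lam : ℝ} {β : ℕ → ℝ} (hβ : ∀ m, 0 ≤ β m) (hβ0 : 1 ≤ β 0)
    (hc : ∀ m, iteratedDeriv m Φ 2 = (-1) ^ m * (m.factorial : ℂ) * ((β m : ℂ) - lam)) {s : ℝ}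
    (hs : 7 / 8 ≤ s) (hs1 : s < 1) (hneg : (Φ s).re + lam / (s - 1) ≤ 0) :
    (1 - s) / 100 * M ^ (-(6 * (1 - s))) ≤ lam := by
  have hM0 : 0 < M := by linarith
  have h1s : 0 < 1 - s := by linarith
  have hlog : 0 < 6 * Real.log (13 * M) := by
    have := Real.log_pos (show (1 : ℝ) < 13 * M by linarith)
    linarith
  obtain ⟨K, hK1, hK2, hKpos⟩ : ∃ K : ℕ, 6 * Real.log (13 * M) ≤ K ∧
      (K : ℝ) ≤ 6 * Real.log (13 * M) + 1 ∧ 0 < K :=
    ⟨⌈6 * Real.log (13 * M)⌉₊, Nat.le_ceil _, (Nat.ceil_lt_add_one hlog.le).le,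
      Nat.ceil_pos.mpr hlog⟩
  have hsum := SgC_hasSum hΦ hc s
  have hco := SgC_coeff hΦ hb hc
  have htail := SgC_tail hM hK1
  have hpow := SgC_pow hM hs hs1 hK2
  have hu0 : 0 < 2 - s := by linarith
  -- the tail
  have hsm := hsum.summable
  have hsplit := hsm.sum_add_tsum_nat_add K
  rw [hsum.tsum_eq] at hsplit
  have hg : HasSum (fun m : ℕ => M * (27 / 32) ^ K * (27 / 32 : ℝ) ^ m)
      (M * (27 / 32) ^ K * (1 - 27 / 32)⁻¹) :=
    (hasSum_geometric_of_lt_one (by norm_num) (by norm_num)).mul_left _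
  have hT : -(M * (27 / 32) ^ K * (1 - 27 / 32)⁻¹) ≤
      ∑' m : ℕ, (β (m + K) - lam) * (2 - s) ^ (m + K) := by
    have hsm2 : Summable (fun m : ℕ => (β (m + K) - lam) * (2 - s) ^ (m + K)) :=
      (summable_nat_add_iff K).2 hsm
    refine hasSum_le (fun m => ?_) hg.neg hsm2.hasSum
    have h1 := hco (m + K)
    have h2 : |(β (m + K) - lam) * (2 - s) ^ (m + K)| ≤ M * (27 / 32) ^ K * (27 / 32 : ℝ) ^ m := by
      rw [abs_mul, abs_of_pos (pow_pos hu0 _)]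
      calc |β (m + K) - lam| * (2 - s) ^ (m + K)
          ≤ (M * (3 / 4) ^ (m + K)) * (9 / 8) ^ (m + K) :=
            mul_le_mul h1 (pow_le_pow_left₀ hu0.le (by linarith) _) (by positivity) (by positivity)
        _ = M * (27 / 32) ^ K * (27 / 32 : ℝ) ^ m := by
            rw [mul_assoc, ← mul_pow, mul_assoc, ← pow_add]
            norm_num [add_comm]
    exact (abs_le.1 h2).1
  have hH : 1 - lam * (((2 - s) ^ K - 1) / (1 - s)) ≤
      ∑ m ∈ range K, (β m - lam) * (2 - s) ^ m := by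
    have e1 : ∑ m ∈ range K, (β m - lam) * (2 - s) ^ m =
        ∑ m ∈ range K, β m * (2 - s) ^ m - lam * ∑ m ∈ range K, (2 - s) ^ m := by
      rw [mul_sum, ← sum_sub_distrib]
      exact sum_congr rfl fun m _ => by ring
    have e2 : ∑ m ∈ range K, (2 - s) ^ m = ((2 - s) ^ K - 1) / (1 - s) := by
      rw [geom_sum_eq (by linarith)]
      congr 1
      ring
    have h3 : 1 ≤ ∑ m ∈ range K, β m * (2 - s) ^ m := by
      have h4 : β 0 * (2 - s) ^ 0 ≤ ∑ m ∈ range K, β m * (2 - s) ^ m :=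
        single_le_sum (f := fun m => β m * (2 - s) ^ m)
          (fun m _ => mul_nonneg (hβ m) (pow_pos hu0 m).le) (mem_range.2 hKpos)
      rw [pow_zero, mul_one] at h4
      linarith
    rw [e1, e2]
    linarith
  have hfin : (1 - s) / 2 ≤ lam * (2 - s) ^ K := by
    have e3 : lam / (s - 1) = -(lam / (1 - s)) := by
      rw [← neg_sub 1 s, div_neg]
    have e4 : lam * (((2 - s) ^ K - 1) / (1 - s)) = lam * (2 - s) ^ K / (1 - s) - lam / (1 - s) := by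
      ring
    have e5 : M * (27 / 32) ^ K * (1 - 27 / 32)⁻¹ = 32 / 5 * M * (27 / 32) ^ K := by
      norm_num
      ring
    rw [e3] at hneg
    rw [e4] at hH
    rw [e5] at hT
    have h6 : 1 / 2 ≤ lam * (2 - s) ^ K / (1 - s) := by linarith
    rw [le_div_iff₀ h1s] at h6
    linarith
  have hlam : 0 < lam := by
    by_contra hcon
    have : lam * (2 - s) ^ K ≤ 0 := mul_nonpos_of_nonpos_of_nonneg (not_lt.1 hcon) (pow_pos hu0 K).le
    linarith
  have hMp : 0 < M ^ (6 * (1 - s)) := Real.rpow_pos_of_pos hM0 _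
  rw [Real.rpow_neg hM0.le]
  have h7 : (1 - s) / 2 ≤ lam * (50 * M ^ (6 * (1 - s))) :=
    hfin.trans (mul_le_mul_of_nonneg_left hpow hlam.le)
  rw [← div_eq_mul_inv, div_le_iff₀ hMp]
  linarith

end Pool.Agent.Wb58c63
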