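import Pool.Agent.W_b58c63_h68.SgBc
import Pool.Agent.W_b58c63_h68.SgBb
import Pool.Agent.W_b58c63_h68.SgC
import Pool.Agent.W_b58c63_h68.SUbC
import Pool.Agent.W_b58c63_h68.SUbE

/-!
# Siegel's theorem: the step (helper49)
-/

set_option autoImplicit false

noncomputable section

open Finset DirichletCharacter

namespace Pool.Agent.Wb58c63

theorem SgDs_sq {q₁ q₂ : ℕ} {χ₁ : DirichletCharacter ℂ q₁} {χ₂ : DirichletCharacter ℂ q₂}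
    (h1 : χ₁ ^ 2 = 1) (h2 : χ₂ ^ 2 = 1) : (chi12 χ₁ χ₂) ^ 2 = 1 := by
  unfold chi12
  rw [mul_pow, ← map_pow, ← map_pow, h1, h2, map_one, map_one, mul_one]

theorem SgDs_real {q₁ q₂ : ℕ} [NeZero q₁] [NeZero q₂] {χ₁ : DirichletCharacter ℂ q₁}
    {χ₂ : DirichletCharacter ℂ q₂} (h1 : χ₁ ≠ 1) (h1' : χ₁ ^ 2 = 1) (h2 : χ₂ ≠ 1)
    (h2' : χ₂ ^ 2 = 1) (h12 : chi12 χ₁ χ₂ ≠ 1) : sgl χ₁ χ₂ = (((sgl χ₁ χ₂).re : ℝ) : ℂ) := by
  have a1 := sw_real χ₁ h1 h1' one_pos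
  have a2 := sw_real χ₂ h2 h2' one_pos
  have a3 := sw_real (chi12 χ₁ χ₂) h12 (SgDs_sq h1' h2') one_pos
  rw [Complex.ofReal_one] at a1 a2 a3
  apply Complex.ext
  · simp
  · rw [Complex.ofReal_im]
    unfold sgl
    rw [Complex.mul_im, Complex.mul_im, a1, a2, a3]
    ring

/-- The arithmetic of the step. -/
theorem SgDs_arith {b C C' A L q r lam e e' : ℝ} (hb : 0 < 1 - b) (hC : 1 ≤ C) (hC' : 1 ≤ C')
    (hA : 0 < A) (hL : 0 ≤ L) (hq : 1 ≤ q) (hr : 1 ≤ r) (hee : 2 * e' ≤ e)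
    (h1 : (1 - b) / 100 * (C * (q * r) ^ 2) ^ (-(6 * (1 - b))) ≤ lam)
    (h2 : lam ≤ A * L * (C' * (q * r * 2) ^ (2 * e'))) :
    (1 - b) / 100 * C ^ (-(6 * (1 - b))) * q ^ (-(12 * (1 - b))) / (A * C' * (2 * q) ^ e) *
      r ^ (-(12 * (1 - b) + e)) ≤ L := by
  have hq0 : 0 < q := by linarith
  have hr0 : 0 < r := by linarith
  have hC0 : 0 < C := by linarith
  have hC0' : 0 < C' := by linarith
  have hqr : 1 ≤ q * r * 2 := by nlinarith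
  have e1 : (C * (q * r) ^ 2) ^ (-(6 * (1 - b))) =
      C ^ (-(6 * (1 - b))) * (q ^ (-(12 * (1 - b))) * r ^ (-(12 * (1 - b)))) := by
    rw [Real.mul_rpow hC0.le (by positivity), ← Real.mul_rpow hq0.le hr0.le,
      ← Real.rpow_natCast (q * r) 2, ← Real.rpow_mul (by positivity)]
    congr 2
    push_cast
    ring
  have e2 : (q * r * 2) ^ (2 * e') ≤ (2 * q) ^ e * r ^ e := by
    rw [← Real.mul_rpow (by positivity) hr0.le]
    calc (q * r * 2) ^ (2 * e') ≤ (q * r * 2) ^ e := Real.rpow_le_rpow_of_exponent_le hqr hee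
      _ = (2 * q * r) ^ e := by congr 1; ring
  have e3 : r ^ (-(12 * (1 - b) + e)) = r ^ (-(12 * (1 - b))) / r ^ e := by
    rw [neg_add, Real.rpow_add hr0, Real.rpow_neg hr0.le e]
    rfl
  have p1 : 0 < (2 * q) ^ e := Real.rpow_pos_of_pos (by positivity) _
  have p2 : 0 < r ^ e := Real.rpow_pos_of_pos hr0 _
  have h3 : (1 - b) / 100 * (C ^ (-(6 * (1 - b))) * (q ^ (-(12 * (1 - b))) * r ^ (-(12 * (1 - b)))))
      ≤ A * L * (C' * ((2 * q) ^ e * r ^ e)) := by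
    rw [← e1]
    refine h1.trans (h2.trans ?_)
    gcongr
  rw [e3, div_mul_div_comm, div_le_iff₀ (by positivity)]
  calc (1 - b) / 100 * C ^ (-(6 * (1 - b))) * q ^ (-(12 * (1 - b))) * r ^ (-(12 * (1 - b)))
      = (1 - b) / 100 * (C ^ (-(6 * (1 - b))) * (q ^ (-(12 * (1 - b))) * r ^ (-(12 * (1 - b))))) := by
        ring
    _ ≤ A * L * (C' * ((2 * q) ^ e * r ^ e)) := h3
    _ = L * (A * C' * (2 * q) ^ e * r ^ e) := by ring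

/-- The step: a fixed real character `χ₁` and a point `β` where the product of the four L-functions is `≤ 0`.

Proof. Let `F β` be the product. `sgl χ₁ χ₂` is real (`sw_real` at `1`), say `λ`. `Re (sgPhi χ₁ χ₂ β) + λ / (β - 1) =
Re F β ≤ 0` (`sgPhi_eq`). `sg_estermann` with `M = C (q₁ q₂) ^ 2` (`sgPhi_bound`) and `sgPhi_coeff`, `sgPhi_diff`
gives `(1 - β) / 100 M ^ (-6 (1 - β)) ≤ λ`, so `c₁ q₂ ^ (-12 (1 - β)) ≤ λ = ‖L(1, χ₁)‖ ‖L(1, χ₂)‖ ‖L(1, χ₁ χ₂)‖` with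
`c₁` depending on `q₁` and `β` only, and `‖L(1, χ₁ χ₂)‖ ≤ C' QQ (q₁ q₂) 0 ^ ε = C' (2 q₁ q₂) ^ ε` by `sw_eps` (with
`min (ε / 2) (1 / 2)`). -/
theorem sg_step {q₁ : ℕ} [NeZero q₁] (χ₁ : DirichletCharacter ℂ q₁) (h1 : χ₁ ≠ 1) (h1' : χ₁ ^ 2 = 1) {β : ℝ}
    (hβ : 7 / 8 ≤ β) (hβ1 : β < 1) (ε : ℝ) (hε : 0 < ε) :
    ∃ c : ℝ, 0 < c ∧ ∀ (q₂ : ℕ) [NeZero q₂] (χ₂ : DirichletCharacter ℂ q₂), χ₂ ≠ 1 → χ₂ ^ 2 = 1 →
      chi12 χ₁ χ₂ ≠ 1 →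
      (riemannZeta (β : ℂ) * LFunction χ₁ (β : ℂ) * LFunction χ₂ (β : ℂ) *
        LFunction (chi12 χ₁ χ₂) (β : ℂ)).re ≤ 0 →
      c * (q₂ : ℝ) ^ (-(12 * (1 - β) + ε)) ≤ ‖LFunction χ₂ 1‖ := by
  obtain ⟨C, hC, hCb⟩ := sgPhi_bound
  have hε' : 0 < min (ε / 2) (1 / 2) := lt_min (by linarith) (by norm_num)
  obtain ⟨C', hC', hCe⟩ := sw_eps (min (ε / 2) (1 / 2)) hε' (min_le_right _ _)
  have hA : 0 < ‖LFunction χ₁ 1‖ := norm_pos_iff.2 (LFunction_apply_one_ne_zero h1)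
  have hq₁ : (1 : ℝ) ≤ q₁ := by exact_mod_cast Nat.one_le_iff_ne_zero.2 (NeZero.ne q₁)
  have hb : 0 < 1 - β := by linarith
  refine ⟨(1 - β) / 100 * C ^ (-(6 * (1 - β))) * (q₁ : ℝ) ^ (-(12 * (1 - β))) /
    (‖LFunction χ₁ 1‖ * C' * (2 * (q₁ : ℝ)) ^ ε), ?_, ?_⟩
  · have : 0 < C := by linarith
    have : 0 < C' := by linarith
    have : 0 < (q₁ : ℝ) := by linarith
    positivity
  intro q₂ _ χ₂ h2 h2' h12 hneg
  have hq₂ : (1 : ℝ) ≤ q₂ := by exact_mod_cast Nat.one_le_iff_ne_zero.2 (NeZero.ne q₂)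
  have hreal := SgDs_real h1 h1' h2 h2' h12
  obtain ⟨co, hco, hco0, hcoe⟩ := sgPhi_coeff h1 h2 h12 h1' h2'
  have hM : (1 : ℝ) ≤ C * ((q₁ : ℝ) * q₂) ^ 2 := by
    have h3 : (1 : ℝ) ≤ (q₁ : ℝ) * q₂ := by nlinarith
    have h4 : (1 : ℝ) ≤ ((q₁ : ℝ) * q₂) ^ 2 := one_le_pow₀ h3
    nlinarith
  have hβ' : (β : ℂ) ≠ 1 := by
    intro h
    have := Complex.ofReal_eq_one.1 h
    linarith
  have hest := sg_estermann (Φ := sgPhi χ₁ χ₂) (sgPhi_diff h1 h2 h12) hM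
    (hCb q₁ q₂ χ₁ χ₂ h1 h2 h12) hco hco0 (lam := (sgl χ₁ χ₂).re)
    (fun m => by rw [hcoe m, ← hreal]) hβ hβ1 (by
      rw [sgPhi_eq hβ', Complex.sub_re]
      have h3 : (sgl χ₁ χ₂ / ((β : ℂ) - 1)).re = (sgl χ₁ χ₂).re / (β - 1) := by
        rw [hreal, ← Complex.ofReal_one, ← Complex.ofReal_sub, ← Complex.ofReal_div,
          Complex.ofReal_re, Complex.ofReal_re]
      rw [h3]
      linarith)
  refine SgDs_arith (e' := min (ε / 2) (1 / 2)) hb hC hC' hA (norm_nonneg _) hq₁ hq₂ ?_ hest ?_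
  · have := min_le_left (ε / 2) (1 / 2)
    linarith
  · refine (Complex.re_le_norm _).trans ?_
    unfold sgl
    rw [norm_mul, norm_mul]
    refine mul_le_mul_of_nonneg_left ?_ (by positivity)
    have h3 := hCe (q₁ * q₂) (chi12 χ₁ χ₂) h12 1 (by rw [Complex.one_re]; linarith)
      (by rw [Complex.one_re]; norm_num)
    unfold QQ at h3
    rw [Complex.one_im, abs_zero, zero_add] at h3
    push_cast at h3
    exact h3

end Pool.Agent.Wb58c63
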