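import Mathlib

/-!
# Siegel's theorem: small facts (helper49)
-/

set_option autoImplicit false

noncomputable section

open Finset DirichletCharacter

namespace Pool.Agent.Wb58c63

/-- There is a real nonprincipal character.

Proof. The quadratic character of `ZMod 3` (`quadraticChar`, `quadraticChar_ne_one`,
`quadraticChar_isQuadratic`), composed with the inclusion of the integers into `ℂ`
(`MulChar.ringHomComp (Int.castRingHom ℂ)`). -/
theorem sg_exists_real : ∃ χ : DirichletCharacter ℂ 3, χ ≠ 1 ∧ χ ^ 2 = 1 := by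
  have : Fact (Nat.Prime 3) := ⟨Nat.prime_three⟩
  have hq : quadraticChar (ZMod 3) ≠ 1 := quadraticChar_ne_one (by
    rw [ZMod.ringChar_zmod_n]; norm_num)
  have hinj : Function.Injective (Int.castRingHom ℂ) := Int.cast_injective
  refine ⟨(quadraticChar (ZMod 3)).ringHomComp (Int.castRingHom ℂ), ?_, ?_⟩
  · exact (MulChar.ringHomComp_ne_one_iff hinj).2 hq
  · rw [MulChar.ringHomComp_pow, (quadraticChar_isQuadratic (F := ZMod 3)).sq_eq_one]
    exact MulChar.ringHomComp_one _

/-- A primitive character to a modulus larger than `1` is not principal.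

Proof. The conductor of `1` is `1` (`conductor_one`). -/
theorem sg_prim_ne_one {r : ℕ} [NeZero r] (χ : DirichletCharacter ℂ r) (hr : 1 < r) (hχ : χ.IsPrimitive) :
    χ ≠ 1 := by
  rintro rfl
  have h := hχ
  rw [isPrimitive_def, conductor_one] at h
  omega

/-- Finitely many moduli.

Proof. There are finitely many nonprincipal characters of modulus at most `K` (`Finite (DirichletCharacter ℂ r)`),
and `‖L(1, χ)‖ > 0` for each of them (`LFunction_apply_one_ne_zero`); take the minimum, by induction on `K` and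
`Finite.exists_min` or `Set.Finite`. -/
theorem sg_small (K : ℕ) : ∃ c : ℝ, 0 < c ∧ ∀ (r : ℕ) [NeZero r] (χ : DirichletCharacter ℂ r), r ≤ K → χ ≠ 1 →
    c ≤ ‖LFunction χ 1‖ := by
  induction K with
  | zero =>
    refine ⟨1, one_pos, fun r _ χ hr _ => ?_⟩
    exact absurd (Nat.le_zero.1 hr) (NeZero.ne r)
  | succ K ih =>
    obtain ⟨c, hc, hcK⟩ := ih
    have h2 : ∃ c' : ℝ, 0 < c' ∧ ∀ χ : DirichletCharacter ℂ (K + 1), χ ≠ 1 →
        c' ≤ ‖LFunction χ 1‖ := by
      by_cases hne : Nonempty {χ : DirichletCharacter ℂ (K + 1) // χ ≠ 1}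
      · obtain ⟨χ₀, hχ₀⟩ := Finite.exists_min
          (fun χ : {χ : DirichletCharacter ℂ (K + 1) // χ ≠ 1} => ‖LFunction χ.1 1‖)
        exact ⟨_, norm_pos_iff.2 (LFunction_apply_one_ne_zero χ₀.2), fun χ hχ => hχ₀ ⟨χ, hχ⟩⟩
      · refine ⟨1, one_pos, fun χ hχ => ?_⟩
        exact absurd ⟨⟨χ, hχ⟩⟩ hne
    obtain ⟨c', hc', hcK'⟩ := h2
    refine ⟨min c c', lt_min hc hc', fun r inst χ hr hχ => ?_⟩
    rcases Nat.lt_or_ge K r with h | h
    · have hr' : r = K + 1 := by omega
      subst hr'
      exact (min_le_right _ _).trans (hcK' χ hχ)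
    · exact (min_le_left _ _).trans (hcK r χ h hχ)

end Pool.Agent.Wb58c63
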