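import Pool.Agent.W_b58c63_h68.SgEa
import Pool.Agent.W_b58c63_h68.SgEb
import Pool.Agent.W_b58c63_h68.SgD
import Pool.Agent.W_b58c63_h68.SgDs

/-!
# Siegel's theorem (helper49)
-/

set_option autoImplicit false

noncomputable section

open Finset DirichletCharacter

namespace Pool.Agent.Wb58c63

theorem SgE_fin {ε δ : ℝ} (hε : 0 < ε) (hδ : δ ≤ ε / 24) (hδ2 : δ ≤ 1 / 8) {q₁ : ℕ} [NeZero q₁]
    (χ₁ : DirichletCharacter ℂ q₁) (h1 : χ₁ ≠ 1) (h1' : χ₁ ^ 2 = 1) {β : ℝ} (hβ : 1 - δ < β)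
    (hβ1 : β < 1)
    (H : ∀ (r : ℕ) [NeZero r] (χ : DirichletCharacter ℂ r), χ ≠ 1 → χ ^ 2 = 1 → chi12 χ₁ χ ≠ 1 →
      (riemannZeta (β : ℂ) * LFunction χ₁ (β : ℂ) * LFunction χ (β : ℂ) *
        LFunction (chi12 χ₁ χ) (β : ℂ)).re ≤ 0) :
    ∃ c : ℝ, 0 < c ∧ ∀ (r : ℕ) [NeZero r] (χ : DirichletCharacter ℂ r), 1 < r → χ.IsPrimitive → χ ^ 2 = 1 →
      c * (r : ℝ) ^ (-ε) ≤ ‖LFunction χ 1‖ := by
  obtain ⟨c, hc, h⟩ := sg_step χ₁ h1 h1' (β := β) (by linarith) hβ1 (ε / 2) (by positivity)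
  obtain ⟨c', hc', h'⟩ := sg_small q₁
  refine ⟨min c c', lt_min hc hc', fun r _ χ hr hχ hχ2 => ?_⟩
  have hr1 : (1 : ℝ) ≤ r := by exact_mod_cast hr.le
  have hne := sg_prim_ne_one χ hr hχ
  have hp : 0 ≤ (r : ℝ) ^ (-ε) := Real.rpow_nonneg (by linarith) _
  rcases le_or_gt r q₁ with hrq | hrq
  · refine le_trans ?_ (h' r χ hrq hne)
    calc min c c' * (r : ℝ) ^ (-ε) ≤ c' * 1 := by
          refine mul_le_mul (min_le_right _ _) ?_ hp hc'.le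
          exact Real.rpow_le_one_of_one_le_of_nonpos hr1 (by linarith)
      _ = c' := mul_one _
  · have h12 := sg_ne_one χ₁ χ hχ hrq
    refine le_trans ?_ (h r χ hne hχ2 h12 (H r χ hne hχ2 h12))
    refine mul_le_mul (min_le_left _ _) ?_ hp hc.le
    apply Real.rpow_le_rpow_of_exponent_le hr1
    linarith

/-- **Siegel's theorem.**

Proof. Let `δ = min (ε / 24) (1 / 8)`. Case A: there are `q₁`, a real nonprincipal character `χ₁` modulo `q₁` and a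
real `β` with `1 - δ < β < 1` and `LFunction χ₁ β = 0`. Then the product of the four L-functions at `β` is `0`. Case
B: there are no such characters; take `χ₁` from `sg_exists_real` (`q₁ = 3`) and `β` from `sg_zeta_neg`, `1 - δ < β`;
the L-functions of all real nonprincipal characters at `β` are positive reals (`sg_pos`, `sw_real`), `Re ζ(β) < 0`, so
the real part of the product is negative (`chi12_sq`). In both cases `sg_step` with `ε / 2` gives `c` with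
`c r ^ (-(12 (1 - β) + ε / 2)) ≤ ‖L(1, χ)‖` for every real primitive `χ` modulo `r > q₁` (`sg_ne_one`,
`sg_prim_ne_one`), and `12 (1 - β) ≤ ε / 2`, so the left side is at least `c r ^ (-ε)`. For `r ≤ q₁` use
`sg_small q₁` and `r ^ (-ε) ≤ 1`. -/
theorem siegel (ε : ℝ) (hε : 0 < ε) :
    ∃ c : ℝ, 0 < c ∧ ∀ (r : ℕ) [NeZero r] (χ : DirichletCharacter ℂ r), 1 < r → χ.IsPrimitive → χ ^ 2 = 1 →
      c * (r : ℝ) ^ (-ε) ≤ ‖LFunction χ 1‖ := by
  have hδ : 0 < min (ε / 24) (1 / 8) := lt_min (by positivity) (by norm_num)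
  by_cases hA : ∃ (q₁ : ℕ) (_ : NeZero q₁) (χ₁ : DirichletCharacter ℂ q₁) (β : ℝ), χ₁ ≠ 1 ∧
      χ₁ ^ 2 = 1 ∧ 1 - min (ε / 24) (1 / 8) < β ∧ β < 1 ∧ LFunction χ₁ (β : ℂ) = 0
  · obtain ⟨q₁, _, χ₁, β, h1, h1', hβ, hβ1, hz⟩ := hA
    refine SgE_fin hε (min_le_left _ _) (min_le_right _ _) χ₁ h1 h1' hβ hβ1 ?_
    intro r _ χ _ _ _
    rw [hz]
    simp
  · have hB : ∀ (q : ℕ) [NeZero q] (χ : DirichletCharacter ℂ q) (β : ℝ), χ ≠ 1 → χ ^ 2 = 1 →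
        1 - min (ε / 24) (1 / 8) < β → β < 1 → LFunction χ (β : ℂ) ≠ 0 := by
      intro q hq χ β h1 h2 h3 h4 h5
      exact hA ⟨q, hq, χ, β, h1, h2, h3, h4, h5⟩
    obtain ⟨χ₁, h1, h1'⟩ := sg_exists_real
    obtain ⟨β, hβ, hβ1, hζ⟩ := sg_zeta_neg hδ
    have hβ0 : 0 < β := by
      have := min_le_right (ε / 24) (1 / 8 : ℝ)
      linarith
    have hpos : ∀ (q : ℕ) [NeZero q] (χ : DirichletCharacter ℂ q), χ ≠ 1 → χ ^ 2 = 1 →
        ∃ x : ℝ, 0 < x ∧ LFunction χ (β : ℂ) = (x : ℂ) := by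
      intro q _ χ h h'
      refine ⟨(LFunction χ (β : ℂ)).re, sg_pos χ h h' hβ0 (fun y hy hy1 =>
        hB q χ y h h' (by linarith) hy1), ?_⟩
      apply Complex.ext
      · simp
      · rw [sw_real χ h h' hβ0]
        simp
    refine SgE_fin hε (min_le_left _ _) (min_le_right _ _) χ₁ h1 h1' hβ hβ1 ?_
    intro r _ χ h2 h2' h12
    obtain ⟨x, hx, hx'⟩ := hpos 3 χ₁ h1 h1'
    obtain ⟨y, hy, hy'⟩ := hpos r χ h2 h2'
    obtain ⟨z, hz, hz'⟩ := hpos (3 * r) (chi12 χ₁ χ) h12 (chi12_sq h1' h2')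
    rw [hx', hy', hz']
    have e1 : riemannZeta (β : ℂ) * (x : ℂ) * (y : ℂ) * (z : ℂ) =
        ((x * y * z : ℝ) : ℂ) * riemannZeta (β : ℂ) := by
      push_cast
      ring
    rw [e1, Complex.re_ofReal_mul]
    have : 0 < x * y * z := by positivity
    nlinarith

end Pool.Agent.Wb58c63
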