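import Pool.Agent.W_b58c63_h68.Defs

/-!
# The large sieve: kernel and duality (helper68)
-/

set_option autoImplicit false

noncomputable section

open Finset

namespace Pool.Agent.Wb58c63

/-- The additive character `e (x) = exp (2 π i x)`. -/
def ee (x : ℝ) : ℂ := Complex.exp (2 * Real.pi * Complex.I * x)

/-- The distance to the nearest integer. -/
def dn (x : ℝ) : ℝ := |x - round x|

/-- The Fejer kernel `|∑_{j < L} e (j x)| ^ 2 / L`. -/
def Kf (L : ℕ) (x : ℝ) : ℝ := ‖∑ j ∈ range L, ee (j * x)‖ ^ 2 / L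

theorem ee_zero : ee 0 = 1 := by
  unfold ee
  simp

/-- `Complex.exp_add`. -/
theorem ee_add (x y : ℝ) : ee (x + y) = ee x * ee y := by
  unfold ee
  rw [← Complex.exp_add]
  congr 1
  push_cast
  ring

theorem LSa_ee (x : ℝ) : ee x = Complex.exp (Complex.I * ((2 * Real.pi * x : ℝ) : ℂ)) := by
  unfold ee
  congr 1
  push_cast
  ring

/-- `‖exp (i t)‖ = 1`. -/
theorem norm_ee (x : ℝ) : ‖ee x‖ = 1 := by
  rw [LSa_ee, mul_comm, Complex.norm_exp_ofReal_mul_I]

/-- `exp (2 π i n) = 1`. -/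
theorem ee_int (n : ℤ) : ee n = 1 := by
  unfold ee
  rw [Complex.exp_eq_one_iff]
  refine ⟨n, ?_⟩
  push_cast
  ring

theorem LSa_norm_sum (L : ℕ) (x : ℝ) : ‖∑ j ∈ range L, ee (j * x)‖ ≤ L := by
  refine (norm_sum_le _ _).trans ?_
  simp [norm_ee]

/-- Trivial bound, all terms have norm one. -/
theorem Kf_le (L : ℕ) (x : ℝ) : Kf L x ≤ L := by
  unfold Kf
  rcases Nat.eq_zero_or_pos L with h | h
  · subst h
    simp
  · have hL : (0 : ℝ) < L := by exact_mod_cast h
    rw [div_le_iff₀ hL]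
    have := LSa_norm_sum L x
    nlinarith [norm_nonneg (∑ j ∈ range L, ee (j * x))]

theorem LSa_ee_sub (x : ℝ) : 4 * dn x ≤ ‖ee x - 1‖ := by
  have h1 : ee x = ee (x - round x) := by
    have h2 := ee_add (x - round x) (round x)
    rw [ee_int, mul_one, sub_add_cancel] at h2
    exact h2
  have h3 : |x - round x| ≤ 1 / 2 := abs_sub_round x
  rw [h1, LSa_ee, Complex.norm_exp_I_mul_ofReal_sub_one, norm_mul]
  have hpi := Real.pi_pos
  have h4 : |Real.pi * (x - round x)| ≤ Real.pi / 2 := by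
    rw [abs_mul, abs_of_pos hpi]
    nlinarith
  have h5 := Real.mul_abs_le_abs_sin h4
  rw [abs_mul, abs_of_pos hpi] at h5
  have h6 : 2 / Real.pi * (Real.pi * |x - round x|) = 2 * |x - round x| := by
    field_simp
  rw [h6] at h5
  have h7 : 2 * Real.pi * (x - round x) / 2 = Real.pi * (x - round x) := by ring
  rw [h7, Real.norm_eq_abs, Real.norm_eq_abs, abs_two]
  unfold dn
  linarith

theorem LSa_geom (L : ℕ) (x : ℝ) : (∑ j ∈ range L, ee (j * x)) * (ee x - 1) = ee (L * x) - 1 := by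
  induction L with
  | zero =>
    rw [Finset.sum_range_zero, zero_mul, Nat.cast_zero, zero_mul, ee_zero, sub_self]
  | succ n ih =>
    rw [Finset.sum_range_succ, add_mul, ih]
    have h1 : ((n + 1 : ℕ) : ℝ) * x = n * x + x := by
      push_cast
      ring
    rw [h1, ee_add]
    ring

/-- Geometric series: `|∑_{j < L} e (j x)| = |1 - e (L x)| / |1 - e (x)| ≤ 2 / (2 sin (π dn x)) ≤ 1 / (2 dn x)`, since
`|1 - e (x)| = 2 |sin (π x)| ≥ 4 dn x` (`Real.mul_le_sin`-type bound `sin (π t) ≥ 2 t` for `0 ≤ t ≤ 1 / 2`, periodicity).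
So `Kf L x ≤ 1 / (4 L dn x ^ 2)`. -/
theorem Kf_le_dn (L : ℕ) (hL : 1 ≤ L) (x : ℝ) (hx : dn x ≠ 0) :
    Kf L x ≤ 1 / (4 * L * dn x ^ 2) := by
  have hd : 0 < dn x := lt_of_le_of_ne (abs_nonneg _) (Ne.symm hx)
  have hL0 : (0 : ℝ) < L := by exact_mod_cast hL
  have h1 := congrArg norm (LSa_geom L x)
  rw [norm_mul] at h1
  have h2 : ‖ee (L * x) - 1‖ ≤ 2 := by
    refine (norm_sub_le _ _).trans ?_
    rw [norm_ee, norm_one]
    norm_num
  have h3 := LSa_ee_sub x
  have h4 : ‖∑ j ∈ range L, ee (j * x)‖ * (2 * dn x) ≤ 1 := by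
    have := mul_le_mul_of_nonneg_left h3 (norm_nonneg (∑ j ∈ range L, ee (j * x)))
    nlinarith
  unfold Kf
  rw [div_le_div_iff₀ hL0 (by positivity)]
  have h5 : (‖∑ j ∈ range L, ee (j * x)‖ * (2 * dn x)) ^ 2 ≤ 1 :=
    pow_le_one₀ (by positivity) h4
  nlinarith

theorem LSa_card (L : ℕ) (m : ℤ) (hm : m ∈ Finset.Ioo (-(L : ℤ)) L) :
    (((range L ×ˢ range L).filter (fun p : ℕ × ℕ => (p.1 : ℤ) - p.2 = m)).card : ℤ) = L - |m| := by
  rw [Finset.mem_Ioo] at hm
  have h1 : (range L ×ˢ range L).filter (fun p : ℕ × ℕ => (p.1 : ℤ) - p.2 = m) =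
      (range (L - m.natAbs)).image (fun k => (k + m.toNat, k + (-m).toNat)) := by
    ext ⟨i, j⟩
    simp only [Finset.mem_filter, Finset.mem_product, Finset.mem_range, Finset.mem_image,
      Prod.mk.injEq]
    constructor
    · rintro ⟨⟨h1, h2⟩, h3⟩
      refine ⟨i - m.toNat, ?_, ?_, ?_⟩
      · omega
      · omega
      · omega
    · rintro ⟨k, h1, h2, h3⟩
      refine ⟨⟨?_, ?_⟩, ?_⟩
      · omega
      · omega
      · omega
  rw [h1, Finset.card_image_of_injective, Finset.card_range]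
  · rw [Int.abs_eq_natAbs]
    omega
  · intro a b hab
    simp only [Prod.mk.injEq] at hab
    omega

theorem LSa_conj (x : ℝ) : (starRingEnd ℂ) (ee x) = ee (-x) := by
  unfold ee
  rw [← Complex.exp_conj]
  congr 1
  have h2 : (starRingEnd ℂ) 2 = 2 := Complex.conj_ofNat 2
  simp [h2]

/-- The Fourier expansion of the kernel: `∑_{|m| < L} (1 - |m| / L) e (m x) = |∑_{j < L} e (j x)| ^ 2 / L`: expand the
square `∑_{i, j < L} e ((i - j) x)` and count the pairs with `i - j = m`, there are `L - |m|` of them. -/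
theorem Kf_fourier (L : ℕ) (hL : 1 ≤ L) (x : ℝ) :
    ∑ m ∈ Finset.Ioo (-(L : ℤ)) L, ((1 - |(m : ℝ)| / L : ℝ) : ℂ) * ee (m * x) = (Kf L x : ℂ) := by
  have hL0 : (L : ℂ) ≠ 0 := by
    have : L ≠ 0 := by omega
    exact_mod_cast this
  have h1 : ((‖∑ j ∈ range L, ee (j * x)‖ ^ 2 : ℝ) : ℂ) =
      ∑ p ∈ range L ×ˢ range L, ee ((((p.1 : ℤ) - p.2 : ℤ) : ℝ) * x) := by
    rw [Complex.ofReal_pow, ← Complex.mul_conj', map_sum, Finset.sum_mul_sum,
      ← Finset.sum_product']
    refine Finset.sum_congr rfl fun p _ => ?_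
    rw [LSa_conj, ← ee_add]
    congr 1
    push_cast
    ring
  have h2 : ∑ p ∈ range L ×ˢ range L, ee ((((p.1 : ℤ) - p.2 : ℤ) : ℝ) * x) =
      ∑ m ∈ Finset.Ioo (-(L : ℤ)) L, ((L : ℂ) - |(m : ℝ)|) * ee (m * x) := by
    rw [← Finset.sum_fiberwise_of_maps_to (s := range L ×ˢ range L)
      (t := Finset.Ioo (-(L : ℤ)) L) (g := fun p : ℕ × ℕ => (p.1 : ℤ) - p.2)]
    · refine Finset.sum_congr rfl fun m hm => ?_
      rw [Finset.sum_congr rfl (g := fun _ => ee (m * x))]
      · rw [Finset.sum_const, nsmul_eq_mul]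
        congr 1
        have := LSa_card L m hm
        have h3 : ((((range L ×ˢ range L).filter
            (fun p : ℕ × ℕ => (p.1 : ℤ) - p.2 = m)).card : ℤ) : ℝ) = ((L - |m| : ℤ) : ℝ) := by
          rw [this]
        have h4 : ((((range L ×ˢ range L).filter
            (fun p : ℕ × ℕ => (p.1 : ℤ) - p.2 = m)).card : ℝ) : ℂ) =
            (((L : ℝ) - |(m : ℝ)| : ℝ) : ℂ) := by
          congr 1
          push_cast at h3
          exact h3
        push_cast at h4
        exact h4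
      · intro p hp
        rw [Finset.mem_filter] at hp
        rw [hp.2]
    · intro p hp
      rw [Finset.mem_product, Finset.mem_range, Finset.mem_range] at hp
      rw [Finset.mem_Ioo]
      omega
  unfold Kf
  rw [Complex.ofReal_div, h1, h2, Finset.sum_div]
  refine Finset.sum_congr rfl fun m _ => ?_
  push_cast
  field_simp

end Pool.Agent.Wb58c63
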