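import Pool.Agent.W_b58c63_h68.ArB
import Pool.Agent.W_pnt_h80.PNT

/-!
# The weights (helper68)
-/

set_option autoImplicit false

noncomputable section

open Finset

namespace Pool.Agent.Wb58c63

theorem l0_pos : 0 < l0 := by
  unfold l0
  have := Real.log_pos one_lt_two
  linarith

theorem tp_nonneg (y : ℝ) : 0 ≤ tp y := le_max_left _ _

theorem tp_le_one (y : ℝ) : tp y ≤ 1 := by
  unfold tp
  have h1 : 0 ≤ |y| / l0 := div_nonneg (abs_nonneg y) l0_pos.le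
  exact max_le zero_le_one (by linarith)

theorem ArC_tp_ne {y : ℝ} (h : tp y ≠ 0) : |y| < l0 := by
  by_contra hc
  push Not at hc
  apply h
  unfold tp
  have h1 : 1 ≤ |y| / l0 := by rwa [le_div_iff₀ l0_pos, one_mul]
  exact max_eq_left (by linarith)

theorem ArC_vY_pos {Y : ℝ} (hY : 1 ≤ Y) : 0 < vY Y := by
  unfold vY
  have h1 := Real.log_nonneg hY
  have h2 := l0_pos
  linarith

/-- For `Y ≥ 1` and a natural number `n` the weight vanishes unless `Y < n < 2 Y` (`|log n - vY Y| < l0`; for `n = 0`,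
`log 0 = 0` and `vY Y ≥ l0`). -/
theorem aw_support (k : ℕ) (Y : ℝ) (hY : 1 ≤ Y) (n : ℕ) (h : aw k Y n ≠ 0) :
    Y < n ∧ (n : ℝ) < 2 * Y := by
  have h1 : tp (Real.log n - vY Y) ≠ 0 := by
    intro h0
    apply h
    unfold aw
    rw [h0, zero_mul]
  have h2 := ArC_tp_ne h1
  have hY0 : 0 < Y := by linarith
  rw [abs_lt] at h2
  unfold vY at h2
  have hn : 0 < (n : ℝ) := by
    rcases Nat.eq_zero_or_pos n with h0 | h0
    · exfalso
      rw [h0, Nat.cast_zero, Real.log_zero] at h2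
      have := Real.log_nonneg hY
      linarith [h2.1]
    · exact_mod_cast h0
  constructor
  · rw [← Real.log_lt_log_iff hY0 hn]
    linarith [h2.1]
  · rw [← Real.log_lt_log_iff hn (by linarith), Real.log_mul (by norm_num) hY0.ne']
    have h3 : l0 = Real.log 2 / 2 := rfl
    rw [h3] at h2
    linarith [h2.2]

/-- `0 ≤ log n / vY Y ≤ 2` on the support. -/
theorem aw_nonneg (k : ℕ) (Y : ℝ) (hY : 1 ≤ Y) (n : ℕ) : 0 ≤ aw k Y n := by
  unfold aw
  exact mul_nonneg (tp_nonneg _) (pow_nonneg (div_nonneg (Real.log_natCast_nonneg n)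
    (ArC_vY_pos hY).le) _)

theorem aw_le (k : ℕ) (Y : ℝ) (hY : 1 ≤ Y) (n : ℕ) : aw k Y n ≤ 2 ^ k := by
  by_cases h : aw k Y n = 0
  · rw [h]
    positivity
  · have h1 := aw_support k Y hY n h
    have hY0 : 0 < Y := by linarith
    have hn : 0 < (n : ℝ) := lt_trans hY0 h1.1
    have h2 : Real.log n ≤ 2 * vY Y := by
      have h3 := Real.log_lt_log hn h1.2
      rw [Real.log_mul (by norm_num) hY0.ne'] at h3
      have h4 := Real.log_nonneg hY
      unfold vY l0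
      linarith
    have h5 : Real.log n / vY Y ≤ 2 := by
      rwa [div_le_iff₀ (ArC_vY_pos hY)]
    have h6 : 0 ≤ Real.log n / vY Y :=
      div_nonneg (Real.log_natCast_nonneg n) (ArC_vY_pos hY).le
    unfold aw
    calc tp (Real.log n - vY Y) * (Real.log n / vY Y) ^ k ≤ 1 * 2 ^ k :=
          mul_le_mul (tp_le_one _) (pow_le_pow_left₀ h6 h5 k) (pow_nonneg h6 k) zero_le_one
      _ = 2 ^ k := one_mul _

theorem ap_nonneg (k : ℕ) (Y : ℝ) (hY : 1 ≤ Y) (p : ℕ) : 0 ≤ ap k Y p := by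
  unfold ap
  exact mul_nonneg (aw_nonneg k Y hY p) (Real.log_natCast_nonneg p)

theorem ap_le (k : ℕ) (Y : ℝ) (hY : 1 ≤ Y) (p : ℕ) : ap k Y p ≤ 2 ^ k * Real.log (2 * Y) := by
  unfold ap
  have h0 : 0 ≤ Real.log (2 * Y) := Real.log_nonneg (by linarith)
  by_cases h : aw k Y p = 0
  · rw [h, zero_mul]
    positivity
  · have h1 := aw_support k Y hY p h
    have hn : 0 < (p : ℝ) := lt_trans (by linarith) h1.1
    exact mul_le_mul (aw_le k Y hY p) (Real.log_le_log hn h1.2.le) (Real.log_natCast_nonneg p)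
      (by positivity)

theorem mem_Pr {Y : ℝ} {p : ℕ} : p ∈ Pr Y ↔ p.Prime ∧ (p : ℝ) < 2 * Y := by
  unfold Pr
  rw [mem_filter, mem_range, Nat.lt_ceil]
  tauto

/-- `XM k Y ≤ 2 ^ k θ (2 Y)` and `Chebyshev.theta_le_log4_mul_x`. -/
theorem XM_le (k : ℕ) : ∃ C : ℝ, 0 < C ∧ ∀ Y : ℝ, 1 ≤ Y → XM k Y ≤ C * Y := by
  have hl : 0 < Real.log 4 := Real.log_pos (by norm_num)
  refine ⟨2 ^ k * (Real.log 4 * 2), by positivity, fun Y hY => ?_⟩
  have h1 : XM k Y ≤ 2 ^ k * Chebyshev.theta (2 * Y) := by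
    unfold XM
    calc ∑ p ∈ Pr Y, ap k Y p ≤ ∑ p ∈ Pr Y, 2 ^ k * Real.log p := by
          refine sum_le_sum fun p _ => ?_
          exact mul_le_mul_of_nonneg_right (aw_le k Y hY p) (Real.log_natCast_nonneg p)
      _ = 2 ^ k * ∑ p ∈ Pr Y, Real.log p := by rw [mul_sum]
      _ ≤ 2 ^ k * Chebyshev.theta (2 * Y) := by
          refine mul_le_mul_of_nonneg_left ?_ (by positivity)
          unfold Chebyshev.theta
          refine sum_le_sum_of_subset_of_nonneg ?_ fun p _ _ => Real.log_natCast_nonneg p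
          intro p hp
          rw [mem_Pr] at hp
          rw [mem_filter, mem_Ioc]
          exact ⟨⟨hp.1.pos, Nat.le_floor hp.2.le⟩, hp.1⟩
  calc XM k Y ≤ 2 ^ k * Chebyshev.theta (2 * Y) := h1
    _ ≤ 2 ^ k * (Real.log 4 * (2 * Y)) :=
        mul_le_mul_of_nonneg_left (Chebyshev.theta_le_log4_mul_x (by linarith)) (by positivity)
    _ = 2 ^ k * (Real.log 4 * 2) * Y := by ring

/-- **Lower bound for the mass.**

Proof. The primes `p ∈ (1.2 Y, 1.6 Y]` have `|log p - vY Y| ≤ 0.165`, so `tp ≥ 1 / 2`, and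
`(log p / vY Y) ^ k ≥ 1 / 2` for large `Y`; `θ (1.6 Y) - θ (1.2 Y) ≥ 0.3 Y` for large `Y` by `theta_tendsto`
(`Pool/Agent/W_pnt_h80/PNT.lean`). -/
theorem XM_ge (k : ℕ) : ∃ c Y₀ : ℝ, 0 < c ∧ 1 ≤ Y₀ ∧ ∀ Y : ℝ, Y₀ ≤ Y → c * Y ≤ XM k Y := by
  have h1 : Filter.Tendsto (fun Y : ℝ => Chebyshev.theta (8 / 5 * Y) / (8 / 5 * Y))
      Filter.atTop (nhds 1) :=
    Pool.Agent.W_pnt_h80.theta_tendsto.comp
      (Filter.tendsto_id.const_mul_atTop (by norm_num : (0 : ℝ) < 8 / 5))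
  have h2 : Filter.Tendsto (fun Y : ℝ => Chebyshev.theta (6 / 5 * Y) / (6 / 5 * Y))
      Filter.atTop (nhds 1) :=
    Pool.Agent.W_pnt_h80.theta_tendsto.comp
      (Filter.tendsto_id.const_mul_atTop (by norm_num : (0 : ℝ) < 6 / 5))
  have h3 : ∀ᶠ Y : ℝ in Filter.atTop, 31 / 32 < Chebyshev.theta (8 / 5 * Y) / (8 / 5 * Y) :=
    h1.eventually_const_lt (by norm_num)
  have h4 : ∀ᶠ Y : ℝ in Filter.atTop, Chebyshev.theta (6 / 5 * Y) / (6 / 5 * Y) < 25 / 24 :=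
    h2.eventually_lt_const (by norm_num)
  obtain ⟨Y₀, hY₀⟩ := Filter.eventually_atTop.1 (h3.and h4)
  refine ⟨(1 / 2) * (1 / 2) ^ k * (3 / 10), max Y₀ 1, by positivity, le_max_right _ _,
    fun Y hY => ?_⟩
  have hY1 : 1 ≤ Y := (le_max_right _ _).trans hY
  have hY0 : 0 < Y := by linarith
  obtain ⟨h5, h6⟩ := hY₀ Y ((le_max_left _ _).trans hY)
  rw [lt_div_iff₀ (by linarith)] at h5
  rw [div_lt_iff₀ (by linarith)] at h6
  have h7 : 3 / 10 * Y ≤ Chebyshev.theta (8 / 5 * Y) - Chebyshev.theta (6 / 5 * Y) := by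
    linarith
  have hsub : (Ioc 0 ⌊6 / 5 * Y⌋₊).filter Nat.Prime ⊆ (Ioc 0 ⌊8 / 5 * Y⌋₊).filter Nat.Prime := by
    intro p hp
    rw [mem_filter, mem_Ioc] at hp ⊢
    refine ⟨⟨hp.1.1, hp.1.2.trans (Nat.floor_le_floor ?_)⟩, hp.2⟩
    linarith
  have h8 : Chebyshev.theta (8 / 5 * Y) - Chebyshev.theta (6 / 5 * Y) =
      ∑ p ∈ ((Ioc 0 ⌊8 / 5 * Y⌋₊).filter Nat.Prime) \ ((Ioc 0 ⌊6 / 5 * Y⌋₊).filter Nat.Prime),
        Real.log p := by
    unfold Chebyshev.theta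
    rw [← sum_sdiff hsub, add_sub_cancel_right]
  have h9 : ∀ p ∈ ((Ioc 0 ⌊8 / 5 * Y⌋₊).filter Nat.Prime) \
      ((Ioc 0 ⌊6 / 5 * Y⌋₊).filter Nat.Prime), p ∈ Pr Y ∧
      (1 / 2) * (1 / 2) ^ k * Real.log p ≤ ap k Y p := by
    intro p hp
    rw [mem_sdiff, mem_filter, mem_filter, mem_Ioc, mem_Ioc] at hp
    obtain ⟨⟨⟨hp0, hp1⟩, hpp⟩, hp2⟩ := hp
    have hp3 : (p : ℝ) ≤ 8 / 5 * Y := by
      rwa [Nat.le_floor_iff (by linarith)] at hp1
    have hp4 : 6 / 5 * Y < (p : ℝ) := by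
      by_contra hc
      push Not at hc
      exact hp2 ⟨⟨hp0, Nat.le_floor hc⟩, hpp⟩
    refine ⟨mem_Pr.2 ⟨hpp, by linarith⟩, ?_⟩
    have hppos : (0 : ℝ) < p := by exact_mod_cast hp0
    have hl1 : Real.log p ≤ Real.log (8 / 5) + Real.log Y := by
      rw [← Real.log_mul (by norm_num) hY0.ne']
      exact Real.log_le_log hppos hp3
    have hl2 : Real.log (6 / 5) + Real.log Y ≤ Real.log p := by
      rw [← Real.log_mul (by norm_num) hY0.ne']
      exact Real.log_le_log (by linarith) hp4.le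
    have hc1 : Real.log (8 / 5) ≤ 3 / 4 * Real.log 2 := by
      have e1 : Real.log ((8 / 5) ^ 4) ≤ Real.log (2 ^ 3) :=
        Real.log_le_log (by norm_num) (by norm_num)
      rw [Real.log_pow, Real.log_pow] at e1
      push_cast at e1
      linarith
    have hc2 : 1 / 4 * Real.log 2 ≤ Real.log (6 / 5) := by
      have e1 : Real.log 2 ≤ Real.log ((6 / 5) ^ 4) :=
        Real.log_le_log (by norm_num) (by norm_num)
      rw [Real.log_pow] at e1
      push_cast at e1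
      linarith
    have hl0 : l0 = Real.log 2 / 2 := rfl
    have hvY : vY Y = Real.log Y + l0 := rfl
    have htp : 1 / 2 ≤ tp (Real.log p - vY Y) := by
      unfold tp
      refine le_max_of_le_right ?_
      have e1 : |Real.log p - vY Y| / l0 ≤ 1 / 2 := by
        rw [div_le_iff₀ l0_pos, abs_le, hvY, hl0]
        constructor <;> linarith
      linarith
    have hr : 1 / 2 ≤ Real.log p / vY Y := by
      have e1 := Real.log_nonneg hY1
      rw [le_div_iff₀ (ArC_vY_pos hY1), hvY, hl0]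
      have e2 := Real.log_pos one_lt_two
      linarith
    unfold ap aw
    refine mul_le_mul_of_nonneg_right ?_ (Real.log_natCast_nonneg p)
    exact mul_le_mul htp (pow_le_pow_left₀ (by norm_num) hr k) (by positivity) (tp_nonneg _)
  calc (1 / 2) * (1 / 2) ^ k * (3 / 10) * Y = (1 / 2) * (1 / 2) ^ k * (3 / 10 * Y) := by ring
    _ ≤ (1 / 2) * (1 / 2) ^ k * (Chebyshev.theta (8 / 5 * Y) - Chebyshev.theta (6 / 5 * Y)) :=
        mul_le_mul_of_nonneg_left h7 (by positivity)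
    _ = ∑ p ∈ ((Ioc 0 ⌊8 / 5 * Y⌋₊).filter Nat.Prime) \ ((Ioc 0 ⌊6 / 5 * Y⌋₊).filter Nat.Prime),
        (1 / 2) * (1 / 2) ^ k * Real.log p := by rw [h8, mul_sum]
    _ ≤ ∑ p ∈ ((Ioc 0 ⌊8 / 5 * Y⌋₊).filter Nat.Prime) \ ((Ioc 0 ⌊6 / 5 * Y⌋₊).filter Nat.Prime),
        ap k Y p := sum_le_sum fun p hp => (h9 p hp).2
    _ ≤ XM k Y := by
        unfold XM
        exact sum_le_sum_of_subset_of_nonneg (fun p hp => (h9 p hp).1)
          fun p _ _ => ap_nonneg k Y hY1 p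

/-- `∑ ap ^ 2 ≤ 2 ^ k log (2 Y) XM k Y`. -/
theorem sum_ap_sq (k : ℕ) : ∃ C : ℝ, 0 < C ∧ ∀ Y : ℝ, 2 ≤ Y →
    ∑ p ∈ Pr Y, ap k Y p ^ 2 ≤ C * Y * Real.log Y := by
  obtain ⟨C, hC, h⟩ := XM_le k
  refine ⟨2 ^ k * 2 * C, by positivity, fun Y hY => ?_⟩
  have hY1 : 1 ≤ Y := by linarith
  have h0 : Real.log (2 * Y) ≤ 2 * Real.log Y := by
    rw [Real.log_mul (by norm_num) (by linarith)]
    have := Real.log_le_log (by norm_num) hY
    linarith
  have hlog : 0 ≤ Real.log Y := Real.log_nonneg hY1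
  calc ∑ p ∈ Pr Y, ap k Y p ^ 2 ≤ ∑ p ∈ Pr Y, 2 ^ k * Real.log (2 * Y) * ap k Y p := by
        refine sum_le_sum fun p _ => ?_
        rw [sq]
        exact mul_le_mul_of_nonneg_right (ap_le k Y hY1 p) (ap_nonneg k Y hY1 p)
    _ = 2 ^ k * Real.log (2 * Y) * XM k Y := by rw [← mul_sum, XM]
    _ ≤ 2 ^ k * (2 * Real.log Y) * (C * Y) := by
        have hx : 0 ≤ XM k Y := sum_nonneg fun p _ => ap_nonneg k Y hY1 p
        gcongr
        exact h Y hY1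
    _ = 2 ^ k * 2 * C * Y * Real.log Y := by ring

theorem ArC_card_le (Y : ℝ) (hY : 0 ≤ Y) (r : ℕ) (hr : 0 < r) (S : Finset ℕ)
    (h1 : ∀ n ∈ S, Y < (n : ℝ) ∧ (n : ℝ) < 2 * Y)
    (h2 : ∀ n ∈ S, ∀ m ∈ S, m ≤ n → r ∣ n - m) : (S.card : ℝ) ≤ Y / r + 1 := by
  rcases S.eq_empty_or_nonempty with h0 | h0
  · rw [h0, card_empty, Nat.cast_zero]
    positivity
  · set m := S.min' h0 with hm
    have hmS : m ∈ S := S.min'_mem h0
    have hle : ∀ n ∈ S, m ≤ n := fun n hn => S.min'_le n hn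
    have hr' : (0 : ℝ) < r := by exact_mod_cast hr
    have h3 : S.card ≤ (range (⌊Y / r⌋₊ + 1)).card := by
      refine card_le_card_of_injOn (fun n => (n - m) / r) ?_ ?_
      · intro n hn
        have hn' : n ∈ S := hn
        rw [coe_range, Set.mem_Iio, Nat.lt_succ_iff]
        refine Nat.le_floor ?_
        have e1 : (((n - m) / r : ℕ) : ℝ) ≤ ((n - m : ℕ) : ℝ) / r := Nat.cast_div_le
        refine e1.trans ?_
        gcongr
        rw [Nat.cast_sub (hle n hn')]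
        have e2 := h1 n hn'
        have e3 := h1 m hmS
        linarith [e2.2, e3.1]
      · intro n hn n' hn' he
        have hn1 : n ∈ S := hn
        have hn2 : n' ∈ S := hn'
        have e1 := Nat.div_mul_cancel (h2 n hn1 m hmS (hle n hn1))
        have e2 := Nat.div_mul_cancel (h2 n' hn2 m hmS (hle n' hn2))
        have e3 : (n - m) / r = (n' - m) / r := he
        rw [e3] at e1
        have e4 := hle n hn1
        have e5 := hle n' hn2
        omega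
    rw [card_range] at h3
    have h4 : (S.card : ℝ) ≤ ((⌊Y / r⌋₊ + 1 : ℕ) : ℝ) := by exact_mod_cast h3
    refine h4.trans ?_
    push_cast
    have h5 : ((⌊Y / r⌋₊ : ℕ) : ℝ) ≤ Y / r := Nat.floor_le (by positivity)
    linarith

theorem ArC_sum_sq (z : ℝ) (hz : 1 ≤ z) (y : ℝ) :
    ∑ q ∈ PI z y, ((q : ℝ) ^ 2)⁻¹ ≤ 2 / z := by
  have hm : 1 ≤ ⌈z⌉₊ := Nat.one_le_ceil_iff.2 (by linarith)
  have h1 : PI z y ⊆ Ioo (⌈z⌉₊ - 1) ⌈y⌉₊ := by
    intro q hq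
    rw [mem_PI] at hq
    rw [mem_Ioo]
    have e1 : ⌈z⌉₊ ≤ q := Nat.ceil_le.2 hq.2.1
    have e2 : q < ⌈y⌉₊ := Nat.lt_ceil.2 hq.2.2
    omega
  calc ∑ q ∈ PI z y, ((q : ℝ) ^ 2)⁻¹ ≤ ∑ q ∈ Ioo (⌈z⌉₊ - 1) ⌈y⌉₊, ((q : ℝ) ^ 2)⁻¹ :=
        sum_le_sum_of_subset_of_nonneg h1 fun q _ _ => by positivity
    _ ≤ 2 / (((⌈z⌉₊ - 1 : ℕ) : ℝ) + 1) := sum_Ioo_inv_sq_le _ _
    _ = 2 / (⌈z⌉₊ : ℝ) := by
        rw [Nat.cast_sub hm, Nat.cast_one, sub_add_cancel]
    _ ≤ 2 / z := by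
        have := Nat.le_ceil z
        gcongr

/-- Few primes of the window have `N - p` divisible by the square of a prime `q ∈ [z, y)`: for each `q` the integers
`n ∈ (Y, 2 Y)` with `q ^ 2 ∣ N - n` are at most `Y / q ^ 2 + 1` many, and `∑_{q ≥ z} 1 / q ^ 2 ≤ 2 / z`. -/
theorem bad_squares (Y z y : ℝ) (hY : 1 ≤ Y) (hz : 1 ≤ z) (hy : 1 ≤ y) (N : ℕ) (hN : 2 * Y ≤ N) :
    ((((Pr Y).filter fun p : ℕ => Y < (p : ℝ) ∧ ∃ q ∈ PI z y, q ^ 2 ∣ N - p).card : ℕ) : ℝ) ≤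
      2 * Y / z + y + 1 := by
  classical
  set T := (Pr Y).filter fun p : ℕ => Y < (p : ℝ) ∧ ∃ q ∈ PI z y, q ^ 2 ∣ N - p with hT
  have h1 : T ⊆ (PI z y).biUnion fun q => (Pr Y).filter fun p : ℕ => Y < (p : ℝ) ∧ q ^ 2 ∣ N - p := by
    intro p hp
    rw [hT, mem_filter] at hp
    obtain ⟨hp1, hp2, q, hq, hqd⟩ := hp
    rw [mem_biUnion]
    exact ⟨q, hq, mem_filter.2 ⟨hp1, hp2, hqd⟩⟩
  have h2 : ∀ q ∈ PI z y, ((((Pr Y).filter fun p : ℕ => Y < (p : ℝ) ∧ q ^ 2 ∣ N - p).card : ℕ) : ℝ) ≤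
      Y * ((q : ℝ) ^ 2)⁻¹ + 1 := by
    intro q hq
    rw [mem_PI] at hq
    have h3 := ArC_card_le Y (by linarith) (q ^ 2) (pow_pos hq.1.pos 2)
      ((Pr Y).filter fun p : ℕ => Y < (p : ℝ) ∧ q ^ 2 ∣ N - p) (by
        intro n hn
        rw [mem_filter, mem_Pr] at hn
        exact ⟨hn.2.1, hn.1.2⟩) (by
        intro n hn m hm hmn
        rw [mem_filter, mem_Pr] at hn hm
        have e1 : n ≤ N := by
          have : (n : ℝ) ≤ N := by linarith [hn.1.2]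
          exact_mod_cast this
        have e2 : n - m = (N - m) - (N - n) := by omega
        rw [e2]
        exact Nat.dvd_sub hm.2.2 hn.2.2)
    rw [Nat.cast_pow, div_eq_mul_inv] at h3
    exact h3
  have h4 : ((PI z y).card : ℝ) ≤ y + 1 := by
    have e1 : (PI z y).card ≤ ⌈y⌉₊ := by
      unfold PI
      refine (card_filter_le _ _).trans ?_
      rw [card_range]
    have e2 : ((PI z y).card : ℝ) ≤ (⌈y⌉₊ : ℝ) := by exact_mod_cast e1
    exact e2.trans (Nat.ceil_lt_add_one (by linarith)).le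
  have h5 := ArC_sum_sq z hz y
  calc ((T.card : ℕ) : ℝ) ≤ ((∑ q ∈ PI z y,
        ((Pr Y).filter fun p : ℕ => Y < (p : ℝ) ∧ q ^ 2 ∣ N - p).card : ℕ) : ℝ) := by
        exact_mod_cast (card_le_card h1).trans card_biUnion_le
    _ = ∑ q ∈ PI z y,
        ((((Pr Y).filter fun p : ℕ => Y < (p : ℝ) ∧ q ^ 2 ∣ N - p).card : ℕ) : ℝ) := by
        push_cast
        rfl
    _ ≤ ∑ q ∈ PI z y, (Y * ((q : ℝ) ^ 2)⁻¹ + 1) := sum_le_sum h2
    _ = Y * ∑ q ∈ PI z y, ((q : ℝ) ^ 2)⁻¹ + (PI z y).card := by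
        rw [sum_add_distrib, ← mul_sum, sum_const, nsmul_eq_mul, mul_one]
    _ ≤ Y * (2 / z) + (y + 1) := by gcongr
    _ = 2 * Y / z + y + 1 := by ring

end Pool.Agent.Wb58c63
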