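import Pool.Agent.W_b58c63_h68.JFin
import Pool.Agent.W_b58c63_h68.ArC

/-!
# The coefficients of the weighted sieve (helper68)
-/

set_option autoImplicit false

noncomputable section

open Finset

namespace Pool.Agent.Wb58c63

/-- Squarefree with all prime factors below `z`. -/
def smz (z : ℝ) (m : ℕ) : Prop := Squarefree m ∧ ∀ p ∈ m.primeFactors, (p : ℝ) < z

/-- Richert's logarithmic weight. -/
def om (y : ℝ) (q : ℕ) : ℝ := 1 - Real.log q / Real.log y

open Classical in
/-- The coefficients of the lower bound sieve of level `D`. -/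
def rho1 (u₀ z D : ℝ) (m : ℕ) : ℝ := if smz z m then rhoS false u₀ D m.primeFactors else 0

open Classical in
/-- The coefficients of the upper bound sieves of level `D / q`, `q ∈ [z, y)`. -/
def rho2 (u₀ z y D : ℝ) (m : ℕ) : ℝ :=
  ∑ q ∈ m.primeFactors.filter (fun q : ℕ => z ≤ (q : ℝ) ∧ (q : ℝ) < y),
    om y q * (if smz z (m / q) then rhoS true u₀ (D / q) (m / q).primeFactors else 0)

open Classical in
/-- The primes below `z` which do not divide `N`. -/
def PN (N : ℕ) (z : ℝ) : Finset ℕ := (PI 0 z).filter fun p => ¬ p ∣ N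

open Classical in
/-- The primes in `[z, y)` which do not divide `N`. -/
def QN (N : ℕ) (z y : ℝ) : Finset ℕ := (PI z y).filter fun p => ¬ p ∣ N

theorem HRho_ne_zero {z : ℝ} {m : ℕ} (h : smz z m) : m ≠ 0 := h.1.ne_zero

theorem HRho_lt {z : ℝ} {m p : ℕ} (h : smz z m) (hp : p.Prime) (hpm : p ∣ m) : (p : ℝ) < z :=
  h.2 p (Nat.mem_primeFactors.2 ⟨hp, hpm, HRho_ne_zero h⟩)

theorem HRho_prod {z : ℝ} {m : ℕ} (h : smz z m) : ∏ p ∈ m.primeFactors, p = m :=
  Nat.prod_primeFactors_of_squarefree h.1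

theorem HRho_pf {S : Finset ℕ} (hS : ∀ p ∈ S, p.Prime) : (∏ p ∈ S, p).primeFactors = S :=
  Nat.primeFactors_prod hS

theorem HRho_sq {S : Finset ℕ} (hS : ∀ p ∈ S, p.Prime) : Squarefree (∏ p ∈ S, p) := by
  refine Finset.squarefree_prod_of_pairwise_isCoprime ?_ fun p hp => (hS p hp).squarefree
  intro p hp q hq hpq
  exact Nat.coprime_iff_isRelPrime.1 ((Nat.coprime_primes (hS p hp) (hS q hq)).2 hpq)

theorem HRho_PN {N : ℕ} {z : ℝ} {S : Finset ℕ} (hS : S ∈ (PN N z).powerset) :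
    ∀ p ∈ S, p.Prime ∧ (p : ℝ) < z ∧ ¬ p ∣ N := by
  classical
  intro p hp
  have h1 := Finset.mem_powerset.1 hS hp
  unfold PN at h1
  rw [Finset.mem_filter, mem_PI] at h1
  exact ⟨h1.1.1, h1.1.2.2, h1.2⟩

theorem HRho_smz {N : ℕ} {z : ℝ} {S : Finset ℕ} (hS : S ∈ (PN N z).powerset) :
    smz z (∏ p ∈ S, p) := by
  have h1 := HRho_PN hS
  refine ⟨HRho_sq fun p hp => (h1 p hp).1, fun p hp => ?_⟩
  rw [HRho_pf fun p hp => (h1 p hp).1] at hp
  exact (h1 p hp).2.1

theorem HRho_cop {N : ℕ} {z : ℝ} {S : Finset ℕ} (hS : S ∈ (PN N z).powerset) :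
    (∏ p ∈ S, p).Coprime N := by
  have h1 := HRho_PN hS
  refine Nat.Coprime.prod_left fun p hp => ?_
  exact (Nat.Prime.coprime_iff_not_dvd (h1 p hp).1).2 (h1 p hp).2.2

theorem HRho_mem {N : ℕ} {z : ℝ} {m : ℕ} (h : smz z m) (hc : m.Coprime N) :
    m.primeFactors ∈ (PN N z).powerset := by
  classical
  rw [Finset.mem_powerset]
  intro p hp
  unfold PN
  rw [Finset.mem_filter, mem_PI]
  have hp1 := Nat.prime_of_mem_primeFactors hp
  have hp2 := Nat.dvd_of_mem_primeFactors hp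
  refine ⟨⟨hp1, Nat.cast_nonneg p, h.2 p hp⟩, fun hpN => ?_⟩
  exact Nat.Prime.not_coprime_iff_dvd.2 ⟨p, hp1, hp2, hpN⟩ hc

open Classical in
theorem HRho_gen (z : ℝ) (h : Finset ℕ → ℝ) (q M N : ℕ) (hq : 1 ≤ q) (hqN : q.Coprime N)
    (hM : ∀ k, smz z k → h k.primeFactors ≠ 0 → q * k ≤ M) (f : ℕ → ℝ) :
    ∑ m ∈ (Icc 1 M).filter (fun m => m.Coprime N),
      (if q ∣ m then (if smz z (m / q) then h (m / q).primeFactors else 0) * f m else 0) =
      ∑ S ∈ (PN N z).powerset, h S * f (q * ∏ p ∈ S, p) := by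
  set g : ℕ → ℝ := fun m =>
    if q ∣ m then (if smz z (m / q) then h (m / q).primeFactors else 0) * f m else 0 with hg
  have hval : ∀ S ∈ (PN N z).powerset, g (q * ∏ p ∈ S, p) = h S * f (q * ∏ p ∈ S, p) := by
    intro S hS
    have h1 : q * (∏ p ∈ S, p) / q = ∏ p ∈ S, p := Nat.mul_div_cancel_left _ hq
    simp only [hg]
    rw [if_pos (Dvd.intro _ rfl), h1, if_pos (HRho_smz hS),
      HRho_pf fun p hp => (HRho_PN hS p hp).1]
  have hinj : Set.InjOn (fun S : Finset ℕ => q * ∏ p ∈ S, p) (PN N z).powerset := by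
    intro S hS T hT hST
    have h1 : ∏ p ∈ S, p = ∏ p ∈ T, p := Nat.eq_of_mul_eq_mul_left hq hST
    rw [← HRho_pf fun p hp => (HRho_PN (Finset.mem_coe.1 hS) p hp).1,
      ← HRho_pf fun p hp => (HRho_PN (Finset.mem_coe.1 hT) p hp).1, h1]
  rw [← Finset.sum_congr rfl hval, ← Finset.sum_image (f := g) hinj]
  set A := (Icc 1 M).filter (fun m => m.Coprime N) with hA
  set B := (PN N z).powerset.image (fun S : Finset ℕ => q * ∏ p ∈ S, p) with hB
  have e1 : ∑ m ∈ A, g m = ∑ m ∈ A ∪ B, g m := by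
    refine Finset.sum_subset Finset.subset_union_left fun m hm hmA => ?_
    rw [Finset.mem_union] at hm
    rcases hm with hm | hm
    · exact absurd hm hmA
    · rw [hB, Finset.mem_image] at hm
      obtain ⟨S, hS, rfl⟩ := hm
      rw [hval S hS]
      by_contra hne
      have h1 : h S ≠ 0 := fun h0 => hne (by rw [h0, zero_mul])
      apply hmA
      rw [hA, Finset.mem_filter, Finset.mem_Icc]
      have h2 := HRho_ne_zero (HRho_smz hS)
      refine ⟨⟨Nat.mul_pos hq (Nat.pos_of_ne_zero h2), ?_⟩,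
        Nat.Coprime.mul_left hqN (HRho_cop hS)⟩
      refine hM _ (HRho_smz hS) ?_
      rwa [HRho_pf fun p hp => (HRho_PN hS p hp).1]
  have e2 : ∑ m ∈ B, g m = ∑ m ∈ A ∪ B, g m := by
    refine Finset.sum_subset Finset.subset_union_right fun m hm hmB => ?_
    rw [Finset.mem_union] at hm
    rcases hm with hm | hm
    · simp only [hg]
      by_cases hqm : q ∣ m
      · rw [if_pos hqm]
        by_cases hs : smz z (m / q)
        · exfalso
          apply hmB
          rw [hB, Finset.mem_image]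
          rw [hA, Finset.mem_filter] at hm
          refine ⟨(m / q).primeFactors, HRho_mem hs (hm.2.coprime_dvd_left
            (Nat.div_dvd_of_dvd hqm)), ?_⟩
          rw [HRho_prod hs]
          exact Nat.mul_div_cancel' hqm
        · rw [if_neg hs, zero_mul]
      · rw [if_neg hqm]
    · exact absurd hm hmB
  rw [e1, e2]

/-- `abs_rhoS_le`, `rhoS_false_support`; `m = ∏ primeFactors` for squarefree `m`. -/
theorem rho1_adm (u₀ z D : ℝ) (hD : 1 < D) (hz : 1 ≤ z) (hz2 : z ^ 2 ≤ D) (m : ℕ) :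
    |rho1 u₀ z D m| ≤ 1 ∧ (rho1 u₀ z D m ≠ 0 → Squarefree m ∧ (m : ℝ) ≤ primorial ⌈u₀⌉₊ * D ∧
      ∀ p : ℕ, p.Prime → p ∣ m → (p : ℝ) < z) := by
  classical
  unfold rho1
  constructor
  · split_ifs with h
    · exact abs_rhoS_le _ _ _ _
    · rw [abs_zero]
      exact zero_le_one
  · intro h0
    by_cases h : smz z m
    · rw [if_pos h] at h0
      refine ⟨h.1, ?_, fun p hp hpm => HRho_lt h hp hpm⟩
      have h1 := rhoS_false_support u₀ D z hD hz2 m.primeFactors
        (fun p hp => Nat.prime_of_mem_primeFactors hp) (fun p hp => (h.2 p hp).le) h0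
      rwa [HRho_prod h] at h1
    · rw [if_neg h] at h0
      exact absurd rfl h0

theorem HRho_om {y : ℝ} (hy : 2 ≤ y) {q : ℕ} (hq : 1 ≤ q) (hqy : (q : ℝ) < y) :
    |om y q| ≤ 1 := by
  have hq1 : (1 : ℝ) ≤ q := by exact_mod_cast hq
  have h1 : 0 < Real.log y := Real.log_pos (by linarith)
  have h2 : 0 ≤ Real.log q := Real.log_nonneg hq1
  have h3 : Real.log q ≤ Real.log y := Real.log_le_log (by linarith) hqy.le
  have h4 : 0 ≤ Real.log q / Real.log y := div_nonneg h2 h1.le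
  have h5 : Real.log q / Real.log y ≤ 1 := (div_le_one h1).2 h3
  unfold om
  rw [abs_le]
  constructor <;> linarith

/-- At most one `q` contributes: if `m / q` has only prime factors below `z` then `q` is the only prime factor of `m`
which is `≥ z`, and `q ^ 2 ∤ m`. `0 ≤ om y q ≤ 1` for `1 ≤ q < y`. `rhoS_true_support` with `D / q > 1` (`q < y ≤ D`):
`m / q ≤ primorial * (D / q)`. -/
theorem rho2_adm (u₀ z y D : ℝ) (hz : 2 ≤ z) (hzy : z ≤ y) (hyD : y ≤ D) (m : ℕ) :
    |rho2 u₀ z y D m| ≤ 1 ∧ (rho2 u₀ z y D m ≠ 0 → Squarefree m ∧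
      (m : ℝ) ≤ primorial ⌈u₀⌉₊ * D ∧ ∀ p : ℕ, p.Prime → p ∣ m → (p : ℝ) < y) := by
  classical
  by_cases hex : ∃ q ∈ m.primeFactors.filter (fun q : ℕ => z ≤ (q : ℝ) ∧ (q : ℝ) < y),
      smz z (m / q)
  · obtain ⟨q, hq, hs⟩ := hex
    have hq' := Finset.mem_filter.1 hq
    have hqp := Nat.prime_of_mem_primeFactors hq'.1
    have hqm := Nat.dvd_of_mem_primeFactors hq'.1
    have hm : m = q * (m / q) := (Nat.mul_div_cancel' hqm).symm
    have hsum : rho2 u₀ z y D m = om y q * rhoS true u₀ (D / q) (m / q).primeFactors := by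
      unfold rho2
      rw [Finset.sum_eq_single_of_mem q hq, if_pos hs]
      intro r hr hrq
      rw [if_neg, mul_zero]
      intro hsr
      have hr' := Finset.mem_filter.1 hr
      have hrp := Nat.prime_of_mem_primeFactors hr'.1
      have hrm := Nat.dvd_of_mem_primeFactors hr'.1
      have h1 : q ∣ r * (m / r) := by rw [Nat.mul_div_cancel' hrm]; exact hqm
      rcases (Nat.Prime.dvd_mul hqp).1 h1 with h2 | h2
      · exact hrq ((Nat.prime_dvd_prime_iff_eq hqp hrp).1 h2).symm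
      · exact absurd (HRho_lt hsr hqp h2) (not_lt.2 hq'.2.1)
    have hq0 : (0 : ℝ) < q := by exact_mod_cast hqp.pos
    rw [hsum]
    constructor
    · rw [abs_mul]
      calc |om y q| * |rhoS true u₀ (D / q) (m / q).primeFactors| ≤ 1 * 1 :=
            mul_le_mul (HRho_om (hz.trans hzy) hqp.one_lt.le hq'.2.2) (abs_rhoS_le _ _ _ _)
              (abs_nonneg _) zero_le_one
        _ = 1 := one_mul 1
    · intro h0
      have h1 : rhoS true u₀ (D / q) (m / q).primeFactors ≠ 0 := right_ne_zero_of_mul h0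
      have hcop : q.Coprime (m / q) := by
        refine (Nat.Prime.coprime_iff_not_dvd hqp).2 fun h2 => ?_
        exact absurd (HRho_lt hs hqp h2) (not_lt.2 hq'.2.1)
      have hDq : 1 < D / q := by
        rw [one_lt_div hq0]
        exact lt_of_lt_of_le hq'.2.2 hyD
      refine ⟨?_, ?_, ?_⟩
      · rw [hm, Nat.squarefree_mul hcop]
        exact ⟨hqp.squarefree, hs.1⟩
      · have h2 := rhoS_true_support u₀ (D / q) hDq (m / q).primeFactors
          (fun p hp => Nat.prime_of_mem_primeFactors hp) h1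
        rw [HRho_prod hs] at h2
        have h3 : (m : ℝ) = q * ((m / q : ℕ) : ℝ) := by
          rw [← Nat.cast_mul, ← hm]
        rw [h3]
        calc (q : ℝ) * ((m / q : ℕ) : ℝ) ≤ q * (primorial ⌈u₀⌉₊ * (D / q)) :=
              mul_le_mul_of_nonneg_left h2 hq0.le
          _ = primorial ⌈u₀⌉₊ * D := by field_simp
      · intro p hp hpm
        rw [hm] at hpm
        rcases (Nat.Prime.dvd_mul hp).1 hpm with h2 | h2
        · rw [(Nat.prime_dvd_prime_iff_eq hp hqp).1 h2]
          exact hq'.2.2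
        · exact lt_of_lt_of_le (HRho_lt hs hp h2) hzy
  · have hsum : rho2 u₀ z y D m = 0 := by
      unfold rho2
      refine Finset.sum_eq_zero fun q hq => ?_
      rw [if_neg fun hs => hex ⟨q, hq, hs⟩, mul_zero]
    rw [hsum]
    exact ⟨by rw [abs_zero]; exact zero_le_one, fun h => absurd rfl h⟩

/-- **Sums with `rho1`.** The `m ≤ M`, `(m, N) = 1`, with `rho1 m ≠ 0` correspond to the subsets of `PN N z` with
nonzero weight, `m = ∏ S`, `S = m.primeFactors` (`Nat.primeFactors_prod`). -/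
theorem sum_rho1 (u₀ z D : ℝ) (M N : ℕ) (hN : 1 ≤ N) (hM : ∀ m, rho1 u₀ z D m ≠ 0 → m ≤ M)
    (f : ℕ → ℝ) :
    ∑ m ∈ (Icc 1 M).filter (fun m => m.Coprime N), rho1 u₀ z D m * f m =
      ∑ S ∈ (PN N z).powerset, rhoS false u₀ D S * f (∏ p ∈ S, p) := by
  classical
  have h1 := HRho_gen z (fun S => rhoS false u₀ D S) 1 M N le_rfl (Nat.coprime_one_left N)
    (fun k hk h0 => by
      rw [one_mul]
      refine hM k ?_
      unfold rho1
      rwa [if_pos hk]) f
  simp only [one_mul, Nat.div_one, isUnit_one, IsUnit.dvd, if_true] at h1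
  rw [← h1]
  rfl

/-- **Sums with `rho2`.** `m = q ∏ S` with `q ∈ QN N z y`, `S ⊆ PN N z`, uniquely. -/
theorem sum_rho2 (u₀ z y D : ℝ) (hz : 2 ≤ z) (M N : ℕ) (hN : 1 ≤ N)
    (hM : ∀ q ∈ PI z y, ∀ m, smz z m → rhoS true u₀ (D / q) m.primeFactors ≠ 0 → q * m ≤ M)
    (f : ℕ → ℝ) :
    ∑ m ∈ (Icc 1 M).filter (fun m => m.Coprime N), rho2 u₀ z y D m * f m =
      ∑ q ∈ QN N z y, om y q *
        ∑ S ∈ (PN N z).powerset, rhoS true u₀ (D / q) S * f (q * ∏ p ∈ S, p) := by
  classical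
  set A := (Icc 1 M).filter (fun m => m.Coprime N) with hA
  have e1 : ∀ m ∈ A, rho2 u₀ z y D m * f m = ∑ q ∈ PI z y, om y q *
      (if q ∣ m then (if smz z (m / q) then rhoS true u₀ (D / q) (m / q).primeFactors else 0) * f m
        else 0) := by
    intro m hm
    rw [hA, Finset.mem_filter, Finset.mem_Icc] at hm
    have hset : m.primeFactors.filter (fun q : ℕ => z ≤ (q : ℝ) ∧ (q : ℝ) < y) =
        (PI z y).filter (fun q => q ∣ m) := by
      ext q
      rw [Finset.mem_filter, Finset.mem_filter, Nat.mem_primeFactors, mem_PI]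
      constructor
      · rintro ⟨⟨h1, h2, -⟩, h3, h4⟩
        exact ⟨⟨h1, h3, h4⟩, h2⟩
      · rintro ⟨⟨h1, h3, h4⟩, h2⟩
        exact ⟨⟨h1, h2, by omega⟩, h3, h4⟩
    unfold rho2
    rw [hset, Finset.sum_mul, Finset.sum_filter]
    refine Finset.sum_congr rfl fun q _ => ?_
    by_cases hq : q ∣ m
    · rw [if_pos hq, if_pos hq, mul_assoc]
    · rw [if_neg hq, if_neg hq, mul_zero]
  rw [Finset.sum_congr rfl e1, Finset.sum_comm]
  unfold QN
  rw [Finset.sum_filter]
  refine Finset.sum_congr rfl fun q hq => ?_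
  rw [← Finset.mul_sum]
  by_cases hqN : q ∣ N
  · rw [if_neg (not_not.2 hqN)]
    have h0 : ∑ m ∈ A, (if q ∣ m then (if smz z (m / q) then
        rhoS true u₀ (D / q) (m / q).primeFactors else 0) * f m else 0) = 0 := by
      refine Finset.sum_eq_zero fun m hm => ?_
      rw [hA, Finset.mem_filter] at hm
      rw [if_neg]
      intro hqm
      exact Nat.Prime.not_coprime_iff_dvd.2 ⟨q, (mem_PI.1 hq).1, hqm, hqN⟩ hm.2
    rw [h0, mul_zero]
  · rw [if_pos hqN]
    have h1 := HRho_gen z (fun S => rhoS true u₀ (D / q) S) q M N (mem_PI.1 hq).1.one_lt.le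
      ((Nat.Prime.coprime_iff_not_dvd (mem_PI.1 hq).1).2 hqN) (hM q hq) f
    rw [← h1]

end Pool.Agent.Wb58c63
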