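import Pool.Agent.W_b58c63_h68.HRho

/-!
# The weighted sum (helper68)
-/

set_option autoImplicit false

noncomputable section

open Finset

namespace Pool.Agent.Wb58c63

open Classical in
/-- The weight of the number `n = N - p`. -/
def wt (N : ℕ) (z y l : ℝ) (n : ℕ) : ℝ :=
  if (PN N z).filter (fun p => p ∣ n) = ∅ then 1 - l * ∑ q ∈ (QN N z y).filter (fun q => q ∣ n), om y q
  else 0

theorem HW_om_nonneg {z y : ℝ} (hz : 1 ≤ z) {q : ℕ} (hq : q ∈ PI z y) : 0 ≤ om y q := by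
  obtain ⟨_, h2, h3⟩ := mem_PI.1 hq
  have h4 : (1 : ℝ) ≤ q := hz.trans h2
  have h5 : 0 < Real.log y := Real.log_pos (lt_of_le_of_lt h4 h3)
  have h6 : Real.log q ≤ Real.log y := Real.log_le_log (by linarith) h3.le
  unfold om
  have h7 : Real.log q / Real.log y ≤ 1 := by rwa [div_le_one h5]
  linarith

theorem HW_mem_QN {N : ℕ} {z y : ℝ} {q : ℕ} : q ∈ QN N z y ↔ q ∈ PI z y ∧ ¬ q ∣ N := by
  unfold QN
  rw [mem_filter]

theorem HW_mem_PN {N : ℕ} {z : ℝ} {q : ℕ} : q ∈ PN N z ↔ q ∈ PI 0 z ∧ ¬ q ∣ N := by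
  unfold PN
  rw [mem_filter]

theorem HW_prod_dvd {S : Finset ℕ} (hS : ∀ q ∈ S, q.Prime) (n : ℕ) :
    (∏ q ∈ S, q) ∣ n ↔ ∀ q ∈ S, q ∣ n := by
  constructor
  · intro h q hq
    exact (Finset.dvd_prod_of_mem _ hq).trans h
  · intro h
    exact Finset.prod_primes_dvd n (fun q hq => (hS q hq).prime) h

theorem HW_totient {S : Finset ℕ} (hS : ∀ q ∈ S, q.Prime) :
    ((∏ q ∈ S, q : ℕ).totient : ℝ) = ∏ q ∈ S, ((q : ℝ) - 1) := by
  induction S using Finset.induction_on with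
  | empty => simp
  | insert a S ha ih =>
    have h1 : a.Prime := hS a (mem_insert_self a S)
    have h2 : ∀ q ∈ S, q.Prime := fun q hq => hS q (mem_insert_of_mem hq)
    rw [Finset.prod_insert ha, Finset.prod_insert ha, Nat.totient_mul, Nat.totient_prime h1,
      Nat.cast_mul, ih h2, Nat.cast_sub h1.one_le, Nat.cast_one]
    refine Nat.Coprime.prod_right (fun q hq => ?_)
    rw [Nat.coprime_primes h1 (h2 q hq)]
    rintro rfl
    exact ha hq

theorem HW_inv_totient {S : Finset ℕ} (hS : ∀ q ∈ S, q.Prime) :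
    1 / ((∏ q ∈ S, q : ℕ).totient : ℝ) = ∏ q ∈ S, gp q := by
  rw [HW_totient hS]
  unfold gp
  rw [Finset.prod_div_distrib, Finset.prod_const_one]

open Classical in
/-- **Pointwise inequality**: `rho_lower` and `rho_upper` for the set of the primes of `PN N z` which divide `n`;
`l, om ≥ 0`. -/
theorem wt_ge (N : ℕ) (z y l u₀ D : ℝ) (hz : 1 ≤ z) (hl : 0 ≤ l) (n : ℕ) :
    ∑ S ∈ ((PN N z).filter fun p => p ∣ n).powerset, rhoS false u₀ D S -
      l * ∑ q ∈ (QN N z y).filter (fun q => q ∣ n), om y q *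
        ∑ S ∈ ((PN N z).filter fun p => p ∣ n).powerset, rhoS true u₀ (D / q) S ≤
      wt N z y l n := by
  have hom : ∀ q ∈ (QN N z y).filter (fun q => q ∣ n), 0 ≤ om y q := by
    intro q hq
    exact HW_om_nonneg hz (HW_mem_QN.1 (mem_filter.1 hq).1).1
  unfold wt
  split_ifs with h
  · have h1 := rho_lower u₀ D ((PN N z).filter fun p => p ∣ n)
    rw [if_pos h] at h1
    have h2 : ∑ q ∈ (QN N z y).filter (fun q => q ∣ n), om y q ≤
        ∑ q ∈ (QN N z y).filter (fun q => q ∣ n), om y q *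
          ∑ S ∈ ((PN N z).filter fun p => p ∣ n).powerset, rhoS true u₀ (D / q) S := by
      refine Finset.sum_le_sum (fun q hq => ?_)
      have h3 := rho_upper u₀ (D / q) ((PN N z).filter fun p => p ∣ n)
      rw [if_pos h] at h3
      exact le_mul_of_one_le_right (hom q hq) h3
    have h4 := mul_le_mul_of_nonneg_left h2 hl
    linarith
  · have h1 := rho_lower u₀ D ((PN N z).filter fun p => p ∣ n)
    rw [if_neg h] at h1
    have h2 : 0 ≤ ∑ q ∈ (QN N z y).filter (fun q => q ∣ n), om y q *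
          ∑ S ∈ ((PN N z).filter fun p => p ∣ n).powerset, rhoS true u₀ (D / q) S := by
      refine Finset.sum_nonneg (fun q hq => ?_)
      have h3 := rho_upper u₀ (D / q) ((PN N z).filter fun p => p ∣ n)
      rw [if_neg h] at h3
      exact mul_nonneg (hom q hq) h3
    have h4 := mul_nonneg hl h2
    linarith

theorem HW_powerset (N : ℕ) (z : ℝ) (n : ℕ) (R : Finset ℕ → ℝ) :
    ∑ S ∈ ((PN N z).filter fun q => q ∣ n).powerset, R S =
      ∑ S ∈ (PN N z).powerset, if (∏ q ∈ S, q) ∣ n then R S else 0 := by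
  rw [← Finset.sum_filter]
  refine Finset.sum_congr ?_ (fun _ _ => rfl)
  ext S
  rw [mem_powerset, mem_filter, mem_powerset]
  constructor
  · intro h
    have h1 : S ⊆ PN N z := h.trans (Finset.filter_subset _ _)
    refine ⟨h1, (HW_prod_dvd (fun q hq => ?_) n).2 (fun q hq => (mem_filter.1 (h hq)).2)⟩
    exact (mem_PI.1 (HW_mem_PN.1 (h1 hq)).1).1
  · rintro ⟨h1, h2⟩ q hq
    refine mem_filter.2 ⟨h1 hq, ?_⟩
    exact (HW_prod_dvd (fun q hq => (mem_PI.1 (HW_mem_PN.1 (h1 hq)).1).1) n).1 h2 q hq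

theorem HW_mod {Y : ℝ} {N : ℕ} (hN : 2 * Y ≤ N) {p : ℕ} (hp : p ∈ Pr Y) (d : ℕ) :
    p ≡ N [MOD d] ↔ d ∣ N - p := by
  have h1 := (mem_Pr.1 hp).2
  have h2 : p ≤ N := by
    have h3 : (p : ℝ) ≤ N := by linarith
    exact_mod_cast h3
  exact Nat.modEq_iff_dvd' h2

theorem HW_Sd (k : ℕ) (Y : ℝ) (N : ℕ) (hN : 2 * Y ≤ N) (d : ℕ) :
    Sd k Y N d = ∑ p ∈ Pr Y, if d ∣ N - p then ap k Y p else 0 := by
  unfold Sd
  rw [Finset.sum_filter]
  refine Finset.sum_congr rfl (fun p hp => ?_)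
  by_cases h : d ∣ N - p
  · rw [if_pos h, if_pos ((HW_mod hN hp d).2 h)]
  · rw [if_neg h, if_neg (fun h' => h ((HW_mod hN hp d).1 h'))]

/-- Exchange of summation: the `p` with `∏ S ∣ N - p` are those with `p ≡ N mod ∏ S` (`p ≤ N`); a subset `S` of `PN N z`
consists of primes dividing `N - p` iff its product divides `N - p`. -/
theorem sum_swap1 (k : ℕ) (Y : ℝ) (N : ℕ) (hN : 2 * Y ≤ N) (z : ℝ) (R : Finset ℕ → ℝ) :
    ∑ p ∈ Pr Y, ap k Y p * ∑ S ∈ ((PN N z).filter fun q => q ∣ N - p).powerset, R S =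
      ∑ S ∈ (PN N z).powerset, R S * Sd k Y N (∏ q ∈ S, q) := by
  have h1 : ∀ p ∈ Pr Y, ap k Y p * ∑ S ∈ ((PN N z).filter fun q => q ∣ N - p).powerset, R S =
      ∑ S ∈ (PN N z).powerset, R S * (if (∏ q ∈ S, q) ∣ N - p then ap k Y p else 0) := by
    intro p _
    rw [HW_powerset, Finset.mul_sum]
    refine Finset.sum_congr rfl (fun S _ => ?_)
    split_ifs
    · ring
    · ring
  rw [Finset.sum_congr rfl h1, Finset.sum_comm]
  refine Finset.sum_congr rfl (fun S _ => ?_)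
  rw [← Finset.mul_sum, HW_Sd k Y N hN]

/-- The same with a prime `q ∈ QN N z y` (which is coprime to `∏ S`). -/
theorem sum_swap2 (k : ℕ) (Y : ℝ) (N : ℕ) (hN : 2 * Y ≤ N) (z y : ℝ) (R : ℕ → Finset ℕ → ℝ) :
    ∑ p ∈ Pr Y, ap k Y p * ∑ q ∈ (QN N z y).filter (fun q => q ∣ N - p), om y q *
        ∑ S ∈ ((PN N z).filter fun q => q ∣ N - p).powerset, R q S =
      ∑ q ∈ QN N z y, om y q *
        ∑ S ∈ (PN N z).powerset, R q S * Sd k Y N (q * ∏ q ∈ S, q) := by
  have h1 : ∀ p ∈ Pr Y, ap k Y p * ∑ q ∈ (QN N z y).filter (fun q => q ∣ N - p), om y q *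
        ∑ S ∈ ((PN N z).filter fun q => q ∣ N - p).powerset, R q S =
      ∑ q ∈ QN N z y, om y q * ∑ S ∈ (PN N z).powerset, R q S *
        (if (q * ∏ q ∈ S, q) ∣ N - p then ap k Y p else 0) := by
    intro p _
    rw [Finset.sum_filter, Finset.mul_sum]
    refine Finset.sum_congr rfl (fun q hq => ?_)
    have hq1 := mem_PI.1 (HW_mem_QN.1 hq).1
    by_cases h : q ∣ N - p
    · rw [if_pos h, HW_powerset, ← mul_assoc, mul_comm (ap k Y p) (om y q), mul_assoc,
        Finset.mul_sum]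
      congr 1
      refine Finset.sum_congr rfl (fun S hS => ?_)
      rw [mem_powerset] at hS
      have hco : Nat.Coprime q (∏ q ∈ S, q) := by
        refine Nat.Coprime.prod_right (fun q' hq' => ?_)
        have h2 := mem_PI.1 (HW_mem_PN.1 (hS hq')).1
        rw [Nat.coprime_primes hq1.1 h2.1]
        rintro rfl
        linarith [hq1.2.1, h2.2.2]
      have h3 : (q * ∏ q ∈ S, q) ∣ N - p ↔ (∏ q ∈ S, q) ∣ N - p := by
        constructor
        · intro h4
          exact (Dvd.intro_left q rfl).trans h4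
        · intro h4
          exact hco.mul_dvd_of_dvd_of_dvd h h4
      by_cases h5 : (∏ q ∈ S, q) ∣ N - p
      · rw [if_pos h5, if_pos (h3.2 h5)]
        ring
      · rw [if_neg h5, if_neg (fun h6 => h5 (h3.1 h6))]
        ring
    · rw [if_neg h, mul_zero]
      symm
      rw [Finset.sum_eq_zero, mul_zero]
      intro S _
      rw [if_neg, mul_zero]
      intro h4
      exact h ((Dvd.intro _ rfl).trans h4)
  rw [Finset.sum_congr rfl h1, Finset.sum_comm]
  refine Finset.sum_congr rfl (fun q _ => ?_)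
  rw [← Finset.mul_sum, Finset.sum_comm]
  congr 1
  refine Finset.sum_congr rfl (fun S _ => ?_)
  rw [← Finset.mul_sum, HW_Sd k Y N hN]

/-- **The weighted sum.**

Proof. `wt_ge` for `n = N - p`, times `ap ≥ 0`, summed over `p`; `sum_swap1`, `sum_swap2`;
`Sd = XM / φ + Er`, `1 / φ(∏ S) = ∏ gp`, `1 / φ(q ∏ S) = gp q ∏ gp`; the sums of `Er` are `Err` by `sum_rho1`, `sum_rho2`. -/
theorem W_ge (k : ℕ) (Y : ℝ) (hY : 1 ≤ Y) (N : ℕ) (hN : 2 * Y ≤ N) (z y l u₀ D : ℝ) (hz : 2 ≤ z)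
    (hl : 0 ≤ l) (M : ℕ) (hM1 : ∀ m, rho1 u₀ z D m ≠ 0 → m ≤ M)
    (hM2 : ∀ q ∈ PI z y, ∀ m, smz z m → rhoS true u₀ (D / q) m.primeFactors ≠ 0 → q * m ≤ M) :
    XM k Y * (∑ S ∈ (PN N z).powerset, rhoS false u₀ D S * ∏ p ∈ S, gp p -
        l * ∑ q ∈ QN N z y, om y q * gp q *
          ∑ S ∈ (PN N z).powerset, rhoS true u₀ (D / q) S * ∏ p ∈ S, gp p) +
      Err k Y (rho1 u₀ z D) M N - l * Err k Y (rho2 u₀ z y D) M N ≤
      ∑ p ∈ Pr Y, ap k Y p * wt N z y l (N - p) := by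
  have hz1 : (1 : ℝ) ≤ z := by linarith
  have hN1 : 1 ≤ N := by
    have h1 : (1 : ℝ) ≤ N := by linarith
    exact_mod_cast h1
  have hPN : ∀ S ∈ (PN N z).powerset, ∀ q ∈ S, q.Prime := by
    intro S hS q hq
    exact (mem_PI.1 (HW_mem_PN.1 (mem_powerset.1 hS hq)).1).1
  have h2 : ∑ p ∈ Pr Y, ap k Y p *
      (∑ S ∈ ((PN N z).filter fun q => q ∣ N - p).powerset, rhoS false u₀ D S -
      l * ∑ q ∈ (QN N z y).filter (fun q => q ∣ N - p), om y q *
        ∑ S ∈ ((PN N z).filter fun q => q ∣ N - p).powerset, rhoS true u₀ (D / q) S) ≤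
      ∑ p ∈ Pr Y, ap k Y p * wt N z y l (N - p) := by
    refine Finset.sum_le_sum (fun p _ => ?_)
    exact mul_le_mul_of_nonneg_left (wt_ge N z y l u₀ D hz1 hl (N - p)) (ap_nonneg k Y hY p)
  refine le_trans (le_of_eq ?_) h2
  have h3 : ∑ p ∈ Pr Y, ap k Y p *
      (∑ S ∈ ((PN N z).filter fun q => q ∣ N - p).powerset, rhoS false u₀ D S -
      l * ∑ q ∈ (QN N z y).filter (fun q => q ∣ N - p), om y q *
        ∑ S ∈ ((PN N z).filter fun q => q ∣ N - p).powerset, rhoS true u₀ (D / q) S) =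
      ∑ S ∈ (PN N z).powerset, rhoS false u₀ D S * Sd k Y N (∏ q ∈ S, q) -
      l * ∑ q ∈ QN N z y, om y q *
        ∑ S ∈ (PN N z).powerset, rhoS true u₀ (D / q) S * Sd k Y N (q * ∏ q ∈ S, q) := by
    rw [← sum_swap1 k Y N hN z (fun S => rhoS false u₀ D S),
      ← sum_swap2 k Y N hN z y (fun q S => rhoS true u₀ (D / q) S), Finset.mul_sum,
      ← Finset.sum_sub_distrib]
    refine Finset.sum_congr rfl (fun p _ => ?_)
    ring
  rw [h3]
  have h4 : ∀ d, Sd k Y N d = XM k Y * (1 / (d.totient : ℝ)) + Er k Y N d := by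
    intro d
    unfold Er
    ring
  have h5 : ∑ S ∈ (PN N z).powerset, rhoS false u₀ D S * Sd k Y N (∏ q ∈ S, q) =
      XM k Y * ∑ S ∈ (PN N z).powerset, rhoS false u₀ D S * ∏ p ∈ S, gp p +
        Err k Y (rho1 u₀ z D) M N := by
    unfold Err
    rw [sum_rho1 u₀ z D M N hN1 hM1 (fun d => Er k Y N d), Finset.mul_sum,
      ← Finset.sum_add_distrib]
    refine Finset.sum_congr rfl (fun S hS => ?_)
    rw [h4, HW_inv_totient (hPN S hS)]
    ring
  have h6 : ∑ q ∈ QN N z y, om y q *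
        ∑ S ∈ (PN N z).powerset, rhoS true u₀ (D / q) S * Sd k Y N (q * ∏ q ∈ S, q) =
      XM k Y * ∑ q ∈ QN N z y, om y q * gp q *
          ∑ S ∈ (PN N z).powerset, rhoS true u₀ (D / q) S * ∏ p ∈ S, gp p +
        Err k Y (rho2 u₀ z y D) M N := by
    unfold Err
    rw [sum_rho2 u₀ z y D hz M N hN1 hM2 (fun d => Er k Y N d), Finset.mul_sum,
      ← Finset.sum_add_distrib]
    refine Finset.sum_congr rfl (fun q hq => ?_)
    have hq1 := mem_PI.1 (HW_mem_QN.1 hq).1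
    have h7 : ∀ S ∈ (PN N z).powerset, rhoS true u₀ (D / q) S * Sd k Y N (q * ∏ q ∈ S, q) =
        XM k Y * gp q * (rhoS true u₀ (D / q) S * ∏ p ∈ S, gp p) +
          rhoS true u₀ (D / q) S * Er k Y N (q * ∏ q ∈ S, q) := by
      intro S hS
      have hco : q ∉ S := by
        intro hqS
        have h2 := mem_PI.1 (HW_mem_PN.1 (mem_powerset.1 hS hqS)).1
        linarith [hq1.2.1, h2.2.2]
      have h8 : 1 / (((q * ∏ q ∈ S, q : ℕ)).totient : ℝ) = gp q * ∏ p ∈ S, gp p := by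
        rw [← Finset.prod_insert (f := fun q => q) hco, ← Finset.prod_insert hco]
        refine HW_inv_totient (fun q' hq' => ?_)
        rcases mem_insert.1 hq' with h9 | h9
        · rw [h9]
          exact hq1.1
        · exact hPN S hS q' h9
      rw [h4, h8]
      ring
    rw [Finset.sum_congr rfl h7, Finset.sum_add_distrib, ← Finset.mul_sum]
    ring
  rw [h5, h6]
  ring

end Pool.Agent.Wb58c63
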