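import Pool.Agent.W_b58c63_h68.HPer

/-!
# The final theorems (helper68)
-/

set_option autoImplicit false

noncomputable section

open Finset ArithmeticFunction

namespace Pool.Agent.Wb58c63

open Classical in
/-- The primes `p ∈ (√(2 n), 4 √(2 n))` for which `2 n - p` has at most `r` prime factors (with multiplicity). -/
def gd (n r : ℕ) : Finset ℕ :=
  (range (2 * n)).filter fun p => p.Prime ∧ Real.sqrt (2 * n : ℕ) < p ∧
    (p : ℝ) < 4 * Real.sqrt (2 * n : ℕ) ∧ cardFactors (2 * n - p) ≤ r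

/-- For `Y ^ 2 / 2 < 2 n ≤ Y ^ 2` the window `(Y, 2 Y)` is inside of `(√(2 n), 4 √(2 n))` (`2 √2 > 2`), and `2 Y ≤ 2 n`
for `Y ≥ 4`. -/
theorem window_sub (Y : ℝ) (hY : 4 ≤ Y) (n r : ℕ) (h1 : Y ^ 2 / 2 < (2 * n : ℕ))
    (h2 : ((2 * n : ℕ) : ℝ) ≤ Y ^ 2) :
    ((Pr Y).filter fun p : ℕ => Y < (p : ℝ) ∧ cardFactors (2 * n - p) ≤ r) ⊆ gd n r := by
  intro p hp
  rw [mem_filter, mem_Pr] at hp
  obtain ⟨⟨hpp, hp2⟩, hpY, hr⟩ := hp
  have hY0 : 0 < Y := by linarith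
  have h3 : Real.sqrt (2 * n : ℕ) ≤ Y := by
    rw [Real.sqrt_le_left hY0.le]
    exact h2
  have h4 : Y / 2 ≤ Real.sqrt (2 * n : ℕ) := by
    refine Real.le_sqrt_of_sq_le ?_
    nlinarith
  have h5 : (p : ℝ) < (2 * n : ℕ) := by nlinarith
  unfold gd
  rw [mem_filter, mem_range]
  refine ⟨by exact_mod_cast h5, hpp, by linarith, by linarith, hr⟩

theorem Fin_window_ge (Y c : ℝ) (hY : 4 ≤ Y) (hc : 0 ≤ c) (n : ℕ) (h1 : Y ^ 2 / 2 < (2 * n : ℕ))
    (h2 : ((2 * n : ℕ) : ℝ) ≤ Y ^ 2) :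
    c * Real.sqrt (2 * n : ℕ) / Real.log (2 * n : ℕ) ^ 2 ≤ c * Y / Real.log Y ^ 2 := by
  have hY0 : 0 < Y := by linarith
  have h3 : Real.sqrt (2 * n : ℕ) ≤ Y := by
    rw [Real.sqrt_le_left hY0.le]
    exact h2
  have h4 : Real.log Y ≤ Real.log (2 * n : ℕ) := by
    refine Real.log_le_log hY0 ?_
    nlinarith
  have h5 : 0 < Real.log Y := Real.log_pos (by linarith)
  have h6 : Real.log Y ^ 2 ≤ Real.log (2 * n : ℕ) ^ 2 := pow_le_pow_left₀ h5.le h4 2
  exact div_le_div₀ (by positivity) (mul_le_mul_of_nonneg_left h3 hc) (by positivity) h6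

/-- **All even numbers, `P_5`.**

Proof. `perN` with `k = 40`, `r = 5`, `κ = 6 / 25`, `θ = 9 / 10`, `l = 3 / 4`, `κ' = 97 / 200` (`num5`;
`4 / 3 + 1 / (κ θ) = 1.34 + 4.63 ≤ 6`), `exc_none` for both linear forms. For given `n` take `Y = √(2 n)`;
`window_sub`; `√(2 n) / log (2 n) ^ 2 ≤ Y / (log Y) ^ 2`. -/
theorem all_even : ∃ (c : ℝ) (n₀ : ℕ), 0 < c ∧ ∀ n : ℕ, n₀ ≤ n →
    c * Real.sqrt (2 * n : ℕ) / Real.log (2 * n : ℕ) ^ 2 ≤ ((gd n 5).card : ℝ) := by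
  obtain ⟨η, c, Y₀, u₀, hη, hc, hY₀, hper⟩ := perN 40 5 (6 / 25) (9 / 10) (3 / 4) (97 / 200)
    (by norm_num) (by norm_num) (by norm_num) (by norm_num) (by norm_num) (by norm_num) num5
    (by norm_num)
  obtain ⟨Y₁, hY₁, hexc⟩ := exc_none 40 le_rfl (97 / 200) η (by norm_num) (by norm_num) hη
  obtain ⟨Z, hZ⟩ : ∃ Z : ℝ, Z = max (max Y₀ Y₁) 4 := ⟨_, rfl⟩
  refine ⟨c, ⌈Z ^ 2⌉₊, hc, fun n hn => ?_⟩
  have hZ4 : 4 ≤ Z := by rw [hZ]; exact le_max_right _ _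
  have hnZ : Z ^ 2 ≤ n := (Nat.le_ceil _).trans (by exact_mod_cast hn)
  obtain ⟨Y, hY⟩ : ∃ Y, Y = Real.sqrt (2 * n : ℕ) := ⟨_, rfl⟩
  have hn2 : ((2 * n : ℕ) : ℝ) = 2 * n := by push_cast; ring
  have hY2 : Y ^ 2 = (2 * n : ℕ) := by rw [hY]; exact Real.sq_sqrt (Nat.cast_nonneg _)
  have hYZ : Z ≤ Y := by
    rw [hY]
    refine Real.le_sqrt_of_sq_le ?_
    rw [hn2]
    nlinarith
  have hY4 : 4 ≤ Y := hZ4.trans hYZ
  have hYa : Y₀ ≤ Y := by
    refine le_trans ?_ hYZ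
    rw [hZ]
    exact (le_max_left _ _).trans (le_max_left _ _)
  have hYb : Y₁ ≤ Y := by
    refine le_trans ?_ hYZ
    rw [hZ]
    exact (le_max_right _ _).trans (le_max_left _ _)
  have h1 : Y ^ 2 / 2 < (2 * n : ℕ) := by
    rw [← hY2]
    nlinarith
  have h2 : ((2 * n : ℕ) : ℝ) ≤ Y ^ 2 := hY2.ge
  obtain ⟨ha1, ha2, hN⟩ := hper Y hYa
  have h3 := hN (2 * n) (even_two_mul n) h1 h2 (hexc Y _ (2 * n) hYb ha1) (hexc Y _ (2 * n) hYb ha2)
  have h4 := Finset.card_le_card (window_sub Y hY4 n 5 h1 h2)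
  refine (Fin_window_ge Y c hY4 hc.le n h1 h2).trans (h3.trans ?_)
  exact_mod_cast h4

open Classical in
/-- **Exceptional sets, abstract form.**

Proof. `perN` with `k = 40`, `exc` for both linear forms with `κ'`, `η` and `ε = E - max (0, 2 κ' - 1) > 0`: for `Y ≥ Y₀` at
most `2 C Y ^ E` even `N ∈ (Y ^ 2 / 2, Y ^ 2]` fail. For given `X` cover `2 n ≤ 2 X` by the intervals with
`Y = 2 ^ (j / 2)`, `2 ^ j ≤ 4 X`, and the `n` with `2 n ≤ Y₀ ^ 2` trivially: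
`∑_j 2 C 2 ^ (j E / 2) ≤ C' X ^ (E / 2)` (geometric series). -/
theorem exc_sets (r : ℕ) (κ θ l κ' E : ℝ) (hκ : 0 < κ) (h0 : 1 / 4 < θ) (h1 : θ < 1)
    (h2 : 2 * κ * θ < 1) (hl : 0 < l) (hr : 1 / l + 1 / (κ * θ) ≤ r + 1)
    (hI : l * Ith θ < Real.log 3) (hκ' : 2 * κ < κ') (hκ1 : κ' < 3 / 2)
    (hE : max 0 (2 * κ' - 1) < E) :
    ∃ c C : ℝ, 0 < c ∧ ∀ X : ℕ, 1 ≤ X →
      ((((Icc 1 X).filter fun n : ℕ => ((gd n r).card : ℝ) <
        c * Real.sqrt (2 * n : ℕ) / Real.log (2 * n : ℕ) ^ 2).card : ℕ) : ℝ) ≤ C * (X : ℝ) ^ (E / 2) := by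
  have hE0 : 0 < E := lt_of_le_of_lt (le_max_left _ _) hE
  obtain ⟨η, c, Y₀, u₀, hη, hc, hY₀, hper⟩ := perN 40 r κ θ l κ' hκ h0 h1 h2 hl hr hI hκ'
  obtain ⟨C₁, Y₁, hC₁, hY₁, hexc⟩ := exc 40 le_rfl κ' (E - max 0 (2 * κ' - 1)) η (by linarith) hκ1
    (by linarith) hη
  have hEe : max 0 (2 * κ' - 1) + (E - max 0 (2 * κ' - 1)) = E := by ring
  rw [hEe] at hexc
  obtain ⟨Z, hZ⟩ : ∃ Z : ℝ, Z = max (max Y₀ Y₁) 4 := ⟨_, rfl⟩
  have hZ4 : 4 ≤ Z := by rw [hZ]; exact le_max_right _ _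
  obtain ⟨q, hq⟩ : ∃ q : ℝ, q = (2 : ℝ) ^ (E / 2) := ⟨_, rfl⟩
  have hq1 : 1 < q := by rw [hq]; exact Real.one_lt_rpow (by norm_num) (by linarith)
  have hq0 : 0 < q := by linarith
  obtain ⟨C, hC⟩ : ∃ C : ℝ, C = max (Z ^ 2) (2 * C₁ * q * (q / (q - 1))) := ⟨_, rfl⟩
  have hCZ : Z ^ 2 ≤ C := by rw [hC]; exact le_max_left _ _
  have hCq : 2 * C₁ * q * (q / (q - 1)) ≤ C := by rw [hC]; exact le_max_right _ _
  have hC0 : 0 ≤ C := le_trans (by positivity) hCZ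
  refine ⟨c, C, hc, ?_⟩
  intro X
  induction X using Nat.strong_induction_on with
  | _ X ih =>
    intro hX
    have hX1 : (1 : ℝ) ≤ X := by exact_mod_cast hX
    have hXE : (1 : ℝ) ≤ (X : ℝ) ^ (E / 2) := Real.one_le_rpow hX1 (by linarith)
    rcases lt_or_ge ((2 * X : ℕ) : ℝ) (Z ^ 2) with hs | hs
    · have e1 : ((Icc 1 X).filter fun n : ℕ => ((gd n r).card : ℝ) <
          c * Real.sqrt (2 * n : ℕ) / Real.log (2 * n : ℕ) ^ 2).card ≤ X := by
        refine (Finset.card_filter_le _ _).trans ?_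
        rw [Nat.card_Icc]
        omega
      have e2 : ((((Icc 1 X).filter fun n : ℕ => ((gd n r).card : ℝ) <
          c * Real.sqrt (2 * n : ℕ) / Real.log (2 * n : ℕ) ^ 2).card : ℕ) : ℝ) ≤ X := by
        exact_mod_cast e1
      refine e2.trans ?_
      have e3 : ((2 * X : ℕ) : ℝ) = 2 * X := by push_cast; ring
      rw [e3] at hs
      have e4 : (X : ℝ) ≤ C := by linarith
      exact e4.trans (le_mul_of_one_le_right hC0 hXE)
    · obtain ⟨Y, hY⟩ : ∃ Y, Y = Real.sqrt (2 * X : ℕ) := ⟨_, rfl⟩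
      have e3 : ((2 * X : ℕ) : ℝ) = 2 * X := by push_cast; ring
      have hY2 : Y ^ 2 = 2 * X := by
        rw [hY, Real.sq_sqrt (Nat.cast_nonneg _), e3]
      have hYZ : Z ≤ Y := by
        rw [hY]
        exact Real.le_sqrt_of_sq_le hs
      have hY4 : 4 ≤ Y := hZ4.trans hYZ
      have hY0 : 0 < Y := by linarith
      have hYa : Y₀ ≤ Y := by
        refine le_trans ?_ hYZ
        rw [hZ]
        exact (le_max_left _ _).trans (le_max_left _ _)
      have hYb : Y₁ ≤ Y := by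
        refine le_trans ?_ hYZ
        rw [hZ]
        exact (le_max_right _ _).trans (le_max_left _ _)
      obtain ⟨ha1, ha2, hN⟩ := hper Y hYa
      have hx1 := hexc Y _ hYb ha1
      have hx2 := hexc Y _ hYb ha2
      have hX8 : 8 ≤ X := by
        have : (16 : ℝ) ≤ 2 * X := by rw [← hY2]; nlinarith
        have : (8 : ℝ) ≤ X := by linarith
        exact_mod_cast this
      have ihX := ih (X / 2) (by omega) (by omega)
      obtain ⟨A, hA⟩ : ∃ A, A = (Icc 1 (X / 2)).filter fun n : ℕ => ((gd n r).card : ℝ) <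
          c * Real.sqrt (2 * n : ℕ) / Real.log (2 * n : ℕ) ^ 2 := ⟨_, rfl⟩
      obtain ⟨B, hB⟩ : ∃ B, B = (Ioc (X / 2) X).filter fun n : ℕ => ((gd n r).card : ℝ) <
          c * Real.sqrt (2 * n : ℕ) / Real.log (2 * n : ℕ) ^ 2 := ⟨_, rfl⟩
      have hsub : ((Icc 1 X).filter fun n : ℕ => ((gd n r).card : ℝ) <
          c * Real.sqrt (2 * n : ℕ) / Real.log (2 * n : ℕ) ^ 2) ⊆ A ∪ B := by
        intro n hn
        rw [mem_filter, mem_Icc] at hn
        rw [mem_union, hA, hB, mem_filter, mem_filter, mem_Icc, mem_Ioc]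
        rcases le_or_gt n (X / 2) with h3 | h3
        · left
          exact ⟨⟨hn.1.1, h3⟩, hn.2⟩
        · right
          exact ⟨⟨h3, hn.1.2⟩, hn.2⟩
      have hBc : (B.card : ℝ) ≤ 2 * (C₁ * Y ^ E) := by
        obtain ⟨E₁, hE₁⟩ : ∃ E₁, E₁ = (Icc 1 ⌊Y ^ 2⌋₊).filter fun N => η * Y / Real.log Y <
          |Err 40 Y (rho1 u₀ (Y ^ (κ / 2)) (Y ^ (2 * κ))) ⌊Y ^ κ'⌋₊ N| := ⟨_, rfl⟩
        obtain ⟨E₂, hE₂⟩ : ∃ E₂, E₂ = (Icc 1 ⌊Y ^ 2⌋₊).filter fun N => η * Y / Real.log Y <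
          |Err 40 Y (rho2 u₀ (Y ^ (κ / 2)) (Y ^ (2 * κ * θ)) (Y ^ (2 * κ))) ⌊Y ^ κ'⌋₊ N| := ⟨_, rfl⟩
        rw [← hE₁] at hx1
        rw [← hE₂] at hx2
        have hmap : ∀ n ∈ B, 2 * n ∈ E₁ ∪ E₂ := by
          intro n hn
          rw [hB, mem_filter, mem_Ioc] at hn
          obtain ⟨⟨hn1, hn2⟩, hn3⟩ := hn
          have e5 : ((2 * n : ℕ) : ℝ) ≤ Y ^ 2 := by
            rw [hY2, ← e3]
            exact_mod_cast Nat.mul_le_mul_left 2 hn2
          have e6 : Y ^ 2 / 2 < (2 * n : ℕ) := by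
            rw [hY2]
            have e7 : X < 2 * n := by omega
            have e8 : (X : ℝ) < (2 * n : ℕ) := by exact_mod_cast e7
            linarith
          have hmem : 2 * n ∈ Icc 1 ⌊Y ^ 2⌋₊ := by
            rw [mem_Icc]
            exact ⟨by omega, Nat.le_floor e5⟩
          by_contra hcon
          rw [mem_union, not_or, hE₁, hE₂, mem_filter, mem_filter] at hcon
          have e9 := fun h => hcon.1 ⟨hmem, h⟩
          have e10 := fun h => hcon.2 ⟨hmem, h⟩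
          have h3 := hN (2 * n) (even_two_mul n) e6 e5 (not_lt.1 e9) (not_lt.1 e10)
          have h4 := Finset.card_le_card (window_sub Y hY4 n r e6 e5)
          have h5 : c * Real.sqrt (2 * n : ℕ) / Real.log (2 * n : ℕ) ^ 2 ≤ ((gd n r).card : ℝ) := by
            refine (Fin_window_ge Y c hY4 hc.le n e6 e5).trans (h3.trans ?_)
            exact_mod_cast h4
          linarith
        have hc1 : B.card ≤ (E₁ ∪ E₂).card :=
          Finset.card_le_card_of_injOn (fun n => 2 * n) hmap (fun a _ b _ hab => by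
            simp only [] at hab
            omega)
        have hc2 := hc1.trans (Finset.card_union_le E₁ E₂)
        have hc3 : (B.card : ℝ) ≤ E₁.card + E₂.card := by exact_mod_cast hc2
        linarith
      have hYE : Y ^ E = q * (X : ℝ) ^ (E / 2) := by
        have e5 : Y ^ E = (Y ^ 2) ^ (E / 2) := by
          rw [← Real.rpow_natCast Y 2, ← Real.rpow_mul hY0.le]
          congr 1
          push_cast
          ring
        rw [e5, hY2, Real.mul_rpow (by norm_num) (by linarith), hq]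
      have hX2 : (((X / 2 : ℕ) : ℝ)) ^ (E / 2) ≤ (X : ℝ) ^ (E / 2) / q := by
        have e5 : (((X / 2 : ℕ) : ℝ)) ≤ X / 2 := Nat.cast_div_le
        calc (((X / 2 : ℕ) : ℝ)) ^ (E / 2) ≤ ((X : ℝ) / 2) ^ (E / 2) :=
              Real.rpow_le_rpow (Nat.cast_nonneg _) e5 (by linarith)
          _ = (X : ℝ) ^ (E / 2) / q := by
              rw [Real.div_rpow (by linarith) (by norm_num), hq]
      rw [← hA] at ihX
      have hcard : ((((Icc 1 X).filter fun n : ℕ => ((gd n r).card : ℝ) <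
          c * Real.sqrt (2 * n : ℕ) / Real.log (2 * n : ℕ) ^ 2).card : ℕ) : ℝ) ≤
          A.card + B.card := by
        have e5 := (Finset.card_le_card hsub).trans (Finset.card_union_le A B)
        exact_mod_cast e5
      have hXE0 : 0 < (X : ℝ) ^ (E / 2) := by linarith
      calc ((((Icc 1 X).filter fun n : ℕ => ((gd n r).card : ℝ) <
          c * Real.sqrt (2 * n : ℕ) / Real.log (2 * n : ℕ) ^ 2).card : ℕ) : ℝ) ≤
          A.card + B.card := hcard
        _ ≤ C * ((X : ℝ) ^ (E / 2) / q) + 2 * (C₁ * (q * (X : ℝ) ^ (E / 2))) := by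
            rw [← hYE]
            exact add_le_add (ihX.trans (mul_le_mul_of_nonneg_left hX2 hC0)) hBc
        _ = (C / q + 2 * C₁ * q) * (X : ℝ) ^ (E / 2) := by ring
        _ ≤ C * (X : ℝ) ^ (E / 2) := by
            refine mul_le_mul_of_nonneg_right ?_ hXE0.le
            have e6 : 0 < q - 1 := by linarith
            have e7 : 2 * C₁ * q * q ≤ C * (q - 1) := by
              have e8 : 2 * C₁ * q * (q / (q - 1)) * (q - 1) ≤ C * (q - 1) :=
                mul_le_mul_of_nonneg_right hCq e6.le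
              have e9 : 2 * C₁ * q * (q / (q - 1)) * (q - 1) = 2 * C₁ * q * q := by
                field_simp
              rwa [e9] at e8
            have e10 : 2 * C₁ * q ≤ C * (q - 1) / q := by
              rw [le_div_iff₀ hq0]
              exact e7
            have e11 : C * (q - 1) / q = C - C / q := by
              field_simp
            linarith

open Classical in
/-- `P_4`: `κ = 269 / 1000`, `θ = 197 / 200`, `l = 102 / 125`, `κ' = 1077 / 2000`, `E = 2 / 25` (`num4`). -/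
theorem exc4 : ∃ c C : ℝ, 0 < c ∧ ∀ X : ℕ, 1 ≤ X →
    ((((Icc 1 X).filter fun n : ℕ => ((gd n 4).card : ℝ) <
      c * Real.sqrt (2 * n : ℕ) / Real.log (2 * n : ℕ) ^ 2).card : ℕ) : ℝ) ≤
        C * (X : ℝ) ^ (1 / 25 : ℝ) := by
  have h := exc_sets 4 (269 / 1000) (197 / 200) (102 / 125) (1077 / 2000) (2 / 25) (by norm_num)
    (by norm_num) (by norm_num) (by norm_num) (by norm_num) (by norm_num) num4 (by norm_num)
    (by norm_num) (by rw [max_lt_iff]; norm_num)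
  have he : (2 / 25 / 2 : ℝ) = 1 / 25 := by norm_num
  rw [he] at h
  exact h

open Classical in
/-- `P_3`: `κ = 91 / 250`, `θ = 24 / 25`, `l = 879 / 1000`, `κ' = 1457 / 2000`, `E = 23 / 50` (`num3`). -/
theorem exc3 : ∃ c C : ℝ, 0 < c ∧ ∀ X : ℕ, 1 ≤ X →
    ((((Icc 1 X).filter fun n : ℕ => ((gd n 3).card : ℝ) <
      c * Real.sqrt (2 * n : ℕ) / Real.log (2 * n : ℕ) ^ 2).card : ℕ) : ℝ) ≤
        C * (X : ℝ) ^ (23 / 100 : ℝ) := by
  have h := exc_sets 3 (91 / 250) (24 / 25) (879 / 1000) (1457 / 2000) (23 / 50) (by norm_num)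
    (by norm_num) (by norm_num) (by norm_num) (by norm_num) (by norm_num) num3 (by norm_num)
    (by norm_num) (by rw [max_lt_iff]; norm_num)
  have he : (23 / 50 / 2 : ℝ) = 23 / 100 := by norm_num
  rw [he] at h
  exact h

open Classical in
/-- `P_2`: `κ = 549 / 1000`, `θ = 9 / 10`, `l = 41 / 40`, `κ' = 2197 / 2000`, `E = 6 / 5` (`num2`). -/
theorem exc2 : ∃ c C : ℝ, 0 < c ∧ ∀ X : ℕ, 1 ≤ X →
    ((((Icc 1 X).filter fun n : ℕ => ((gd n 2).card : ℝ) <
      c * Real.sqrt (2 * n : ℕ) / Real.log (2 * n : ℕ) ^ 2).card : ℕ) : ℝ) ≤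
        C * (X : ℝ) ^ (3 / 5 : ℝ) := by
  have h := exc_sets 2 (549 / 1000) (9 / 10) (41 / 40) (2197 / 2000) (6 / 5) (by norm_num)
    (by norm_num) (by norm_num) (by norm_num) (by norm_num) (by norm_num) num2 (by norm_num)
    (by norm_num) (by rw [max_lt_iff]; norm_num)
  have he : (6 / 5 / 2 : ℝ) = 3 / 5 := by norm_num
  rw [he] at h
  exact h

end Pool.Agent.Wb58c63
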