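import Pool.Agent.W_b58c63_h68.ArB

/-!
# Sums and products over primes (helper68)
-/

set_option autoImplicit false

noncomputable section

open Finset

namespace Pool.Agent.Wb58c63

theorem ArD_log (x : ℝ) (h0 : 0 ≤ x) (h1 : x ≤ 1 / 2) : Real.exp (-(x + 2 * x ^ 2)) ≤ 1 - x := by
  have h2 : 0 < 1 - x := by linarith
  rw [← Real.le_log_iff_exp_le h2]
  have h3 := Real.one_sub_inv_le_log_of_pos h2
  refine le_trans ?_ h3
  rw [inv_eq_one_div, le_sub_iff_add_le, neg_add_eq_sub, sub_le_iff_le_add, div_le_iff₀ h2] <;>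
  nlinarith [mul_nonneg (sq_nonneg x) (by linarith : 0 ≤ 1 - 2 * x)]

theorem ArD_sq : ∀ u z : ℝ, 2 ≤ u → u ≤ z →
    ∑ p ∈ PI u z, ((1 : ℝ) / ((p : ℝ) - 1)) ^ 2 ≤ 4 / Real.log u := by
  intro u z hu huz
  have hz : 2 ≤ z := hu.trans huz
  obtain ⟨N, hN, hc, hNz, hzN⟩ := arb_ceil hz
  set U := ⌈u⌉₊ with hUdef
  have hU2 : 2 ≤ U := by
    have : (1 : ℝ) < u := by linarith
    exact Nat.lt_ceil.2 (by exact_mod_cast this)
  have huU : u ≤ U := Nat.le_ceil u
  have hlu : 0 < Real.log u := Real.log_pos (by linarith)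
  have h1 : ∑ p ∈ PI u z, ((1 : ℝ) / ((p : ℝ) - 1)) ^ 2 ≤
      ∑ p ∈ PI u z, 2 * ((1 : ℝ) / (p * (p - 1))) := by
    refine Finset.sum_le_sum fun p hp => ?_
    have hp2 : (2 : ℝ) ≤ p := by exact_mod_cast (mem_PI.1 hp).1.two_le
    have h2 : (0 : ℝ) < (p : ℝ) - 1 := by linarith
    rw [div_pow, one_pow, mul_one_div, div_le_div_iff₀ (by positivity) (by positivity)]
    nlinarith
  have h2 : ∑ p ∈ PI u z, (1 : ℝ) / (p * (p - 1)) ≤ ∑ n ∈ Icc U N, (1 : ℝ) / (n * (n - 1)) := by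
    apply Finset.sum_le_sum_of_subset_of_nonneg
    · intro p hp
      obtain ⟨h1, h2, h3⟩ := mem_PI.1 hp
      rw [mem_Icc, hUdef, Nat.ceil_le]
      refine ⟨h2, ?_⟩
      have h4 : (p : ℝ) < N + 1 := by linarith
      have h5 : p < N + 1 := by exact_mod_cast h4
      omega
    · intro n hn _
      have hn2 : (2 : ℝ) ≤ n := by exact_mod_cast hU2.trans (mem_Icc.1 hn).1
      apply div_nonneg (by norm_num)
      apply mul_nonneg <;> linarith
  have h3 := arb_tail U hU2 N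
  have h4 : 1 / ((U : ℝ) - 1) ≤ 2 / Real.log u := by
    have hUr : (2 : ℝ) ≤ U := by exact_mod_cast hU2
    have h5 : Real.log u ≤ u - 1 := Real.log_le_sub_one_of_pos (by linarith)
    rw [div_le_div_iff₀ (by linarith) hlu]
    linarith
  rw [← Finset.mul_sum] at h1
  have h5 : 2 * (2 / Real.log u) = 4 / Real.log u := by ring
  linarith

/-- **The product condition of the linear sieve**: `∏_{u ≤ p < z} (1 - 1 / (p - 1))⁻¹ ≤ (1 + ε) log z / log u` for
`u ≥ u₀ (ε)`.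

Proof. `-log (1 - 1 / (p - 1)) ≤ 1 / (p - 1) + 2 / (p - 1) ^ 2` for `p ≥ 3`; the sum is at most
`log (log z / log u) + C / log u + C' / u`, and `exp (C / log u + C' / u) ≤ 1 + ε` for large `u`. -/
theorem prod_cond (ε : ℝ) (hε : 0 < ε) : ∃ u₀ : ℝ, 3 ≤ u₀ ∧ ∀ u z : ℝ, u₀ ≤ u → u ≤ z →
    Real.log u ≤ (1 + ε) * Real.log z * ∏ p ∈ PI u z, (1 - 1 / ((p : ℝ) - 1)) := by
  obtain ⟨C, hC, h⟩ := mertens_two'
  have hl : 0 < Real.log (1 + ε) := Real.log_pos (by linarith)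
  refine ⟨max 3 (Real.exp ((C + 8) / Real.log (1 + ε))), le_max_left _ _, fun u z hu huz => ?_⟩
  have hu3 : 3 ≤ u := (le_max_left _ _).trans hu
  have hue : Real.exp ((C + 8) / Real.log (1 + ε)) ≤ u := (le_max_right _ _).trans hu
  have hu0 : 0 < u := by linarith
  have hlu : 0 < Real.log u := Real.log_pos (by linarith)
  have hlz : Real.log u ≤ Real.log z := Real.log_le_log hu0 huz
  have hlz0 : 0 < Real.log z := hlu.trans_le hlz
  have h1 := h u z (by linarith) huz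
  have h2 := ArD_sq u z (by linarith) huz
  have h3 : (C + 8) / Real.log u ≤ Real.log (1 + ε) := by
    have h4 : (C + 8) / Real.log (1 + ε) ≤ Real.log u := (Real.le_log_iff_exp_le hu0).2 hue
    rw [div_le_iff₀ hl] at h4
    rw [div_le_iff₀ hlu]
    linarith
  have h4 : Real.exp (-(∑ p ∈ PI u z, (1 : ℝ) / ((p : ℝ) - 1) +
      2 * ∑ p ∈ PI u z, ((1 : ℝ) / ((p : ℝ) - 1)) ^ 2)) ≤
      ∏ p ∈ PI u z, (1 - 1 / ((p : ℝ) - 1)) := by
    rw [Finset.mul_sum, ← Finset.sum_add_distrib, ← Finset.sum_neg_distrib, Real.exp_sum]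
    refine Finset.prod_le_prod (fun p _ => (Real.exp_pos _).le) fun p hp => ?_
    have hp3 : (3 : ℝ) ≤ p := hu3.trans (mem_PI.1 hp).2.1
    have hp0 : (0 : ℝ) < (p : ℝ) - 1 := by linarith
    refine ArD_log _ (by positivity) ?_
    rw [div_le_div_iff₀ hp0 (by norm_num)]
    linarith
  have h5 : Real.log u / Real.log z * (1 + ε)⁻¹ ≤
      Real.exp (-(∑ p ∈ PI u z, (1 : ℝ) / ((p : ℝ) - 1) +
        2 * ∑ p ∈ PI u z, ((1 : ℝ) / ((p : ℝ) - 1)) ^ 2)) := by
    have e : Real.log u / Real.log z * (1 + ε)⁻¹ =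
        Real.exp (-(Real.log (Real.log z / Real.log u) + Real.log (1 + ε))) := by
      rw [neg_add, Real.exp_add, Real.exp_neg, Real.exp_neg, Real.exp_log (by positivity),
        Real.exp_log (by linarith), inv_div]
    rw [e]
    apply Real.exp_le_exp.2
    have h6 : (C + 8) / Real.log u = C / Real.log u + 2 * (4 / Real.log u) := by ring
    linarith
  have h6 := h5.trans h4
  have h7 : (1 + ε) * Real.log z * (Real.log u / Real.log z * (1 + ε)⁻¹) = Real.log u := by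
    have : (1 + ε) ≠ 0 := by linarith
    field_simp
  rw [← h7]
  exact mul_le_mul_of_nonneg_left h6 (by positivity)

theorem ArD_intble (H : ℝ → ℝ) (a b : ℝ) (ha : 0 < a) (hab : a ≤ b)
    (hH : AntitoneOn H (Set.Icc a b)) :
    IntervalIntegrable (fun t => H t / t) MeasureTheory.volume a b := by
  have h1 : IntervalIntegrable H MeasureTheory.volume a b := by
    apply AntitoneOn.intervalIntegrable
    rwa [Set.uIcc_of_le hab]
  have h2 : ContinuousOn (fun t : ℝ => t⁻¹) (Set.uIcc a b) := by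
    rw [Set.uIcc_of_le hab]
    exact continuousOn_inv₀.mono fun t ht => (ha.trans_le ht.1).ne'
  simpa only [div_eq_mul_inv] using h1.mul_continuousOn h2

theorem ArD_int_ge (H : ℝ → ℝ) (a b : ℝ) (ha : 0 < a) (hab : a ≤ b)
    (hH : AntitoneOn H (Set.Icc a b)) :
    H b * Real.log (b / a) ≤ ∫ t in a..b, H t / t := by
  have h1 : H b * Real.log (b / a) = ∫ t in a..b, H b * (1 / t) := by
    rw [intervalIntegral.integral_const_mul, integral_one_div_of_pos ha (ha.trans_le hab)]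
  rw [h1]
  apply intervalIntegral.integral_mono_on hab
  · have h2 : ContinuousOn (fun t : ℝ => H b * (1 / t)) (Set.uIcc a b) := by
      rw [Set.uIcc_of_le hab]
      exact continuousOn_const.mul (continuousOn_const.div continuousOn_id
        fun t ht => (ha.trans_le ht.1).ne')
    exact h2.intervalIntegrable
  · exact ArD_intble H a b ha hab hH
  · intro t ht
    rw [mul_one_div]
    exact div_le_div_of_nonneg_right (hH ht ⟨hab, le_rfl⟩ ht.2) (ha.trans_le ht.1).le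

theorem ArD_PI_union (u v w : ℝ) (h1 : u ≤ v) (h2 : v ≤ w) (f : ℕ → ℝ) :
    ∑ p ∈ PI u w, f p = ∑ p ∈ PI u v, f p + ∑ p ∈ PI v w, f p := by
  rw [← Finset.sum_union]
  · refine Finset.sum_congr ?_ fun _ _ => rfl
    ext p
    rw [mem_union, mem_PI, mem_PI, mem_PI]
    constructor
    · rintro ⟨hp, h3, h4⟩
      rcases lt_or_ge (p : ℝ) v with h5 | h5
      · exact Or.inl ⟨hp, h3, h5⟩
      · exact Or.inr ⟨hp, h5, h4⟩
    · rintro (⟨hp, h3, h4⟩ | ⟨hp, h3, h4⟩)
      · exact ⟨hp, h3, h4.trans_le h2⟩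
      · exact ⟨hp, h1.trans h3, h4⟩
  · rw [Finset.disjoint_left]
    intro p hp hq
    rw [mem_PI] at hp hq
    linarith [hp.2.2, hq.2.1]

theorem ArD_piece (C : ℝ) (hC : 0 < C) (h : ∀ u z : ℝ, 2 ≤ u → u ≤ z →
    ∑ p ∈ PI u z, (1 : ℝ) / ((p : ℝ) - 1) ≤
      Real.log (Real.log z / Real.log u) + C / Real.log u)
    (H : ℝ → ℝ) (t₀ t₁ : ℝ) (h₀ : 0 < t₀)
    (hH : AntitoneOn H (Set.Icc t₀ t₁)) (hH0 : ∀ t ∈ Set.Icc t₀ t₁, 0 ≤ H t)
    (D : ℝ) (hD : 2 ≤ D) (hDt : 2 ≤ D ^ t₀) (a b δ : ℝ) (ha : t₀ ≤ a) (hab : a ≤ b) (hb : b ≤ t₁)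
    (hδ : b - a ≤ δ) :
    ∑ p ∈ PI (D ^ a) (D ^ b), H (Real.log p / Real.log D) / ((p : ℝ) - 1) ≤
      (∫ t in a..b, H t / t) + (H a - H b) * (δ / t₀) + H t₀ * (C / (t₀ * Real.log D)) := by
  have ha0 : 0 < a := h₀.trans_le ha
  have hD0 : 0 < D := by linarith
  have hlD : 0 < Real.log D := Real.log_pos (by linarith)
  have hHa : 0 ≤ H a := hH0 a ⟨ha, hab.trans hb⟩
  have hHab : H b ≤ H a := hH ⟨ha, hab.trans hb⟩ ⟨ha.trans hab, hb⟩ hab
  have hHa0 : H a ≤ H t₀ := hH ⟨le_rfl, ha.trans (hab.trans hb)⟩ ⟨ha, hab.trans hb⟩ ha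
  have h1 : ∑ p ∈ PI (D ^ a) (D ^ b), H (Real.log p / Real.log D) / ((p : ℝ) - 1) ≤
      ∑ p ∈ PI (D ^ a) (D ^ b), H a * (1 / ((p : ℝ) - 1)) := by
    refine Finset.sum_le_sum fun p hp => ?_
    obtain ⟨hp, h2, h3⟩ := mem_PI.1 hp
    have hp1 : (1 : ℝ) < p := by exact_mod_cast hp.one_lt
    have hp0 : (0 : ℝ) < p := by linarith
    rw [mul_one_div]
    refine div_le_div_of_nonneg_right ?_ (by linarith)
    have h4 : a ≤ Real.log p / Real.log D := by
      rw [le_div_iff₀ hlD, ← Real.log_rpow hD0]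
      exact Real.log_le_log (Real.rpow_pos_of_pos hD0 a) h2
    have h5 : Real.log p / Real.log D ≤ b := by
      rw [div_le_iff₀ hlD, ← Real.log_rpow hD0]
      exact Real.log_le_log hp0 h3.le
    exact hH ⟨ha, hab.trans hb⟩ ⟨ha.trans h4, h5.trans hb⟩ h4
  rw [← Finset.mul_sum] at h1
  have h2 := h (D ^ a) (D ^ b)
    (hDt.trans (Real.rpow_le_rpow_of_exponent_le (by linarith) ha))
    (Real.rpow_le_rpow_of_exponent_le (by linarith) hab)
  rw [Real.log_rpow hD0, Real.log_rpow hD0, mul_div_mul_right _ _ hlD.ne'] at h2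
  have h3 : C / (a * Real.log D) ≤ C / (t₀ * Real.log D) :=
    div_le_div_of_nonneg_left hC.le (by positivity) (mul_le_mul_of_nonneg_right ha hlD.le)
  have h4 : Real.log (b / a) ≤ δ / t₀ := by
    have h5 := Real.log_le_sub_one_of_pos (show 0 < b / a from div_pos (ha0.trans_le hab) ha0)
    have h6 : b / a - 1 = (b - a) / a := by
      rw [sub_div, div_self ha0.ne']
    have h7 : (b - a) / a ≤ δ / t₀ := by
      have : 0 ≤ b - a := by linarith
      exact div_le_div₀ (by linarith) hδ h₀ ha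
    linarith
  have h5 := ArD_int_ge H a b ha0 hab (hH.mono (Set.Icc_subset_Icc ha hb))
  have h6 : H a * (∑ p ∈ PI (D ^ a) (D ^ b), (1 : ℝ) / ((p : ℝ) - 1)) ≤
      H a * (Real.log (b / a) + C / (t₀ * Real.log D)) :=
    mul_le_mul_of_nonneg_left (by linarith) hHa
  have h7 : H a * (C / (t₀ * Real.log D)) ≤ H t₀ * (C / (t₀ * Real.log D)) :=
    mul_le_mul_of_nonneg_right hHa0 (by positivity)
  have h8 : (H a - H b) * Real.log (b / a) ≤ (H a - H b) * (δ / t₀) :=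
    mul_le_mul_of_nonneg_left h4 (by linarith)
  have h9 : H a * (Real.log (b / a) + C / (t₀ * Real.log D)) =
      H b * Real.log (b / a) + (H a - H b) * Real.log (b / a) +
        H a * (C / (t₀ * Real.log D)) := by ring
  linarith

/-- The range of the primes in the remainder of a monotone function.

Proof. `H` is antitone and `≥ 0` on `[t₀, t₁]`; cut `[t₀, t₁]` into `J` equal pieces. On the piece `[a, b]`
`∑_{D ^ a ≤ p < D ^ b} H (log p / log D) / (p - 1) ≤ H (a) (log (b / a) + C / log D)` (`mertens_two'`), and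
`H (a) log (b / a) = ∫_a^b H (a) dt / t ≤ ∫_a^b H (t) dt / t + (H (a) - H (b)) log (b / a)`; the sum of the last terms is at
most `H (t₀) (t₁ - t₀) / (J t₀)` (telescoping, `log (b / a) ≤ (b - a) / a ≤ (t₁ - t₀) / (J t₀)`). Choose `J`
large, then `D` large. -/
theorem prime_riemann (H : ℝ → ℝ) (t₀ t₁ : ℝ) (h₀ : 0 < t₀) (h₁ : t₀ ≤ t₁)
    (hH : AntitoneOn H (Set.Icc t₀ t₁)) (hH0 : ∀ t ∈ Set.Icc t₀ t₁, 0 ≤ H t) (ε : ℝ) (hε : 0 < ε) :
    ∃ D₀ : ℝ, 2 ≤ D₀ ∧ ∀ D : ℝ, D₀ ≤ D →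
      ∑ p ∈ PI (D ^ t₀) (D ^ t₁), H (Real.log p / Real.log D) / ((p : ℝ) - 1) ≤
        (∫ t in t₀..t₁, H t / t) + ε := by
  obtain ⟨C, hC, h⟩ := mertens_two'
  have hH00 : 0 ≤ H t₀ := hH0 t₀ ⟨le_rfl, h₁⟩
  -- the number of pieces
  obtain ⟨J, hJ⟩ := exists_nat_gt (H t₀ * ((t₁ - t₀) / t₀) / (ε / 2))
  have hJ0' : 0 ≤ H t₀ * ((t₁ - t₀) / t₀) / (ε / 2) := by
    have : 0 ≤ t₁ - t₀ := by linarith
    positivity
  have hJ0 : (0 : ℝ) < J := lt_of_le_of_lt hJ0' hJ
  set δ : ℝ := (t₁ - t₀) / J with hδ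
  have hδ0 : 0 ≤ δ := div_nonneg (by linarith) hJ0.le
  have hJδ : J * δ = t₁ - t₀ := by
    rw [hδ]
    field_simp
  -- the size of `D`
  set K : ℝ := J * (H t₀ * (C / t₀)) / (ε / 2) with hK
  refine ⟨max 2 (max (Real.exp K) (2 ^ (1 / t₀))), le_max_left _ _, fun D hD => ?_⟩
  have hD2 : 2 ≤ D := (le_max_left _ _).trans hD
  have hDK : Real.exp K ≤ D := ((le_max_left _ _).trans (le_max_right _ _)).trans hD
  have hDt' : (2 : ℝ) ^ (1 / t₀) ≤ D := ((le_max_right _ _).trans (le_max_right _ _)).trans hD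
  have hD0 : 0 < D := by linarith
  have hlD : 0 < Real.log D := Real.log_pos (by linarith)
  have hDt : 2 ≤ D ^ t₀ := by
    calc (2 : ℝ) = ((2 : ℝ) ^ (1 / t₀)) ^ t₀ := by
          rw [← Real.rpow_mul (by norm_num), one_div_mul_cancel h₀.ne', Real.rpow_one]
      _ ≤ D ^ t₀ := Real.rpow_le_rpow (by positivity) hDt' h₀.le
  have hKD : K ≤ Real.log D := (Real.le_log_iff_exp_le hD0).2 hDK
  have key : ∀ k : ℕ, k ≤ J →
      ∑ p ∈ PI (D ^ t₀) (D ^ (t₀ + k * δ)), H (Real.log p / Real.log D) / ((p : ℝ) - 1) ≤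
        (∫ t in t₀..(t₀ + k * δ), H t / t) + (H t₀ - H (t₀ + k * δ)) * (δ / t₀) +
          k * (H t₀ * (C / (t₀ * Real.log D))) := by
    intro k
    induction k with
    | zero =>
      intro _
      have e : PI (D ^ t₀) (D ^ t₀) = ∅ := by
        rw [Finset.eq_empty_iff_forall_notMem]
        intro p hp
        obtain ⟨_, h2, h3⟩ := mem_PI.1 hp
        linarith
      simp [e]
    | succ k ih =>
      intro hk
      have ih' := ih (by omega)
      have hk' : ((k : ℝ) + 1) * δ ≤ t₁ - t₀ := by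
        rw [← hJδ]
        refine mul_le_mul_of_nonneg_right ?_ hδ0
        exact_mod_cast hk
      push_cast
      set a : ℝ := t₀ + k * δ with ha
      set b : ℝ := t₀ + (k + 1) * δ with hb
      have hta : t₀ ≤ a := by
        rw [ha]
        have : 0 ≤ (k : ℝ) * δ := by positivity
        linarith
      have hab' : b - a = δ := by
        rw [ha, hb]
        ring
      have hab : a ≤ b := by linarith
      have hbt : b ≤ t₁ := by
        rw [hb]
        linarith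
      have h2 := ArD_piece C hC h H t₀ t₁ h₀ hH hH0 D hD2 hDt a b δ hta hab hbt hab'.le
      have h3 := ArD_PI_union (D ^ t₀) (D ^ a) (D ^ b)
        (Real.rpow_le_rpow_of_exponent_le (by linarith) hta)
        (Real.rpow_le_rpow_of_exponent_le (by linarith) hab)
        (fun p => H (Real.log p / Real.log D) / ((p : ℝ) - 1))
      have h4 : (∫ t in t₀..a, H t / t) + (∫ t in a..b, H t / t) = ∫ t in t₀..b, H t / t := by
        apply intervalIntegral.integral_add_adjacent_intervals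
        · exact ArD_intble H t₀ a h₀ hta (hH.mono (Set.Icc_subset_Icc le_rfl (hab.trans hbt)))
        · exact ArD_intble H a b (h₀.trans_le hta) hab (hH.mono (Set.Icc_subset_Icc hta hbt))
      rw [h3, ← h4]
      linarith
  have h2 := key J le_rfl
  have e : t₀ + J * δ = t₁ := by
    rw [hJδ]
    ring
  rw [e] at h2
  have h3 : (H t₀ - H t₁) * (δ / t₀) ≤ ε / 2 := by
    have h4 : (H t₀ - H t₁) * (δ / t₀) ≤ H t₀ * (δ / t₀) := by
      refine mul_le_mul_of_nonneg_right ?_ (by positivity)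
      linarith [hH0 t₁ ⟨h₁, le_rfl⟩]
    have h5 : H t₀ * (δ / t₀) = H t₀ * ((t₁ - t₀) / t₀) / J := by
      rw [hδ]
      field_simp
    rw [div_lt_iff₀ (by linarith)] at hJ
    have h6 : H t₀ * ((t₁ - t₀) / t₀) / J ≤ ε / 2 := by
      rw [div_le_iff₀ hJ0]
      linarith
    linarith
  have h4 : J * (H t₀ * (C / (t₀ * Real.log D))) ≤ ε / 2 := by
    have h5 : J * (H t₀ * (C / (t₀ * Real.log D))) = J * (H t₀ * (C / t₀)) / Real.log D := by
      field_simp
    rw [h5, div_le_iff₀ hlD]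
    rw [hK, div_le_iff₀ (by linarith)] at hKD
    linarith
  linarith

end Pool.Agent.Wb58c63
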