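import Pool.Agent.W_b58c63_h68.SFin

/-!
# Siegel-Walfisz for the smooth weights (helper68; block of helper49)
-/

set_option autoImplicit false

noncomputable section

open Finset

namespace Pool.Agent.Wb58c63

/-- **Siegel-Walfisz** for the weights `ap k Y`: for every `B` and every `k ≥ 1` the character sum of a primitive
character modulo `r`, `1 < r ≤ (log Y) ^ B`, is `O (Y (log Y) ^ (-k / 2))`.

Proof (everything on `Re s > 1`). Let `v = vY Y`, `σ = 1 + 1 / v`, `w (y) = exp (σ y) tp y`; it has a Fourier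
transform `K σ t = O (1 / (1 + t ^ 2))`, `exp (σ y) tp y = ∫ K σ t exp (i t y) dt`. Up to prime powers
(`O (√Y log Y)`, `Chebyshev.psi_sub_theta_le`)
`v ^ k TT = ∑ Λ(n) (log n) ^ k χ(n) tp (log n - v) = e ^ (σ v) ∫ K σ t e ^ (-i t v) F_k (σ - i t) dt`, where
`F_k (s) = ∑ Λ(n) (log n) ^ k χ(n) n ^ (-s)`. With `L_j (s) = ∑ χ(n) (log n) ^ j n ^ (-s)` one has
`L_(k+1) = ∑_j binom (k, j) L_j F_(k-j)`, so `|F_k| ≤ C_k (H G) ^ (2 k + 2)` if `|L_j| ≤ H ^ (j + 1)` and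
`1 / |L_0| ≤ G`. Here `H = C log (r (|t| + 2))` (partial summation, `|∑ χ(n)| ≤ r`) and
`G = C_ε r ^ ε (log (|t| + 2)) ^ 7` (3-4-1 inequality, for real `χ` and small `t` Siegel's theorem
`L (1, χ) ≥ c r ^ (-ε)`). So `v ^ k |TT| ≤ C Y r ^ (3 ε (k + 1)) ≤ C Y (log Y) ^ ((k + 1) / 4)` if `ε` is small in
terms of `B`, and `(k + 1) / 4 - k ≤ - k / 2` for `k ≥ 1`. -/
theorem siegel_walfisz (B k : ℕ) (hk : 1 ≤ k) :
    ∃ C : ℝ, 0 < C ∧ ∀ (Y : ℝ) (r : ℕ), 3 ≤ Y → 1 < r → (r : ℝ) ≤ Real.log Y ^ B →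
      ∀ χ ∈ prim r, ‖TT k Y χ‖ ≤ C * Y * Real.log Y ^ (-(k : ℝ) / 2) :=
  sw_main B k hk

end Pool.Agent.Wb58c63
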