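import Pool.Agent.W_b58c63_h68.VMed
import Pool.Agent.W_b58c63_h68.SW

/-!
# Bombieri-Vinogradov for characters (helper68)
-/

set_option autoImplicit false

noncomputable section

open Finset

namespace Pool.Agent.Wb58c63

theorem BV_biUnion (s : Finset ℕ) (t : ℕ → Finset ℕ) (f : ℕ → ℝ) (hf : ∀ r, 0 ≤ f r) :
    ∑ r ∈ s.biUnion t, f r ≤ ∑ i ∈ s, ∑ r ∈ t i, f r := by
  classical
  induction s using Finset.induction_on with
  | empty => simp
  | insert a s ha ih =>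
    rw [Finset.biUnion_insert, Finset.sum_insert ha]
    have h1 := Finset.sum_union_inter (s₁ := t a) (s₂ := s.biUnion t) (f := f)
    have h2 : 0 ≤ ∑ r ∈ t a ∩ s.biUnion t, f r := Finset.sum_nonneg fun r _ => hf r
    linarith

/-- the dyadic decomposition -/
theorem BV_dyadic (Q L : ℕ) (hL : 1 ≤ L) (f : ℕ → ℝ) (hf : ∀ r, 0 ≤ f r) :
    ∑ r ∈ Icc 2 Q, f r ≤ ∑ r ∈ Icc 2 L, f r +
      ∑ i ∈ (range (Q + 1)).filter (fun i => 2 ^ i * L ≤ Q),
        ∑ r ∈ Ioc (2 ^ i * L) (2 * (2 ^ i * L)), f r := by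
  classical
  have hsub : Icc 2 Q ⊆ Icc 2 L ∪ ((range (Q + 1)).filter (fun i => 2 ^ i * L ≤ Q)).biUnion
      (fun i => Ioc (2 ^ i * L) (2 * (2 ^ i * L))) := by
    intro r hr
    rw [Finset.mem_Icc] at hr
    rw [Finset.mem_union]
    by_cases hrL : r ≤ L
    · left
      exact Finset.mem_Icc.2 ⟨hr.1, hrL⟩
    · right
      push Not at hrL
      have hex : ∃ i : ℕ, r ≤ 2 * (2 ^ i * L) := by
        refine ⟨r, ?_⟩
        have h1 : r < 2 ^ r := Nat.lt_two_pow_self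
        have h2 : 2 ^ r * 1 ≤ 2 ^ r * L := Nat.mul_le_mul_left _ hL
        omega
      obtain ⟨i, hi, hmin⟩ : ∃ i : ℕ, r ≤ 2 * (2 ^ i * L) ∧ ∀ j < i, ¬ r ≤ 2 * (2 ^ j * L) :=
        ⟨Nat.find hex, Nat.find_spec hex, fun j hj => Nat.find_min hex hj⟩
      have hlt : 2 ^ i * L < r := by
        rcases i with _ | i
        · simpa using hrL
        · have h3 := hmin i (Nat.lt_succ_self i)
          push Not at h3
          rw [pow_succ]
          have : 2 ^ i * 2 * L = 2 * (2 ^ i * L) := by ring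
          omega
      rw [Finset.mem_biUnion]
      refine ⟨i, ?_, Finset.mem_Ioc.2 ⟨hlt, hi⟩⟩
      rw [Finset.mem_filter, Finset.mem_range]
      have h4 : i < 2 ^ i := Nat.lt_two_pow_self
      have h5 : 2 ^ i * 1 ≤ 2 ^ i * L := Nat.mul_le_mul_left _ hL
      constructor
      · omega
      · omega
  calc ∑ r ∈ Icc 2 Q, f r ≤ ∑ r ∈ Icc 2 L ∪
        ((range (Q + 1)).filter (fun i => 2 ^ i * L ≤ Q)).biUnion
          (fun i => Ioc (2 ^ i * L) (2 * (2 ^ i * L))), f r :=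
        Finset.sum_le_sum_of_subset_of_nonneg hsub fun r _ _ => hf r
    _ ≤ ∑ r ∈ Icc 2 L, f r + ∑ r ∈ ((range (Q + 1)).filter (fun i => 2 ^ i * L ≤ Q)).biUnion
          (fun i => Ioc (2 ^ i * L) (2 * (2 ^ i * L))), f r := by
        rw [← Finset.sum_union_inter]
        have : 0 ≤ ∑ r ∈ Icc 2 L ∩ ((range (Q + 1)).filter (fun i => 2 ^ i * L ≤ Q)).biUnion
          (fun i => Ioc (2 ^ i * L) (2 * (2 ^ i * L))), f r := Finset.sum_nonneg fun r _ => hf r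
        linarith
    _ ≤ _ := by
        gcongr
        exact BV_biUnion _ _ _ hf

/-- **Bombieri-Vinogradov.**

Proof. `L = ⌊(log Y) ^ 7⌋₊ ≥ 1`. For `2 ≤ r ≤ L`: `siegel_walfisz` with `B = 7`: the sum over these `r` is at most
`L C Y (log Y) ^ (-k / 2) ≤ C Y (log Y) ^ (7 - 20)` for `k ≥ 40`. For `r > L`: dyadic intervals
`(2 ^ i L, 2 ^ (i + 1) L]` with `2 ^ i L ≤ Q`, `medium`: the sum is at most
`C (2 Y (log Y) ^ 3 / L + (number of intervals) Y ^ (1 - δ)) ≤ C' Y / (log Y) ^ 3`. -/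
theorem bv (k : ℕ) (hk : 40 ≤ k) (ε : ℝ) (hε : 0 < ε) (hε1 : ε < 1 / 2) : ∃ C : ℝ, 0 < C ∧
    ∀ (Y : ℝ) (Q : ℕ), 3 ≤ Y → (Q : ℝ) ≤ Y ^ (1 / 2 - ε) →
      ∑ r ∈ Icc 2 Q, 1 / (r.totient : ℝ) * ∑ χ ∈ prim r, ‖TT k Y χ‖ ≤
        C * Y / Real.log Y ^ 3 := by
  obtain ⟨C₁, hC₁, hsw⟩ := siegel_walfisz 7 k (by omega)
  obtain ⟨C₂, δ, hC₂, hδ, hmed⟩ := medium k ε hε hε1
  refine ⟨C₁ + 4 * C₂ + 3 * C₂ * (4 / δ) ^ 4, by positivity, ?_⟩
  intro Y Q hY hQ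
  have hY0 : 0 < Y := by linarith
  have hlog1 : 1 < Real.log Y := by
    have h1 : Real.exp 1 < Y := lt_of_lt_of_le (by linarith [Real.exp_one_lt_d9]) hY
    have h2 := Real.log_lt_log (Real.exp_pos 1) h1
    rwa [Real.log_exp] at h2
  obtain ⟨l, hl⟩ : ∃ l : ℝ, l = Real.log Y := ⟨_, rfl⟩
  rw [← hl] at hlog1 ⊢
  have hl0 : 0 < l := by linarith
  obtain ⟨L, hL⟩ : ∃ L : ℕ, L = ⌊l ^ 7⌋₊ := ⟨_, rfl⟩
  have hl7 : 1 ≤ l ^ 7 := one_le_pow₀ hlog1.le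
  have hL1 : 1 ≤ L := by
    rw [hL]
    exact Nat.le_floor (by exact_mod_cast hl7)
  have hLle : (L : ℝ) ≤ l ^ 7 := by rw [hL]; exact Nat.floor_le (by positivity)
  have hLge : l ^ 7 ≤ 2 * L := by
    have h1 : l ^ 7 < L + 1 := by rw [hL]; exact Nat.lt_floor_add_one _
    have h2 : (1 : ℝ) ≤ L := by exact_mod_cast hL1
    linarith
  have hL0 : (0 : ℝ) < L := by exact_mod_cast hL1
  obtain ⟨f, hf⟩ : ∃ f : ℕ → ℝ, f = fun r => 1 / (r.totient : ℝ) * ∑ χ ∈ prim r, ‖TT k Y χ‖ :=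
    ⟨_, rfl⟩
  have hf0 : ∀ r, 0 ≤ f r := by
    intro r
    rw [hf]
    exact mul_nonneg (by positivity) (Finset.sum_nonneg fun χ _ => norm_nonneg _)
  have hdy := BV_dyadic Q L hL1 f hf0
  have hfr : ∀ r, f r = 1 / (r.totient : ℝ) * ∑ χ ∈ prim r, ‖TT k Y χ‖ := fun r => by rw [hf]
  have hgoal : ∑ r ∈ Icc 2 Q, 1 / (r.totient : ℝ) * ∑ χ ∈ prim r, ‖TT k Y χ‖ =
      ∑ r ∈ Icc 2 Q, f r := Finset.sum_congr rfl fun r _ => (hfr r).symm
  rw [hgoal]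
  refine hdy.trans ?_
  -- the small moduli
  have hsmall : ∑ r ∈ Icc 2 L, f r ≤ C₁ * Y / l ^ 3 := by
    have h1 : ∀ r ∈ Icc 2 L, f r ≤ C₁ * Y * l ^ (-(20 : ℝ)) := by
      intro r hr
      rw [Finset.mem_Icc] at hr
      have hφ : 0 < r.totient := Nat.totient_pos.2 (by omega)
      have hφ' : (0 : ℝ) < r.totient := by exact_mod_cast hφ
      have h2 : ∑ χ ∈ prim r, ‖TT k Y χ‖ ≤ r.totient * (C₁ * Y * l ^ (-(20 : ℝ))) := by
        calc ∑ χ ∈ prim r, ‖TT k Y χ‖ ≤ ∑ _χ ∈ prim r, C₁ * Y * l ^ (-(20 : ℝ)) := by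
              refine Finset.sum_le_sum fun χ hχ => ?_
              refine (hsw Y r hY (by omega) ?_ χ hχ).trans ?_
              · rw [← hl]
                exact le_trans (by exact_mod_cast hr.2) hLle
              · rw [← hl]
                refine mul_le_mul_of_nonneg_left ?_ (by positivity)
                refine Real.rpow_le_rpow_of_exponent_le hlog1.le ?_
                have : (40 : ℝ) ≤ k := by exact_mod_cast hk
                linarith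
          _ = (prim r).card * (C₁ * Y * l ^ (-(20 : ℝ))) := by
              rw [Finset.sum_const, nsmul_eq_mul]
          _ ≤ r.totient * (C₁ * Y * l ^ (-(20 : ℝ))) := by
              refine mul_le_mul_of_nonneg_right (card_prim_le r (by omega)) (by positivity)
      rw [hfr, one_div, inv_mul_le_iff₀ hφ']
      exact h2
    calc ∑ r ∈ Icc 2 L, f r ≤ ∑ _r ∈ Icc 2 L, C₁ * Y * l ^ (-(20 : ℝ)) := Finset.sum_le_sum h1
      _ = (Icc 2 L).card * (C₁ * Y * l ^ (-(20 : ℝ))) := by rw [Finset.sum_const, nsmul_eq_mul]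
      _ ≤ l ^ 7 * (C₁ * Y * l ^ (-(20 : ℝ))) := by
          refine mul_le_mul_of_nonneg_right ?_ (by positivity)
          refine le_trans ?_ hLle
          rw [Nat.card_Icc]
          exact_mod_cast (by omega : L + 1 - 2 ≤ L)
      _ ≤ C₁ * Y / l ^ 3 := by
          have h3 : l ^ (-(20 : ℝ)) = (l ^ 20)⁻¹ := by
            rw [Real.rpow_neg hl0.le]
            norm_cast
          rw [h3, le_div_iff₀ (by positivity)]
          have h4 : l ^ 7 * (C₁ * Y * (l ^ 20)⁻¹) * l ^ 3 = C₁ * Y * (l ^ 10 * (l ^ 20)⁻¹) := by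
            ring
          rw [h4]
          have h5 : l ^ 10 * (l ^ 20)⁻¹ ≤ 1 := by
            rw [← div_eq_mul_inv, div_le_one (by positivity)]
            exact pow_le_pow_right₀ hlog1.le (by norm_num)
          calc C₁ * Y * (l ^ 10 * (l ^ 20)⁻¹) ≤ C₁ * Y * 1 := by gcongr
            _ = C₁ * Y := mul_one _
  -- the dyadic intervals
  obtain ⟨J, hJ⟩ : ∃ J : Finset ℕ, J = (range (Q + 1)).filter (fun i => 2 ^ i * L ≤ Q) := ⟨_, rfl⟩
  rw [← hJ]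
  have hJmem : ∀ i ∈ J, 2 ^ i * L ≤ Q := by
    intro i hi
    rw [hJ] at hi
    exact (Finset.mem_filter.1 hi).2
  have hQY : (Q : ℝ) ≤ Y := by
    refine hQ.trans ?_
    calc Y ^ (1 / 2 - ε) ≤ Y ^ (1 : ℝ) :=
          Real.rpow_le_rpow_of_exponent_le (by linarith) (by linarith)
      _ = Y := Real.rpow_one Y
  have hJcard : (J.card : ℝ) ≤ 3 * l := by
    have h1 : J ⊆ range (⌊2 * l⌋₊ + 1) := by
      intro i hi
      have h2 := hJmem i hi
      rw [Finset.mem_range, Nat.lt_add_one_iff]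
      apply Nat.le_floor
      have h3 : (2 : ℝ) ^ i ≤ Y := by
        have h4 : 2 ^ i * 1 ≤ 2 ^ i * L := Nat.mul_le_mul_left _ hL1
        have h5 : 2 ^ i ≤ Q := by omega
        exact le_trans (by exact_mod_cast h5) hQY
      have h6 := Real.log_le_log (by positivity) h3
      rw [Real.log_pow, ← hl] at h6
      have h7 := Real.log_two_gt_d9
      have h8 : (i : ℝ) * (1 / 2) ≤ i * Real.log 2 := by gcongr; linarith
      linarith
    have h2 := Finset.card_le_card h1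
    rw [Finset.card_range] at h2
    have h3 : ((⌊2 * l⌋₊ : ℕ) : ℝ) ≤ 2 * l := Nat.floor_le (by positivity)
    have h4 : (J.card : ℝ) ≤ (⌊2 * l⌋₊ : ℝ) + 1 := by exact_mod_cast h2
    linarith
  have hmain : ∑ i ∈ J, ∑ r ∈ Ioc (2 ^ i * L) (2 * (2 ^ i * L)), f r ≤
      ∑ i ∈ J, C₂ * (Y * l ^ 3 / L * (1 / 2) ^ i + Y ^ (1 - δ)) := by
    refine Finset.sum_le_sum fun i hi => ?_
    have h1 := hJmem i hi
    have h2 := hmed Y (2 ^ i * L) hY (Nat.mul_pos (by positivity) hL1)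
      (le_trans (by exact_mod_cast h1) hQ)
    have h3 : ∑ r ∈ Ioc (2 ^ i * L) (2 * (2 ^ i * L)), f r =
        ∑ r ∈ Ioc (2 ^ i * L) (2 * (2 ^ i * L)),
          1 / (r.totient : ℝ) * ∑ χ ∈ prim r, ‖TT k Y χ‖ :=
      Finset.sum_congr rfl fun r _ => hfr r
    rw [h3]
    refine h2.trans (le_of_eq ?_)
    rw [← hl]
    push_cast
    congr 2
    rw [one_div, inv_pow]
    field_simp
  have hgeo : ∑ i ∈ J, (1 / 2 : ℝ) ^ i ≤ 2 := by
    have h1 : ∑ i ∈ J, (1 / 2 : ℝ) ^ i ≤ ∑' i : ℕ, (1 / 2 : ℝ) ^ i :=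
      summable_geometric_two.sum_le_tsum J (fun i _ => by positivity)
    rwa [tsum_geometric_two] at h1
  have hYδ : l ^ 4 ≤ (4 / δ) ^ 4 * Y ^ δ := by
    have h1 : l ≤ Y ^ (δ / 4) / (δ / 4) := by
      rw [hl]; exact Real.log_le_rpow_div hY0.le (by positivity)
    have h2 : Y ^ (δ / 4) / (δ / 4) = 4 / δ * Y ^ (δ / 4) := by field_simp
    rw [h2] at h1
    calc l ^ 4 ≤ (4 / δ * Y ^ (δ / 4)) ^ 4 := by gcongr
      _ = (4 / δ) ^ 4 * Y ^ δ := by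
          rw [mul_pow, ← Real.rpow_natCast (Y ^ (δ / 4)) 4, ← Real.rpow_mul hY0.le]
          congr 2
          push_cast
          ring
  have hlast : 3 * l * Y ^ (1 - δ) ≤ 3 * (4 / δ) ^ 4 * Y / l ^ 3 := by
    rw [le_div_iff₀ (by positivity)]
    calc 3 * l * Y ^ (1 - δ) * l ^ 3 = 3 * l ^ 4 * Y ^ (1 - δ) := by ring
      _ ≤ 3 * ((4 / δ) ^ 4 * Y ^ δ) * Y ^ (1 - δ) := by gcongr
      _ = 3 * (4 / δ) ^ 4 * (Y ^ δ * Y ^ (1 - δ)) := by ring
      _ = 3 * (4 / δ) ^ 4 * Y := by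
          rw [← Real.rpow_add hY0]
          congr 1
          rw [add_sub_cancel, Real.rpow_one]
  have hmid : Y * l ^ 3 / L * 2 ≤ 4 * Y / l ^ 3 := by
    rw [div_mul_eq_mul_div, div_le_div_iff₀ hL0 (by positivity)]
    have h1 : l ^ 6 ≤ l ^ 7 := pow_le_pow_right₀ hlog1.le (by norm_num)
    calc Y * l ^ 3 * 2 * l ^ 3 = 2 * Y * l ^ 6 := by ring
      _ ≤ 2 * Y * (2 * L) := by gcongr; linarith
      _ = 4 * Y * L := by ring
  have hfin : ∑ i ∈ J, C₂ * (Y * l ^ 3 / L * (1 / 2) ^ i + Y ^ (1 - δ)) ≤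
      C₂ * (4 * Y / l ^ 3 + 3 * (4 / δ) ^ 4 * Y / l ^ 3) := by
    rw [← Finset.mul_sum, Finset.sum_add_distrib, ← Finset.mul_sum, Finset.sum_const, nsmul_eq_mul]
    refine mul_le_mul_of_nonneg_left ?_ hC₂.le
    have h1 : Y * l ^ 3 / L * ∑ i ∈ J, (1 / 2 : ℝ) ^ i ≤ Y * l ^ 3 / L * 2 := by gcongr
    have h2 : (J.card : ℝ) * Y ^ (1 - δ) ≤ 3 * l * Y ^ (1 - δ) := by gcongr
    linarith
  calc ∑ r ∈ Icc 2 L, f r + ∑ i ∈ J, ∑ r ∈ Ioc (2 ^ i * L) (2 * (2 ^ i * L)), f r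
      ≤ C₁ * Y / l ^ 3 + C₂ * (4 * Y / l ^ 3 + 3 * (4 / δ) ^ 4 * Y / l ^ 3) :=
        add_le_add hsmall (hmain.trans hfin)
    _ = (C₁ + 4 * C₂ + 3 * C₂ * (4 / δ) ^ 4) * Y / l ^ 3 := by ring

end Pool.Agent.Wb58c63
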