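import Pool.Agent.W_b58c63_h68.ExA
import Pool.Agent.W_b58c63_h68.BV

/-!
# Exceptional sets (helper68)
-/

set_option autoImplicit false

noncomputable section

open Finset

namespace Pool.Agent.Wb58c63

/-- The conditions on the coefficients of the linear form. -/
def Adm (Y κ : ℝ) (ρ : ℕ → ℝ) : Prop :=
  (∀ d, |ρ d| ≤ 1) ∧ ∀ d, ρ d ≠ 0 → Squarefree d ∧ (d : ℝ) ≤ Y ^ κ ∧
    ∀ p : ℕ, p.Prime → p ∣ d → (p : ℝ) ≤ Y

theorem ExB_log {Y : ℝ} (hY : 3 ≤ Y) : 1 ≤ Real.log Y := by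
  rw [Real.le_log_iff_exp_le (by linarith)]
  have := Real.exp_one_lt_d9
  linarith

theorem ExB_bd (k : ℕ) (hk : 40 ≤ k) (ε : ℝ) (hε : 0 < ε) (hε1 : ε < 1 / 2) : ∃ C : ℝ, 0 < C ∧
    ∀ (Y : ℝ) (ρ : ℕ → ℝ) (M R : ℕ) (N : ℕ), 3 ≤ Y → (∀ d, |ρ d| ≤ 1) → (M : ℝ) ≤ Y ^ 2 →
      (R : ℝ) ≤ Y ^ (1 / 2 - ε) → ‖ErrR k Y ρ M (Icc 2 R) N‖ ≤ C * Y / Real.log Y ^ 2 := by
  obtain ⟨C₁, hC₁, h1⟩ := sum_inv_totient
  obtain ⟨C₂, hC₂, h2⟩ := bv k hk ε hε hε1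
  refine ⟨3 * C₁ * C₂, by positivity, fun Y ρ M R N hY hρ hM hR => ?_⟩
  have hlog := ExB_log hY
  have hY0 : 0 < Y := by linarith
  have hl0 : 0 < Real.log Y := by linarith
  have h3 := errR_le k Y ρ hρ M (Icc 2 R) (fun r hr => by
    have := (Finset.mem_Icc.1 hr).1
    omega) N
  have h4 := h2 Y R hY hR
  have h5 : ∑ m ∈ Icc 1 M, 1 / (m.totient : ℝ) ≤ 3 * C₁ * Real.log Y := by
    rcases Nat.eq_zero_or_pos M with h | h
    · subst h
      simp only [Finset.Icc_eq_empty (by norm_num : ¬ (1 : ℕ) ≤ 0), Finset.sum_empty]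
      positivity
    · refine (h1 M h).trans ?_
      have h6 : Real.log M ≤ 2 * Real.log Y := by
        have h7 : Real.log M ≤ Real.log (Y ^ 2) :=
          Real.log_le_log (by exact_mod_cast h) hM
        rw [Real.log_pow] at h7
        push_cast at h7
        exact h7
      nlinarith
  have h6 : 0 ≤ ∑ r ∈ Icc 2 R, 1 / (r.totient : ℝ) * ∑ χ ∈ prim r, ‖TT k Y χ‖ :=
    Finset.sum_nonneg fun r _ => mul_nonneg (by positivity)
      (Finset.sum_nonneg fun χ _ => norm_nonneg _)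
  calc ‖ErrR k Y ρ M (Icc 2 R) N‖ ≤ _ := h3
    _ ≤ (3 * C₁ * Real.log Y) * (C₂ * Y / Real.log Y ^ 3) :=
        mul_le_mul h5 h4 h6 (by positivity)
    _ = 3 * C₁ * C₂ * Y / Real.log Y ^ 2 := by
        field_simp

/-- The conductors up to `Y ^ (9 / 20)` contribute little, for every `N`: `errR_le`, `sum_inv_totient` (`M ≤ Y ^ 2`) and
`bv` with `ε = 1 / 20`. -/
theorem small_cond (k : ℕ) (hk : 40 ≤ k) (η : ℝ) (hη : 0 < η) : ∃ Y₀ : ℝ, 3 ≤ Y₀ ∧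
    ∀ (Y : ℝ) (ρ : ℕ → ℝ) (M R : ℕ) (N : ℕ), Y₀ ≤ Y → (∀ d, |ρ d| ≤ 1) → (M : ℝ) ≤ Y ^ 2 →
      (R : ℝ) ≤ Y ^ (9 / 20 : ℝ) → ‖ErrR k Y ρ M (Icc 2 R) N‖ ≤ η * Y / Real.log Y := by
  obtain ⟨C, hC, h⟩ := ExB_bd k hk (1 / 20) (by norm_num) (by norm_num)
  refine ⟨max 3 (Real.exp (C / η)), le_max_left _ _, fun Y ρ M R N hY hρ hM hR => ?_⟩
  have hY3 : 3 ≤ Y := (le_max_left _ _).trans hY
  have hY0 : 0 < Y := by linarith
  have hlog := ExB_log hY3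
  have hl0 : 0 < Real.log Y := by linarith
  have h1 : C / η ≤ Real.log Y := by
    rw [Real.le_log_iff_exp_le hY0]
    exact (le_max_right _ _).trans hY
  refine (h Y ρ M R N hY3 hρ hM (by
    have : (1 / 2 - 1 / 20 : ℝ) = 9 / 20 := by norm_num
    rw [this]
    exact hR)).trans ?_
  rw [div_le_div_iff₀ (by positivity) hl0]
  rw [div_le_iff₀ hη] at h1
  have h2 : C * Y ≤ η * Y * Real.log Y := by nlinarith
  calc C * Y * Real.log Y ≤ (η * Y * Real.log Y) * Real.log Y := by gcongr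
    _ = η * Y * Real.log Y ^ 2 := by ring

/-- **No exceptions below the square root of the window** (`κ < 1 / 2`): `err_eq`, `errR_le`, `sum_inv_totient`, `bv` with
`ε = 1 / 2 - κ`. -/
theorem exc_none (k : ℕ) (hk : 40 ≤ k) (κ η : ℝ) (hκ : 0 < κ) (hκ1 : κ < 1 / 2) (hη : 0 < η) :
    ∃ Y₀ : ℝ, 3 ≤ Y₀ ∧ ∀ (Y : ℝ) (ρ : ℕ → ℝ) (N : ℕ), Y₀ ≤ Y → Adm Y κ ρ →
      |Err k Y ρ ⌊Y ^ κ⌋₊ N| ≤ η * Y / Real.log Y := by
  obtain ⟨C, hC, h⟩ := ExB_bd k hk (1 / 2 - κ) (by linarith) (by linarith)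
  refine ⟨max 3 (Real.exp (C / η)), le_max_left _ _, fun Y ρ N hY hadm => ?_⟩
  have hY3 : 3 ≤ Y := (le_max_left _ _).trans hY
  have hY0 : 0 < Y := by linarith
  have hY1 : 1 ≤ Y := by linarith
  have hlog := ExB_log hY3
  have hl0 : 0 < Real.log Y := by linarith
  have h1 : C / η ≤ Real.log Y := by
    rw [Real.le_log_iff_exp_le hY0]
    exact (le_max_right _ _).trans hY
  have h3 : (⌊Y ^ κ⌋₊ : ℝ) ≤ Y ^ κ := Nat.floor_le (by positivity)
  have h4 : Y ^ κ ≤ Y ^ 2 := by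
    rw [← Real.rpow_natCast]
    exact Real.rpow_le_rpow_of_exponent_le hY1 (by push_cast; linarith)
  have h5 := err_eq k Y hY1 ρ ⌊Y ^ κ⌋₊ N fun d hd => (hadm.2 d hd).2.2
  have h6 : |Err k Y ρ ⌊Y ^ κ⌋₊ N| = ‖ErrR k Y ρ ⌊Y ^ κ⌋₊ (Icc 2 ⌊Y ^ κ⌋₊) N‖ := by
    rw [← h5, Complex.norm_real, Real.norm_eq_abs]
  rw [h6]
  refine (h Y ρ _ _ N hY3 hadm.1 (h3.trans h4) (by
    have : (1 / 2 - (1 / 2 - κ) : ℝ) = κ := by ring
    rw [this]
    exact h3)).trans ?_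
  rw [div_le_div_iff₀ (by positivity) hl0]
  rw [div_le_iff₀ hη] at h1
  have h2 : C * Y ≤ η * Y * Real.log Y := by nlinarith
  calc C * Y * Real.log Y ≤ (η * Y * Real.log Y) * Real.log Y := by gcongr
    _ = η * Y * Real.log Y ^ 2 := by ring

theorem ExB_sum (k : ℕ) (Y : ℝ) (ρ : ℕ → ℝ) (M N R : ℕ) (hR : 1 ≤ R) (I : ℕ) :
    ErrR k Y ρ M (Icc 2 (2 ^ I * R)) N = ErrR k Y ρ M (Icc 2 R) N +
      ∑ i ∈ range I, ErrR k Y ρ M (Ioc (2 ^ i * R) (2 * (2 ^ i * R))) N := by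
  induction I with
  | zero => simp
  | succ I ih =>
    rw [Finset.sum_range_succ, ← add_assoc, ← ih, ← errR_union]
    · congr 1
      ext x
      have h1 : 1 ≤ 2 ^ I * R := Nat.mul_pos (by positivity) hR
      have h2 : 2 ^ (I + 1) * R = 2 * (2 ^ I * R) := by ring
      rw [h2]
      simp only [Finset.mem_Icc, Finset.mem_union, Finset.mem_Ioc]
      omega
    · rw [Finset.disjoint_left]
      intro x hx hx'
      have h1 := (Finset.mem_Icc.1 hx).2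
      have h2 := (Finset.mem_Ioc.1 hx').1
      omega

theorem ExB_inter (k : ℕ) (Y : ℝ) (ρ : ℕ → ℝ) (M N K : ℕ) (h : M ≤ K) :
    ErrR k Y ρ M (Icc 2 M) N = ErrR k Y ρ M (Icc 2 K) N := by
  rw [errR_inter k Y ρ M (Icc 2 M), errR_inter k Y ρ M (Icc 2 K)]
  congr 1
  ext x
  simp only [Finset.mem_filter, Finset.mem_Icc]
  omega

theorem ExB_zero (k : ℕ) (Y : ℝ) (ρ : ℕ → ℝ) (M N R : ℕ) (h : M < R) :
    ErrR k Y ρ M (Ioc R (2 * R)) N = 0 := by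
  rw [errR_inter k Y ρ M]
  have : (Ioc R (2 * R)).filter (fun r => r ≤ M) = ∅ := by
    ext x
    simp only [Finset.mem_filter, Finset.mem_Ioc, Finset.notMem_empty, iff_false]
    omega
  rw [this]
  simp [ErrR]

open Classical in
theorem ExB_EB_empty (k : ℕ) (Y : ℝ) (hY : 3 ≤ Y) (ρ : ℕ → ℝ) (M R : ℕ) (η : ℝ) (hη : 0 < η)
    (h : M < R) : EB k Y ρ M R η = ∅ := by
  have hl := ExB_log hY
  unfold EB
  rw [Finset.filter_eq_empty_iff]
  intro N _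
  rw [ExB_zero k Y ρ M N R h, norm_zero, not_lt]
  positivity

open Classical in
/-- **The exceptional set.**

Proof. `M = ⌊Y ^ κ⌋₊ ≤ Y ^ 2`, `R₀ = ⌊Y ^ (9 / 20)⌋₊`. `Err = ErrR (Icc 2 M)` is the sum of `ErrR (Icc 2 R₀)` (`small_cond` with
`η / 2`) and of the at most `C log Y` blocks `Ioc (2 ^ i R₀) (2 ^ (i + 1) R₀)` with `2 ^ i R₀ ≤ M` (`errR_union`,
`errR_inter`). If `N` is in no `EB` of these blocks with `η' = c η`, the sum of the blocks is at most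
`C log Y c η Y / (log Y) ^ 2 ≤ (η / 2) Y / log Y`. So the exceptional set is in the union of the `EB`, and `eb_low`,
`eb_high` (with a small `ε'`; every block has `R ≥ R₀ ≥ Y ^ (2 / 5)` and is `≤ Y ^ (1 - ε')` or `≥ Y ^ (1 - ε')`) bound each one by
`C (log Y) ^ 7 Y ^ (2 ε') (1 + Y ^ (2 κ - 1))`. -/
theorem exc (k : ℕ) (hk : 40 ≤ k) (κ ε η : ℝ) (hκ : 0 < κ) (hκ1 : κ < 3 / 2) (hε : 0 < ε)
    (hη : 0 < η) : ∃ C Y₀ : ℝ, 0 < C ∧ 3 ≤ Y₀ ∧ ∀ (Y : ℝ) (ρ : ℕ → ℝ), Y₀ ≤ Y → Adm Y κ ρ →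
      ((((Icc 1 ⌊Y ^ 2⌋₊).filter fun N => η * Y / Real.log Y < |Err k Y ρ ⌊Y ^ κ⌋₊ N|).card : ℕ) : ℝ) ≤
        C * Y ^ (max 0 (2 * κ - 1) + ε) := by
  set e : ℝ := min (ε / 8) (1 / 8) with he
  have he0 : 0 < e := by positivity
  have he1 : e ≤ ε / 8 := min_le_left _ _
  have he2 : e ≤ 1 / 8 := min_le_right _ _
  have hη' : 0 < η / 8 := by positivity
  obtain ⟨Y₁, hY₁, hsm⟩ := small_cond k hk (η / 2) (by positivity)
  obtain ⟨C₁, Y₂, hC₁, hY₂, hlow⟩ := eb_low k e (η / 8) he0 (by linarith) hη'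
  obtain ⟨C₂, hC₂, hhigh⟩ := eb_high k e (η / 8) he0 he2 hη'
  have hlogpow : ∀ᶠ Y : ℝ in Filter.atTop, Real.log Y ^ 8 ≤ Y ^ (ε / 2) := by
    have h1 := (isLittleO_log_rpow_rpow_atTop 8 (show 0 < ε / 2 by positivity)).bound
      (show (0 : ℝ) < 1 by norm_num)
    filter_upwards [h1, Filter.eventually_ge_atTop (3 : ℝ)] with Y hY hY3
    have hl := ExB_log hY3
    rw [Real.norm_eq_abs, Real.norm_eq_abs, abs_of_nonneg (by positivity),
      abs_of_nonneg (by positivity), one_mul] at hY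
    have h2 : Real.log Y ^ (8 : ℝ) = Real.log Y ^ 8 := by
      rw [show (8 : ℝ) = ((8 : ℕ) : ℝ) by norm_num, Real.rpow_natCast]
    rw [h2] at hY
    exact hY
  have hfl : ∀ᶠ Y : ℝ in Filter.atTop, Y ^ (2 / 5 : ℝ) + 1 ≤ Y ^ (9 / 20 : ℝ) := by
    have h1 := tendsto_rpow_atTop (show (0 : ℝ) < 1 / 20 by norm_num)
    filter_upwards [h1.eventually_ge_atTop 2, Filter.eventually_ge_atTop (3 : ℝ)] with Y hY hY3
    have hY0 : 0 < Y := by linarith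
    have h2 : Y ^ (9 / 20 : ℝ) = Y ^ (2 / 5 : ℝ) * Y ^ (1 / 20 : ℝ) := by
      rw [← Real.rpow_add hY0]
      norm_num
    have h3 : 1 ≤ Y ^ (2 / 5 : ℝ) := Real.one_le_rpow (by linarith) (by norm_num)
    rw [h2]
    nlinarith
  obtain ⟨Y₃, hY₃⟩ := Filter.eventually_atTop.1 (hlogpow.and hfl)
  refine ⟨16 * (C₁ + C₂), max (max Y₁ Y₂) (max 3 Y₃), by positivity,
    (le_max_left _ _).trans (le_max_right _ _), fun Y ρ hY hadm => ?_⟩
  have hYa : Y₁ ≤ Y := ((le_max_left _ _).trans (le_max_left _ _)).trans hY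
  have hYb : Y₂ ≤ Y := ((le_max_right _ _).trans (le_max_left _ _)).trans hY
  have hY3 : 3 ≤ Y := ((le_max_left _ _).trans (le_max_right _ _)).trans hY
  have hYc : Y₃ ≤ Y := ((le_max_right _ _).trans (le_max_right _ _)).trans hY
  obtain ⟨hlp, hfl'⟩ := hY₃ Y hYc
  have hY0 : 0 < Y := by linarith
  have hY1 : 1 ≤ Y := by linarith
  have hlog := ExB_log hY3
  have hl0 : 0 < Real.log Y := by linarith
  set M : ℕ := ⌊Y ^ κ⌋₊ with hM
  set R₀ : ℕ := ⌊Y ^ (9 / 20 : ℝ)⌋₊ with hR₀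
  have hMY : (M : ℝ) ≤ Y ^ κ := Nat.floor_le (by positivity)
  have hMY2 : (M : ℝ) ≤ Y ^ 2 := by
    refine hMY.trans ?_
    rw [← Real.rpow_natCast]
    exact Real.rpow_le_rpow_of_exponent_le hY1 (by push_cast; linarith)
  have hR₀Y : (R₀ : ℝ) ≤ Y ^ (9 / 20 : ℝ) := Nat.floor_le (by positivity)
  have hR₀1 : Y ^ (2 / 5 : ℝ) ≤ R₀ := by
    have h1 := Nat.lt_floor_add_one (Y ^ (9 / 20 : ℝ))
    rw [← hR₀] at h1
    linarith
  have hR₀0 : 1 ≤ R₀ := by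
    have h1 : 1 ≤ Y ^ (2 / 5 : ℝ) := Real.one_le_rpow hY1 (by norm_num)
    exact_mod_cast h1.trans hR₀1
  set I : ℕ := Nat.log 2 M + 1 with hI
  have hIM : M ≤ 2 ^ I * R₀ := by
    have h1 : M < 2 ^ I := Nat.lt_pow_succ_log_self (by norm_num) M
    calc M ≤ 2 ^ I * 1 := by omega
      _ ≤ 2 ^ I * R₀ := Nat.mul_le_mul_left _ hR₀0
  have hI4 : (I : ℝ) ≤ 4 * Real.log Y := by
    have h1 : (Nat.log 2 M : ℝ) * Real.log 2 ≤ 3 / 2 * Real.log Y := by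
      rcases Nat.eq_zero_or_pos M with h | h
      · rw [h]
        simp only [Nat.log_zero_right, Nat.cast_zero, zero_mul]
        positivity
      · have h2 : 2 ^ Nat.log 2 M ≤ M := Nat.pow_log_le_self 2 h.ne'
        have h3 : ((2 : ℝ) ^ Nat.log 2 M) ≤ Y ^ κ := le_trans (by exact_mod_cast h2) hMY
        have h4 := Real.log_le_log (by positivity) h3
        rw [Real.log_pow, Real.log_rpow hY0] at h4
        nlinarith
    have h2 : (0.69 : ℝ) ≤ Real.log 2 := by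
      have := Real.log_two_gt_d9
      linarith
    have h3 : (0 : ℝ) ≤ Nat.log 2 M := Nat.cast_nonneg _
    have h4 : (I : ℝ) = Nat.log 2 M + 1 := by
      rw [hI]
      push_cast
      ring
    rw [h4]
    nlinarith
  have hsub : ((Icc 1 ⌊Y ^ 2⌋₊).filter fun N => η * Y / Real.log Y < |Err k Y ρ M N|) ⊆
      (range I).biUnion fun i => EB k Y ρ M (2 ^ i * R₀) (η / 8) := by
    intro N hN
    rw [Finset.mem_filter] at hN
    obtain ⟨hN1, hN2⟩ := hN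
    by_contra hcon
    rw [Finset.mem_biUnion] at hcon
    push Not at hcon
    have h5 := err_eq k Y hY1 ρ M N fun d hd => (hadm.2 d hd).2.2
    have h6 : |Err k Y ρ M N| = ‖ErrR k Y ρ M (Icc 2 M) N‖ := by
      rw [← h5, Complex.norm_real, Real.norm_eq_abs]
    rw [h6, ExB_inter k Y ρ M N _ hIM, ExB_sum k Y ρ M N R₀ hR₀0 I] at hN2
    have h7 := hsm Y ρ M R₀ N hYa hadm.1 hMY2 hR₀Y
    have h8 : ∀ i ∈ range I, ‖ErrR k Y ρ M (Ioc (2 ^ i * R₀) (2 * (2 ^ i * R₀))) N‖ ≤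
        η / 8 * Y / Real.log Y ^ 2 := by
      intro i hi
      have h9 := hcon i hi
      unfold EB at h9
      rw [Finset.mem_filter, not_and, not_lt] at h9
      exact h9 hN1
    have h9 : ‖∑ i ∈ range I, ErrR k Y ρ M (Ioc (2 ^ i * R₀) (2 * (2 ^ i * R₀))) N‖ ≤
        I * (η / 8 * Y / Real.log Y ^ 2) := by
      refine (norm_sum_le _ _).trans ((Finset.sum_le_card_nsmul _ _ _ h8).trans (le_of_eq ?_))
      rw [Finset.card_range, nsmul_eq_mul]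
    have h10 : (I : ℝ) * (η / 8 * Y / Real.log Y ^ 2) ≤ η / 2 * Y / Real.log Y := by
      calc (I : ℝ) * (η / 8 * Y / Real.log Y ^ 2) ≤
            (4 * Real.log Y) * (η / 8 * Y / Real.log Y ^ 2) := by gcongr
        _ = η / 2 * Y / Real.log Y := by
            field_simp
            ring
    have h11 := (norm_add_le _ _).trans (add_le_add h7 (h9.trans h10))
    have h12 : η / 2 * Y / Real.log Y + η / 2 * Y / Real.log Y = η * Y / Real.log Y := by ring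
    linarith
  have hE : 0 ≤ max 0 (2 * κ - 1) := le_max_left _ _
  have hpow1 : (1 : ℝ) ≤ Y ^ (max 0 (2 * κ - 1)) := Real.one_le_rpow hY1 hE
  have hblock : ∀ i ∈ range I, ((EB k Y ρ M (2 ^ i * R₀) (η / 8)).card : ℝ) ≤
      2 * (C₁ + C₂) * Real.log Y ^ 7 * Y ^ (2 * e) * Y ^ (max 0 (2 * κ - 1)) := by
    intro i _
    rcases Nat.lt_or_ge M (2 ^ i * R₀) with h | h
    · rw [ExB_EB_empty k Y hY3 ρ M _ _ hη' h]
      simp only [Finset.card_empty, Nat.cast_zero]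
      positivity
    · set R : ℕ := 2 ^ i * R₀ with hR
      have hRY : (R : ℝ) ≤ Y ^ κ := le_trans (by exact_mod_cast h) hMY
      have hR0 : (0 : ℝ) ≤ R := Nat.cast_nonneg R
      have hR1 : Y ^ (2 / 5 : ℝ) ≤ R := by
        refine hR₀1.trans ?_
        rw [hR]
        exact_mod_cast Nat.le_mul_of_pos_left _ (by positivity)
      have hR2 : (R : ℝ) ^ 2 / Y ≤ Y ^ (max 0 (2 * κ - 1)) := by
        rw [div_le_iff₀ hY0]
        have h1 : (R : ℝ) ^ 2 ≤ (Y ^ κ) ^ 2 := by gcongr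
        have h2 : (Y ^ κ) ^ 2 = Y ^ (2 * κ - 1) * Y := by
          rw [← Real.rpow_natCast (Y ^ κ) 2, ← Real.rpow_mul hY0.le]
          conv_rhs => rw [← Real.rpow_one Y, ← Real.rpow_mul hY0.le, ← Real.rpow_add hY0]
          congr 1
          push_cast
          ring
        have h3 : Y ^ (2 * κ - 1) ≤ Y ^ (max 0 (2 * κ - 1)) :=
          Real.rpow_le_rpow_of_exponent_le hY1 (le_max_right _ _)
        rw [h2] at h1
        refine h1.trans ?_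
        gcongr
      have hL7 : 0 ≤ Real.log Y ^ 7 := by positivity
      have hYe : 1 ≤ Y ^ (2 * e) := Real.one_le_rpow hY1 (by positivity)
      rcases le_total (R : ℝ) (Y ^ (1 - e)) with h1 | h1
      · refine (hlow Y ρ M R hYb hadm.1 (fun d hd => (hadm.2 d hd).1) hMY2 hR1 h1).trans ?_
        calc C₁ * Real.log Y ^ 7 * (1 + (R : ℝ) ^ 2 / Y)
            ≤ C₁ * Real.log Y ^ 7 * (Y ^ (max 0 (2 * κ - 1)) + Y ^ (max 0 (2 * κ - 1))) := by
              gcongr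
          _ = 2 * C₁ * Real.log Y ^ 7 * 1 * Y ^ (max 0 (2 * κ - 1)) := by ring
          _ ≤ 2 * (C₁ + C₂) * Real.log Y ^ 7 * Y ^ (2 * e) * Y ^ (max 0 (2 * κ - 1)) := by
              gcongr
              linarith
      · refine (hhigh Y ρ M R hY3 hadm.1 (fun d hd => (hadm.2 d hd).1) hMY2 h1).trans ?_
        calc C₂ * Real.log Y ^ 7 * Y ^ (2 * e) * ((R : ℝ) ^ 2 / Y)
            ≤ (2 * (C₁ + C₂)) * Real.log Y ^ 7 * Y ^ (2 * e) * Y ^ (max 0 (2 * κ - 1)) := by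
              gcongr
              linarith
          _ = _ := by ring
  calc ((((Icc 1 ⌊Y ^ 2⌋₊).filter fun N => η * Y / Real.log Y < |Err k Y ρ M N|).card : ℕ) : ℝ)
      ≤ (((range I).biUnion fun i => EB k Y ρ M (2 ^ i * R₀) (η / 8)).card : ℝ) := by
        exact_mod_cast Finset.card_le_card hsub
    _ ≤ ∑ i ∈ range I, ((EB k Y ρ M (2 ^ i * R₀) (η / 8)).card : ℝ) := by
        exact_mod_cast Finset.card_biUnion_le
    _ ≤ I * (2 * (C₁ + C₂) * Real.log Y ^ 7 * Y ^ (2 * e) * Y ^ (max 0 (2 * κ - 1))) := by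
        refine (Finset.sum_le_card_nsmul _ _ _ hblock).trans (le_of_eq ?_)
        rw [Finset.card_range, nsmul_eq_mul]
    _ ≤ (4 * Real.log Y) *
          (2 * (C₁ + C₂) * Real.log Y ^ 7 * Y ^ (2 * e) * Y ^ (max 0 (2 * κ - 1))) := by
        gcongr
    _ = 8 * (C₁ + C₂) * (Real.log Y ^ 8 * Y ^ (2 * e)) * Y ^ (max 0 (2 * κ - 1)) := by ring
    _ ≤ 8 * (C₁ + C₂) * (Y ^ (ε / 2) * Y ^ (ε / 2)) * Y ^ (max 0 (2 * κ - 1)) := by
        have : Y ^ (2 * e) ≤ Y ^ (ε / 2) :=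
          Real.rpow_le_rpow_of_exponent_le hY1 (by linarith)
        gcongr
    _ = 8 * (C₁ + C₂) * Y ^ (max 0 (2 * κ - 1) + ε) := by
        rw [← Real.rpow_add hY0, mul_assoc, ← Real.rpow_add hY0]
        congr 2
        ring
    _ ≤ 16 * (C₁ + C₂) * Y ^ (max 0 (2 * κ - 1) + ε) := by
        gcongr
        norm_num

end Pool.Agent.Wb58c63
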