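import Pool.Agent.W_b58c63_h68.JUw

/-!
# Existence of the functions of the linear sieve (helper68)
-/

set_option autoImplicit false

noncomputable section

open MeasureTheory

namespace Pool.Agent.Wb58c63

open scoped ENNReal

/-- The monotone operator whose least fixed point is the pair `(u, w)`. -/
def jexPhi : ((ℝ → ℝ≥0∞) × (ℝ → ℝ≥0∞)) →o ((ℝ → ℝ≥0∞) × (ℝ → ℝ≥0∞)) where
  toFun p := (fun s => (ENNReal.ofReal (max s 1))⁻¹ *
      (ENNReal.ofReal (3 - max s 1) + ∫⁻ t in Set.Ioi (max s 3), p.2 (t - 1)),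
    fun s => (ENNReal.ofReal (max s 2))⁻¹ * ∫⁻ t in Set.Ioi (max s 2), p.1 (t - 1))
  monotone' := by
    intro p q h
    refine ⟨fun s => ?_, fun s => ?_⟩
    · refine mul_le_mul_right (add_le_add_right (lintegral_mono fun t => h.2 (t - 1)) _) _
    · exact mul_le_mul_right (lintegral_mono fun t => h.1 (t - 1)) _

lemma jex_anti1 (p : (ℝ → ℝ≥0∞) × (ℝ → ℝ≥0∞)) : Antitone (jexPhi p).1 := by
  intro s t h
  refine mul_le_mul' ?_ (add_le_add ?_ ?_)
  · exact ENNReal.inv_le_inv.2 (ENNReal.ofReal_le_ofReal (max_le_max h le_rfl))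
  · exact ENNReal.ofReal_le_ofReal (by have := max_le_max h (le_refl (1 : ℝ)); linarith)
  · exact lintegral_mono_set (Set.Ioi_subset_Ioi (max_le_max h le_rfl))

lemma jex_anti2 (p : (ℝ → ℝ≥0∞) × (ℝ → ℝ≥0∞)) : Antitone (jexPhi p).2 := by
  intro s t h
  refine mul_le_mul' ?_ ?_
  · exact ENNReal.inv_le_inv.2 (ENNReal.ofReal_le_ofReal (max_le_max h le_rfl))
  · exact lintegral_mono_set (Set.Ioi_subset_Ioi (max_le_max h le_rfl))

lemma jex_lint (s : ℝ) : ∫⁻ t in Set.Ioi s, ENNReal.ofReal (12000 * hh (t - 1)) =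
    ENNReal.ofReal (12000 * ∫ t in Set.Ioi s, hh (t - 1)) := by
  rw [← integral_const_mul, ← ofReal_integral_eq_lintegral_ofReal]
  · exact (hh_integrable s).const_mul _
  · exact Filter.Eventually.of_forall fun t => by
      have := (hh_pos (t - 1)).le
      positivity

lemma jex_hh_max {s a : ℝ} (ha : a ≤ 2) : hh (max s a) = hh s := by
  unfold hh
  rw [max_assoc, max_eq_right ha]

lemma jex_small {s : ℝ} (h1 : 1 ≤ s) : max (3 - s) 0 ≤ 120 * s * hh s := by
  rcases le_total 3 s with h3 | h3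
  · rw [max_eq_right (by linarith)]
    have := (hh_pos s).le
    positivity
  · have h2 : Real.exp (-4) ≤ hh s := by
      unfold hh
      apply Real.exp_le_exp.2
      have : max s 2 ≤ 3 := max_le h3 (by norm_num)
      linarith
    have h4 : 1 / 60 ≤ Real.exp (-4) := by
      rw [Real.exp_neg, one_div]
      apply inv_anti₀ (Real.exp_pos _)
      have h5 := Real.exp_one_lt_d9
      have h6 : Real.exp 4 = Real.exp 1 ^ 4 := by
        rw [← Real.exp_nat_mul]; norm_num
      rw [h6]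
      calc Real.exp 1 ^ 4 ≤ 2.72 ^ 4 := pow_le_pow_left₀ (Real.exp_pos _).le (by linarith) 4
        _ ≤ 60 := by norm_num
    have h7 : (1 : ℝ) / 60 ≤ hh s := h4.trans h2
    have h8 : 2 ≤ 120 * s * hh s := by nlinarith
    refine le_trans (max_le ?_ ?_) h8 <;> linarith

/-- `C hh` is a pre-fixed point. -/
lemma jex_pre : jexPhi (fun s => ENNReal.ofReal (12000 * hh s), fun s => ENNReal.ofReal (12000 * hh s)) ≤
    (fun s => ENNReal.ofReal (12000 * hh s), fun s => ENNReal.ofReal (12000 * hh s)) := by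
  refine ⟨fun s => ?_, fun s => ?_⟩
  · show (ENNReal.ofReal (max s 1))⁻¹ * (ENNReal.ofReal (3 - max s 1) +
      ∫⁻ t in Set.Ioi (max s 3), ENNReal.ofReal (12000 * hh (t - 1))) ≤ ENNReal.ofReal (12000 * hh s)
    rw [jex_lint]
    have hs1 : (1 : ℝ) ≤ max s 1 := le_max_right _ _
    have hs0 : (0 : ℝ) < max s 1 := by linarith
    have hI : 0 ≤ ∫ t in Set.Ioi (max s 3), hh (t - 1) :=
      integral_nonneg fun t => (hh_pos _).le
    have e3 : ENNReal.ofReal (3 - max s 1) = ENNReal.ofReal (max (3 - max s 1) 0) := by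
      rw [ENNReal.ofReal_max, ENNReal.ofReal_zero, max_eq_left (zero_le)]
    rw [e3, ← ENNReal.ofReal_add (le_max_right _ _) (by positivity), mul_comm, ← div_eq_mul_inv,
      ← ENNReal.ofReal_div_of_pos hs0]
    apply ENNReal.ofReal_le_ofReal
    rw [div_le_iff₀ hs0]
    have h1 := hh_odd (max s 1) hs1
    have hm : max (max s 1) 3 = max s 3 := by rw [max_assoc]; norm_num
    rw [hm, jex_hh_max (by norm_num)] at h1
    have h2 := jex_small hs1
    rw [jex_hh_max (by norm_num)] at h2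
    nlinarith
  · show (ENNReal.ofReal (max s 2))⁻¹ *
      ∫⁻ t in Set.Ioi (max s 2), ENNReal.ofReal (12000 * hh (t - 1)) ≤ ENNReal.ofReal (12000 * hh s)
    rw [jex_lint]
    have hs2 : (2 : ℝ) ≤ max s 2 := le_max_right _ _
    have hs0 : (0 : ℝ) < max s 2 := by linarith
    rw [mul_comm, ← div_eq_mul_inv, ← ENNReal.ofReal_div_of_pos hs0]
    apply ENNReal.ofReal_le_ofReal
    rw [div_le_iff₀ hs0]
    have h1 := hh_even (max s 2) hs2
    rw [jex_hh_max le_rfl] at h1
    have h3 : 0 ≤ max s 2 * hh s := mul_nonneg hs0.le (hh_pos s).le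
    nlinarith

/-- **Existence.**

Proof. Iteration: `u₀ = w₀ = 0`, `w_(n+1) (s) = (1 / s') ∫_{s'}^∞ u_n (t - 1) dt` with `s' = max s 2`,
`u_(n+1) (s) = (1 / s') (max (3 - s', 0) + ∫_{max (s', 3)}^∞ w_n (t - 1) dt)` with `s' = max s 1`. By induction both are
nonnegative, antitone (the integral of a nonnegative function over a shrinking half line, divided by an increasing
positive number), increasing in `n` and `≤ C hh` with `C = 2300`:
`max (3 - s', 0) / s' ≤ 2 ≤ 23 hh (s)` for `s ≤ 2` and `(3 - s) / s ≤ 1 / 2 ≤ 23 hh (s)` for `2 ≤ s ≤ 3`, `0` beyond, and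
`hh_even`, `hh_odd`: `C (99 / 100) hh + 23 hh ≤ C hh`. (For `s < 2` resp. `s < 1`: `hh (max s 2) = hh s`.) The pointwise
limits (suprema of bounded increasing sequences) satisfy the equations by dominated convergence
(`C hh (t - 1)` is integrable, `hh_integrable`). Antitone functions are measurable. -/
theorem exists_uw : ∃ (u w : ℝ → ℝ) (C : ℝ), UW u w C := by
  set P := OrderHom.lfp jexPhi with hPdef
  have hP : jexPhi P = P := OrderHom.map_lfp jexPhi
  have hle : P ≤ (fun s => ENNReal.ofReal (12000 * hh s), fun s => ENNReal.ofReal (12000 * hh s)) :=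
    OrderHom.lfp_le jexPhi jex_pre
  have hle1 : ∀ s, P.1 s ≤ ENNReal.ofReal (12000 * hh s) := fun s => hle.1 s
  have hle2 : ∀ s, P.2 s ≤ ENNReal.ofReal (12000 * hh s) := fun s => hle.2 s
  have hf1 : ∀ s, P.1 s ≠ ∞ := fun s => ne_top_of_le_ne_top ENNReal.ofReal_ne_top (hle1 s)
  have hf2 : ∀ s, P.2 s ≠ ∞ := fun s => ne_top_of_le_ne_top ENNReal.ofReal_ne_top (hle2 s)
  have ha1 : Antitone P.1 := by rw [← hP]; exact jex_anti1 P
  have ha2 : Antitone P.2 := by rw [← hP]; exact jex_anti2 P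
  have hm1 : Measurable fun t : ℝ => P.1 (t - 1) := ha1.measurable.comp (measurable_id.sub_const 1)
  have hm2 : Measurable fun t : ℝ => P.2 (t - 1) := ha2.measurable.comp (measurable_id.sub_const 1)
  have e1 : ∀ s, P.1 s = (ENNReal.ofReal (max s 1))⁻¹ *
      (ENNReal.ofReal (3 - max s 1) + ∫⁻ t in Set.Ioi (max s 3), P.2 (t - 1)) := fun s =>
    (congrFun (congrArg Prod.fst hP) s).symm
  have e2 : ∀ s, P.2 s = (ENNReal.ofReal (max s 2))⁻¹ * ∫⁻ t in Set.Ioi (max s 2), P.1 (t - 1) :=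
    fun s => (congrFun (congrArg Prod.snd hP) s).symm
  refine ⟨fun s => (P.1 s).toReal, fun s => (P.2 s).toReal, 12000, ?_⟩
  refine
    { C_pos := by norm_num
      u_anti := fun s t h => ENNReal.toReal_mono (hf1 s) (ha1 h)
      w_anti := fun s t h => ENNReal.toReal_mono (hf2 s) (ha2 h)
      u_nonneg := fun s => ENNReal.toReal_nonneg
      w_nonneg := fun s => ENNReal.toReal_nonneg
      u_le := fun s => ENNReal.toReal_le_of_le_ofReal
        (mul_nonneg (by norm_num) (hh_pos s).le) (hle1 s)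
      w_le := fun s => ENNReal.toReal_le_of_le_ofReal
        (mul_nonneg (by norm_num) (hh_pos s).le) (hle2 s)
      w_eq := ?_
      u_eq := ?_ }
  · intro s hs
    have h1 := e2 s
    rw [max_eq_left hs] at h1
    have hs0 : ENNReal.ofReal s ≠ 0 := by
      rw [Ne, ENNReal.ofReal_eq_zero, not_le]; linarith
    have h2 : ENNReal.ofReal s * P.2 s = ∫⁻ t in Set.Ioi s, P.1 (t - 1) := by
      rw [h1, ← mul_assoc, ENNReal.mul_inv_cancel hs0 ENNReal.ofReal_ne_top, one_mul]
    have h3 := congrArg ENNReal.toReal h2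
    rw [ENNReal.toReal_mul, ENNReal.toReal_ofReal (by linarith)] at h3
    show s * (P.2 s).toReal = ∫ t in Set.Ioi s, (P.1 (t - 1)).toReal
    rw [h3, integral_toReal hm1.aemeasurable
      (Filter.Eventually.of_forall fun t => (hf1 (t - 1)).lt_top)]
  · intro s hs
    have h1 := e1 s
    rw [max_eq_left hs] at h1
    have hs0 : ENNReal.ofReal s ≠ 0 := by
      rw [Ne, ENNReal.ofReal_eq_zero, not_le]; linarith
    have h2 : ENNReal.ofReal s * P.1 s =
        ENNReal.ofReal (3 - s) + ∫⁻ t in Set.Ioi (max s 3), P.2 (t - 1) := by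
      rw [h1, ← mul_assoc, ENNReal.mul_inv_cancel hs0 ENNReal.ofReal_ne_top, one_mul]
    have hfin : ENNReal.ofReal s * P.1 s ≠ ∞ := ENNReal.mul_ne_top ENNReal.ofReal_ne_top (hf1 s)
    have hfin2 : ∫⁻ t in Set.Ioi (max s 3), P.2 (t - 1) ≠ ∞ := by
      rw [h2] at hfin
      exact (ENNReal.add_ne_top.1 hfin).2
    have h3 := congrArg ENNReal.toReal h2
    rw [ENNReal.toReal_mul, ENNReal.toReal_ofReal (by linarith),
      ENNReal.toReal_add ENNReal.ofReal_ne_top hfin2, ENNReal.toReal_ofReal'] at h3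
    show s * (P.1 s).toReal = max (3 - s) 0 + ∫ t in Set.Ioi (max s 3), (P.2 (t - 1)).toReal
    rw [h3, integral_toReal hm2.aemeasurable
      (Filter.Eventually.of_forall fun t => (hf2 (t - 1)).lt_top)]

end Pool.Agent.Wb58c63
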