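import Pool.Agent.W_b58c63_h68.JMain
import Pool.Agent.W_b58c63_h68.JEx
import Pool.Agent.W_b58c63_h68.ArD

/-!
# The linear sieve with small primes, final form (helper68)
-/

set_option autoImplicit false

noncomputable section

open Finset

namespace Pool.Agent.Wb58c63

open Classical in
/-- The elements which are at least `u`. -/
def above (P : Finset ℕ) (u : ℝ) : Finset ℕ := P.filter fun p : ℕ => u ≤ (p : ℝ)

/-- The complete weights: all primes below `u₀` are sifted by inclusion and exclusion. -/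
def rhoS (b : Bool) (u₀ D : ℝ) (S : Finset ℕ) : ℝ :=
  (-1) ^ (below S u₀).card * lamF b D (above S u₀)

/-- The density `1 / φ(p)`. -/
def gp (p : ℕ) : ℝ := 1 / ((p : ℝ) - 1)

theorem JFin_mem_below {P : Finset ℕ} {u : ℝ} {p : ℕ} :
    p ∈ below P u ↔ p ∈ P ∧ (p : ℝ) < u := by
  classical
  unfold below
  exact mem_filter

theorem JFin_mem_above {P : Finset ℕ} {u : ℝ} {p : ℕ} :
    p ∈ above P u ↔ p ∈ P ∧ u ≤ (p : ℝ) := by
  classical
  unfold above
  exact mem_filter

theorem JFin_disj (P : Finset ℕ) (u : ℝ) : Disjoint (below P u) (above P u) := by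
  rw [Finset.disjoint_left]
  intro p h1 h2
  exact absurd (JFin_mem_below.mp h1).2 (not_lt.mpr (JFin_mem_above.mp h2).2)

theorem JFin_union (P : Finset ℕ) (u : ℝ) : below P u ∪ above P u = P := by
  ext p
  rw [mem_union, JFin_mem_below, JFin_mem_above]
  constructor
  · rintro (h | h)
    · exact h.1
    · exact h.1
  · intro h
    rcases lt_or_ge (p : ℝ) u with h1 | h1
    · exact Or.inl ⟨h, h1⟩
    · exact Or.inr ⟨h, h1⟩

theorem JFin_prod {M : Type*} [CommMonoid M] (f : ℕ → M) (P : Finset ℕ) (u : ℝ) :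
    ∏ p ∈ P, f p = (∏ p ∈ below P u, f p) * ∏ p ∈ above P u, f p := by
  rw [← Finset.prod_union (JFin_disj P u), JFin_union]

theorem JFin_VP (g : ℕ → ℝ) (P : Finset ℕ) (u : ℝ) :
    VP g P = VP g (below P u) * VP g (above P u) := JFin_prod _ P u

theorem JFin_expand (g : ℕ → ℝ) (Q : Finset ℕ) :
    VP g Q = ∑ A ∈ Q.powerset, (-1 : ℝ) ^ A.card * ∏ p ∈ A, g p := by
  unfold VP
  have h1 : ∀ p ∈ Q, 1 - g p = -g p + 1 := fun p _ => by ring
  rw [Finset.prod_congr rfl h1, Finset.prod_add]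
  refine Finset.sum_congr rfl fun A _ => ?_
  rw [Finset.prod_neg, Finset.prod_const_one, mul_one]

theorem abs_rhoS_le (b : Bool) (u₀ D : ℝ) (S : Finset ℕ) : |rhoS b u₀ D S| ≤ 1 := by
  unfold rhoS
  rw [abs_mul, abs_pow, abs_neg, abs_one, one_pow, one_mul]
  exact abs_lamF_le b D _

/-- `S = S₁ ∪ S₂` with `S₁ = below S u₀`, `S₂ = above S u₀`, and `∑_{S₁} (-1) ^ |S₁| ∏ g = ∏ (1 - g)`
(`Finset.prod_sub`-type identities or `Finset.prod_add`). -/
theorem rho_sum (g : ℕ → ℝ) (b : Bool) (u₀ D : ℝ) (P : Finset ℕ) :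
    ∑ S ∈ P.powerset, rhoS b u₀ D S * ∏ p ∈ S, g p =
      VP g (below P u₀) * GG g b D (above P u₀) := by
  rw [JFin_expand]
  unfold GG
  rw [Finset.sum_mul_sum, ← Finset.sum_product']
  refine Finset.sum_nbij' (fun S => (below S u₀, above S u₀)) (fun x => x.1 ∪ x.2) ?_ ?_ ?_ ?_ ?_
  · intro S hS
    rw [mem_powerset] at hS
    rw [mem_product, mem_powerset, mem_powerset]
    exact ⟨fun p hp => JFin_mem_below.mpr
        ⟨hS (JFin_mem_below.mp hp).1, (JFin_mem_below.mp hp).2⟩,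
      fun p hp => JFin_mem_above.mpr ⟨hS (JFin_mem_above.mp hp).1, (JFin_mem_above.mp hp).2⟩⟩
  · rintro ⟨A, B⟩ h
    rw [mem_product, mem_powerset, mem_powerset] at h
    rw [mem_powerset]
    exact Finset.union_subset (h.1.trans fun p hp => (JFin_mem_below.mp hp).1)
      (h.2.trans fun p hp => (JFin_mem_above.mp hp).1)
  · intro S _
    exact JFin_union S u₀
  · rintro ⟨A, B⟩ h
    rw [mem_product, mem_powerset, mem_powerset] at h
    simp only at h
    have hA : below (A ∪ B) u₀ = A := by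
      ext p
      rw [JFin_mem_below, mem_union]
      constructor
      · rintro ⟨h1 | h1, h2⟩
        · exact h1
        · exact absurd h2 (not_lt.mpr (JFin_mem_above.mp (h.2 h1)).2)
      · intro h1
        exact ⟨Or.inl h1, (JFin_mem_below.mp (h.1 h1)).2⟩
    have hB : above (A ∪ B) u₀ = B := by
      ext p
      rw [JFin_mem_above, mem_union]
      constructor
      · rintro ⟨h1 | h1, h2⟩
        · exact absurd (JFin_mem_below.mp (h.1 h1)).2 (not_lt.mpr h2)
        · exact h1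
      · intro h1
        exact ⟨Or.inr h1, (JFin_mem_above.mp (h.2 h1)).2⟩
    simp only [hA, hB]
  · intro S _
    unfold rhoS
    rw [JFin_prod g S u₀]
    ring

theorem JFin_VP_one (Q : Finset ℕ) : VP (fun _ => 1) Q = if Q = ∅ then (1 : ℝ) else 0 := by
  unfold VP
  rcases Q.eq_empty_or_nonempty with h | h
  · subst h
    simp
  · rw [if_neg h.ne_empty]
    obtain ⟨p, hp⟩ := h
    exact Finset.prod_eq_zero hp (sub_self _)

theorem JFin_rho_one (b : Bool) (u₀ D : ℝ) (P : Finset ℕ) :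
    ∑ S ∈ P.powerset, rhoS b u₀ D S =
      (if below P u₀ = ∅ then (1 : ℝ) else 0) * ∑ S ∈ (above P u₀).powerset, lamF b D S := by
  have h1 := rho_sum (fun _ => 1) b u₀ D P
  simp only [Finset.prod_const_one, mul_one] at h1
  rw [h1, JFin_VP_one]
  congr 1
  unfold GG
  simp only [Finset.prod_const_one, mul_one]

theorem JFin_empty {P : Finset ℕ} {u₀ : ℝ} (h : below P u₀ = ∅) :
    (above P u₀ = ∅ ↔ P = ∅) := by
  have h1 := JFin_union P u₀
  rw [h, Finset.empty_union] at h1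
  rw [h1]

/-- `rho_sum` for `g = 1` and `sieve_ineq`; `VP 1 (below P u₀) = [below P u₀ = ∅]`. -/
theorem rho_upper (u₀ D : ℝ) (P : Finset ℕ) :
    (if P = ∅ then (1 : ℝ) else 0) ≤ ∑ S ∈ P.powerset, rhoS true u₀ D S := by
  rw [JFin_rho_one]
  by_cases h : below P u₀ = ∅
  · have h1 := (sieve_ineq (above P u₀) D).1
    rw [if_pos h, one_mul]
    refine le_trans (le_of_eq ?_) h1
    simp only [JFin_empty h]
  · rw [if_neg h, zero_mul, if_neg]
    intro h0
    apply h
    subst h0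
    ext p
    rw [JFin_mem_below]
    simp

theorem rho_lower (u₀ D : ℝ) (P : Finset ℕ) :
    ∑ S ∈ P.powerset, rhoS false u₀ D S ≤ (if P = ∅ then (1 : ℝ) else 0) := by
  rw [JFin_rho_one]
  by_cases h : below P u₀ = ∅
  · have h1 := (sieve_ineq (above P u₀) D).2
    rw [if_pos h, one_mul]
    refine le_trans h1 (le_of_eq ?_)
    simp only [JFin_empty h]
  · rw [if_neg h, zero_mul]
    split_ifs
    · exact zero_le_one
    · exact le_refl _

theorem JFin_below_prod (u₀ : ℝ) (S : Finset ℕ) (h1 : ∀ p ∈ S, p.Prime) :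
    ∏ p ∈ below S u₀, p ≤ primorial ⌈u₀⌉₊ := by
  unfold primorial
  refine Finset.prod_le_prod_of_subset_of_one_le' ?_ ?_
  · intro p hp
    obtain ⟨h2, h3⟩ := JFin_mem_below.mp hp
    rw [mem_filter, mem_range]
    exact ⟨Nat.lt_succ_of_lt (Nat.lt_ceil.mpr h3), h1 p h2⟩
  · intro p hp _
    exact (mem_filter.mp hp).2.one_lt.le

theorem JFin_supp (u₀ D : ℝ) (S : Finset ℕ) (h1 : ∀ p ∈ S, p.Prime)
    (h : ((∏ p ∈ above S u₀, p : ℕ) : ℝ) < D) :
    ((∏ p ∈ S, p : ℕ) : ℝ) ≤ primorial ⌈u₀⌉₊ * D := by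
  rw [JFin_prod (fun p => p) S u₀, Nat.cast_mul]
  refine mul_le_mul ?_ h.le (Nat.cast_nonneg _) (Nat.cast_nonneg _)
  exact_mod_cast JFin_below_prod u₀ S h1

/-- **Support.** `∏ S = ∏ (below S u₀) * ∏ (above S u₀)`, the first factor is at most the primorial, the second one is
`< D` (`lamF_true_support`). -/
theorem rhoS_true_support (u₀ D : ℝ) (hD : 1 < D) (S : Finset ℕ) (h1 : ∀ p ∈ S, p.Prime)
    (h : rhoS true u₀ D S ≠ 0) : ((∏ p ∈ S, p : ℕ) : ℝ) ≤ primorial ⌈u₀⌉₊ * D := by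
  refine JFin_supp u₀ D S h1 (lamF_true_support D hD (above S u₀) ?_ ?_)
  · intro p hp
    exact (h1 p (JFin_mem_above.mp hp).1).one_lt.le
  · intro h0
    apply h
    unfold rhoS
    rw [h0, mul_zero]

theorem rhoS_false_support (u₀ D z : ℝ) (hD : 1 < D) (hz : z ^ 2 ≤ D) (S : Finset ℕ)
    (h1 : ∀ p ∈ S, p.Prime) (h2 : ∀ p ∈ S, (p : ℝ) ≤ z) (h : rhoS false u₀ D S ≠ 0) :
    ((∏ p ∈ S, p : ℕ) : ℝ) ≤ primorial ⌈u₀⌉₊ * D := by
  refine JFin_supp u₀ D S h1 (lamF_false_support D z hD hz (above S u₀) ?_ ?_ ?_)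
  · intro p hp
    exact (h1 p (JFin_mem_above.mp hp).1).one_lt.le
  · intro p hp
    exact h2 p (JFin_mem_above.mp hp).1
  · intro h0
    apply h
    unfold rhoS
    rw [h0, mul_zero]

theorem JFin_gp {p : ℕ} (h : 3 ≤ (p : ℝ)) : 0 ≤ gp p ∧ gp p < 1 := by
  unfold gp
  have h1 : (0 : ℝ) < (p : ℝ) - 1 := by linarith
  refine ⟨by positivity, ?_⟩
  rw [div_lt_one h1]
  linarith

theorem JFin_prod_sub (A B : Finset ℕ) (hAB : A ⊆ B) (f : ℕ → ℝ) (h0 : ∀ p ∈ B, 0 ≤ f p)
    (h1 : ∀ p ∈ B, f p ≤ 1) : ∏ p ∈ B, f p ≤ ∏ p ∈ A, f p := by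
  classical
  rw [← Finset.prod_sdiff hAB]
  have h2 : ∏ p ∈ B \ A, f p ≤ 1 :=
    Finset.prod_le_one (fun p hp => h0 p (Finset.mem_sdiff.mp hp).1)
      fun p hp => h1 p (Finset.mem_sdiff.mp hp).1
  have h3 : 0 ≤ ∏ p ∈ A, f p := Finset.prod_nonneg fun p hp => h0 p (hAB hp)
  nlinarith

/-- The regularity condition for every set of primes `≥ u₀`, with `u₀` from `prod_cond`.

Proof. `VP g (below P z) = VP g (below P u) * ∏_{p ∈ P, u ≤ p < z} (1 - g p)` and the last product is at least the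
product over all primes of `PI u z` (every factor is in `(0, 1]`). -/
theorem reg_primes (ε : ℝ) (hε : 0 < ε) : ∃ u₀ : ℝ, 3 ≤ u₀ ∧ ∀ P : Finset ℕ,
    (∀ p ∈ P, p.Prime ∧ u₀ ≤ (p : ℝ)) → Reg gp P (1 + ε) u₀ := by
  obtain ⟨u₀, hu₀, H⟩ := prod_cond ε hε
  refine ⟨u₀, hu₀, ?_⟩
  intro P hP u z hu huz
  have h1 := H u z hu huz
  have hbz : below P z = below (below P z) u ∪ above (below P z) u := (JFin_union _ _).symm
  have hbu : below (below P z) u = below P u := by
    ext p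
    rw [JFin_mem_below, JFin_mem_below, JFin_mem_below]
    constructor
    · rintro ⟨⟨h2, _⟩, h3⟩
      exact ⟨h2, h3⟩
    · rintro ⟨h2, h3⟩
      exact ⟨⟨h2, by linarith⟩, h3⟩
  have hV : VP gp (below P z) = VP gp (below P u) * VP gp (above (below P z) u) := by
    rw [JFin_VP gp (below P z) u, hbu]
  have hsub : above (below P z) u ⊆ PI u z := by
    intro p hp
    obtain ⟨h2, h3⟩ := JFin_mem_above.mp hp
    obtain ⟨h4, h5⟩ := JFin_mem_below.mp h2
    rw [mem_PI]
    exact ⟨(hP p h4).1, h3, h5⟩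
  have h2 : ∏ p ∈ PI u z, (1 - 1 / ((p : ℝ) - 1)) ≤ VP gp (above (below P z) u) := by
    refine JFin_prod_sub _ _ hsub (fun p => 1 - 1 / ((p : ℝ) - 1)) ?_ ?_
    · intro p hp
      rw [mem_PI] at hp
      have := (JFin_gp (p := p) (by linarith [hp.2.1])).2
      unfold gp at this
      linarith
    · intro p hp
      rw [mem_PI] at hp
      have := (JFin_gp (p := p) (by linarith [hp.2.1])).1
      unfold gp at this
      linarith
  have hpos : 0 ≤ VP gp (below P u) := by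
    refine (VP_pos ?_).le
    intro p hp
    exact JFin_gp (by linarith [(hP p (JFin_mem_below.mp hp).1).2])
  have hlz : 0 ≤ Real.log z := Real.log_nonneg (by linarith)
  calc VP gp (below P u) * Real.log u ≤
      VP gp (below P u) * ((1 + ε) * Real.log z * ∏ p ∈ PI u z, (1 - 1 / ((p : ℝ) - 1))) :=
        mul_le_mul_of_nonneg_left h1 hpos
    _ ≤ VP gp (below P u) * ((1 + ε) * Real.log z * VP gp (above (below P z) u)) := by
        refine mul_le_mul_of_nonneg_left ?_ hpos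
        exact mul_le_mul_of_nonneg_left h2 (by positivity)
    _ = (1 + ε) * VP gp (below P z) * Real.log z := by
        rw [hV]
        ring

/-- **Lower bound for the Euler product.**

Proof. With `u₀` from `reg_primes` for `ε = 1`:
`VP gp P = VP gp (below P u₀) * VP gp (above P u₀)`, the first factor is at least
`∏_{3 ≤ p < u₀} (1 - 1 / (p - 1)) > 0`, the second one is `≥ log u₀ / (2 log z)` by `Reg` (if `z ≥ u₀`; otherwise it is
`1`). -/
theorem VP_ge : ∃ c : ℝ, 0 < c ∧ ∀ (P : Finset ℕ) (z : ℝ), 3 ≤ z →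
    (∀ p ∈ P, p.Prime ∧ 3 ≤ p ∧ (p : ℝ) < z) → c / Real.log z ≤ VP gp P := by
  obtain ⟨u₀, hu₀, H⟩ := reg_primes 1 one_pos
  have hlog3 : 1 < Real.log 3 := by
    rw [Real.lt_log_iff_exp_lt (by norm_num)]
    have := Real.exp_one_lt_d9
    linarith
  set B : Finset ℕ := (range ⌈u₀⌉₊).filter fun p => 3 ≤ p with hB
  have hB3 : ∀ p ∈ B, (3 : ℝ) ≤ (p : ℝ) := by
    intro p hp
    rw [hB, mem_filter] at hp
    exact_mod_cast hp.2
  have hc0 : 0 < ∏ p ∈ B, (1 - gp p) := by
    refine Finset.prod_pos fun p hp => ?_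
    have := (JFin_gp (hB3 p hp)).2
    linarith
  refine ⟨(∏ p ∈ B, (1 - gp p)) / 2, by positivity, ?_⟩
  intro P z hz hP
  have hlz : 1 < Real.log z := lt_of_lt_of_le hlog3 (Real.log_le_log (by norm_num) hz)
  have hg : ∀ p ∈ P, 0 ≤ gp p ∧ gp p < 1 := fun p hp =>
    JFin_gp (by exact_mod_cast (hP p hp).2.1)
  rw [JFin_VP gp P u₀]
  have h1 : ∏ p ∈ B, (1 - gp p) ≤ VP gp (below P u₀) := by
    refine JFin_prod_sub _ _ ?_ (fun p => 1 - gp p) ?_ ?_
    · intro p hp
      obtain ⟨h2, h3⟩ := JFin_mem_below.mp hp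
      rw [hB, mem_filter, mem_range]
      exact ⟨Nat.lt_ceil.mpr h3, (hP p h2).2.1⟩
    · intro p hp
      have := (JFin_gp (hB3 p hp)).2
      linarith
    · intro p hp
      have := (JFin_gp (hB3 p hp)).1
      linarith
  have h2 : 1 / (2 * Real.log z) ≤ VP gp (above P u₀) := by
    rcases lt_or_ge z u₀ with hzu | hzu
    · have h3 : above P u₀ = ∅ := by
        rw [Finset.eq_empty_iff_forall_notMem]
        intro p hp
        obtain ⟨h4, h5⟩ := JFin_mem_above.mp hp
        linarith [(hP p h4).2.2]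
      rw [h3]
      unfold VP
      rw [Finset.prod_empty, div_le_one (by linarith)]
      linarith
    · have hR := H (above P u₀) (fun p hp => ⟨(hP p (JFin_mem_above.mp hp).1).1,
        (JFin_mem_above.mp hp).2⟩) u₀ z le_rfl hzu
      have h3 : below (above P u₀) u₀ = ∅ := by
        rw [Finset.eq_empty_iff_forall_notMem]
        intro p hp
        obtain ⟨h4, h5⟩ := JFin_mem_below.mp hp
        linarith [(JFin_mem_above.mp h4).2]
      have h4 : below (above P u₀) z = above P u₀ := by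
        ext p
        rw [JFin_mem_below]
        exact ⟨fun h => h.1, fun h => ⟨h, (hP p (JFin_mem_above.mp h).1).2.2⟩⟩
      rw [h3, h4] at hR
      have h5 : VP gp ∅ = 1 := by
        unfold VP
        rw [Finset.prod_empty]
      rw [h5, one_mul] at hR
      have hlu : 1 < Real.log u₀ := lt_of_lt_of_le hlog3 (Real.log_le_log (by norm_num) hu₀)
      rw [div_le_iff₀ (by linarith)]
      linarith
  have h3 : (∏ p ∈ B, (1 - gp p)) / 2 / Real.log z =
      (∏ p ∈ B, (1 - gp p)) * (1 / (2 * Real.log z)) := by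
    field_simp
  rw [h3]
  exact mul_le_mul h1 h2 (by positivity) (le_trans hc0.le h1)

theorem JFin_hh_le (s : ℝ) : hh s ≤ 1 := by
  unfold hh
  rw [← Real.exp_zero]
  refine Real.exp_le_exp.mpr ?_
  have : (2 : ℝ) ≤ max s 2 := le_max_right _ _
  linarith

theorem JFin_eps (C₁ ε W H k w2 K δ : ℝ) (hC : 0 < C₁) (hε : 0 < ε) (hε1 : ε ≤ 1)
    (hW : 0 ≤ W) (hH : 0 ≤ H) (hk : 0 ≤ k) (hw : 0 ≤ w2)
    (hK : K = 3 + 3 * W + 4 * C₁ * H + 6 * (w2 + C₁ * k)) (hδ : ε * K ≤ δ) :
    (1 + ε) * (3 + (1 + ε) * (W + ε * C₁ * H) + 3 * ε * (w2 + ε * C₁ * k)) ≤ 3 + W + δ := by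
  have e1 : (1 + ε) ^ 2 ≤ 1 + 3 * ε := by nlinarith
  have e2 : (1 + ε) ^ 2 * W ≤ (1 + 3 * ε) * W := mul_le_mul_of_nonneg_right e1 hW
  have e3 : (1 + ε) ^ 2 ≤ 4 := by nlinarith
  have hH' : 0 ≤ ε * C₁ * H := by positivity
  have e4 : (1 + ε) ^ 2 * (ε * C₁ * H) ≤ 4 * (ε * C₁ * H) := mul_le_mul_of_nonneg_right e3 hH'
  have e5 : ε * C₁ * k ≤ C₁ * k := by
    have : 0 ≤ C₁ * k := by positivity
    nlinarith
  have e6 : (1 + ε) * (3 * ε * (w2 + ε * C₁ * k)) ≤ 2 * (3 * ε * (w2 + C₁ * k)) := by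
    refine mul_le_mul (by linarith) ?_ (by positivity) (by norm_num)
    exact mul_le_mul_of_nonneg_left (by linarith) (by positivity)
  subst hK
  nlinarith

/-- **The linear sieve, final form.**

Proof. `u`, `w`, `C` from `exists_uw`, `A = 3 (1 + u 3)`, `C₁ = 10 ^ 6 C`, `ε` small, `u₀` from `reg_primes`.
`rho_sum`, `J_main` for `above P u₀` (all elements are in `[u₀, z)`). Lower bound: `s = 4`, `1 - w 4 = A log 3 / 4`
(`UW.w_eq_log`), error `ε C₁ hh 4`. Upper bound: for `0 < s ≤ 3` by `J_true_small` (for `s < 3`; the induction hypothesis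
is `J_main`) resp. `J_main` (`s = 3`): the bracket of `J_true_small` is `(1 / s) (A + O (ε))`. -/
theorem sieve_final : ∃ A : ℝ, 3 ≤ A ∧ ∀ δ : ℝ, 0 < δ → ∃ u₀ : ℝ, 3 ≤ u₀ ∧
    ∀ (P : Finset ℕ) (z D : ℝ), u₀ ≤ z → 1 < D → (∀ p ∈ P, p.Prime ∧ 3 ≤ p ∧ (p : ℝ) < z) →
      (Real.log D = 4 * Real.log z →
        VP gp P * (A * Real.log 3 / 4 - δ) ≤
          ∑ S ∈ P.powerset, rhoS false u₀ D S * ∏ p ∈ S, gp p) ∧
      (Real.log D ≤ 3 * Real.log z →
        ∑ S ∈ P.powerset, rhoS true u₀ D S * ∏ p ∈ S, gp p ≤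
          VP gp P * ((A + δ) * (Real.log z / Real.log D))) := by
  obtain ⟨u, w, C, h⟩ := exists_uw
  have hCp := h.C_pos
  have hu3 := h.u_nonneg 3
  refine ⟨3 * (1 + u 3), by linarith, ?_⟩
  intro δ hδ
  set C₁ : ℝ := 1000000 * C with hC₁
  have hC₁p : 0 < C₁ := by positivity
  set W := ∫ t in Set.Ioi (3 : ℝ), w (t - 1) with hWdef
  set H := ∫ t in Set.Ioi (3 : ℝ), hh (t - 1) with hHdef
  have hW0 : 0 ≤ W := MeasureTheory.setIntegral_nonneg measurableSet_Ioi
    fun t _ => h.w_nonneg (t - 1)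
  have hH0 : 0 ≤ H := MeasureTheory.setIntegral_nonneg measurableSet_Ioi
    fun t _ => (hh_pos (t - 1)).le
  have hW : 3 * u 3 = W := by
    have e := h.u_eq 3 (by norm_num)
    rw [sub_self, max_self, max_self, zero_add] at e
    exact e
  set K : ℝ := 3 + 3 * W + 4 * C₁ * H + 6 * (w 2 + C₁ * hh 2) with hK
  have hw2 := h.w_nonneg 2
  have hK0 : 0 ≤ K := by
    have := (hh_pos 2).le
    positivity
  set ε : ℝ := min (1 / 1000) (δ / (3 * C₁ + K + 1)) with hε
  have hden : 0 < 3 * C₁ + K + 1 := by positivity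
  have hε0 : 0 < ε := lt_min (by norm_num) (by positivity)
  have hε1 : ε ≤ 1 / 1000 := min_le_left _ _
  have hεδ : ε * (3 * C₁ + K + 1) ≤ δ := by
    have : ε ≤ δ / (3 * C₁ + K + 1) := min_le_right _ _
    rwa [le_div_iff₀ hden] at this
  have hε3 : 3 * (ε * C₁) ≤ δ := by nlinarith [mul_nonneg hε0.le hK0]
  have hεK : ε * K ≤ δ := by nlinarith [mul_pos hε0 hC₁p]
  obtain ⟨u₀, hu₀, HR⟩ := reg_primes ε hε0
  refine ⟨u₀, hu₀, ?_⟩
  intro P z D hz hD hP
  have hQ : ∀ p ∈ above P u₀, u₀ ≤ (p : ℝ) ∧ (p : ℝ) < z := fun p hp =>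
    ⟨(JFin_mem_above.mp hp).2, (hP p (JFin_mem_above.mp hp).1).2.2⟩
  have hg : ∀ p ∈ above P u₀, 0 ≤ gp p ∧ gp p < 1 := fun p hp =>
    JFin_gp (by linarith [(hQ p hp).1])
  have hR : Reg gp (above P u₀) (1 + ε) u₀ := HR _ fun p hp =>
    ⟨(hP p (JFin_mem_above.mp hp).1).1, (JFin_mem_above.mp hp).2⟩
  have hB0 : 0 ≤ VP gp (below P u₀) := by
    refine (VP_pos ?_).le
    intro p hp
    exact JFin_gp (by exact_mod_cast (hP p (JFin_mem_below.mp hp).1).2.1)
  have hlz : 0 < Real.log z := Real.log_pos (by linarith)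
  have hlD : 0 < Real.log D := Real.log_pos hD
  have hVQ : 0 < VP gp (above P u₀) := VP_pos hg
  have hmain := J_main h C₁ le_rfl ε hε0 hε1 gp u₀ (by linarith) (above P u₀) hg hR
  rw [rho_sum, rho_sum, JFin_VP gp P u₀]
  constructor
  · intro h4
    rw [mul_assoc]
    refine mul_le_mul_of_nonneg_left ?_ hB0
    have h5 := (hmain z D hz hD hQ).1 (by linarith)
    have h6 : Real.log D / Real.log z = 4 := by
      rw [h4]
      field_simp
    rw [h6] at h5
    refine le_trans (mul_le_mul_of_nonneg_left ?_ hVQ.le) h5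
    have h7 := h.w_eq_log 4 (by norm_num) le_rfl
    have h8 : (4 : ℝ) - 1 = 3 := by norm_num
    rw [h8] at h7
    have h9 : ε * C₁ * hh 4 ≤ ε * C₁ := by
      have := JFin_hh_le 4
      have : 0 ≤ ε * C₁ := by positivity
      nlinarith
    have h10 : 0 ≤ ε * C₁ := by positivity
    linarith
  · intro h3
    rw [mul_assoc]
    refine mul_le_mul_of_nonneg_left ?_ hB0
    rcases h3.lt_or_eq with h3' | h3'
    · have hsmall := J_true_small h C₁ hC₁p.le ε hε0 gp (above P u₀) u₀ z D (by linarith) hz hg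
        hQ hR h3' hD ?_
      · refine hsmall.trans (mul_le_mul_of_nonneg_left ?_ hVQ.le)
        have hI : ∫ t in Set.Ioi (3 : ℝ), (w (t - 1) + ε * C₁ * hh (t - 1)) =
            W + ε * C₁ * H := by
          rw [MeasureTheory.integral_add (h.w_int 3) ((hh_integrable 3).const_mul _),
            MeasureTheory.integral_const_mul]
        rw [hI]
        have key := JFin_eps C₁ ε W H (hh 2) (w 2) K δ hC₁p hε0 (by linarith) hW0 hH0
          (hh_pos 2).le hw2 hK hεK
        have e1 : (1 + ε) * (3 / (Real.log D / Real.log z)) *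
            (1 + (1 + ε) / 3 * (W + ε * C₁ * H) + ε * (w 2 + ε * C₁ * hh 2)) =
            ((1 + ε) * (3 + (1 + ε) * (W + ε * C₁ * H) + 3 * ε * (w 2 + ε * C₁ * hh 2))) *
              (Real.log z / Real.log D) := by
          field_simp
        rw [e1]
        refine mul_le_mul_of_nonneg_right ?_ (by positivity)
        linarith
      · intro p hp hp3
        have hp2 : 2 ≤ (p : ℝ) := by linarith [(hQ p hp).1]
        have hp0 : (0 : ℝ) < p := by linarith
        have h4 : Real.log ((p : ℝ) ^ 3) ≤ Real.log D :=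
          Real.log_le_log (pow_pos hp0 3) hp3.le
        rw [Real.log_pow] at h4
        push_cast at h4
        obtain ⟨h5, h6, h7⟩ := JMain_div hp2 hD 2 (by linarith) (by norm_num)
        have hss : (above P u₀).filter (fun q => q < p) = below (above P u₀) (p : ℝ) :=
          JMain_below _ _
        have hR' : Reg gp (below (above P u₀) (p : ℝ)) (1 + ε) u₀ :=
          hR.sub (by linarith) (by linarith) hg (p : ℝ) (hQ p hp).1
        have h8 := J_main h C₁ le_rfl ε hε0 hε1 gp u₀ (by linarith) (below (above P u₀) (p : ℝ))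
          (fun q hq => hg q (JFin_mem_below.mp hq).1) hR' (p : ℝ) (D / p) (hQ p hp).1 h5
          (fun q hq => ⟨(hQ q (JFin_mem_below.mp hq).1).1, (JFin_mem_below.mp hq).2⟩)
        rw [h7] at h8
        rw [hss]
        exact h8.1 h6
    · have h5 := (hmain z D hz hD hQ).2 (by linarith)
      have h6 : Real.log D / Real.log z = 3 := by
        rw [h3']
        field_simp
      rw [h6] at h5
      refine h5.trans (mul_le_mul_of_nonneg_left ?_ hVQ.le)
      have h7 : Real.log z / Real.log D = 1 / 3 := by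
        rw [h3']
        field_simp
      rw [h7]
      have h9 : ε * C₁ * hh 3 ≤ ε * C₁ := by
        have := JFin_hh_le 3
        have : 0 ≤ ε * C₁ := by positivity
        nlinarith
      linarith

end Pool.Agent.Wb58c63
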