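import Pool.Agent.W_b58c63_h68.Defs

/-!
# Sums of multiplicative functions (helper68)
-/

set_option autoImplicit false

noncomputable section

open Finset

namespace Pool.Agent.Wb58c63

theorem ArA_totient_prod (Q : Finset ℕ) (hQ : ∀ q ∈ Q, q.Prime) :
    (Nat.totient (∏ q ∈ Q, q) : ℝ) = ∏ q ∈ Q, ((q : ℝ) - 1) := by
  induction Q using Finset.induction_on with
  | empty =>
    rw [Finset.prod_empty, Finset.prod_empty, Nat.totient_one, Nat.cast_one]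
  | insert a s ha ih =>
    rw [Finset.prod_insert ha, Finset.prod_insert ha]
    have hap := hQ a (Finset.mem_insert_self a s)
    have hcop : Nat.Coprime a (∏ q ∈ s, q) := by
      refine Nat.Coprime.prod_right fun q hq => ?_
      refine (Nat.coprime_primes hap (hQ q (Finset.mem_insert_of_mem hq))).2 ?_
      rintro rfl
      exact ha hq
    rw [Nat.totient_mul hcop, Nat.totient_prime hap, Nat.cast_mul,
      ih (fun q hq => hQ q (Finset.mem_insert_of_mem hq)), Nat.cast_sub hap.one_lt.le,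
      Nat.cast_one]

/-- `1 / φ(m) = (1 / m) ∑_{d ∣ m, d squarefree} 1 / φ(d)` (both sides are multiplicative; for a prime power
`1 + 1 / (p - 1) = p / (p - 1)`). -/
theorem inv_totient (m : ℕ) (hm : 1 ≤ m) :
    (1 : ℝ) / m.totient =
      1 / m * ∑ d ∈ m.divisors.filter Squarefree, (1 : ℝ) / d.totient := by
  have hm0 : m ≠ 0 := by omega
  have hpp : ∀ q ∈ m.primeFactors, q.Prime := fun q hq => Nat.prime_of_mem_primeFactors hq
  have hnf : (UniqueFactorizationMonoid.normalizedFactors m).toFinset = m.primeFactors := by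
    rw [Nat.factors_eq]
    rfl
  rw [Nat.sum_divisors_filter_squarefree hm0, hnf]
  have h1 : ∀ t ∈ m.primeFactors.powerset, (1 : ℝ) / (t.val.prod).totient =
      ∏ q ∈ t, (1 : ℝ) / ((q : ℝ) - 1) := by
    intro t ht
    have ht' := Finset.mem_powerset.1 ht
    have e : t.val.prod = ∏ q ∈ t, q := Finset.prod_val t
    rw [e, ArA_totient_prod t (fun q hq => hpp q (ht' hq)), Finset.prod_div_distrib,
      Finset.prod_const_one]
  rw [Finset.sum_congr rfl h1, ← Finset.prod_one_add]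
  have h2 := Nat.totient_mul_prod_primeFactors m
  have h3 : (m.totient : ℝ) * ∏ q ∈ m.primeFactors, (q : ℝ) =
      m * ∏ q ∈ m.primeFactors, ((q : ℝ) - 1) := by
    have h4 : ((∏ q ∈ m.primeFactors, (q - 1) : ℕ) : ℝ) =
        ∏ q ∈ m.primeFactors, ((q : ℝ) - 1) := by
      rw [Nat.cast_prod]
      refine Finset.prod_congr rfl fun q hq => ?_
      rw [Nat.cast_sub (hpp q hq).one_lt.le, Nat.cast_one]
    rw [← h4, ← Nat.cast_prod, ← Nat.cast_mul, ← Nat.cast_mul, h2]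
  have hq1 : ∀ q ∈ m.primeFactors, (0 : ℝ) < (q : ℝ) - 1 := by
    intro q hq
    have : (1 : ℝ) < q := by exact_mod_cast (hpp q hq).one_lt
    linarith
  have h5 : ∏ q ∈ m.primeFactors, (1 + (1 : ℝ) / ((q : ℝ) - 1)) =
      (∏ q ∈ m.primeFactors, (q : ℝ)) / ∏ q ∈ m.primeFactors, ((q : ℝ) - 1) := by
    rw [← Finset.prod_div_distrib]
    refine Finset.prod_congr rfl fun q hq => ?_
    have := (hq1 q hq).ne'
    field_simp
    ring
  rw [h5]
  have h6 : (0 : ℝ) < m.totient := by exact_mod_cast Nat.totient_pos.2 hm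
  have h7 : (0 : ℝ) < m := by exact_mod_cast hm
  have h8 : 0 < ∏ q ∈ m.primeFactors, ((q : ℝ) - 1) := Finset.prod_pos hq1
  rw [one_div, one_div, ← div_eq_inv_mul, div_div, inv_eq_one_div, div_eq_div_iff h6.ne'
    (mul_pos h8 h7).ne']
  linarith

theorem ArA_sq_le (d : ℕ) (hd : Squarefree d) : (d : ℝ) ≤ 2 * (d.totient : ℝ) ^ 2 := by
  have hd0 : d ≠ 0 := hd.ne_zero
  have hpp : ∀ q ∈ d.primeFactors, q.Prime := fun q hq => Nat.prime_of_mem_primeFactors hq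
  have e : ∏ q ∈ d.primeFactors, q = d := Nat.prod_primeFactors_of_squarefree hd
  have key : ∀ s : Finset ℕ, (∀ q ∈ s, q.Prime ∧ q ≠ 2) →
      ∏ q ∈ s, (q : ℝ) ≤ ∏ q ∈ s, ((q : ℝ) - 1) ^ 2 := by
    intro s hs
    refine Finset.prod_le_prod (fun q _ => Nat.cast_nonneg q) fun q hq => ?_
    have h3 : 3 ≤ q := by
      have h4 := (hs q hq).1.two_le
      have h5 := (hs q hq).2
      omega
    have h6 : (3 : ℝ) ≤ q := by exact_mod_cast h3
    nlinarith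
  have h1 : (d.totient : ℝ) = ∏ q ∈ d.primeFactors, ((q : ℝ) - 1) := by
    have := ArA_totient_prod d.primeFactors hpp
    rwa [e] at this
  have h2 : (d : ℝ) = ∏ q ∈ d.primeFactors, (q : ℝ) := by
    rw [← Nat.cast_prod, e]
  rw [h1, h2, ← Finset.prod_pow]
  by_cases h : 2 ∈ d.primeFactors
  · rw [← Finset.mul_prod_erase _ _ h, ← Finset.mul_prod_erase _ (fun q : ℕ => ((q : ℝ) - 1) ^ 2) h]
    have h3 := key (d.primeFactors.erase 2) (fun q hq =>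
      ⟨hpp q (Finset.mem_of_mem_erase hq), Finset.ne_of_mem_erase hq⟩)
    push_cast
    nlinarith
  · have h3 := key d.primeFactors (fun q hq => ⟨hpp q hq, fun h4 => h (h4 ▸ hq)⟩)
    have h4 : 0 ≤ ∏ q ∈ d.primeFactors, (q : ℝ) := Finset.prod_nonneg fun q _ => Nat.cast_nonneg q
    linarith

/-- `∑_{d ≤ M, squarefree} 1 / (d φ(d))` is bounded.

Proof. `φ(d) ≥ √d / 2`-type bound: for squarefree `d`, `φ(d) ^ 2 ≥ d / 2` (multiplicative, `(p - 1) ^ 2 ≥ p` for `p ≥ 3` and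
`1 ≥ 2 / 2` for `p = 2`), so `1 / (d φ(d)) ≤ √2 d ^ (-3 / 2)`, and `∑ d ^ (-3 / 2) ≤ 3`. -/
theorem sum_inv_mul_totient : ∃ C : ℝ, 0 < C ∧ ∀ M : ℕ,
    ∑ d ∈ (Icc 1 M).filter Squarefree, (1 : ℝ) / (d * d.totient) ≤ C := by
  have hs : Summable (fun d : ℕ => ((d : ℝ) ^ (3 / 2 : ℝ))⁻¹) :=
    Real.summable_nat_rpow_inv.2 (by norm_num)
  refine ⟨2 * (∑' d : ℕ, ((d : ℝ) ^ (3 / 2 : ℝ))⁻¹) + 1, ?_, fun M => ?_⟩
  · have : 0 ≤ ∑' d : ℕ, ((d : ℝ) ^ (3 / 2 : ℝ))⁻¹ := tsum_nonneg fun d => by positivity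
    linarith
  have h1 : ∀ d ∈ (Icc 1 M).filter Squarefree, (1 : ℝ) / (d * d.totient) ≤
      2 * ((d : ℝ) ^ (3 / 2 : ℝ))⁻¹ := by
    intro d hd
    rw [Finset.mem_filter, Finset.mem_Icc] at hd
    have hd0 : (0 : ℝ) < d := by exact_mod_cast hd.1.1
    have ht : (0 : ℝ) < d.totient := by exact_mod_cast Nat.totient_pos.2 hd.1.1
    have h2 := ArA_sq_le d hd.2
    have h3 : (d : ℝ) ^ (3 / 2 : ℝ) = d * Real.sqrt d := by
      rw [Real.sqrt_eq_rpow, show (3 / 2 : ℝ) = 1 + 1 / 2 by norm_num, Real.rpow_add hd0,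
        Real.rpow_one]
    have h4 : Real.sqrt d ≤ 2 * d.totient := by
      rw [← Real.sqrt_sq (by positivity : (0 : ℝ) ≤ 2 * d.totient)]
      apply Real.sqrt_le_sqrt
      nlinarith
    have h5 : 0 < Real.sqrt d := Real.sqrt_pos.2 hd0
    rw [h3, ← div_eq_mul_inv, div_le_div_iff₀ (by positivity) (by positivity)]
    nlinarith
  calc ∑ d ∈ (Icc 1 M).filter Squarefree, (1 : ℝ) / (d * d.totient)
      ≤ ∑ d ∈ (Icc 1 M).filter Squarefree, 2 * ((d : ℝ) ^ (3 / 2 : ℝ))⁻¹ :=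
        Finset.sum_le_sum h1
    _ = 2 * ∑ d ∈ (Icc 1 M).filter Squarefree, ((d : ℝ) ^ (3 / 2 : ℝ))⁻¹ := by
        rw [Finset.mul_sum]
    _ ≤ 2 * ∑' d : ℕ, ((d : ℝ) ^ (3 / 2 : ℝ))⁻¹ := by
        refine mul_le_mul_of_nonneg_left ?_ (by norm_num)
        exact hs.sum_le_tsum _ (fun d _ => by positivity)
    _ ≤ _ := by linarith

theorem ArA_harm (M : ℕ) : ∑ e ∈ Icc 1 M, (1 : ℝ) / e ≤ 1 + Real.log M := by
  have h := harmonic_le_one_add_log M
  rw [harmonic_eq_sum_Icc] at h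
  push_cast at h
  simpa only [one_div] using h

theorem ArA_mult (M d : ℕ) (hd : 1 ≤ d) :
    ∑ m ∈ (Icc 1 M).filter (fun m => d ∣ m), (1 : ℝ) / m ≤ 1 / d * (1 + Real.log M) := by
  have hsub : (Icc 1 M).filter (fun m => d ∣ m) ⊆ (Icc 1 M).image (fun e => d * e) := by
    intro m hm
    rw [Finset.mem_filter, Finset.mem_Icc] at hm
    obtain ⟨⟨h1, h2⟩, e, rfl⟩ := hm
    rw [Finset.mem_image]
    refine ⟨e, Finset.mem_Icc.2 ⟨?_, ?_⟩, rfl⟩
    · rcases Nat.eq_zero_or_pos e with rfl | h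
      · simp at h1
      · exact h
    · exact le_trans (Nat.le_mul_of_pos_left e hd) h2
  refine (Finset.sum_le_sum_of_subset_of_nonneg hsub fun _ _ _ => by positivity).trans ?_
  rw [Finset.sum_image (fun x _ y _ hxy => Nat.eq_of_mul_eq_mul_left hd hxy)]
  have h1 : ∀ e ∈ Icc 1 M, (1 : ℝ) / ((d * e : ℕ) : ℝ) = 1 / d * (1 / e) := by
    intro e _
    push_cast
    rw [one_div_mul_one_div]
  rw [Finset.sum_congr rfl h1, ← Finset.mul_sum]
  exact mul_le_mul_of_nonneg_left (ArA_harm M) (by positivity)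

/-- **`∑_{m ≤ M} 1 / φ(m) ≤ C (1 + log M)`.** By `inv_totient`, exchange the sums, `m = d e`,
`∑_{e ≤ M / d} 1 / e ≤ 1 + log M`. -/
theorem sum_inv_totient : ∃ C : ℝ, 0 < C ∧ ∀ M : ℕ, 1 ≤ M →
    ∑ m ∈ Icc 1 M, (1 : ℝ) / m.totient ≤ C * (1 + Real.log M) := by
  obtain ⟨C, hC, h⟩ := sum_inv_mul_totient
  refine ⟨C, hC, fun M hM => ?_⟩
  have hlog : 0 ≤ 1 + Real.log M := by
    have := Real.log_natCast_nonneg M
    linarith
  calc ∑ m ∈ Icc 1 M, (1 : ℝ) / m.totient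
      = ∑ m ∈ Icc 1 M, ∑ d ∈ (Icc 1 M).filter Squarefree,
          if d ∣ m then (1 : ℝ) / m * (1 / d.totient) else 0 := by
        refine Finset.sum_congr rfl fun m hm => ?_
        rw [Finset.mem_Icc] at hm
        rw [inv_totient m hm.1, Finset.mul_sum, ← Finset.sum_filter, Finset.filter_filter]
        refine Finset.sum_congr ?_ fun _ _ => rfl
        ext d
        rw [Finset.mem_filter, Finset.mem_filter, Nat.mem_divisors, Finset.mem_Icc]
        constructor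
        · rintro ⟨⟨h1, h2⟩, h3⟩
          exact ⟨⟨Nat.pos_of_dvd_of_pos h1 hm.1, (Nat.le_of_dvd hm.1 h1).trans hm.2⟩, h3, h1⟩
        · rintro ⟨_, h3, h1⟩
          exact ⟨⟨h1, by omega⟩, h3⟩
    _ = ∑ d ∈ (Icc 1 M).filter Squarefree, ∑ m ∈ Icc 1 M,
          if d ∣ m then (1 : ℝ) / m * (1 / d.totient) else 0 := Finset.sum_comm
    _ ≤ ∑ d ∈ (Icc 1 M).filter Squarefree, (1 : ℝ) / (d * d.totient) * (1 + Real.log M) := by
        refine Finset.sum_le_sum fun d hd => ?_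
        rw [Finset.mem_filter, Finset.mem_Icc] at hd
        rw [← Finset.sum_filter, ← Finset.sum_mul]
        have h1 := ArA_mult M d hd.1.1
        have h2 : (0 : ℝ) ≤ 1 / d.totient := by positivity
        calc (∑ m ∈ (Icc 1 M).filter (fun m => d ∣ m), (1 : ℝ) / m) * (1 / d.totient)
            ≤ (1 / d * (1 + Real.log M)) * (1 / d.totient) := mul_le_mul_of_nonneg_right h1 h2
          _ = _ := by
            rw [← one_div_mul_one_div]
            ring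
    _ = (∑ d ∈ (Icc 1 M).filter Squarefree, (1 : ℝ) / (d * d.totient)) * (1 + Real.log M) := by
        rw [Finset.sum_mul]
    _ ≤ C * (1 + Real.log M) := mul_le_mul_of_nonneg_right (h M) hlog

theorem ArA_card (N n : ℕ) (hn : n ∈ Icc 1 N) :
    (n.divisors.card : ℝ) ^ 2 ≤ ∑ t ∈ Icc 1 N ×ˢ (Icc 1 N ×ˢ Icc 1 N),
      if t.1 * (t.2.1 * t.2.2) ∣ n then (1 : ℝ) else 0 := by
  rw [Finset.mem_Icc] at hn
  rw [Finset.sum_boole]
  have h1 : (n.divisors ×ˢ n.divisors).card ≤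
      ((Icc 1 N ×ˢ (Icc 1 N ×ˢ Icc 1 N)).filter
        (fun t => t.1 * (t.2.1 * t.2.2) ∣ n)).card := by
    apply Finset.card_le_card_of_injOn
      (fun x : ℕ × ℕ => (Nat.gcd x.1 x.2, (x.1 / Nat.gcd x.1 x.2, x.2 / Nat.gcd x.1 x.2)))
    · intro x hx
      rw [Finset.mem_coe, Finset.mem_product, Nat.mem_divisors, Nat.mem_divisors] at hx
      obtain ⟨⟨ha, hn0⟩, hb, _⟩ := hx
      have ha0 : 0 < x.1 := Nat.pos_of_dvd_of_pos ha hn.1
      have hb0 : 0 < x.2 := Nat.pos_of_dvd_of_pos hb hn.1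
      have han : x.1 ≤ n := Nat.le_of_dvd hn.1 ha
      have hbn : x.2 ≤ n := Nat.le_of_dvd hn.1 hb
      have hg0 : 0 < Nat.gcd x.1 x.2 := Nat.gcd_pos_of_pos_left _ ha0
      have hga : Nat.gcd x.1 x.2 ∣ x.1 := Nat.gcd_dvd_left _ _
      have hgb : Nat.gcd x.1 x.2 ∣ x.2 := Nat.gcd_dvd_right _ _
      have hgle : Nat.gcd x.1 x.2 ≤ x.1 := Nat.le_of_dvd ha0 hga
      have hgle' : Nat.gcd x.1 x.2 ≤ x.2 := Nat.le_of_dvd hb0 hgb
      rw [Finset.mem_coe, Finset.mem_filter, Finset.mem_product, Finset.mem_product,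
        Finset.mem_Icc, Finset.mem_Icc, Finset.mem_Icc]
      refine ⟨⟨⟨hg0, hgle.trans (han.trans hn.2)⟩, ⟨Nat.div_pos hgle hg0, ?_⟩,
        ⟨Nat.div_pos hgle' hg0, ?_⟩⟩, ?_⟩
      · exact (Nat.div_le_self _ _).trans (han.trans hn.2)
      · exact (Nat.div_le_self _ _).trans (hbn.trans hn.2)
      · have e : Nat.gcd x.1 x.2 * (x.1 / Nat.gcd x.1 x.2 * (x.2 / Nat.gcd x.1 x.2)) =
            Nat.lcm x.1 x.2 := by
          rw [← mul_assoc, Nat.mul_div_cancel' hga, Nat.lcm, Nat.mul_div_assoc _ hgb]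
        show Nat.gcd x.1 x.2 * (x.1 / Nat.gcd x.1 x.2 * (x.2 / Nat.gcd x.1 x.2)) ∣ n
        rw [e]
        exact Nat.lcm_dvd ha hb
    · intro x hx y hy hxy
      rw [Prod.mk.injEq, Prod.mk.injEq] at hxy
      obtain ⟨h1, h2, h3⟩ := hxy
      have e1 : x.1 = y.1 := by
        rw [← Nat.mul_div_cancel' (Nat.gcd_dvd_left x.1 x.2), h2, h1,
          Nat.mul_div_cancel' (Nat.gcd_dvd_left y.1 y.2)]
      have e2 : x.2 = y.2 := by
        rw [← Nat.mul_div_cancel' (Nat.gcd_dvd_right x.1 x.2), h3, h1,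
          Nat.mul_div_cancel' (Nat.gcd_dvd_right y.1 y.2)]
      exact Prod.ext e1 e2
  rw [Finset.card_product] at h1
  rw [sq]
  exact_mod_cast h1

theorem ArA_div (N k : ℕ) :
    ∑ n ∈ Icc 1 N, (if k ∣ n then (1 : ℝ) else 0) ≤ N * (1 / k) := by
  rw [Finset.sum_boole]
  have h1 : ((Icc 1 N).filter (fun n => k ∣ n)).card = N / k := by
    have := Nat.Ioc_filter_dvd_card_eq_div N k
    rwa [← Finset.Icc_succ_left_eq_Ioc] at this
  rw [h1, mul_one_div]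
  exact Nat.cast_div_le

/-- **`∑_{n ≤ N} τ(n) ^ 2 ≤ N (1 + log N) ^ 3`.**

Proof. `∑_n τ(n) ^ 2 = ∑_{a, b ≤ N} #{n ≤ N : lcm (a, b) ∣ n} ≤ N ∑_{a, b ≤ N} gcd (a, b) / (a b)`. With `g = gcd`,
`a = g a'`, `b = g b'` this is at most `N ∑_{g, a', b' ≤ N} 1 / (g a' b') ≤ N (1 + log N) ^ 3`. -/
theorem sum_tau_sq (N : ℕ) (hN : 1 ≤ N) :
    ∑ n ∈ Icc 1 N, (n.divisors.card : ℝ) ^ 2 ≤ N * (1 + Real.log N) ^ 3 := by
  have hh := ArA_harm N
  have hh0 : 0 ≤ ∑ e ∈ Icc 1 N, (1 : ℝ) / e := Finset.sum_nonneg fun e _ => by positivity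
  calc ∑ n ∈ Icc 1 N, (n.divisors.card : ℝ) ^ 2
      ≤ ∑ n ∈ Icc 1 N, ∑ t ∈ Icc 1 N ×ˢ (Icc 1 N ×ˢ Icc 1 N),
          (if t.1 * (t.2.1 * t.2.2) ∣ n then (1 : ℝ) else 0) :=
        Finset.sum_le_sum fun n hn => ArA_card N n hn
    _ = ∑ t ∈ Icc 1 N ×ˢ (Icc 1 N ×ˢ Icc 1 N), ∑ n ∈ Icc 1 N,
          (if t.1 * (t.2.1 * t.2.2) ∣ n then (1 : ℝ) else 0) := Finset.sum_comm
    _ ≤ ∑ t ∈ Icc 1 N ×ˢ (Icc 1 N ×ˢ Icc 1 N),
          (N : ℝ) * ((1 / (t.1 : ℝ)) * ((1 / (t.2.1 : ℝ)) * (1 / (t.2.2 : ℝ)))) := by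
        refine Finset.sum_le_sum fun t _ => ?_
        refine (ArA_div N _).trans (le_of_eq ?_)
        push_cast
        rw [one_div_mul_one_div, one_div_mul_one_div]
    _ = N * ((∑ e ∈ Icc 1 N, (1 : ℝ) / e) * ((∑ e ∈ Icc 1 N, (1 : ℝ) / e) *
          (∑ e ∈ Icc 1 N, (1 : ℝ) / e))) := by
        rw [← Finset.mul_sum, Finset.sum_product, Finset.sum_mul]
        congr 1
        refine Finset.sum_congr rfl fun x _ => ?_
        show ∑ y ∈ Icc 1 N ×ˢ Icc 1 N, 1 / (x : ℝ) * (1 / (y.1 : ℝ) * (1 / (y.2 : ℝ))) = _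
        rw [← Finset.mul_sum, Finset.sum_product, Finset.sum_mul]
        congr 1
        refine Finset.sum_congr rfl fun y _ => ?_
        show ∑ z ∈ Icc 1 N, 1 / (y : ℝ) * (1 / (z : ℝ)) = _
        rw [← Finset.mul_sum]
    _ ≤ N * (1 + Real.log N) ^ 3 := by
        refine mul_le_mul_of_nonneg_left ?_ (Nat.cast_nonneg N)
        have e : (∑ e ∈ Icc 1 N, (1 : ℝ) / e) * ((∑ e ∈ Icc 1 N, (1 : ℝ) / e) *
          (∑ e ∈ Icc 1 N, (1 : ℝ) / e)) = (∑ e ∈ Icc 1 N, (1 : ℝ) / e) ^ 3 := by ring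
        rw [e]
        exact pow_le_pow_left₀ hh0 hh 3

end Pool.Agent.Wb58c63
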