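import Mathlib

/-!
# Siegel's theorem: the coefficients of the product of four L-functions (helper49)
-/

set_option autoImplicit false

noncomputable section

open Finset DirichletCharacter ArithmeticFunction
open scoped ComplexOrder

namespace Pool.Agent.Wb58c63

/-- The product of two characters, to the product of the moduli. -/
def chi12 {q₁ q₂ : ℕ} (χ₁ : DirichletCharacter ℂ q₁) (χ₂ : DirichletCharacter ℂ q₂) :
    DirichletCharacter ℂ (q₁ * q₂) :=
  changeLevel (dvd_mul_right q₁ q₂) χ₁ * changeLevel (dvd_mul_left q₂ q₁) χ₂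

/-- Values of the product.

Proof. If `n` is coprime to `q₁ q₂` this is `changeLevel_eq_cast_of_dvd` (the cast of `(n : ZMod (q₁ * q₂))` to
`ZMod q₁` is `(n : ZMod q₁)`). Otherwise the left side is `0` (`map_nonunit`, `ZMod.isUnit_iff_coprime`) and `n` is
not coprime to `q₁` or not coprime to `q₂`, so one factor of the right side is `0`. -/
theorem chi12_apply {q₁ q₂ : ℕ} (χ₁ : DirichletCharacter ℂ q₁) (χ₂ : DirichletCharacter ℂ q₂) (n : ℕ) :
    chi12 χ₁ χ₂ (n : ZMod (q₁ * q₂)) = χ₁ (n : ZMod q₁) * χ₂ (n : ZMod q₂) := by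
  unfold chi12
  by_cases h : Nat.Coprime n (q₁ * q₂)
  · have hi : IsCoprime (n : ℤ) ((q₁ * q₂ : ℕ) : ℤ) := Nat.isCoprime_iff_coprime.mpr h
    rw [MulChar.mul_apply]
    have e1 := changeLevel_eq_cast_of_dvd' (χ := χ₁) (dvd_mul_right q₁ q₂) hi
    have e2 := changeLevel_eq_cast_of_dvd' (χ := χ₂) (dvd_mul_left q₂ q₁) hi
    simp only [Int.cast_natCast] at e1 e2
    rw [e1, e2]
  · rw [MulChar.map_nonunit _ (by rwa [ZMod.isUnit_iff_coprime])]
    rw [Nat.coprime_mul_iff_right, not_and_or] at h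
    rcases h with h | h
    · rw [χ₁.map_nonunit (by rwa [ZMod.isUnit_iff_coprime]), zero_mul]
    · rw [χ₂.map_nonunit (by rwa [ZMod.isUnit_iff_coprime]), mul_zero]

/-- The coefficients of `ζ(s) L(s, χ₁) L(s, χ₂) L(s, χ₁ χ₂)`. -/
def sgb {q₁ q₂ : ℕ} (χ₁ : DirichletCharacter ℂ q₁) (χ₂ : DirichletCharacter ℂ q₂) : ArithmeticFunction ℂ :=
  χ₁.zetaMul * ArithmeticFunction.pmul (toArithmeticFunction (fun n : ℕ => χ₂ (n : ZMod q₂))) χ₁.zetaMul

theorem SgA_mult {q₁ q₂ : ℕ} (χ₁ : DirichletCharacter ℂ q₁) (χ₂ : DirichletCharacter ℂ q₂) :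
    (sgb χ₁ χ₂).IsMultiplicative :=
  χ₁.isMultiplicative_zetaMul.mul
    ((isMultiplicative_toArithmeticFunction χ₂).pmul χ₁.isMultiplicative_zetaMul)

theorem sgb_one {q₁ q₂ : ℕ} (χ₁ : DirichletCharacter ℂ q₁) (χ₂ : DirichletCharacter ℂ q₂) :
    sgb χ₁ χ₂ 1 = 1 := (SgA_mult χ₁ χ₂).1

theorem SgA_geom {d : ℤ} (hd : d = 0 ∨ d = 1 ∨ d = -1) (i : ℕ) :
    0 ≤ ∑ l ∈ range (i + 1), d ^ l := by
  rcases hd with h | h | h
  · exact Finset.sum_nonneg fun j _ => by rw [h]; positivity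
  · exact Finset.sum_nonneg fun j _ => by rw [h]; positivity
  · rw [h, neg_one_geom_sum]
    split_ifs
    exacts [le_rfl, zero_le_one]

/-- closed forms for the alternating sums -/
theorem SgA_alt (m : ℕ) :
    (∑ j ∈ range (2 * m + 1), (-1 : ℤ) ^ j * ((j : ℤ) + 1) = (m : ℤ) + 1 ∧
      ∑ j ∈ range (2 * m + 1), (-1 : ℤ) ^ j * ((j : ℤ) + 1) ^ 2 = (2 * (m : ℤ) + 1) * ((m : ℤ) + 1)) ∧
    (∑ j ∈ range (2 * m + 2), (-1 : ℤ) ^ j * ((j : ℤ) + 1) = -((m : ℤ) + 1) ∧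
      ∑ j ∈ range (2 * m + 2), (-1 : ℤ) ^ j * ((j : ℤ) + 1) ^ 2
        = -(((m : ℤ) + 1) * (2 * (m : ℤ) + 3))) := by
  induction m with
  | zero =>
    refine ⟨⟨by simp, by simp⟩, ⟨?_, ?_⟩⟩
    · simp [Finset.sum_range_succ]
    · simp [Finset.sum_range_succ]
  | succ m ih =>
    obtain ⟨_, ⟨h3, h4⟩⟩ := ih
    have hp1 : (-1 : ℤ) ^ (2 * m + 2) = 1 := by
      rw [show 2 * m + 2 = 2 * (m + 1) by ring, pow_mul]; simp
    have hp2 : (-1 : ℤ) ^ (2 * m + 3) = -1 := by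
      rw [pow_succ, hp1]; ring
    have a1 : ∑ j ∈ range (2 * (m + 1) + 1), (-1 : ℤ) ^ j * ((j : ℤ) + 1) = ((m + 1 : ℕ) : ℤ) + 1 := by
      rw [show 2 * (m + 1) + 1 = (2 * m + 2) + 1 by ring, Finset.sum_range_succ, h3, hp1]
      push_cast
      ring
    have a2 : ∑ j ∈ range (2 * (m + 1) + 1), (-1 : ℤ) ^ j * ((j : ℤ) + 1) ^ 2
        = (2 * ((m + 1 : ℕ) : ℤ) + 1) * (((m + 1 : ℕ) : ℤ) + 1) := by
      rw [show 2 * (m + 1) + 1 = (2 * m + 2) + 1 by ring, Finset.sum_range_succ, h4, hp1]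
      push_cast
      ring
    refine ⟨⟨a1, a2⟩, ⟨?_, ?_⟩⟩
    · rw [show 2 * (m + 1) + 2 = (2 * (m + 1) + 1) + 1 by ring, Finset.sum_range_succ, a1,
        show 2 * (m + 1) + 1 = 2 * m + 3 by ring, hp2]
      push_cast
      ring
    · rw [show 2 * (m + 1) + 2 = (2 * (m + 1) + 1) + 1 by ring, Finset.sum_range_succ, a2,
        show 2 * (m + 1) + 1 = 2 * m + 3 by ring, hp2]
      push_cast
      ring

/-- The elementary inequality for prime powers.

Proof. For `e = 1` all terms are nonnegative (a sum `∑ l ∈ range (i + 1), d ^ l` is `≥ 0` for `d = 0, 1, -1`: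
`neg_one_geom_sum`), for `e = 0` only `j = 0` contributes. For `e = -1`, `d = -1` only even `i, j` contribute and the
terms are `≥ 0`. For `e = -1`, `d = 0` the sum is `∑ j ≤ k, (-1) ^ j ∈ {0, 1}`. For `e = -1`, `d = 1` it is
`∑ j ≤ k, (k - j + 1) (j + 1) (-1) ^ j`; if `k` is odd it is `0` (symmetry `j ↦ k - j`), if `k = 2 m` it is `m + 1`
(induction on `k` by steps of `2`: the difference of the sums for `k + 2` and `k` is
`∑ j ≤ k + 2, 2 (j + 1) (-1) ^ j + correction`; or prove the closed form by induction for the two sums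
`∑ (-1) ^ j (j + 1)` and `∑ (-1) ^ j (j + 1) ^ 2`). -/
theorem sgb_aux {d e : ℤ} (hd : d = 0 ∨ d = 1 ∨ d = -1) (he : e = 0 ∨ e = 1 ∨ e = -1) (k : ℕ) :
    0 ≤ ∑ j ∈ range (k + 1), (∑ l ∈ range (k - j + 1), d ^ l) * (e ^ j * ∑ l ∈ range (j + 1), d ^ l) := by
  by_cases hen : 0 ≤ e
  · exact Finset.sum_nonneg fun j _ =>
      mul_nonneg (SgA_geom hd _) (mul_nonneg (pow_nonneg hen j) (SgA_geom hd _))
  have he1 : e = -1 := by
    rcases he with h | h | h
    · exact absurd (h ▸ le_rfl) hen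
    · exact absurd (h ▸ zero_le_one) hen
    · exact h
  subst he1
  rcases hd with h | h | h
  · subst h
    have h1 : ∀ i : ℕ, ∑ l ∈ range (i + 1), (0 : ℤ) ^ l = 1 := by
      intro i
      rw [Finset.sum_range_succ']
      simp
    simp only [h1, one_mul, mul_one]
    rw [neg_one_geom_sum]
    split_ifs
    exacts [le_rfl, zero_le_one]
  · subst h
    have h1 : ∀ i : ℕ, ∑ l ∈ range (i + 1), (1 : ℤ) ^ l = (i : ℤ) + 1 := by
      intro i
      simp
    simp only [h1]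
    have h2 : ∑ j ∈ range (k + 1), (((k - j : ℕ) : ℤ) + 1) * ((-1) ^ j * ((j : ℤ) + 1))
        = ((k : ℤ) + 2) * ∑ j ∈ range (k + 1), (-1 : ℤ) ^ j * ((j : ℤ) + 1)
          - ∑ j ∈ range (k + 1), (-1 : ℤ) ^ j * ((j : ℤ) + 1) ^ 2 := by
      rw [Finset.mul_sum, ← Finset.sum_sub_distrib]
      apply Finset.sum_congr rfl
      intro j hj
      have hj' : j ≤ k := by
        have := Finset.mem_range.mp hj
        omega
      rw [Nat.cast_sub hj']
      ring
    rw [h2]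
    rcases Nat.even_or_odd' k with ⟨m, hm | hm⟩
    · obtain ⟨⟨b1, b2⟩, _⟩ := SgA_alt m
      rw [hm, b1, b2]
      push_cast
      nlinarith [Nat.zero_le m]
    · obtain ⟨_, ⟨b1, b2⟩⟩ := SgA_alt m
      rw [hm, show 2 * m + 1 + 1 = 2 * m + 2 by ring, b1, b2]
      push_cast
      apply le_of_eq
      ring
  · subst h
    apply Finset.sum_nonneg
    intro j _
    rw [neg_one_geom_sum, neg_one_geom_sum]
    rcases Nat.even_or_odd j with hj | hj
    · rw [hj.neg_one_pow]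
      split_ifs <;> simp
    · rw [if_pos hj.add_one]
      simp

theorem SgA_val {q : ℕ} {χ : DirichletCharacter ℂ q} (h : χ ^ 2 = 1) (a : ZMod q) :
    ∃ d : ℤ, (d = 0 ∨ d = 1 ∨ d = -1) ∧ χ a = (d : ℂ) := by
  rcases MulChar.isQuadratic_iff_sq_eq_one.mpr h a with h | h | h
  · exact ⟨0, Or.inl rfl, by simpa using h⟩
  · exact ⟨1, Or.inr (Or.inl rfl), by simpa using h⟩
  · exact ⟨-1, Or.inr (Or.inr rfl), by simpa using h⟩

theorem SgA_zm {q : ℕ} (χ : DirichletCharacter ℂ q) {p : ℕ} (hp : p.Prime) (k : ℕ) :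
    χ.zetaMul (p ^ k) = ∑ l ∈ range (k + 1), (χ (p : ZMod q)) ^ l := by
  simp only [zetaMul, toArithmeticFunction, coe_zeta_mul_apply, coe_mk,
    Nat.sum_divisors_prime_pow hp, pow_eq_zero_iff', hp.ne_zero, ne_eq, false_and, if_false,
    Nat.cast_pow, map_pow]

theorem SgA_pp {q₁ q₂ : ℕ} {χ₁ : DirichletCharacter ℂ q₁} {χ₂ : DirichletCharacter ℂ q₂} (h1 : χ₁ ^ 2 = 1)
    (h2 : χ₂ ^ 2 = 1) {p : ℕ} (hp : p.Prime) (k : ℕ) : 0 ≤ sgb χ₁ χ₂ (p ^ k) := by
  obtain ⟨d, hd, hd2⟩ := SgA_val h1 (p : ZMod q₁)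
  obtain ⟨e, he, he2⟩ := SgA_val h2 (p : ZMod q₂)
  have key : sgb χ₁ χ₂ (p ^ k) = ((∑ j ∈ range (k + 1), (∑ l ∈ range (k - j + 1), d ^ l) *
      (e ^ j * ∑ l ∈ range (j + 1), d ^ l) : ℤ) : ℂ) := by
    unfold sgb
    rw [ArithmeticFunction.mul_apply, Nat.sum_divisorsAntidiagonal'
      (f := fun a b => χ₁.zetaMul a * (ArithmeticFunction.pmul (toArithmeticFunction
        (fun n : ℕ => χ₂ (n : ZMod q₂))) χ₁.zetaMul) b), Nat.sum_divisors_prime_pow hp]
    push_cast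
    apply Finset.sum_congr rfl
    intro j hj
    have hj' : j ≤ k := by
      have := Finset.mem_range.mp hj
      omega
    rw [Nat.pow_div hj' hp.pos, SgA_zm χ₁ hp, hd2]
    rw [ArithmeticFunction.pmul_apply, SgA_zm χ₁ hp, hd2]
    have : toArithmeticFunction (fun n : ℕ => χ₂ (n : ZMod q₂)) (p ^ j) = (e : ℂ) ^ j := by
      simp only [toArithmeticFunction, coe_mk, pow_eq_zero_iff', hp.ne_zero, ne_eq, false_and,
        if_false, Nat.cast_pow, map_pow, he2]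
    rw [this]
  rw [key]
  exact_mod_cast sgb_aux hd he k

/-- The coefficients are nonnegative for real characters.

Proof. As `DirichletCharacter.zetaMul_nonneg`: `sgb χ₁ χ₂` is multiplicative (`isMultiplicative_zetaMul`,
`isMultiplicative_toArithmeticFunction`, `IsMultiplicative.pmul`, `IsMultiplicative.mul`), so by
`IsMultiplicative.multiplicative_factorization` it suffices to treat `n = p ^ k`, where
`sgb χ₁ χ₂ (p ^ k) = ∑ j ∈ range (k + 1), ρ (p ^ (k - j)) χ₂(p) ^ j ρ (p ^ j)` (`Nat.divisorsAntidiagonal` of a prime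
power, or `ArithmeticFunction.mul_apply` with `Nat.Prime.sum_divisorsAntidiagonal`...), with
`ρ (p ^ i) = ∑ l ∈ range (i + 1), χ₁(p) ^ l` (see `zetaMul_prime_pow_nonneg`). The values `χ₁ p`, `χ₂ p` are
`0, 1, -1` (`MulChar.isQuadratic_iff_sq_eq_one`), so this is the complex number given by the integer of `sgb_aux`. -/
theorem sgb_nonneg {q₁ q₂ : ℕ} {χ₁ : DirichletCharacter ℂ q₁} {χ₂ : DirichletCharacter ℂ q₂} (h1 : χ₁ ^ 2 = 1)
    (h2 : χ₂ ^ 2 = 1) (n : ℕ) : 0 ≤ sgb χ₁ χ₂ n := by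
  rcases eq_or_ne n 0 with rfl | hn
  · simp only [ArithmeticFunction.map_zero, le_refl]
  · rw [(SgA_mult χ₁ χ₂).multiplicative_factorization _ hn]
    apply Finset.prod_nonneg
    intro p hp
    exact SgA_pp h1 h2 (Nat.prime_of_mem_primeFactors hp) _

end Pool.Agent.Wb58c63
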