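import Pool.Agent.W_b58c63_h68.SgA

/-!
# Siegel's theorem: the L-series of the coefficients (helper49)
-/

set_option autoImplicit false

noncomputable section

open Finset DirichletCharacter ArithmeticFunction
open scoped ComplexOrder

namespace Pool.Agent.Wb58c63

theorem SgAs_toAF {q : ℕ} (χ : DirichletCharacter ℂ q) {n : ℕ} (hn : n ≠ 0) :
    toArithmeticFunction (fun n : ℕ => χ (n : ZMod q)) n = χ (n : ZMod q) := by
  simp [toArithmeticFunction, hn]

theorem SgAs_pmul {q₁ q₂ : ℕ} (χ₁ : DirichletCharacter ℂ q₁) (χ₂ : DirichletCharacter ℂ q₂) :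
    ArithmeticFunction.pmul (toArithmeticFunction (fun n : ℕ => χ₂ (n : ZMod q₂))) χ₁.zetaMul
      = toArithmeticFunction (fun n : ℕ => χ₂ (n : ZMod q₂))
        * toArithmeticFunction (fun n : ℕ => chi12 χ₁ χ₂ (n : ZMod (q₁ * q₂))) := by
  ext n
  rcases eq_or_ne n 0 with rfl | hn
  · simp
  rw [pmul_apply, zetaMul, mul_apply, mul_apply, Finset.mul_sum, SgAs_toAF χ₂ hn]
  refine Finset.sum_congr rfl fun x hx => ?_
  obtain ⟨h1, h2⟩ := Nat.mem_divisorsAntidiagonal.mp hx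
  have ha : x.1 ≠ 0 := fun h => h2 (by rw [← h1, h, zero_mul])
  have hb : x.2 ≠ 0 := fun h => h2 (by rw [← h1, h, mul_zero])
  rw [SgAs_toAF χ₂ ha, SgAs_toAF (chi12 χ₁ χ₂) hb, chi12_apply]
  have h3 : toArithmeticFunction (fun n : ℕ => χ₁ (n : ZMod q₁)) x.2 = χ₁ (x.2 : ZMod q₁) :=
    SgAs_toAF χ₁ hb
  rw [h3]
  have h4 : χ₂ (n : ZMod q₂) = χ₂ (x.1 : ZMod q₂) * χ₂ (x.2 : ZMod q₂) := by
    rw [← map_mul, ← Nat.cast_mul, h1]
  rw [h4, natCoe_apply, zeta_apply_ne ha]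
  push_cast
  ring

theorem SgAs_char {q : ℕ} [NeZero q] (χ : DirichletCharacter ℂ q) {s : ℂ} (hs : 1 < s.re) :
    LSeriesSummable (toArithmeticFunction (fun n : ℕ => χ (n : ZMod q))) s ∧
      LSeries (toArithmeticFunction (fun n : ℕ => χ (n : ZMod q))) s = LFunction χ s := by
  constructor
  · exact (LSeriesSummable_congr _ fun {n} h => (SgAs_toAF χ h).symm).mp <|
      ZMod.LSeriesSummable_of_one_lt_re χ hs
  · rw [χ.LFunction_eq_LSeries hs]
    exact LSeries_congr (fun {n} h => SgAs_toAF χ h) s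

theorem SgAs_zetaMul {q : ℕ} [NeZero q] (χ : DirichletCharacter ℂ q) {s : ℂ} (hs : 1 < s.re) :
    LSeriesSummable χ.zetaMul s ∧ LSeries χ.zetaMul s = riemannZeta s * LFunction χ s := by
  refine ⟨LSeriesSummable_zetaMul χ hs, ?_⟩
  have hz : LSeriesSummable (fun n => (((ArithmeticFunction.zeta : ArithmeticFunction ℕ) : ArithmeticFunction ℂ) n)) s := by
    have h := LSeriesSummable_zeta_iff.mpr hs
    exact h
  have h1 := ArithmeticFunction.LSeries_mul' hz (SgAs_char χ hs).1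
  rw [(SgAs_char χ hs).2] at h1
  have h2 : LSeries (fun n => (((ArithmeticFunction.zeta : ArithmeticFunction ℕ) : ArithmeticFunction ℂ) n)) s = riemannZeta s := by
    rw [← LSeries_zeta_eq_riemannZeta hs]
    rfl
  rw [h2] at h1
  exact h1

/-- The L-series of the coefficients.

Proof. `pmul (χ₂) (zetaMul χ₁) = pmul χ₂ ζ * pmul χ₂ χ₁`, i.e. `χ₂ · (ζ * χ₁) = χ₂ * (χ₂ χ₁)` as `χ₂` is completely
multiplicative (compare at `n`: `∑_{(a, b), a b = n} χ₂(n) χ₁(b) = ∑ χ₂(a) χ₂(b) χ₁(b)`), and the arithmetic function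
`χ₂ χ₁` is given by the character `chi12 χ₁ χ₂` (`chi12_apply`). Then `LSeries_convolution'` twice, as in
`LSeriesSummable_zetaMul` and Mathlib's `BadChar.F_eq_LSeries` (`NumberTheory/LSeries/Nonvanishing`),
`ArithmeticFunction.LSeriesSummable_mul`, `LFunction_eq_LSeries`, `LSeries_zeta_eq_riemannZeta`. -/
theorem sgb_series {q₁ q₂ : ℕ} [NeZero q₁] [NeZero q₂] (χ₁ : DirichletCharacter ℂ q₁)
    (χ₂ : DirichletCharacter ℂ q₂) {s : ℂ} (hs : 1 < s.re) :
    LSeriesSummable (sgb χ₁ χ₂) s ∧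
    LSeries (sgb χ₁ χ₂) s =
      riemannZeta s * LFunction χ₁ s * LFunction χ₂ s * LFunction (chi12 χ₁ χ₂) s := by
  have hz := SgAs_zetaMul χ₁ hs
  have h2 := SgAs_char χ₂ hs
  have h12 := SgAs_char (chi12 χ₁ χ₂) hs
  have hm := ArithmeticFunction.LSeriesSummable_mul h2.1 h12.1
  have hm2 := ArithmeticFunction.LSeries_mul' h2.1 h12.1
  have hs1 := ArithmeticFunction.LSeriesSummable_mul hz.1 hm
  have hs2 := ArithmeticFunction.LSeries_mul' hz.1 hm
  unfold sgb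
  rw [SgAs_pmul]
  refine ⟨hs1, ?_⟩
  rw [hs2, hm2, hz.2, h2.2, h12.2]
  ring

end Pool.Agent.Wb58c63
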