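import Pool.Agent.W_b58c63_h68.SUbA

/-!
# Siegel-Walfisz, block S: the L-function by partial sums (helper49)
-/

set_option autoImplicit false

noncomputable section

open Finset DirichletCharacter

namespace Pool.Agent.Wb58c63

/-- The partial sums. -/
def SUbB_A {r : ℕ} (χ : DirichletCharacter ℂ r) (M : ℕ) (s : ℂ) : ℂ :=
  ∑ n ∈ range M, χ (n : ZMod r) * (n : ℂ) ^ (-s)

theorem SUbB_sub {r : ℕ} [NeZero r] (χ : DirichletCharacter ℂ r) (hχ : χ ≠ 1) {N M : ℕ} (hN : 1 ≤ N)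
    (hM : N ≤ M) {s : ℂ} (hs : 0 < s.re) :
    ‖SUbB_A χ M s - SUbB_A χ N s‖ ≤ r * (1 + ‖s‖ / s.re) * (N : ℝ) ^ (-s.re) := by
  unfold SUbB_A
  rw [← Finset.sum_Ico_eq_sub _ hM]
  exact sw_tail χ hχ hN hs

theorem SUbB_pow_tendsto (c : ℝ) {δ : ℝ} (hδ : 0 < δ) :
    Filter.Tendsto (fun N : ℕ => c * (N : ℝ) ^ (-δ)) Filter.atTop (nhds 0) := by
  have h1 := ((tendsto_rpow_neg_atTop hδ).comp tendsto_natCast_atTop_atTop).const_mul c
  rw [mul_zero] at h1
  exact h1

theorem SUbB_lim {r : ℕ} [NeZero r] (χ : DirichletCharacter ℂ r) (hχ : χ ≠ 1) {s : ℂ} (hs : 0 < s.re) :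
    ∃ l : ℂ, Filter.Tendsto (fun M => SUbB_A χ M s) Filter.atTop (nhds l) := by
  apply cauchySeq_tendsto_of_complete
  rw [Metric.cauchySeq_iff']
  intro ε hε
  have h1 := (SUbB_pow_tendsto (r * (1 + ‖s‖ / s.re)) hs).eventually (gt_mem_nhds hε)
  obtain ⟨N, h2, h3⟩ := (h1.and (Filter.eventually_ge_atTop 1)).exists
  refine ⟨N, fun n hn => ?_⟩
  rw [dist_eq_norm]
  exact lt_of_le_of_lt (SUbB_sub χ hχ h3 hn hs) h2

open Classical in
/-- The limit of the partial sums. -/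
def SUbB_g {r : ℕ} [NeZero r] (χ : DirichletCharacter ℂ r) (hχ : χ ≠ 1) (s : ℂ) : ℂ :=
  if hs : 0 < s.re then (SUbB_lim χ hχ hs).choose else 0

theorem SUbB_tendsto {r : ℕ} [NeZero r] (χ : DirichletCharacter ℂ r) (hχ : χ ≠ 1) {s : ℂ} (hs : 0 < s.re) :
    Filter.Tendsto (fun M => SUbB_A χ M s) Filter.atTop (nhds (SUbB_g χ hχ s)) := by
  unfold SUbB_g
  rw [dif_pos hs]
  exact (SUbB_lim χ hχ hs).choose_spec

theorem SUbB_bound {r : ℕ} [NeZero r] (χ : DirichletCharacter ℂ r) (hχ : χ ≠ 1) {N : ℕ} (hN : 1 ≤ N)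
    {s : ℂ} (hs : 0 < s.re) :
    ‖SUbB_g χ hχ s - SUbB_A χ N s‖ ≤ r * (1 + ‖s‖ / s.re) * (N : ℝ) ^ (-s.re) := by
  have h1 := ((SUbB_tendsto χ hχ hs).sub_const (SUbB_A χ N s)).norm
  refine le_of_tendsto h1 ?_
  filter_upwards [Filter.eventually_ge_atTop N] with M hM
  exact SUbB_sub χ hχ hN hM hs

theorem SUbB_open : IsOpen {s : ℂ | 0 < s.re} := isOpen_lt continuous_const Complex.continuous_re

theorem SUbB_diff {r : ℕ} [NeZero r] (χ : DirichletCharacter ℂ r) (hχ : χ ≠ 1) :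
    DifferentiableOn ℂ (SUbB_g χ hχ) {s : ℂ | 0 < s.re} := by
  have h1 : TendstoLocallyUniformlyOn (fun M s => SUbB_A χ M s) (SUbB_g χ hχ) Filter.atTop
      {s : ℂ | 0 < s.re} := by
    rw [Metric.tendstoLocallyUniformlyOn_iff]
    intro ε hε x hx
    have hx' : 0 < x.re := hx
    have h2 : {y : ℂ | x.re / 2 < y.re ∧ ‖y‖ < ‖x‖ + 1} ∈ nhds x := by
      refine IsOpen.mem_nhds ?_ ⟨by linarith, by linarith⟩
      exact (isOpen_lt continuous_const Complex.continuous_re).inter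
        (isOpen_lt continuous_norm continuous_const)
    refine ⟨_, mem_nhdsWithin_of_mem_nhds h2, ?_⟩
    have h3 := (SUbB_pow_tendsto (r * (1 + (‖x‖ + 1) / (x.re / 2))) (half_pos hx')).eventually
      (gt_mem_nhds hε)
    filter_upwards [h3, Filter.eventually_ge_atTop 1] with N h4 h5 y hy
    obtain ⟨hy1, hy2⟩ := hy
    have hy0 : 0 < y.re := by linarith
    rw [dist_eq_norm]
    refine lt_of_le_of_lt (SUbB_bound χ hχ h5 hy0) (lt_of_le_of_lt ?_ h4)
    have hN1 : (1 : ℝ) ≤ N := by exact_mod_cast h5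
    have h6 : ‖y‖ / y.re ≤ (‖x‖ + 1) / (x.re / 2) := by
      apply div_le_div₀ (by positivity) hy2.le (by linarith) hy1.le
    have h7 : (N : ℝ) ^ (-y.re) ≤ (N : ℝ) ^ (-(x.re / 2)) :=
      Real.rpow_le_rpow_of_exponent_le hN1 (by linarith)
    have h8 : 0 ≤ ‖y‖ / y.re := div_nonneg (norm_nonneg _) hy0.le
    apply mul_le_mul _ h7 (Real.rpow_nonneg (by linarith) _) (by positivity)
    apply mul_le_mul_of_nonneg_left _ (Nat.cast_nonneg r)
    linarith
  refine h1.differentiableOn (Filter.Eventually.of_forall fun M => ?_) SUbB_open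
  unfold SUbB_A
  refine DifferentiableOn.fun_sum fun n _ => ?_
  intro s hs
  have hs' : 0 < s.re := hs
  refine (DifferentiableAt.const_mul ?_ _).differentiableWithinAt
  refine DifferentiableAt.const_cpow differentiable_id.neg.differentiableAt (Or.inr ?_)
  intro h
  have h9 : s = 0 := by simpa using h
  rw [h9] at hs'
  simp at hs'

theorem SUbB_zero {r : ℕ} [NeZero r] (χ : DirichletCharacter ℂ r) (hχ : χ ≠ 1) :
    χ ((0 : ℕ) : ZMod r) = 0 := by
  have hr : r ≠ 1 := by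
    rintro rfl
    exact hχ (Subsingleton.elim _ _)
  rw [Nat.cast_zero]
  exact χ.map_zero' hr

theorem SUbB_series {r : ℕ} [NeZero r] (χ : DirichletCharacter ℂ r) (hχ : χ ≠ 1) {s : ℂ} (hs : 1 < s.re) :
    SUbB_g χ hχ s = LFunction χ s := by
  rw [LFunction_eq_LSeries χ hs]
  have h1 : Filter.Tendsto (fun M => ∑ n ∈ range M, LSeries.term (fun n : ℕ => χ (n : ZMod r)) s n)
      Filter.atTop (nhds (LSeries (fun n : ℕ => χ (n : ZMod r)) s)) :=
    (LSeriesSummable_of_one_lt_re χ hs).hasSum.tendsto_sum_nat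
  have h2 : ∀ M, ∑ n ∈ range M, LSeries.term (fun n : ℕ => χ (n : ZMod r)) s n = SUbB_A χ M s := by
    intro M
    unfold SUbB_A
    refine Finset.sum_congr rfl fun n _ => ?_
    rcases Nat.eq_zero_or_pos n with rfl | hn
    · rw [LSeries.term_zero, SUbB_zero χ hχ, zero_mul]
    · rw [LSeries.term_of_ne_zero hn.ne', Complex.cpow_neg, div_eq_mul_inv]
  simp only [h2] at h1
  exact tendsto_nhds_unique (SUbB_tendsto χ hχ (by linarith)) h1

theorem SUbB_eq {r : ℕ} [NeZero r] (χ : DirichletCharacter ℂ r) (hχ : χ ≠ 1) {s : ℂ} (hs : 0 < s.re) :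
    SUbB_g χ hχ s = LFunction χ s := by
  have h1 : AnalyticOnNhd ℂ (SUbB_g χ hχ) {s : ℂ | 0 < s.re} :=
    (SUbB_diff χ hχ).analyticOnNhd SUbB_open
  have h2 : AnalyticOnNhd ℂ (LFunction χ) {s : ℂ | 0 < s.re} :=
    (differentiable_LFunction hχ).differentiableOn.analyticOnNhd SUbB_open
  have h3 : IsPreconnected {s : ℂ | 0 < s.re} := (convex_halfSpace_re_gt 0).isPreconnected
  have h4 : (2 : ℂ) ∈ {s : ℂ | 0 < s.re} := by
    change 0 < (2 : ℂ).re
    norm_num
  refine h1.eqOn_of_preconnected_of_eventuallyEq h2 h3 h4 ?_ hs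
  have h5 : {z : ℂ | 1 < z.re} ∈ nhds (2 : ℂ) :=
    (isOpen_lt continuous_const Complex.continuous_re).mem_nhds (by
      change 1 < (2 : ℂ).re
      norm_num)
  filter_upwards [h5] with z hz
  exact SUbB_series χ hχ hz

/-- Approximation of the L-function by partial sums on `Re s > 0`.

Proof. Let `A M s = ∑ n ∈ range M, χ n * n ^ (-s)`, an entire function of `s` for every `M` (the term `n = 0`
vanishes identically: `χ ≠ 1` implies `r ≠ 1`, so `χ 0 = 0`). By `sw_tail`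
`‖A M s - A N s‖ ≤ r (1 + ‖s‖ / s.re) N ^ (-s.re)` for `1 ≤ N ≤ M`. So `A M` is a uniform Cauchy sequence on the
compact subsets of the half plane `U = {s | 0 < s.re}`: there `‖s‖ ≤ R` and `δ ≤ s.re`, and the bound is
`r (1 + R / δ) N ^ (-δ)`. The limit `g` (define `g s` as the limit of the Cauchy sequence `A M s`;
`TendstoLocallyUniformlyOn`, `TendstoLocallyUniformlyOn.differentiableOn`) is analytic on `U`, and equal to
`LSeries χ s = LFunction χ s` for `Re s > 1` (partial sums of an absolutely convergent series,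
`HasSum.tendsto_sum_nat`, `LFunction_eq_LSeries`, `DirichletCharacter.LSeriesSummable_of_one_lt_re`; the terms of
`LSeries` are `LSeries.term`). By the identity theorem (`AnalyticOnNhd.eqOn_of_preconnected_of_eventuallyEq`, `U`
is convex) `g = LFunction χ` on `U` (`differentiable_LFunction hχ`). Let `M → ∞` in the bound. -/
theorem sw_approx {r : ℕ} [NeZero r] (χ : DirichletCharacter ℂ r) (hχ : χ ≠ 1) {N : ℕ} (hN : 1 ≤ N) {s : ℂ}
    (hs : 0 < s.re) :
    ‖LFunction χ s - ∑ n ∈ range N, χ (n : ZMod r) * (n : ℂ) ^ (-s)‖ ≤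
      r * (1 + ‖s‖ / s.re) * (N : ℝ) ^ (-s.re) := by
  rw [← SUbB_eq χ hχ hs]
  exact SUbB_bound χ hχ hN hs

end Pool.Agent.Wb58c63
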