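import Pool.Agent.W_b58c63_h68.LSb

/-!
# Gauss sums and the multiplicative large sieve (helper68)
-/

set_option autoImplicit false

noncomputable section

open Finset

namespace Pool.Agent.Wb58c63

/-- The twisted sum `∑_{b < q} conj (χ b) e (n b / q)`. -/
def gs {q : ℕ} (χ : DirichletCharacter ℂ q) (n : ℕ) : ℂ :=
  ∑ b ∈ range q, (starRingEnd ℂ) (χ (b : ZMod q)) * ee (n * ((b : ℝ) / q))

theorem LSc_sum {R : Type*} [AddCommMonoid R] {q : ℕ} [NeZero q] (f : ZMod q → R) :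
    ∑ b ∈ range q, f (b : ZMod q) = ∑ b : ZMod q, f b := by
  refine Finset.sum_bij' (fun b _ => (b : ZMod q)) (fun b _ => b.val) ?_ ?_ ?_ ?_ ?_
  · intro b _
    exact Finset.mem_univ _
  · intro b _
    exact Finset.mem_range.mpr (ZMod.val_lt b)
  · intro b hb
    exact ZMod.val_cast_of_lt (Finset.mem_range.mp hb)
  · intro b _
    exact ZMod.natCast_zmod_val b
  · intro b _
    rfl

theorem LSc_ee {q : ℕ} [NeZero q] (n b : ℕ) :
    ee (n * ((b : ℝ) / q)) = ZMod.stdAddChar ((n : ZMod q) * (b : ZMod q)) := by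
  have h1 : ((n : ZMod q) * (b : ZMod q)) = (((n * b : ℕ) : ℤ) : ZMod q) := by
    push_cast
    rfl
  rw [h1, ZMod.stdAddChar_coe]
  unfold ee
  congr 1
  push_cast
  ring

theorem LSc_gs {q : ℕ} [NeZero q] (χ : DirichletCharacter ℂ q) (n : ℕ) :
    gs χ n = gaussSum χ⁻¹ (AddChar.mulShift ZMod.stdAddChar (n : ZMod q)) := by
  unfold gs gaussSum
  rw [← LSc_sum]
  refine Finset.sum_congr rfl fun b _ => ?_
  rw [LSc_ee, AddChar.mulShift_apply, ← MulChar.star_apply', starRingEnd_apply]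

theorem LSc_shift {q : ℕ} [NeZero q] (χ : DirichletCharacter ℂ q) (hχ : χ.IsPrimitive)
    (a : ZMod q) : gaussSum χ⁻¹ (AddChar.mulShift ZMod.stdAddChar a) =
      χ a * gaussSum χ⁻¹ (ZMod.stdAddChar : AddChar (ZMod q) ℂ) := by
  have h1 : DirichletCharacter.IsPrimitive χ⁻¹ := by
    unfold DirichletCharacter.IsPrimitive at hχ ⊢
    rw [DirichletCharacter.conductor_inv]
    exact hχ
  rw [gaussSum_mulShift_of_isPrimitive _ h1, inv_inv]

/-- For a primitive character `χ n * gs χ 1 = gs χ n` for every `n`.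

Proof. For `(n, q) = 1` substitute `b ↦ n b`. For `(n, q) > 1` both sides are zero:
`gaussSum_mulShift_of_isPrimitive` (`Mathlib.NumberTheory.DirichletCharacter.GaussSum`) for the character
`χ⁻¹` (which is primitive, `conductor_inv`), with the additive character `ZMod.stdAddChar` or `toCircle`
(`ee (n b / q)` is its value at `n b`). -/
theorem gs_mul {q : ℕ} [NeZero q] (χ : DirichletCharacter ℂ q) (hχ : χ.IsPrimitive) (n : ℕ) :
    χ (n : ZMod q) * gs χ 1 = gs χ n := by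
  rw [LSc_gs, LSc_gs, LSc_shift χ hχ, LSc_shift χ hχ, Nat.cast_one, map_one, one_mul]

theorem LSc_one {q : ℕ} [NeZero q] (χ : DirichletCharacter ℂ q) :
    gs χ 1 = gaussSum χ⁻¹ (ZMod.stdAddChar : AddChar (ZMod q) ℂ) := by
  rw [LSc_gs, Nat.cast_one, AddChar.mulShift_one]

/-- `|gs χ 1| ^ 2 = q` for a primitive character.

Proof. Parseval: `∑_{n < q} |gs χ n| ^ 2 = q ∑_{b < q} |χ b| ^ 2 = q φ(q)`; by `gs_mul` the left side is
`|gs χ 1| ^ 2 φ(q)`. -/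
theorem gs_norm {q : ℕ} [NeZero q] (χ : DirichletCharacter ℂ q) (hχ : χ.IsPrimitive) :
    ‖gs χ 1‖ ^ 2 = q := by
  have h1 : ((‖gs χ 1‖ ^ 2 : ℝ) : ℂ) = (q : ℂ) := by
    rw [Complex.ofReal_pow, ← Complex.mul_conj', LSc_one, starRingEnd_apply, star_gaussSum_eq,
      inv_inv]
    have h2 : gaussSum χ⁻¹ (ZMod.stdAddChar : AddChar (ZMod q) ℂ) *
        gaussSum χ (ZMod.stdAddChar : AddChar (ZMod q) ℂ)⁻¹ =
        ∑ b : ZMod q, ∑ c : ZMod q,
          χ⁻¹ c * (ZMod.stdAddChar : AddChar (ZMod q) ℂ) (b * (c - 1)) := by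
      have h3 : gaussSum χ (ZMod.stdAddChar : AddChar (ZMod q) ℂ)⁻¹ =
          ∑ b : ZMod q, χ b * (ZMod.stdAddChar : AddChar (ZMod q) ℂ)⁻¹ b := rfl
      rw [h3, Finset.mul_sum]
      refine Finset.sum_congr rfl fun b _ => ?_
      have h4 := LSc_shift χ hχ b
      have h5 : gaussSum χ⁻¹ (ZMod.stdAddChar : AddChar (ZMod q) ℂ) *
          (χ b * (ZMod.stdAddChar : AddChar (ZMod q) ℂ)⁻¹ b) =
          gaussSum χ⁻¹ (AddChar.mulShift ZMod.stdAddChar b) *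
          (ZMod.stdAddChar : AddChar (ZMod q) ℂ)⁻¹ b := by
        rw [h4]
        ring
      rw [h5]
      unfold gaussSum
      rw [Finset.sum_mul]
      refine Finset.sum_congr rfl fun c _ => ?_
      rw [mul_assoc, AddChar.mulShift_apply, AddChar.inv_apply, ← AddChar.map_add_eq_mul]
      congr 2
      ring
    rw [h2, Finset.sum_comm]
    have h6 : ∀ c : ZMod q, ∑ b : ZMod q, χ⁻¹ c *
        (ZMod.stdAddChar : AddChar (ZMod q) ℂ) (b * (c - 1)) = if c = 1 then (q : ℂ) else 0 := by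
      intro c
      rw [← Finset.mul_sum, AddChar.sum_mulShift _ (ZMod.isPrimitive_stdAddChar q), ZMod.card]
      by_cases hc : c = 1
      · subst hc
        rw [if_pos (sub_self _), if_pos rfl, map_one, one_mul]
      · rw [if_neg (sub_ne_zero.mpr hc), if_neg hc, Nat.cast_zero, mul_zero]
    rw [Finset.sum_congr rfl fun c _ => h6 c, Finset.sum_ite_eq' Finset.univ (1 : ZMod q),
      if_pos (Finset.mem_univ _)]
  exact_mod_cast h1

theorem LSc_orth {q : ℕ} [NeZero q] (b c : ZMod q) :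
    ∑ χ : DirichletCharacter ℂ q, (starRingEnd ℂ) (χ b) * χ c =
      if b = c ∧ IsUnit b then (q.totient : ℂ) else 0 := by
  by_cases hb : IsUnit b
  · have h1 := DirichletCharacter.sum_char_inv_mul_char_eq ℂ hb c
    have h2 : ∑ χ : DirichletCharacter ℂ q, (starRingEnd ℂ) (χ b) * χ c =
        ∑ χ : DirichletCharacter ℂ q, χ b⁻¹ * χ c := by
      refine Finset.sum_congr rfl fun χ _ => ?_
      congr 1
      rw [starRingEnd_apply, MulChar.star_apply', MulChar.inv_apply]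
      congr 1
      obtain ⟨u, rfl⟩ := hb
      rw [Ring.inverse_unit, ZMod.inv_coe_unit]
    rw [h2, h1]
    by_cases hbc : b = c
    · rw [if_pos hbc, if_pos ⟨hbc, hb⟩]
    · rw [if_neg hbc, if_neg fun h => hbc h.1]
  · rw [if_neg fun h => hb h.2]
    refine Finset.sum_eq_zero fun χ _ => ?_
    rw [MulChar.map_nonunit χ hb, map_zero, zero_mul]

theorem LSc_all {q : ℕ} [NeZero q] (F : ZMod q → ℂ) :
    ∑ χ : DirichletCharacter ℂ q, ‖∑ b : ZMod q, (starRingEnd ℂ) (χ b) * F b‖ ^ 2 =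
      q.totient * ∑ b : ZMod q, if IsUnit b then ‖F b‖ ^ 2 else 0 := by
  have h1 : ((∑ χ : DirichletCharacter ℂ q,
      ‖∑ b : ZMod q, (starRingEnd ℂ) (χ b) * F b‖ ^ 2 : ℝ) : ℂ) =
      ((q.totient * ∑ b : ZMod q, (if IsUnit b then ‖F b‖ ^ 2 else 0) : ℝ) : ℂ) := by
    rw [Complex.ofReal_sum]
    have h2 : ∀ χ : DirichletCharacter ℂ q,
        ((‖∑ b : ZMod q, (starRingEnd ℂ) (χ b) * F b‖ ^ 2 : ℝ) : ℂ) =
        ∑ b : ZMod q, ∑ c : ZMod q, F b * (starRingEnd ℂ) (F c) *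
          ((starRingEnd ℂ) (χ b) * χ c) := by
      intro χ
      rw [Complex.ofReal_pow, ← Complex.mul_conj', map_sum, Finset.sum_mul_sum]
      refine Finset.sum_congr rfl fun b _ => Finset.sum_congr rfl fun c _ => ?_
      rw [map_mul, Complex.conj_conj]
      ring
    rw [Finset.sum_congr rfl fun χ _ => h2 χ, Finset.sum_comm]
    rw [Complex.ofReal_mul, Complex.ofReal_sum, Finset.mul_sum]
    refine Finset.sum_congr rfl fun b _ => ?_
    rw [Finset.sum_comm]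
    have h3 : ∀ c : ZMod q, ∑ χ : DirichletCharacter ℂ q, F b * (starRingEnd ℂ) (F c) *
        ((starRingEnd ℂ) (χ b) * χ c) =
        if b = c then (if IsUnit b then F b * (starRingEnd ℂ) (F b) * (q.totient : ℂ) else 0)
          else 0 := by
      intro c
      rw [← Finset.mul_sum, LSc_orth]
      by_cases hbc : b = c
      · subst hbc
        by_cases hb : IsUnit b
        · rw [if_pos ⟨rfl, hb⟩, if_pos rfl, if_pos hb]
        · rw [if_neg fun h => hb h.2, if_pos rfl, if_neg hb, mul_zero]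
      · rw [if_neg fun h => hbc h.1, if_neg hbc, mul_zero]
    rw [Finset.sum_congr rfl fun c _ => h3 c, Finset.sum_ite_eq Finset.univ b,
      if_pos (Finset.mem_univ _)]
    by_cases hb : IsUnit b
    · rw [if_pos hb, if_pos hb, Complex.mul_conj']
      push_cast
      ring
    · rw [if_neg hb, if_neg hb]
      simp
  exact_mod_cast h1

theorem LSc_prim {q : ℕ} [NeZero q] (χ : DirichletCharacter ℂ q) (hχ : χ.IsPrimitive) (N : ℕ)
    (a : ℕ → ℂ) : (q : ℝ) * ‖∑ n ∈ range N, a n * χ (n : ZMod q)‖ ^ 2 =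
      ‖∑ b : ZMod q, (starRingEnd ℂ) (χ b) *
        ∑ n ∈ range N, a n * ZMod.stdAddChar ((n : ZMod q) * b)‖ ^ 2 := by
  rw [← gs_norm χ hχ, ← mul_pow, ← norm_mul, Finset.mul_sum]
  congr 2
  have h1 : ∀ n ∈ range N, gs χ 1 * (a n * χ (n : ZMod q)) =
      ∑ b : ZMod q, (starRingEnd ℂ) (χ b) * (a n * ZMod.stdAddChar ((n : ZMod q) * b)) := by
    intro n _
    have h2 := gs_mul χ hχ n
    have h3 : gs χ 1 * (a n * χ (n : ZMod q)) = a n * gs χ n := by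
      rw [← h2]
      ring
    rw [h3]
    unfold gs
    rw [← LSc_sum, Finset.mul_sum]
    refine Finset.sum_congr rfl fun b _ => ?_
    rw [LSc_ee]
    ring
  rw [Finset.sum_congr rfl h1, Finset.sum_comm]
  refine Finset.sum_congr rfl fun b _ => ?_
  rw [Finset.mul_sum]

/-- For each modulus: `(q / φ(q)) ∑_{χ primitive} |∑ a_n χ(n)| ^ 2 ≤ ∑_{b < q, (b, q) = 1} |∑ a_n e (n b / q)| ^ 2`.

Proof. By `gs_mul`, `gs_norm`: `q |∑ a_n χ(n)| ^ 2 = |∑_b conj(χ b) S(b)| ^ 2` with `S(b) = ∑ a_n e (n b / q)`. Sum over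
all characters (not only the primitive ones): `∑_χ |∑_b conj (χ b) S(b)| ^ 2 = φ(q) ∑_{(b, q) = 1} |S(b)| ^ 2`
(`DirichletCharacter.sum_char_inv_mul_char_eq`). -/
theorem prim_le_farey (q : ℕ) (hq : 1 ≤ q) (N : ℕ) (a : ℕ → ℂ) :
    (q : ℝ) / q.totient * ∑ χ ∈ prim q, ‖∑ n ∈ range N, a n * χ (n : ZMod q)‖ ^ 2 ≤
      ∑ b ∈ (range q).filter (fun b => Nat.Coprime b q),
        ‖∑ n ∈ range N, a n * ee (n * ((b : ℝ) / q))‖ ^ 2 := by
  have : NeZero q := ⟨by omega⟩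
  have hφ : (0 : ℝ) < q.totient := by
    have : 0 < q.totient := Nat.totient_pos.mpr (by omega)
    exact_mod_cast this
  have h1 : (q : ℝ) * ∑ χ ∈ prim q, ‖∑ n ∈ range N, a n * χ (n : ZMod q)‖ ^ 2 ≤
      q.totient * ∑ b : ZMod q, if IsUnit b then
        ‖∑ n ∈ range N, a n * ZMod.stdAddChar ((n : ZMod q) * b)‖ ^ 2 else 0 := by
    rw [← LSc_all, Finset.mul_sum]
    refine le_trans (le_of_eq ?_) (Finset.sum_le_sum_of_subset_of_nonneg
      (Finset.subset_univ (prim q)) fun _ _ _ => sq_nonneg _)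
    refine Finset.sum_congr rfl fun χ hχ => ?_
    classical
    have hχ2 : χ.IsPrimitive := by
      simpa [prim] using hχ
    exact LSc_prim χ hχ2 N a
  have h2 : (∑ b : ZMod q, if IsUnit b then
        ‖∑ n ∈ range N, a n * ZMod.stdAddChar ((n : ZMod q) * b)‖ ^ 2 else 0) =
      ∑ b ∈ (range q).filter (fun b => Nat.Coprime b q),
        ‖∑ n ∈ range N, a n * ee (n * ((b : ℝ) / q))‖ ^ 2 := by
    rw [← LSc_sum, Finset.sum_filter]
    refine Finset.sum_congr rfl fun b _ => ?_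
    have h3 : IsUnit (b : ZMod q) ↔ Nat.Coprime b q := ZMod.isUnit_iff_coprime b q
    by_cases hb : Nat.Coprime b q
    · rw [if_pos (h3.mpr hb), if_pos hb]
      congr 2
      refine Finset.sum_congr rfl fun n _ => ?_
      rw [LSc_ee]
    · rw [if_neg fun h => hb (h3.mp h), if_neg hb]
  rw [h2] at h1
  rw [div_mul_eq_mul_div, div_le_iff₀ hφ]
  linarith

theorem LSc_FS (Q : ℕ) (g : ℕ × ℕ → ℝ) : ∑ x ∈ FS Q, g x =
    ∑ q ∈ Icc 1 Q, ∑ b ∈ (range q).filter (fun b => Nat.Coprime b q), g (q, b) := by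
  unfold FS
  rw [Finset.sum_filter, Finset.sum_product]
  refine Finset.sum_congr rfl fun q hq => ?_
  rw [Finset.mem_Icc] at hq
  rw [← Finset.sum_filter]
  congr 1
  ext b
  simp only [Finset.mem_filter, Finset.mem_range]
  constructor
  · rintro ⟨_, h1, h2⟩
    exact ⟨h1, h2⟩
  · rintro ⟨h1, h2⟩
    exact ⟨by omega, h1, h2⟩

/-- **Multiplicative large sieve** (`prim_le_farey` summed over `q ≤ Q`, `farey`). -/
theorem mult_ls (Q N : ℕ) (hQ : 1 ≤ Q) (a : ℕ → ℂ) :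
    ∑ q ∈ Icc 1 Q, (q : ℝ) / q.totient * ∑ χ ∈ prim q, ‖∑ n ∈ range N, a n * χ (n : ZMod q)‖ ^ 2 ≤
      12 * ((N : ℝ) + Q ^ 2) * ∑ n ∈ range N, ‖a n‖ ^ 2 := by
  refine le_trans ?_ (farey Q N hQ a)
  rw [LSc_FS]
  refine Finset.sum_le_sum fun q hq => ?_
  rw [Finset.mem_Icc] at hq
  exact prim_le_farey q hq.1 N a

/-- **Bilinear form** (Cauchy-Schwarz and `mult_ls` twice). -/
theorem mult_ls_bil (Q M N : ℕ) (hQ : 1 ≤ Q) (a b : ℕ → ℂ) :
    ∑ q ∈ Icc 1 Q, (q : ℝ) / q.totient * ∑ χ ∈ prim q,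
        ‖∑ m ∈ range M, a m * χ (m : ZMod q)‖ * ‖∑ n ∈ range N, b n * χ (n : ZMod q)‖ ≤
      12 * Real.sqrt (((M : ℝ) + Q ^ 2) * ((N : ℝ) + Q ^ 2) * (∑ m ∈ range M, ‖a m‖ ^ 2) *
        (∑ n ∈ range N, ‖b n‖ ^ 2)) := by
  set A : ∀ q : ℕ, DirichletCharacter ℂ q → ℝ :=
    fun q χ => ‖∑ m ∈ range M, a m * χ (m : ZMod q)‖ with hA
  set B : ∀ q : ℕ, DirichletCharacter ℂ q → ℝ :=
    fun q χ => ‖∑ n ∈ range N, b n * χ (n : ZMod q)‖ with hB
  set w : ℕ → ℝ := fun q => (q : ℝ) / q.totient with hw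
  have hw0 : ∀ q, 0 ≤ w q := fun q => by
    simp only [hw]
    positivity
  have h1 : ∀ q ∈ Icc 1 Q, w q * ∑ χ ∈ prim q, A q χ * B q χ ≤
      Real.sqrt (w q * ∑ χ ∈ prim q, A q χ ^ 2) * Real.sqrt (w q * ∑ χ ∈ prim q, B q χ ^ 2) := by
    intro q _
    have h2 := Real.sum_mul_le_sqrt_mul_sqrt (prim q) (A q) (B q)
    have h3 := mul_le_mul_of_nonneg_left h2 (hw0 q)
    refine h3.trans (le_of_eq ?_)
    rw [Real.sqrt_mul (hw0 q), Real.sqrt_mul (hw0 q)]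
    have h4 := Real.mul_self_sqrt (hw0 q)
    calc w q * (Real.sqrt (∑ χ ∈ prim q, A q χ ^ 2) * Real.sqrt (∑ χ ∈ prim q, B q χ ^ 2)) =
        (Real.sqrt (w q) * Real.sqrt (w q)) *
          (Real.sqrt (∑ χ ∈ prim q, A q χ ^ 2) * Real.sqrt (∑ χ ∈ prim q, B q χ ^ 2)) := by
          rw [h4]
      _ = _ := by ring
  have h5 : ∑ q ∈ Icc 1 Q, w q * ∑ χ ∈ prim q, A q χ * B q χ ≤
      Real.sqrt (∑ q ∈ Icc 1 Q, w q * ∑ χ ∈ prim q, A q χ ^ 2) *
      Real.sqrt (∑ q ∈ Icc 1 Q, w q * ∑ χ ∈ prim q, B q χ ^ 2) := by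
    refine (Finset.sum_le_sum h1).trans ?_
    exact Real.sum_sqrt_mul_sqrt_le _
      (fun q => mul_nonneg (hw0 q) (Finset.sum_nonneg fun _ _ => sq_nonneg _))
      (fun q => mul_nonneg (hw0 q) (Finset.sum_nonneg fun _ _ => sq_nonneg _))
  have h6 := mult_ls Q M hQ a
  have h7 := mult_ls Q N hQ b
  have ha0 : 0 ≤ ∑ m ∈ range M, ‖a m‖ ^ 2 := Finset.sum_nonneg fun _ _ => sq_nonneg _
  have hb0 : 0 ≤ ∑ n ∈ range N, ‖b n‖ ^ 2 := Finset.sum_nonneg fun _ _ => sq_nonneg _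
  refine h5.trans ?_
  refine (mul_le_mul (Real.sqrt_le_sqrt h6) (Real.sqrt_le_sqrt h7) (Real.sqrt_nonneg _)
    (Real.sqrt_nonneg _)).trans (le_of_eq ?_)
  rw [← Real.sqrt_mul (by positivity)]
  have h8 : 12 * ((M : ℝ) + Q ^ 2) * (∑ m ∈ range M, ‖a m‖ ^ 2) *
      (12 * ((N : ℝ) + Q ^ 2) * ∑ n ∈ range N, ‖b n‖ ^ 2) =
      12 ^ 2 * (((M : ℝ) + Q ^ 2) * ((N : ℝ) + Q ^ 2) * (∑ m ∈ range M, ‖a m‖ ^ 2) *
        (∑ n ∈ range N, ‖b n‖ ^ 2)) := by ring
  rw [h8, Real.sqrt_mul (by positivity), Real.sqrt_sq (by norm_num)]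

end Pool.Agent.Wb58c63
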