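import Pool.Agent.W_b58c63_h68.SUbC

/-!
# Siegel-Walfisz, block S: the zeta function and the principal character on `Re s > 1` (helper49)
-/

set_option autoImplicit false

noncomputable section

open Finset DirichletCharacter

namespace Pool.Agent.Wb58c63

theorem SZeA_zeta {σ : ℝ} (hσ : 1 < σ) :
    ∑' n : ℕ, 1 / (n + 1 : ℝ) ^ σ ≤ σ / (σ - 1) := by
  have h1 := ZetaAsymptotics.zeta_limit_aux1 hσ
  have h2 : 0 ≤ ZetaAsymptotics.termTSum σ :=
    tsum_nonneg fun n => ZetaAsymptotics.term_nonneg (n + 1) σ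
  have h3 : 0 < σ - 1 := by linarith
  have h4 : σ / (σ - 1) = 1 + 1 / (σ - 1) := by
    field_simp
    ring
  have h5 : 0 ≤ σ * ZetaAsymptotics.termTSum σ := mul_nonneg (by linarith) h2
  rw [h4]
  linarith

theorem SZeA_aux {f : ℕ → ℂ} (hf : ∀ n, ‖f n‖ ≤ 1) {s : ℂ} (hs : 1 < s.re) :
    ‖LSeries f s‖ ≤ s.re / (s.re - 1) := by
  have hsum : Summable fun n => LSeries.term f s n :=
    LSeriesSummable_of_bounded_of_one_lt_re (fun n _ => hf n) hs
  have hn : Summable fun n => ‖LSeries.term f s n‖ := hsum.norm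
  have h1 : ‖LSeries f s‖ ≤ ∑' n, ‖LSeries.term f s n‖ := norm_tsum_le_tsum_norm hn
  have h2 : ∑' n, ‖LSeries.term f s n‖ = ∑' n, ‖LSeries.term f s (n + 1)‖ := by
    rw [hn.tsum_eq_zero_add, LSeries.term_zero, norm_zero, zero_add]
  have hz : Summable fun n : ℕ => 1 / (n + 1 : ℝ) ^ s.re := by
    have := (summable_nat_add_iff 1).2 (Real.summable_one_div_nat_rpow.2 hs)
    refine this.congr fun n => ?_
    push_cast
    rfl
  have h3 : ∑' n, ‖LSeries.term f s (n + 1)‖ ≤ ∑' n : ℕ, 1 / (n + 1 : ℝ) ^ s.re := by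
    refine ((summable_nat_add_iff 1).2 hn).tsum_le_tsum (fun n => ?_) hz
    rw [LSeries.norm_term_eq, if_neg (Nat.succ_ne_zero n)]
    push_cast
    have h4 : (0 : ℝ) < (n + 1 : ℝ) ^ s.re := Real.rpow_pos_of_pos (by positivity) _
    exact div_le_div_of_nonneg_right (hf _) h4.le
  rw [h2] at h1
  exact h1.trans (h3.trans (SZeA_zeta hs))

/-- The trivial upper bound.

Proof. `LFunction_eq_LSeries`; `‖χ n‖ ≤ 1`, so `‖L‖ ≤ ∑' n, 1 / (n + 1) ^ σ` with `σ = s.re`, which is at most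
`1 + 1 / (σ - 1) = σ / (σ - 1)` (`ZetaAsymptotics.zeta_limit_aux1` and `ZetaAsymptotics.term_nonneg`, or comparison
of `(n + 1) ^ (-σ)`, `n ≥ 1`, with `∫ x in n..(n + 1), x ^ (-σ)`). -/
theorem sw_triv_le {r : ℕ} [NeZero r] (χ : DirichletCharacter ℂ r) {s : ℂ} (hs : 1 < s.re) :
    ‖LFunction χ s‖ ≤ s.re / (s.re - 1) := by
  rw [LFunction_eq_LSeries χ hs]
  exact SZeA_aux (fun n => χ.norm_le_one _) hs

/-- The trivial lower bound.

Proof. `DirichletCharacter.LSeries.mul_mu_eq_one` (Mathlib, `NumberTheory/LSeries/Dirichlet`):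
`LSeries χ s * LSeries (χ μ) s = 1`, and `‖LSeries (χ μ) s‖ ≤ ∑' n, 1 / (n + 1) ^ σ ≤ σ / (σ - 1)` as in `sw_triv_le`
(`|μ| ≤ 1`). -/
theorem sw_triv_ge {r : ℕ} [NeZero r] (χ : DirichletCharacter ℂ r) {s : ℂ} (hs : 1 < s.re) :
    (s.re - 1) / s.re ≤ ‖LFunction χ s‖ := by
  rw [LFunction_eq_LSeries χ hs]
  have h1 := DirichletCharacter.LSeries.mul_mu_eq_one χ hs
  have h2 := SZeA_aux (f := (fun n : ℕ => χ n) * (fun n : ℕ => ((ArithmeticFunction.moebius n : ℤ) : ℂ)))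
    (fun n => by
      rw [Pi.mul_apply, norm_mul]
      have h3 : ‖((ArithmeticFunction.moebius n : ℤ) : ℂ)‖ ≤ 1 := by
        rw [Complex.norm_intCast]
        exact_mod_cast ArithmeticFunction.abs_moebius_le_one
      exact mul_le_one₀ (χ.norm_le_one _) (norm_nonneg _) h3) hs
  have h4 := congrArg norm h1
  rw [norm_mul, norm_one] at h4
  have h5 : 0 < s.re - 1 := by linarith
  have h6 : 0 < s.re := by linarith
  have h7 : (s.re - 1) / s.re = (s.re / (s.re - 1))⁻¹ := by rw [inv_div]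
  have h8 : 0 < s.re / (s.re - 1) := div_pos h6 h5
  rw [h7, inv_le_iff_one_le_mul₀ h8]
  exact h4.ge.trans (mul_le_mul_of_nonneg_left h2 (norm_nonneg _))

end Pool.Agent.Wb58c63
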