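import Mathlib

/-!
# Siegel-Walfisz, block S: the recursion (helper49)
-/

set_option autoImplicit false

noncomputable section

open Finset DirichletCharacter ArithmeticFunction

namespace Pool.Agent.Wb58c63

/-- `∑ χ(n) (log n) ^ j n ^ (-s)`. -/
def Lj {r : ℕ} (χ : DirichletCharacter ℂ r) (j : ℕ) (s : ℂ) : ℂ :=
  LSeries (fun n => χ (n : ZMod r) * ((Real.log n : ℝ) : ℂ) ^ j) s

/-- `∑ Λ(n) χ(n) (log n) ^ k n ^ (-s)`. -/
def Fk {r : ℕ} (χ : DirichletCharacter ℂ r) (k : ℕ) (s : ℂ) : ℂ :=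
  LSeries (fun n => χ (n : ZMod r) * ((vonMangoldt n : ℝ) : ℂ) * ((Real.log n : ℝ) : ℂ) ^ k) s

theorem SRec_iter (f : ℕ → ℂ) (j : ℕ) (n : ℕ) :
    (LSeries.logMul^[j] f) n = f n * ((Real.log n : ℝ) : ℂ) ^ j := by
  induction j with
  | zero => simp
  | succ j ih =>
    rw [Function.iterate_succ_apply', LSeries.logMul, ih, ← Complex.natCast_log, pow_succ]
    ring

theorem SRec_absc (f : ℕ → ℂ) (h : ∀ s : ℂ, 1 < s.re → LSeriesSummable f s) :
    LSeries.abscissaOfAbsConv f ≤ 1 := by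
  have := LSeries.abscissaOfAbsConv_le_of_forall_lt_LSeriesSummable (f := f) (x := 1)
    (fun y hy => h y (by simpa using hy))
  simpa using this

theorem SRec_lt {f : ℕ → ℂ} (h : ∀ s : ℂ, 1 < s.re → LSeriesSummable f s) {s : ℂ}
    (hs : 1 < s.re) : LSeries.abscissaOfAbsConv f < s.re := by
  refine (SRec_absc f h).trans_lt ?_
  exact_mod_cast hs

theorem SRec_sum (f : ℕ → ℂ) (h : ∀ s : ℂ, 1 < s.re → LSeriesSummable f s) (j : ℕ) {s : ℂ}
    (hs : 1 < s.re) : LSeriesSummable (fun n => f n * ((Real.log n : ℝ) : ℂ) ^ j) s := by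
  have h1 : LSeries.abscissaOfAbsConv (LSeries.logMul^[j] f) < s.re := by
    rw [LSeries.absicssaOfAbsConv_logPowMul]
    exact SRec_lt h hs
  have h2 := LSeriesSummable_of_abscissaOfAbsConv_lt_re h1
  have h3 : LSeries.logMul^[j] f = fun n => f n * ((Real.log n : ℝ) : ℂ) ^ j :=
    funext (SRec_iter f j)
  rwa [h3] at h2

/-- Absolute convergence.

Proof. `|log n ^ j| ≤ C n ^ δ` with `2 δ = s.re - 1` (or `LSeriesSummable_logMul_of_lt_re`, iterated: the sequence is
`logMul^[j] χ`), `Λ n ≤ log n` (`vonMangoldt_le_log`). -/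
theorem sw_summable {r : ℕ} (χ : DirichletCharacter ℂ r) (j : ℕ) {s : ℂ} (hs : 1 < s.re) :
    LSeriesSummable (fun n => χ (n : ZMod r) * ((Real.log n : ℝ) : ℂ) ^ j) s ∧
    LSeriesSummable (fun n => χ (n : ZMod r) * ((vonMangoldt n : ℝ) : ℂ) * ((Real.log n : ℝ) : ℂ) ^ j) s := by
  refine ⟨SRec_sum (fun n => χ (n : ZMod r)) (fun s hs => ?_) j hs,
    SRec_sum (fun n => χ (n : ZMod r) * ((vonMangoldt n : ℝ) : ℂ)) (fun s hs => ?_) j hs⟩
  · exact DirichletCharacter.LSeriesSummable_of_one_lt_re χ hs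
  · exact DirichletCharacter.LSeriesSummable_twist_vonMangoldt χ hs

/-- Derivatives of the L-function.

Proof. `LSeries_iteratedDeriv` (the sequence is `logMul^[j] χ`, up to the term `n = 0` which does not matter:
`Complex.log n = (Real.log n : ℂ)`), and `LFunction χ = LSeries χ` on the open set `Re s > 1`
(`LFunction_eq_LSeries`; iterated derivatives of functions which agree near `s` agree). -/
theorem sw_Lj_eq {r : ℕ} [NeZero r] (χ : DirichletCharacter ℂ r) (j : ℕ) {s : ℂ} (hs : 1 < s.re) :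
    Lj χ j s = (-1) ^ j * iteratedDeriv j (LFunction χ) s := by
  have h1 : LFunction χ =ᶠ[nhds s] LSeries (fun n : ℕ => χ (n : ZMod r)) := by
    have h2 : {z : ℂ | 1 < z.re} ∈ nhds s :=
      (isOpen_lt continuous_const Complex.continuous_re).mem_nhds hs
    filter_upwards [h2] with z hz
    exact LFunction_eq_LSeries χ hz
  rw [h1.iteratedDeriv_eq, LSeries_iteratedDeriv j (SRec_lt
    (fun s hs => DirichletCharacter.LSeriesSummable_of_one_lt_re χ hs) hs)]
  have h3 : LSeries.logMul^[j] (fun n : ℕ => χ (n : ZMod r)) =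
      fun n : ℕ => χ (n : ZMod r) * ((Real.log n : ℝ) : ℂ) ^ j := funext (SRec_iter _ j)
  rw [h3, ← mul_assoc, ← mul_pow]
  unfold Lj
  norm_num

end Pool.Agent.Wb58c63
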