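import Pool.Agent.W_b58c63_h68.Defs
import Pool.Agent.W_aaa0df_h86.MertB

/-!
# Mertens' theorems in short form (helper68)
-/

set_option autoImplicit false

noncomputable section

open Finset

namespace Pool.Agent.Wb58c63

/-- The primes in `[u, z)`. -/
def PI (u z : ℝ) : Finset ℕ := (range ⌈z⌉₊).filter fun p => p.Prime ∧ u ≤ p

theorem mem_PI {u z : ℝ} {p : ℕ} : p ∈ PI u z ↔ p.Prime ∧ u ≤ p ∧ (p : ℝ) < z := by
  unfold PI
  rw [mem_filter, mem_range, Nat.lt_ceil]
  tauto

/-- The non-prime part of the von Mangoldt function. -/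
def arb_cc (n : ℕ) : ℝ := if n.Prime then 0 else ArithmeticFunction.vonMangoldt n

/-- The prime part of `Λ (n) / n`. -/
def arb_bb (n : ℕ) : ℝ := if n.Prime then Real.log n / n else 0

lemma arb_cc_nonneg (n : ℕ) : 0 ≤ arb_cc n := by
  unfold arb_cc
  split_ifs
  · exact le_rfl
  · exact ArithmeticFunction.vonMangoldt_nonneg

lemma arb_bb_nonneg (n : ℕ) : 0 ≤ arb_bb n := by
  unfold arb_bb
  split_ifs with h
  · exact div_nonneg (Real.log_natCast_nonneg n) (Nat.cast_nonneg n)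
  · exact le_rfl

lemma arb_split (n : ℕ) : ArithmeticFunction.vonMangoldt n / n = arb_bb n + arb_cc n / n := by
  unfold arb_bb arb_cc
  split_ifs with h
  · rw [ArithmeticFunction.vonMangoldt_apply_prime h]; simp
  · simp

lemma arb_D (N : ℕ) : ∑ n ∈ Icc 1 N, arb_cc n = Chebyshev.psi N - Chebyshev.theta N := by
  unfold Chebyshev.psi Chebyshev.theta
  rw [Nat.floor_natCast, Finset.sum_filter, ← Finset.sum_sub_distrib]
  have : Icc 1 N = Ioc 0 N := by ext; simp [Nat.succ_le_iff]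
  rw [this]
  apply Finset.sum_congr rfl
  intro n _
  unfold arb_cc
  split_ifs with h
  · rw [ArithmeticFunction.vonMangoldt_apply_prime h]; simp
  · simp

lemma arb_D_le : ∃ C : ℝ, 0 ≤ C ∧ ∀ N : ℕ, ∑ n ∈ Icc 1 N, arb_cc n ≤ C * Real.sqrt N := by
  obtain ⟨C, hC⟩ := Chebyshev.psi_sub_theta_le_mul_sqrt
  refine ⟨max C 0, le_max_right _ _, fun N => ?_⟩
  rw [arb_D]
  exact (hC N).trans (mul_le_mul_of_nonneg_right (le_max_left _ _) (Real.sqrt_nonneg _))

lemma arb_sqrt_step (n : ℕ) (hn : 1 ≤ n) :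
    Real.sqrt n / (n * (n + 1)) ≤ 2 / Real.sqrt n - 2 / Real.sqrt (n + 1) := by
  have hn0 : (0 : ℝ) < n := by exact_mod_cast hn
  set a := Real.sqrt n with ha
  set b := Real.sqrt (n + 1) with hb
  have ha0 : 0 < a := Real.sqrt_pos.2 hn0
  have hb0 : 0 < b := Real.sqrt_pos.2 (by linarith)
  have ha2 : a ^ 2 = n := Real.sq_sqrt hn0.le
  have hb2 : b ^ 2 = n + 1 := Real.sq_sqrt (by linarith)
  have hab : a < b := Real.sqrt_lt_sqrt hn0.le (by linarith)
  rw [← hb2, ← ha2]
  have h1 : a / (a ^ 2 * b ^ 2) = 1 / (a * b ^ 2) := by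
    field_simp
  have h2 : 2 / a - 2 / b = 2 * (b - a) / (a * b) := by
    field_simp
  rw [h1, h2, div_le_div_iff₀ (by positivity) (by positivity)]
  have h3 : 1 = (b - a) * (b + a) := by
    have : b ^ 2 - a ^ 2 = 1 := by rw [ha2, hb2]; ring
    nlinarith
  have h4 : 1 ≤ 2 * (b - a) * b := by nlinarith
  calc 1 * (a * b) = a * b * 1 := by ring
    _ ≤ a * b * (2 * (b - a) * b) := mul_le_mul_of_nonneg_left h4 (by positivity)
    _ = 2 * (b - a) * (a * b ^ 2) := by ring

lemma arb_S : ∃ C : ℝ, 0 ≤ C ∧ ∀ N : ℕ, ∑ n ∈ Icc 1 N, arb_cc n / n ≤ C := by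
  obtain ⟨C, hC0, hC⟩ := arb_D_le
  refine ⟨2 * C, by linarith, fun N => ?_⟩
  rcases Nat.eq_zero_or_pos N with h0 | h0
  · subst h0; simpa using hC0
  have key : ∀ N : ℕ, 1 ≤ N → ∑ n ∈ Icc 1 N, arb_cc n / n ≤
      (∑ n ∈ Icc 1 N, arb_cc n) / N + C * (2 - 2 / Real.sqrt N) := by
    intro N hN
    induction N, hN using Nat.le_induction with
    | base => simp
    | succ N hN ih =>
      have hN0 : (0 : ℝ) < N := by exact_mod_cast hN
      rw [Finset.sum_Icc_succ_top (by omega), Finset.sum_Icc_succ_top (by omega)]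
      push_cast
      set D := ∑ n ∈ Icc 1 N, arb_cc n with hD
      have h1 := arb_sqrt_step N hN
      have h2 : D / (N * (N + 1)) ≤ C * (Real.sqrt N / (N * (N + 1))) := by
        rw [mul_div_assoc']
        exact div_le_div_of_nonneg_right (hC N) (by positivity)
      have h3 : D / N = D / (N + 1) + D / (N * (N + 1)) := by
        field_simp
      have h4 : C * (Real.sqrt N / (N * (N + 1))) ≤
          C * (2 / Real.sqrt N - 2 / Real.sqrt (N + 1)) := mul_le_mul_of_nonneg_left h1 hC0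
      rw [add_div]
      have h5 : C * (2 - 2 / Real.sqrt N) + C * (2 / Real.sqrt N - 2 / Real.sqrt (N + 1)) =
        C * (2 - 2 / Real.sqrt (N + 1)) := by ring
      linarith
  have hN0 : (0 : ℝ) < N := by exact_mod_cast h0
  have h1 := key N h0
  have h2 : (∑ n ∈ Icc 1 N, arb_cc n) / N ≤ C / Real.sqrt N := by
    have h3 : (∑ n ∈ Icc 1 N, arb_cc n) / N ≤ C * Real.sqrt N / N :=
      div_le_div_of_nonneg_right (hC N) hN0.le
    refine h3.trans (le_of_eq ?_)
    have hs : Real.sqrt N ≠ 0 := (Real.sqrt_pos.2 hN0).ne'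
    have hs2 : (N : ℝ) = Real.sqrt N * Real.sqrt N := (Real.mul_self_sqrt hN0.le).symm
    nth_rewrite 2 [hs2]
    field_simp
  have h3 : 0 ≤ C / Real.sqrt N := div_nonneg hC0 (Real.sqrt_nonneg _)
  have h4 : C * (2 - 2 / Real.sqrt N) = 2 * C - 2 * (C / Real.sqrt N) := by ring
  linarith

/-- `|∑_{p ≤ N} log p / p - log N| ≤ C`. -/
lemma arb_A : ∃ C : ℝ, 0 < C ∧ ∀ N : ℕ, 1 ≤ N → |∑ n ∈ Icc 1 N, arb_bb n - Real.log N| ≤ C := by
  obtain ⟨C1, hC1, h1⟩ := arb_S
  obtain ⟨C2, hC2, h2⟩ := Twist.mertens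
  refine ⟨C1 + C2 + 1, by linarith, fun N hN => ?_⟩
  have hN0 : (0 : ℝ) < N := by exact_mod_cast hN
  have h3 := h2 (Real.log N) (Real.log_natCast_nonneg N)
  have h4 : Twist.ML (Real.log N) = ∑ n ∈ Icc 1 N, arb_bb n + ∑ n ∈ Icc 1 N, arb_cc n / n := by
    unfold Twist.ML Twist.S Twist.lam
    rw [Real.exp_log hN0, Nat.floor_natCast, ← Finset.sum_add_distrib]
    exact Finset.sum_congr rfl (fun n _ => arb_split n)
  have h5 := h1 N
  have h6 : 0 ≤ ∑ n ∈ Icc 1 N, arb_cc n / n :=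
    Finset.sum_nonneg (fun n _ => div_nonneg (arb_cc_nonneg n) (Nat.cast_nonneg n))
  rw [abs_le] at h3 ⊢
  constructor <;> linarith [h3.1, h3.2]

/-- the largest integer below `z` -/
lemma arb_ceil {z : ℝ} (hz : 2 ≤ z) : ∃ N : ℕ, 1 ≤ N ∧ ⌈z⌉₊ = N + 1 ∧ (N : ℝ) < z ∧ z ≤ N + 1 := by
  have h1 : 2 ≤ ⌈z⌉₊ := by
    have : (1 : ℝ) < z := by linarith
    exact Nat.lt_ceil.2 (by exact_mod_cast this)
  refine ⟨⌈z⌉₊ - 1, by omega, by omega, ?_, ?_⟩
  · exact Nat.lt_ceil.1 (by omega)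
  · have := Nat.le_ceil z
    have h2 : ((⌈z⌉₊ - 1 : ℕ) : ℝ) + 1 = (⌈z⌉₊ : ℝ) := by
      rw [Nat.cast_sub (by omega)]; push_cast; ring
    linarith

/-- Mertens' first theorem for primes: from the version with `Λ` (`mertens` in
`Pool/Agent/W_aaa0df_h86/MertB.lean`, `ML t = ∑_{n ≤ e ^ t} Λ(n) / n`), the prime powers contribute
`∑_p log p / (p (p - 1)) = O(1)`. Alternatively directly from `log n! = ∑_d Λ(d) ⌊n / d⌋`. -/
theorem mertens_one : ∃ C : ℝ, 0 < C ∧ ∀ z : ℝ, 2 ≤ z →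
    |∑ p ∈ PI 0 z, Real.log p / p - Real.log z| ≤ C := by
  obtain ⟨C, hC, h⟩ := arb_A
  refine ⟨C + 1, by linarith, fun z hz => ?_⟩
  obtain ⟨N, hN, hc, hNz, hzN⟩ := arb_ceil hz
  have hN0 : (0 : ℝ) < N := by exact_mod_cast hN
  have h1 : ∑ p ∈ PI 0 z, Real.log p / p = ∑ n ∈ Icc 1 N, arb_bb n := by
    unfold PI arb_bb
    rw [← Finset.sum_filter, hc]
    apply Finset.sum_congr _ (fun _ _ => rfl)
    ext p
    simp only [mem_filter, mem_range, mem_Icc, Nat.cast_nonneg, and_true]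
    constructor
    · rintro ⟨h1, h2⟩
      exact ⟨⟨h2.one_lt.le, by omega⟩, h2⟩
    · rintro ⟨⟨_, h1⟩, h2⟩
      exact ⟨by omega, h2⟩
  rw [h1]
  have h2 := h N hN
  have h3 : Real.log N ≤ Real.log z := Real.log_le_log hN0 hNz.le
  have h4 : Real.log z ≤ Real.log N + Real.log 2 := by
    rw [← Real.log_mul hN0.ne' (by norm_num)]
    apply Real.log_le_log (by linarith)
    have : (1 : ℝ) ≤ N := by exact_mod_cast hN
    linarith
  have h5 : Real.log 2 ≤ 1 := by
    have := Real.log_two_lt_d9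
    linarith
  rw [abs_le] at h2 ⊢
  constructor <;> linarith [h2.1, h2.2]

/-- Partial summation over the integers. -/
lemma arb_abel {C : ℝ} (hC : ∀ N : ℕ, 1 ≤ N → |∑ n ∈ Icc 1 N, arb_bb n - Real.log N| ≤ C)
    (U : ℕ) (hU : 2 ≤ U) (N : ℕ) (hN : U ≤ N) :
    ∑ n ∈ Icc U N, arb_bb n / Real.log n ≤
      (∑ n ∈ Icc 1 N, arb_bb n) / Real.log N - (∑ n ∈ Icc 1 (U - 1), arb_bb n) / Real.log U
      + Real.log (Real.log N) - Real.log (Real.log U) + C * (1 / Real.log U - 1 / Real.log N) := by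
  induction N, hN using Nat.le_induction with
  | base =>
    rw [Finset.Icc_self, Finset.sum_singleton]
    have h1 : ∑ n ∈ Icc 1 U, arb_bb n = ∑ n ∈ Icc 1 (U - 1), arb_bb n + arb_bb U := by
      obtain ⟨V, rfl⟩ : ∃ V, U = V + 1 := ⟨U - 1, by omega⟩
      rw [Finset.sum_Icc_succ_top (by omega)]
      simp
    rw [h1, add_div]
    apply le_of_eq
    ring
  | succ N hN ih =>
    have hN2 : (2 : ℝ) ≤ N := by exact_mod_cast (hU.trans hN)
    rw [Finset.sum_Icc_succ_top (by omega), Finset.sum_Icc_succ_top (a := 1) (by omega)]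
    push_cast
    set A := ∑ n ∈ Icc 1 N, arb_bb n with hA
    have h1 := (abs_le.1 (hC N (by omega))).2
    rw [← hA] at h1
    set x := Real.log N with hx
    set y := Real.log ((N : ℝ) + 1) with hy
    have hx0 : 0 < x := Real.log_pos (by linarith)
    have hxy : x < y := Real.log_lt_log (by linarith) (by linarith)
    have hy0 : 0 < y := hx0.trans hxy
    have h2 : 1 - x / y ≤ Real.log y - Real.log x := by
      rw [← Real.log_div hy0.ne' hx0.ne']
      have := Real.one_sub_inv_le_log_of_pos (x := y / x) (by positivity)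
      rwa [inv_div] at this
    have h3 : 0 ≤ 1 / x - 1 / y := by
      have := one_div_le_one_div_of_le hx0 hxy.le
      linarith
    have h4 : A * (1 / x - 1 / y) ≤ (x + C) * (1 / x - 1 / y) :=
      mul_le_mul_of_nonneg_right (by linarith) h3
    have h5 : (x + C) * (1 / x - 1 / y) = 1 - x / y + C * (1 / x - 1 / y) := by
      field_simp
    have h6 : A * (1 / x - 1 / y) = A / x - A / y := by ring
    rw [add_div]
    nlinarith

/-- **Mertens' second theorem, upper bound.**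

Proof. With `A (x) = ∑_{p < x} log p / p = log x + E (x)`, `|E| ≤ C`, partial summation gives
`∑_{u ≤ p < z} 1 / p = A (z) / log z - A (u) / log u + ∫_u^z A (x) / (x (log x) ^ 2) dx
≤ log (log z / log u) + C / log z + C / log u + C ∫_u^z dx / (x (log x) ^ 2) ≤ log (log z / log u) + 4 C / log u`.
(The integral may be replaced by a discrete Abel summation.) -/
theorem mertens_two : ∃ C : ℝ, 0 < C ∧ ∀ u z : ℝ, 2 ≤ u → u ≤ z →
    ∑ p ∈ PI u z, (1 : ℝ) / p ≤ Real.log (Real.log z / Real.log u) + C / Real.log u := by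
  obtain ⟨C, hC, h⟩ := arb_A
  refine ⟨2 * C + 1, by linarith, fun u z hu huz => ?_⟩
  have hz : 2 ≤ z := hu.trans huz
  obtain ⟨N, hN, hc, hNz, hzN⟩ := arb_ceil hz
  have hN0 : (0 : ℝ) < N := by exact_mod_cast hN
  set U := ⌈u⌉₊ with hUdef
  have hU2 : 2 ≤ U := by
    have : (1 : ℝ) < u := by linarith
    exact Nat.lt_ceil.2 (by exact_mod_cast this)
  have huU : u ≤ U := Nat.le_ceil u
  have hlu : 0 < Real.log u := Real.log_pos (by linarith)
  have hlz : Real.log u ≤ Real.log z := Real.log_le_log (by linarith) huz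
  have h1 : ∑ p ∈ PI u z, (1 : ℝ) / p = ∑ n ∈ Icc U N, arb_bb n / Real.log n := by
    have h2 : ∀ n ∈ Icc U N, arb_bb n / Real.log n = if n.Prime then (1 : ℝ) / n else 0 := by
      intro n hn
      have hn2 : 2 ≤ n := hU2.trans (mem_Icc.1 hn).1
      have hl : Real.log n ≠ 0 := (Real.log_pos (by exact_mod_cast hn2)).ne'
      unfold arb_bb
      split_ifs with hp
      · field_simp
      · simp
    rw [Finset.sum_congr rfl h2, ← Finset.sum_filter]
    apply Finset.sum_congr _ (fun _ _ => rfl)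
    ext p
    unfold PI
    simp only [mem_filter, mem_range, mem_Icc, hc, hUdef, Nat.ceil_le]
    constructor
    · rintro ⟨h1, h2, h3⟩
      exact ⟨⟨h3, by omega⟩, h2⟩
    · rintro ⟨⟨h3, h1⟩, h2⟩
      exact ⟨by omega, h2, h3⟩
  rw [h1]
  have hrhs : 0 ≤ Real.log (Real.log z / Real.log u) := by
    apply Real.log_nonneg
    rw [le_div_iff₀ hlu]
    linarith
  by_cases hUN : U ≤ N
  · have h3 := arb_abel h U hU2 N hUN
    have hN2 : (2 : ℝ) ≤ N := by exact_mod_cast (hU2.trans hUN)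
    have hUr : (2 : ℝ) ≤ U := by exact_mod_cast hU2
    have h4 := (abs_le.1 (h N hN)).2
    have h5 := (abs_le.1 (h (U - 1) (by omega))).1
    set A := ∑ n ∈ Icc 1 N, arb_bb n with hA
    set B := ∑ n ∈ Icc 1 (U - 1), arb_bb n with hB
    set x := Real.log N with hx
    set y := Real.log U with hy
    have hx0 : 0 < x := Real.log_pos (by linarith)
    have hy0 : 0 < y := Real.log_pos (by linarith)
    have huy : Real.log u ≤ y := Real.log_le_log (by linarith) huU
    have hxz : x ≤ Real.log z := Real.log_le_log hN0 hNz.le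
    have h6 : y - Real.log 2 ≤ Real.log ((U - 1 : ℕ) : ℝ) := by
      rw [hy, ← Real.log_div (by linarith) (by norm_num)]
      apply Real.log_le_log (by linarith)
      rw [Nat.cast_sub (by omega)]
      push_cast
      linarith
    have hl2 : Real.log 2 ≤ 1 := by
      have := Real.log_two_lt_d9
      linarith
    have h7 : A / x ≤ 1 + C / x := by
      rw [div_le_iff₀ hx0, add_mul, div_mul_cancel₀ _ hx0.ne']
      linarith
    have h8 : 1 - (C + 1) / y ≤ B / y := by
      rw [le_div_iff₀ hy0, sub_mul, div_mul_cancel₀ _ hy0.ne']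
      linarith
    have h9 : C * (1 / y - 1 / x) = C / y - C / x := by ring
    have h10 : (C + 1) / y + C / y ≤ (2 * C + 1) / Real.log u := by
      rw [← add_div]
      have : C + 1 + C = 2 * C + 1 := by ring
      rw [this]
      exact div_le_div_of_nonneg_left (by linarith) hlu huy
    have h11 : Real.log x ≤ Real.log (Real.log z) := Real.log_le_log hx0 hxz
    have h12 : Real.log (Real.log u) ≤ Real.log y := Real.log_le_log hlu huy
    rw [Real.log_div (hlu.trans_le hlz).ne' hlu.ne']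
    linarith
  · rw [Finset.Icc_eq_empty hUN, Finset.sum_empty]
    have : 0 ≤ (2 * C + 1) / Real.log u := by positivity
    linarith

lemma arb_tail (U : ℕ) (hU : 2 ≤ U) (N : ℕ) :
    ∑ n ∈ Icc U N, (1 : ℝ) / (n * (n - 1)) ≤ 1 / ((U : ℝ) - 1) := by
  have hUr : (2 : ℝ) ≤ U := by exact_mod_cast hU
  by_cases hN : U ≤ N
  · have key : ∑ n ∈ Icc U N, (1 : ℝ) / (n * (n - 1)) ≤ 1 / ((U : ℝ) - 1) - 1 / N := by
      induction N, hN using Nat.le_induction with
      | base =>
        rw [Finset.Icc_self, Finset.sum_singleton]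
        apply le_of_eq
        have h1 : (U : ℝ) ≠ 0 := by linarith
        have h2 : (U : ℝ) - 1 ≠ 0 := by linarith
        field_simp
        ring
      | succ N hN ih =>
        have hN2 : (2 : ℝ) ≤ N := by exact_mod_cast (hU.trans hN)
        rw [Finset.sum_Icc_succ_top (by omega)]
        push_cast
        have h1 : (1 : ℝ) / ((N + 1) * (N + 1 - 1)) = 1 / N - 1 / (N + 1) := by
          have h1 : (N : ℝ) ≠ 0 := by linarith
          have h2 : (N : ℝ) + 1 ≠ 0 := by linarith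
          have h3 : (N : ℝ) + 1 - 1 = N := by ring
          rw [h3]
          field_simp
          ring
        rw [h1]
        linarith
    have : (0 : ℝ) ≤ 1 / N := by positivity
    linarith
  · rw [Finset.Icc_eq_empty hN, Finset.sum_empty]
    apply div_nonneg (by norm_num)
    linarith

/-- **`∑_{u ≤ p < z} 1 / (p - 1)`**: `1 / (p - 1) = 1 / p + 1 / (p (p - 1))` and
`∑_{p ≥ u} 1 / (p (p - 1)) ≤ 2 / u ≤ C / log u`. -/
theorem mertens_two' : ∃ C : ℝ, 0 < C ∧ ∀ u z : ℝ, 2 ≤ u → u ≤ z →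
    ∑ p ∈ PI u z, (1 : ℝ) / ((p : ℝ) - 1) ≤
      Real.log (Real.log z / Real.log u) + C / Real.log u := by
  obtain ⟨C, hC, h⟩ := mertens_two
  refine ⟨C + 2, by linarith, fun u z hu huz => ?_⟩
  have hz : 2 ≤ z := hu.trans huz
  obtain ⟨N, hN, hc, hNz, hzN⟩ := arb_ceil hz
  set U := ⌈u⌉₊ with hUdef
  have hU2 : 2 ≤ U := by
    have : (1 : ℝ) < u := by linarith
    exact Nat.lt_ceil.2 (by exact_mod_cast this)
  have huU : u ≤ U := Nat.le_ceil u
  have hlu : 0 < Real.log u := Real.log_pos (by linarith)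
  have h1 : ∑ p ∈ PI u z, (1 : ℝ) / ((p : ℝ) - 1) =
      ∑ p ∈ PI u z, (1 : ℝ) / p + ∑ p ∈ PI u z, (1 : ℝ) / (p * (p - 1)) := by
    rw [← Finset.sum_add_distrib]
    apply Finset.sum_congr rfl
    intro p hp
    have hp2 : (2 : ℝ) ≤ p := by exact_mod_cast (mem_PI.1 hp).1.two_le
    have h1 : (p : ℝ) ≠ 0 := by linarith
    have h2 : (p : ℝ) - 1 ≠ 0 := by linarith
    field_simp
    ring
  have h2 : ∑ p ∈ PI u z, (1 : ℝ) / (p * (p - 1)) ≤ ∑ n ∈ Icc U N, (1 : ℝ) / (n * (n - 1)) := by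
    apply Finset.sum_le_sum_of_subset_of_nonneg
    · intro p hp
      obtain ⟨h1, h2, h3⟩ := mem_PI.1 hp
      rw [mem_Icc, hUdef, Nat.ceil_le]
      refine ⟨h2, ?_⟩
      have h4 : (p : ℝ) < N + 1 := by linarith
      have h5 : p < N + 1 := by exact_mod_cast h4
      omega
    · intro n hn _
      have hn2 : (2 : ℝ) ≤ n := by exact_mod_cast hU2.trans (mem_Icc.1 hn).1
      apply div_nonneg (by norm_num)
      apply mul_nonneg <;> linarith
  have h3 := arb_tail U hU2 N
  have h4 : 1 / ((U : ℝ) - 1) ≤ 2 / Real.log u := by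
    have hUr : (2 : ℝ) ≤ U := by exact_mod_cast hU2
    have h5 : Real.log u ≤ u - 1 := Real.log_le_sub_one_of_pos (by linarith)
    rw [div_le_div_iff₀ (by linarith) hlu]
    linarith
  have h5 := h u z hu huz
  rw [h1, add_div]
  linarith

end Pool.Agent.Wb58c63
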