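import Mathlib

/-!
# Sums of a nonprincipal character over intervals (helper49)
-/

set_option autoImplicit false

noncomputable section

open Finset

namespace Pool.Agent.Wb58c63

theorem CharSum_bij {r : ℕ} [NeZero r] (f : ZMod r → ℂ) (N : ℕ) :
    ∑ n ∈ Ico N (N + r), f (n : ZMod r) = ∑ a : ZMod r, f a := by
  classical
  have h1 : ∑ n ∈ Ico N (N + r), f (n : ZMod r) =
      ∑ a ∈ (Ico N (N + r)).image (fun n : ℕ => (n : ZMod r)), f a := by
    rw [Finset.sum_image]
    intro x hx y hy hxy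
    simp only [Finset.coe_Ico, Set.mem_Ico] at hx hy
    have h2 := (ZMod.natCast_eq_natCast_iff x y r).1 hxy
    rcases le_total x y with h | h
    · have h3 := (Nat.modEq_iff_dvd' h).1 h2
      have h4 : y - x = 0 := Nat.eq_zero_of_dvd_of_lt h3 (by omega)
      omega
    · have h3 := (Nat.modEq_iff_dvd' h).1 h2.symm
      have h4 : x - y = 0 := Nat.eq_zero_of_dvd_of_lt h3 (by omega)
      omega
  rw [h1]
  congr 1
  rw [Finset.eq_univ_iff_forall]
  intro a
  rw [Finset.mem_image]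
  have hr := Nat.pos_of_ne_zero (NeZero.ne r)
  refine ⟨N + (a - (N : ZMod r)).val, ?_, ?_⟩
  · rw [Finset.mem_Ico]
    have := ZMod.val_lt (a - (N : ZMod r))
    omega
  · push_cast
    rw [ZMod.natCast_zmod_val]
    ring

theorem CharSum_period {r : ℕ} [NeZero r] (χ : DirichletCharacter ℂ r) (hχ : χ ≠ 1) (N : ℕ) :
    ∑ n ∈ Ico N (N + r), χ (n : ZMod r) = 0 := by
  rw [CharSum_bij (fun a => χ a) N]
  exact MulChar.sum_eq_zero_of_ne_one hχ

/-- A nonprincipal character modulo `r` has sums over intervals bounded by `r`.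

Proof. Induction on `M - N` in steps of `r`: the sum over `r` consecutive integers is the sum over all residue
classes, which is `0` (`MulChar.sum_eq_zero_of_ne_one`); an interval of less than `r` integers gives at most `r`
terms of norm at most `1` (`DirichletCharacter.norm_le_one`). -/
theorem char_sum_Ico {r : ℕ} [NeZero r] (χ : DirichletCharacter ℂ r) (hχ : χ ≠ 1) (N M : ℕ) :
    ‖∑ n ∈ Ico N M, χ (n : ZMod r)‖ ≤ r := by
  have key : ∀ (l N : ℕ), ‖∑ n ∈ Ico N (N + l), χ (n : ZMod r)‖ ≤ r := by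
    intro l
    induction l using Nat.strong_induction_on with
    | _ l ih =>
      intro N
      by_cases h : l < r
      · refine (norm_sum_le _ _).trans ?_
        refine (Finset.sum_le_card_nsmul _ _ 1 fun n _ => χ.norm_le_one _).trans ?_
        rw [Nat.card_Ico, Nat.add_sub_cancel_left, nsmul_eq_mul, mul_one]
        exact_mod_cast h.le
      · push Not at h
        have hr := Nat.pos_of_ne_zero (NeZero.ne r)
        have h1 := Finset.sum_Ico_consecutive (fun n : ℕ => χ (n : ZMod r)) (Nat.le_add_right N r)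
          (show N + r ≤ N + l by omega)
        rw [← h1, CharSum_period χ hχ, zero_add]
        have h2 := ih (l - r) (by omega) (N + r)
        have h3 : N + r + (l - r) = N + l := by omega
        rw [h3] at h2
        exact h2
  rcases le_total N M with h | h
  · obtain ⟨l, rfl⟩ := Nat.exists_eq_add_of_le h
    exact key l N
  · rw [Finset.Ico_eq_empty_of_le h, Finset.sum_empty, norm_zero]
    exact Nat.cast_nonneg r

/-- The sums over initial segments. -/
theorem char_sum_le {r : ℕ} [NeZero r] (χ : DirichletCharacter ℂ r) (hχ : χ ≠ 1) (M : ℕ) :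
    ‖∑ n ∈ range M, χ (n : ZMod r)‖ ≤ r := by
  rw [range_eq_Ico]
  exact char_sum_Ico χ hχ 0 M

/-- Partial summation over an interval.

Proof. With `S n = ∑ m ∈ Ico N n, χ m` (norm at most `r` by `char_sum_Ico`) the sum is
`∑ n ∈ Ico N (M + 1), (S (n + 1) - S n) ψ n = S (M + 1) ψ M - ∑ n ∈ Ico N M, S (n + 1) (ψ (n + 1) - ψ n)`; induction
on `M` starting with `M = N`. -/
theorem char_sum_abel_Ico {r : ℕ} [NeZero r] (χ : DirichletCharacter ℂ r) (hχ : χ ≠ 1) {N M : ℕ} (h : N ≤ M)
    (ψ : ℕ → ℂ) :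
    ‖∑ n ∈ Ico N (M + 1), χ (n : ZMod r) * ψ n‖ ≤
      r * (‖ψ M‖ + ∑ n ∈ Ico N M, ‖ψ (n + 1) - ψ n‖) := by
  have key : ∀ M, N ≤ M → ∑ n ∈ Ico N (M + 1), χ (n : ZMod r) * ψ n =
      (∑ n ∈ Ico N (M + 1), χ (n : ZMod r)) * ψ M -
        ∑ n ∈ Ico N M, (∑ m ∈ Ico N (n + 1), χ (m : ZMod r)) * (ψ (n + 1) - ψ n) := by
    intro M hM
    induction M, hM using Nat.le_induction with
    | base => simp
    | succ M hM ih =>
      rw [Finset.sum_Ico_succ_top (by omega : N ≤ M + 1), ih,
        Finset.sum_Ico_succ_top (by omega : N ≤ M + 1) (fun n : ℕ => χ (n : ZMod r)),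
        Finset.sum_Ico_succ_top hM (fun n => (∑ m ∈ Ico N (n + 1), χ (m : ZMod r)) * (ψ (n + 1) - ψ n))]
      ring
  rw [key M h]
  refine (norm_sub_le _ _).trans ?_
  rw [mul_add, norm_mul]
  refine add_le_add (mul_le_mul_of_nonneg_right (char_sum_Ico χ hχ _ _) (norm_nonneg _)) ?_
  refine (norm_sum_le _ _).trans ?_
  rw [Finset.mul_sum]
  refine Finset.sum_le_sum fun n _ => ?_
  rw [norm_mul]
  exact mul_le_mul_of_nonneg_right (char_sum_Ico χ hχ _ _) (norm_nonneg _)

/-- Partial summation for a weight which vanishes from `M` on.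

Proof. For `M = 0` both sides are `0`. For `M = M' + 1` use `char_sum_abel_Ico` with `N = 0` and `M'`, and
`‖ψ M'‖ = ‖ψ (M' + 1) - ψ M'‖`. -/
theorem char_sum_abel {r : ℕ} [NeZero r] (χ : DirichletCharacter ℂ r) (hχ : χ ≠ 1) (M : ℕ) (ψ : ℕ → ℂ)
    (hψ : ∀ n, M ≤ n → ψ n = 0) :
    ‖∑ n ∈ range M, χ (n : ZMod r) * ψ n‖ ≤ r * ∑ n ∈ range M, ‖ψ (n + 1) - ψ n‖ := by
  rcases M with _ | M
  · simp
  · have h1 := char_sum_abel_Ico χ hχ (Nat.zero_le M) ψ
    rw [← Finset.range_eq_Ico, ← Finset.range_eq_Ico] at h1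
    refine h1.trans (le_of_eq ?_)
    rw [Finset.sum_range_succ, hψ (M + 1) le_rfl, zero_sub, norm_neg, add_comm]

end Pool.Agent.Wb58c63
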