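import Pool.Agent.W_b58c63_h68.ArC
import Pool.Agent.W_b58c63_h68.CharSum

/-!
# The remainder in terms of primitive characters (helper68)
-/

set_option autoImplicit false

noncomputable section

open Finset

namespace Pool.Agent.Wb58c63

/-- **Characters modulo `d` and primitive characters.** A sum over all characters modulo `d`, grouped by the conductor.

Proof. `χ ↦ (conductor, primitiveCharacter)` is a bijection onto the pairs `(r, χ₁)` with `r ∣ d`, `χ₁` primitive modulo
`r`; the inverse is `changeLevel` (`changeLevel_primitiveCharacter`, `changeLevel_injective`,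
`conductor_changeLevel`). -/
theorem sum_chars (d : ℕ) (hd : 1 ≤ d) (f : DirichletCharacter ℂ d → ℂ) :
    ∑ χ : DirichletCharacter ℂ d, f χ =
      ∑ r ∈ d.divisors.attach, ∑ χ ∈ prim r.1,
        f (DirichletCharacter.changeLevel (Nat.dvd_of_mem_divisors r.2) χ) := by
  classical
  have : NeZero d := ⟨by omega⟩
  rw [Finset.sum_sigma']
  symm
  refine Finset.sum_bij (fun x _ => DirichletCharacter.changeLevel (Nat.dvd_of_mem_divisors x.1.2) x.2)
    (fun _ _ => Finset.mem_univ _) ?_ ?_ (fun _ _ => rfl)
  · rintro ⟨⟨r, hr⟩, χ⟩ h1 ⟨⟨s, hs⟩, ψ⟩ h2 h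
    simp only [Finset.mem_sigma, Finset.mem_attach, true_and] at h1 h2 h
    have h1' : χ.IsPrimitive := by
      simpa [prim] using h1
    have h2' : ψ.IsPrimitive := by
      simpa [prim] using h2
    have h3 := congrArg DirichletCharacter.conductor h
    rw [DirichletCharacter.conductor_changeLevel, DirichletCharacter.conductor_changeLevel,
      (DirichletCharacter.isPrimitive_def χ).1 h1', (DirichletCharacter.isPrimitive_def ψ).1 h2'] at h3
    subst h3
    have h4 := DirichletCharacter.changeLevel_injective _ h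
    subst h4
    rfl
  · intro χ _
    refine ⟨⟨⟨χ.conductor, Nat.mem_divisors.2 ⟨χ.conductor_dvd_level, by omega⟩⟩, χ.primitiveCharacter⟩,
      ?_, ?_⟩
    · simp only [Finset.mem_sigma, Finset.mem_attach, true_and, prim, Finset.mem_filter, Finset.mem_univ]
      exact χ.primitiveCharacter_isPrimitive
    · exact χ.changeLevel_primitiveCharacter

theorem GdA_changeLevel {r d : ℕ} (h : r ∣ d) (χ : DirichletCharacter ℂ r) (n : ℕ) (hn : n.Coprime d) :
    DirichletCharacter.changeLevel h χ (n : ZMod d) = χ (n : ZMod r) := by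
  have h1 := DirichletCharacter.changeLevel_eq_cast_of_dvd' χ h (a := (n : ℤ))
    (Nat.isCoprime_iff_coprime.2 hn)
  simpa using h1

/-- **The remainder.**

Proof. `∑_{χ mod d} conj (χ N) ∑_p ap p χ(p) = φ(d) Sd` (orthogonality,
`DirichletCharacter.sum_char_inv_mul_char_eq`, `N` is a unit). All `p` with `ap ≠ 0` are `> Y` (`aw_support`), so they
are coprime to `d` and the trivial character gives `XM`. For the other characters `sum_chars` (the trivial character
corresponds to `r = 1`) and `χ (x) = χ₁ (x)` for `x` coprime to `d`, both for `x = N` and for `x = p`. -/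
theorem er_eq (k : ℕ) (Y : ℝ) (hY : 1 ≤ Y) (d N : ℕ) (hd : 1 ≤ d)
    (hp : ∀ p : ℕ, p.Prime → p ∣ d → (p : ℝ) ≤ Y) (hN : d.Coprime N) :
    ((Er k Y N d : ℝ) : ℂ) = 1 / (d.totient : ℂ) *
      ∑ r ∈ d.divisors.filter (fun r => 1 < r), ∑ χ ∈ prim r,
        (starRingEnd ℂ) (χ (N : ZMod r)) * TT k Y χ := by
  classical
  have : NeZero d := ⟨by omega⟩
  have hφ : (d.totient : ℂ) ≠ 0 := by
    exact_mod_cast (Nat.totient_pos.2 (by omega : 0 < d)).ne'
  have hNu : IsUnit (N : ZMod d) := (ZMod.isUnit_iff_coprime N d).2 hN.symm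
  -- the full sum
  have hfull : ∑ χ : DirichletCharacter ℂ d, (starRingEnd ℂ) (χ (N : ZMod d)) * TT k Y χ =
      (d.totient : ℂ) * (Sd k Y N d : ℂ) := by
    have h1 : ∀ χ : DirichletCharacter ℂ d, (starRingEnd ℂ) (χ (N : ZMod d)) = χ ((N : ZMod d)⁻¹) := by
      intro χ
      have h2 : χ ((N : ZMod d)⁻¹) * χ (N : ZMod d) = 1 := by
        rw [← map_mul, ZMod.inv_mul_of_unit _ hNu, map_one]
      have h3 : ‖χ (N : ZMod d)‖ = 1 := by
        have := χ.unit_norm_eq_one hNu.unit
        simpa using this
      have h4 : (starRingEnd ℂ) (χ (N : ZMod d)) * χ (N : ZMod d) = 1 := by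
        rw [mul_comm, Complex.mul_conj, Complex.normSq_eq_norm_sq, h3]
        simp
      have h5 : χ (N : ZMod d) ≠ 0 := by
        intro h
        rw [h, norm_zero] at h3
        exact zero_ne_one h3
      exact mul_right_cancel₀ h5 (h4.trans h2.symm)
    calc ∑ χ : DirichletCharacter ℂ d, (starRingEnd ℂ) (χ (N : ZMod d)) * TT k Y χ
        = ∑ χ : DirichletCharacter ℂ d, ∑ p ∈ Pr Y, (ap k Y p : ℂ) *
            (χ ((N : ZMod d)⁻¹) * χ (p : ZMod d)) := by
          refine Finset.sum_congr rfl fun χ _ => ?_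
          rw [h1, TT, Finset.mul_sum]
          refine Finset.sum_congr rfl fun p _ => ?_
          ring
      _ = ∑ p ∈ Pr Y, (ap k Y p : ℂ) * (if (N : ZMod d) = (p : ZMod d) then (d.totient : ℂ) else 0) := by
          rw [Finset.sum_comm]
          refine Finset.sum_congr rfl fun p _ => ?_
          rw [← Finset.mul_sum, DirichletCharacter.sum_char_inv_mul_char_eq ℂ hNu]
      _ = (d.totient : ℂ) * (Sd k Y N d : ℂ) := by
          rw [Sd, Finset.sum_filter]
          push_cast
          rw [Finset.mul_sum]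
          refine Finset.sum_congr rfl fun p _ => ?_
          have h6 : ((N : ZMod d) = (p : ZMod d)) ↔ (p ≡ N [MOD d]) := by
            rw [ZMod.natCast_eq_natCast_iff]
            exact ⟨Nat.ModEq.symm, Nat.ModEq.symm⟩
          by_cases h7 : p ≡ N [MOD d]
          · rw [if_pos (h6.2 h7), if_pos h7]
            ring
          · rw [if_neg (fun h => h7 (h6.1 h)), if_neg h7]
            simp
  -- reduction of `TT`
  have hTT : ∀ (r : ℕ) (h : r ∣ d) (χ : DirichletCharacter ℂ r),
      TT k Y (DirichletCharacter.changeLevel h χ) = TT k Y χ := by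
    intro r h χ
    unfold TT
    refine Finset.sum_congr rfl fun p hpp => ?_
    by_cases h0 : ap k Y p = 0
    · rw [h0]
      simp
    · have h1 : aw k Y p ≠ 0 := by
        intro h2
        apply h0
        rw [ap, h2, zero_mul]
      have h2 := (aw_support k Y hY p h1).1
      have h3 : p.Prime := (mem_Pr.1 hpp).1
      have h4 : p.Coprime d := by
        rw [Nat.Prime.coprime_iff_not_dvd h3]
        intro h5
        exact absurd (hp p h3 h5) (not_le.2 h2)
      rw [GdA_changeLevel h χ p h4]
  have h1 : ∑ χ : DirichletCharacter ℂ d, (starRingEnd ℂ) (χ (N : ZMod d)) * TT k Y χ =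
      ∑ r ∈ d.divisors, ∑ χ ∈ prim r, (starRingEnd ℂ) (χ (N : ZMod r)) * TT k Y χ := by
    rw [sum_chars d hd (fun χ => (starRingEnd ℂ) (χ (N : ZMod d)) * TT k Y χ),
      ← Finset.sum_attach (s := d.divisors)
        (f := fun r => ∑ χ ∈ prim r, (starRingEnd ℂ) (χ (N : ZMod r)) * TT k Y χ)]
    refine Finset.sum_congr rfl fun r _ => ?_
    refine Finset.sum_congr rfl fun χ _ => ?_
    rw [hTT, GdA_changeLevel _ χ N hN.symm]
  have h2 : d.divisors = insert 1 (d.divisors.filter (fun r => 1 < r)) := by
    ext r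
    simp only [Finset.mem_insert, Finset.mem_filter, Nat.mem_divisors]
    constructor
    · rintro ⟨h3, h4⟩
      have h5 : 0 < r := Nat.pos_of_dvd_of_pos h3 (by omega)
      rcases Nat.lt_or_ge 1 r with h6 | h6
      · exact Or.inr ⟨⟨h3, h4⟩, h6⟩
      · exact Or.inl (by omega)
    · rintro (rfl | h3)
      · exact ⟨one_dvd _, by omega⟩
      · exact h3.1
  have h3 : ∑ χ ∈ prim 1, (starRingEnd ℂ) (χ (N : ZMod 1)) * TT k Y χ = (XM k Y : ℂ) := by
    have h4 : prim 1 = {(1 : DirichletCharacter ℂ 1)} := by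
      ext χ
      rw [Finset.mem_singleton]
      constructor
      · intro _
        exact DirichletCharacter.level_one χ
      · rintro rfl
        simp only [prim, Finset.mem_filter, Finset.mem_univ, true_and]
        exact DirichletCharacter.isPrimitive_one_level_one
    have h5 : ∀ n : ZMod 1, (1 : DirichletCharacter ℂ 1) n = 1 := by
      intro n
      have : n = 1 := Subsingleton.elim _ _
      rw [this, map_one]
    rw [h4, Finset.sum_singleton, h5, TT, XM]
    simp only [h5, map_one, one_mul, mul_one]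
    push_cast
    rfl
  have h6 : (d.totient : ℂ) * (Sd k Y N d : ℂ) = (XM k Y : ℂ) +
      ∑ r ∈ d.divisors.filter (fun r => 1 < r), ∑ χ ∈ prim r,
        (starRingEnd ℂ) (χ (N : ZMod r)) * TT k Y χ := by
    rw [← hfull, h1]
    conv_lhs => rw [h2]
    rw [Finset.sum_insert (by simp), h3]
  rw [← sub_eq_iff_eq_add'] at h6
  rw [← h6, Er]
  push_cast
  field_simp

end Pool.Agent.Wb58c63
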