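import Mathlib

/-!
# Goldbach partitions with a prime in a short interval: definitions (helper68)

For a real parameter `Y` the even numbers `N` with `Y ^ 2 / 2 < N ≤ Y ^ 2` are treated at once, with primes `p` in
the window `(Y, 2 Y)`, weighted by `ap k Y p = tp (log p - vY Y) * (log p / vY Y) ^ k * log p` (a smooth weight which
vanishes outside of the window).
-/

set_option autoImplicit false

noncomputable section

open Finset

namespace Pool.Agent.Wb58c63

/-- Half of `log 2`: the half width of the window in logarithmic scale. -/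
def l0 : ℝ := Real.log 2 / 2

/-- The tent `max 0 (1 - |y| / l0)`. -/
def tp (y : ℝ) : ℝ := max 0 (1 - |y| / l0)

/-- The centre of the window `(Y, 2 Y)` in logarithmic scale. -/
def vY (Y : ℝ) : ℝ := Real.log Y + l0

/-- The smooth weight of the integer `n`. -/
def aw (k : ℕ) (Y : ℝ) (n : ℕ) : ℝ := tp (Real.log n - vY Y) * (Real.log n / vY Y) ^ k

/-- The primes below `2 Y`. -/
def Pr (Y : ℝ) : Finset ℕ := (range ⌈2 * Y⌉₊).filter Nat.Prime

/-- The weight of the prime `p`. -/
def ap (k : ℕ) (Y : ℝ) (p : ℕ) : ℝ := aw k Y p * Real.log p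

/-- The total mass of the weights. -/
def XM (k : ℕ) (Y : ℝ) : ℝ := ∑ p ∈ Pr Y, ap k Y p

/-- The character sum over the primes. -/
def TT (k : ℕ) (Y : ℝ) {r : ℕ} (χ : DirichletCharacter ℂ r) : ℂ :=
  ∑ p ∈ Pr Y, (ap k Y p : ℂ) * χ (p : ZMod r)

/-- The mass of the residue class of `N` modulo `d`. -/
def Sd (k : ℕ) (Y : ℝ) (N d : ℕ) : ℝ := ∑ p ∈ (Pr Y).filter (fun p => p ≡ N [MOD d]), ap k Y p

/-- The remainder of the residue class of `N` modulo `d`. -/
def Er (k : ℕ) (Y : ℝ) (N d : ℕ) : ℝ := Sd k Y N d - XM k Y / (d.totient : ℝ)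

/-- A linear form in the remainders. -/
def Err (k : ℕ) (Y : ℝ) (ρ : ℕ → ℝ) (M N : ℕ) : ℝ :=
  ∑ d ∈ (Icc 1 M).filter (fun d => d.Coprime N), ρ d * Er k Y N d

open Classical in
/-- The primitive characters modulo `r`. -/
def prim (r : ℕ) : Finset (DirichletCharacter ℂ r) := univ.filter fun χ => χ.IsPrimitive

end Pool.Agent.Wb58c63
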