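import Pool.Agent.W_b58c63_h68.GdA
import Pool.Agent.W_b58c63_h68.LSc

/-!
# Second moments over characters (helper68)
-/

set_option autoImplicit false

noncomputable section

open Finset

namespace Pool.Agent.Wb58c63

/-- All characters modulo `r` against congruent pairs. -/
theorem GdC_mod (Z : Finset ℕ) (θ : ℕ → ℂ) (hθ : ∀ N, ‖θ N‖ ≤ 1) (r : ℕ) (hr : 1 ≤ r) :
    1 / (r.totient : ℝ) * ∑ χ ∈ prim r,
      ‖∑ N ∈ Z, θ N * (starRingEnd ℂ) (χ (N : ZMod r))‖ ^ 2 ≤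
      ∑ x ∈ Z ×ˢ Z, if ((x.1 : ℕ) : ZMod r) = ((x.2 : ℕ) : ZMod r) then (1 : ℝ) else 0 := by
  classical
  have : NeZero r := ⟨by omega⟩
  have hφ : (0 : ℝ) < r.totient := by
    have : 0 < r.totient := Nat.totient_pos.mpr (by omega)
    exact_mod_cast this
  set F : ZMod r → ℂ := fun b => ∑ N ∈ Z, if (N : ZMod r) = b then θ N else 0 with hF
  have h1 : ∀ χ : DirichletCharacter ℂ r, ∑ b : ZMod r, (starRingEnd ℂ) (χ b) * F b =
      ∑ N ∈ Z, θ N * (starRingEnd ℂ) (χ (N : ZMod r)) := by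
    intro χ
    simp only [hF, Finset.mul_sum]
    rw [Finset.sum_comm]
    refine Finset.sum_congr rfl fun N _ => ?_
    rw [Finset.sum_eq_single (N : ZMod r)]
    · rw [if_pos rfl, mul_comm]
    · intro b _ hb
      rw [if_neg (Ne.symm hb), mul_zero]
    · intro h
      exact absurd (Finset.mem_univ _) h
  have h2 : ∑ χ ∈ prim r, ‖∑ N ∈ Z, θ N * (starRingEnd ℂ) (χ (N : ZMod r))‖ ^ 2 ≤
      r.totient * ∑ b : ZMod r, if IsUnit b then ‖F b‖ ^ 2 else 0 := by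
    rw [← LSc_all]
    refine le_trans (le_of_eq ?_) (Finset.sum_le_sum_of_subset_of_nonneg
      (Finset.subset_univ (prim r)) fun _ _ _ => sq_nonneg _)
    exact Finset.sum_congr rfl fun χ _ => by rw [h1]
  have h3 : ∀ b : ZMod r, ‖F b‖ ≤ ∑ N ∈ Z, if (N : ZMod r) = b then (1 : ℝ) else 0 := by
    intro b
    refine (norm_sum_le _ _).trans (Finset.sum_le_sum fun N _ => ?_)
    split_ifs
    · exact hθ N
    · rw [norm_zero]
  have h4 : ∑ b : ZMod r, (if IsUnit b then ‖F b‖ ^ 2 else 0) ≤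
      ∑ x ∈ Z ×ˢ Z, if ((x.1 : ℕ) : ZMod r) = ((x.2 : ℕ) : ZMod r) then (1 : ℝ) else 0 := by
    have h5 : ∀ b : ZMod r, (if IsUnit b then ‖F b‖ ^ 2 else 0) ≤
        (∑ N ∈ Z, if (N : ZMod r) = b then (1 : ℝ) else 0) ^ 2 := by
      intro b
      split_ifs
      · exact pow_le_pow_left₀ (norm_nonneg _) (h3 b) 2
      · positivity
    refine (Finset.sum_le_sum fun b _ => h5 b).trans (le_of_eq ?_)
    simp only [sq, Finset.sum_mul_sum]
    rw [Finset.sum_comm, Finset.sum_product]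
    refine Finset.sum_congr rfl fun N _ => ?_
    rw [Finset.sum_comm]
    refine Finset.sum_congr rfl fun M _ => ?_
    rw [Finset.sum_eq_single (N : ZMod r)]
    · rw [if_pos rfl, one_mul]
      by_cases h : (N : ZMod r) = (M : ZMod r)
      · rw [if_pos h, if_pos h.symm]
      · rw [if_neg h, if_neg (Ne.symm h)]
    · intro b _ hb
      rw [if_neg (Ne.symm hb), zero_mul]
    · intro h
      exact absurd (Finset.mem_univ _) h
  rw [one_div, inv_mul_le_iff₀ hφ]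
  exact h2.trans (mul_le_mul_of_nonneg_left h4 hφ.le)

/-- Different numbers up to `X` are congruent modulo few `r`. -/
theorem GdC_count (X : ℕ) (τ₀ : ℝ)
    (hτ : ∀ h : ℕ, 1 ≤ h → h ≤ X → (h.divisors.card : ℝ) ≤ τ₀) (R N M : ℕ) (hN : N ≤ X)
    (hM : M ≤ X) (hNM : N ≠ M) :
    ∑ r ∈ Ioc R (2 * R), (if ((N : ℕ) : ZMod r) = ((M : ℕ) : ZMod r) then (1 : ℝ) else 0) ≤
      τ₀ := by
  classical
  wlog hlt : N < M generalizing N M
  · have h1 := this M N hM hN hNM.symm (by omega)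
    refine le_trans (le_of_eq ?_) h1
    refine Finset.sum_congr rfl fun r _ => ?_
    by_cases h : (N : ZMod r) = (M : ZMod r)
    · rw [if_pos h, if_pos h.symm]
    · rw [if_neg h, if_neg (Ne.symm h)]
  refine le_trans ?_ (hτ (M - N) (by omega) (by omega))
  rw [← Finset.sum_filter, Finset.sum_const, nsmul_eq_mul, mul_one]
  have h2 : (Ioc R (2 * R)).filter (fun r => ((N : ℕ) : ZMod r) = ((M : ℕ) : ZMod r)) ⊆
      (M - N).divisors := by
    intro r hr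
    rw [Finset.mem_filter] at hr
    rw [Nat.mem_divisors]
    refine ⟨?_, by omega⟩
    have h3 := (ZMod.natCast_eq_natCast_iff N M r).1 hr.2
    exact (Nat.modEq_iff_dvd' hlt.le).1 h3
  exact_mod_cast Finset.card_le_card h2

/-- **Sparse sets.**

Proof. For every `r`, summing over all characters modulo `r`:
`∑_χ |∑_{N ∈ Z} θ N conj (χ N)| ^ 2 = φ(r) ∑_{a, (a, r) = 1} |∑_{N ∈ Z, N ≡ a} θ N| ^ 2 ≤ φ(r) #{(N, N') ∈ Z ^ 2 : N ≡ N' mod r}`.
Sum over `r ∈ (R, 2 R]`: the diagonal gives `R |Z|`, for `N ≠ N'` the number of `r` with `r ∣ N - N'` is at most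
`τ (|N - N'|) ≤ τ₀`. -/
theorem z_sparse (Z : Finset ℕ) (X : ℕ) (hZ : ∀ N ∈ Z, N ≤ X) (τ₀ : ℝ)
    (hτ : ∀ h : ℕ, 1 ≤ h → h ≤ X → (h.divisors.card : ℝ) ≤ τ₀) (θ : ℕ → ℂ) (hθ : ∀ N, ‖θ N‖ ≤ 1)
    (R : ℕ) (hR : 1 ≤ R) (h0 : 0 ≤ τ₀) :
    ∑ r ∈ Ioc R (2 * R), 1 / (r.totient : ℝ) * ∑ χ ∈ prim r,
      ‖∑ N ∈ Z, θ N * (starRingEnd ℂ) (χ (N : ZMod r))‖ ^ 2 ≤
        R * (Z.card : ℝ) + τ₀ * (Z.card : ℝ) ^ 2 := by
  classical
  have h1 : ∑ r ∈ Ioc R (2 * R), 1 / (r.totient : ℝ) * ∑ χ ∈ prim r,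
      ‖∑ N ∈ Z, θ N * (starRingEnd ℂ) (χ (N : ZMod r))‖ ^ 2 ≤
      ∑ r ∈ Ioc R (2 * R), ∑ x ∈ Z ×ˢ Z,
        if ((x.1 : ℕ) : ZMod r) = ((x.2 : ℕ) : ZMod r) then (1 : ℝ) else 0 := by
    refine Finset.sum_le_sum fun r hr => ?_
    rw [Finset.mem_Ioc] at hr
    exact GdC_mod Z θ hθ r (by omega)
  refine h1.trans ?_
  rw [Finset.sum_comm]
  have h2 : ∀ x ∈ Z ×ˢ Z, ∑ r ∈ Ioc R (2 * R),
      (if ((x.1 : ℕ) : ZMod r) = ((x.2 : ℕ) : ZMod r) then (1 : ℝ) else 0) ≤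
      (if x.1 = x.2 then (R : ℝ) else 0) + τ₀ := by
    intro x hx
    rw [Finset.mem_product] at hx
    by_cases h : x.1 = x.2
    · rw [if_pos h, h]
      simp only [if_true]
      rw [Finset.sum_const, Nat.card_Ioc, nsmul_eq_mul, mul_one]
      rw [show 2 * R - R = R by omega]
      linarith
    · rw [if_neg h, zero_add]
      exact GdC_count X τ₀ hτ R x.1 x.2 (hZ _ hx.1) (hZ _ hx.2) h
  refine (Finset.sum_le_sum h2).trans (le_of_eq ?_)
  rw [Finset.sum_add_distrib, Finset.sum_const, Finset.card_product, nsmul_eq_mul,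
    Finset.sum_product]
  have h3 : ∀ N ∈ Z, ∑ M ∈ Z, (if N = M then (R : ℝ) else 0) = R := by
    intro N hN
    rw [Finset.sum_ite_eq, if_pos hN]
  rw [Finset.sum_congr rfl h3, Finset.sum_const, nsmul_eq_mul]
  push_cast
  ring

/-- dyadic form of `mult_ls` -/
theorem GdC_large (N : ℕ) (a : ℕ → ℂ) (R : ℕ) (hR : 1 ≤ R)
    (f : (r : ℕ) → DirichletCharacter ℂ r → ℝ)
    (hf : ∀ r χ, f r χ = ‖∑ n ∈ range N, a n * χ (n : ZMod r)‖) :
    ∑ r ∈ Ioc R (2 * R), 1 / (r.totient : ℝ) * ∑ χ ∈ prim r, (f r χ) ^ 2 ≤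
      12 / R * ((N : ℝ) + 4 * R ^ 2) * ∑ n ∈ range N, ‖a n‖ ^ 2 := by
  have hR0 : (0 : ℝ) < R := by exact_mod_cast hR
  have h1 := mult_ls (2 * R) N (by omega) a
  have h2 : ∑ r ∈ Ioc R (2 * R), 1 / (r.totient : ℝ) * ∑ χ ∈ prim r, (f r χ) ^ 2 ≤
      1 / R * ∑ q ∈ Icc 1 (2 * R), (q : ℝ) / q.totient *
        ∑ χ ∈ prim q, ‖∑ n ∈ range N, a n * χ (n : ZMod q)‖ ^ 2 := by
    rw [Finset.mul_sum]
    refine le_trans ?_ (Finset.sum_le_sum_of_subset_of_nonneg (s := Ioc R (2 * R)) ?_ ?_)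
    · refine Finset.sum_le_sum fun r hr => ?_
      rw [Finset.mem_Ioc] at hr
      have hφ : (0 : ℝ) < r.totient := by
        have : 0 < r.totient := Nat.totient_pos.mpr (by omega)
        exact_mod_cast this
      have hrR : (R : ℝ) ≤ r := by exact_mod_cast hr.1.le
      have h3 : ∑ χ ∈ prim r, (f r χ) ^ 2 =
          ∑ χ ∈ prim r, ‖∑ n ∈ range N, a n * χ (n : ZMod r)‖ ^ 2 :=
        Finset.sum_congr rfl fun χ _ => by rw [hf]
      rw [h3, ← mul_assoc]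
      refine mul_le_mul_of_nonneg_right ?_ (Finset.sum_nonneg fun _ _ => sq_nonneg _)
      rw [div_mul_div_comm, one_mul, div_le_div_iff₀ hφ (by positivity)]
      have := mul_le_mul_of_nonneg_right hrR hφ.le
      linarith
    · intro r hr
      rw [Finset.mem_Ioc] at hr
      rw [Finset.mem_Icc]
      omega
    · intro r _ _
      positivity
  refine h2.trans ?_
  refine (mul_le_mul_of_nonneg_left h1 (by positivity)).trans (le_of_eq ?_)
  push_cast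
  ring

/-- **Large sieve for the set `Z`**: `mult_ls` with `Q = 2 R`, range `X + 1`, coefficients `conj (θ N)` on `Z` (the norm of a
sum is the norm of its conjugate), `1 / φ(r) ≤ (1 / R) (r / φ(r))` for `r > R`. -/
theorem z_large (Z : Finset ℕ) (X : ℕ) (hZ : ∀ N ∈ Z, N ≤ X) (θ : ℕ → ℂ) (hθ : ∀ N, ‖θ N‖ ≤ 1)
    (R : ℕ) (hR : 1 ≤ R) :
    ∑ r ∈ Ioc R (2 * R), 1 / (r.totient : ℝ) * ∑ χ ∈ prim r,
      ‖∑ N ∈ Z, θ N * (starRingEnd ℂ) (χ (N : ZMod r))‖ ^ 2 ≤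
        12 / R * ((X : ℝ) + 1 + 4 * R ^ 2) * (Z.card : ℝ) := by
  classical
  set a : ℕ → ℂ := fun n => if n ∈ Z then (starRingEnd ℂ) (θ n) else 0 with ha
  have hZs : Z ⊆ range (X + 1) := fun N hN => Finset.mem_range.2 (by have := hZ N hN; omega)
  have h1 : ∀ (r : ℕ) (χ : DirichletCharacter ℂ r),
      ‖∑ N ∈ Z, θ N * (starRingEnd ℂ) (χ (N : ZMod r))‖ =
      ‖∑ n ∈ range (X + 1), a n * χ (n : ZMod r)‖ := by
    intro r χ
    rw [← RCLike.norm_conj (∑ N ∈ Z, θ N * (starRingEnd ℂ) (χ (N : ZMod r))), map_sum]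
    congr 1
    rw [← Finset.sum_subset hZs]
    · refine Finset.sum_congr rfl fun N hN => ?_
      simp only [ha]
      rw [if_pos hN, map_mul, Complex.conj_conj]
    · intro n _ hn
      simp only [ha]
      rw [if_neg hn, zero_mul]
  refine (GdC_large (X + 1) a R hR (fun r χ => ‖∑ N ∈ Z, θ N *
    (starRingEnd ℂ) (χ (N : ZMod r))‖) h1).trans ?_
  have h2 : ∑ n ∈ range (X + 1), ‖a n‖ ^ 2 ≤ Z.card := by
    rw [← Finset.sum_subset hZs]
    · rw [Finset.card_eq_sum_ones, Nat.cast_sum]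
      refine Finset.sum_le_sum fun N hN => ?_
      simp only [ha]
      rw [if_pos hN, RCLike.norm_conj, Nat.cast_one]
      exact pow_le_one₀ (norm_nonneg _) (hθ N)
    · intro n _ hn
      simp only [ha]
      rw [if_neg hn, norm_zero]
      norm_num
  push_cast
  exact mul_le_mul_of_nonneg_left h2 (by positivity)

/-- **Large sieve for the primes**: `mult_ls`, `sum_ap_sq`. -/
theorem t_large (k : ℕ) : ∃ C : ℝ, 0 < C ∧ ∀ (Y : ℝ) (R : ℕ), 3 ≤ Y → 1 ≤ R →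
    ∑ r ∈ Ioc R (2 * R), 1 / (r.totient : ℝ) * ∑ χ ∈ prim r, ‖TT k Y χ‖ ^ 2 ≤
      C / R * (Y + R ^ 2) * Y * Real.log Y := by
  classical
  obtain ⟨C, hC, hsq⟩ := sum_ap_sq k
  refine ⟨48 * C, by positivity, fun Y R hY hR => ?_⟩
  have hR0 : (0 : ℝ) < R := by exact_mod_cast hR
  set N : ℕ := ⌈2 * Y⌉₊ with hN
  set a : ℕ → ℂ := fun n => if Nat.Prime n then (ap k Y n : ℂ) else 0 with ha
  have h1 : ∀ (r : ℕ) (χ : DirichletCharacter ℂ r),
      ‖TT k Y χ‖ = ‖∑ n ∈ range N, a n * χ (n : ZMod r)‖ := by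
    intro r χ
    unfold TT Pr
    rw [Finset.sum_filter]
    congr 1
    refine Finset.sum_congr rfl fun n _ => ?_
    simp only [ha]
    split_ifs
    · rfl
    · rw [zero_mul]
  refine (GdC_large N a R hR (fun r χ => ‖TT k Y χ‖) h1).trans ?_
  have h2 : ∑ n ∈ range N, ‖a n‖ ^ 2 ≤ C * Y * Real.log Y := by
    refine le_trans (le_of_eq ?_) (hsq Y (by linarith))
    unfold Pr
    rw [Finset.sum_filter]
    refine Finset.sum_congr rfl fun n _ => ?_
    simp only [ha]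
    split_ifs
    · rw [Complex.norm_real, Real.norm_eq_abs, sq_abs]
    · rw [norm_zero]
      norm_num
  have h3 : (N : ℝ) ≤ 4 * Y := by
    have := Nat.ceil_lt_add_one (show 0 ≤ 2 * Y by linarith)
    rw [hN]
    linarith
  have hlog : 0 ≤ Real.log Y := Real.log_nonneg (by linarith)
  have hY0 : 0 < Y := by linarith
  calc 12 / R * ((N : ℝ) + 4 * R ^ 2) * ∑ n ∈ range N, ‖a n‖ ^ 2
      ≤ 12 / R * (4 * Y + 4 * R ^ 2) * (C * Y * Real.log Y) := by
        refine mul_le_mul ?_ h2 (Finset.sum_nonneg fun _ _ => sq_nonneg _) (by positivity)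
        exact mul_le_mul_of_nonneg_left (by linarith) (by positivity)
    _ = 48 * C / R * (Y + R ^ 2) * Y * Real.log Y := by ring

end Pool.Agent.Wb58c63
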