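import Pool.Agent.W_b58c63_h68.GdB
import Pool.Agent.W_b58c63_h68.GdC
import Pool.Agent.W_b58c63_h68.ArA
import Pool.Agent.W_fd120a_h34.Div

/-!
# Exceptional sets: one dyadic block of conductors (helper68)
-/

set_option autoImplicit false

noncomputable section

open Finset

namespace Pool.Agent.Wb58c63

open Classical in
/-- The exceptional set of one block. -/
def EB (k : ℕ) (Y : ℝ) (ρ : ℕ → ℝ) (M R : ℕ) (η : ℝ) : Finset ℕ :=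
  (Icc 1 ⌊Y ^ 2⌋₊).filter fun N => η * Y / Real.log Y ^ 2 < ‖ErrR k Y ρ M (Ioc R (2 * R)) N‖

theorem ExA_W_nonneg (I Z : Finset ℕ) (W : ℝ)
    (hW : ∀ θ' : ℕ → ℂ, (∀ N, ‖θ' N‖ ≤ 1) →
      ∑ r ∈ I, 1 / (r.totient : ℝ) * ∑ χ ∈ prim r,
        ‖∑ N ∈ Z, θ' N * (starRingEnd ℂ) (χ (N : ZMod r))‖ ^ 2 ≤ W) : 0 ≤ W := by
  have h := hW (fun _ => 0) (fun _ => by rw [norm_zero]; exact zero_le_one)
  refine le_trans (Finset.sum_nonneg fun r _ => ?_) h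
  exact mul_nonneg (by positivity) (Finset.sum_nonneg fun χ _ => by positivity)

theorem ExA_log_ge {Y : ℝ} (hY : 3 ≤ Y) : 1 ≤ Real.log Y := by
  have h1 : Real.exp 1 ≤ Y := (Real.exp_one_lt_d9.le.trans (by norm_num)).trans hY
  rwa [Real.le_log_iff_exp_le (by linarith)]

theorem ExA_mem {k : ℕ} {Y : ℝ} {ρ : ℕ → ℝ} {M R : ℕ} {η : ℝ} {N : ℕ} :
    N ∈ EB k Y ρ M R η ↔ (1 ≤ N ∧ N ≤ ⌊Y ^ 2⌋₊) ∧
      η * Y / Real.log Y ^ 2 < ‖ErrR k Y ρ M (Ioc R (2 * R)) N‖ := by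
  classical
  unfold EB
  rw [mem_filter, mem_Icc]

/-- The sum of the norms over the exceptional set. -/
theorem ExA_sum (k : ℕ) (Y : ℝ) (ρ : ℕ → ℝ) (M R : ℕ) (η : ℝ) :
    (((EB k Y ρ M R η).card : ℕ) : ℝ) * (η * Y / Real.log Y ^ 2) ≤
      ‖∑ N ∈ EB k Y ρ M R η,
        ((starRingEnd ℂ) (ErrR k Y ρ M (Ioc R (2 * R)) N) /
          (‖ErrR k Y ρ M (Ioc R (2 * R)) N‖ : ℂ)) * ErrR k Y ρ M (Ioc R (2 * R)) N‖ := by
  have h1 : ∀ z : ℂ, ((starRingEnd ℂ) z / (‖z‖ : ℂ)) * z = (‖z‖ : ℂ) := by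
    intro z
    by_cases hz : z = 0
    · rw [hz]; simp
    · have h2 : (‖z‖ : ℂ) ≠ 0 := by
        rw [Ne, Complex.ofReal_eq_zero, norm_eq_zero]; exact hz
      rw [div_mul_eq_mul_div, div_eq_iff h2, mul_comm ((starRingEnd ℂ) z) z, Complex.mul_conj,
        Complex.normSq_eq_norm_sq]
      push_cast
      ring
  rw [Finset.sum_congr rfl (fun N _ => h1 (ErrR k Y ρ M (Ioc R (2 * R)) N)), ← Complex.ofReal_sum,
    Complex.norm_real, Real.norm_of_nonneg (Finset.sum_nonneg fun N _ => norm_nonneg _),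
    ← nsmul_eq_mul]
  exact Finset.card_nsmul_le_sum _ _ _ fun N hN => (ExA_mem.1 hN).2.le

theorem ExA_theta (z : ℂ) : ‖(starRingEnd ℂ) z / (‖z‖ : ℂ)‖ ≤ 1 := by
  rw [norm_div, RCLike.norm_conj, Complex.norm_real, norm_norm]
  exact div_self_le_one _

/-- **Basic inequality.** For `Z = EB` and any admissible `W`:
`|Z| ^ 2 ≤ (C / η ^ 2) (log Y) ^ 7 (1 / R + R / Y) W`.

Proof. `θ N := conj (ErrR N) / ‖ErrR N‖`. Then `|Z| η Y / (log Y) ^ 2 ≤ ∑_{N ∈ Z} ‖ErrR N‖ = ∑ θ N ErrR N`, `dual_bound`,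
`sum_inv_totient` (`M ≤ Y ^ 2`, so the sum is at most `C log Y`) and `t_large`; square:
`|Z| ^ 2 η ^ 2 Y ^ 2 / (log Y) ^ 4 ≤ C (log Y) ^ 2 (1 / R) (Y + R ^ 2) Y (log Y) W`. -/
theorem eb_basic (k : ℕ) : ∃ C : ℝ, 0 < C ∧ ∀ (Y : ℝ) (ρ : ℕ → ℝ) (M R : ℕ) (η : ℝ), 3 ≤ Y →
    (∀ d, |ρ d| ≤ 1) → (∀ d, ρ d ≠ 0 → Squarefree d) → (M : ℝ) ≤ Y ^ 2 → 1 ≤ R → 0 < η →
    ∀ W : ℝ, (∀ θ' : ℕ → ℂ, (∀ N, ‖θ' N‖ ≤ 1) →
      ∑ r ∈ Ioc R (2 * R), 1 / (r.totient : ℝ) * ∑ χ ∈ prim r,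
        ‖∑ N ∈ EB k Y ρ M R η, θ' N * (starRingEnd ℂ) (χ (N : ZMod r))‖ ^ 2 ≤ W) →
      ((EB k Y ρ M R η).card : ℝ) ^ 2 ≤
        C / η ^ 2 * Real.log Y ^ 7 * (1 / R + R / Y) * W := by
  obtain ⟨C1, hC1, h1⟩ := sum_inv_totient
  obtain ⟨C2, hC2, h2⟩ := t_large k
  refine ⟨(3 * C1) ^ 2 * C2, by positivity, fun Y ρ M R η hY hρ hρ2 hM hR hη W hW => ?_⟩
  have hY0 : 0 < Y := by linarith
  have hL := ExA_log_ge hY
  have hL0 : 0 < Real.log Y := by linarith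
  have hW0 := ExA_W_nonneg _ _ W hW
  have hR0 : (0 : ℝ) < R := by exact_mod_cast hR
  have hsum : ∑ m ∈ Icc 1 M, (1 : ℝ) / m.totient ≤ 3 * C1 * Real.log Y := by
    rcases Nat.eq_zero_or_pos M with h0 | h0
    · rw [h0, Icc_eq_empty (by norm_num), sum_empty]
      positivity
    · refine (h1 M h0).trans ?_
      have h3 : Real.log M ≤ 2 * Real.log Y := by
        have h4 := Real.log_le_log (by exact_mod_cast h0) hM
        rw [Real.log_pow] at h4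
        exact_mod_cast h4
      have h5 : C1 * (1 + Real.log M) ≤ C1 * (3 * Real.log Y) :=
        mul_le_mul_of_nonneg_left (by linarith) hC1.le
      linarith
  have hT := h2 Y R hY hR
  set T := ∑ r ∈ Ioc R (2 * R), 1 / (r.totient : ℝ) * ∑ χ ∈ prim r, ‖TT k Y χ‖ ^ 2 with hTdef
  have hT0 : 0 ≤ T := Finset.sum_nonneg fun r _ =>
    mul_nonneg (by positivity) (Finset.sum_nonneg fun χ _ => by positivity)
  set K : ℝ := (((EB k Y ρ M R η).card : ℕ) : ℝ) with hK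
  have hK0 : 0 ≤ K := Nat.cast_nonneg _
  have hkey : K * (η * Y / Real.log Y ^ 2) ≤ 3 * C1 * Real.log Y * (Real.sqrt T * Real.sqrt W) := by
    refine (ExA_sum k Y ρ M R η).trans ?_
    refine (dual_bound k Y ρ hρ hρ2 M (Ioc R (2 * R)) (fun r hr => ?_) (EB k Y ρ M R η)
      (fun N => (starRingEnd ℂ) (ErrR k Y ρ M (Ioc R (2 * R)) N) /
          (‖ErrR k Y ρ M (Ioc R (2 * R)) N‖ : ℂ)) (fun N => ExA_theta _) W hW).trans ?_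
    · rw [mem_Ioc] at hr
      omega
    · exact mul_le_mul_of_nonneg_right hsum (by positivity)
  have hsq : (K * (η * Y / Real.log Y ^ 2)) ^ 2 ≤
      (3 * C1 * Real.log Y * (Real.sqrt T * Real.sqrt W)) ^ 2 :=
    pow_le_pow_left₀ (by positivity) hkey 2
  have e1 : (3 * C1 * Real.log Y * (Real.sqrt T * Real.sqrt W)) ^ 2 =
      (3 * C1) ^ 2 * Real.log Y ^ 2 * (T * W) := by
    rw [mul_pow (3 * C1 * Real.log Y), mul_pow (3 * C1), mul_pow (Real.sqrt T),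
      Real.sq_sqrt hT0, Real.sq_sqrt hW0]
  rw [e1] at hsq
  have h6 : (3 * C1) ^ 2 * Real.log Y ^ 2 * (T * W) ≤
      (3 * C1) ^ 2 * Real.log Y ^ 2 * ((C2 / R * (Y + R ^ 2) * Y * Real.log Y) * W) := by
    refine mul_le_mul_of_nonneg_left (mul_le_mul_of_nonneg_right hT hW0) (by positivity)
  have h7 := hsq.trans h6
  have e2 : (K * (η * Y / Real.log Y ^ 2)) ^ 2 = K ^ 2 * (η ^ 2 * Y ^ 2 / Real.log Y ^ 4) := by
    rw [mul_pow, div_pow, mul_pow]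
    ring
  rw [e2] at h7
  have h8 : 0 < η ^ 2 * Y ^ 2 / Real.log Y ^ 4 := by positivity
  rw [← le_div_iff₀ h8] at h7
  refine h7.trans (le_of_eq ?_)
  field_simp

/-- **Conductors below `Y ^ (1 - ε)`.**

Proof. `z_sparse` with `X = ⌊Y ^ 2⌋₊` and `τ₀ = C Y ^ (ε / 2)` (`FD120.divisor_bound`). `eb_basic`:
`K ^ 2 ≤ (C / η ^ 2) (log Y) ^ 7 (1 / R + R / Y) (R K + τ₀ K ^ 2)`. For `Y ^ (2 / 5) ≤ R ≤ Y ^ (1 - ε)` the coefficient of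
`K ^ 2` on the right is at most `C (log Y) ^ 7 (Y ^ (-2 / 5) + Y ^ (-ε)) Y ^ (ε / 2) / η ^ 2 ≤ 1 / 2` for large `Y` (`ε ≤ 1 / 2`), so
`K ≤ (2 C / η ^ 2) (log Y) ^ 7 (1 + R ^ 2 / Y)`. -/
theorem eb_low (k : ℕ) (ε η : ℝ) (hε : 0 < ε) (hε1 : ε ≤ 1 / 2) (hη : 0 < η) :
    ∃ C Y₀ : ℝ, 0 < C ∧ 3 ≤ Y₀ ∧ ∀ (Y : ℝ) (ρ : ℕ → ℝ) (M R : ℕ), Y₀ ≤ Y →
      (∀ d, |ρ d| ≤ 1) → (∀ d, ρ d ≠ 0 → Squarefree d) → (M : ℝ) ≤ Y ^ 2 →
      Y ^ (2 / 5 : ℝ) ≤ R → (R : ℝ) ≤ Y ^ (1 - ε) →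
        ((EB k Y ρ M R η).card : ℝ) ≤ C * Real.log Y ^ 7 * (1 + R ^ 2 / Y) := by
  obtain ⟨C, hC, hb⟩ := eb_basic k
  obtain ⟨D, hD, hd⟩ := FD120.divisor_bound (ε / 4) (by linarith)
  -- a function which tends to zero
  have hlim : ∀ δ : ℝ, 0 < δ → Filter.Tendsto (fun Y : ℝ => Real.log Y ^ 7 * Y ^ (-δ))
      Filter.atTop (nhds 0) := by
    intro δ hδ
    have h := isLittleO_log_rpow_rpow_atTop (s := δ) 7 hδ
    have h2 := h.tendsto_div_nhds_zero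
    refine h2.congr' ?_
    filter_upwards [Filter.eventually_gt_atTop 1] with Y hY
    rw [Real.rpow_neg (by linarith), ← div_eq_mul_inv]
    norm_cast
  have h1 := (hlim (3 / 20) (by norm_num)).const_mul (C / η ^ 2 * D)
  have h2 := (hlim (ε / 2) (by linarith)).const_mul (C / η ^ 2 * D)
  rw [mul_zero] at h1 h2
  have h3 : ∀ᶠ Y : ℝ in Filter.atTop, C / η ^ 2 * D * (Real.log Y ^ 7 * Y ^ (-(3 / 20 : ℝ))) < 1 / 4 :=
    h1.eventually_lt_const (by norm_num)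
  have h4 : ∀ᶠ Y : ℝ in Filter.atTop, C / η ^ 2 * D * (Real.log Y ^ 7 * Y ^ (-(ε / 2))) < 1 / 4 :=
    h2.eventually_lt_const (by norm_num)
  obtain ⟨Y₁, hY₁⟩ := Filter.eventually_atTop.1 (h3.and h4)
  refine ⟨2 * (C / η ^ 2), max Y₁ 3, by positivity, le_max_right _ _,
    fun Y ρ M R hY hρ hρ2 hM hRl hRu => ?_⟩
  have hY3 : 3 ≤ Y := (le_max_right _ _).trans hY
  have hY0 : 0 < Y := by linarith
  have hL0 : 0 < Real.log Y := by linarith [ExA_log_ge hY3]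
  obtain ⟨h5, h6⟩ := hY₁ Y ((le_max_left _ _).trans hY)
  have hR0 : (0 : ℝ) < R := lt_of_lt_of_le (Real.rpow_pos_of_pos hY0 _) hRl
  have hR : 1 ≤ R := by exact_mod_cast hR0
  set K : ℝ := (((EB k Y ρ M R η).card : ℕ) : ℝ) with hK
  have hK0 : 0 ≤ K := Nat.cast_nonneg _
  have hX : ((⌊Y ^ 2⌋₊ : ℕ) : ℝ) ≤ Y ^ 2 := Nat.floor_le (by positivity)
  have hτ : ∀ h : ℕ, 1 ≤ h → h ≤ ⌊Y ^ 2⌋₊ → (h.divisors.card : ℝ) ≤ D * Y ^ (ε / 2) := by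
    intro h hh1 hh2
    refine (hd h hh1).trans ?_
    refine mul_le_mul_of_nonneg_left ?_ hD.le
    have e1 : (h : ℝ) ≤ Y ^ 2 := le_trans (by exact_mod_cast hh2) hX
    calc (h : ℝ) ^ (ε / 4) ≤ (Y ^ 2) ^ (ε / 4) :=
          Real.rpow_le_rpow (Nat.cast_nonneg _) e1 (by linarith)
      _ = Y ^ (ε / 2) := by
        rw [← Real.rpow_natCast Y 2, ← Real.rpow_mul hY0.le]
        congr 1
        push_cast
        ring
  have hmain := hb Y ρ M R η hY3 hρ hρ2 hM hR hη (R * K + D * Y ^ (ε / 2) * K ^ 2)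
    (fun θ' hθ' => z_sparse (EB k Y ρ M R η) ⌊Y ^ 2⌋₊ (fun N hN => (ExA_mem.1 hN).1.2)
      (D * Y ^ (ε / 2)) hτ θ' hθ' R hR (by positivity))
  have h7 : 1 / (R : ℝ) ≤ Y ^ (-(2 / 5 : ℝ)) := by
    rw [Real.rpow_neg hY0.le, ← one_div]
    exact one_div_le_one_div_of_le (Real.rpow_pos_of_pos hY0 _) hRl
  have h8 : (R : ℝ) / Y ≤ Y ^ (-ε) := by
    rw [div_le_iff₀ hY0]
    refine hRu.trans (le_of_eq ?_)
    rw [← Real.rpow_add_one hY0.ne']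
    congr 1
    ring
  have h9 : Y ^ (-(2 / 5 : ℝ)) * Y ^ (ε / 2) ≤ Y ^ (-(3 / 20 : ℝ)) := by
    rw [← Real.rpow_add hY0]
    exact Real.rpow_le_rpow_of_exponent_le (by linarith) (by linarith)
  have h10 : Y ^ (-ε) * Y ^ (ε / 2) = Y ^ (-(ε / 2)) := by
    rw [← Real.rpow_add hY0]
    congr 1
    ring
  have hp : 0 < Y ^ (ε / 2) := Real.rpow_pos_of_pos hY0 _
  have h11 : C / η ^ 2 * Real.log Y ^ 7 * (1 / R + R / Y) * (D * Y ^ (ε / 2)) ≤ 1 / 2 := by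
    have e1 : (1 / (R : ℝ) + R / Y) * Y ^ (ε / 2) ≤ Y ^ (-(3 / 20 : ℝ)) + Y ^ (-(ε / 2)) := by
      rw [← h10]
      refine le_trans ?_ (add_le_add_left h9 _)
      rw [← add_mul]
      exact mul_le_mul_of_nonneg_right (add_le_add h7 h8) hp.le
    have e2 : C / η ^ 2 * Real.log Y ^ 7 * (1 / R + R / Y) * (D * Y ^ (ε / 2)) =
        C / η ^ 2 * D * Real.log Y ^ 7 * ((1 / (R : ℝ) + R / Y) * Y ^ (ε / 2)) := by ring
    rw [e2]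
    refine (mul_le_mul_of_nonneg_left e1 (by positivity)).trans ?_
    have e3 : C / η ^ 2 * D * Real.log Y ^ 7 * (Y ^ (-(3 / 20 : ℝ)) + Y ^ (-(ε / 2))) =
        C / η ^ 2 * D * (Real.log Y ^ 7 * Y ^ (-(3 / 20 : ℝ))) +
        C / η ^ 2 * D * (Real.log Y ^ 7 * Y ^ (-(ε / 2))) := by ring
    rw [e3]
    linarith
  have h12 : K ^ 2 ≤ C / η ^ 2 * Real.log Y ^ 7 * (1 + R ^ 2 / Y) * K + 1 / 2 * K ^ 2 := by
    calc K ^ 2 ≤ C / η ^ 2 * Real.log Y ^ 7 * (1 / R + R / Y) *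
          (R * K + D * Y ^ (ε / 2) * K ^ 2) := hmain
      _ = C / η ^ 2 * Real.log Y ^ 7 * ((1 / R + R / Y) * R) * K +
          C / η ^ 2 * Real.log Y ^ 7 * (1 / R + R / Y) * (D * Y ^ (ε / 2)) * K ^ 2 := by ring
      _ ≤ C / η ^ 2 * Real.log Y ^ 7 * ((1 / R + R / Y) * R) * K + 1 / 2 * K ^ 2 := by
        have := mul_le_mul_of_nonneg_right h11 (sq_nonneg K)
        linarith
      _ = _ := by
        have e1 : (1 / (R : ℝ) + R / Y) * R = 1 + R ^ 2 / Y := by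
          field_simp
        rw [e1]
  rcases hK0.eq_or_lt with h0 | h0
  · rw [← h0]
    positivity
  · have h13 : K * K ≤ (2 * (C / η ^ 2) * Real.log Y ^ 7 * (1 + R ^ 2 / Y)) * K := by
      nlinarith
    exact le_of_mul_le_mul_right h13 h0

/-- **Conductors above `Y ^ (1 - ε)`.**

Proof. `z_large` with `X = ⌊Y ^ 2⌋₊`: `W = (12 / R) (Y ^ 2 + 1 + 4 R ^ 2) K`, so
`K ≤ C (log Y) ^ 7 (1 / R + R / Y) (1 / R) (Y ^ 2 + R ^ 2) = C (log Y) ^ 7 (Y ^ 2 / R ^ 2 + 1 + Y + R ^ 2 / Y)`, and for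
`R ≥ Y ^ (1 - ε)` the terms `Y ^ 2 / R ^ 2 ≤ Y ^ (2 ε)`, `1` and `Y` are at most `Y ^ (2 ε) R ^ 2 / Y` (`ε ≤ 1 / 8`). -/
theorem eb_high (k : ℕ) (ε η : ℝ) (hε : 0 < ε) (hε1 : ε ≤ 1 / 8) (hη : 0 < η) :
    ∃ C : ℝ, 0 < C ∧ ∀ (Y : ℝ) (ρ : ℕ → ℝ) (M R : ℕ), 3 ≤ Y →
      (∀ d, |ρ d| ≤ 1) → (∀ d, ρ d ≠ 0 → Squarefree d) → (M : ℝ) ≤ Y ^ 2 →
      Y ^ (1 - ε) ≤ R →
        ((EB k Y ρ M R η).card : ℝ) ≤ C * Real.log Y ^ 7 * Y ^ (2 * ε) * (R ^ 2 / Y) := by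
  obtain ⟨C, hC, hb⟩ := eb_basic k
  refine ⟨240 * (C / η ^ 2), by positivity, fun Y ρ M R hY hρ hρ2 hM hRl => ?_⟩
  have hY0 : 0 < Y := by linarith
  have hL0 : 0 < Real.log Y := by linarith [ExA_log_ge hY]
  have hR0 : (0 : ℝ) < R := lt_of_lt_of_le (Real.rpow_pos_of_pos hY0 _) hRl
  have hR : 1 ≤ R := by exact_mod_cast hR0
  have hR1 : (1 : ℝ) ≤ R := by exact_mod_cast hR
  set K : ℝ := (((EB k Y ρ M R η).card : ℕ) : ℝ) with hK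
  have hK0 : 0 ≤ K := Nat.cast_nonneg _
  have hX : ((⌊Y ^ 2⌋₊ : ℕ) : ℝ) ≤ Y ^ 2 := Nat.floor_le (by positivity)
  have hmain := hb Y ρ M R η hY hρ hρ2 hM hR hη _
    (fun θ' hθ' => z_large (EB k Y ρ M R η) ⌊Y ^ 2⌋₊ (fun N hN => (ExA_mem.1 hN).1.2) θ' hθ' R hR)
  set P : ℝ := Y ^ (2 * ε) with hP
  have hP0 : 0 < P := Real.rpow_pos_of_pos hY0 _
  have hP1 : 1 ≤ P := Real.one_le_rpow (by linarith) (by linarith)
  -- `Y ^ 2 ≤ P R ^ 2`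
  have h1 : Y ^ 2 ≤ P * R ^ 2 := by
    have e1 : (Y ^ (1 - ε)) ^ 2 ≤ (R : ℝ) ^ 2 :=
      pow_le_pow_left₀ (Real.rpow_pos_of_pos hY0 _).le hRl 2
    have e2 : P * (Y ^ (1 - ε)) ^ 2 = Y ^ 2 := by
      rw [hP, ← Real.rpow_natCast (Y ^ (1 - ε)) 2, ← Real.rpow_mul hY0.le, ← Real.rpow_add hY0,
        ← Real.rpow_natCast Y 2]
      congr 1
      push_cast
      ring
    rw [← e2]
    exact mul_le_mul_of_nonneg_left e1 hP0.le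
  -- `Y ≤ R ^ 2`
  have h2 : Y ≤ R ^ 2 := by
    have e1 : (Y ^ (1 - ε)) ^ 2 ≤ (R : ℝ) ^ 2 :=
      pow_le_pow_left₀ (Real.rpow_pos_of_pos hY0 _).le hRl 2
    refine le_trans ?_ e1
    rw [← Real.rpow_natCast (Y ^ (1 - ε)) 2, ← Real.rpow_mul hY0.le]
    calc Y = Y ^ (1 : ℝ) := (Real.rpow_one Y).symm
      _ ≤ _ := by
        refine Real.rpow_le_rpow_of_exponent_le (by linarith) ?_
        push_cast
        linarith
  have h3 : (1 / (R : ℝ) + R / Y) * (12 / R * (((⌊Y ^ 2⌋₊ : ℕ) : ℝ) + 1 + 4 * R ^ 2)) ≤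
      240 * (P * (R ^ 2 / Y)) := by
    have e0 : ((⌊Y ^ 2⌋₊ : ℕ) : ℝ) + 1 + 4 * R ^ 2 ≤ 5 * (Y ^ 2 + R ^ 2) := by nlinarith
    have e1 : (1 / (R : ℝ) + R / Y) * (12 / R * (((⌊Y ^ 2⌋₊ : ℕ) : ℝ) + 1 + 4 * R ^ 2)) ≤
        (1 / (R : ℝ) + R / Y) * (12 / R * (5 * (Y ^ 2 + R ^ 2))) := by
      gcongr
    refine e1.trans ?_
    have e2 : (1 / (R : ℝ) + R / Y) * (12 / R * (5 * (Y ^ 2 + R ^ 2))) =
        60 * (Y ^ 2 / R ^ 2 + 1 + Y + R ^ 2 / Y) := by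
      field_simp
      ring
    rw [e2]
    have e3 : 0 < (R : ℝ) ^ 2 / Y := by positivity
    have e4 : 1 ≤ (R : ℝ) ^ 2 / Y := by rwa [le_div_iff₀ hY0, one_mul]
    have e5 : Y ^ 2 / R ^ 2 ≤ P * (R ^ 2 / Y) := by
      have : Y ^ 2 / (R : ℝ) ^ 2 ≤ P := by
        rw [div_le_iff₀ (by positivity)]; exact h1
      nlinarith
    have e6 : 1 ≤ P * (R ^ 2 / Y) := by nlinarith
    have e7 : Y ≤ P * (R ^ 2 / Y) := by
      rw [← mul_div_assoc, le_div_iff₀ hY0]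
      nlinarith
    have e8 : (R : ℝ) ^ 2 / Y ≤ P * (R ^ 2 / Y) := by nlinarith
    linarith
  have h4 : K ^ 2 ≤ C / η ^ 2 * Real.log Y ^ 7 * (240 * (P * (R ^ 2 / Y))) * K := by
    calc K ^ 2 ≤ C / η ^ 2 * Real.log Y ^ 7 * (1 / R + R / Y) *
          (12 / R * (((⌊Y ^ 2⌋₊ : ℕ) : ℝ) + 1 + 4 * R ^ 2) * K) := hmain
      _ = C / η ^ 2 * Real.log Y ^ 7 * ((1 / (R : ℝ) + R / Y) *
          (12 / R * (((⌊Y ^ 2⌋₊ : ℕ) : ℝ) + 1 + 4 * R ^ 2))) * K := by ring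
      _ ≤ _ := by gcongr
  rcases hK0.eq_or_lt with h0 | h0
  · rw [← h0]
    positivity
  · have h5 : K * K ≤ (240 * (C / η ^ 2) * Real.log Y ^ 7 * P * (R ^ 2 / Y)) * K := by
      rw [← sq]
      refine h4.trans (le_of_eq ?_)
      ring
    exact le_of_mul_le_mul_right h5 h0

end Pool.Agent.Wb58c63
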