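import Pool.Agent.W_b58c63_h68.GdA

/-!
# The linear form in the remainders (helper68)
-/

set_option autoImplicit false

noncomputable section

open Finset

namespace Pool.Agent.Wb58c63

/-- The part of the linear form which comes from the characters with conductors in `I`. -/
def ErrR (k : ℕ) (Y : ℝ) (ρ : ℕ → ℝ) (M : ℕ) (I : Finset ℕ) (N : ℕ) : ℂ :=
  ∑ d ∈ (Icc 1 M).filter (fun d => d.Coprime N), ((ρ d / d.totient : ℝ) : ℂ) *
    ∑ r ∈ d.divisors.filter (fun r => r ∈ I), ∑ χ ∈ prim r,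
      (starRingEnd ℂ) (χ (N : ZMod r)) * TT k Y χ

/-- `er_eq` for the `d` with `ρ d ≠ 0`; all divisors `r > 1` of `d ≤ M` are in `Icc 2 M`. -/
theorem err_eq (k : ℕ) (Y : ℝ) (hY : 1 ≤ Y) (ρ : ℕ → ℝ) (M N : ℕ)
    (hρ : ∀ d, ρ d ≠ 0 → ∀ p : ℕ, p.Prime → p ∣ d → (p : ℝ) ≤ Y) :
    ((Err k Y ρ M N : ℝ) : ℂ) = ErrR k Y ρ M (Icc 2 M) N := by
  unfold Err ErrR
  rw [Complex.ofReal_sum]
  refine Finset.sum_congr rfl fun d hd => ?_
  rw [Finset.mem_filter, Finset.mem_Icc] at hd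
  by_cases h : ρ d = 0
  · rw [h, zero_mul, zero_div, Complex.ofReal_zero, zero_mul]
  · rw [Complex.ofReal_mul, er_eq k Y hY d N hd.1.1 (hρ d h) hd.2]
    have h1 : d.divisors.filter (fun r => 1 < r) = d.divisors.filter (fun r => r ∈ Icc 2 M) := by
      refine Finset.filter_congr fun r hr => ?_
      have h2 := Nat.divisor_le hr
      rw [Finset.mem_Icc]
      constructor
      · intro h3
        exact ⟨h3, h2.trans hd.1.2⟩
      · intro h3
        exact h3.1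
    rw [h1, Complex.ofReal_div, Complex.ofReal_natCast]
    ring

/-- Additivity in the set of conductors. -/
theorem errR_union (k : ℕ) (Y : ℝ) (ρ : ℕ → ℝ) (M : ℕ) (I J : Finset ℕ) (hIJ : Disjoint I J) (N : ℕ) :
    ErrR k Y ρ M (I ∪ J) N = ErrR k Y ρ M I N + ErrR k Y ρ M J N := by
  unfold ErrR
  rw [← Finset.sum_add_distrib]
  refine Finset.sum_congr rfl fun d _ => ?_
  rw [← mul_add, ← Finset.sum_union]
  · congr 2
    ext r
    simp only [Finset.mem_filter, Finset.mem_union]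
    tauto
  · rw [Finset.disjoint_left] at hIJ ⊢
    intro r h1 h2
    rw [Finset.mem_filter] at h1 h2
    exact hIJ h1.2 h2.2

/-- Conductors above `M` do not occur. -/
theorem errR_inter (k : ℕ) (Y : ℝ) (ρ : ℕ → ℝ) (M : ℕ) (I : Finset ℕ) (N : ℕ) :
    ErrR k Y ρ M I N = ErrR k Y ρ M (I.filter fun r => r ≤ M) N := by
  unfold ErrR
  refine Finset.sum_congr rfl fun d hd => ?_
  rw [Finset.mem_filter, Finset.mem_Icc] at hd
  congr 2
  refine Finset.filter_congr fun r hr => ?_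
  rw [Finset.mem_filter]
  exact ⟨fun h => ⟨h, (Nat.divisor_le hr).trans hd.1.2⟩, fun h => h.1⟩

theorem GdB_swap {E : Type*} [AddCommMonoid E] (M : ℕ) (I : Finset ℕ) (hI : ∀ r ∈ I, 1 ≤ r)
    (f : ℕ → ℕ → E) :
    ∑ d ∈ Icc 1 M, ∑ r ∈ d.divisors.filter (fun r => r ∈ I), f d r =
      ∑ r ∈ I, ∑ m ∈ (Icc 1 M).filter (fun m => r * m ≤ M), f (r * m) r := by
  rw [Finset.sum_comm' (t' := I) (s' := fun r => (Icc 1 M).filter (fun d => r ∣ d))]
  · refine Finset.sum_congr rfl fun r hr => ?_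
    have hr1 := hI r hr
    refine Finset.sum_nbij' (fun d => d / r) (fun m => r * m) ?_ ?_ ?_ ?_ ?_
    · intro d hd
      simp only [Finset.mem_filter, Finset.mem_Icc] at hd ⊢
      obtain ⟨⟨h1, h2⟩, m, rfl⟩ := hd
      rw [Nat.mul_div_cancel_left _ (by omega)]
      have hm : 1 ≤ m := by
        rcases Nat.eq_zero_or_pos m with h | h
        · rw [h] at h1
          omega
        · exact h
      exact ⟨⟨hm, le_trans (Nat.le_mul_of_pos_left m (by omega)) h2⟩, h2⟩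
    · intro m hm
      simp only [Finset.mem_filter, Finset.mem_Icc] at hm ⊢
      exact ⟨⟨Nat.mul_pos (by omega) hm.1.1, hm.2⟩, Dvd.intro _ rfl⟩
    · intro d hd
      simp only [Finset.mem_filter, Finset.mem_Icc] at hd
      exact Nat.mul_div_cancel' hd.2
    · intro m _
      exact Nat.mul_div_cancel_left _ (by omega)
    · intro d hd
      simp only [Finset.mem_filter, Finset.mem_Icc] at hd
      rw [Nat.mul_div_cancel' hd.2]
  · intro d r
    simp only [Finset.mem_filter, Finset.mem_Icc, Nat.mem_divisors]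
    constructor
    · rintro ⟨h1, ⟨h2, h3⟩, h4⟩
      exact ⟨⟨h1, h2⟩, h4⟩
    · rintro ⟨⟨h1, h2⟩, h4⟩
      exact ⟨h1, ⟨h2, by omega⟩, h4⟩

theorem GdB_chi_norm {r : ℕ} (χ : DirichletCharacter ℂ r) (x : ZMod r) :
    ‖(starRingEnd ℂ) (χ x)‖ ≤ 1 := by
  rw [RCLike.norm_conj]
  exact DirichletCharacter.norm_le_one χ x

/-- **Trivial bound in `N`.**

Proof. Exchange the sums, `d = r m`, `m ≤ M`, `φ (r m) ≥ φ(r) φ(m)` (`Nat.totient_super_multiplicative`), `‖χ N‖ ≤ 1`. -/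
theorem errR_le (k : ℕ) (Y : ℝ) (ρ : ℕ → ℝ) (hρ : ∀ d, |ρ d| ≤ 1) (M : ℕ) (I : Finset ℕ)
    (hI : ∀ r ∈ I, 1 ≤ r) (N : ℕ) :
    ‖ErrR k Y ρ M I N‖ ≤ (∑ m ∈ Icc 1 M, 1 / (m.totient : ℝ)) *
      ∑ r ∈ I, 1 / (r.totient : ℝ) * ∑ χ ∈ prim r, ‖TT k Y χ‖ := by
  set T : ℕ → ℝ := fun r => ∑ χ ∈ prim r, ‖TT k Y χ‖ with hT
  have hT0 : ∀ r, 0 ≤ T r := fun r => Finset.sum_nonneg fun χ _ => norm_nonneg _
  have h1 : ‖ErrR k Y ρ M I N‖ ≤
      ∑ d ∈ Icc 1 M, ∑ r ∈ d.divisors.filter (fun r => r ∈ I), 1 / (d.totient : ℝ) * T r := by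
    unfold ErrR
    refine (norm_sum_le _ _).trans ?_
    refine (Finset.sum_le_sum (g := fun d => ∑ r ∈ d.divisors.filter (fun r => r ∈ I),
      1 / (d.totient : ℝ) * T r) fun d _ => ?_).trans
      (Finset.sum_le_sum_of_subset_of_nonneg (Finset.filter_subset _ _) fun d _ _ =>
        Finset.sum_nonneg fun r _ => mul_nonneg (by positivity) (hT0 r))
    rw [norm_mul, ← Finset.mul_sum]
    refine mul_le_mul ?_ ?_ (norm_nonneg _) (by positivity)
    · rw [Complex.norm_real, Real.norm_eq_abs, abs_div, Nat.abs_cast]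
      exact div_le_div_of_nonneg_right (hρ d) (Nat.cast_nonneg _)
    · refine (norm_sum_le _ _).trans (Finset.sum_le_sum fun r _ => ?_)
      refine (norm_sum_le _ _).trans (Finset.sum_le_sum fun χ _ => ?_)
      rw [norm_mul]
      exact mul_le_of_le_one_left (norm_nonneg _) (GdB_chi_norm χ _)
  refine h1.trans ?_
  rw [GdB_swap M I hI (fun d r => 1 / (d.totient : ℝ) * T r), Finset.mul_sum]
  refine Finset.sum_le_sum fun r hr => ?_
  have hr1 := hI r hr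
  have hφr : 0 < (r.totient : ℝ) := by exact_mod_cast Nat.totient_pos.mpr hr1
  rw [← Finset.sum_mul, ← mul_assoc]
  refine mul_le_mul_of_nonneg_right ?_ (hT0 r)
  rw [Finset.sum_mul]
  refine (Finset.sum_le_sum (g := fun m => 1 / (m.totient : ℝ) * (1 / (r.totient : ℝ)))
    fun m hm => ?_).trans (Finset.sum_le_sum_of_subset_of_nonneg (Finset.filter_subset _ _)
      fun m _ _ => by positivity)
  rw [Finset.mem_filter, Finset.mem_Icc] at hm
  have hφm : 0 < (m.totient : ℝ) := by exact_mod_cast Nat.totient_pos.mpr hm.1.1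
  rw [one_div_mul_one_div]
  refine one_div_le_one_div_of_le (mul_pos hφm hφr) ?_
  have h2 := Nat.totient_super_multiplicative m r
  rw [mul_comm r m]
  exact_mod_cast h2

theorem GdB_cs (I : Finset ℕ) (w : ℕ → ℝ) (hw : ∀ r, 0 ≤ w r)
    (A B : ∀ r : ℕ, DirichletCharacter ℂ r → ℝ) :
    ∑ r ∈ I, w r * ∑ χ ∈ prim r, A r χ * B r χ ≤
      Real.sqrt (∑ r ∈ I, w r * ∑ χ ∈ prim r, A r χ ^ 2) *
        Real.sqrt (∑ r ∈ I, w r * ∑ χ ∈ prim r, B r χ ^ 2) := by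
  have h1 : ∀ q ∈ I, w q * ∑ χ ∈ prim q, A q χ * B q χ ≤
      Real.sqrt (w q * ∑ χ ∈ prim q, A q χ ^ 2) * Real.sqrt (w q * ∑ χ ∈ prim q, B q χ ^ 2) := by
    intro q _
    have h2 := Real.sum_mul_le_sqrt_mul_sqrt (prim q) (A q) (B q)
    have h3 := mul_le_mul_of_nonneg_left h2 (hw q)
    refine h3.trans (le_of_eq ?_)
    rw [Real.sqrt_mul (hw q), Real.sqrt_mul (hw q)]
    have h4 := Real.mul_self_sqrt (hw q)
    calc w q * (Real.sqrt (∑ χ ∈ prim q, A q χ ^ 2) * Real.sqrt (∑ χ ∈ prim q, B q χ ^ 2)) =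
        (Real.sqrt (w q) * Real.sqrt (w q)) *
          (Real.sqrt (∑ χ ∈ prim q, A q χ ^ 2) * Real.sqrt (∑ χ ∈ prim q, B q χ ^ 2)) := by
          rw [h4]
      _ = _ := by ring
  refine (Finset.sum_le_sum h1).trans ?_
  exact Real.sum_sqrt_mul_sqrt_le _
    (fun q => mul_nonneg (hw q) (Finset.sum_nonneg fun _ _ => sq_nonneg _))
    (fun q => mul_nonneg (hw q) (Finset.sum_nonneg fun _ _ => sq_nonneg _))

/-- The identity for the coefficients. -/
theorem GdB_coef (ρ : ℕ → ℝ) (hρ2 : ∀ d, ρ d ≠ 0 → Squarefree d) (r m N : ℕ)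
    (χ : DirichletCharacter ℂ r) :
    (if (r * m).Coprime N then ((ρ (r * m) / (r * m).totient : ℝ) : ℂ) *
      (starRingEnd ℂ) (χ (N : ZMod r)) else 0) =
    ((1 / (m.totient : ℝ) : ℝ) : ℂ) * (((1 / (r.totient : ℝ) : ℝ) : ℂ) * ((ρ (r * m) : ℝ) : ℂ) *
      (if m.Coprime N then (starRingEnd ℂ) (χ (N : ZMod r)) else 0)) := by
  by_cases h0 : ρ (r * m) = 0
  · rw [h0]
    simp
  · have h1 := hρ2 _ h0
    have h2 : r.Coprime m := (Nat.squarefree_mul_iff.mp h1).1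
    by_cases h3 : r.Coprime N
    · by_cases h4 : m.Coprime N
      · rw [if_pos (Nat.Coprime.mul_left h3 h4), if_pos h4, Nat.totient_mul h2]
        push_cast
        ring
      · rw [if_neg (fun h => h4 (Nat.Coprime.coprime_mul_left h)), if_neg h4]
        ring
    · rw [if_neg (fun h => h3 (Nat.Coprime.coprime_mul_right h))]
      have h5 : χ (N : ZMod r) = 0 := by
        apply MulChar.map_nonunit
        intro h6
        rw [ZMod.isUnit_iff_coprime] at h6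
        exact h3 h6.symm
      rw [h5, map_zero]
      simp

theorem GdB_expand (k : ℕ) (Y : ℝ) (ρ : ℕ → ℝ)
    (hρ2 : ∀ d, ρ d ≠ 0 → Squarefree d) (M : ℕ) (I : Finset ℕ) (hI : ∀ r ∈ I, 1 ≤ r) (N : ℕ) :
    ErrR k Y ρ M I N = ∑ m ∈ Icc 1 M, ((1 / (m.totient : ℝ) : ℝ) : ℂ) *
      ∑ r ∈ I, ((1 / (r.totient : ℝ) : ℝ) : ℂ) * ∑ χ ∈ prim r,
        ((if r * m ≤ M then ρ (r * m) else 0 : ℝ) : ℂ) * TT k Y χ *
          (if m.Coprime N then (starRingEnd ℂ) (χ (N : ZMod r)) else 0) := by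
  have h1 : ErrR k Y ρ M I N = ∑ d ∈ Icc 1 M, ∑ r ∈ d.divisors.filter (fun r => r ∈ I),
      ∑ χ ∈ prim r, (if d.Coprime N then ((ρ d / d.totient : ℝ) : ℂ) *
        (starRingEnd ℂ) (χ (N : ZMod r)) else 0) * TT k Y χ := by
    unfold ErrR
    rw [Finset.sum_filter]
    refine Finset.sum_congr rfl fun d _ => ?_
    by_cases h : d.Coprime N
    · rw [if_pos h, Finset.mul_sum]
      refine Finset.sum_congr rfl fun r _ => ?_
      rw [Finset.mul_sum]
      refine Finset.sum_congr rfl fun χ _ => ?_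
      rw [if_pos h, mul_assoc]
    · rw [if_neg h]
      symm
      refine Finset.sum_eq_zero fun r _ => Finset.sum_eq_zero fun χ _ => ?_
      rw [if_neg h, zero_mul]
  rw [h1, GdB_swap M I hI (fun d r => ∑ χ ∈ prim r, (if d.Coprime N then
    ((ρ d / d.totient : ℝ) : ℂ) * (starRingEnd ℂ) (χ (N : ZMod r)) else 0) * TT k Y χ)]
  have h2 : ∀ r ∈ I, ∑ m ∈ (Icc 1 M).filter (fun m => r * m ≤ M),
      ∑ χ ∈ prim r, (if (r * m).Coprime N then ((ρ (r * m) / (r * m).totient : ℝ) : ℂ) *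
        (starRingEnd ℂ) (χ (N : ZMod r)) else 0) * TT k Y χ =
      ∑ m ∈ Icc 1 M, ((1 / (m.totient : ℝ) : ℝ) : ℂ) *
      (((1 / (r.totient : ℝ) : ℝ) : ℂ) * ∑ χ ∈ prim r,
        ((if r * m ≤ M then ρ (r * m) else 0 : ℝ) : ℂ) * TT k Y χ *
          (if m.Coprime N then (starRingEnd ℂ) (χ (N : ZMod r)) else 0)) := by
    intro r _
    rw [Finset.sum_filter]
    refine Finset.sum_congr rfl fun m _ => ?_
    by_cases h : r * m ≤ M
    · rw [if_pos h, Finset.mul_sum, Finset.mul_sum]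
      refine Finset.sum_congr rfl fun χ _ => ?_
      rw [GdB_coef ρ hρ2 r m N χ, if_pos h]
      ring
    · rw [if_neg h, if_neg h]
      simp
  rw [Finset.sum_congr rfl h2, Finset.sum_comm]
  refine Finset.sum_congr rfl fun m _ => ?_
  rw [Finset.mul_sum]

/-- **Duality.** A bound for the sum of the linear form over a set `Z` with weights.

Proof. Write `d = r m` (for the squarefree `d` with `ρ d ≠ 0`: `(r, m) = 1`, `φ(d) = φ(r) φ(m)`); `(d, N) = 1` means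
`(m, N) = 1` and `(r, N) = 1`, and `χ N = 0` for `(r, N) > 1`. So the sum is
`∑_{m ≤ M} (1 / φ(m)) ∑_{r ∈ I, (r, m) = 1, r m ≤ M} (ρ (r m) / φ(r)) ∑_χ TT χ ∑_{N ∈ Z, (m, N) = 1} θ N conj (χ N)`. For every `m`
use `|ρ| ≤ 1`, Cauchy-Schwarz over the pairs `(r, χ)` with the weights `1 / φ(r)`, and the hypothesis for
`θ' N = θ N` if `(m, N) = 1` and `0` otherwise. -/
theorem dual_bound (k : ℕ) (Y : ℝ) (ρ : ℕ → ℝ) (hρ : ∀ d, |ρ d| ≤ 1)
    (hρ2 : ∀ d, ρ d ≠ 0 → Squarefree d) (M : ℕ) (I : Finset ℕ) (hI : ∀ r ∈ I, 1 ≤ r)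
    (Z : Finset ℕ) (θ : ℕ → ℂ) (hθ : ∀ N, ‖θ N‖ ≤ 1) (W : ℝ)
    (hW : ∀ θ' : ℕ → ℂ, (∀ N, ‖θ' N‖ ≤ 1) →
      ∑ r ∈ I, 1 / (r.totient : ℝ) * ∑ χ ∈ prim r,
        ‖∑ N ∈ Z, θ' N * (starRingEnd ℂ) (χ (N : ZMod r))‖ ^ 2 ≤ W) :
    ‖∑ N ∈ Z, θ N * ErrR k Y ρ M I N‖ ≤ (∑ m ∈ Icc 1 M, 1 / (m.totient : ℝ)) *
      (Real.sqrt (∑ r ∈ I, 1 / (r.totient : ℝ) * ∑ χ ∈ prim r, ‖TT k Y χ‖ ^ 2) * Real.sqrt W) := by
  set S : ∀ m r : ℕ, DirichletCharacter ℂ r → ℂ := fun m r χ =>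
    ∑ N ∈ Z, (if m.Coprime N then θ N else 0) * (starRingEnd ℂ) (χ (N : ZMod r)) with hS
  have h1 : ∑ N ∈ Z, θ N * ErrR k Y ρ M I N = ∑ m ∈ Icc 1 M, ((1 / (m.totient : ℝ) : ℝ) : ℂ) *
      ∑ r ∈ I, ((1 / (r.totient : ℝ) : ℝ) : ℂ) * ∑ χ ∈ prim r,
        ((if r * m ≤ M then ρ (r * m) else 0 : ℝ) : ℂ) * TT k Y χ * S m r χ := by
    have h2 : ∀ N ∈ Z, θ N * ErrR k Y ρ M I N = ∑ m ∈ Icc 1 M, ∑ r ∈ I, ∑ χ ∈ prim r,
        ((1 / (m.totient : ℝ) : ℝ) : ℂ) * (((1 / (r.totient : ℝ) : ℝ) : ℂ) *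
        (((if r * m ≤ M then ρ (r * m) else 0 : ℝ) : ℂ) * TT k Y χ *
          ((if m.Coprime N then θ N else 0) * (starRingEnd ℂ) (χ (N : ZMod r))))) := by
      intro N _
      rw [GdB_expand k Y ρ hρ2 M I hI N, Finset.mul_sum]
      refine Finset.sum_congr rfl fun m _ => ?_
      rw [Finset.mul_sum, Finset.mul_sum]
      refine Finset.sum_congr rfl fun r _ => ?_
      rw [Finset.mul_sum, Finset.mul_sum, Finset.mul_sum]
      refine Finset.sum_congr rfl fun χ _ => ?_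
      by_cases h : m.Coprime N
      · rw [if_pos h, if_pos h]
        ring
      · rw [if_neg h, if_neg h]
        ring
    rw [Finset.sum_congr rfl h2, Finset.sum_comm]
    refine Finset.sum_congr rfl fun m _ => ?_
    rw [Finset.sum_comm, Finset.mul_sum]
    refine Finset.sum_congr rfl fun r _ => ?_
    rw [Finset.sum_comm, Finset.mul_sum, Finset.mul_sum]
    refine Finset.sum_congr rfl fun χ _ => ?_
    simp only [hS]
    rw [Finset.mul_sum, Finset.mul_sum, Finset.mul_sum]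
  rw [h1, Finset.sum_mul]
  refine (norm_sum_le _ _).trans (Finset.sum_le_sum fun m _ => ?_)
  rw [norm_mul, Complex.norm_real, Real.norm_of_nonneg (by positivity)]
  refine mul_le_mul_of_nonneg_left ?_ (by positivity)
  have h3 : ‖∑ r ∈ I, ((1 / (r.totient : ℝ) : ℝ) : ℂ) * ∑ χ ∈ prim r,
        ((if r * m ≤ M then ρ (r * m) else 0 : ℝ) : ℂ) * TT k Y χ * S m r χ‖ ≤
      ∑ r ∈ I, 1 / (r.totient : ℝ) * ∑ χ ∈ prim r, ‖TT k Y χ‖ * ‖S m r χ‖ := by
    refine (norm_sum_le _ _).trans (Finset.sum_le_sum fun r _ => ?_)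
    rw [norm_mul, Complex.norm_real, Real.norm_of_nonneg (by positivity)]
    refine mul_le_mul_of_nonneg_left ?_ (by positivity)
    refine (norm_sum_le _ _).trans (Finset.sum_le_sum fun χ _ => ?_)
    rw [norm_mul, norm_mul]
    refine mul_le_mul_of_nonneg_right ?_ (norm_nonneg _)
    refine mul_le_of_le_one_left (norm_nonneg _) ?_
    rw [Complex.norm_real, Real.norm_eq_abs]
    by_cases h : r * m ≤ M
    · rw [if_pos h]
      exact hρ _
    · rw [if_neg h, abs_zero]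
      exact zero_le_one
  refine h3.trans ((GdB_cs I (fun r => 1 / (r.totient : ℝ)) (fun r => by positivity)
    (fun r χ => ‖TT k Y χ‖) (fun r χ => ‖S m r χ‖)).trans ?_)
  refine mul_le_mul_of_nonneg_left (Real.sqrt_le_sqrt ?_) (Real.sqrt_nonneg _)
  refine hW (fun N => if m.Coprime N then θ N else 0) fun N => ?_
  by_cases h : m.Coprime N
  · simp only [if_pos h]
    exact hθ N
  · simp only [if_neg h, norm_zero]
    exact zero_le_one

end Pool.Agent.Wb58c63
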