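import Pool.Agent.W_b58c63_h68.Defs

/-!
# Numbers and an integral (helper68)
-/

set_option autoImplicit false

noncomputable section

open MeasureTheory

namespace Pool.Agent.Wb58c63

/-- The integral `∫_{1/4}^θ (1 - t / θ) / ((1 - t) t) dt`. -/
def Ith (θ : ℝ) : ℝ := Real.log (4 * θ) + (1 / θ - 1) * (Real.log (1 - θ) - Real.log (3 / 4))

/-- The weight function. -/
def Hth (θ t : ℝ) : ℝ := (1 - t / θ) / (1 - t)

/-- `(1 - t / θ) / ((1 - t) t) = 1 / t - (1 / θ - 1) / (1 - t)`, the antiderivative is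
`log t + (1 / θ - 1) log (1 - t)`. -/
theorem int_Hth (θ : ℝ) (h0 : 1 / 4 < θ) (h1 : θ < 1) :
    ∫ t in (1 / 4 : ℝ)..θ, Hth θ t / t = Ith θ := by
  have hθ : θ ≠ 0 := by linarith
  have e1 : ∫ t in (1 / 4 : ℝ)..θ, Hth θ t / t =
      ∫ t in (1 / 4 : ℝ)..θ, (1 / t + (1 / θ - 1) * (-1 / (1 - t))) := by
    apply intervalIntegral.integral_congr
    intro t ht
    rw [Set.uIcc_of_le h0.le] at ht
    have ht0 : t ≠ 0 := by linarith [ht.1]
    have ht1 : 1 - t ≠ 0 := by linarith [ht.2]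
    unfold Hth
    simp only
    field_simp
    ring
  have hd : ∀ t ∈ Set.uIcc (1 / 4 : ℝ) θ, HasDerivAt
      (fun t => Real.log t + (1 / θ - 1) * Real.log (1 - t))
      (1 / t + (1 / θ - 1) * (-1 / (1 - t))) t := by
    intro t ht
    rw [Set.uIcc_of_le h0.le] at ht
    have ht0 : t ≠ 0 := by linarith [ht.1]
    have ht1 : 1 - t ≠ 0 := by linarith [ht.2]
    have d1 : HasDerivAt (fun t : ℝ => Real.log t) (1 / t) t := by
      rw [one_div]; exact Real.hasDerivAt_log ht0
    have d2 : HasDerivAt (fun t : ℝ => Real.log (1 - t)) (-1 / (1 - t)) t := by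
      have := (((hasDerivAt_id t).const_sub 1)).log ht1
      simpa using this
    exact d1.add (d2.const_mul _)
  have hi : IntervalIntegrable (fun t : ℝ => 1 / t + (1 / θ - 1) * (-1 / (1 - t))) volume
      (1 / 4) θ := by
    apply ContinuousOn.intervalIntegrable
    rw [Set.uIcc_of_le h0.le]
    have c1 : ContinuousOn (fun t : ℝ => 1 / t) (Set.Icc (1 / 4) θ) :=
      continuousOn_const.div continuousOn_id fun t ht => by
        have := ht.1
        linarith
    have c2 : ContinuousOn (fun t : ℝ => -1 / (1 - t)) (Set.Icc (1 / 4) θ) :=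
      continuousOn_const.div (continuousOn_const.sub continuousOn_id) fun t ht => by
        have := ht.2
        linarith
    exact c1.add (continuousOn_const.mul c2)
  rw [e1, intervalIntegral.integral_eq_sub_of_hasDerivAt hd hi]
  unfold Ith
  have l1 : Real.log (4 * θ) = Real.log 4 + Real.log θ := Real.log_mul (by norm_num) hθ
  have l2 : Real.log (1 / 4) = - Real.log 4 := by rw [one_div, Real.log_inv]
  have l3 : (1 : ℝ) - 1 / 4 = 3 / 4 := by norm_num
  rw [l1, l2, l3]
  ring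

/-- `Hth θ t = 1 / θ - (1 / θ - 1) / (1 - t)` decreases. -/
theorem Hth_anti (θ : ℝ) (h0 : 1 / 4 < θ) (h1 : θ < 1) : AntitoneOn (Hth θ) (Set.Icc (1 / 4) θ) := by
  intro s hs t ht hst
  have hθ : 0 < θ := by linarith
  have hs1 : 0 < 1 - s := by linarith [hs.2]
  have ht1 : 0 < 1 - t := by linarith [ht.2]
  unfold Hth
  rw [div_le_div_iff₀ ht1 hs1]
  have h2 : (t - s) ≤ (t - s) / θ := by
    rw [le_div_iff₀ hθ]
    nlinarith
  have h3 : (t - s) / θ = t / θ - s / θ := by ring
  have h4 : (1 - s / θ) * (1 - t) - (1 - t / θ) * (1 - s) = (t / θ - s / θ) - (t - s) := by ring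
  linarith

theorem Hth_nonneg (θ : ℝ) (h0 : 1 / 4 < θ) (h1 : θ < 1) (t : ℝ) (ht : t ∈ Set.Icc (1 / 4) θ) :
    0 ≤ Hth θ t := by
  have hθ : 0 < θ := by linarith
  unfold Hth
  apply div_nonneg
  · have : t / θ ≤ 1 := (div_le_one hθ).2 ht.2
    linarith
  · linarith [ht.2]

lemma hnum_1 : 19 * Real.log 2 < 12 * Real.log 3 := by
  have h : Real.log ((2 : ℝ) ^ 19) < Real.log ((3 : ℝ) ^ 12) :=
    Real.log_lt_log (by norm_num) (by norm_num)
  rw [Real.log_pow, Real.log_pow] at h
  exact_mod_cast h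

lemma hnum_2 : 5 * Real.log 3 < 8 * Real.log 2 := by
  have h : Real.log ((3 : ℝ) ^ 5) < Real.log ((2 : ℝ) ^ 8) :=
    Real.log_lt_log (by norm_num) (by norm_num)
  rw [Real.log_pow, Real.log_pow] at h
  exact_mod_cast h

lemma hnum_3 : 65 * Real.log 2 < 28 * Real.log 5 := by
  have h : Real.log ((2 : ℝ) ^ 65) < Real.log ((5 : ℝ) ^ 28) :=
    Real.log_lt_log (by norm_num) (by norm_num)
  rw [Real.log_pow, Real.log_pow] at h
  exact_mod_cast h

lemma hnum_4 : Real.log 4 = 2 * Real.log 2 := by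
  have h : Real.log ((2 : ℝ) ^ 2) = 2 * Real.log 2 := by
    rw [Real.log_pow]; norm_num
  rw [← h]; norm_num

lemma hnum_34 : Real.log (3 / 4) = Real.log 3 - 2 * Real.log 2 := by
  rw [Real.log_div (by norm_num) (by norm_num), hnum_4]

lemma hnum_I9 : Ith (9 / 10) = (10 / 9) * Real.log 2 + (17 / 9) * Real.log 3 - (10 / 9) * Real.log 5 := by
  unfold Ith
  have e1 : Real.log (4 * (9 / 10)) = Real.log 2 + 2 * Real.log 3 - Real.log 5 := by
    have : (4 * (9 / 10) : ℝ) = 2 * 3 ^ 2 / 5 := by norm_num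
    rw [this, Real.log_div (by norm_num) (by norm_num), Real.log_mul (by norm_num) (by norm_num),
      Real.log_pow]
    norm_num
  have e2 : Real.log (1 - 9 / 10) = - Real.log 2 - Real.log 5 := by
    have : (1 - 9 / 10 : ℝ) = (2 * 5)⁻¹ := by norm_num
    rw [this, Real.log_inv, Real.log_mul (by norm_num) (by norm_num)]
    ring
  rw [e1, e2, hnum_34]
  ring

/-- `Ith (9 / 10) = log (18 / 5) - (1 / 9) log (15 / 2) = 1.05706`, `log 3 = 1.0986`; `(41 / 40) * 1.05706 = 1.0835`. -/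
theorem num2 : 41 / 40 * Ith (9 / 10) < Real.log 3 := by
  rw [hnum_I9]
  have h1 := hnum_2
  have h2 := hnum_3
  have h3 : 0 < Real.log 2 := Real.log_pos (by norm_num)
  linarith

/-- `Ith (24 / 25) = log (96 / 25) - (1 / 24) log (75 / 4) = 1.22334`, times `0.879` is `1.0753`. -/
theorem num3 : 879 / 1000 * Ith (24 / 25) < Real.log 3 := by
  unfold Ith
  have e1 : Real.log (4 * (24 / 25)) = 5 * Real.log 2 + Real.log 3 - 2 * Real.log 5 := by
    have : (4 * (24 / 25) : ℝ) = 2 ^ 5 * 3 / 5 ^ 2 := by norm_num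
    rw [this, Real.log_div (by norm_num) (by norm_num), Real.log_mul (by norm_num) (by norm_num),
      Real.log_pow, Real.log_pow]
    norm_num
  have e2 : Real.log (1 - 24 / 25) = - (2 * Real.log 5) := by
    have : (1 - 24 / 25 : ℝ) = (5 ^ 2)⁻¹ := by norm_num
    rw [this, Real.log_inv, Real.log_pow]
    norm_num
  rw [e1, e2, hnum_34]
  have h1 := hnum_1
  have h2 := hnum_3
  have h3 : 0 < Real.log 2 := Real.log_pos (by norm_num)
  linarith

/-- `Ith (197 / 200) = log (197 / 50) - (3 / 197) log 50 = 1.31161`, times `0.816` is `1.0703`. -/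
theorem num4 : 102 / 125 * Ith (197 / 200) < Real.log 3 := by
  unfold Ith
  have e1 : Real.log (4 * (197 / 200)) < 2 * Real.log 2 := by
    rw [← hnum_4]
    exact Real.log_lt_log (by norm_num) (by norm_num)
  have e2 : Real.log (1 - 197 / 200) = Real.log 3 - (3 * Real.log 2 + 2 * Real.log 5) := by
    have : (1 - 197 / 200 : ℝ) = 3 / (2 ^ 3 * 5 ^ 2) := by norm_num
    rw [this, Real.log_div (by norm_num) (by norm_num), Real.log_mul (by norm_num) (by norm_num),
      Real.log_pow, Real.log_pow]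
    norm_num
  rw [e2, hnum_34]
  have h1 := hnum_1
  have h2 := hnum_3
  have h3 : 0 < Real.log 2 := Real.log_pos (by norm_num)
  linarith

/-- `(3 / 4) * 1.05706 = 0.7928`. -/
theorem num5 : 3 / 4 * Ith (9 / 10) < Real.log 3 := by
  rw [hnum_I9]
  have h1 := hnum_2
  have h2 := hnum_3
  have h3 : 0 < Real.log 2 := Real.log_pos (by norm_num)
  linarith

end Pool.Agent.Wb58c63
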