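import Pool.Agent.W_b58c63_h68.HRho

/-!
# The number of prime factors (helper68)
-/

set_option autoImplicit false

noncomputable section

open Finset ArithmeticFunction

namespace Pool.Agent.Wb58c63

/-- **Richert's weights detect almost primes.**

Proof. `Ω(n) - log n / log y = ∑_{q ∣ n} v_q(n) (1 - log q / log y)`. The terms with `q ≥ y` are `≤ 0`; the prime
factors `q < y` are in `[z, y)` and have `v_q(n) = 1`. So `Ω(n) ≤ log n / log y + ∑_{q ∈ PI z y, q ∣ n} om y q <
log (Y ^ 2) / log y + 1 / l ≤ r + 1`. -/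
theorem omega_le (n r : ℕ) (Y z y l : ℝ) (hn : 1 ≤ n) (hnY : (n : ℝ) ≤ Y ^ 2) (hy : 1 < y)
    (hl : 0 < l) (h1 : ∀ q : ℕ, q.Prime → q ∣ n → z ≤ q)
    (h2 : ∀ q ∈ PI z y, ¬ q ^ 2 ∣ n)
    (h3 : l * ∑ q ∈ (PI z y).filter (fun q => q ∣ n), om y q < 1)
    (h4 : 1 / l + Real.log (Y ^ 2) / Real.log y ≤ r + 1) : cardFactors n ≤ r := by
  have hn0 : n ≠ 0 := by omega
  have hly : 0 < Real.log y := Real.log_pos hy
  have e1 : (cardFactors n : ℝ) = ∑ q ∈ n.primeFactors, (n.factorization q : ℝ) := by
    rw [cardFactors_eq_sum_factorization, Finsupp.sum, Nat.support_factorization, Nat.cast_sum]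
  have e2 : Real.log n = ∑ q ∈ n.primeFactors, (n.factorization q : ℝ) * Real.log q := by
    rw [Real.log_nat_eq_sum_factorization, Finsupp.sum, Nat.support_factorization]
  have e3 : (cardFactors n : ℝ) - Real.log n / Real.log y =
      ∑ q ∈ n.primeFactors, (n.factorization q : ℝ) * om y q := by
    rw [e1, e2, Finset.sum_div, ← Finset.sum_sub_distrib]
    refine Finset.sum_congr rfl (fun q _ => ?_)
    unfold om
    ring
  have e4 : ∑ q ∈ n.primeFactors, (n.factorization q : ℝ) * om y q ≤
      ∑ q ∈ (PI z y).filter (fun q => q ∣ n), om y q := by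
    have e5 : (PI z y).filter (fun q => q ∣ n) = n.primeFactors.filter (fun q : ℕ => (q : ℝ) < y) := by
      ext q
      rw [mem_filter, mem_filter, mem_PI, Nat.mem_primeFactors]
      constructor
      · rintro ⟨⟨a, _, b⟩, c⟩
        exact ⟨⟨a, c, hn0⟩, b⟩
      · rintro ⟨⟨a, b, _⟩, c⟩
        exact ⟨⟨a, h1 q a b, c⟩, b⟩
    rw [e5, Finset.sum_filter]
    refine Finset.sum_le_sum (fun q hq => ?_)
    rw [Nat.mem_primeFactors] at hq
    have hq0 : (0 : ℝ) < q := by exact_mod_cast hq.1.pos
    split_ifs with h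
    · have e6 : n.factorization q = 1 := by
        have e7 : ¬ q ^ 2 ∣ n := h2 q (mem_PI.2 ⟨hq.1, h1 q hq.1 hq.2.1, h⟩)
        have e8 : n.factorization q ≠ 0 := by
          have := hq.1.factorization_pos_of_dvd hn0 hq.2.1
          omega
        have e9 : ¬ 2 ≤ n.factorization q := by
          intro h5
          exact e7 ((hq.1.pow_dvd_iff_le_factorization hn0).2 h5)
        omega
      rw [e6, Nat.cast_one, one_mul]
    · have e10 : om y q ≤ 0 := by
        unfold om
        have e11 : Real.log y ≤ Real.log q := Real.log_le_log (by linarith) (not_lt.1 h)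
        have e12 : 1 ≤ Real.log q / Real.log y := by rwa [le_div_iff₀ hly, one_mul]
        linarith
      exact mul_nonpos_of_nonneg_of_nonpos (Nat.cast_nonneg _) e10
  have e13 : ∑ q ∈ (PI z y).filter (fun q => q ∣ n), om y q < 1 / l := by
    rw [lt_div_iff₀ hl]
    linarith
  have e14 : Real.log n / Real.log y ≤ Real.log (Y ^ 2) / Real.log y := by
    have e15 : (0 : ℝ) < n := by exact_mod_cast (show 0 < n by omega)
    exact div_le_div_of_nonneg_right (Real.log_le_log e15 hnY) hly.le
  have e16 : (cardFactors n : ℝ) < r + 1 := by linarith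
  have e17 : cardFactors n < r + 1 := by exact_mod_cast e16
  omega

end Pool.Agent.Wb58c63
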