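import Pool.Agent.W_b58c63_h68.HW
import Pool.Agent.W_b58c63_h68.HOm
import Pool.Agent.W_b58c63_h68.HNum
import Pool.Agent.W_b58c63_h68.ExB

/-!
# The weighted sieve for one even number (helper68)
-/

set_option autoImplicit false

noncomputable section

open Finset ArithmeticFunction

namespace Pool.Agent.Wb58c63

/-- **The main term is positive.**

Proof. `A` from `sieve_final`; choose `δ > 0` with `A log 3 / 4 - δ - l (A + δ) (Ith θ + δ) / 4 ≥ c > 0`
(`l Ith θ < log 3`), `u₀` from `sieve_final` for `δ`. With `D = z ^ 4`, `y = D ^ θ`: lower bound sieve `s = 4`; for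
`q ∈ [z, y)`: `log (D / q) ≤ 3 log z`, `D / q > 1`, `log z / log (D / q) = (1 / 4) / (1 - t)`, `t = log q / log D`, and
`om y q = 1 - t / θ`. So the subtracted sum is at most
`VP (A + δ) (1 / 4) ∑_{q ∈ PI z y} Hth θ (log q / log D) / (q - 1) ≤ VP (A + δ) (1 / 4) (Ith θ + δ)` for large `D`
(`prime_riemann` with `t₀ = 1 / 4`, `t₁ = θ`, `int_Hth`). All primes of `PN N z` are odd since `N` is even. -/
theorem main_term (θ l : ℝ) (h0 : 1 / 4 < θ) (h1 : θ < 1) (hl : 0 < l)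
    (hI : l * Ith θ < Real.log 3) : ∃ c u₀ z₀ : ℝ, 0 < c ∧ 3 ≤ u₀ ∧ 3 ≤ z₀ ∧
      ∀ (N : ℕ) (z : ℝ), Even N → 1 ≤ N → z₀ ≤ z →
        c * VP gp (PN N z) ≤
          ∑ S ∈ (PN N z).powerset, rhoS false u₀ (z ^ 4) S * ∏ p ∈ S, gp p -
            l * ∑ q ∈ QN N z ((z ^ 4) ^ θ), om ((z ^ 4) ^ θ) q * gp q *
              ∑ S ∈ (PN N z).powerset, rhoS true u₀ (z ^ 4 / q) S * ∏ p ∈ S, gp p := by
  obtain ⟨A, hA, hS⟩ := sieve_final
  obtain ⟨δ, hδ, hc⟩ : ∃ δ : ℝ, 0 < δ ∧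
      0 < A * Real.log 3 / 4 - δ - l * ((A + δ) / 4 * (Ith θ + δ)) := by
    have hcont : ContinuousAt
        (fun δ : ℝ => A * Real.log 3 / 4 - δ - l * ((A + δ) / 4 * (Ith θ + δ))) 0 := by
      fun_prop
    have hpos : 0 < (fun δ : ℝ => A * Real.log 3 / 4 - δ - l * ((A + δ) / 4 * (Ith θ + δ))) 0 := by
      have h2 : 0 < A / 4 * (Real.log 3 - l * Ith θ) := mul_pos (by linarith) (by linarith)
      have h3 : (fun δ : ℝ => A * Real.log 3 / 4 - δ - l * ((A + δ) / 4 * (Ith θ + δ))) 0 =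
          A / 4 * (Real.log 3 - l * Ith θ) := by
        simp only []
        ring
      rw [h3]
      exact h2
    have h4 := hcont.eventually (lt_mem_nhds hpos)
    obtain ⟨r, hr0, hr⟩ := Metric.eventually_nhds_iff.1 h4
    refine ⟨r / 2, half_pos hr0, hr ?_⟩
    rw [Real.dist_eq, sub_zero, abs_of_pos (half_pos hr0)]
    linarith
  obtain ⟨u₀, hu₀, hS2⟩ := hS δ hδ
  obtain ⟨D₀, hD₀, hR⟩ := prime_riemann (Hth θ) (1 / 4) θ (by norm_num) h0.le
    (Hth_anti θ h0 h1) (Hth_nonneg θ h0 h1) δ hδ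
  refine ⟨A * Real.log 3 / 4 - δ - l * ((A + δ) / 4 * (Ith θ + δ)), u₀, max u₀ (max 3 D₀), hc, hu₀,
    (le_max_left 3 D₀).trans (le_max_right _ _), ?_⟩
  intro N z hN hN1 hz
  have hzu : u₀ ≤ z := (le_max_left _ _).trans hz
  have hz3 : 3 ≤ z := (le_max_left 3 D₀).trans ((le_max_right _ _).trans hz)
  have hzD : D₀ ≤ z := (le_max_right 3 D₀).trans ((le_max_right _ _).trans hz)
  have hz0 : 0 < z := by linarith
  have hz1 : 1 < z := by linarith
  have hlz : 0 < Real.log z := Real.log_pos hz1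
  obtain ⟨D, hD⟩ : ∃ D : ℝ, D = z ^ 4 := ⟨_, rfl⟩
  have hDz : z ≤ D := by
    rw [hD]
    exact le_self_pow₀ hz1.le (by norm_num)
  have hD1 : 1 < D := lt_of_lt_of_le hz1 hDz
  have hlD : Real.log D = 4 * Real.log z := by
    rw [hD, Real.log_pow]
    norm_num
  have hlD0 : 0 < Real.log D := Real.log_pos hD1
  have hP : ∀ p ∈ PN N z, p.Prime ∧ 3 ≤ p ∧ (p : ℝ) < z := by
    intro p hp
    obtain ⟨h2, h3⟩ := HW_mem_PN.1 hp
    obtain ⟨h4, _, h5⟩ := mem_PI.1 h2
    refine ⟨h4, ?_, h5⟩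
    have h6 : p ≠ 2 := by
      rintro rfl
      exact h3 hN.two_dvd
    have h7 := h4.two_le
    omega
  have hgp : ∀ p ∈ PN N z, 0 ≤ gp p ∧ gp p < 1 := fun p hp =>
    JFin_gp (by exact_mod_cast (hP p hp).2.1)
  have hV : 0 < VP gp (PN N z) := VP_pos hgp
  rw [← hD]
  have hlow := (hS2 (PN N z) z D hzu hD1 hP).1 hlD
  have hy : Real.log (D ^ θ) = θ * Real.log D := Real.log_rpow (by linarith) θ
  have hDq : D ^ (1 / 4 : ℝ) = z := by
    rw [hD, ← Real.rpow_natCast z 4, ← Real.rpow_mul hz0.le]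
    norm_num
  have hup : ∑ q ∈ QN N z (D ^ θ), om (D ^ θ) q * gp q *
      ∑ S ∈ (PN N z).powerset, rhoS true u₀ (D / q) S * ∏ p ∈ S, gp p ≤
      VP gp (PN N z) * ((A + δ) / 4 * (Ith θ + δ)) := by
    have h2 : ∀ q ∈ QN N z (D ^ θ), om (D ^ θ) q * gp q *
        ∑ S ∈ (PN N z).powerset, rhoS true u₀ (D / q) S * ∏ p ∈ S, gp p ≤
        VP gp (PN N z) * (A + δ) / 4 * (Hth θ (Real.log q / Real.log D) / ((q : ℝ) - 1)) := by
      intro q hq
      have hq0 := (HW_mem_QN.1 hq).1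
      obtain ⟨hq1, hq2, hq3⟩ := mem_PI.1 hq0
      have hqz : 0 < (q : ℝ) := by linarith
      have hq4 : (0 : ℝ) < (q : ℝ) - 1 := by linarith
      have hom : 0 ≤ om (D ^ θ) q := HW_om_nonneg hz1.le hq0
      have hgq : 0 ≤ gp q := (JFin_gp (by linarith)).1
      have hqD : (q : ℝ) < D := by
        refine hq3.trans ?_
        calc D ^ θ < D ^ (1 : ℝ) := Real.rpow_lt_rpow_of_exponent_lt hD1 h1
          _ = D := Real.rpow_one D
      have hDq1 : 1 < D / q := by rwa [one_lt_div hqz]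
      have hlq : Real.log z ≤ Real.log q := Real.log_le_log hz0 hq2
      have hlDq : Real.log (D / q) = Real.log D - Real.log q :=
        Real.log_div (by linarith) hqz.ne'
      have h3 : Real.log (D / q) ≤ 3 * Real.log z := by
        rw [hlDq, hlD]
        linarith
      have h4 := (hS2 (PN N z) z (D / q) hzu hDq1 hP).2 h3
      have hlDq0 : 0 < Real.log (D / q) := Real.log_pos hDq1
      have h5 : om (D ^ θ) q * gp q * (VP gp (PN N z) * ((A + δ) * (Real.log z / Real.log (D / q)))) =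
          VP gp (PN N z) * (A + δ) / 4 * (Hth θ (Real.log q / Real.log D) / ((q : ℝ) - 1)) := by
        unfold om gp Hth
        rw [hy]
        rw [hlDq] at hlDq0 ⊢
        have h6 : Real.log z = Real.log D / 4 := by rw [hlD]; ring
        rw [h6]
        have h7 : 1 - Real.log q / Real.log D ≠ 0 := by
          have : 1 - Real.log q / Real.log D = (Real.log D - Real.log q) / Real.log D := by
            field_simp
          rw [this]
          exact (div_pos hlDq0 hlD0).ne'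
        have h8 : θ ≠ 0 := by linarith
        have h9 : Real.log D / 4 / (Real.log D - Real.log q) =
            (1 / 4) / (1 - Real.log q / Real.log D) := by
          rw [div_eq_div_iff hlDq0.ne' h7]
          field_simp
        rw [h9]
        have h10 : Real.log q / (θ * Real.log D) = Real.log q / Real.log D / θ := by
          rw [div_div, mul_comm θ]
        rw [h10]
        ring
      rw [← h5]
      exact mul_le_mul_of_nonneg_left h4 (mul_nonneg hom hgq)
    refine (Finset.sum_le_sum h2).trans ?_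
    rw [← Finset.mul_sum]
    have h3 : ∑ q ∈ QN N z (D ^ θ), Hth θ (Real.log q / Real.log D) / ((q : ℝ) - 1) ≤
        ∑ q ∈ PI z (D ^ θ), Hth θ (Real.log q / Real.log D) / ((q : ℝ) - 1) := by
      refine Finset.sum_le_sum_of_subset_of_nonneg (fun q hq => (HW_mem_QN.1 hq).1) ?_
      intro q hq _
      obtain ⟨hq1, hq2, hq3⟩ := mem_PI.1 hq
      have hqz : 0 < (q : ℝ) := by linarith
      refine div_nonneg (Hth_nonneg θ h0 h1 _ ⟨?_, ?_⟩) (by linarith)
      · rw [div_le_div_iff₀ (by norm_num) hlD0, hlD]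
        have := Real.log_le_log hz0 hq2
        linarith
      · rw [div_le_iff₀ hlD0, ← hy]
        exact Real.log_le_log hqz hq3.le
    have h4 := hR D (hzD.trans hDz)
    rw [hDq, int_Hth θ h0 h1] at h4
    have h5 : 0 ≤ VP gp (PN N z) * (A + δ) / 4 := by
      have : 0 < A + δ := by linarith
      positivity
    calc VP gp (PN N z) * (A + δ) / 4 *
        ∑ q ∈ QN N z (D ^ θ), Hth θ (Real.log q / Real.log D) / ((q : ℝ) - 1) ≤
        VP gp (PN N z) * (A + δ) / 4 * (Ith θ + δ) := mul_le_mul_of_nonneg_left (h3.trans h4) h5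
      _ = VP gp (PN N z) * ((A + δ) / 4 * (Ith θ + δ)) := by ring
  have h6 := mul_le_mul_of_nonneg_left hup hl.le
  calc (A * Real.log 3 / 4 - δ - l * ((A + δ) / 4 * (Ith θ + δ))) * VP gp (PN N z) =
      VP gp (PN N z) * (A * Real.log 3 / 4 - δ) -
        l * (VP gp (PN N z) * ((A + δ) / 4 * (Ith θ + δ))) := by ring
    _ ≤ _ := sub_le_sub hlow h6

/-- **From the weighted sum to almost primes.** If the weighted sum is at least `c Y / log Y` then there are many `p`.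

Proof. `wt ≤ 1`, and `wt > 0` only if `(PN N z).filter (∣ N - p) = ∅` and `l ∑ om < 1`. Remove the `p` with `q ^ 2 ∣ N - p`,
`q ∈ PI z y` (`bad_squares`, at most `2 Y / z + y + 1`), and the `p > Y` which divide `N` (at most one, since `N ≤ Y ^ 2`); they
contribute at most `2 ^ k log (2 Y) (2 Y ^ (1 - a) + Y ^ b + 2) ≤ (c / 2) Y / log Y` for large `Y`. For the remaining `p` with
`ap ≠ 0` (so `Y < p < 2 Y`) and `n = N - p ≥ 1`: a prime `q ∣ n` does not divide `N` (else `q ∣ p`, `q = p ∣ N`), so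
`q ≥ z`, and `(QN N z y).filter (∣ n) = (PI z y).filter (∣ n)`; `omega_le`. Finally `ap ≤ 2 ^ k log (2 Y)`. -/
theorem almost_primes (k r : ℕ) (a b l c : ℝ) (ha : 0 < a) (hab : a < b) (hb : b < 1) (hl : 0 < l)
    (hc : 0 < c) (hr : 1 / l + 2 / b ≤ r + 1) : ∃ c' Y₀ : ℝ, 0 < c' ∧ 3 ≤ Y₀ ∧
      ∀ (Y : ℝ) (N : ℕ), Y₀ ≤ Y → Y ^ 2 / 2 < N → (N : ℝ) ≤ Y ^ 2 →
        c * Y / Real.log Y ≤ ∑ p ∈ Pr Y, ap k Y p * wt N (Y ^ a) (Y ^ b) l (N - p) →
          c' * Y / Real.log Y ^ 2 ≤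
            ((((Pr Y).filter fun p : ℕ => Y < (p : ℝ) ∧ cardFactors (N - p) ≤ r).card : ℕ) : ℝ) := by
  classical
  obtain ⟨e, he0, hea, heb⟩ : ∃ e : ℝ, 0 < e ∧ e ≤ a ∧ e ≤ 1 - b :=
    ⟨min a (1 - b), lt_min ha (by linarith), min_le_left _ _, min_le_right _ _⟩
  have hev : ∀ᶠ Y : ℝ in Filter.atTop, Real.log Y ^ 2 ≤ c / (20 * 2 ^ k) * Y ^ e := by
    have h1 := isLittleO_log_rpow_rpow_atTop 2 he0
    have h2 := h1.bound (c := c / (20 * 2 ^ k)) (by positivity)
    filter_upwards [h2, Filter.eventually_ge_atTop 1] with Y hY hY1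
    rw [Real.norm_of_nonneg (Real.rpow_nonneg (Real.log_nonneg hY1) _),
      Real.norm_of_nonneg (Real.rpow_nonneg (by linarith) _)] at hY
    rw [← Real.rpow_natCast]
    exact_mod_cast hY
  obtain ⟨Y₁, hY₁⟩ := Filter.eventually_atTop.1 hev
  refine ⟨c / (4 * 2 ^ k), max 4 Y₁, by positivity,
    le_trans (by norm_num) (le_max_left _ _), ?_⟩
  intro Y N hY hN1 hN2 hsum
  have hY4 : 4 ≤ Y := (le_max_left _ _).trans hY
  have hYY : Real.log Y ^ 2 ≤ c / (20 * 2 ^ k) * Y ^ e := hY₁ Y ((le_max_right _ _).trans hY)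
  have hY0 : 0 < Y := by linarith
  have hY1 : 1 ≤ Y := by linarith
  have hlog := ExB_log (show 3 ≤ Y by linarith)
  have hl0 : 0 < Real.log Y := by linarith
  have hN2Y : 2 * Y ≤ N := by nlinarith
  have hN1' : 1 ≤ N := by
    have : (1 : ℝ) ≤ N := by linarith
    exact_mod_cast this
  obtain ⟨z, hz⟩ : ∃ z, z = Y ^ a := ⟨_, rfl⟩
  obtain ⟨y, hy⟩ : ∃ y, y = Y ^ b := ⟨_, rfl⟩
  rw [← hz, ← hy] at hsum
  have hz1 : 1 ≤ z := by rw [hz]; exact Real.one_le_rpow hY1 ha.le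
  have hy1 : 1 < y := by rw [hy]; exact Real.one_lt_rpow (by linarith) (by linarith)
  obtain ⟨G, hG⟩ : ∃ G, G = (Pr Y).filter fun p : ℕ => Y < (p : ℝ) ∧ cardFactors (N - p) ≤ r :=
    ⟨_, rfl⟩
  obtain ⟨B₁, hB₁⟩ : ∃ B₁, B₁ = (Pr Y).filter fun p : ℕ => Y < (p : ℝ) ∧ ∃ q ∈ PI z y, q ^ 2 ∣ N - p :=
    ⟨_, rfl⟩
  obtain ⟨B₂, hB₂⟩ : ∃ B₂, B₂ = (Pr Y).filter fun p : ℕ => Y < (p : ℝ) ∧ p ∣ N := ⟨_, rfl⟩
  have hB₁c : (B₁.card : ℝ) ≤ 2 * Y / z + y + 1 := by
    rw [hB₁]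
    exact bad_squares Y z y hY1 hz1 hy1.le N hN2Y
  have hB₂c : B₂.card ≤ 1 := by
    rw [Finset.card_le_one]
    intro p hp p' hp'
    rw [hB₂, mem_filter, mem_Pr] at hp hp'
    by_contra hne
    have hco : Nat.Coprime p p' := (Nat.coprime_primes hp.1.1 hp'.1.1).2 hne
    have hdvd : p * p' ∣ N := hco.mul_dvd_of_dvd_of_dvd hp.2.2 hp'.2.2
    have hle : p * p' ≤ N := Nat.le_of_dvd (by omega) hdvd
    have hle' : (p : ℝ) * p' ≤ N := by exact_mod_cast hle
    have h1 : Y * Y < (p : ℝ) * p' := mul_lt_mul'' hp.2.1 hp'.2.1 hY0.le hY0.le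
    nlinarith
  obtain ⟨Mx, hMx⟩ : ∃ Mx : ℝ, Mx = 2 ^ k * Real.log (2 * Y) := ⟨_, rfl⟩
  have hMx0 : 0 ≤ Mx := by
    rw [hMx]
    have := Real.log_nonneg (show 1 ≤ 2 * Y by linarith)
    positivity
  have hwt1 : ∀ n, wt N z y l n ≤ 1 := by
    intro n
    unfold wt
    split_ifs
    · have h1 : 0 ≤ ∑ q ∈ (QN N z y).filter (fun q => q ∣ n), om y q :=
        Finset.sum_nonneg fun q hq => HW_om_nonneg hz1 (HW_mem_QN.1 (mem_filter.1 hq).1).1
      have h2 := mul_nonneg hl.le h1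
      linarith
    · exact zero_le_one
  have hpt : ∀ p ∈ Pr Y, ap k Y p * wt N z y l (N - p) ≤ if p ∈ G ∪ B₁ ∪ B₂ then Mx else 0 := by
    intro p hp
    have hap0 := ap_nonneg k Y hY1 p
    have hapM : ap k Y p ≤ Mx := by
      rw [hMx]
      exact ap_le k Y hY1 p
    split_ifs with h
    · calc ap k Y p * wt N z y l (N - p) ≤ ap k Y p * 1 :=
          mul_le_mul_of_nonneg_left (hwt1 _) hap0
        _ ≤ Mx := by rw [mul_one]; exact hapM
    · rcases eq_or_lt_of_le hap0 with h0 | h0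
      · rw [← h0, zero_mul]
      · refine mul_nonpos_of_nonneg_of_nonpos hap0 ?_
        by_contra hw
        push Not at hw
        have haw : aw k Y p ≠ 0 := by
          intro h1
          unfold ap at h0
          rw [h1, zero_mul] at h0
          exact lt_irrefl _ h0
        obtain ⟨hpY, hp2Y⟩ := aw_support k Y hY1 p haw
        have hpp := (mem_Pr.1 hp).1
        have hpN : ¬ p ∣ N := by
          intro h1
          apply h
          rw [mem_union]
          right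
          rw [hB₂, mem_filter]
          exact ⟨hp, hpY, h1⟩
        have hpB : ∀ q ∈ PI z y, ¬ q ^ 2 ∣ N - p := by
          intro q hq h1
          apply h
          rw [mem_union, mem_union]
          left
          right
          rw [hB₁, mem_filter]
          exact ⟨hp, hpY, q, hq, h1⟩
        have hpltN : p < N := by
          have h1 : (p : ℝ) < N := by linarith
          exact_mod_cast h1
        have hn1 : 1 ≤ N - p := by omega
        have hqN : ∀ q : ℕ, q.Prime → q ∣ N - p → ¬ q ∣ N := by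
          intro q hq h1 h2
          have h3 : q ∣ p := by
            have h4 := Nat.dvd_sub h2 h1
            have h5 : N - (N - p) = p := by omega
            rwa [h5] at h4
          have h6 : q = p := (Nat.prime_dvd_prime_iff_eq hq hpp).1 h3
          rw [h6] at h2
          exact hpN h2
        unfold wt at hw
        split_ifs at hw with hfil
        · have hqz : ∀ q : ℕ, q.Prime → q ∣ N - p → z ≤ q := by
            intro q hq h1
            by_contra h2
            push Not at h2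
            have h3 : q ∈ (PN N z).filter (fun p_1 => p_1 ∣ N - p) := by
              rw [mem_filter, HW_mem_PN, mem_PI]
              exact ⟨⟨⟨hq, Nat.cast_nonneg _, h2⟩, hqN q hq h1⟩, h1⟩
            rw [hfil] at h3
            simp at h3
          have hfe : (QN N z y).filter (fun q => q ∣ N - p) = (PI z y).filter (fun q => q ∣ N - p) := by
            ext q
            rw [mem_filter, mem_filter, HW_mem_QN]
            constructor
            · rintro ⟨⟨h1, _⟩, h2⟩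
              exact ⟨h1, h2⟩
            · rintro ⟨h1, h2⟩
              exact ⟨⟨h1, hqN q (mem_PI.1 h1).1 h2⟩, h2⟩
          rw [hfe] at hw
          have hom := omega_le (N - p) r Y z y l hn1 (by
            refine le_trans ?_ hN2
            exact_mod_cast Nat.sub_le N p) hy1 hl hqz hpB (by linarith) (by
            have h1 : Real.log (Y ^ 2) / Real.log y = 2 / b := by
              rw [hy, Real.log_rpow hY0, Real.log_pow]
              have hb0 : b ≠ 0 := by linarith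
              field_simp
              norm_num
            rw [h1]
            exact hr)
          apply h
          rw [mem_union, mem_union]
          left
          left
          rw [hG, mem_filter]
          exact ⟨hp, hpY, hom⟩
        · exact lt_irrefl _ hw
  have hsum2 : ∑ p ∈ Pr Y, ap k Y p * wt N z y l (N - p) ≤ Mx * (G.card + B₁.card + B₂.card) := by
    refine (Finset.sum_le_sum hpt).trans ?_
    rw [← Finset.sum_filter, Finset.sum_const, nsmul_eq_mul, mul_comm]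
    refine mul_le_mul_of_nonneg_left ?_ hMx0
    have h1 : ((Pr Y).filter fun p => p ∈ G ∪ B₁ ∪ B₂).card ≤ G.card + B₁.card + B₂.card := by
      refine (Finset.card_le_card (t := G ∪ B₁ ∪ B₂) (fun p hp => (mem_filter.1 hp).2)).trans ?_
      refine (Finset.card_union_le _ _).trans ?_
      exact Nat.add_le_add_right (Finset.card_union_le _ _) _
    exact_mod_cast h1
  have hlog2 : Real.log (2 * Y) ≤ 2 * Real.log Y := by
    rw [Real.log_mul (by norm_num) hY0.ne']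
    have := Real.log_le_log (by norm_num) (show (2 : ℝ) ≤ Y by linarith)
    linarith
  have hMx2 : Mx ≤ 2 ^ k * (2 * Real.log Y) := by
    rw [hMx]
    exact mul_le_mul_of_nonneg_left hlog2 (by positivity)
  have hYe : 2 * Y / z + y + 1 + 1 ≤ 5 * (Y / Y ^ e) := by
    have h1 : 2 * Y / z ≤ 2 * (Y / Y ^ e) := by
      rw [mul_div_assoc]
      refine mul_le_mul_of_nonneg_left ?_ (by norm_num)
      refine div_le_div_of_nonneg_left hY0.le (Real.rpow_pos_of_pos hY0 e) ?_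
      rw [hz]
      exact Real.rpow_le_rpow_of_exponent_le hY1 hea
    have h2 : Y / Y ^ e = Y ^ (1 - e) := by
      rw [Real.rpow_sub hY0, Real.rpow_one]
    have h3 : y ≤ Y / Y ^ e := by
      rw [h2, hy]
      exact Real.rpow_le_rpow_of_exponent_le hY1 (by linarith)
    have h4 : 1 ≤ Y / Y ^ e := by
      rw [h2]
      exact Real.one_le_rpow hY1 (by linarith)
    linarith
  have hB : Mx * (B₁.card + B₂.card) ≤ c / 2 * (Y / Real.log Y) := by
    have h1 : (B₁.card : ℝ) + B₂.card ≤ 5 * (Y / Y ^ e) := by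
      have h2 : (B₂.card : ℝ) ≤ 1 := by exact_mod_cast hB₂c
      linarith
    have hYe0 : 0 < Y ^ e := Real.rpow_pos_of_pos hY0 e
    calc Mx * (B₁.card + B₂.card) ≤ 2 ^ k * (2 * Real.log Y) * (5 * (Y / Y ^ e)) :=
          mul_le_mul hMx2 h1 (by positivity) (by positivity)
      _ = (10 * 2 ^ k * Real.log Y ^ 2) * (Y / (Y ^ e * Real.log Y)) := by
          field_simp
          ring
      _ ≤ (10 * 2 ^ k * (c / (20 * 2 ^ k) * Y ^ e)) * (Y / (Y ^ e * Real.log Y)) := by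
          refine mul_le_mul_of_nonneg_right ?_ (by positivity)
          exact mul_le_mul_of_nonneg_left hYY (by positivity)
      _ = c / 2 * (Y / Real.log Y) := by
          field_simp
          ring
  have hfin : c / 2 * (Y / Real.log Y) ≤ Mx * G.card := by
    have h1 : c * Y / Real.log Y = c / 2 * (Y / Real.log Y) + c / 2 * (Y / Real.log Y) := by ring
    have h2 := hsum.trans hsum2
    rw [h1] at h2
    have h3 : Mx * ((G.card : ℝ) + B₁.card + B₂.card) = Mx * G.card + Mx * (B₁.card + B₂.card) := by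
      ring
    rw [h3] at h2
    linarith
  rw [← hG]
  have h5 : c / 2 * (Y / Real.log Y) ≤ 2 ^ k * (2 * Real.log Y) * G.card :=
    hfin.trans (mul_le_mul_of_nonneg_right hMx2 (Nat.cast_nonneg _))
  calc c / (4 * 2 ^ k) * Y / Real.log Y ^ 2 =
      c / 2 * (Y / Real.log Y) / (2 ^ k * (2 * Real.log Y)) := by
        field_simp
        norm_num
    _ ≤ 2 ^ k * (2 * Real.log Y) * G.card / (2 ^ k * (2 * Real.log Y)) :=
        div_le_div_of_nonneg_right h5 (by positivity)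
    _ = G.card := by
        field_simp

/-- **The result for one even number.**

Proof. `z = Y ^ (κ / 2)`, `D = z ^ 4 = Y ^ (2 κ)`, `y = D ^ θ = Y ^ (2 κ θ)`; `main_term`, `W_ge` with `M = ⌊Y ^ κ'⌋₊` (the supports
are at most `primorial * D ≤ Y ^ κ'` for large `Y`), `XM_ge`, `VP_ge`
(`VP ≥ c / log z ≥ c / log Y`): the weighted sum is at least `c₁ Y / log Y - (1 + l) η Y / log Y ≥ (c₁ / 2) Y / log Y`;
`almost_primes` with `a = κ / 2`, `b = 2 κ θ` (`2 / b = 1 / (κ θ)`; `a < b` since `θ > 1 / 4`). -/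
theorem perN (k r : ℕ) (κ θ l κ' : ℝ) (hκ : 0 < κ) (h0 : 1 / 4 < θ) (h1 : θ < 1)
    (h2 : 2 * κ * θ < 1) (hl : 0 < l) (hr : 1 / l + 1 / (κ * θ) ≤ r + 1)
    (hI : l * Ith θ < Real.log 3) (hκ' : 2 * κ < κ') :
    ∃ η c Y₀ u₀ : ℝ, 0 < η ∧ 0 < c ∧ 3 ≤ Y₀ ∧ ∀ Y : ℝ, Y₀ ≤ Y →
      Adm Y κ' (rho1 u₀ (Y ^ (κ / 2)) (Y ^ (2 * κ))) ∧
      Adm Y κ' (rho2 u₀ (Y ^ (κ / 2)) (Y ^ (2 * κ * θ)) (Y ^ (2 * κ))) ∧
      ∀ N : ℕ, Even N → Y ^ 2 / 2 < N → (N : ℝ) ≤ Y ^ 2 →
        |Err k Y (rho1 u₀ (Y ^ (κ / 2)) (Y ^ (2 * κ))) ⌊Y ^ κ'⌋₊ N| ≤ η * Y / Real.log Y →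
        |Err k Y (rho2 u₀ (Y ^ (κ / 2)) (Y ^ (2 * κ * θ)) (Y ^ (2 * κ))) ⌊Y ^ κ'⌋₊ N| ≤
          η * Y / Real.log Y →
        c * Y / Real.log Y ^ 2 ≤
          ((((Pr Y).filter fun p : ℕ => Y < (p : ℝ) ∧ cardFactors (N - p) ≤ r).card : ℕ) : ℝ) := by
  obtain ⟨c₁, u₀, z₀, hc₁, hu₀, hz₀, hmain⟩ := main_term θ l h0 h1 hl hI
  obtain ⟨c₂, hc₂, hVP⟩ := VP_ge
  obtain ⟨c₃, Y₁, hc₃, hY₁, hXM⟩ := XM_ge k
  obtain ⟨c₄, hc₄⟩ : ∃ c₄ : ℝ, c₄ = c₃ * (c₁ * (c₂ * (2 / κ))) := ⟨_, rfl⟩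
  have hc₄0 : 0 < c₄ := by rw [hc₄]; positivity
  have hκ2 : κ / 2 < 2 * κ * θ := by nlinarith
  have hκθ : 2 * κ * θ < 2 * κ := by nlinarith
  obtain ⟨c', Y₂, hc', hY₂, halm⟩ := almost_primes k r (κ / 2) (2 * κ * θ) l (c₄ / 2)
    (by linarith) hκ2 h2 hl (by positivity) (by
      have h3 : 2 / (2 * κ * θ) = 1 / (κ * θ) := by
        have : θ ≠ 0 := by linarith
        field_simp
      rw [h3]
      exact hr)
  -- the support condition
  obtain ⟨Pm, hPm⟩ : ∃ Pm : ℝ, Pm = (primorial ⌈u₀⌉₊ : ℝ) := ⟨_, rfl⟩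
  have hev1 : ∀ᶠ Y : ℝ in Filter.atTop, Pm ≤ Y ^ (κ' - 2 * κ) :=
    (tendsto_rpow_atTop (by linarith)).eventually_ge_atTop Pm
  have hev2 : ∀ᶠ Y : ℝ in Filter.atTop, max 3 z₀ ≤ Y ^ (κ / 2) :=
    (tendsto_rpow_atTop (by linarith)).eventually_ge_atTop (max 3 z₀)
  obtain ⟨Y₃, hY₃⟩ := Filter.eventually_atTop.1 (hev1.and hev2)
  refine ⟨c₄ / (2 * (1 + l)), c', max (max Y₁ Y₂) (max 4 Y₃), u₀, by positivity, hc',
    le_trans (by norm_num) ((le_max_left 4 Y₃).trans (le_max_right _ _)), fun Y hY => ?_⟩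
  have hYa : Y₁ ≤ Y := ((le_max_left _ _).trans (le_max_left _ _)).trans hY
  have hYb : Y₂ ≤ Y := ((le_max_right _ _).trans (le_max_left _ _)).trans hY
  have hY4 : 4 ≤ Y := ((le_max_left _ _).trans (le_max_right _ _)).trans hY
  have hY3 : 3 ≤ Y := by linarith
  obtain ⟨hPY, hzY⟩ := hY₃ Y (((le_max_right _ _).trans (le_max_right _ _)).trans hY)
  have hY0 : 0 < Y := by linarith
  have hY1 : 1 ≤ Y := by linarith
  have hY1' : 1 < Y := by linarith
  have hlog := ExB_log hY3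
  have hl0 : 0 < Real.log Y := by linarith
  obtain ⟨z, hz⟩ : ∃ z, z = Y ^ (κ / 2) := ⟨_, rfl⟩
  obtain ⟨y, hy⟩ : ∃ y, y = Y ^ (2 * κ * θ) := ⟨_, rfl⟩
  obtain ⟨D, hD⟩ : ∃ D, D = Y ^ (2 * κ) := ⟨_, rfl⟩
  rw [← hz] at hzY
  have hz3 : 3 ≤ z := (le_max_left _ _).trans hzY
  have hzz₀ : z₀ ≤ z := (le_max_right _ _).trans hzY
  have hzy : z ≤ y := by
    rw [hz, hy]
    exact Real.rpow_le_rpow_of_exponent_le hY1 hκ2.le
  have hyD : y < D := by
    rw [hy, hD]
    exact Real.rpow_lt_rpow_of_exponent_lt hY1' hκθ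
  have hD1 : 1 < D := by linarith
  have hz4 : z ^ 4 = D := by
    rw [hz, hD, ← Real.rpow_natCast, ← Real.rpow_mul hY0.le]
    congr 1
    push_cast
    ring
  have hDθ : D ^ θ = y := by
    rw [hD, hy, ← Real.rpow_mul hY0.le]
  have hz2D : z ^ 2 ≤ D := by
    rw [← hz4]
    exact pow_le_pow_right₀ (by linarith) (by norm_num)
  have hPD : Pm * D ≤ Y ^ κ' := by
    calc Pm * D ≤ Y ^ (κ' - 2 * κ) * Y ^ (2 * κ) := by
          rw [hD]
          exact mul_le_mul_of_nonneg_right hPY (Real.rpow_nonneg hY0.le _)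
      _ = Y ^ κ' := by
          rw [← Real.rpow_add hY0]
          congr 1
          ring
  have hyY : y ≤ Y := by
    calc y ≤ Y ^ (1 : ℝ) := by
          rw [hy]
          exact Real.rpow_le_rpow_of_exponent_le hY1 h2.le
      _ = Y := Real.rpow_one Y
  have hadm1 : Adm Y κ' (rho1 u₀ z D) := by
    refine ⟨fun d => (rho1_adm u₀ z D hD1 (by linarith) hz2D d).1, fun d hd => ?_⟩
    obtain ⟨e1, e2, e3⟩ := (rho1_adm u₀ z D hD1 (by linarith) hz2D d).2 hd
    rw [← hPm] at e2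
    refine ⟨e1, e2.trans hPD, fun p hp hpd => ?_⟩
    have := e3 p hp hpd
    linarith
  have hadm2 : Adm Y κ' (rho2 u₀ z y D) := by
    refine ⟨fun d => (rho2_adm u₀ z y D (by linarith) hzy hyD.le d).1, fun d hd => ?_⟩
    obtain ⟨e1, e2, e3⟩ := (rho2_adm u₀ z y D (by linarith) hzy hyD.le d).2 hd
    rw [← hPm] at e2
    refine ⟨e1, e2.trans hPD, fun p hp hpd => ?_⟩
    have := e3 p hp hpd
    linarith
  rw [← hz, ← hy, ← hD]
  refine ⟨hadm1, hadm2, ?_⟩
  intro N hN hN1 hN2 hE1 hE2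
  have hN2Y : 2 * Y ≤ N := by nlinarith
  have hzκ : Real.log z = κ / 2 * Real.log Y := by rw [hz, Real.log_rpow hY0]
  have hlz : 0 < Real.log z := by rw [hzκ]; positivity
  have hN1' : 1 ≤ N := by
    have : (1 : ℝ) ≤ N := by linarith
    exact_mod_cast this
  have hM1 : ∀ m, rho1 u₀ z D m ≠ 0 → m ≤ ⌊Y ^ κ'⌋₊ := by
    intro m hm
    exact Nat.le_floor (hadm1.2 m hm).2.1
  have hM2 : ∀ q ∈ PI z y, ∀ m, smz z m → rhoS true u₀ (D / q) m.primeFactors ≠ 0 →
      q * m ≤ ⌊Y ^ κ'⌋₊ := by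
    intro q hq m hm hne
    obtain ⟨hq1, hq2, hq3⟩ := mem_PI.1 hq
    have hq0 : (0 : ℝ) < q := by linarith
    have hDq : 1 < D / q := by
      rw [one_lt_div hq0]
      linarith
    have e1 := rhoS_true_support u₀ (D / q) hDq m.primeFactors
      (fun p hp => Nat.prime_of_mem_primeFactors hp) hne
    rw [Nat.prod_primeFactors_of_squarefree hm.1, ← hPm] at e1
    refine Nat.le_floor ?_
    calc ((q * m : ℕ) : ℝ) = q * m := by push_cast; ring
      _ ≤ q * (Pm * (D / q)) := mul_le_mul_of_nonneg_left e1 hq0.le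
      _ = Pm * D := by field_simp
      _ ≤ Y ^ κ' := hPD
  have hW := W_ge k Y hY1 N hN2Y z y l u₀ D (by linarith) hl.le ⌊Y ^ κ'⌋₊ hM1 hM2
  have hmt := hmain N z hN hN1' hzz₀
  rw [hz4, hDθ] at hmt
  have hVPz : c₂ / Real.log z ≤ VP gp (PN N z) := by
    refine hVP (PN N z) z hz3 (fun p hp => ?_)
    obtain ⟨e2, e3⟩ := HW_mem_PN.1 hp
    obtain ⟨e4, _, e5⟩ := mem_PI.1 e2
    refine ⟨e4, ?_, e5⟩
    have e6 : p ≠ 2 := by
      rintro rfl
      exact e3 hN.two_dvd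
    have e7 := e4.two_le
    omega
  have hXY := hXM Y hYa
  have hbr : c₄ * (Y / Real.log Y) ≤ XM k Y *
      (∑ S ∈ (PN N z).powerset, rhoS false u₀ D S * ∏ p ∈ S, gp p -
        l * ∑ q ∈ QN N z y, om y q * gp q *
          ∑ S ∈ (PN N z).powerset, rhoS true u₀ (D / q) S * ∏ p ∈ S, gp p) := by
    calc c₄ * (Y / Real.log Y) = c₃ * Y * (c₁ * (c₂ / Real.log z)) := by
          rw [hc₄, hzκ]
          field_simp
      _ ≤ XM k Y * (c₁ * VP gp (PN N z)) :=
          mul_le_mul hXY (mul_le_mul_of_nonneg_left hVPz hc₁.le) (by positivity)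
            (le_trans (by positivity) hXY)
      _ ≤ _ := mul_le_mul_of_nonneg_left hmt (le_trans (by positivity) hXY)
  have hE1' := (abs_le.1 hE1).1
  have hE2' := (abs_le.1 hE2).2
  have hηe : c₄ / (2 * (1 + l)) * Y / Real.log Y * (1 + l) = c₄ / 2 * Y / Real.log Y := by
    have : 1 + l ≠ 0 := by linarith
    field_simp
  refine halm Y N hYb hN1 hN2 ?_
  rw [← hz, ← hy]
  refine le_trans ?_ hW
  have hlE : l * Err k Y (rho2 u₀ z y D) ⌊Y ^ κ'⌋₊ N ≤
      l * (c₄ / (2 * (1 + l)) * Y / Real.log Y) := mul_le_mul_of_nonneg_left hE2' hl.le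
  have e8 : c₄ / 2 * Y / Real.log Y = c₄ * (Y / Real.log Y) - c₄ / 2 * Y / Real.log Y := by ring
  have e9 : c₄ / (2 * (1 + l)) * Y / Real.log Y * (1 + l) = c₄ / (2 * (1 + l)) * Y / Real.log Y +
      l * (c₄ / (2 * (1 + l)) * Y / Real.log Y) := by ring
  rw [e8, ← hηe, e9]
  linarith

end Pool.Agent.Wb58c63
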