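import Pool.Agent.W_b58c63_h68.Defs

/-!
# The majorant of the sieve functions (helper68)
-/

set_option autoImplicit false

noncomputable section

open MeasureTheory

namespace Pool.Agent.Wb58c63

/-- The majorant `exp (-(6 / 5) max (s, 2))`. -/
def hh (s : ℝ) : ℝ := Real.exp (-(6 / 5) * max s 2)

theorem hh_pos (s : ℝ) : 0 < hh s := Real.exp_pos _

theorem hh_antitone : Antitone hh := by
  intro s t hst
  unfold hh
  refine Real.exp_le_exp.2 ?_
  have : max s 2 ≤ max t 2 := max_le_max_right 2 hst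
  linarith

/-- `exp (6 / 5) ≤ 3.3202`. -/
theorem JHh_exp : Real.exp (6 / 5) ≤ 33202 / 10000 := by
  have h1 : Real.exp (6 / 5) = Real.exp 1 * Real.exp (1 / 5) := by
    rw [← Real.exp_add]
    norm_num
  have h2 : Real.exp 1 ≤ 27183 / 10000 := by
    have := Real.exp_one_lt_d9
    linarith
  have h3 : Real.exp (1 / 5) ≤ 122141 / 100000 := by
    have h4 : Real.exp (1 / 5) = Real.exp (1 / 5 : ℝ) := rfl
    have := Real.exp_bound' (x := 1 / 5) (by norm_num) (by norm_num) (n := 5) (by norm_num)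
    refine this.trans ?_
    simp [Finset.sum_range_succ, Nat.factorial]
    norm_num
  rw [h1]
  have h5 := Real.exp_pos (1 / 5)
  nlinarith [Real.exp_pos 1]

/-- `exp (6 / 5) ≤ 4`. -/
theorem hh_shift (s : ℝ) : hh (s - 1) ≤ 4 * hh s := by
  unfold hh
  have h1 : max s 2 ≤ max (s - 1) 2 + 1 := by
    refine max_le ?_ ?_
    · have := le_max_left (s - 1) 2
      linarith
    · have := le_max_right (s - 1) 2
      linarith
  have h2 : Real.exp (-(6 / 5) * max (s - 1) 2) =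
      Real.exp (6 / 5) * Real.exp (-(6 / 5) * (max (s - 1) 2 + 1)) := by
    rw [← Real.exp_add]
    congr 1
    ring
  have h3 : Real.exp (-(6 / 5) * (max (s - 1) 2 + 1)) ≤ Real.exp (-(6 / 5) * max s 2) :=
    Real.exp_le_exp.2 (by linarith)
  rw [h2]
  have h4 := JHh_exp
  have h5 := Real.exp_pos (6 / 5)
  have h6 := Real.exp_pos (-(6 / 5) * max s 2)
  nlinarith

theorem JHh_eq_far (t : ℝ) (ht : 3 ≤ t) : hh (t - 1) = Real.exp (6 / 5) * Real.exp (-(6 / 5) * t) := by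
  unfold hh
  rw [max_eq_left (by linarith), ← Real.exp_add]
  congr 1
  ring

theorem JHh_int_far (s : ℝ) (hs : 3 ≤ s) : IntegrableOn (fun t => hh (t - 1)) (Set.Ioi s) := by
  have h1 : IntegrableOn (fun t : ℝ => Real.exp (6 / 5) * Real.exp (-(6 / 5) * t)) (Set.Ioi s) :=
    (integrableOn_exp_mul_Ioi (by norm_num) s).const_mul _
  refine h1.congr_fun (fun t ht => ?_) measurableSet_Ioi
  exact (JHh_eq_far t (hs.trans (le_of_lt ht))).symm

theorem JHh_far (s : ℝ) (hs : 3 ≤ s) :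
    ∫ t in Set.Ioi s, hh (t - 1) = 5 / 6 * (Real.exp (6 / 5) * hh s) := by
  have h1 : ∫ t in Set.Ioi s, hh (t - 1) =
      ∫ t in Set.Ioi s, Real.exp (6 / 5) * Real.exp (-(6 / 5) * t) := by
    refine setIntegral_congr_fun measurableSet_Ioi fun t ht => ?_
    exact JHh_eq_far t (hs.trans (le_of_lt ht))
  rw [h1, integral_const_mul, integral_exp_mul_Ioi (by norm_num) s]
  unfold hh
  rw [max_eq_left (by linarith)]
  ring

theorem JHh_meas : Measurable (fun t : ℝ => hh (t - 1)) := by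
  unfold hh
  fun_prop

theorem hh_integrable (s : ℝ) : IntegrableOn (fun t => hh (t - 1)) (Set.Ioi s) := by
  rcases le_or_gt 3 s with hs | hs
  · exact JHh_int_far s hs
  · rw [← Set.Ioc_union_Ioi_eq_Ioi hs.le]
    refine IntegrableOn.union ?_ (JHh_int_far 3 le_rfl)
    have hc : Continuous (fun t : ℝ => hh (t - 1)) := by
      unfold hh
      fun_prop
    exact (hc.integrableOn_Icc).mono_set Set.Ioc_subset_Icc_self

/-- For `s ≥ 3` the integral is `(5 / 6) exp (-(6 / 5) (s - 1)) = (5 / 6) e ^ (6 / 5) hh s ≤ 2.77 hh s ≤ 0.99 s hh s`. For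
`1 ≤ s ≤ 3` it is `(5 / 6) e ^ (-12 / 5)`; for `s ≤ 2` this is `(5 / 6) hh s ≤ 0.99 s hh s`, for `2 ≤ s ≤ 3` the function
`s exp (-(6 / 5) s)` decreases and at `s = 3` `(5 / 6) e ^ (6 / 5) ≤ 2.77 ≤ 2.97`. -/
theorem hh_odd (s : ℝ) (hs : 1 ≤ s) :
    ∫ t in Set.Ioi (max s 3), hh (t - 1) ≤ 99 / 100 * s * hh s := by
  rw [JHh_far _ (le_max_right _ _)]
  have he := JHh_exp
  have he0 := Real.exp_pos (6 / 5)
  rcases le_or_gt 3 s with h3 | h3
  · rw [max_eq_left h3]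
    have h4 := hh_pos s
    have h5 : 5 / 6 * Real.exp (6 / 5) ≤ 99 / 100 * s := by nlinarith
    nlinarith
  · rw [max_eq_right h3.le]
    rcases le_or_gt s 2 with h2 | h2
    · have h4 : hh s = Real.exp (-(12 / 5)) := by
        unfold hh
        rw [max_eq_right h2]
        norm_num
      have h5 : Real.exp (6 / 5) * hh 3 = Real.exp (-(12 / 5)) := by
        unfold hh
        rw [max_eq_left (by norm_num), ← Real.exp_add]
        norm_num
      rw [h4, h5]
      have h6 := Real.exp_pos (-(12 / 5))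
      nlinarith
    · -- `2 < s < 3`
      have h4 : hh s = Real.exp (6 / 5 * (3 - s)) * hh 3 := by
        unfold hh
        rw [max_eq_left h2.le, max_eq_left (by norm_num), ← Real.exp_add]
        congr 1
        ring
      have h5 := Real.add_one_le_exp (6 / 5 * (3 - s))
      have h6 := hh_pos 3
      have h7 : 5 / 6 * Real.exp (6 / 5) ≤ 99 / 100 * s * Real.exp (6 / 5 * (3 - s)) := by
        have h8 : 99 / 100 * s * (6 / 5 * (3 - s) + 1) ≤ 99 / 100 * s * Real.exp (6 / 5 * (3 - s)) :=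
          mul_le_mul_of_nonneg_left h5 (by linarith)
        nlinarith
      rw [h4]
      nlinarith

/-- For `2 ≤ s ≤ 3` the integral is `(3 - s) e ^ (-12 / 5) + (5 / 6) e ^ (-12 / 5)`, so the claim is
`(23 / 6 - s) exp ((6 / 5) (s - 2)) ≤ 0.99 s`; with `x = s - 2 ∈ [0, 1]`: `(11 / 6 - x) exp (6 x / 5) ≤ 0.99 (2 + x)`. The
quotient of the two sides is at most `0.985` (maximum of `(11 / 6 - x) exp (6 x / 5) / (2 + x)` about `0.975` near `x = 0.6`);
use `exp (6 x / 5) ≤ 1 + 1.2 x + 0.72 x ^ 2 + 0.288 x ^ 3 + 0.0864 x ^ 4 + 0.03 x ^ 5` for `0 ≤ x ≤ 1` and a polynomial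
inequality. For `s ≥ 3` it is `hh_odd`. -/
theorem hh_even (s : ℝ) (hs : 2 ≤ s) : ∫ t in Set.Ioi s, hh (t - 1) ≤ 99 / 100 * s * hh s := by
  rcases le_or_gt 3 s with h3 | h3
  · have := hh_odd s (by linarith)
    rwa [max_eq_left h3] at this
  have hc : Continuous (fun t : ℝ => hh (t - 1)) := by
    unfold hh
    fun_prop
  rw [← Set.Ioc_union_Ioi_eq_Ioi h3.le, setIntegral_union Set.Ioc_disjoint_Ioi_same
    measurableSet_Ioi (hc.integrableOn_Icc.mono_set Set.Ioc_subset_Icc_self) (hh_integrable 3),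
    JHh_far 3 le_rfl]
  have h1 : ∫ t in Set.Ioc s 3, hh (t - 1) = ∫ t in Set.Ioc s 3, Real.exp (-(12 / 5)) := by
    refine setIntegral_congr_fun measurableSet_Ioc fun t ht => ?_
    unfold hh
    rw [max_eq_right (by linarith [ht.2])]
    norm_num
  have h2 : Real.exp (6 / 5) * hh 3 = Real.exp (-(12 / 5)) := by
    unfold hh
    rw [max_eq_left (by norm_num), ← Real.exp_add]
    norm_num
  have h4 : hh s = Real.exp (-(6 / 5) * s) := by
    unfold hh
    rw [max_eq_left hs]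
  have h5 : Real.exp (-(12 / 5)) = Real.exp (6 / 5 * (s - 2)) * Real.exp (-(6 / 5) * s) := by
    rw [← Real.exp_add]
    congr 1
    ring
  rw [h1, h2, setIntegral_const, Real.volume_real_Ioc_of_le h3.le, smul_eq_mul, h4, h5]
  obtain ⟨x, rfl⟩ : ∃ x, s = x + 2 := ⟨s - 2, by ring⟩
  have hx0 : 0 ≤ x := by linarith
  have hx1 : x ≤ 1 := by linarith
  have hx1' : 0 ≤ 1 - x := by linarith
  have h6 : Real.exp (6 / 5 * (x + 2 - 2)) ≤
      1 + 6 / 5 * x + 18 / 25 * x ^ 2 + 36 / 125 * x ^ 3 + 54 / 625 * x ^ 4 + 3 / 100 * x ^ 5 := by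
    have h7 : Real.exp (6 / 5 * (x + 2 - 2)) = Real.exp (3 / 5 * x) ^ 2 := by
      rw [← Real.exp_nat_mul]
      congr 1
      push_cast
      ring
    have h8 : Real.exp (3 / 5 * x) ≤ 1 + (3 / 5 * x) + (3 / 5 * x) ^ 2 / 2 + (3 / 5 * x) ^ 3 / 6 +
        (3 / 5 * x) ^ 4 / 24 + (3 / 5 * x) ^ 5 / 100 := by
      have := Real.exp_bound' (x := 3 / 5 * x) (by positivity) (by linarith) (n := 5) (by norm_num)
      refine this.trans (le_of_eq ?_)
      simp [Finset.sum_range_succ, Nat.factorial]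
      ring
    rw [h7]
    have h9 := pow_le_pow_left₀ (Real.exp_pos _).le h8 2
    refine h9.trans ?_
    have e6 : x ^ 6 ≤ x ^ 5 := pow_le_pow_of_le_one hx0 hx1 (by norm_num)
    have e7 : x ^ 7 ≤ x ^ 5 := pow_le_pow_of_le_one hx0 hx1 (by norm_num)
    have e8 : x ^ 8 ≤ x ^ 5 := pow_le_pow_of_le_one hx0 hx1 (by norm_num)
    have e9 : x ^ 9 ≤ x ^ 5 := pow_le_pow_of_le_one hx0 hx1 (by norm_num)
    have e10 : x ^ 10 ≤ x ^ 5 := pow_le_pow_of_le_one hx0 hx1 (by norm_num)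
    have e5 : 0 ≤ x ^ 5 := by positivity
    ring_nf
    linarith
  have h10 : (11 / 6 - x) * (1 + 6 / 5 * x + 18 / 25 * x ^ 2 + 36 / 125 * x ^ 3 +
      54 / 625 * x ^ 4 + 3 / 100 * x ^ 5) ≤ 99 / 100 * (x + 2) := by
    have h11 : 99 / 100 * (x + 2) - (11 / 6 - x) * (1 + 6 / 5 * x + 18 / 25 * x ^ 2 +
        36 / 125 * x ^ 3 + 54 / 625 * x ^ 4 + 3 / 100 * x ^ 5) =
        11/75 * (x ^ 0 * (1 - x) ^ 6) + 67/100 * (x ^ 1 * (1 - x) ^ 5) + 103/100 * (x ^ 2 * (1 - x) ^ 4) + 409/750 * (x ^ 3 * (1 - x) ^ 3) + 107/1250 * (x ^ 4 * (1 - x) ^ 2) + 1083/5000 * (x ^ 5 * (1 - x) ^ 1) + 599/3000 * (x ^ 6 * (1 - x) ^ 0) := by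
      ring
    have h12 : 0 ≤ 11/75 * (x ^ 0 * (1 - x) ^ 6) + 67/100 * (x ^ 1 * (1 - x) ^ 5) + 103/100 * (x ^ 2 * (1 - x) ^ 4) + 409/750 * (x ^ 3 * (1 - x) ^ 3) + 107/1250 * (x ^ 4 * (1 - x) ^ 2) + 1083/5000 * (x ^ 5 * (1 - x) ^ 1) + 599/3000 * (x ^ 6 * (1 - x) ^ 0) := by
      positivity
    linarith
  have h13 : 0 < Real.exp (-(6 / 5) * (x + 2)) := Real.exp_pos _
  have h14 : (11 / 6 - x) * Real.exp (6 / 5 * (x + 2 - 2)) ≤ 99 / 100 * (x + 2) :=
    le_trans (mul_le_mul_of_nonneg_left h6 (by linarith)) h10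
  have h15 := mul_le_mul_of_nonneg_right h14 h13.le
  linarith

end Pool.Agent.Wb58c63
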