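import Pool.Agent.W_b58c63_h68.Defs

/-!
# Rosser's sieve weights (helper68)
-/

set_option autoImplicit false

noncomputable section

open Finset

namespace Pool.Agent.Wb58c63

open Classical in
/-- Rosser's weights (with exponent two) along a descending list of primes: `true` is the upper bound sieve,
`false` the lower bound sieve. -/
def lam : Bool → ℝ → List ℕ → ℝ
  | _, _, [] => 1
  | true, D, p :: L => if (p : ℝ) ^ 3 < D then -lam false (D / p) L else 0
  | false, D, p :: L => -lam true (D / p) L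

/-- Rosser's weights of a finite set of primes. -/
def lamF (b : Bool) (D : ℝ) (S : Finset ℕ) : ℝ := lam b D (S.sort (· ≥ ·))

/-- The main term of the sieve. -/
def GG (g : ℕ → ℝ) (b : Bool) (D : ℝ) (P : Finset ℕ) : ℝ :=
  ∑ S ∈ P.powerset, lamF b D S * ∏ p ∈ S, g p

/-- The Euler product. -/
def VP (g : ℕ → ℝ) (P : Finset ℕ) : ℝ := ∏ p ∈ P, (1 - g p)

theorem abs_lam_le (b : Bool) (D : ℝ) (L : List ℕ) : |lam b D L| ≤ 1 := by
  induction L generalizing b D with
  | nil => cases b <;> simp [lam]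
  | cons p L ih =>
    cases b
    · rw [lam, abs_neg]
      exact ih _ _
    · rw [lam]
      split_ifs
      · rw [abs_neg]
        exact ih _ _
      · simp

theorem abs_lamF_le (b : Bool) (D : ℝ) (S : Finset ℕ) : |lamF b D S| ≤ 1 := abs_lam_le b D _

theorem JLam_expand (f : Finset ℕ → ℝ) (P : Finset ℕ) :
    ∑ S ∈ P.powerset, f S =
      f ∅ + ∑ p ∈ P, ∑ S ∈ (P.filter fun q => q < p).powerset, f (insert p S) := by
  induction P using Finset.induction_on_max with
  | empty => simp
  | insert a s ha ih =>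
    have has : a ∉ s := fun h => lt_irrefl _ (ha a h)
    rw [Finset.sum_powerset_insert has, ih, Finset.sum_insert has]
    have h1 : (insert a s).filter (fun q => q < a) = s := by
      rw [Finset.filter_insert, if_neg (lt_irrefl a), Finset.filter_true_of_mem ha]
    have h2 : ∀ p ∈ s, (insert a s).filter (fun q => q < p) = s.filter (fun q => q < p) := by
      intro p hp
      rw [Finset.filter_insert, if_neg (not_lt.2 (ha p hp).le)]
    have h3 : ∑ p ∈ s, ∑ S ∈ ((insert a s).filter fun q => q < p).powerset, f (insert p S) =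
        ∑ p ∈ s, ∑ S ∈ (s.filter fun q => q < p).powerset, f (insert p S) :=
      Finset.sum_congr rfl fun p hp => by rw [h2 p hp]
    rw [h1, h3]
    ring

theorem JLam_insert (b : Bool) (D : ℝ) (p : ℕ) (S : Finset ℕ) (h : ∀ q ∈ S, q < p) :
    lamF b D (insert p S) = lam b D (p :: S.sort (· ≥ ·)) := by
  unfold lamF
  rw [Finset.sort_insert (· ≥ ·) (fun b hb => (h b hb).le) fun hp => lt_irrefl _ (h p hp)]

theorem JLam_empty (b : Bool) (D : ℝ) : lamF b D ∅ = 1 := by
  unfold lamF
  rw [Finset.sort_empty]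
  cases b <;> simp [lam]

theorem JLam_mem {P S : Finset ℕ} {p : ℕ} (hS : S ∈ (P.filter fun q => q < p).powerset) :
    ∀ q ∈ S, q < p := fun _ hq => (Finset.mem_filter.1 (Finset.mem_powerset.1 hS hq)).2

/-- **Expansion along the largest element.** Every nonempty `S ⊆ P` is `insert p S'` with `p` its largest element and
`S' ⊆ {q ∈ P | q < p}`; `sort (insert p S') = p :: sort S'` (`Finset.sort_insert`). -/
theorem GG_false (g : ℕ → ℝ) (D : ℝ) (P : Finset ℕ) :
    GG g false D P = 1 - ∑ p ∈ P, g p * GG g true (D / p) (P.filter fun q => q < p) := by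
  unfold GG
  rw [JLam_expand, JLam_empty, Finset.prod_empty, mul_one, sub_eq_add_neg,
    ← Finset.sum_neg_distrib]
  congr 1
  refine Finset.sum_congr rfl fun p hp => ?_
  rw [Finset.mul_sum, ← Finset.sum_neg_distrib]
  refine Finset.sum_congr rfl fun S hS => ?_
  have h1 := JLam_mem hS
  rw [JLam_insert _ _ _ _ h1, lam, Finset.prod_insert fun hp => lt_irrefl _ (h1 p hp)]
  unfold lamF
  ring

open Classical in
/-- The same for the upper bound sieve. -/
theorem GG_true (g : ℕ → ℝ) (D : ℝ) (P : Finset ℕ) :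
    GG g true D P =
      1 - ∑ p ∈ P.filter (fun p : ℕ => (p : ℝ) ^ 3 < D),
        g p * GG g false (D / p) (P.filter fun q => q < p) := by
  unfold GG
  rw [JLam_expand, JLam_empty, Finset.prod_empty, mul_one, sub_eq_add_neg,
    ← Finset.sum_neg_distrib, Finset.sum_filter]
  congr 1
  refine Finset.sum_congr rfl fun p hp => ?_
  split_ifs with hpD
  · rw [Finset.mul_sum, ← Finset.sum_neg_distrib]
    refine Finset.sum_congr rfl fun S hS => ?_
    have h1 := JLam_mem hS
    rw [JLam_insert _ _ _ _ h1, lam, if_pos hpD,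
      Finset.prod_insert fun hp => lt_irrefl _ (h1 p hp)]
    unfold lamF
    ring
  · refine Finset.sum_eq_zero fun S hS => ?_
    have h1 := JLam_mem hS
    rw [JLam_insert _ _ _ _ h1, lam, if_neg hpD, zero_mul]

/-- The same for the Euler product (`∏ (1 - g p) = ∑_S (-1) ^ |S| ∏ g p`, or induction on `P`). -/
theorem VP_expand (g : ℕ → ℝ) (P : Finset ℕ) :
    VP g P = 1 - ∑ p ∈ P, g p * VP g (P.filter fun q => q < p) := by
  induction P using Finset.induction_on_max with
  | empty => simp [VP]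
  | insert a s ha ih =>
    have has : a ∉ s := fun h => lt_irrefl _ (ha a h)
    rw [Finset.sum_insert has]
    have h1 : (insert a s).filter (fun q => q < a) = s := by
      rw [Finset.filter_insert, if_neg (lt_irrefl a), Finset.filter_true_of_mem ha]
    have h2 : ∀ p ∈ s, (insert a s).filter (fun q => q < p) = s.filter (fun q => q < p) := by
      intro p hp
      rw [Finset.filter_insert, if_neg (not_lt.2 (ha p hp).le)]
    rw [h1, Finset.sum_congr rfl fun p hp => by rw [h2 p hp]]
    have h3 : VP g (insert a s) = (1 - g a) * VP g s := by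
      unfold VP
      rw [Finset.prod_insert has]
    rw [h3]
    have h4 : ∑ p ∈ s, g p * VP g (s.filter fun q => q < p) = 1 - VP g s := by
      linarith
    rw [h4]
    ring

open Classical in
/-- In the upper bound sieve only the primes with `p ^ 3 < D` matter (`GG_true` for `P` and for the filtered set: the
inner sets `{q < p}` are the same). -/
theorem GG_true_filter (g : ℕ → ℝ) (D : ℝ) (P : Finset ℕ) :
    GG g true D P = GG g true D (P.filter fun p : ℕ => (p : ℝ) ^ 3 < D) := by
  rw [GG_true g D P, GG_true g D (P.filter fun p : ℕ => (p : ℝ) ^ 3 < D), Finset.filter_filter]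
  congr 1
  simp only [and_self]
  refine Finset.sum_congr rfl fun p hp => ?_
  have hpD := (Finset.mem_filter.1 hp).2
  congr 2
  ext q
  simp only [Finset.mem_filter]
  constructor
  · rintro ⟨h1, h2⟩
    refine ⟨⟨h1, lt_of_le_of_lt ?_ hpD⟩, h2⟩
    have h3 : (q : ℝ) ≤ p := by exact_mod_cast h2.le
    gcongr
  · rintro ⟨⟨h1, -⟩, h2⟩
    exact ⟨h1, h2⟩

theorem JLam_GG_one (b : Bool) (D : ℝ) (P : Finset ℕ) :
    ∑ S ∈ P.powerset, lamF b D S = GG (fun _ => 1) b D P := by
  unfold GG
  simp

/-- **The sieve inequalities** (`g = 1`): `∑_{S ⊆ P} λ⁺(S) ≥ [P = ∅]` and `∑_{S ⊆ P} λ⁻(S) ≤ [P = ∅]`.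

Proof. Simultaneous strong induction on the cardinality, for all `D`. Let `p₀` be the smallest element of `P ≠ ∅`, the
inner set of `p₀` is empty. `GG_false`: `GG 1 false D P = 1 - GG 1 true (D / p₀) ∅ - (others, ≥ 0) ≤ 1 - 1 = 0`.
`GG_true`: `GG 1 true D P ≥ 1 - [p₀ ^ 3 < D] GG 1 false (D / p₀) ∅ - (others, ≤ 0) ≥ 0`. -/
theorem sieve_ineq (P : Finset ℕ) : ∀ D : ℝ,
    (if P = ∅ then (1 : ℝ) else 0) ≤ ∑ S ∈ P.powerset, lamF true D S ∧
      ∑ S ∈ P.powerset, lamF false D S ≤ (if P = ∅ then (1 : ℝ) else 0) := by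
  classical
  induction P using Finset.strongInduction with
  | H P ih =>
    intro D
    rcases P.eq_empty_or_nonempty with rfl | hne
    · simp [JLam_empty]
    have hP : P ≠ ∅ := hne.ne_empty
    rw [if_neg hP, JLam_GG_one, JLam_GG_one, GG_true, GG_false]
    have hss : ∀ p ∈ P, (P.filter fun q => q < p) ⊂ P := fun p hp =>
      Finset.filter_ssubset.2 ⟨p, hp, lt_irrefl p⟩
    obtain ⟨p₀, hp₀, hmin⟩ : ∃ p₀ ∈ P, ∀ q ∈ P, p₀ ≤ q :=
      ⟨P.min' hne, P.min'_mem hne, fun q hq => P.min'_le q hq⟩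
    have hemp : (P.filter fun q => q < p₀) = ∅ :=
      Finset.filter_false_of_mem fun q hq => not_lt.2 (hmin q hq)
    have hnem : ∀ p ∈ P, p ≠ p₀ → (P.filter fun q => q < p) ≠ ∅ := by
      intro p hp hne' h
      have h1 : p₀ ∈ P.filter fun q => q < p :=
        Finset.mem_filter.2 ⟨hp₀, lt_of_le_of_ne (hmin p hp) hne'.symm⟩
      rw [h] at h1
      simp at h1
    constructor
    · have h1 : ∑ p ∈ P.filter (fun p : ℕ => (p : ℝ) ^ 3 < D),
          (1 : ℝ) * GG (fun _ => 1) false (D / p) (P.filter fun q => q < p) ≤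
          ∑ p ∈ P.filter (fun p : ℕ => (p : ℝ) ^ 3 < D), if p = p₀ then (1 : ℝ) else 0 := by
        refine Finset.sum_le_sum fun p hp => ?_
        have hpP := (Finset.mem_filter.1 hp).1
        have h2 := (ih _ (hss p hpP) (D / p)).2
        rw [JLam_GG_one] at h2
        rw [one_mul]
        refine h2.trans ?_
        by_cases hpp : p = p₀
        · rw [if_pos hpp]
          split_ifs <;> norm_num
        · rw [if_neg hpp, if_neg (hnem p hpP hpp)]
      have h2 : (∑ p ∈ P.filter (fun p : ℕ => (p : ℝ) ^ 3 < D),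
          if p = p₀ then (1 : ℝ) else 0) ≤ 1 := by
        rw [Finset.sum_ite_eq']
        split_ifs <;> norm_num
      linarith
    · have h1 : (1 : ℝ) ≤ ∑ p ∈ P, (1 : ℝ) * GG (fun _ => 1) true (D / p)
          (P.filter fun q => q < p) := by
        have h3 : ∀ p ∈ P, (0 : ℝ) ≤ (1 : ℝ) * GG (fun _ => 1) true (D / p)
            (P.filter fun q => q < p) := by
          intro p hp
          have h2 := (ih _ (hss p hp) (D / p)).1
          rw [JLam_GG_one] at h2
          rw [one_mul]
          refine le_trans ?_ h2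
          split_ifs <;> norm_num
        have h4 := Finset.single_le_sum h3 hp₀
        have h5 := (ih _ (hss p₀ hp₀) (D / p₀)).1
        rw [JLam_GG_one, if_pos hemp] at h5
        linarith
      linarith

/-- **Support of the weights, lists.**

Proof. Simultaneous induction on the list. Upper: `lam true D (p :: L) ≠ 0` gives `p ^ 3 < D`, so `1 < D / p` and
all elements of `L` satisfy `q ≤ p`, `p ^ 2 ≤ D / p`; the lower claim for `D / p` gives `∏ L < D / p`. Lower, with
`q ≤ z` for all elements and `z ^ 2 ≤ D`, `1 < D`: `lam false D (p :: L) ≠ 0` gives `lam true (D / p) L ≠ 0`, and `D / p > 1`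
if `p < D` (`p ≤ z`, `p ^ 2 ≤ D`, `D > 1`: if `p = D` then `D ^ 2 ≤ D`), so `∏ L < D / p`. -/
theorem lam_support (L : List ℕ) (hL : L.Pairwise (· > ·)) (h1 : ∀ p ∈ L, 1 ≤ p) :
    (∀ D : ℝ, 1 < D → lam true D L ≠ 0 → ((L.prod : ℕ) : ℝ) < D) ∧
      (∀ D z : ℝ, 1 < D → z ^ 2 ≤ D → (∀ p ∈ L, (p : ℝ) ≤ z) → lam false D L ≠ 0 →
        ((L.prod : ℕ) : ℝ) < D) := by
  induction L with
  | nil =>
    refine ⟨fun D hD _ => ?_, fun D z hD _ _ _ => ?_⟩
    · simpa using hD
    · simpa using hD
  | cons p L ih =>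
    have hL' := List.pairwise_cons.1 hL
    obtain ⟨ihT, ihF⟩ := ih hL'.2 fun q hq => h1 q (List.mem_cons_of_mem _ hq)
    have hp1 : (1 : ℝ) ≤ p := by exact_mod_cast h1 p List.mem_cons_self
    have hp0 : (0 : ℝ) < p := by linarith
    have hprod : ∀ D : ℝ, ((L.prod : ℕ) : ℝ) < D / p → (((p :: L).prod : ℕ) : ℝ) < D := by
      intro D h
      rw [lt_div_iff₀ hp0] at h
      rw [List.prod_cons]
      push_cast at h ⊢
      linarith
    constructor
    · intro D hD hne
      rw [lam] at hne
      split_ifs at hne with hpD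
      · have h2 : lam false (D / p) L ≠ 0 := fun h => hne (by rw [h, neg_zero])
        refine hprod D (ihF (D / p) p ?_ ?_ ?_ h2)
        · rw [lt_div_iff₀ hp0, one_mul]
          refine lt_of_le_of_lt ?_ hpD
          nlinarith [mul_nonneg (sub_nonneg.2 hp1) hp0.le, sq_nonneg ((p : ℝ) - 1)]
        · rw [le_div_iff₀ hp0]
          refine le_trans (le_of_eq ?_) hpD.le
          ring
        · intro q hq
          exact_mod_cast (hL'.1 q hq).le
      · exact absurd rfl hne
    · intro D z hD hzD hz hne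
      rw [lam] at hne
      have h2 : lam true (D / p) L ≠ 0 := fun h => hne (by rw [h, neg_zero])
      refine hprod D (ihT (D / p) ?_ h2)
      rw [lt_div_iff₀ hp0, one_mul]
      have h3 : (p : ℝ) ≤ z := hz p List.mem_cons_self
      by_contra h4
      push Not at h4
      have h5 : D ^ 2 ≤ z ^ 2 := by
        have : D ≤ z := h4.trans h3
        gcongr
      nlinarith

theorem JLam_prod (S : Finset ℕ) : (S.sort (· ≥ ·)).prod = ∏ p ∈ S, p := by
  rw [Finset.prod, Multiset.map_id', ← Finset.sort_eq S (· ≥ ·), Multiset.prod_coe]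

theorem lamF_true_support (D : ℝ) (hD : 1 < D) (S : Finset ℕ) (h1 : ∀ p ∈ S, 1 ≤ p)
    (h : lamF true D S ≠ 0) : ((∏ p ∈ S, p : ℕ) : ℝ) < D := by
  have h2 := (lam_support (S.sort (· ≥ ·)) (Finset.sortedGT_sort S).pairwise
    (fun p hp => h1 p ((Finset.mem_sort _).1 hp))).1 D hD h
  rwa [JLam_prod] at h2

theorem lamF_false_support (D z : ℝ) (hD : 1 < D) (hz : z ^ 2 ≤ D) (S : Finset ℕ)
    (h1 : ∀ p ∈ S, 1 ≤ p) (h2 : ∀ p ∈ S, (p : ℝ) ≤ z) (h : lamF false D S ≠ 0) :
    ((∏ p ∈ S, p : ℕ) : ℝ) < D := by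
  have h3 := (lam_support (S.sort (· ≥ ·)) (Finset.sortedGT_sort S).pairwise
    (fun p hp => h1 p ((Finset.mem_sort _).1 hp))).2 D z hD hz
    (fun p hp => h2 p ((Finset.mem_sort _).1 hp)) h
  rwa [JLam_prod] at h3

end Pool.Agent.Wb58c63
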