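import Pool.Agent.W_b58c63_h68.JStB

/-!
# The main terms of the linear sieve (helper68)
-/

set_option autoImplicit false

noncomputable section

open Finset MeasureTheory

namespace Pool.Agent.Wb58c63

variable {u w : ℝ → ℝ} {C : ℝ}

/-- the two definitions of the set of the elements below `p` agree -/
theorem JMain_below (P : Finset ℕ) (p : ℕ) : (P.filter fun q => q < p) = below P (p : ℝ) := by
  classical
  unfold below
  exact Finset.filter_congr fun q _ => Nat.cast_lt.symm

/-- arithmetic of `D / p` -/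
theorem JMain_div {p : ℕ} {D : ℝ} (hp : 2 ≤ (p : ℝ)) (hD1 : 1 < D) (k : ℝ)
    (hk : (k + 1) * Real.log p ≤ Real.log D) (hk1 : 1 ≤ k) :
    1 < D / p ∧ k * Real.log p ≤ Real.log (D / p) ∧
      Real.log (D / p) / Real.log p = Real.log D / Real.log p - 1 := by
  have hp0 : (0 : ℝ) < p := by linarith
  have hlp : 0 < Real.log p := Real.log_pos (by linarith)
  have hD0 : 0 < D := by linarith
  have hlog : Real.log (D / p) = Real.log D - Real.log p := Real.log_div hD0.ne' hp0.ne'
  have h1 : 0 < Real.log (D / p) := by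
    rw [hlog]
    nlinarith
  refine ⟨?_, by rw [hlog]; linarith, ?_⟩
  · by_contra hcon
    push Not at hcon
    have h2 := Real.log_nonpos (div_pos hD0 hp0).le hcon
    linarith
  · rw [hlog, sub_div, div_self hlp.ne']

/-- **Main theorem on the main terms.** Strong induction on the cardinality of `P`, for all `z`, `D`: the sets
`P.filter (· < p)` are smaller, `Reg.sub`, with `z = p` and `D / p`. -/
theorem J_main (h : UW u w C) (C₁ : ℝ) (hC₁ : 1000000 * C ≤ C₁) (ε : ℝ) (hε : 0 < ε)
    (hε1 : ε ≤ 1 / 1000) (g : ℕ → ℝ) (u₀ : ℝ) (hu : 2 ≤ u₀) (P : Finset ℕ)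
    (hg : ∀ p ∈ P, 0 ≤ g p ∧ g p < 1) (hR : Reg g P (1 + ε) u₀) :
    ∀ z D : ℝ, u₀ ≤ z → 1 < D → (∀ p ∈ P, u₀ ≤ (p : ℝ) ∧ (p : ℝ) < z) →
      (2 * Real.log z ≤ Real.log D →
        VP g P * (1 - w (Real.log D / Real.log z) - ε * C₁ * hh (Real.log D / Real.log z)) ≤
          GG g false D P) ∧
      (Real.log z ≤ Real.log D →
        GG g true D P ≤ VP g P *
          (1 + u (Real.log D / Real.log z) + ε * C₁ * hh (Real.log D / Real.log z))) := by
  have hC := h.C_pos
  have hC0 : 0 ≤ C₁ := by linarith
  have hC1 : 1000 * C ≤ C₁ := by linarith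
  have hu1 : 1 < u₀ := by linarith
  have hK : 1 ≤ 1 + ε := by linarith
  revert hg hR
  induction P using Finset.strongInduction with
  | H P ih =>
    intro hg hR z D hz hD1 hP
    -- the induction hypothesis for the set below `p`
    have key : ∀ p ∈ P, ∀ k : ℝ, 1 ≤ k → (k + 1) * Real.log p ≤ Real.log D →
        (2 ≤ k → VP g (P.filter fun q => q < p) *
          (1 - w (Real.log D / Real.log p - 1) - ε * C₁ * hh (Real.log D / Real.log p - 1)) ≤
            GG g false (D / p) (P.filter fun q => q < p)) ∧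
        GG g true (D / p) (P.filter fun q => q < p) ≤ VP g (P.filter fun q => q < p) *
          (1 + u (Real.log D / Real.log p - 1) +
            ε * C₁ * hh (Real.log D / Real.log p - 1)) := by
      intro p hp k hk1 hk
      have hp2 : 2 ≤ (p : ℝ) := le_trans hu (hP p hp).1
      obtain ⟨h1, h2, h3⟩ := JMain_div hp2 hD1 k hk hk1
      have hlp : 0 < Real.log p := Real.log_pos (by linarith)
      have hss : (P.filter fun q => q < p) ⊂ P := by
        refine Finset.filter_ssubset.2 ⟨p, hp, lt_irrefl p⟩
      have hR' : Reg g (P.filter fun q => q < p) (1 + ε) u₀ := by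
        rw [JMain_below]
        exact hR.sub hu1 hK hg (p : ℝ) (hP p hp).1
      have h4 := ih _ hss (fun q hq => hg q (Finset.mem_filter.1 hq).1) hR' (p : ℝ) (D / p)
        (hP p hp).1 h1 (fun q hq => ⟨(hP q (Finset.mem_filter.1 hq).1).1,
          Nat.cast_lt.2 (Finset.mem_filter.1 hq).2⟩)
      rw [h3] at h4
      refine ⟨fun hk2 => h4.1 ?_, h4.2 ?_⟩
      · nlinarith
      · nlinarith
    have hz1 : 1 < z := by linarith
    have hlz : 0 < Real.log z := Real.log_pos hz1
    have hlog : ∀ p ∈ P, Real.log p ≤ Real.log z := fun p hp =>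
      Real.log_le_log (by linarith [(hP p hp).1]) (hP p hp).2.le
    have htrue3 : ∀ p ∈ P, 3 * Real.log p ≤ Real.log D → VP g (P.filter fun q => q < p) *
        (1 - w (Real.log D / Real.log p - 1) - ε * C₁ * hh (Real.log D / Real.log p - 1)) ≤
          GG g false (D / p) (P.filter fun q => q < p) := fun p hp h3 =>
      (key p hp 2 (by norm_num) (by linarith)).1 le_rfl
    refine ⟨fun hD => ?_, fun hD => ?_⟩
    · refine J_false_step h C₁ hC1 ε hε hε1 g P u₀ z D hu hz hg hP hR hD hD1 fun p hp => ?_
      exact (key p hp 1 le_rfl (by linarith [hlog p hp])).2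
    · rcases le_or_gt (3 * Real.log z) (Real.log D) with h3 | h3
      · refine J_true_step h C₁ hC1 ε hε hε1 g P u₀ z D hu hz hg hP hR h3 hD1 fun p hp => ?_
        exact htrue3 p hp (by linarith [hlog p hp])
      · have hsmall := J_true_small h C₁ hC0 ε hε g P u₀ z D hu hz hg hP hR h3 hD1
          fun p hp hp3 => htrue3 p hp (by
            have h4 : Real.log ((p : ℝ) ^ 3) ≤ Real.log D :=
              Real.log_le_log (pow_pos (by linarith [(hP p hp).1]) 3) hp3.le
            rw [Real.log_pow] at h4
            exact_mod_cast h4)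
        refine hsmall.trans ?_
        refine mul_le_mul_of_nonneg_left ?_ (VP_pos hg).le
        refine J_true_const h C₁ hC₁ ε hε hε1 _ ?_ ?_
        · rw [le_div_iff₀ hlz]
          linarith
        · rw [div_le_iff₀ hlz]
          exact h3.le

end Pool.Agent.Wb58c63
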