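import Pool.Agent.W_b58c63_h68.JHh

/-!
# The functions of the linear sieve (helper68)

`u = F - 1` and `w = 1 - f` in the usual notation.
-/

set_option autoImplicit false

noncomputable section

open MeasureTheory

namespace Pool.Agent.Wb58c63

/-- The integral equations of the linear sieve. -/
structure UW (u w : ℝ → ℝ) (C : ℝ) : Prop where
  C_pos : 0 < C
  u_anti : Antitone u
  w_anti : Antitone w
  u_nonneg : ∀ s, 0 ≤ u s
  w_nonneg : ∀ s, 0 ≤ w s
  u_le : ∀ s, u s ≤ C * hh s
  w_le : ∀ s, w s ≤ C * hh s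
  w_eq : ∀ s, 2 ≤ s → s * w s = ∫ t in Set.Ioi s, u (t - 1)
  u_eq : ∀ s, 1 ≤ s → s * u s = max (3 - s) 0 + ∫ t in Set.Ioi (max s 3), w (t - 1)

variable {u w : ℝ → ℝ} {C : ℝ}

open scoped ENNReal

lemma juw_int {v : ℝ → ℝ} (ha : Antitone v) (h0 : ∀ s, 0 ≤ v s) (hle : ∀ s, v s ≤ C * hh s) (s : ℝ) :
    IntegrableOn (fun t => v (t - 1)) (Set.Ioi s) := by
  refine Integrable.mono' ((hh_integrable s).const_mul C)
    (ha.measurable.comp (measurable_id.sub_const 1)).aestronglyMeasurable
    (Filter.Eventually.of_forall fun t => ?_)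
  rw [Real.norm_eq_abs, abs_of_nonneg (h0 _)]
  exact hle _

/-- `u (t - 1)` is integrable at infinity (measurable since antitone, `≤ C hh (t - 1)`). -/
theorem UW.u_int (h : UW u w C) (s : ℝ) : IntegrableOn (fun t => u (t - 1)) (Set.Ioi s) :=
  juw_int h.u_anti h.u_nonneg h.u_le s

theorem UW.w_int (h : UW u w C) (s : ℝ) : IntegrableOn (fun t => w (t - 1)) (Set.Ioi s) :=
  juw_int h.w_anti h.w_nonneg h.w_le s

/-- `s (1 + u s)` is constant on `[1, 3]` (from `u_eq`: `s + (3 - s) + ∫_3^∞ w (t - 1) dt`). -/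
theorem UW.F_eq (h : UW u w C) (s : ℝ) (h1 : 1 ≤ s) (h3 : s ≤ 3) :
    s * (1 + u s) = 3 * (1 + u 3) := by
  have e1 := h.u_eq s h1
  have e2 := h.u_eq 3 (by norm_num)
  rw [max_eq_left (by linarith), max_eq_right h3] at e1
  rw [max_eq_right (by norm_num), max_self] at e2
  linarith

lemma juw_shift (f : ℝ → ℝ) (a : ℝ) : ∫ t in Set.Ioi a, f (t - 1) = ∫ x in Set.Ioi (a - 1), f x := by
  have h := (measurePreserving_sub_right volume (1 : ℝ)).setIntegral_preimage_emb
    (measurableEmbedding_subRight 1) f (Set.Ioi (a - 1))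
  have h2 : (fun x : ℝ => x - 1) ⁻¹' Set.Ioi (a - 1) = Set.Ioi a := by
    ext x
    simp
  rwa [h2] at h

lemma juw_shift_int (f : ℝ → ℝ) (a : ℝ) :
    IntegrableOn (fun t => f (t - 1)) (Set.Ioi a) ↔ IntegrableOn f (Set.Ioi (a - 1)) := by
  have h := (measurePreserving_sub_right volume (1 : ℝ)).integrableOn_comp_preimage
    (measurableEmbedding_subRight 1) (f := f) (s := Set.Ioi (a - 1))
  have h2 : (fun x : ℝ => x - 1) ⁻¹' Set.Ioi (a - 1) = Set.Ioi a := by
    ext x
    simp
  rwa [h2] at h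

lemma juw_tonelli (g : ℝ → ℝ≥0∞) (hg : Measurable g) (a b : ℝ) :
    ∫⁻ s in Set.Ioi a, ∫⁻ t in Set.Ioi (max s b), g t =
      ∫⁻ t in Set.Ioi b, ENNReal.ofReal (t - a) * g t := by
  have h1 : ∀ s, ∫⁻ t in Set.Ioi (max s b), g t =
      ∫⁻ t, (Set.Ioi (max s b)).indicator g t := fun s => by
    rw [lintegral_indicator measurableSet_Ioi]
  simp_rw [h1]
  rw [lintegral_lintegral_swap]
  · rw [← lintegral_indicator measurableSet_Ioi]
    apply lintegral_congr
    intro t
    by_cases hb : b < t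
    · rw [Set.indicator_of_mem (Set.mem_Ioi.2 hb)]
      have h2 : ∀ s, (Set.Ioi (max s b)).indicator g t = (Set.Iio t).indicator (fun _ => g t) s := by
        intro s
        by_cases hs : s < t
        · rw [Set.indicator_of_mem (Set.mem_Ioi.2 (max_lt hs hb)),
            Set.indicator_of_mem (Set.mem_Iio.2 hs)]
        · rw [Set.indicator_of_notMem, Set.indicator_of_notMem]
          · simpa using hs
          · simp only [Set.mem_Ioi, max_lt_iff, not_and]
            exact fun h => absurd h hs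
      simp_rw [h2]
      rw [lintegral_indicator measurableSet_Iio, Measure.restrict_restrict measurableSet_Iio,
        setLIntegral_const]
      have h3 : Set.Iio t ∩ Set.Ioi a = Set.Ioo a t := by
        ext x; simp [and_comm]
      rw [h3, Real.volume_Ioo, mul_comm]
    · rw [Set.indicator_of_notMem (by simpa using hb)]
      have h2 : ∀ s, (Set.Ioi (max s b)).indicator g t = 0 := by
        intro s
        apply Set.indicator_of_notMem
        simp only [Set.mem_Ioi, max_lt_iff, not_and]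
        exact fun _ => hb
      simp_rw [h2]
      simp
  · apply Measurable.aemeasurable
    have h3 : Function.uncurry (fun s t => (Set.Ioi (max s b)).indicator g t) =
        Set.indicator {p : ℝ × ℝ | max p.1 b < p.2} (fun p => g p.2) := by
      ext ⟨s, t⟩
      by_cases hs : max s b < t
      · rw [Set.indicator_of_mem (show (s, t) ∈ {p : ℝ × ℝ | max p.1 b < p.2} from hs)]
        show (Set.Ioi (max s b)).indicator g t = _
        rw [Set.indicator_of_mem (Set.mem_Ioi.2 hs)]
      · rw [Set.indicator_of_notMem (show (s, t) ∉ {p : ℝ × ℝ | max p.1 b < p.2} from hs)]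
        show (Set.Ioi (max s b)).indicator g t = _
        rw [Set.indicator_of_notMem (show t ∉ Set.Ioi (max s b) from hs)]
    rw [h3]
    exact (hg.comp measurable_snd).indicator
      (measurableSet_lt (measurable_fst.max measurable_const) measurable_snd)

lemma juw_ton (g : ℝ → ℝ) (hg : Measurable g) (h0 : ∀ t, 0 ≤ g t) (a b : ℝ) (hab : a ≤ b)
    (hgi : ∀ s, IntegrableOn g (Set.Ioi s))
    (hi : IntegrableOn (fun t => (t - a) * g t) (Set.Ioi b)) :
    IntegrableOn (fun s => ∫ t in Set.Ioi (max s b), g t) (Set.Ioi a) ∧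
      ∫ s in Set.Ioi a, ∫ t in Set.Ioi (max s b), g t = ∫ t in Set.Ioi b, (t - a) * g t := by
  have hF0 : ∀ s, 0 ≤ ∫ t in Set.Ioi (max s b), g t := fun s => integral_nonneg fun t => h0 t
  have hFa : Antitone fun s => ∫ t in Set.Ioi (max s b), g t := by
    intro s t hst
    exact setIntegral_mono_set (hgi _) (Filter.Eventually.of_forall fun t => h0 t)
      (Filter.Eventually.of_forall (Set.Ioi_subset_Ioi (max_le_max hst le_rfl)))
  have hl : ∫⁻ s in Set.Ioi a, ENNReal.ofReal (∫ t in Set.Ioi (max s b), g t) =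
      ∫⁻ t in Set.Ioi b, ENNReal.ofReal ((t - a) * g t) := by
    have e1 : ∀ s, ENNReal.ofReal (∫ t in Set.Ioi (max s b), g t) =
        ∫⁻ t in Set.Ioi (max s b), ENNReal.ofReal (g t) := fun s =>
      ofReal_integral_eq_lintegral_ofReal (hgi _) (Filter.Eventually.of_forall fun t => h0 t)
    simp_rw [e1]
    rw [juw_tonelli (fun t => ENNReal.ofReal (g t)) (ENNReal.measurable_ofReal.comp hg)]
    apply setLIntegral_congr_fun measurableSet_Ioi
    intro t ht
    have : 0 ≤ t - a := by
      have := Set.mem_Ioi.1 ht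
      linarith
    simp only
    rw [ENNReal.ofReal_mul this]
  have hnn : ∀ᵐ t ∂(volume.restrict (Set.Ioi b)), 0 ≤ (t - a) * g t := by
    refine (ae_restrict_iff' measurableSet_Ioi).2 (Filter.Eventually.of_forall fun t ht => ?_)
    have := Set.mem_Ioi.1 ht
    exact mul_nonneg (by linarith) (h0 t)
  have hfin : ∫⁻ s in Set.Ioi a, ENNReal.ofReal (∫ t in Set.Ioi (max s b), g t) ≠ ∞ := by
    rw [hl]
    exact (lintegral_ofReal_ne_top_iff_integrable hi.aestronglyMeasurable hnn).2 hi
  refine ⟨(lintegral_ofReal_ne_top_iff_integrable hFa.measurable.aestronglyMeasurable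
    (Filter.Eventually.of_forall hF0)).1 hfin, ?_⟩
  rw [integral_eq_lintegral_of_nonneg_ae (Filter.Eventually.of_forall hF0)
    hFa.measurable.aestronglyMeasurable, hl,
    integral_eq_lintegral_of_nonneg_ae hnn hi.aestronglyMeasurable]

lemma juw_mul_int {v : ℝ → ℝ} (ha : Antitone v) (h0 : ∀ s, 0 ≤ v s) (hle : ∀ s, v s ≤ C * hh s)
    {s : ℝ} (hs : 0 ≤ s) : IntegrableOn (fun x => x * v x) (Set.Ioi s) := by
  have h1 : IntegrableOn (fun x => (5 * C) * Real.exp (-1 * x)) (Set.Ioi s) :=
    (integrableOn_exp_mul_Ioi (by norm_num) s).const_mul _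
  refine Integrable.mono' h1 (measurable_id.mul ha.measurable).aestronglyMeasurable ?_
  refine (ae_restrict_iff' measurableSet_Ioi).2 (Filter.Eventually.of_forall fun x hx => ?_)
  have hx0 : 0 < x := lt_of_le_of_lt hs hx
  rw [Real.norm_eq_abs, abs_of_nonneg (mul_nonneg hx0.le (h0 x))]
  have h2 : x ≤ 5 * Real.exp (x / 5) := by
    have := Real.add_one_le_exp (x / 5)
    linarith
  have h3 : hh x ≤ Real.exp (-(6 / 5) * x) := by
    unfold hh
    apply Real.exp_le_exp.2
    have := le_max_left x 2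
    linarith
  have hC : 0 ≤ C := by
    have := (h0 0).trans (hle 0)
    exact nonneg_of_mul_nonneg_left this (hh_pos 0)
  calc x * v x ≤ (5 * Real.exp (x / 5)) * (C * Real.exp (-(6 / 5) * x)) :=
        mul_le_mul h2 ((hle x).trans (mul_le_mul_of_nonneg_left h3 hC)) (h0 x) (by positivity)
    _ = (5 * C) * (Real.exp (x / 5) * Real.exp (-(6 / 5) * x)) := by ring
    _ = (5 * C) * Real.exp (-1 * x) := by
      rw [← Real.exp_add]
      congr 2
      ring

lemma juw_half : IntegrableOn (fun s : ℝ => max (3 - s) 0) (Set.Ioi 2) ∧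
    ∫ s in Set.Ioi (2 : ℝ), max (3 - s) 0 = 1 / 2 := by
  have hc : Continuous fun s : ℝ => max (3 - s) 0 := by fun_prop
  have h0 : Set.EqOn (fun s : ℝ => max (3 - s) 0) (fun _ => 0) (Set.Ioi 3) := by
    intro s hs
    have := Set.mem_Ioi.1 hs
    simp only
    rw [max_eq_right (by linarith)]
  have hb : IntegrableOn (fun s : ℝ => max (3 - s) 0) (Set.Ioi 3) :=
    (integrableOn_congr_fun h0 measurableSet_Ioi).2 integrableOn_zero
  have hi : IntervalIntegrable (fun s : ℝ => max (3 - s) 0) volume 2 3 :=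
    hc.intervalIntegrable _ _
  constructor
  · rw [← Set.Ioc_union_Ioi_eq_Ioi (show (2 : ℝ) ≤ 3 by norm_num)]
    exact ((intervalIntegrable_iff_integrableOn_Ioc_of_le (by norm_num)).1 hi).union hb
  · rw [← intervalIntegral.integral_interval_add_Ioi' hi hb,
      setIntegral_congr_fun measurableSet_Ioi h0, integral_zero, add_zero]
    have h1 : ∫ s in (2 : ℝ)..3, max (3 - s) 0 = ∫ s in (2 : ℝ)..3, (3 - s) := by
      apply intervalIntegral.integral_congr
      intro s hs
      rw [Set.uIcc_of_le (by norm_num)] at hs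
      simp only
      rw [max_eq_left (by linarith [hs.2])]
    rw [h1, intervalIntegral.integral_sub (by simp) (by simp)]
    simp only [intervalIntegral.integral_const, integral_id, smul_eq_mul]
    norm_num

/-- **`f (2) = 0`.**

Proof. `W := ∫_2^∞ w`, `A := 3 (1 + u 3) = 3 + W`, `U := ∫_1^∞ u`. By Tonelli (all functions are nonnegative and decay
exponentially)
`∫_2^∞ s w(s) ds = ∫_2^∞ ∫_s^∞ u(t - 1) dt ds = ∫_1^∞ (x - 1) u(x) dx`,
`∫_2^∞ s u(s) ds = ∫_2^3 (3 - s) ds + ∫_2^∞ ∫_{max (s, 3)}^∞ w(t - 1) dt ds = 1 / 2 + ∫_2^∞ (x - 1) w(x) dx`.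
Adding: `0 = ∫_1^2 x u(x) dx - U + 1 / 2 - W`. By `F_eq` `x u(x) = A - x` on `[1, 2]`, so `∫_1^2 x u = A - 3 / 2` and
`U = A - 1 - W = 2`. Finally `2 w(2) = ∫_2^∞ u(t - 1) dt = U = 2`. -/
theorem UW.w_two (h : UW u w C) : w 2 = 1 := by
  -- integrability
  have iu : ∀ s, IntegrableOn u (Set.Ioi s) := fun s => by
    have := (juw_shift_int u (s + 1)).1 (h.u_int (s + 1))
    simpa using this
  have iw : ∀ s, IntegrableOn w (Set.Ioi s) := fun s => by
    have := (juw_shift_int w (s + 1)).1 (h.w_int (s + 1))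
    simpa using this
  have ixu : ∀ {s : ℝ}, 0 ≤ s → IntegrableOn (fun x => x * u x) (Set.Ioi s) := fun hs =>
    juw_mul_int h.u_anti h.u_nonneg h.u_le hs
  have ixw : ∀ {s : ℝ}, 0 ≤ s → IntegrableOn (fun x => x * w x) (Set.Ioi s) := fun hs =>
    juw_mul_int h.w_anti h.w_nonneg h.w_le hs
  have mu : Measurable fun t => u (t - 1) := h.u_anti.measurable.comp (measurable_id.sub_const 1)
  have mw : Measurable fun t => w (t - 1) := h.w_anti.measurable.comp (measurable_id.sub_const 1)
  -- shifted integrals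
  have su : (∫ t in Set.Ioi (2 : ℝ), (t - 2) * u (t - 1)) =
      (∫ x in Set.Ioi (1 : ℝ), x * u x) - ∫ x in Set.Ioi (1 : ℝ), u x := by
    have e := juw_shift (fun x => (x - 1) * u x) 2
    have e1 : (2 : ℝ) - 1 = 1 := by norm_num
    have e2 : ∀ t : ℝ, t - 1 - 1 = t - 2 := fun t => by ring
    simp only [e2, e1] at e
    rw [e, ← integral_sub (ixu (by norm_num)) (iu 1)]
    congr 1
    ext x
    ring
  have sw : (∫ t in Set.Ioi (3 : ℝ), (t - 2) * w (t - 1)) =
      (∫ x in Set.Ioi (2 : ℝ), x * w x) - ∫ x in Set.Ioi (2 : ℝ), w x := by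
    have e := juw_shift (fun x => (x - 1) * w x) 3
    have e1 : (3 : ℝ) - 1 = 2 := by norm_num
    have e2 : ∀ t : ℝ, t - 1 - 1 = t - 2 := fun t => by ring
    simp only [e2, e1] at e
    rw [e, ← integral_sub (ixw (by norm_num)) (iw 2)]
    congr 1
    ext x
    ring
  have isu : IntegrableOn (fun t => (t - 2) * u (t - 1)) (Set.Ioi (2 : ℝ)) := by
    have e := (juw_shift_int (fun x => (x - 1) * u x) 2).2 (by
      have : (2 : ℝ) - 1 = 1 := by norm_num
      rw [this]
      have h2 := (ixu (s := 1) (by norm_num)).sub (iu 1)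
      refine h2.congr (Filter.Eventually.of_forall fun x => ?_)
      simp only [Pi.sub_apply]
      ring)
    have e2 : ∀ t : ℝ, t - 1 - 1 = t - 2 := fun t => by ring
    simpa only [e2] using e
  have isw : IntegrableOn (fun t => (t - 2) * w (t - 1)) (Set.Ioi (3 : ℝ)) := by
    have e := (juw_shift_int (fun x => (x - 1) * w x) 3).2 (by
      have : (3 : ℝ) - 1 = 2 := by norm_num
      rw [this]
      have h2 := (ixw (s := 2) (by norm_num)).sub (iw 2)
      refine h2.congr (Filter.Eventually.of_forall fun x => ?_)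
      simp only [Pi.sub_apply]
      ring)
    have e2 : ∀ t : ℝ, t - 1 - 1 = t - 2 := fun t => by ring
    simpa only [e2] using e
  -- Tonelli
  have t1 := juw_ton (fun t => u (t - 1)) mu (fun t => h.u_nonneg _) 2 2 le_rfl h.u_int isu
  have t2 := juw_ton (fun t => w (t - 1)) mw (fun t => h.w_nonneg _) 2 3 (by norm_num) h.w_int isw
  have k1 : (∫ s in Set.Ioi (2 : ℝ), s * w s) =
      (∫ x in Set.Ioi (1 : ℝ), x * u x) - ∫ x in Set.Ioi (1 : ℝ), u x := by
    rw [← su, ← t1.2]
    apply setIntegral_congr_fun measurableSet_Ioi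
    intro s hs
    have hs2 : (2 : ℝ) < s := hs
    simp only
    rw [h.w_eq s hs2.le, max_eq_left hs2.le]
  have k2 : (∫ s in Set.Ioi (2 : ℝ), s * u s) =
      1 / 2 + ((∫ x in Set.Ioi (2 : ℝ), x * w x) - ∫ x in Set.Ioi (2 : ℝ), w x) := by
    rw [← sw, ← t2.2, ← juw_half.2, ← integral_add juw_half.1 t2.1]
    apply setIntegral_congr_fun measurableSet_Ioi
    intro s hs
    have hs2 : (2 : ℝ) < s := hs
    simp only
    rw [h.u_eq s (by linarith)]
  have k3 : 2 * w 2 = ∫ x in Set.Ioi (1 : ℝ), u x := by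
    rw [h.w_eq 2 le_rfl, juw_shift u 2]
    norm_num
  have k4 : 3 * u 3 = ∫ x in Set.Ioi (2 : ℝ), w x := by
    rw [h.u_eq 3 (by norm_num), max_self, juw_shift w 3]
    norm_num
  have k5 : (∫ x in Set.Ioi (1 : ℝ), x * u x) - (∫ x in Set.Ioi (2 : ℝ), x * u x) =
      3 * (1 + u 3) - 3 / 2 := by
    rw [intervalIntegral.integral_Ioi_sub_Ioi (ixu (by norm_num)) (by norm_num)]
    have e1 : ∫ x in (1 : ℝ)..2, x * u x = ∫ x in (1 : ℝ)..2, (3 * (1 + u 3) - x) := by
      apply intervalIntegral.integral_congr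
      intro x hx
      rw [Set.uIcc_of_le (by norm_num)] at hx
      have := h.F_eq x hx.1 (by linarith [hx.2])
      simp only
      linarith
    rw [e1, intervalIntegral.integral_sub (by simp) (by simp)]
    simp only [intervalIntegral.integral_const, integral_id, smul_eq_mul]
    ring
  linarith

/-- **`f (s) = A log (s - 1) / s` for `2 ≤ s ≤ 4`.**

Proof. `s w(s) = ∫_s^∞ u(t - 1) dt = 2 w(2) - ∫_2^s u(t - 1) dt = 2 - ∫_2^s (A / (t - 1) - 1) dt
= s - A log (s - 1)` (`F_eq`, `w_two`). -/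
theorem UW.w_eq_log (h : UW u w C) (s : ℝ) (h2 : 2 ≤ s) (h4 : s ≤ 4) :
    s * (1 - w s) = 3 * (1 + u 3) * Real.log (s - 1) := by
  have e1 := h.w_eq s h2
  have e2 := h.w_eq 2 le_rfl
  rw [h.w_two] at e2
  have e3 := intervalIntegral.integral_Ioi_sub_Ioi (h.u_int 2) h2
  have e4 : ∫ t in (2 : ℝ)..s, u (t - 1) = 3 * (1 + u 3) * Real.log (s - 1) - (s - 2) := by
    rw [intervalIntegral.integral_comp_sub_right u 1]
    have e5 : (2 : ℝ) - 1 = 1 := by norm_num
    rw [e5]
    have e6 : ∫ x in (1 : ℝ)..(s - 1), u x = ∫ x in (1 : ℝ)..(s - 1), (3 * (1 + u 3) * x⁻¹ - 1) := by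
      apply intervalIntegral.integral_congr
      intro x hx
      rw [Set.uIcc_of_le (by linarith)] at hx
      have h1 := h.F_eq x hx.1 (by linarith [hx.2])
      have hx0 : x ≠ 0 := by linarith [hx.1]
      simp only
      field_simp
      linarith
    have i1 : IntervalIntegrable (fun x : ℝ => x⁻¹) volume 1 (s - 1) := by
      apply ContinuousOn.intervalIntegrable
      apply continuousOn_inv₀.mono
      intro x hx
      rw [Set.uIcc_of_le (by linarith)] at hx
      simp only [Set.mem_compl_iff, Set.mem_singleton_iff]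
      linarith [hx.1]
    rw [e6, intervalIntegral.integral_sub (i1.const_mul _) (by simp),
      intervalIntegral.integral_const_mul, integral_inv_of_pos (by norm_num) (by linarith)]
    simp only [intervalIntegral.integral_const, smul_eq_mul, div_one, mul_one]
    ring
  rw [e4] at e3
  linarith

end Pool.Agent.Wb58c63
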