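import Pool.Agent.W_b58c63_h68.JPS
import Pool.Agent.W_b58c63_h68.JUw

/-!
# The linear sieve: one step (helper68)
-/

set_option autoImplicit false

noncomputable section

open Finset MeasureTheory

namespace Pool.Agent.Wb58c63

variable {u w : ℝ → ℝ} {C : ℝ}

theorem JStA_arith (ε C C₁ a H s J b h1 : ℝ) (hε : 0 < ε) (hε1 : ε ≤ 1 / 1000) (hC : 0 < C)
    (hC₁ : 1000 * C ≤ C₁) (hH : 0 < H) (hs : 0 < s) (ha : a ≤ C * H)
    (hJ : J ≤ 99 / 100 * s * H) (hb : b ≤ C * h1) (hh1 : h1 ≤ 4 * H) :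
    (1 + ε) / s * (s * a + ε * C₁ * J) + ε * (b + ε * C₁ * h1) ≤ a + ε * C₁ * H := by
  have hC₁0 : 0 < C₁ := by linarith
  have hεC : 0 < ε * C₁ := mul_pos hε hC₁0
  have e1 : (1 + ε) / s * (s * a + ε * C₁ * J) = (1 + ε) * a + (1 + ε) * (ε * C₁) * (J / s) := by
    field_simp
  have hJs : J / s ≤ 99 / 100 * H := by
    rw [div_le_iff₀ hs]
    linarith
  have e2 : (1 + ε) * (ε * C₁) * (J / s) ≤ (1 + ε) * (ε * C₁) * (99 / 100 * H) :=
    mul_le_mul_of_nonneg_left hJs (by positivity)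
  have e3 : b + ε * C₁ * h1 ≤ (C + ε * C₁) * (4 * H) := by
    calc b + ε * C₁ * h1 ≤ C * h1 + ε * C₁ * h1 := by linarith
      _ = (C + ε * C₁) * h1 := by ring
      _ ≤ (C + ε * C₁) * (4 * H) := mul_le_mul_of_nonneg_left hh1 (by positivity)
  have e4 : ε * (b + ε * C₁ * h1) ≤ ε * ((C + ε * C₁) * (4 * H)) :=
    mul_le_mul_of_nonneg_left e3 hε.le
  have e5 : ε * a ≤ ε * (C * H) := mul_le_mul_of_nonneg_left ha hε.le
  have e6 : 0 ≤ C₁ * (1 / 100 - 499 / 100 * ε) - 5 * C := by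
    have : C₁ * (1 / 100 - 499 / 100 * ε) ≥ C₁ * (501 / 100000) :=
      mul_le_mul_of_nonneg_left (by linarith) hC₁0.le
    linarith
  have e7 : 0 ≤ ε * H * (C₁ * (1 / 100 - 499 / 100 * ε) - 5 * C) :=
    mul_nonneg (mul_pos hε hH).le e6
  rw [e1]
  have e8 : a + ε * C₁ * H - ((1 + ε) * a + (1 + ε) * (ε * C₁) * (99 / 100 * H) +
      ε * ((C + ε * C₁) * (4 * H))) = ε * H * (C₁ * (1 / 100 - 499 / 100 * ε) - 5 * C) +
      (ε * (C * H) - ε * a) := by ring
  linarith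

theorem JStA_bound (g : ℕ → ℝ) (P : Finset ℕ) (u₀ z D ε c : ℝ) (φ : ℝ → ℝ) (hu : 2 ≤ u₀)
    (hz : u₀ ≤ z) (hg : ∀ p ∈ P, 0 ≤ g p ∧ g p < 1) (hP : ∀ p ∈ P, u₀ ≤ (p : ℝ) ∧ (p : ℝ) < z)
    (hε : 0 < ε) (hc : 0 ≤ c) (hR : Reg g P (1 + ε) u₀) (hD1 : 1 < D) (ha : Antitone φ)
    (h0 : ∀ s, 0 ≤ φ s)
    (hi : IntegrableOn (fun t => φ (t - 1)) (Set.Ioi (Real.log D / Real.log z))) :
    ∑ p ∈ P, g p * VP g (P.filter fun q => q < p) *
        (φ (Real.log D / Real.log p - 1) + c * hh (Real.log D / Real.log p - 1)) ≤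
      VP g P * ((1 + ε) / (Real.log D / Real.log z) *
        (∫ t in Set.Ioi (Real.log D / Real.log z), (φ (t - 1) + c * hh (t - 1))) +
          ε * (φ (Real.log D / Real.log z - 1) + c * hh (Real.log D / Real.log z - 1))) := by
  have h := PS g P D z (1 + ε) u₀ (fun t => φ t + c * hh t) hg hP (by linarith) hz hD1
    (by linarith) hR (fun x y hxy => add_le_add (ha hxy)
      (mul_le_mul_of_nonneg_left (hh_antitone hxy) hc))
    (fun t => add_nonneg (h0 t) (mul_nonneg hc (hh_pos t).le))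
    (hi.add ((hh_integrable _).const_mul c))
  simpa only [add_sub_cancel_left] using h

/-- **Lower bound sieve, one step.** Here `s = log D / log z ≥ 2`, and the upper bound is known for all smaller sets.

Proof. By `GG_false` and the hypothesis for `below P p`, `D / p`, `z = p`
(`log (D / p) / log p = log D / log p - 1 ≥ 1`), with `VP_expand`,
`GG g false D P ≥ 1 - ∑ g(p) V(p) (1 + Φ (s_p)) = VP g P - ∑ g(p) V(p) Φ (log D / log p - 1)`, `Φ = u + ε C₁ hh`. By `PS`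
with `K = 1 + ε` the sum is at most
`VP g P ((1 + ε) (w s + ε C₁ (99 / 100) hh s) + ε (u (s - 1) + ε C₁ hh (s - 1)))` (`UW.w_eq`, `hh_even`), and
`u (s - 1) ≤ C hh (s - 1) ≤ 4 C hh s`, `w s ≤ C hh s`. So it is at most
`VP g P (w s + ε hh s (C + (1 + ε) (99 / 100) C₁ + 4 C + 4 ε C₁)) ≤ VP g P (w s + ε C₁ hh s)` as
`5 C ≤ C₁ (1 / 100 - 5 ε)`, which holds for `ε ≤ 1 / 1000`, `C₁ ≥ 1000 C`. -/
theorem J_false_step (h : UW u w C) (C₁ : ℝ) (hC₁ : 1000 * C ≤ C₁) (ε : ℝ) (hε : 0 < ε)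
    (hε1 : ε ≤ 1 / 1000) (g : ℕ → ℝ) (P : Finset ℕ) (u₀ z D : ℝ) (hu : 2 ≤ u₀) (hz : u₀ ≤ z)
    (hg : ∀ p ∈ P, 0 ≤ g p ∧ g p < 1) (hP : ∀ p ∈ P, u₀ ≤ (p : ℝ) ∧ (p : ℝ) < z)
    (hR : Reg g P (1 + ε) u₀) (hD : 2 * Real.log z ≤ Real.log D) (hD1 : 1 < D)
    (ih : ∀ p ∈ P, GG g true (D / p) (P.filter fun q => q < p) ≤
      VP g (P.filter fun q => q < p) * (1 + u (Real.log D / Real.log p - 1) +
        ε * C₁ * hh (Real.log D / Real.log p - 1))) :
    VP g P * (1 - w (Real.log D / Real.log z) - ε * C₁ * hh (Real.log D / Real.log z)) ≤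
      GG g false D P := by
  have hC := h.C_pos
  have hC₁0 : 0 < C₁ := by linarith
  have hlz : 0 < Real.log z := Real.log_pos (by linarith)
  set s := Real.log D / Real.log z with hs
  have hs2 : 2 ≤ s := by rw [hs, le_div_iff₀ hlz]; exact hD
  have hB := JStA_bound g P u₀ z D ε (ε * C₁) u hu hz hg hP hε (by positivity) hR hD1 h.u_anti
    h.u_nonneg (h.u_int _)
  rw [← hs] at hB
  have hint : ∫ t in Set.Ioi s, (u (t - 1) + ε * C₁ * hh (t - 1)) =
      s * w s + ε * C₁ * ∫ t in Set.Ioi s, hh (t - 1) := by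
    rw [integral_add (h.u_int s) ((hh_integrable s).const_mul (ε * C₁)), integral_const_mul,
      ← h.w_eq s hs2]
  rw [hint] at hB
  have hA := JStA_arith ε C C₁ (w s) (hh s) s (∫ t in Set.Ioi s, hh (t - 1)) (u (s - 1))
    (hh (s - 1)) hε hε1 hC hC₁ (hh_pos s) (by linarith) (h.w_le s) (hh_even s hs2)
    (h.u_le _) (hh_shift s)
  have hV : 0 ≤ VP g P := (VP_pos hg).le
  have h1 : ∑ p ∈ P, g p * GG g true (D / p) (P.filter fun q => q < p) ≤
      ∑ p ∈ P, (g p * VP g (P.filter fun q => q < p) + g p * VP g (P.filter fun q => q < p) *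
        (u (Real.log D / Real.log p - 1) + ε * C₁ * hh (Real.log D / Real.log p - 1))) := by
    refine Finset.sum_le_sum (fun p hp => ?_)
    calc g p * GG g true (D / p) (P.filter fun q => q < p) ≤ g p * (VP g (P.filter fun q => q < p) *
          (1 + u (Real.log D / Real.log p - 1) + ε * C₁ * hh (Real.log D / Real.log p - 1))) :=
          mul_le_mul_of_nonneg_left (ih p hp) (hg p hp).1
      _ = _ := by ring
  rw [Finset.sum_add_distrib] at h1
  have h2 := VP_expand g P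
  have h3 : VP g P * ((1 + ε) / s * (s * w s + ε * C₁ * ∫ t in Set.Ioi s, hh (t - 1)) +
      ε * (u (s - 1) + ε * C₁ * hh (s - 1))) ≤ VP g P * (w s + ε * C₁ * hh s) :=
    mul_le_mul_of_nonneg_left hA hV
  rw [GG_false]
  have h4 : VP g P * (1 - w s - ε * C₁ * hh s) = VP g P - VP g P * (w s + ε * C₁ * hh s) := by ring
  rw [h4]
  linarith

/-- **Upper bound sieve, one step, for `s = log D / log z ≥ 3`.**

Proof. As for `J_false_step`, with the roles of `u` and `w` exchanged: every `p ∈ P` has `p ^ 3 < z ^ 3 ≤ D`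
and `GG_true`; `PS` with `Φ = w + ε C₁ hh`, `UW.u_eq` for `s ≥ 3`, `hh_odd`. More precisely keep the middle form (it is
used for `s < 3`): with `Φ = w + ε C₁ hh`
`GG g true D P ≤ VP g P (1 + (1 + ε) / s ∫_s^∞ Φ(t - 1) dt + ε Φ (s - 1))`. -/
theorem J_true_step_mid (h : UW u w C) (C₁ : ℝ) (hC₁ : 0 ≤ C₁) (ε : ℝ) (hε : 0 < ε)
    (g : ℕ → ℝ) (P : Finset ℕ) (u₀ z D : ℝ) (hu : 2 ≤ u₀) (hz : u₀ ≤ z)
    (hg : ∀ p ∈ P, 0 ≤ g p ∧ g p < 1) (hP : ∀ p ∈ P, u₀ ≤ (p : ℝ) ∧ (p : ℝ) < z)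
    (hR : Reg g P (1 + ε) u₀) (hD : 3 * Real.log z ≤ Real.log D) (hD1 : 1 < D)
    (ih : ∀ p ∈ P, VP g (P.filter fun q => q < p) *
      (1 - w (Real.log D / Real.log p - 1) - ε * C₁ * hh (Real.log D / Real.log p - 1)) ≤
        GG g false (D / p) (P.filter fun q => q < p)) :
    GG g true D P ≤ VP g P * (1 + (1 + ε) / (Real.log D / Real.log z) *
      (∫ t in Set.Ioi (Real.log D / Real.log z), (w (t - 1) + ε * C₁ * hh (t - 1))) +
        ε * (w (Real.log D / Real.log z - 1) + ε * C₁ * hh (Real.log D / Real.log z - 1))) := by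
  have hB := JStA_bound g P u₀ z D ε (ε * C₁) w hu hz hg hP hε (by positivity) hR hD1 h.w_anti
    h.w_nonneg (h.w_int _)
  have hz0 : 0 < z := by linarith
  have hzD : z ^ 3 ≤ D := by
    have h1 : Real.log (z ^ 3) ≤ Real.log D := by
      rw [Real.log_pow]
      exact_mod_cast hD
    exact (Real.log_le_log_iff (by positivity) (by linarith)).1 h1
  have h1 : ∑ p ∈ P, (g p * VP g (P.filter fun q => q < p) - g p * VP g (P.filter fun q => q < p) *
        (w (Real.log D / Real.log p - 1) + ε * C₁ * hh (Real.log D / Real.log p - 1))) ≤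
      ∑ p ∈ P, g p * GG g false (D / p) (P.filter fun q => q < p) := by
    refine Finset.sum_le_sum (fun p hp => ?_)
    calc _ = g p * (VP g (P.filter fun q => q < p) *
          (1 - w (Real.log D / Real.log p - 1) - ε * C₁ * hh (Real.log D / Real.log p - 1))) := by
          ring
      _ ≤ _ := mul_le_mul_of_nonneg_left (ih p hp) (hg p hp).1
  rw [Finset.sum_sub_distrib] at h1
  have h2 := VP_expand g P
  rw [GG_true, Finset.filter_true_of_mem]
  · have h4 : ∀ x y : ℝ, VP g P * (1 + x + y) = VP g P + VP g P * (x + y) := fun x y => by ring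
    rw [h4]
    linarith
  · intro p hp
    have hp1 : (p : ℝ) < z := (hP p hp).2
    have hp0 : (0 : ℝ) ≤ p := Nat.cast_nonneg p
    exact lt_of_lt_of_le (pow_lt_pow_left₀ hp1 hp0 (by norm_num)) hzD

/-- The consequence for `s ≥ 3` (`UW.u_eq`, `hh_odd`, `hh_shift`, same computation as in `J_false_step`). -/
theorem J_true_step (h : UW u w C) (C₁ : ℝ) (hC₁ : 1000 * C ≤ C₁) (ε : ℝ) (hε : 0 < ε)
    (hε1 : ε ≤ 1 / 1000) (g : ℕ → ℝ) (P : Finset ℕ) (u₀ z D : ℝ) (hu : 2 ≤ u₀) (hz : u₀ ≤ z)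
    (hg : ∀ p ∈ P, 0 ≤ g p ∧ g p < 1) (hP : ∀ p ∈ P, u₀ ≤ (p : ℝ) ∧ (p : ℝ) < z)
    (hR : Reg g P (1 + ε) u₀) (hD : 3 * Real.log z ≤ Real.log D) (hD1 : 1 < D)
    (ih : ∀ p ∈ P, VP g (P.filter fun q => q < p) *
      (1 - w (Real.log D / Real.log p - 1) - ε * C₁ * hh (Real.log D / Real.log p - 1)) ≤
        GG g false (D / p) (P.filter fun q => q < p)) :
    GG g true D P ≤ VP g P *
      (1 + u (Real.log D / Real.log z) + ε * C₁ * hh (Real.log D / Real.log z)) := by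
  have hC := h.C_pos
  have hC₁0 : 0 < C₁ := by linarith
  have hlz : 0 < Real.log z := Real.log_pos (by linarith)
  have hM := J_true_step_mid h C₁ hC₁0.le ε hε g P u₀ z D hu hz hg hP hR hD hD1 ih
  refine hM.trans ?_
  set s := Real.log D / Real.log z with hs
  have hs3 : 3 ≤ s := by rw [hs, le_div_iff₀ hlz]; exact hD
  have hint : ∫ t in Set.Ioi s, (w (t - 1) + ε * C₁ * hh (t - 1)) =
      s * u s + ε * C₁ * ∫ t in Set.Ioi s, hh (t - 1) := by
    have h1 := h.u_eq s (by linarith)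
    rw [max_eq_right (by linarith : (3 : ℝ) - s ≤ 0), max_eq_left hs3, zero_add] at h1
    rw [integral_add (h.w_int s) ((hh_integrable s).const_mul (ε * C₁)), integral_const_mul, ← h1]
  rw [hint]
  have hA := JStA_arith ε C C₁ (u s) (hh s) s (∫ t in Set.Ioi s, hh (t - 1)) (w (s - 1))
    (hh (s - 1)) hε hε1 hC hC₁ (hh_pos s) (by linarith) (h.u_le s) (hh_even s (by linarith))
    (h.w_le _) (hh_shift s)
  refine mul_le_mul_of_nonneg_left ?_ (VP_pos hg).le
  linarith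

end Pool.Agent.Wb58c63
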