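import Pool.Agent.W_b58c63_h68.JStA

/-!
# The linear sieve: small levels (helper68)
-/

set_option autoImplicit false

noncomputable section

open Finset MeasureTheory

namespace Pool.Agent.Wb58c63

variable {u w : ℝ → ℝ} {C : ℝ}

/-- **Upper bound sieve for `0 < s = log D / log z < 3`.** The bound is `(1 + ε)` times `A / s` plus an error,
`A = 3 (1 + u 3)`.

Proof. `z' := D ^ (1 / 3) < z`. `GG_true_filter`: only `P' = below P z'` matters. If `z' ≥ u₀`: `J_true_step_mid` for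
`P'`, `z'`, `s = 3`, and `Reg`: `VP g P' ≤ (1 + ε) (log z / log z') VP g P = (1 + ε) (3 / s) VP g P`. If `z' < u₀` then
`P' = ∅`, `GG = 1`, and `Reg` with `u = u₀` gives
`1 ≤ (1 + ε) VP g P log z / log u₀ ≤ (1 + ε) (3 / s) VP g P`, which is smaller than the claimed bound. -/
theorem J_true_small (h : UW u w C) (C₁ : ℝ) (hC₁ : 0 ≤ C₁) (ε : ℝ) (hε : 0 < ε)
    (g : ℕ → ℝ) (P : Finset ℕ) (u₀ z D : ℝ) (hu : 2 ≤ u₀) (hz : u₀ ≤ z)
    (hg : ∀ p ∈ P, 0 ≤ g p ∧ g p < 1) (hP : ∀ p ∈ P, u₀ ≤ (p : ℝ) ∧ (p : ℝ) < z)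
    (hR : Reg g P (1 + ε) u₀) (hD : Real.log D < 3 * Real.log z) (hD1 : 1 < D)
    (ih : ∀ p ∈ P, (p : ℝ) ^ 3 < D → VP g (P.filter fun q => q < p) *
      (1 - w (Real.log D / Real.log p - 1) - ε * C₁ * hh (Real.log D / Real.log p - 1)) ≤
        GG g false (D / p) (P.filter fun q => q < p)) :
    GG g true D P ≤ VP g P * ((1 + ε) * (3 / (Real.log D / Real.log z)) *
      (1 + (1 + ε) / 3 * (∫ t in Set.Ioi 3, (w (t - 1) + ε * C₁ * hh (t - 1))) +
        ε * (w 2 + ε * C₁ * hh 2))) := by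
  classical
  have hlD : 0 < Real.log D := Real.log_pos hD1
  have hz1 : 1 < z := by linarith
  have hlz : 0 < Real.log z := Real.log_pos hz1
  have hlz' : Real.log (Real.exp (Real.log D / 3)) = Real.log D / 3 := Real.log_exp _
  have hP0 : ∀ p ∈ P, (0 : ℝ) < p := fun p hp => by linarith [(hP p hp).1]
  have hiff : ∀ p ∈ P, ((p : ℝ) ^ 3 < D ↔ (p : ℝ) < Real.exp (Real.log D / 3)) := by
    intro p hp
    rw [← Real.log_lt_log_iff (pow_pos (hP0 p hp) 3) (by linarith), Real.log_pow,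
      ← Real.log_lt_iff_lt_exp (hP0 p hp)]
    push_cast
    constructor <;> intro h' <;> linarith
  have hF : GG g true D P = GG g true D (below P (Real.exp (Real.log D / 3))) := by
    rw [GG_true_filter]
    congr 1
    ext p
    unfold below
    rw [mem_filter, mem_filter]
    exact and_congr_right fun hp => hiff p hp
  have hPz : below P z = P := by
    unfold below
    rw [filter_true_of_mem]
    exact fun p hp => (hP p hp).2
  have hI0 : 0 ≤ ∫ t in Set.Ioi (3 : ℝ), (w (t - 1) + ε * C₁ * hh (t - 1)) := by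
    refine setIntegral_nonneg measurableSet_Ioi fun t _ => ?_
    have h1 := h.w_nonneg (t - 1)
    have h2 := (hh_pos (t - 1)).le
    positivity
  have hB : 1 ≤ 1 + (1 + ε) / 3 * (∫ t in Set.Ioi (3 : ℝ), (w (t - 1) + ε * C₁ * hh (t - 1))) +
        ε * (w 2 + ε * C₁ * hh 2) := by
    have h1 := h.w_nonneg 2
    have h2 := (hh_pos 2).le
    have h3 : 0 ≤ (1 + ε) / 3 * (∫ t in Set.Ioi (3 : ℝ), (w (t - 1) + ε * C₁ * hh (t - 1))) :=
      mul_nonneg (by positivity) hI0
    have h4 : 0 ≤ ε * (w 2 + ε * C₁ * hh 2) := by positivity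
    linarith
  set B := 1 + (1 + ε) / 3 * (∫ t in Set.Ioi (3 : ℝ), (w (t - 1) + ε * C₁ * hh (t - 1))) +
        ε * (w 2 + ε * C₁ * hh 2) with hBdef
  have hVP : 0 < VP g P := VP_pos hg
  have hdiv : (3 : ℝ) / (Real.log D / Real.log z) = 3 * Real.log z / Real.log D := by
    rw [div_div_eq_mul_div]
  rcases le_or_gt u₀ (Real.exp (Real.log D / 3)) with hc | hc
  · have hsub : ∀ p ∈ below P (Real.exp (Real.log D / 3)), p ∈ P ∧
        (p : ℝ) < Real.exp (Real.log D / 3) := by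
      intro p hp
      unfold below at hp
      rw [mem_filter] at hp
      exact hp
    have hz'z : Real.exp (Real.log D / 3) ≤ z := by
      have e1 : Real.exp (Real.log D / 3) ≤ Real.exp (Real.log z) :=
        Real.exp_le_exp.2 (by linarith)
      rwa [Real.exp_log (show 0 < z by linarith)] at e1
    have hin : ∀ p ∈ below P (Real.exp (Real.log D / 3)),
        (below P (Real.exp (Real.log D / 3))).filter (fun q => q < p) =
          P.filter (fun q => q < p) := by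
      intro p hp
      ext q
      unfold below
      rw [mem_filter, mem_filter, mem_filter]
      constructor
      · rintro ⟨⟨h1, _⟩, h3⟩
        exact ⟨h1, h3⟩
      · rintro ⟨h1, h3⟩
        refine ⟨⟨h1, ?_⟩, h3⟩
        have h4 : (q : ℝ) < p := by exact_mod_cast h3
        exact h4.trans (hsub p hp).2
    have hmid := J_true_step_mid h C₁ hC₁ ε hε g (below P (Real.exp (Real.log D / 3))) u₀
      (Real.exp (Real.log D / 3)) D hu hc (fun p hp => hg p (hsub p hp).1)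
      (fun p hp => ⟨(hP p (hsub p hp).1).1, (hsub p hp).2⟩)
      (hR.sub (by linarith) (by linarith) hg _ hc)
      (by rw [hlz']; linarith) hD1 (by
        intro p hp
        rw [hin p hp]
        exact ih p (hsub p hp).1 ((hiff p (hsub p hp).1).2 (hsub p hp).2))
    have hs3 : Real.log D / Real.log (Real.exp (Real.log D / 3)) = 3 := by
      rw [hlz']
      field_simp
    have e2 : (3 : ℝ) - 1 = 2 := by norm_num
    rw [hs3, e2, ← hBdef] at hmid
    rw [hF]
    refine hmid.trans ?_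
    have hreg := hR (Real.exp (Real.log D / 3)) z hc hz'z
    rw [hPz, hlz'] at hreg
    have hV : VP g (below P (Real.exp (Real.log D / 3))) ≤
        VP g P * ((1 + ε) * (3 / (Real.log D / Real.log z))) := by
      rw [hdiv, mul_div_assoc', mul_div_assoc', le_div_iff₀ hlD]
      linarith
    calc VP g (below P (Real.exp (Real.log D / 3))) * B ≤
          VP g P * ((1 + ε) * (3 / (Real.log D / Real.log z))) * B :=
          mul_le_mul_of_nonneg_right hV (by linarith)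
      _ = VP g P * ((1 + ε) * (3 / (Real.log D / Real.log z)) * B) := by ring
  · have hempty : below P (Real.exp (Real.log D / 3)) = ∅ := by
      unfold below
      rw [filter_eq_empty_iff]
      intro p hp
      have := (hP p hp).1
      push Not
      linarith
    have hempty0 : below P u₀ = ∅ := by
      unfold below
      rw [filter_eq_empty_iff]
      intro p hp
      have := (hP p hp).1
      push Not
      linarith
    have hG : GG g true D P = 1 := by
      rw [hF, hempty, GG_true]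
      simp
    rw [hG]
    have hreg := hR u₀ z le_rfl hz
    rw [hPz, hempty0] at hreg
    have hV0 : VP g ∅ = 1 := by
      unfold VP
      rw [prod_empty]
    rw [hV0, one_mul] at hreg
    have hlu : Real.log D / 3 ≤ Real.log u₀ := by
      rw [← hlz']
      exact Real.log_le_log (Real.exp_pos _) hc.le
    have h1 : 1 ≤ VP g P * ((1 + ε) * (3 / (Real.log D / Real.log z))) := by
      rw [hdiv, mul_div_assoc', mul_div_assoc', le_div_iff₀ hlD]
      linarith
    calc (1 : ℝ) = 1 * 1 := (one_mul 1).symm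
      _ ≤ VP g P * ((1 + ε) * (3 / (Real.log D / Real.log z))) * B :=
          mul_le_mul h1 hB zero_le_one (by linarith)
      _ = VP g P * ((1 + ε) * (3 / (Real.log D / Real.log z)) * B) := by ring

theorem JStB_arith (C C₁ ε y W H k : ℝ) (hC : 0 < C) (hC₁ : 1000000 * C ≤ C₁) (hε : 0 < ε)
    (hε1 : ε ≤ 1 / 1000) (hy : 0 < y) (hW0 : 0 ≤ W) (hH0 : 0 ≤ H) (hk0 : 0 ≤ k)
    (hW : W ≤ C * H) (hH : H ≤ 99 / 100 * y) (hk : k ≤ 2 * y) (h1 : 1 ≤ 2 * C * y) :
    (1 + ε) * (3 + (1 + ε) * (W + ε * C₁ * H) + 3 * ε * (1 + ε * C₁ * k)) ≤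
      3 + W + ε * C₁ * y := by
  have hC10 : 0 < C₁ := by linarith
  have a1 : (1 + ε) ^ 2 * (C₁ * H) ≤ 10021 / 10000 * (C₁ * (99 / 100 * y)) := by
    have e1 : (1 + ε) ^ 2 ≤ 10021 / 10000 := by nlinarith
    have e2 : C₁ * H ≤ C₁ * (99 / 100 * y) := mul_le_mul_of_nonneg_left hH hC10.le
    exact mul_le_mul e1 e2 (by positivity) (by norm_num)
  have a2 : 3 * ε * (1 + ε) * (C₁ * k) ≤ 31 / 10000 * (C₁ * (2 * y)) := by
    have e1 : 3 * ε * (1 + ε) ≤ 31 / 10000 := by nlinarith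
    have e2 : C₁ * k ≤ C₁ * (2 * y) := mul_le_mul_of_nonneg_left hk hC10.le
    exact mul_le_mul e1 e2 (by positivity) (by norm_num)
  have a3 : (2 + ε) * W ≤ 3 * (C * y) := by
    have e1 : W ≤ C * y := by
      refine hW.trans (mul_le_mul_of_nonneg_left ?_ hC.le)
      linarith
    exact mul_le_mul (by linarith) e1 hW0 (by norm_num)
  have a4 : C * y ≤ C₁ * y / 1000000 := by
    have e1 : 1000000 * C * y ≤ C₁ * y := mul_le_mul_of_nonneg_right hC₁ hy.le
    linarith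
  have hC1y : 0 < C₁ * y := mul_pos hC10 hy
  have key : 0 ≤ C₁ * y - 3 - (2 + ε) * W - (1 + ε) ^ 2 * (C₁ * H) - 3 * (1 + ε) -
      3 * ε * (1 + ε) * (C₁ * k) := by
    linarith
  have key2 := mul_nonneg hε.le key
  nlinarith [key2]

/-- Numbers for `1 ≤ s ≤ 3`.

Proof. `3 (1 + (1 / 3) ∫_3^∞ w(t - 1) dt) = A = s (1 + u s)` (`UW.u_eq`, `UW.F_eq`). The left side is at most
`(1 / s) (A + ε (A + 3 ∫ w + 6 w 2 + ...) + (1 + ε) ^ 2 ε C₁ ∫_3^∞ hh(t - 1) dt + 3 ε ^ 2 (1 + ε) C₁ hh 2)`; by `hh_odd`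
`(1 / s) ∫_3^∞ hh(t - 1) dt ≤ (99 / 100) hh s`; `hh 2 / s ≤ 1.2 hh s` on `[1, 3]` and `1 / s ≤ 1 ≤ 37 hh s`; `∫_3^∞ w(t - 1) dt
≤ C` and `w 2 ≤ C`, `A ≤ 3 + C`, `C ≥ 1` (`w 2 = 1 ≤ C hh 2`). So the error is at most
`ε hh s (1000 C + C₁ ((99 / 100) (1 + ε) ^ 2 + 4 ε)) ≤ ε C₁ hh s` if `ε ≤ 1 / 1000` and `C₁ ≥ 10 ^ 6 C`. -/
theorem J_true_const (h : UW u w C) (C₁ : ℝ) (hC₁ : 1000000 * C ≤ C₁) (ε : ℝ) (hε : 0 < ε)
    (hε1 : ε ≤ 1 / 1000) (s : ℝ) (h1 : 1 ≤ s) (h3 : s ≤ 3) :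
    (1 + ε) * (3 / s) *
      (1 + (1 + ε) / 3 * (∫ t in Set.Ioi 3, (w (t - 1) + ε * C₁ * hh (t - 1))) +
        ε * (w 2 + ε * C₁ * hh 2)) ≤ 1 + u s + ε * C₁ * hh s := by
  have hCp := h.C_pos
  have hs0 : 0 < s := by linarith
  have hW : 3 * u 3 = ∫ t in Set.Ioi (3 : ℝ), w (t - 1) := by
    have e := h.u_eq 3 (by norm_num)
    rw [sub_self, max_self, max_self, zero_add] at e
    exact e
  have hI : ∫ t in Set.Ioi (3 : ℝ), (w (t - 1) + ε * C₁ * hh (t - 1)) =
      (∫ t in Set.Ioi (3 : ℝ), w (t - 1)) + ε * C₁ * ∫ t in Set.Ioi (3 : ℝ), hh (t - 1) := by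
    rw [integral_add (h.w_int 3) ((hh_integrable 3).const_mul _), integral_const_mul]
  have hF := h.F_eq s h1 h3
  have hH : ∫ t in Set.Ioi (3 : ℝ), hh (t - 1) ≤ 99 / 100 * (s * hh s) := by
    have e := hh_odd s h1
    rw [max_eq_right h3] at e
    linarith
  have hH0 : 0 ≤ ∫ t in Set.Ioi (3 : ℝ), hh (t - 1) :=
    setIntegral_nonneg measurableSet_Ioi fun t _ => (hh_pos _).le
  have hW0 : 0 ≤ ∫ t in Set.Ioi (3 : ℝ), w (t - 1) :=
    setIntegral_nonneg measurableSet_Ioi fun t _ => h.w_nonneg _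
  have hWC : ∫ t in Set.Ioi (3 : ℝ), w (t - 1) ≤ C * ∫ t in Set.Ioi (3 : ℝ), hh (t - 1) := by
    rw [← integral_const_mul]
    exact setIntegral_mono (h.w_int 3) ((hh_integrable 3).const_mul C) fun t => h.w_le _
  have hy : 0 < s * hh s := mul_pos hs0 (hh_pos s)
  have hk : hh 2 ≤ 2 * (s * hh s) := by
    rcases le_or_gt s 2 with hs | hs
    · have e1 : hh 2 ≤ hh s := hh_antitone hs
      have e2 : hh s ≤ s * hh s := by
        have := mul_le_mul_of_nonneg_right h1 (hh_pos s).le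
        linarith
      linarith
    · have e1 : hh 2 ≤ hh (s - 1) := hh_antitone (by linarith)
      have e2 := hh_shift s
      have e3 : 2 * hh s ≤ s * hh s := mul_le_mul_of_nonneg_right hs.le (hh_pos s).le
      linarith
  have h12 : 1 ≤ 2 * C * (s * hh s) := by
    have e1 := h.w_le 2
    rw [h.w_two] at e1
    have e2 : C * hh 2 ≤ C * (2 * (s * hh s)) := mul_le_mul_of_nonneg_left hk hCp.le
    linarith
  have key := JStB_arith C C₁ ε (s * hh s) (∫ t in Set.Ioi (3 : ℝ), w (t - 1))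
    (∫ t in Set.Ioi (3 : ℝ), hh (t - 1)) (hh 2) hCp hC₁ hε hε1 hy hW0 hH0 (hh_pos 2).le hWC hH hk h12
  rw [hI, h.w_two]
  set W := ∫ t in Set.Ioi (3 : ℝ), w (t - 1)
  set H := ∫ t in Set.Ioi (3 : ℝ), hh (t - 1)
  have e1 : (1 + ε) * (3 / s) * (1 + (1 + ε) / 3 * (W + ε * C₁ * H) + ε * (1 + ε * C₁ * hh 2)) =
      ((1 + ε) * (3 + (1 + ε) * (W + ε * C₁ * H) + 3 * ε * (1 + ε * C₁ * hh 2))) / s := by
    field_simp
  have e2 : 1 + u s + ε * C₁ * hh s = (3 + W + ε * C₁ * (s * hh s)) / s := by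
    rw [eq_div_iff hs0.ne']
    linear_combination hF + hW
  rw [e1, e2]
  exact div_le_div_of_nonneg_right key hs0.le

end Pool.Agent.Wb58c63
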