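import Pool.Agent.W_b58c63_h68.LSa

/-!
# The large sieve: Schur bound and duality (helper68)
-/

set_option autoImplicit false

noncomputable section

open Finset

namespace Pool.Agent.Wb58c63

theorem LSe_even (L : ℕ) (x : ℝ) : Kf L (-x) = Kf L x := by
  unfold Kf
  have h1 : ∑ j ∈ range L, ee (j * -x) = (starRingEnd ℂ) (∑ j ∈ range L, ee (j * x)) := by
    rw [map_sum]
    refine Finset.sum_congr rfl fun j _ => ?_
    rw [LSa_conj, mul_neg]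
  rw [h1, RCLike.norm_conj]

theorem LSe_id {ι : Type} (s : Finset ι) (α : ι → ℝ) (b : ι → ℂ) (L : ℕ) (hL : 1 ≤ L) :
    ((∑ m ∈ Finset.Ioo (-(L : ℤ)) L,
      (1 - |(m : ℝ)| / L) * ‖∑ j ∈ s, b j * ee (m * α j)‖ ^ 2 : ℝ) : ℂ) =
      ∑ i ∈ s, ∑ j ∈ s, b i * (starRingEnd ℂ) (b j) * (Kf L (α i - α j) : ℂ) := by
  have h1 : ∀ m : ℤ, ((‖∑ j ∈ s, b j * ee (m * α j)‖ ^ 2 : ℝ) : ℂ) =
      ∑ i ∈ s, ∑ j ∈ s, b i * (starRingEnd ℂ) (b j) * ee (m * (α i - α j)) := by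
    intro m
    rw [Complex.ofReal_pow, ← Complex.mul_conj', map_sum, Finset.sum_mul_sum]
    refine Finset.sum_congr rfl fun i _ => Finset.sum_congr rfl fun j _ => ?_
    rw [map_mul, LSa_conj]
    have h2 : ee (m * (α i - α j)) = ee (m * α i) * ee (-(m * α j)) := by
      rw [← ee_add]
      congr 1
      ring
    rw [h2]
    ring
  rw [Complex.ofReal_sum]
  have h3 : ∀ m ∈ Finset.Ioo (-(L : ℤ)) L,
      (((1 - |(m : ℝ)| / L) * ‖∑ j ∈ s, b j * ee (m * α j)‖ ^ 2 : ℝ) : ℂ) =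
      ∑ i ∈ s, ∑ j ∈ s, b i * (starRingEnd ℂ) (b j) *
        (((1 - |(m : ℝ)| / L : ℝ) : ℂ) * ee (m * (α i - α j))) := by
    intro m _
    rw [Complex.ofReal_mul, h1 m, Finset.mul_sum]
    refine Finset.sum_congr rfl fun i _ => ?_
    rw [Finset.mul_sum]
    refine Finset.sum_congr rfl fun j _ => ?_
    ring
  rw [Finset.sum_congr rfl h3, Finset.sum_comm]
  refine Finset.sum_congr rfl fun i _ => ?_
  rw [Finset.sum_comm]
  refine Finset.sum_congr rfl fun j _ => ?_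
  rw [← Kf_fourier L hL (α i - α j), Finset.mul_sum]

theorem LSe_quad {ι : Type} (s : Finset ι) (α : ι → ℝ) (b : ι → ℂ) (L : ℕ)
    (A : ℝ) (hA : ∀ i ∈ s, ∑ j ∈ s, Kf L (α i - α j) ≤ A) :
    ‖∑ i ∈ s, ∑ j ∈ s, b i * (starRingEnd ℂ) (b j) * (Kf L (α i - α j) : ℂ)‖ ≤
      A * ∑ j ∈ s, ‖b j‖ ^ 2 := by
  have hnn : ∀ x, 0 ≤ Kf L x := by
    intro x
    unfold Kf
    positivity
  have h1 : ‖∑ i ∈ s, ∑ j ∈ s, b i * (starRingEnd ℂ) (b j) * (Kf L (α i - α j) : ℂ)‖ ≤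
      ∑ i ∈ s, ∑ j ∈ s, (‖b i‖ ^ 2 / 2 * Kf L (α i - α j) + ‖b j‖ ^ 2 / 2 * Kf L (α i - α j)) := by
    refine (norm_sum_le _ _).trans (Finset.sum_le_sum fun i _ => ?_)
    refine (norm_sum_le _ _).trans (Finset.sum_le_sum fun j _ => ?_)
    rw [norm_mul, norm_mul, RCLike.norm_conj, Complex.norm_real, Real.norm_eq_abs,
      abs_of_nonneg (hnn _)]
    have h2 : ‖b i‖ * ‖b j‖ ≤ ‖b i‖ ^ 2 / 2 + ‖b j‖ ^ 2 / 2 := by
      nlinarith [sq_nonneg (‖b i‖ - ‖b j‖)]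
    have := mul_le_mul_of_nonneg_right h2 (hnn (α i - α j))
    linarith
  have h2 : ∑ i ∈ s, ∑ j ∈ s, ‖b i‖ ^ 2 / 2 * Kf L (α i - α j) ≤ A / 2 * ∑ j ∈ s, ‖b j‖ ^ 2 := by
    rw [Finset.mul_sum]
    refine Finset.sum_le_sum fun i hi => ?_
    rw [← Finset.mul_sum]
    have := mul_le_mul_of_nonneg_left (hA i hi) (show 0 ≤ ‖b i‖ ^ 2 / 2 by positivity)
    linarith
  have h3 : ∑ i ∈ s, ∑ j ∈ s, ‖b j‖ ^ 2 / 2 * Kf L (α i - α j) =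
      ∑ i ∈ s, ∑ j ∈ s, ‖b i‖ ^ 2 / 2 * Kf L (α i - α j) := by
    rw [Finset.sum_comm]
    refine Finset.sum_congr rfl fun i _ => Finset.sum_congr rfl fun j _ => ?_
    rw [← LSe_even L (α i - α j), neg_sub]
  refine h1.trans ?_
  have h4 : ∑ i ∈ s, ∑ j ∈ s, (‖b i‖ ^ 2 / 2 * Kf L (α i - α j) +
      ‖b j‖ ^ 2 / 2 * Kf L (α i - α j)) =
      ∑ i ∈ s, ∑ j ∈ s, ‖b i‖ ^ 2 / 2 * Kf L (α i - α j) +
      ∑ i ∈ s, ∑ j ∈ s, ‖b j‖ ^ 2 / 2 * Kf L (α i - α j) := by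
    rw [← Finset.sum_add_distrib]
    refine Finset.sum_congr rfl fun i _ => ?_
    rw [Finset.sum_add_distrib]
  rw [h4, h3]
  linarith

/-- **Dual large sieve with a Schur bound.**

Proof. For `0 ≤ n < N ≤ L / 2` the weight `1 - |n| / L` is at least `1 / 2`, so the left side is at most
`2 ∑_{|n| < L} (1 - |n| / L) ‖∑_j b_j e (n α_j)‖ ^ 2 = 2 ∑_{i, j} b_i conj(b_j) Kf L (α_i - α_j)` (`Kf_fourier`), and
`|b_i b_j| ≤ (|b_i| ^ 2 + |b_j| ^ 2) / 2`, `Kf` is even and `≥ 0`. -/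
theorem dual_schur {ι : Type} (s : Finset ι) (α : ι → ℝ) (b : ι → ℂ) (N L : ℕ) (hL : 1 ≤ L)
    (hNL : 2 * N ≤ L) (A : ℝ) (hA : ∀ i ∈ s, ∑ j ∈ s, Kf L (α i - α j) ≤ A) :
    ∑ n ∈ range N, ‖∑ j ∈ s, b j * ee (n * α j)‖ ^ 2 ≤ 2 * A * ∑ j ∈ s, ‖b j‖ ^ 2 := by
  have hL0 : (0 : ℝ) < L := by exact_mod_cast hL
  set W : ℤ → ℝ := fun m => (1 - |(m : ℝ)| / L) * ‖∑ j ∈ s, b j * ee (m * α j)‖ ^ 2 with hW
  have h1 : ∑ n ∈ range N, ‖∑ j ∈ s, b j * ee (n * α j)‖ ^ 2 ≤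
      ∑ n ∈ range N, 2 * W (n : ℤ) := by
    refine Finset.sum_le_sum fun n hn => ?_
    rw [Finset.mem_range] at hn
    have h2 : (1 : ℝ) / 2 ≤ 1 - |((n : ℤ) : ℝ)| / L := by
      have h3 : |((n : ℤ) : ℝ)| / L ≤ 1 / 2 := by
        rw [Int.cast_natCast, abs_of_nonneg (Nat.cast_nonneg n), div_le_div_iff₀ hL0 two_pos]
        have : (n : ℝ) * 2 ≤ L := by
          have : n * 2 ≤ L := by omega
          exact_mod_cast this
        linarith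
      linarith
    simp only [hW]
    rw [Int.cast_natCast] at h2 ⊢
    nlinarith [sq_nonneg ‖∑ j ∈ s, b j * ee (n * α j)‖]
  have h2 : ∑ n ∈ range N, 2 * W (n : ℤ) = 2 * ∑ m ∈ (range N).map Nat.castEmbedding, W m := by
    rw [Finset.sum_map, Finset.mul_sum]
    rfl
  have h3 : ∑ m ∈ (range N).map Nat.castEmbedding, W m ≤ ∑ m ∈ Finset.Ioo (-(L : ℤ)) L, W m := by
    refine Finset.sum_le_sum_of_subset_of_nonneg ?_ ?_
    · intro m hm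
      rw [Finset.mem_map] at hm
      obtain ⟨n, hn, rfl⟩ := hm
      rw [Finset.mem_range] at hn
      rw [Finset.mem_Ioo, Nat.castEmbedding_apply]
      omega
    · intro m hm _
      rw [Finset.mem_Ioo] at hm
      have h4 : |(m : ℝ)| / L ≤ 1 := by
        rw [div_le_one hL0, abs_le]
        constructor
        · exact_mod_cast hm.1.le
        · exact_mod_cast hm.2.le
      simp only [hW]
      exact mul_nonneg (by linarith) (sq_nonneg _)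
  have h4 : ∑ m ∈ Finset.Ioo (-(L : ℤ)) L, W m ≤ A * ∑ j ∈ s, ‖b j‖ ^ 2 := by
    refine le_trans (le_trans (le_abs_self _) (le_of_eq ?_)) (LSe_quad s α b L A hA)
    rw [← LSe_id s α b L hL, Complex.norm_real, Real.norm_eq_abs]
  linarith

/-- **Duality.** The transposed matrix has the same operator norm.

Proof. For given `a` put `b j := conj (∑_i c i j a i)`. Then `S := ∑_j |∑_i c i j a i| ^ 2 = ∑_i a i ∑_j c i j b j`, by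
Cauchy-Schwarz `S ^ 2 ≤ ∑ |a i| ^ 2 * ∑_i |∑_j c i j b j| ^ 2 ≤ ∑ |a i| ^ 2 * D * S`. -/
theorem duality {ι κ : Type} (s : Finset ι) (t : Finset κ) (c : ι → κ → ℂ) (D : ℝ) (hD : 0 ≤ D)
    (h : ∀ b : κ → ℂ, ∑ i ∈ s, ‖∑ j ∈ t, c i j * b j‖ ^ 2 ≤ D * ∑ j ∈ t, ‖b j‖ ^ 2) (a : ι → ℂ) :
    ∑ j ∈ t, ‖∑ i ∈ s, c i j * a i‖ ^ 2 ≤ D * ∑ i ∈ s, ‖a i‖ ^ 2 := by
  set S : ℝ := ∑ j ∈ t, ‖∑ i ∈ s, c i j * a i‖ ^ 2 with hS
  set b : κ → ℂ := fun j => (starRingEnd ℂ) (∑ i ∈ s, c i j * a i) with hb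
  have hS0 : 0 ≤ S := Finset.sum_nonneg fun _ _ => sq_nonneg _
  have hbS : ∑ j ∈ t, ‖b j‖ ^ 2 = S := by
    refine Finset.sum_congr rfl fun j _ => ?_
    simp only [hb]
    rw [RCLike.norm_conj]
  have h1 : (S : ℂ) = ∑ i ∈ s, a i * ∑ j ∈ t, c i j * b j := by
    have h2 : (S : ℂ) = ∑ j ∈ t, ∑ i ∈ s, c i j * a i * b j := by
      rw [hS, Complex.ofReal_sum]
      refine Finset.sum_congr rfl fun j _ => ?_
      rw [Complex.ofReal_pow, ← Complex.mul_conj', Finset.sum_mul]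
    rw [h2, Finset.sum_comm]
    refine Finset.sum_congr rfl fun i _ => ?_
    rw [Finset.mul_sum]
    refine Finset.sum_congr rfl fun j _ => ?_
    ring
  have h2 : S ≤ ∑ i ∈ s, ‖a i‖ * ‖∑ j ∈ t, c i j * b j‖ := by
    have h3 : ‖(S : ℂ)‖ = S := by
      rw [Complex.norm_real, Real.norm_eq_abs, abs_of_nonneg hS0]
    rw [← h3, h1]
    refine (norm_sum_le _ _).trans (le_of_eq ?_)
    refine Finset.sum_congr rfl fun i _ => ?_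
    rw [norm_mul]
  have h3 : S ^ 2 ≤ (∑ i ∈ s, ‖a i‖ ^ 2) * (D * S) := by
    calc S ^ 2 ≤ (∑ i ∈ s, ‖a i‖ * ‖∑ j ∈ t, c i j * b j‖) ^ 2 := pow_le_pow_left₀ hS0 h2 2
      _ ≤ (∑ i ∈ s, ‖a i‖ ^ 2) * ∑ i ∈ s, ‖∑ j ∈ t, c i j * b j‖ ^ 2 :=
        Finset.sum_mul_sq_le_sq_mul_sq _ _ _
      _ ≤ (∑ i ∈ s, ‖a i‖ ^ 2) * (D * S) := by
        refine mul_le_mul_of_nonneg_left ?_ (Finset.sum_nonneg fun _ _ => sq_nonneg _)
        rw [← hbS]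
        exact h b
  have hA0 : 0 ≤ ∑ i ∈ s, ‖a i‖ ^ 2 := Finset.sum_nonneg fun _ _ => sq_nonneg _
  rcases hS0.eq_or_lt with h0 | h0
  · rw [← h0]
    positivity
  · have h4 : S * S ≤ (D * ∑ i ∈ s, ‖a i‖ ^ 2) * S := by nlinarith
    exact le_of_mul_le_mul_right h4 h0

end Pool.Agent.Wb58c63
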