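import Pool.Agent.W_b58c63_h68.LSd
import Pool.Agent.W_b58c63_h68.LSe

/-!
# The additive large sieve for Farey fractions (helper68)
-/

set_option autoImplicit false

noncomputable section

open Finset

namespace Pool.Agent.Wb58c63

/-- The reduced fractions `b / q`, `q ≤ Q`, as pairs `(q, b)`. -/
def FS (Q : ℕ) : Finset (ℕ × ℕ) :=
  (Icc 1 Q ×ˢ range Q).filter fun x => x.2 < x.1 ∧ Nat.Coprime x.2 x.1

/-- Two different reduced fractions are at distance at least `1 / Q ^ 2` modulo one.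

Proof. `b / q - b' / q' - m = c / (q q')` with an integer `c`, for every integer `m`. If `c = 0` then `b / q - b' / q'` is
an integer, of absolute value `< 1`, so `b / q = b' / q'`, and both are reduced, so the pairs agree (for `q = 1` the only
fraction is `0`). -/
theorem FS_spacing (Q : ℕ) (x y : ℕ × ℕ) (hx : x ∈ FS Q) (hy : y ∈ FS Q) (hxy : x ≠ y) :
    1 / (Q : ℝ) ^ 2 ≤ dn ((x.2 : ℝ) / x.1 - (y.2 : ℝ) / y.1) := by
  obtain ⟨q, b⟩ := x
  obtain ⟨q', b'⟩ := y
  unfold FS at hx hy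
  rw [Finset.mem_filter, Finset.mem_product, Finset.mem_Icc, Finset.mem_range] at hx hy
  obtain ⟨⟨⟨hq1, hqQ⟩, _⟩, hbq, hcop⟩ := hx
  obtain ⟨⟨⟨hq1', hqQ'⟩, _⟩, hbq', hcop'⟩ := hy
  simp only at hq1 hqQ hbq hcop hq1' hqQ' hbq' hcop' ⊢
  have hq0 : (0 : ℝ) < q := by exact_mod_cast hq1
  have hq0' : (0 : ℝ) < q' := by exact_mod_cast hq1'
  set m : ℤ := round ((b : ℝ) / q - (b' : ℝ) / q') with hm
  set c : ℤ := (b : ℤ) * q' - b' * q - m * (q * q') with hc
  have h1 : (b : ℝ) / q - (b' : ℝ) / q' - m = (c : ℝ) / (q * q') := by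
    rw [hc]
    push_cast
    field_simp
  have hc0 : c ≠ 0 := by
    intro h0
    have h2 : (b : ℤ) * q' - b' * q = m * (q * q') := by
      rw [hc] at h0
      linarith
    have h3 : (b : ℤ) * q' < q * q' := by
      have : b * q' < q * q' := Nat.mul_lt_mul_of_pos_right hbq hq1'
      exact_mod_cast this
    have h4 : (b' : ℤ) * q < q * q' := by
      have : b' * q < q * q' := by
        rw [mul_comm q q']
        exact Nat.mul_lt_mul_of_pos_right hbq' hq1
      exact_mod_cast this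
    have h5 : (0 : ℤ) ≤ (b : ℤ) * q' := by positivity
    have h6 : (0 : ℤ) ≤ (b' : ℤ) * q := by positivity
    have h7 : m = 0 := by
      have hpos : (0 : ℤ) < q * q' := by
        have : 0 < q * q' := Nat.mul_pos hq1 hq1'
        exact_mod_cast this
      have ha : m < 1 := by
        by_contra hcon
        push Not at hcon
        nlinarith
      have hb : -1 < m := by
        by_contra hcon
        push Not at hcon
        nlinarith
      omega
    rw [h7, zero_mul] at h2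
    have h8 : b * q' = b' * q := by
      have : (b : ℤ) * q' = b' * q := by linarith
      exact_mod_cast this
    have h9 : q ∣ q' := by
      have : q ∣ b * q' := by
        rw [h8]
        exact Nat.dvd_mul_left _ _
      exact (Nat.Coprime.dvd_of_dvd_mul_left hcop.symm this)
    have h10 : q' ∣ q := by
      have : q' ∣ b' * q := by
        rw [← h8]
        exact Nat.dvd_mul_left _ _
      exact (Nat.Coprime.dvd_of_dvd_mul_left hcop'.symm this)
    have h11 : q = q' := Nat.dvd_antisymm h9 h10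
    subst h11
    have h12 : b = b' := Nat.eq_of_mul_eq_mul_right hq1 h8
    exact hxy (by rw [h12])
  unfold dn
  rw [← hm, h1, abs_div, abs_of_pos (mul_pos hq0 hq0')]
  have h13 : (1 : ℝ) ≤ |(c : ℝ)| := by
    have : (1 : ℤ) ≤ |c| := Int.one_le_abs hc0
    exact_mod_cast this
  have h14 : (q : ℝ) * q' ≤ (Q : ℝ) ^ 2 := by
    have h15 : (q : ℝ) ≤ Q := by exact_mod_cast hqQ
    have h16 : (q' : ℝ) ≤ Q := by exact_mod_cast hqQ'
    nlinarith
  exact div_le_div₀ (abs_nonneg _) h13 (mul_pos hq0 hq0') h14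

/-- **Dual additive large sieve.**

Proof. `L := 2 * N + Q ^ 2`, `Kf_sum` (the spacing is `≥ 1 / Q ^ 2 ≥ 1 / L`), `dual_schur` with `A = 3 L`:
the constant is `6 L ≤ 12 (N + Q ^ 2)`. -/
theorem farey_dual (Q N : ℕ) (hQ : 1 ≤ Q) (b : ℕ × ℕ → ℂ) :
    ∑ n ∈ range N, ‖∑ x ∈ FS Q, b x * ee (n * ((x.2 : ℝ) / x.1))‖ ^ 2 ≤
      12 * ((N : ℝ) + Q ^ 2) * ∑ x ∈ FS Q, ‖b x‖ ^ 2 := by
  have hQ0 : (0 : ℝ) < Q := by exact_mod_cast hQ
  have hL : 1 ≤ 2 * N + Q ^ 2 := by
    have : 0 < Q ^ 2 := by positivity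
    omega
  have hA : ∀ i ∈ FS Q, ∑ j ∈ FS Q, Kf (2 * N + Q ^ 2)
      ((fun x : ℕ × ℕ => (x.2 : ℝ) / x.1) i - (fun x : ℕ × ℕ => (x.2 : ℝ) / x.1) j) ≤
      3 * ((2 * N + Q ^ 2 : ℕ) : ℝ) := by
    intro i hi
    refine Kf_sum (FS Q) (fun x : ℕ × ℕ => (x.2 : ℝ) / x.1) (2 * N + Q ^ 2) hL ?_ i hi
    intro x hx y hy hxy
    refine le_trans ?_ (FS_spacing Q x y hx hy hxy)
    refine one_div_le_one_div_of_le (by positivity) ?_
    push_cast
    have : (0 : ℝ) ≤ N := Nat.cast_nonneg N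
    linarith
  refine (dual_schur (FS Q) (fun x : ℕ × ℕ => (x.2 : ℝ) / x.1) b N (2 * N + Q ^ 2) hL
    (by omega) _ hA).trans ?_
  refine mul_le_mul_of_nonneg_right ?_ (Finset.sum_nonneg fun _ _ => sq_nonneg _)
  push_cast
  nlinarith [sq_nonneg (Q : ℝ)]

/-- **Additive large sieve** (`duality` applied to `farey_dual`). -/
theorem farey (Q N : ℕ) (hQ : 1 ≤ Q) (a : ℕ → ℂ) :
    ∑ x ∈ FS Q, ‖∑ n ∈ range N, a n * ee (n * ((x.2 : ℝ) / x.1))‖ ^ 2 ≤
      12 * ((N : ℝ) + Q ^ 2) * ∑ n ∈ range N, ‖a n‖ ^ 2 := by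
  have h := duality (range N) (FS Q) (fun (n : ℕ) (x : ℕ × ℕ) => ee (n * ((x.2 : ℝ) / x.1)))
    (12 * ((N : ℝ) + Q ^ 2)) (by positivity) ?_ a
  · refine le_trans (le_of_eq ?_) h
    refine Finset.sum_congr rfl fun x _ => ?_
    congr 2
    refine Finset.sum_congr rfl fun n _ => ?_
    rw [mul_comm]
  · intro b
    refine le_trans (le_of_eq ?_) (farey_dual Q N hQ b)
    refine Finset.sum_congr rfl fun n _ => ?_
    congr 2
    refine Finset.sum_congr rfl fun x _ => ?_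
    rw [mul_comm]

end Pool.Agent.Wb58c63
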