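import Pool.Agent.W_b58c63_h68.LSa

/-!
# The large sieve: well spaced points (helper68)
-/

set_option autoImplicit false

noncomputable section

open Finset

namespace Pool.Agent.Wb58c63

theorem LSd_sq {ι : Type} (u : Finset ι) (f : ι → ℕ) (hf : Set.InjOn f u)
    (h1 : ∀ j ∈ u, 1 ≤ f j) : ∑ j ∈ u, ((f j : ℝ) ^ 2)⁻¹ ≤ 2 := by
  classical
  have h2 : ∑ j ∈ u, ((f j : ℝ) ^ 2)⁻¹ = ∑ n ∈ u.image f, ((n : ℝ) ^ 2)⁻¹ :=
    (Finset.sum_image (f := fun n : ℕ => ((n : ℝ) ^ 2)⁻¹) hf).symm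
  rw [h2]
  have h3 : u.image f ⊆ Finset.Ioo 0 (u.sup f + 1) := by
    intro n hn
    rw [Finset.mem_image] at hn
    obtain ⟨j, hj, rfl⟩ := hn
    rw [Finset.mem_Ioo]
    exact ⟨h1 j hj, Nat.lt_succ_of_le (Finset.le_sup hj)⟩
  refine (Finset.sum_le_sum_of_subset_of_nonneg h3 fun _ _ _ => by positivity).trans ?_
  have := sum_Ioo_inv_sq_le (α := ℝ) 0 (u.sup f + 1)
  simpa using this

/-- The signed distance to the nearest integer. -/
def LSd_t {ι : Type} (α : ι → ℝ) (i j : ι) : ℝ := (α i - α j) - round (α i - α j)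

theorem LSd_t_self {ι : Type} (α : ι → ℝ) (i : ι) : LSd_t α i i = 0 := by
  unfold LSd_t
  simp

theorem LSd_side {ι : Type} [DecidableEq ι] (s : Finset ι) (α : ι → ℝ) (L : ℕ) (hL : 1 ≤ L)
    (h : ∀ i ∈ s, ∀ j ∈ s, i ≠ j → 1 / (L : ℝ) ≤ dn (α i - α j)) (i : ι) (hi : i ∈ s)
    (σ : ℝ) (hσ : σ = 1 ∨ σ = -1) :
    ∑ j ∈ s.filter (fun j => 0 < σ * LSd_t α i j), Kf L (α i - α j) ≤ L / 2 := by
  have hL0 : (0 : ℝ) < L := by exact_mod_cast hL
  have habs : ∀ j, 0 < σ * LSd_t α i j → σ * LSd_t α i j = dn (α i - α j) := by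
    intro j hj
    have h1 : |σ| = 1 := by
      rcases hσ with rfl | rfl <;> simp
    rw [← abs_of_pos hj, abs_mul, h1, one_mul]
    rfl
  have hge : ∀ j ∈ s.filter (fun j => 0 < σ * LSd_t α i j),
      1 ≤ σ * LSd_t α i j * L := by
    intro j hj
    rw [Finset.mem_filter] at hj
    have hne : i ≠ j := by
      rintro rfl
      rw [LSd_t_self, mul_zero] at hj
      exact lt_irrefl _ hj.2
    have h2 := h i hi j hj.1 hne
    rw [habs j hj.2]
    rwa [div_le_iff₀ hL0] at h2
  have key := LSd_sq (s.filter (fun j => 0 < σ * LSd_t α i j))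
    (fun j => ⌊σ * LSd_t α i j * L⌋₊) ?_ ?_
  · have h3 : ∀ j ∈ s.filter (fun j => 0 < σ * LSd_t α i j),
        Kf L (α i - α j) ≤ L / 4 * (((⌊σ * LSd_t α i j * L⌋₊ : ℕ) : ℝ) ^ 2)⁻¹ := by
      intro j hj
      have h1 := hge j hj
      have h2 := (Finset.mem_filter.mp hj).2
      have h4 : dn (α i - α j) ≠ 0 := by
        rw [← habs j h2]
        exact ne_of_gt h2
      refine (Kf_le_dn L hL _ h4).trans ?_
      rw [← habs j h2]
      have h5 : ((⌊σ * LSd_t α i j * L⌋₊ : ℕ) : ℝ) ≤ σ * LSd_t α i j * L :=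
        Nat.floor_le (by linarith)
      have h6 : (1 : ℝ) ≤ ((⌊σ * LSd_t α i j * L⌋₊ : ℕ) : ℝ) := by
        exact_mod_cast Nat.le_floor (by simpa using h1)
      set F := ((⌊σ * LSd_t α i j * L⌋₊ : ℕ) : ℝ) with hF
      set τ := σ * LSd_t α i j with hτ
      have h7 : F ^ 2 ≤ (τ * L) ^ 2 := pow_le_pow_left₀ (by linarith) h5 2
      have h8 : (L : ℝ) / 4 * (F ^ 2)⁻¹ = L / (4 * F ^ 2) := by
        field_simp
      rw [h8, div_le_div_iff₀ (by positivity) (by positivity)]
      nlinarith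
    refine (Finset.sum_le_sum h3).trans ?_
    rw [← Finset.mul_sum]
    nlinarith
  · intro j hj k hk hjk
    by_contra hne
    have hj1 := hge j hj
    have hk1 := hge k hk
    have hj' := Finset.mem_filter.mp hj
    have hk' := Finset.mem_filter.mp hk
    have h1 := h j hj'.1 k hk'.1 hne
    simp only at hjk
    have h2 : dn (α j - α k) ≤ |LSd_t α i k - LSd_t α i j| := by
      have h3 := round_le (α j - α k) (round (α i - α k) - round (α i - α j))
      unfold dn
      refine h3.trans (le_of_eq ?_)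
      unfold LSd_t
      congr 1
      push_cast
      ring
    have h4 : |LSd_t α i k - LSd_t α i j| = |σ * LSd_t α i k - σ * LSd_t α i j| := by
      have h5 : |σ| = 1 := by
        rcases hσ with rfl | rfl <;> simp
      rw [← mul_sub, abs_mul, h5, one_mul]
    have ha := Nat.floor_le (show (0 : ℝ) ≤ σ * LSd_t α i j * L by linarith)
    have hb := Nat.lt_floor_add_one (σ * LSd_t α i j * L)
    have hc := Nat.floor_le (show (0 : ℝ) ≤ σ * LSd_t α i k * L by linarith)
    have hd := Nat.lt_floor_add_one (σ * LSd_t α i k * L)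
    rw [hjk] at ha hb
    have h6 : |σ * LSd_t α i k - σ * LSd_t α i j| * L < 1 := by
      have h7 : |σ * LSd_t α i k - σ * LSd_t α i j| * (L : ℝ) =
          |(σ * LSd_t α i k - σ * LSd_t α i j) * L| := by
        rw [abs_mul, abs_of_pos hL0]
      rw [h7, sub_mul, abs_lt]
      constructor <;> linarith
    rw [div_le_iff₀ hL0] at h1
    rw [h4] at h2
    nlinarith
  · intro j hj
    exact Nat.le_floor (by simpa using hge j hj)

/-- **Well spaced points.**

Proof. For `m = 0, 1, 2, ...` at most two points `j` have `dn (α i - α j) ∈ [m / L, (m + 1) / L)` (one on each side of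
`α i` on the circle: two points in a half open arc of length `1 / L` are at distance `< 1 / L`; for `m = 0` the point `i`
itself and no other one, or just bound by `2`). `Kf ≤ L` for `m = 0` and `Kf ≤ 1 / (4 L (m / L) ^ 2) = L / (4 m ^ 2)` for
`m ≥ 1`. The total is at most `2 L + ∑_{m ≥ 1} L / (2 m ^ 2) = 2 L + L π ^ 2 / 12 ≤ 3 L`. (The sum over `m` is finite:
`dn ≤ 1 / 2`; `∑_{m ≥ 1} 1 / m ^ 2 ≤ 2` by telescoping is enough.) -/
theorem Kf_sum {ι : Type} [DecidableEq ι] (s : Finset ι) (α : ι → ℝ) (L : ℕ) (hL : 1 ≤ L)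
    (h : ∀ i ∈ s, ∀ j ∈ s, i ≠ j → 1 / (L : ℝ) ≤ dn (α i - α j)) (i : ι) (hi : i ∈ s) :
    ∑ j ∈ s, Kf L (α i - α j) ≤ 3 * L := by
  have hL0 : (0 : ℝ) < L := by exact_mod_cast hL
  have hp := LSd_side s α L hL h i hi 1 (Or.inl rfl)
  have hm := LSd_side s α L hL h i hi (-1) (Or.inr rfl)
  have hnn : ∀ x, 0 ≤ Kf L x := by
    intro x
    unfold Kf
    positivity
  have h1 : ∀ j ∈ s, Kf L (α i - α j) ≤ (if j = i then (L : ℝ) else 0) +
      (if 0 < 1 * LSd_t α i j then Kf L (α i - α j) else 0) +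
      (if 0 < -1 * LSd_t α i j then Kf L (α i - α j) else 0) := by
    intro j hj
    have hK := hnn (α i - α j)
    by_cases hji : j = i
    · have := Kf_le L (α i - α j)
      rw [if_pos hji]
      split_ifs <;> linarith
    · have h2 := h i hi j hj (Ne.symm hji)
      have h3 : 0 < |LSd_t α i j| := lt_of_lt_of_le (by positivity) h2
      rcases lt_trichotomy (LSd_t α i j) 0 with h4 | h4 | h4
      · rw [if_neg hji, if_neg (by linarith), if_pos (by linarith)]
        linarith
      · rw [h4, abs_zero] at h3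
        exact absurd h3 (lt_irrefl _)
      · rw [if_neg hji, if_pos (by linarith), if_neg (by linarith)]
        linarith
  refine (Finset.sum_le_sum h1).trans ?_
  rw [Finset.sum_add_distrib, Finset.sum_add_distrib, ← Finset.sum_filter, ← Finset.sum_filter,
    ← Finset.sum_filter, Finset.filter_eq' s i, if_pos hi, Finset.sum_singleton]
  linarith

end Pool.Agent.Wb58c63
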