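import Pool.Agent.W_b58c63_h68.SLbB
import Pool.Agent.W_b58c63_h68.SgE

/-!
# Siegel-Walfisz, block S: the lower bound (helper49)
-/

set_option autoImplicit false

noncomputable section

open Finset DirichletCharacter

namespace Pool.Agent.Wb58c63

/-- The choice of `δ`. -/
theorem SLbC_delta {a c0 C1 R : ℝ} (ha : 0 < a) (hc0 : 0 < c0) (hC1 : 1 ≤ C1) (hR : 1 ≤ R) :
    ∃ δ : ℝ, 0 < δ ∧ δ ≤ 1 ∧ min 1 (c0 / (4 * C1 * 3 ^ a)) * R ^ (-(2 * a)) ≤ δ ∧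
      C1 * (3 * R) ^ a * (2 * δ) ≤ c0 * R ^ (-a) / 2 := by
  have hR0 : 0 < R := by linarith
  have hC0 : 0 < C1 := by linarith
  have h3 : (0 : ℝ) < 3 ^ a := Real.rpow_pos_of_pos (by norm_num) _
  have hRa : 0 < R ^ a := Real.rpow_pos_of_pos hR0 _
  have e1 : (3 * R) ^ a = 3 ^ a * R ^ a := Real.mul_rpow (by norm_num) hR0.le
  have e2 : R ^ (-a) = (R ^ a)⁻¹ := Real.rpow_neg hR0.le _
  have e3 : R ^ (-(2 * a)) = (R ^ a)⁻¹ * (R ^ a)⁻¹ := by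
    rw [← e2, ← Real.rpow_add hR0]
    congr 1
    ring
  have hRi : (R ^ a)⁻¹ ≤ 1 := inv_le_one_of_one_le₀ (Real.one_le_rpow hR ha.le)
  have hRi0 : 0 < (R ^ a)⁻¹ := inv_pos.2 hRa
  refine ⟨min 1 (c0 * R ^ (-a) / (4 * C1 * (3 * R) ^ a)), ?_, min_le_left _ _, ?_, ?_⟩
  · refine lt_min one_pos ?_
    rw [e1, e2]
    positivity
  · refine le_min ?_ ?_
    · rw [e3]
      have h4 : min 1 (c0 / (4 * C1 * 3 ^ a)) ≤ 1 := min_le_left _ _
      have h5 : 0 ≤ min 1 (c0 / (4 * C1 * 3 ^ a)) := le_min zero_le_one (by positivity)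
      have h6 : (R ^ a)⁻¹ * (R ^ a)⁻¹ ≤ 1 := mul_le_one₀ hRi hRi0.le hRi
      have h7 : 0 ≤ (R ^ a)⁻¹ * (R ^ a)⁻¹ := by positivity
      exact mul_le_one₀ h4 h7 h6
    · have h4 : min 1 (c0 / (4 * C1 * 3 ^ a)) ≤ c0 / (4 * C1 * 3 ^ a) := min_le_right _ _
      refine (mul_le_mul_of_nonneg_right h4 (by rw [e3]; positivity)).trans (le_of_eq ?_)
      rw [e1, e2, e3]
      field_simp
  · have h4 : min 1 (c0 * R ^ (-a) / (4 * C1 * (3 * R) ^ a)) ≤ c0 * R ^ (-a) / (4 * C1 * (3 * R) ^ a) :=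
      min_le_right _ _
    have h5 : 0 < C1 * (3 * R) ^ a := by rw [e1]; positivity
    calc C1 * (3 * R) ^ a * (2 * min 1 (c0 * R ^ (-a) / (4 * C1 * (3 * R) ^ a)))
        ≤ C1 * (3 * R) ^ a * (2 * (c0 * R ^ (-a) / (4 * C1 * (3 * R) ^ a))) :=
          mul_le_mul_of_nonneg_left (by linarith) h5.le
      _ = c0 * R ^ (-a) / 2 := by
          have h6 : (3 * R) ^ a ≠ 0 := by rw [e1]; positivity
          field_simp
          ring

/-- The lower bound for real characters near the real axis.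

Proof. Let `ε₁ = ε / 4`, `c₀` the constant of `siegel ε₁`, `C₁` the constant of `sw_lip ε₁` (with `T = 1`,
`QQ r 1 = 3 r`), and `δ = min 1 (c₀ r ^ (-ε₁) / (4 C₁ (3 r) ^ ε₁))`, so `δ ≥ c₂ r ^ (-2 ε₁)` with `c₂ > 0` depending on
`ε` only. Let `x = s.re - 1`, `y = s.im`. If `|y| ≥ δ` use `sw_lower_real_far ε₁`:
`‖L‖ ≥ c δ QQ ^ (-ε₁) ≥ c c₂ QQ ^ (-3 ε₁)` (`r ≤ QQ r y`). If `|y| < δ` and `x > δ` use `sw_triv_ge`:
`‖L‖ ≥ x / (1 + x) ≥ δ / 2 ≥ c₂ / 2 QQ ^ (-2 ε₁)`. If `|y| < δ` and `x ≤ δ` then `‖s - 1‖ ≤ 2 δ`, so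
`‖L(s)‖ ≥ ‖L(1)‖ - C₁ (3 r) ^ ε₁ 2 δ ≥ c₀ r ^ (-ε₁) - c₀ r ^ (-ε₁) / 2 ≥ c₀ / 2 QQ ^ (-ε₁)`. As `QQ ≥ 1` all these are
at least `c QQ ^ (-ε)`. -/
theorem sw_lower_real (ε : ℝ) (hε : 0 < ε) :
    ∃ c : ℝ, 0 < c ∧ ∀ (r : ℕ) [NeZero r] (χ : DirichletCharacter ℂ r), 1 < r → χ.IsPrimitive → χ ^ 2 = 1 →
      ∀ s : ℂ, 1 < s.re → s.re ≤ 2 → c * QQ r s.im ^ (-ε) ≤ ‖LFunction χ s‖ := by
  obtain ⟨a, ha, hae⟩ : ∃ a : ℝ, 0 < a ∧ ε = 4 * a := ⟨ε / 4, by linarith, by ring⟩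
  obtain ⟨c0, hc0, H0⟩ := siegel a ha
  obtain ⟨C1, hC1, H1⟩ := sw_lip a ha
  obtain ⟨cf, hcf, H2⟩ := sw_lower_real_far a ha
  obtain ⟨c2, hc2, hc2e⟩ : ∃ c2 : ℝ, 0 < c2 ∧ c2 = min 1 (c0 / (4 * C1 * 3 ^ a)) := by
    have h3 : (0 : ℝ) < 3 ^ a := Real.rpow_pos_of_pos (by norm_num) _
    exact ⟨_, lt_min one_pos (by positivity), rfl⟩
  refine ⟨min (cf * c2) (min (c2 / 2) (c0 / 2)), by positivity, ?_⟩
  intro r _ χ hr hχ h2 s hs hs2
  have hR : (1 : ℝ) ≤ r := by exact_mod_cast hr.le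
  have hR0 : (0 : ℝ) < r := by linarith
  obtain ⟨δ, hδ0, hδ1, hδ2, hδ3⟩ := SLbC_delta ha hc0 hC1 hR
  rw [← hc2e] at hδ2
  have hχ1 := sg_prim_ne_one χ hr hχ
  obtain ⟨Q, hQ⟩ : ∃ Q : ℝ, Q = QQ r s.im := ⟨_, rfl⟩
  have hQ2 : 2 ≤ Q := hQ ▸ QQ_ge (r := r) s.im
  have hQ1 : 1 ≤ Q := by linarith
  have hQ0 : 0 < Q := by linarith
  have hQr : (r : ℝ) ≤ Q := by
    rw [hQ]
    unfold QQ
    nlinarith [abs_nonneg s.im]
  rw [← hQ]
  have hQe : 0 < Q ^ (-ε) := Real.rpow_pos_of_pos hQ0 _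
  -- comparison of powers
  have hmono : ∀ p : ℝ, 0 ≤ p → p ≤ ε → Q ^ (-ε) ≤ Q ^ (-p) := fun p _ hp =>
    Real.rpow_le_rpow_of_exponent_le hQ1 (by linarith)
  have hbase : ∀ p : ℝ, 0 ≤ p → Q ^ (-p) ≤ (r : ℝ) ^ (-p) := fun p hp =>
    Real.rpow_le_rpow_of_nonpos hR0 hQr (by linarith)
  have hδQ : c2 * Q ^ (-(2 * a)) ≤ δ :=
    (mul_le_mul_of_nonneg_left (hbase (2 * a) (by linarith)) hc2.le).trans hδ2
  by_cases hy : δ ≤ |s.im|
  · have h3 := H2 r χ hχ1 h2 δ hδ0 hδ1 s hs hs2 hy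
    rw [← hQ] at h3
    have hQa : 0 < Q ^ (-a) := Real.rpow_pos_of_pos hQ0 _
    calc min (cf * c2) (min (c2 / 2) (c0 / 2)) * Q ^ (-ε) ≤ cf * c2 * Q ^ (-ε) :=
          mul_le_mul_of_nonneg_right (min_le_left _ _) hQe.le
      _ ≤ cf * c2 * Q ^ (-(3 * a)) :=
          mul_le_mul_of_nonneg_left (hmono _ (by linarith) (by linarith)) (by positivity)
      _ = cf * (c2 * Q ^ (-(2 * a))) * Q ^ (-a) := by
          have e : Q ^ (-(3 * a)) = Q ^ (-(2 * a)) * Q ^ (-a) := by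
            rw [← Real.rpow_add hQ0]
            congr 1
            ring
          rw [e]
          ring
      _ ≤ cf * δ * Q ^ (-a) :=
          mul_le_mul_of_nonneg_right (mul_le_mul_of_nonneg_left hδQ hcf.le) hQa.le
      _ ≤ _ := h3
  · rw [not_le] at hy
    by_cases hx : δ < s.re - 1
    · have h3 := sw_triv_ge χ hs
      have h4 : (s.re - 1) / 2 ≤ (s.re - 1) / s.re :=
        div_le_div_of_nonneg_left (by linarith) (by linarith) hs2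
      have h5 : min (cf * c2) (min (c2 / 2) (c0 / 2)) ≤ c2 / 2 :=
        (min_le_right _ _).trans (min_le_left _ _)
      calc min (cf * c2) (min (c2 / 2) (c0 / 2)) * Q ^ (-ε) ≤ c2 / 2 * Q ^ (-ε) :=
            mul_le_mul_of_nonneg_right h5 hQe.le
        _ ≤ c2 / 2 * Q ^ (-(2 * a)) :=
            mul_le_mul_of_nonneg_left (hmono _ (by linarith) (by linarith)) (by positivity)
        _ ≤ δ / 2 := by linarith
        _ ≤ (s.re - 1) / 2 := by linarith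
        _ ≤ _ := h4.trans h3
    · rw [not_lt] at hx
      have h3 := H0 r χ hr hχ h2
      have h4 := H1 r χ hχ1 1 zero_le_one s 1 hs.le hs2 (by linarith) (by simp) (by simp)
        (by simp)
      have hn : ‖s - 1‖ ≤ 2 * δ := by
        refine (Complex.norm_le_abs_re_add_abs_im _).trans ?_
        simp only [Complex.sub_re, Complex.one_re, Complex.sub_im, Complex.one_im, sub_zero]
        rw [abs_of_pos (by linarith : 0 < s.re - 1)]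
        linarith
      have hq : QQ r 1 = 3 * r := by
        unfold QQ
        rw [abs_one]
        ring
      rw [hq] at h4
      have h3r : 0 ≤ (3 * (r : ℝ)) ^ a := Real.rpow_nonneg (by linarith) _
      have h5 : ‖LFunction χ s - LFunction χ 1‖ ≤ c0 * (r : ℝ) ^ (-a) / 2 :=
        h4.trans ((mul_le_mul_of_nonneg_left hn (by positivity)).trans hδ3)
      have h6 : ‖LFunction χ 1‖ - ‖LFunction χ s - LFunction χ 1‖ ≤ ‖LFunction χ s‖ := by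
        have := norm_sub_norm_le (LFunction χ 1) (LFunction χ s)
        rw [norm_sub_rev] at this
        linarith
      have h7 : min (cf * c2) (min (c2 / 2) (c0 / 2)) ≤ c0 / 2 :=
        (min_le_right _ _).trans (min_le_right _ _)
      calc min (cf * c2) (min (c2 / 2) (c0 / 2)) * Q ^ (-ε) ≤ c0 / 2 * Q ^ (-ε) :=
            mul_le_mul_of_nonneg_right h7 hQe.le
        _ ≤ c0 / 2 * (r : ℝ) ^ (-a) :=
            mul_le_mul_of_nonneg_left ((hmono a ha.le (by linarith)).trans (hbase a ha.le))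
              (by positivity)
        _ ≤ ‖LFunction χ s‖ := by linarith

/-- **The lower bound.** -/
theorem sw_lower (ε : ℝ) (hε : 0 < ε) :
    ∃ c : ℝ, 0 < c ∧ ∀ (r : ℕ) [NeZero r] (χ : DirichletCharacter ℂ r), 1 < r → χ.IsPrimitive →
      ∀ s : ℂ, 1 < s.re → s.re ≤ 2 → c * QQ r s.im ^ (-ε) ≤ ‖LFunction χ s‖ := by
  obtain ⟨c1, h1, h1'⟩ := sw_lower_complex ε hε
  obtain ⟨c2, h2, h2'⟩ := sw_lower_real ε hε
  refine ⟨min c1 c2, lt_min h1 h2, fun r _ χ hr hχ s hs hs2 => ?_⟩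
  have hQ : 0 ≤ QQ r s.im ^ (-ε) := Real.rpow_nonneg (by linarith [QQ_ge (r := r) s.im]) _
  by_cases h : χ ^ 2 = 1
  · exact (mul_le_mul_of_nonneg_right (min_le_right _ _) hQ).trans (h2' r χ hr hχ h s hs hs2)
  · exact (mul_le_mul_of_nonneg_right (min_le_left _ _) hQ).trans
      (h1' r χ (sg_prim_ne_one χ hr hχ) h s hs hs2)

end Pool.Agent.Wb58c63
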