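import Mathlib

/-!
# Siegel-Walfisz, block S: the recursion bounds F (helper49)
-/

set_option autoImplicit false

noncomputable section

open Finset

namespace Pool.Agent.Wb58c63

theorem SRecC_aux (k : ℕ) :
    ∃ A : ℝ, 1 ≤ A ∧ ∀ (L F : ℕ → ℂ) (H G : ℝ), 1 ≤ H → 1 ≤ G → (∀ j ≤ k + 1, ‖L j‖ ≤ H) →
      1 ≤ G * ‖L 0‖ →
      (∀ i ≤ k, L (i + 1) = ∑ j ∈ range (i + 1), (i.choose j : ℂ) * L j * F (i - j)) →
      ∀ i ≤ k, ‖F i‖ ≤ A * (G * H) ^ (i + 1) := by
  induction k with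
  | zero =>
    refine ⟨1, le_refl _, ?_⟩
    intro L F H G hH hG hL h0 hrec i hi
    obtain rfl : i = 0 := by omega
    have h1 := hrec 0 (le_refl _)
    rw [Finset.sum_range_one] at h1
    simp only [zero_add, Nat.choose_self, Nat.cast_one, one_mul, Nat.sub_self] at h1
    have h2 : ‖L 0‖ * ‖F 0‖ ≤ H := by
      rw [← norm_mul, ← h1]
      exact hL 1 (by omega)
    have h3 : ‖F 0‖ ≤ G * ‖L 0‖ * ‖F 0‖ := by
      have := mul_le_mul_of_nonneg_right h0 (norm_nonneg (F 0))
      linarith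
    rw [one_mul, zero_add, pow_one]
    have h4 := mul_le_mul_of_nonneg_left h2 (show (0 : ℝ) ≤ G by linarith)
    linarith
  | succ k ih =>
    obtain ⟨A, hA1, hA⟩ := ih
    refine ⟨1 + 2 ^ (k + 1) * A, ?_, ?_⟩
    · have : (0 : ℝ) ≤ 2 ^ (k + 1) * A := by positivity
      linarith
    intro L F H G hH hG hL h0 hrec i hi
    have hprev := hA L F H G hH hG (fun j hj => hL j (by omega)) h0
      (fun i hi => hrec i (by omega))
    have hGH : 1 ≤ G * H := one_le_mul_of_one_le_of_one_le hG hH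
    have hGH0 : 0 ≤ G * H := by linarith
    have hmax : A ≤ 1 + 2 ^ (k + 1) * A := by
      have h2 : (1 : ℝ) ≤ 2 ^ (k + 1) := one_le_pow₀ (by norm_num)
      nlinarith
    rcases Nat.lt_or_ge k i with hik | hik
    · obtain rfl : i = k + 1 := by omega
      have h1 := hrec (k + 1) (le_refl _)
      rw [Finset.sum_range_succ'] at h1
      simp only [Nat.choose_zero_right, Nat.cast_one, one_mul, Nat.sub_zero] at h1
      have h2 : L 0 * F (k + 1) = L (k + 1 + 1) -
          ∑ j ∈ range (k + 1), ((k + 1).choose (j + 1) : ℂ) * L (j + 1) * F (k + 1 - (j + 1)) := by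
        rw [h1]
        ring
      have h3 : ‖∑ j ∈ range (k + 1), ((k + 1).choose (j + 1) : ℂ) * L (j + 1) *
          F (k + 1 - (j + 1))‖ ≤ 2 ^ (k + 1) * (H * (A * (G * H) ^ (k + 1))) := by
        refine (norm_sum_le _ _).trans ?_
        have h4 : ∀ j ∈ range (k + 1), ‖((k + 1).choose (j + 1) : ℂ) * L (j + 1) *
            F (k + 1 - (j + 1))‖ ≤ ((k + 1).choose (j + 1) : ℝ) *
              (H * (A * (G * H) ^ (k + 1))) := by
          intro j hj
          rw [Finset.mem_range] at hj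
          rw [norm_mul, norm_mul, Complex.norm_natCast, mul_assoc]
          refine mul_le_mul_of_nonneg_left ?_ (Nat.cast_nonneg _)
          refine mul_le_mul (hL (j + 1) (by omega)) ?_ (norm_nonneg _) (by linarith)
          refine (hprev (k + 1 - (j + 1)) (by omega)).trans ?_
          refine mul_le_mul_of_nonneg_left ?_ (by linarith)
          exact pow_le_pow_right₀ hGH (by omega)
        refine (Finset.sum_le_sum h4).trans ?_
        rw [← Finset.sum_mul]
        refine mul_le_mul_of_nonneg_right ?_ (by positivity)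
        have h5 := Nat.sum_range_choose (k + 1)
        rw [Finset.sum_range_succ'] at h5
        have h6 : ∑ j ∈ range (k + 1), (k + 1).choose (j + 1) ≤ 2 ^ (k + 1) := by omega
        exact_mod_cast h6
      have h4 : ‖L 0‖ * ‖F (k + 1)‖ ≤ H + 2 ^ (k + 1) * (H * (A * (G * H) ^ (k + 1))) := by
        rw [← norm_mul, h2]
        refine (norm_sub_le _ _).trans ?_
        exact add_le_add (hL _ (by omega)) h3
      have h5 : ‖F (k + 1)‖ ≤ G * (‖L 0‖ * ‖F (k + 1)‖) := by
        have := mul_le_mul_of_nonneg_right h0 (norm_nonneg (F (k + 1)))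
        linarith
      have h6 := mul_le_mul_of_nonneg_left h4 (show (0 : ℝ) ≤ G by linarith)
      have h7 : (G * H) ≤ (G * H) ^ (k + 1 + 1) := by
        calc (G * H) = (G * H) ^ 1 := (pow_one _).symm
          _ ≤ (G * H) ^ (k + 1 + 1) := pow_le_pow_right₀ hGH (by omega)
      calc ‖F (k + 1)‖ ≤ G * (H + 2 ^ (k + 1) * (H * (A * (G * H) ^ (k + 1)))) := h5.trans h6
        _ = G * H + 2 ^ (k + 1) * A * (G * H) ^ (k + 1 + 1) := by ring
        _ ≤ (G * H) ^ (k + 1 + 1) + 2 ^ (k + 1) * A * (G * H) ^ (k + 1 + 1) := by linarith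
        _ = (1 + 2 ^ (k + 1) * A) * (G * H) ^ (k + 1 + 1) := by ring
    · refine (hprev i hik).trans ?_
      exact mul_le_mul_of_nonneg_right hmax (by positivity)

/-- The recursion bounds `F`.

Proof. Strong induction on `k` (the constant `A` depends on `k` only). The relation for `i = k`, the term `j = 0`:
`L 0 * F k = L (k + 1) - ∑_{1 ≤ j ≤ k} binom(k, j) L j F (k - j)`, so
`‖F k‖ ≤ G H (1 + 2 ^ k max_{i < k} ‖F i‖) ≤ G H (1 + 2 ^ k A' (G H) ^ k)` where `A' ≥ 1` is the maximum (or sum) of the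
constants for the smaller indices, `≤ A (G H) ^ (k + 1)` with `A = 1 + 2 ^ k A'`. -/
theorem sw_rec_bound (k : ℕ) :
    ∃ A : ℝ, 1 ≤ A ∧ ∀ (L F : ℕ → ℂ) (H G : ℝ), 1 ≤ H → 1 ≤ G → (∀ j ≤ k + 1, ‖L j‖ ≤ H) →
      1 ≤ G * ‖L 0‖ →
      (∀ i ≤ k, L (i + 1) = ∑ j ∈ range (i + 1), (i.choose j : ℂ) * L j * F (i - j)) →
      ‖F k‖ ≤ A * (G * H) ^ (k + 1) := by
  obtain ⟨A, hA1, hA⟩ := SRecC_aux k
  exact ⟨A, hA1, fun L F H G hH hG hL h0 hrec => hA L F H G hH hG hL h0 hrec k (le_refl _)⟩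

end Pool.Agent.Wb58c63
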