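import Pool.Agent.W_b58c63_h68.SRecB
import Pool.Agent.W_b58c63_h68.SRecC
import Pool.Agent.W_b58c63_h68.SLbC

/-!
# Siegel-Walfisz, block S: the bound of the logarithmic derivative (helper49)
-/

set_option autoImplicit false

noncomputable section

open Finset DirichletCharacter

namespace Pool.Agent.Wb58c63

/-- The bound of `F_k`.

Proof. Let `ε₁ = ε / (2 (k + 1))`. By `sw_deriv j ε₁` (`j ≤ k + 1`; take the maximum `C` of the constants) and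
`sw_Lj_eq`, `‖Lj χ j s‖ ≤ H = C QQ ^ ε₁` for all `j ≤ k + 1` (`QQ = QQ r s.im ≥ 1`, `χ ≠ 1` by `sg_prim_ne_one`), and by
`sw_lower ε₁` `1 ≤ G ‖Lj χ 0 s‖` with `G = max (1 / c) 1 * QQ ^ ε₁`. `sw_rec_bound k` with `sw_rec` gives
`‖Fk χ k s‖ ≤ A (G H) ^ (k + 1) = A' (QQ ^ (2 ε₁)) ^ (k + 1) = A' QQ ^ ε`. -/
theorem sw_Fk (k : ℕ) (ε : ℝ) (hε : 0 < ε) :
    ∃ C : ℝ, 1 ≤ C ∧ ∀ (r : ℕ) [NeZero r] (χ : DirichletCharacter ℂ r), 1 < r → χ.IsPrimitive →
      ∀ s : ℂ, 1 < s.re → s.re ≤ 2 → ‖Fk χ k s‖ ≤ C * QQ r s.im ^ ε := by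
  have hk : (0 : ℝ) < 2 * ((k : ℝ) + 1) := by positivity
  have hε₁ : 0 < ε / (2 * ((k : ℝ) + 1)) := div_pos hε hk
  obtain ⟨A, hA1, hA⟩ := sw_rec_bound k
  obtain ⟨c, hc, hlow⟩ := sw_lower (ε / (2 * ((k : ℝ) + 1))) hε₁
  choose C hC1 hC using fun j : ℕ => sw_deriv j (ε / (2 * ((k : ℝ) + 1))) hε₁
  have hH0 : ∀ j ≤ k + 1, C j ≤ ∑ i ∈ range (k + 2), C i := by
    intro j hj
    exact Finset.single_le_sum (f := C) (fun i _ => by linarith [hC1 i])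
      (Finset.mem_range.2 (by omega))
  have hH1 : 1 ≤ ∑ i ∈ range (k + 2), C i := (hC1 0).trans (hH0 0 (by omega))
  have hG1 : 1 ≤ max (1 / c) 1 := le_max_right _ _
  have hGH : 1 ≤ max (1 / c) 1 * ∑ i ∈ range (k + 2), C i := one_le_mul_of_one_le_of_one_le hG1 hH1
  refine ⟨A * (max (1 / c) 1 * ∑ i ∈ range (k + 2), C i) ^ (k + 1),
    one_le_mul_of_one_le_of_one_le hA1 (one_le_pow₀ hGH), fun r _ χ hr hχ s hs hs2 => ?_⟩
  have hQ := QQ_ge (r := r) s.im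
  have hQ0 : 0 < QQ r s.im := by linarith
  have hq : 1 ≤ QQ r s.im ^ (ε / (2 * ((k : ℝ) + 1))) := Real.one_le_rpow (by linarith) hε₁.le
  have hne := sg_prim_ne_one χ hr hχ
  have hbound := hA (fun j => Lj χ j s) (fun j => Fk χ j s)
    ((∑ i ∈ range (k + 2), C i) * QQ r s.im ^ (ε / (2 * ((k : ℝ) + 1))))
    (max (1 / c) 1 * QQ r s.im ^ (ε / (2 * ((k : ℝ) + 1))))
    (one_le_mul_of_one_le_of_one_le hH1 hq) (one_le_mul_of_one_le_of_one_le hG1 hq)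
    (by
      intro j hj
      show ‖Lj χ j s‖ ≤ _
      rw [sw_Lj_eq χ j hs, norm_mul, norm_pow, norm_neg, norm_one, one_pow, one_mul]
      refine (hC j r χ hne s hs.le hs2).trans ?_
      exact mul_le_mul_of_nonneg_right (hH0 j hj) (by linarith))
    (by
      show 1 ≤ _ * ‖Lj χ 0 s‖
      rw [sw_Lj_eq χ 0 hs, pow_zero, one_mul, iteratedDeriv_zero]
      have h1 := hlow r χ hr hχ s hs hs2
      have h2 : 1 = 1 / c * QQ r s.im ^ (ε / (2 * ((k : ℝ) + 1))) *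
          (c * QQ r s.im ^ (-(ε / (2 * ((k : ℝ) + 1))))) := by
        rw [Real.rpow_neg hQ0.le]
        have h3 : QQ r s.im ^ (ε / (2 * ((k : ℝ) + 1))) ≠ 0 := by linarith
        field_simp
      calc (1 : ℝ) = 1 / c * QQ r s.im ^ (ε / (2 * ((k : ℝ) + 1))) *
          (c * QQ r s.im ^ (-(ε / (2 * ((k : ℝ) + 1))))) := h2
        _ ≤ max (1 / c) 1 * QQ r s.im ^ (ε / (2 * ((k : ℝ) + 1))) *
          ‖LFunction χ s‖ := by
          refine mul_le_mul ?_ h1 (by positivity) (by positivity)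
          exact mul_le_mul_of_nonneg_right (le_max_left _ _) (by linarith))
    (by
      intro i hi
      exact sw_rec χ i hs)
  refine hbound.trans (le_of_eq ?_)
  have h4 : (QQ r s.im ^ (ε / (2 * ((k : ℝ) + 1))) * QQ r s.im ^ (ε / (2 * ((k : ℝ) + 1)))) ^ (k + 1) =
      QQ r s.im ^ ε := by
    rw [← Real.rpow_add hQ0, ← Real.rpow_natCast, ← Real.rpow_mul hQ0.le]
    congr 1
    push_cast
    field_simp
    ring
  rw [← h4]
  ring

end Pool.Agent.Wb58c63
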