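import Pool.Agent.W_b58c63_h68.SFub
import Pool.Agent.W_b58c63_h68.SUbC

/-!
# Siegel-Walfisz, block S: the bound of the smoothed sum (helper49)
-/

set_option autoImplicit false

noncomputable section

open Finset MeasureTheory DirichletCharacter ArithmeticFunction

namespace Pool.Agent.Wb58c63

theorem SFubB_pow (t : ℝ) : (|t| + 2) ^ (1 / 2 : ℝ) * (1 / (1 + t ^ 2)) ≤
    2 * (1 + ‖t‖ ^ 2) ^ (-(3 / 2 : ℝ) / 2) := by
  have h0 : 0 < 1 + t ^ 2 := by positivity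
  have ha : 0 ≤ |t| := abs_nonneg t
  have h1 : (|t| + 2) ^ (1 / 2 : ℝ) ≤ 2 * (1 + t ^ 2) ^ (1 / 4 : ℝ) := by
    calc (|t| + 2) ^ (1 / 2 : ℝ) = ((|t| + 2) ^ (2 : ℝ)) ^ (1 / 4 : ℝ) := by
          rw [← Real.rpow_mul (by positivity)]
          norm_num
      _ ≤ (2 ^ (4 : ℝ) * (1 + t ^ 2)) ^ (1 / 4 : ℝ) := by
          apply Real.rpow_le_rpow (by positivity) _ (by norm_num)
          rw [Real.rpow_two]
          norm_num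
          nlinarith [sq_nonneg (|t| - 2), sq_abs t]
      _ = 2 * (1 + t ^ 2) ^ (1 / 4 : ℝ) := by
          rw [Real.mul_rpow (by positivity) h0.le, ← Real.rpow_mul (by norm_num)]
          norm_num
  have h2 : (1 + t ^ 2) ^ (1 / 4 : ℝ) * (1 / (1 + t ^ 2)) = (1 + ‖t‖ ^ 2) ^ (-(3 / 2 : ℝ) / 2) := by
    rw [Real.norm_eq_abs, sq_abs]
    have h3 : 1 / (1 + t ^ 2) = (1 + t ^ 2) ^ (-1 : ℝ) := by
      rw [Real.rpow_neg_one, one_div]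
    rw [h3, ← Real.rpow_add h0]
    norm_num
  calc (|t| + 2) ^ (1 / 2 : ℝ) * (1 / (1 + t ^ 2))
      ≤ 2 * (1 + t ^ 2) ^ (1 / 4 : ℝ) * (1 / (1 + t ^ 2)) :=
        mul_le_mul_of_nonneg_right h1 (by positivity)
    _ = 2 * ((1 + t ^ 2) ^ (1 / 4 : ℝ) * (1 / (1 + t ^ 2))) := by ring
    _ = 2 * (1 + ‖t‖ ^ 2) ^ (-(3 / 2 : ℝ) / 2) := by rw [h2]

/-- The bound of the smoothed sum, given the bound of `F_k`.

Proof. `sw_rep` and the norm of the integral: the integrand is at most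
`C₀ / (1 + t ^ 2) · C (r (|t| + 2)) ^ ε ≤ C₀ C r ^ ε (|t| + 2) / (1 + t ^ 2) ^ ...`; precisely, as `ε ≤ 1 / 2`,
`(|t| + 2) ^ ε ≤ (|t| + 2) ^ (1 / 2) ≤ 2 (1 + t ^ 2) ^ (1 / 4)`, so it is at most `2 C₀ C r ^ ε (1 + t ^ 2) ^ (-3 / 4)`,
which is integrable (`integrable_rpow_neg_one_add_norm_sq` or comparison). If the integrand is not integrable the
integral is `0` anyway; `norm_integral_le_of_norm_le`. -/
theorem sw_SS_bound :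
    ∃ C₁ : ℝ, 0 < C₁ ∧ ∀ (r : ℕ) [NeZero r] (χ : DirichletCharacter ℂ r) (k : ℕ) (σ v C ε : ℝ), 1 < σ → σ ≤ 2 →
      0 < ε → ε ≤ 1 / 2 → 0 ≤ C → (∀ s : ℂ, 1 < s.re → s.re ≤ 2 → ‖Fk χ k s‖ ≤ C * QQ r s.im ^ ε) →
      ‖SS χ k v‖ ≤ C₁ * C * Real.exp (σ * v) * (r : ℝ) ^ ε := by
  obtain ⟨C₀, hC₀, hK⟩ := KK_bound
  have hint : Integrable (fun t : ℝ => (1 + ‖t‖ ^ 2) ^ (-(3 / 2 : ℝ) / 2)) := by
    apply integrable_rpow_neg_one_add_norm_sq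
    rw [Module.finrank_self]
    norm_num
  have hJ : 0 ≤ ∫ t : ℝ, (1 + ‖t‖ ^ 2) ^ (-(3 / 2 : ℝ) / 2) := by
    apply integral_nonneg
    intro t
    positivity
  refine ⟨2 * C₀ * (∫ t : ℝ, (1 + ‖t‖ ^ 2) ^ (-(3 / 2 : ℝ) / 2)) + 1, by positivity, ?_⟩
  intro r _ χ k σ v C ε hσ hσ2 hε hε2 hC hF
  have hr0 : (0 : ℝ) ≤ r := Nat.cast_nonneg r
  have hrp : 0 ≤ (r : ℝ) ^ ε := Real.rpow_nonneg hr0 _
  rw [sw_rep χ k hσ hσ2, norm_mul]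
  have h1 : ‖Complex.exp ((σ : ℂ) * (v : ℂ))‖ = Real.exp (σ * v) := by
    rw [Complex.norm_exp]
    congr 1
    simp
  rw [h1]
  have h2 : ‖∫ t : ℝ, KK σ t * Complex.exp (-(Complex.I * t * v)) * Fk χ k (σ - Complex.I * t)‖ ≤
      ∫ t : ℝ, C₀ * C * (r : ℝ) ^ ε * (2 * (1 + ‖t‖ ^ 2) ^ (-(3 / 2 : ℝ) / 2)) := by
    apply norm_integral_le_of_norm_le ((hint.const_mul 2).const_mul _)
    filter_upwards with t
    rw [norm_mul, norm_mul]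
    have h3 : ‖Complex.exp (-(Complex.I * (t : ℂ) * (v : ℂ)))‖ = 1 := by
      rw [Complex.norm_exp]
      simp
    rw [h3, mul_one]
    have h4 := hK σ t hσ.le hσ2
    have h5 := hF (σ - Complex.I * t) (by simpa using hσ) (by simpa using hσ2)
    have h6 : ((σ : ℂ) - Complex.I * (t : ℂ)).im = -t := by simp
    rw [h6] at h5
    have h7 : QQ r (-t) ^ ε ≤ (r : ℝ) ^ ε * (|t| + 2) ^ (1 / 2 : ℝ) := by
      unfold QQ
      rw [abs_neg, Real.mul_rpow hr0 (by positivity)]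
      refine mul_le_mul_of_nonneg_left ?_ hrp
      apply Real.rpow_le_rpow_of_exponent_le _ hε2
      have := abs_nonneg t
      linarith
    calc ‖KK σ t‖ * ‖Fk χ k (σ - Complex.I * t)‖
        ≤ C₀ / (1 + t ^ 2) * (C * ((r : ℝ) ^ ε * (|t| + 2) ^ (1 / 2 : ℝ))) := by
          refine mul_le_mul h4 (h5.trans (mul_le_mul_of_nonneg_left h7 hC)) (norm_nonneg _)
            (by positivity)
      _ = C₀ * C * (r : ℝ) ^ ε * ((|t| + 2) ^ (1 / 2 : ℝ) * (1 / (1 + t ^ 2))) := by ring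
      _ ≤ C₀ * C * (r : ℝ) ^ ε * (2 * (1 + ‖t‖ ^ 2) ^ (-(3 / 2 : ℝ) / 2)) :=
          mul_le_mul_of_nonneg_left (SFubB_pow t) (by positivity)
  have h3 : ∫ t : ℝ, C₀ * C * (r : ℝ) ^ ε * (2 * (1 + ‖t‖ ^ 2) ^ (-(3 / 2 : ℝ) / 2)) =
      C₀ * C * (r : ℝ) ^ ε * (2 * ∫ t : ℝ, (1 + ‖t‖ ^ 2) ^ (-(3 / 2 : ℝ) / 2)) := by
    rw [integral_const_mul, integral_const_mul]
  rw [h3] at h2
  have he : 0 < Real.exp (σ * v) := Real.exp_pos _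
  calc Real.exp (σ * v) * ‖∫ t : ℝ, KK σ t * Complex.exp (-(Complex.I * t * v)) *
        Fk χ k (σ - Complex.I * t)‖
      ≤ Real.exp (σ * v) * (C₀ * C * (r : ℝ) ^ ε *
        (2 * ∫ t : ℝ, (1 + ‖t‖ ^ 2) ^ (-(3 / 2 : ℝ) / 2))) := mul_le_mul_of_nonneg_left h2 he.le
    _ = 2 * C₀ * (∫ t : ℝ, (1 + ‖t‖ ^ 2) ^ (-(3 / 2 : ℝ) / 2)) * C * Real.exp (σ * v) *
        (r : ℝ) ^ ε := by ring
    _ ≤ (2 * C₀ * (∫ t : ℝ, (1 + ‖t‖ ^ 2) ^ (-(3 / 2 : ℝ) / 2)) + 1) * C * Real.exp (σ * v) *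
        (r : ℝ) ^ ε := by
      have : 0 ≤ C * Real.exp (σ * v) * (r : ℝ) ^ ε := by positivity
      nlinarith

end Pool.Agent.Wb58c63
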