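import Pool.Agent.W_b58c63_h68.SPp
import Pool.Agent.W_b58c63_h68.SFubB
import Pool.Agent.W_b58c63_h68.SFk

/-!
# Siegel-Walfisz, block S: assembly (helper49)
-/

set_option autoImplicit false

noncomputable section

open Finset DirichletCharacter

namespace Pool.Agent.Wb58c63

/-- The error of the prime powers is small: `√Y (log Y) ^ (k + 1) ≤ C Y` for `Y ≥ 3`.

Proof. `Real.log_le_rpow_div` or `isLittleO_log_rpow_rpow_atTop`: `log Y ≤ 2 (k + 1) Y ^ (1 / (2 (k + 1)))`. -/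
theorem sw_num1 (k : ℕ) : ∃ C : ℝ, 0 < C ∧ ∀ Y : ℝ, 3 ≤ Y →
    Real.sqrt Y * Real.log Y ^ (k + 1) ≤ C * Y := by
  have hk : (0 : ℝ) < 2 * ((k : ℝ) + 1) := by positivity
  refine ⟨(2 * ((k : ℝ) + 1)) ^ (k + 1), by positivity, fun Y hY => ?_⟩
  have hY0 : 0 < Y := by linarith
  have he : 0 < 1 / (2 * ((k : ℝ) + 1)) := by positivity
  have h1 := Real.log_le_rpow_div hY0.le he
  have h0 : 0 ≤ Real.log Y := Real.log_nonneg (by linarith)
  have h2 : Real.log Y ^ (k + 1) ≤ (2 * ((k : ℝ) + 1)) ^ (k + 1) * Real.sqrt Y := by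
    calc Real.log Y ^ (k + 1) ≤ (Y ^ (1 / (2 * ((k : ℝ) + 1))) / (1 / (2 * ((k : ℝ) + 1)))) ^ (k + 1) :=
          pow_le_pow_left₀ h0 h1 _
      _ = (2 * ((k : ℝ) + 1)) ^ (k + 1) * Real.sqrt Y := by
        rw [div_div_eq_mul_div, div_one, mul_pow, mul_comm]
        congr 1
        rw [← Real.rpow_natCast, ← Real.rpow_mul hY0.le, Real.sqrt_eq_rpow]
        congr 1
        push_cast
        field_simp
  calc Real.sqrt Y * Real.log Y ^ (k + 1)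
      ≤ Real.sqrt Y * ((2 * ((k : ℝ) + 1)) ^ (k + 1) * Real.sqrt Y) :=
        mul_le_mul_of_nonneg_left h2 (Real.sqrt_nonneg _)
    _ = (2 * ((k : ℝ) + 1)) ^ (k + 1) * (Real.sqrt Y * Real.sqrt Y) := by ring
    _ = (2 * ((k : ℝ) + 1)) ^ (k + 1) * Y := by rw [Real.mul_self_sqrt hY0.le]

/-- **Siegel-Walfisz** for the smooth weights.

Proof. Let `ε = 1 / (2 (B + 1))`, so `r ^ ε ≤ (log Y) ^ (B ε) ≤ (log Y) ^ (1 / 2)` (`log Y ≥ 1`). With `v = vY Y > 1`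
and `σ = 1 + 1 / v ∈ (1, 2]`, `exp (σ v) = exp (v + 1) = e √2 Y` (`exp l0 = √2`). `sw_SS_bound` with `sw_Fk k ε`:
`‖SS χ k v‖ ≤ C Y (log Y) ^ (1 / 2)`. With `sw_primepow` and `sw_num1`: `v ^ k ‖TT‖ ≤ C' Y (log Y) ^ (1 / 2)`
(`log Y ≥ 1`). As `v ≥ log Y > 0`, `‖TT‖ ≤ C' Y (log Y) ^ (1 / 2 - k)`, and `1 / 2 - k ≤ -k / 2` for `k ≥ 1`. -/
theorem sw_main (B k : ℕ) (hk : 1 ≤ k) :
    ∃ C : ℝ, 0 < C ∧ ∀ (Y : ℝ) (r : ℕ), 3 ≤ Y → 1 < r → (r : ℝ) ≤ Real.log Y ^ B →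
      ∀ χ ∈ prim r, ‖TT k Y χ‖ ≤ C * Y * Real.log Y ^ (-(k : ℝ) / 2) := by
  have hBp : (0 : ℝ) < 2 * ((B : ℝ) + 1) := by positivity
  have hε : 0 < 1 / (2 * ((B : ℝ) + 1)) := by positivity
  have hε2 : 1 / (2 * ((B : ℝ) + 1)) ≤ 1 / 2 := by
    apply one_div_le_one_div_of_le (by norm_num)
    have : (0 : ℝ) ≤ B := Nat.cast_nonneg B
    linarith
  have hBε : (B : ℝ) * (1 / (2 * ((B : ℝ) + 1))) ≤ 1 / 2 := by
    rw [mul_one_div, div_le_div_iff₀ hBp (by norm_num)]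
    linarith
  obtain ⟨C₀, hC₀, hF⟩ := sw_Fk k (1 / (2 * ((B : ℝ) + 1))) hε
  obtain ⟨C₁, hC₁, hS⟩ := sw_SS_bound
  obtain ⟨C₂, hC₂, hP⟩ := sw_primepow k
  obtain ⟨C₃, hC₃, hN⟩ := sw_num1 k
  refine ⟨C₂ * C₃ + 6 * C₁ * C₀, by positivity, fun Y r hY hr hrB χ hχ => ?_⟩
  have : NeZero r := ⟨by omega⟩
  have hprim : χ.IsPrimitive := by
    classical
    unfold prim at hχ
    simpa using hχ
  have hY0 : 0 < Y := by linarith
  have hlog : 1 ≤ Real.log Y := by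
    rw [Real.le_log_iff_exp_le hY0]
    have := Real.exp_one_lt_d9
    linarith
  have hlog0 : 0 < Real.log Y := by linarith
  have hl0 : 0 < l0 := by
    unfold l0
    have := Real.log_pos (show (1 : ℝ) < 2 by norm_num)
    linarith
  have hv : vY Y = Real.log Y + l0 := rfl
  have hv1 : 1 < vY Y := by rw [hv]; linarith
  have hv0 : 0 < vY Y := by linarith
  have hexp : Real.exp ((1 + 1 / vY Y) * vY Y) ≤ 6 * Y := by
    have e1 : (1 + 1 / vY Y) * vY Y = Real.log Y + (l0 + 1) := by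
      rw [add_mul, one_mul, one_div, inv_mul_cancel₀ hv0.ne', hv]
      ring
    rw [e1, Real.exp_add, Real.exp_log hY0, Real.exp_add]
    have e2 : Real.exp l0 ≤ 2 := by
      rw [← Real.exp_log (show (0 : ℝ) < 2 by norm_num)]
      apply Real.exp_le_exp.2
      unfold l0
      have := Real.log_pos (show (1 : ℝ) < 2 by norm_num)
      linarith
    have e3 : Real.exp 1 ≤ 3 := by
      have := Real.exp_one_lt_d9
      linarith
    have e4 : Real.exp l0 * Real.exp 1 ≤ 6 := by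
      have := mul_le_mul e2 e3 (Real.exp_pos 1).le (by norm_num)
      linarith
    nlinarith
  have hr1 : (r : ℝ) ^ (1 / (2 * ((B : ℝ) + 1))) ≤ Real.log Y ^ (1 / 2 : ℝ) := by
    calc (r : ℝ) ^ (1 / (2 * ((B : ℝ) + 1))) ≤ (Real.log Y ^ B) ^ (1 / (2 * ((B : ℝ) + 1))) :=
          Real.rpow_le_rpow (Nat.cast_nonneg r) hrB hε.le
      _ = Real.log Y ^ ((B : ℝ) * (1 / (2 * ((B : ℝ) + 1)))) := by
        rw [← Real.rpow_natCast, ← Real.rpow_mul hlog0.le]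
      _ ≤ Real.log Y ^ (1 / 2 : ℝ) := Real.rpow_le_rpow_of_exponent_le hlog hBε
  have hSS := hS r χ k (1 + 1 / vY Y) (vY Y) C₀ (1 / (2 * ((B : ℝ) + 1)))
    (by have : 0 < 1 / vY Y := by positivity
        linarith)
    (by have : 1 / vY Y ≤ 1 := by rw [div_le_one hv0]; exact hv1.le
        linarith) hε hε2 (by linarith) (fun s hs hs2 => hF r χ hr hprim s hs hs2)
  have hPP := hP Y r χ hY
  have hNN := hN Y hY
  have hlh : 1 ≤ Real.log Y ^ (1 / 2 : ℝ) := Real.one_le_rpow hlog (by norm_num)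
  have hA : ‖SS χ k (vY Y)‖ ≤ 6 * C₁ * C₀ * Y * Real.log Y ^ (1 / 2 : ℝ) := by
    refine hSS.trans ?_
    have hp : 0 ≤ C₁ * C₀ := by positivity
    calc C₁ * C₀ * Real.exp ((1 + 1 / vY Y) * vY Y) * (r : ℝ) ^ (1 / (2 * ((B : ℝ) + 1)))
        ≤ C₁ * C₀ * (6 * Y) * Real.log Y ^ (1 / 2 : ℝ) := by
          refine mul_le_mul (mul_le_mul_of_nonneg_left hexp hp) hr1 (by positivity) (by positivity)
      _ = 6 * C₁ * C₀ * Y * Real.log Y ^ (1 / 2 : ℝ) := by ring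
  have hB2 : C₂ * Real.sqrt Y * Real.log Y ^ (k + 1) ≤ C₂ * C₃ * Y * Real.log Y ^ (1 / 2 : ℝ) := by
    calc C₂ * Real.sqrt Y * Real.log Y ^ (k + 1) = C₂ * (Real.sqrt Y * Real.log Y ^ (k + 1)) := by ring
      _ ≤ C₂ * (C₃ * Y) := mul_le_mul_of_nonneg_left hNN hC₂.le
      _ = C₂ * C₃ * Y * 1 := by ring
      _ ≤ C₂ * C₃ * Y * Real.log Y ^ (1 / 2 : ℝ) := mul_le_mul_of_nonneg_left hlh (by positivity)
  have hC : vY Y ^ k * ‖TT k Y χ‖ ≤ (C₂ * C₃ + 6 * C₁ * C₀) * Y * Real.log Y ^ (1 / 2 : ℝ) := by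
    have h1 : ‖((vY Y : ℝ) : ℂ) ^ k * TT k Y χ‖ = vY Y ^ k * ‖TT k Y χ‖ := by
      rw [norm_mul, norm_pow, Complex.norm_real, Real.norm_eq_abs, abs_of_pos hv0]
    rw [← h1]
    have h2 : ((vY Y : ℝ) : ℂ) ^ k * TT k Y χ =
        (((vY Y : ℝ) : ℂ) ^ k * TT k Y χ - SS χ k (vY Y)) + SS χ k (vY Y) := by ring
    rw [h2]
    refine (norm_add_le _ _).trans ?_
    linarith
  have hD : Real.log Y ^ k * ‖TT k Y χ‖ ≤ (C₂ * C₃ + 6 * C₁ * C₀) * Y * Real.log Y ^ (1 / 2 : ℝ) := by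
    refine le_trans ?_ hC
    refine mul_le_mul_of_nonneg_right ?_ (norm_nonneg _)
    exact pow_le_pow_left₀ hlog0.le (by rw [hv]; linarith) _
  have hE : Real.log Y ^ (1 / 2 : ℝ) ≤ Real.log Y ^ k * Real.log Y ^ (-(k : ℝ) / 2) := by
    rw [← Real.rpow_natCast, ← Real.rpow_add hlog0]
    apply Real.rpow_le_rpow_of_exponent_le hlog
    have : (1 : ℝ) ≤ k := by exact_mod_cast hk
    linarith
  have hlk : 0 < Real.log Y ^ k := pow_pos hlog0 k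
  have hF' : Real.log Y ^ k * ‖TT k Y χ‖ ≤
      Real.log Y ^ k * ((C₂ * C₃ + 6 * C₁ * C₀) * Y * Real.log Y ^ (-(k : ℝ) / 2)) := by
    refine hD.trans ?_
    calc (C₂ * C₃ + 6 * C₁ * C₀) * Y * Real.log Y ^ (1 / 2 : ℝ)
        ≤ (C₂ * C₃ + 6 * C₁ * C₀) * Y * (Real.log Y ^ k * Real.log Y ^ (-(k : ℝ) / 2)) :=
          mul_le_mul_of_nonneg_left hE (by positivity)
      _ = Real.log Y ^ k * ((C₂ * C₃ + 6 * C₁ * C₀) * Y * Real.log Y ^ (-(k : ℝ) / 2)) := by ring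
  exact le_of_mul_le_mul_left hF' hlk

end Pool.Agent.Wb58c63
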