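import Pool.Agent.W_b58c63_h68.STentF
import Pool.Agent.W_b58c63_h68.SRec

/-!
# Siegel-Walfisz, block S: the smoothed sum as an integral (helper49)
-/

set_option autoImplicit false

noncomputable section

open Finset MeasureTheory DirichletCharacter ArithmeticFunction

namespace Pool.Agent.Wb58c63

/-- The smoothed sum over the integers. -/
def SS {r : ℕ} (χ : DirichletCharacter ℂ r) (k : ℕ) (v : ℝ) : ℂ :=
  ∑' n : ℕ, χ (n : ZMod r) * ((vonMangoldt n : ℝ) : ℂ) * ((Real.log n : ℝ) : ℂ) ^ k *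
    (tp (Real.log n - v) : ℂ)

theorem SFub_term (f : ℕ → ℂ) {n : ℕ} (hn : n ≠ 0) (z : ℂ) :
    LSeries.term f z n = f n * Complex.exp (-(((Real.log n : ℝ) : ℂ) * z)) := by
  have hn' : (n : ℂ) ≠ 0 := by exact_mod_cast hn
  rw [LSeries.term_of_ne_zero hn, Complex.cpow_def_of_ne_zero hn', div_eq_mul_inv, ← Complex.exp_neg,
    Complex.natCast_log]

theorem SFub_norm (f : ℕ → ℂ) (n : ℕ) (σ t : ℝ) :
    ‖LSeries.term f (σ - Complex.I * t) n‖ = ‖LSeries.term f σ n‖ := by
  rw [LSeries.norm_term_eq, LSeries.norm_term_eq]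
  simp

theorem SFub_cont (f : ℕ → ℂ) (n : ℕ) (σ : ℝ) :
    Continuous fun t : ℝ => LSeries.term f (σ - Complex.I * t) n := by
  rcases eq_or_ne n 0 with rfl | hn
  · simp only [LSeries.term_zero]
    exact continuous_const
  · have e : (fun t : ℝ => LSeries.term f (σ - Complex.I * t) n) =
        fun t : ℝ => f n * Complex.exp (-(((Real.log n : ℝ) : ℂ) * (σ - Complex.I * t))) := by
      funext t
      exact SFub_term f hn _
    rw [e]
    fun_prop

/-- The integrand of a single term. -/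
def SFub_G (f : ℕ → ℂ) (σ v : ℝ) (n : ℕ) (t : ℝ) : ℂ :=
  KK σ t * Complex.exp (-(Complex.I * t * v)) * LSeries.term f (σ - Complex.I * t) n

theorem SFub_Gnorm (f : ℕ → ℂ) (σ v : ℝ) (n : ℕ) (t : ℝ) :
    ‖SFub_G f σ v n t‖ = ‖KK σ t‖ * ‖LSeries.term f σ n‖ := by
  unfold SFub_G
  have h1 : ‖Complex.exp (-(Complex.I * t * v))‖ = 1 := by
    rw [Complex.norm_exp]
    simp
  rw [norm_mul, norm_mul, h1, mul_one, SFub_norm]

theorem SFub_Gint (f : ℕ → ℂ) {σ : ℝ} (hσ : 0 < σ) (v : ℝ) (n : ℕ) : Integrable (SFub_G f σ v n) := by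
  have hc : Continuous (SFub_G f σ v n) := by
    have h1 := SFub_cont f n σ
    have h2 := KK_cont hσ
    unfold SFub_G
    fun_prop
  refine ((STentF_integrable hσ).norm.mul_const ‖LSeries.term f σ n‖).mono' hc.aestronglyMeasurable ?_
  exact Filter.Eventually.of_forall fun t => (SFub_Gnorm f σ v n t).le

theorem SFub_Gval (f : ℕ → ℂ) {σ : ℝ} (hσ : 0 < σ) (v : ℝ) {n : ℕ} (hn : n ≠ 0) :
    Complex.exp (σ * v) * ∫ t : ℝ, SFub_G f σ v n t = f n * (tp (Real.log n - v) : ℂ) := by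
  have h := KK_fourier hσ (Real.log n - v)
  have e1 : ∀ t : ℝ, SFub_G f σ v n t = f n * Complex.exp (-(((Real.log n : ℝ) : ℂ) * σ)) *
      (KK σ t * Complex.exp (Complex.I * t * ((Real.log n - v : ℝ) : ℂ))) := by
    intro t
    unfold SFub_G
    rw [SFub_term f hn]
    have e2 : Complex.exp (-(Complex.I * t * v)) *
        Complex.exp (-(((Real.log n : ℝ) : ℂ) * (σ - Complex.I * t))) =
        Complex.exp (-(((Real.log n : ℝ) : ℂ) * σ)) *
          Complex.exp (Complex.I * t * ((Real.log n - v : ℝ) : ℂ)) := by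
      rw [← Complex.exp_add, ← Complex.exp_add]
      congr 1
      push_cast
      ring
    calc KK σ t * Complex.exp (-(Complex.I * t * v)) *
          (f n * Complex.exp (-(((Real.log n : ℝ) : ℂ) * (σ - Complex.I * t))))
        = KK σ t * f n * (Complex.exp (-(Complex.I * t * v)) *
          Complex.exp (-(((Real.log n : ℝ) : ℂ) * (σ - Complex.I * t)))) := by ring
      _ = _ := by rw [e2]; ring
  rw [integral_congr_ae (Filter.Eventually.of_forall e1), integral_const_mul, h]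
  have e3 : Complex.exp (σ * v) * Complex.exp (-(((Real.log n : ℝ) : ℂ) * σ)) *
      Complex.exp (σ * ((Real.log n - v : ℝ) : ℂ)) = 1 := by
    rw [← Complex.exp_add, ← Complex.exp_add, ← Complex.exp_zero]
    congr 1
    push_cast
    ring
  calc Complex.exp (σ * v) * (f n * Complex.exp (-(((Real.log n : ℝ) : ℂ) * σ)) *
        (Complex.exp (σ * ((Real.log n - v : ℝ) : ℂ)) * (tp (Real.log n - v) : ℂ)))
      = (Complex.exp (σ * v) * Complex.exp (-(((Real.log n : ℝ) : ℂ) * σ)) *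
        Complex.exp (σ * ((Real.log n - v : ℝ) : ℂ))) * (f n * (tp (Real.log n - v) : ℂ)) := by ring
    _ = _ := by rw [e3, one_mul]

/-- The smoothed sum as an integral.

Proof. For `n ≥ 1`, by `KK_fourier` with `y = log n - v`:
`tp (log n - v) = exp (-σ (log n - v)) ∫ KK σ t exp (i t (log n - v)) dt =
exp (σ v) ∫ KK σ t exp (-i t v) n ^ (-(σ - i t)) dt`. Multiply by `a n = χ(n) Λ(n) (log n) ^ k` and sum over `n`: sum
and integral may be exchanged (`integral_tsum` / `hasSum_integral_of_summable_integral_norm`) because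
`∑ ‖a n‖ n ^ (-σ) < ∞` (`sw_summable`, at `s = σ`) and `∫ ‖KK σ t‖ dt < ∞` (`KK_cont`, `KK_bound`), and
`∑ a n n ^ (-(σ - i t)) = Fk χ k (σ - i t)` (`LSeries.term`). -/
theorem sw_rep {r : ℕ} (χ : DirichletCharacter ℂ r) (k : ℕ) {σ v : ℝ} (hσ : 1 < σ) (hσ2 : σ ≤ 2) :
    SS χ k v = Complex.exp (σ * v) *
      ∫ t : ℝ, KK σ t * Complex.exp (-(Complex.I * t * v)) * Fk χ k (σ - Complex.I * t) := by
  have hσ0 : 0 < σ := by linarith
  obtain ⟨f, hf⟩ : ∃ f : ℕ → ℂ, f = fun n : ℕ => χ (n : ZMod r) * ((vonMangoldt n : ℝ) : ℂ) *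
    ((Real.log n : ℝ) : ℂ) ^ k := ⟨_, rfl⟩
  have hsum : LSeriesSummable f σ := by
    rw [hf]
    exact (sw_summable χ k (s := (σ : ℂ)) (by simpa using hσ)).2
  have hf0 : f 0 = 0 := by
    rw [hf]
    simp
  have hS : SS χ k v = ∑' n : ℕ, f n * (tp (Real.log n - v) : ℂ) := by
    rw [hf]
    rfl
  have hF : ∀ t : ℝ, KK σ t * Complex.exp (-(Complex.I * t * v)) * Fk χ k (σ - Complex.I * t) =
      ∑' n : ℕ, SFub_G f σ v n t := by
    intro t
    unfold SFub_G
    rw [tsum_mul_left, hf]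
    rfl
  have hsn : Summable fun n : ℕ => ∫ t : ℝ, ‖SFub_G f σ v n t‖ := by
    have e : (fun n : ℕ => ∫ t : ℝ, ‖SFub_G f σ v n t‖) =
        fun n : ℕ => (∫ t : ℝ, ‖KK σ t‖) * ‖LSeries.term f σ n‖ := by
      funext n
      rw [integral_congr_ae (Filter.Eventually.of_forall fun t => SFub_Gnorm f σ v n t),
        integral_mul_const]
    rw [e]
    exact (hsum.norm).mul_left _
  have h := (hasSum_integral_of_summable_integral_norm (fun n => SFub_Gint f hσ0 v n) hsn).tsum_eq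
  rw [integral_congr_ae (Filter.Eventually.of_forall hF), ← h, ← tsum_mul_left, hS]
  refine tsum_congr fun n => ?_
  rcases eq_or_ne n 0 with rfl | hn
  · have h0 : ∀ t : ℝ, SFub_G f σ v 0 t = 0 := by
      intro t
      unfold SFub_G
      simp
    rw [integral_congr_ae (Filter.Eventually.of_forall h0), hf0]
    simp
  · exact (SFub_Gval f hσ0 v hn).symm

end Pool.Agent.Wb58c63
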