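import Pool.Agent.W_b58c63_h68.SZeA

/-!
# Siegel-Walfisz, block S: the 3-4-1 inequality (helper49)
-/

set_option autoImplicit false

noncomputable section

open Finset DirichletCharacter

namespace Pool.Agent.Wb58c63

/-- The real variable form of the lower bound.

Proof. Let `x₀ = 1 / (128 B D ^ 4) ≤ 1`. Then `16 D ^ 4 x₀ ^ 4 = x₀ ^ 3 / (8 B)`. If `x₀ ≤ x` then
`f x ^ 4 ≥ x ^ 3 / (8 B) ≥ x₀ ^ 3 / (8 B) = (2 D x₀) ^ 4`, so `f x ≥ 2 D x₀`. If `x < x₀` then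
`f x ≥ f x₀ - D x₀ ≥ 2 D x₀ - D x₀`. In both cases `f x ≥ D x₀ = 1 / (128 B D ^ 3)`. -/
theorem sw_lb_real (f : ℝ → ℝ) {B D : ℝ} (hB : 1 ≤ B) (hD : 1 ≤ D)
    (h0 : ∀ x, 0 < x → x ≤ 1 → 0 ≤ f x)
    (h1 : ∀ x, 0 < x → x ≤ 1 → x ^ 3 / (8 * B) ≤ f x ^ 4)
    (h2 : ∀ x y, 0 < x → x ≤ 1 → 0 < y → y ≤ 1 → |f x - f y| ≤ D * |x - y|) :
    ∀ x, 0 < x → x ≤ 1 → 1 / (128 * B * D ^ 3) ≤ f x := by
  intro x hx hx1
  have hB0 : 0 < B := lt_of_lt_of_le one_pos hB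
  have hD0 : 0 < D := lt_of_lt_of_le one_pos hD
  obtain ⟨x₀, hx₀⟩ : ∃ x₀ : ℝ, x₀ = 1 / (128 * B * D ^ 4) := ⟨_, rfl⟩
  have hx₀0 : 0 < x₀ := by rw [hx₀]; positivity
  have hx₀1 : x₀ ≤ 1 := by
    rw [hx₀, div_le_one (by positivity)]
    have h3 : (1 : ℝ) ≤ D ^ 4 := one_le_pow₀ hD
    nlinarith
  have hval : 1 / (128 * B * D ^ 3) = D * x₀ := by
    rw [hx₀]
    field_simp
  have hkey : x₀ ^ 3 / (8 * B) = (2 * D * x₀) ^ 4 := by
    have h4 : 128 * B * D ^ 4 * x₀ = 1 := by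
      rw [hx₀]
      field_simp
    rw [div_eq_iff (by positivity)]
    have h5 : (2 * D * x₀) ^ 4 * (8 * B) = x₀ ^ 3 * (128 * B * D ^ 4 * x₀) := by ring
    rw [h5, h4, mul_one]
  have hlow : ∀ y, 0 < y → y ≤ 1 → x₀ ≤ y → 2 * D * x₀ ≤ f y := by
    intro y hy hy1 hy2
    have h6 : (2 * D * x₀) ^ 4 ≤ f y ^ 4 := by
      rw [← hkey]
      refine le_trans ?_ (h1 y hy hy1)
      gcongr
    exact le_of_pow_le_pow_left₀ (by norm_num) (h0 y hy hy1) h6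
  have hDx : 0 < D * x₀ := by positivity
  rw [hval]
  rcases le_total x₀ x with h | h
  · have := hlow x hx hx1 h
    linarith
  · have h7 := hlow x₀ hx₀0 hx₀1 le_rfl
    have h8 := h2 x₀ x hx₀0 hx₀1 hx hx1
    have h9 : |x₀ - x| ≤ x₀ := by
      rw [abs_of_nonneg (by linarith)]
      linarith
    have h10 : D * |x₀ - x| ≤ D * x₀ := mul_le_mul_of_nonneg_left h9 hD0.le
    have h11 := (abs_le.1 (h8.trans h10)).2
    linarith

/-- The 3-4-1 inequality in the form of a lower bound.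

Proof. `sw_lb_real` for `f x = ‖LFunction χ (1 + x + I y)‖`. By `norm_LFunction_product_ge_one`
`1 ≤ ‖L(1 + x, 1)‖ ^ 3 f x ^ 4 ‖L(1 + x + 2 I y, χ ^ 2)‖ ≤ (2 / x) ^ 3 f x ^ 4 B` (`LFunctionTrivChar` is the
L-function of `1`; `sw_triv_le` with `s = 1 + x`: `(1 + x) / x ≤ 2 / x`). -/
theorem sw_lb_gen {r : ℕ} [NeZero r] (χ : DirichletCharacter ℂ r) {y B D : ℝ} (hB : 1 ≤ B)
    (hD : 1 ≤ D)
    (h1 : ∀ x : ℝ, 0 < x → x ≤ 1 → ‖LFunction (χ ^ 2) (1 + x + 2 * Complex.I * y)‖ ≤ B)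
    (h2 : ∀ x x' : ℝ, 0 < x → x ≤ 1 → 0 < x' → x' ≤ 1 →
      ‖LFunction χ (1 + x + Complex.I * y) - LFunction χ (1 + x' + Complex.I * y)‖ ≤ D * |x - x'|) :
    ∀ x : ℝ, 0 < x → x ≤ 1 → 1 / (128 * B * D ^ 3) ≤ ‖LFunction χ (1 + x + Complex.I * y)‖ := by
  have hB0 : 0 < B := lt_of_lt_of_le one_pos hB
  refine sw_lb_real (fun x : ℝ => ‖LFunction χ (1 + x + Complex.I * y)‖) hB hD ?_ ?_ ?_
  · intro x _ _
    exact norm_nonneg _
  · intro x hx hx1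
    have h3 := norm_LFunction_product_ge_one χ hx y
    rw [norm_mul, norm_mul, norm_pow, norm_pow] at h3
    have h4 : ‖LFunctionTrivChar r (1 + x)‖ ≤ 2 / x := by
      have hre : ((1 : ℂ) + x).re = 1 + x := by simp
      have h5 := sw_triv_le (1 : DirichletCharacter ℂ r) (s := 1 + x) (by rw [hre]; linarith)
      rw [hre] at h5
      refine h5.trans ?_
      rw [show (1 : ℝ) + x - 1 = x by ring]
      gcongr
      linarith
    have h6 := h1 x hx hx1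
    have h7 : (1 : ℝ) ≤ (2 / x) ^ 3 * ‖LFunction χ (1 + x + Complex.I * y)‖ ^ 4 * B := by
      refine h3.trans ?_
      gcongr
    rw [div_le_iff₀ (by positivity)]
    have h8 : x ^ 3 * 1 ≤ x ^ 3 * ((2 / x) ^ 3 * ‖LFunction χ (1 + x + Complex.I * y)‖ ^ 4 * B) :=
      mul_le_mul_of_nonneg_left h7 (by positivity)
    have h9 : x ^ 3 * ((2 / x) ^ 3 * ‖LFunction χ (1 + x + Complex.I * y)‖ ^ 4 * B) =
        ‖LFunction χ (1 + x + Complex.I * y)‖ ^ 4 * (8 * B) := by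
      field_simp
      ring
    rw [h9, mul_one] at h8
    exact h8
  · intro x x' hx hx1 hx' hx'1
    refine (abs_norm_sub_norm_le _ _).trans ?_
    exact h2 x x' hx hx1 hx' hx'1

end Pool.Agent.Wb58c63
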