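import Pool.Agent.W_b58c63_h68.SUbC

/-!
# Siegel-Walfisz, block S: derivatives of the L-function (helper49)
-/

set_option autoImplicit false

noncomputable section

open Finset DirichletCharacter

namespace Pool.Agent.Wb58c63

/-- Bounds of the derivatives in the strip `1 ≤ Re s ≤ 2`.

Proof. Let `η = min (ε / 2) (1 / 2)`. `sw_eps` with `η` gives `C₀` with `‖LFunction χ z‖ ≤ C₀ QQ r z.im ^ (2 η)` for
`1 - η ≤ z.re ≤ 3`. On the circle `‖z - s‖ = η` one has `1 - η ≤ z.re ≤ 3` and `|z.im| ≤ |s.im| + 1`, so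
`QQ r z.im ≤ 2 QQ r s.im`, `QQ r z.im ^ (2 η) ≤ 2 QQ r s.im ^ (2 η) ≤ 2 QQ r s.im ^ ε`. Cauchy's estimate
(`Complex.norm_iteratedDeriv_le_of_forall_mem_sphere_norm_le`, radius `η`, `differentiable_LFunction`): the constant is
`j ! * 2 C₀ / η ^ j` (take the maximum with `1`). -/
theorem sw_deriv (j : ℕ) (ε : ℝ) (hε : 0 < ε) :
    ∃ C : ℝ, 1 ≤ C ∧ ∀ (r : ℕ) [NeZero r] (χ : DirichletCharacter ℂ r), χ ≠ 1 → ∀ s : ℂ, 1 ≤ s.re →
      s.re ≤ 2 → ‖iteratedDeriv j (LFunction χ) s‖ ≤ C * QQ r s.im ^ ε := by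
  set η : ℝ := min (ε / 2) (1 / 2) with hη
  have hη0 : 0 < η := lt_min (by linarith) (by norm_num)
  have hη1 : η ≤ 1 / 2 := min_le_right _ _
  have hη2 : 2 * η ≤ ε := by
    have := min_le_left (ε / 2) (1 / 2)
    linarith
  obtain ⟨C₀, hC₀, h0⟩ := sw_eps η hη0 hη1
  refine ⟨max 1 ((j.factorial : ℝ) * (2 * C₀) / η ^ j), le_max_left _ _, ?_⟩
  intro r _ χ hχ s hs1 hs2
  have hQ2 : 2 ≤ QQ r s.im := QQ_ge s.im
  have hQ0 : 0 ≤ QQ r s.im ^ ε := Real.rpow_nonneg (by linarith) _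
  have hr : (0 : ℝ) ≤ r := Nat.cast_nonneg r
  have h1 : ∀ z ∈ Metric.sphere s η, ‖LFunction χ z‖ ≤ 2 * C₀ * QQ r s.im ^ ε := by
    intro z hz
    rw [mem_sphere_iff_norm] at hz
    have h2 := Complex.abs_re_le_norm (z - s)
    have h3 := Complex.abs_im_le_norm (z - s)
    rw [hz, Complex.sub_re, abs_le] at h2
    rw [hz, Complex.sub_im] at h3
    have h4 : |z.im| ≤ |s.im| + 1 := by
      have h5 := abs_add_le (z.im - s.im) s.im
      rw [sub_add_cancel] at h5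
      linarith
    have h6 : QQ r z.im ≤ 2 * QQ r s.im := by
      unfold QQ
      have := abs_nonneg s.im
      nlinarith
    have h7 := h0 r χ hχ z (by linarith) (by linarith)
    have h8 : QQ r z.im ^ (2 * η) ≤ 2 * QQ r s.im ^ ε := by
      calc QQ r z.im ^ (2 * η) ≤ (2 * QQ r s.im) ^ (2 * η) :=
            Real.rpow_le_rpow (by linarith [QQ_ge (r := r) z.im]) h6 (by linarith)
        _ = 2 ^ (2 * η) * QQ r s.im ^ (2 * η) := Real.mul_rpow (by norm_num) (by linarith)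
        _ ≤ 2 ^ (1 : ℝ) * QQ r s.im ^ ε := by
            apply mul_le_mul
            · exact Real.rpow_le_rpow_of_exponent_le (by norm_num) (by linarith)
            · exact Real.rpow_le_rpow_of_exponent_le (by linarith) hη2
            · exact Real.rpow_nonneg (by linarith) _
            · exact Real.rpow_nonneg (by norm_num) _
        _ = 2 * QQ r s.im ^ ε := by rw [Real.rpow_one]
    calc ‖LFunction χ z‖ ≤ C₀ * QQ r z.im ^ (2 * η) := h7
      _ ≤ C₀ * (2 * QQ r s.im ^ ε) := mul_le_mul_of_nonneg_left h8 (by linarith)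
      _ = 2 * C₀ * QQ r s.im ^ ε := by ring
  have h2 := Complex.norm_iteratedDeriv_le_of_forall_mem_sphere_norm_le j hη0
    (differentiable_LFunction hχ).diffContOnCl h1
  refine h2.trans ?_
  calc (j.factorial : ℝ) * (2 * C₀ * QQ r s.im ^ ε) / η ^ j =
        ((j.factorial : ℝ) * (2 * C₀) / η ^ j) * QQ r s.im ^ ε := by ring
    _ ≤ _ := mul_le_mul_of_nonneg_right (le_max_right _ _) hQ0

/-- Lipschitz bound in the strip, up to the height `T`.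

Proof. `sw_deriv 1 ε` and the mean value inequality on the convex set
`{z | 1 ≤ z.re ∧ z.re ≤ 2 ∧ |z.im| ≤ T}` (`Convex.norm_image_sub_le_of_norm_deriv_le`); `QQ r z.im ≤ QQ r T` there,
for `0 ≤ T`. -/
theorem sw_lip (ε : ℝ) (hε : 0 < ε) :
    ∃ C : ℝ, 1 ≤ C ∧ ∀ (r : ℕ) [NeZero r] (χ : DirichletCharacter ℂ r), χ ≠ 1 → ∀ T : ℝ, 0 ≤ T →
      ∀ s s' : ℂ, 1 ≤ s.re → s.re ≤ 2 → |s.im| ≤ T → 1 ≤ s'.re → s'.re ≤ 2 → |s'.im| ≤ T →
      ‖LFunction χ s - LFunction χ s'‖ ≤ C * QQ r T ^ ε * ‖s - s'‖ := by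
  obtain ⟨C, hC, h0⟩ := sw_deriv 1 ε hε
  refine ⟨C, hC, ?_⟩
  intro r _ χ hχ T hT s s' h1 h2 h3 h1' h2' h3'
  have hr : (0 : ℝ) ≤ r := Nat.cast_nonneg r
  have hconv : Convex ℝ {z : ℂ | (1 ≤ z.re ∧ z.re ≤ 2) ∧ (-T ≤ z.im ∧ z.im ≤ T)} := by
    have e : {z : ℂ | (1 ≤ z.re ∧ z.re ≤ 2) ∧ (-T ≤ z.im ∧ z.im ≤ T)} =
        (({z : ℂ | 1 ≤ z.re} ∩ {z : ℂ | z.re ≤ 2}) ∩ ({z : ℂ | -T ≤ z.im} ∩ {z : ℂ | z.im ≤ T})) := rfl
    rw [e]
    exact ((convex_halfSpace_re_ge 1).inter (convex_halfSpace_re_le 2)).inter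
      ((convex_halfSpace_im_ge (-T)).inter (convex_halfSpace_im_le T))
  refine hconv.norm_image_sub_le_of_norm_deriv_le
    (fun z _ => (differentiable_LFunction hχ).differentiableAt) (fun z hz => ?_)
    ⟨⟨h1', h2'⟩, abs_le.1 h3'⟩ ⟨⟨h1, h2⟩, abs_le.1 h3⟩
  obtain ⟨⟨h4, h5⟩, h6⟩ := hz
  have h7 := h0 r χ hχ z h4 h5
  rw [iteratedDeriv_one] at h7
  refine h7.trans (mul_le_mul_of_nonneg_left ?_ (by linarith))
  apply Real.rpow_le_rpow (by linarith [QQ_ge (r := r) z.im]) _ hε.le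
  unfold QQ
  rw [abs_of_nonneg hT]
  exact mul_le_mul_of_nonneg_left (by linarith [abs_le.2 h6]) hr

end Pool.Agent.Wb58c63
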