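import Pool.Agent.W_b58c63_h68.SZeB

/-!
# Siegel-Walfisz, block S: the zeta function and the principal character on `Re s > 1` (helper49)
-/

set_option autoImplicit false

noncomputable section

open Finset DirichletCharacter

namespace Pool.Agent.Wb58c63

/-- The number of squarefree divisors is small.

Proof. `r.primeFactors.card`: for every `ε > 0` there is `C` with `2 ^ ω(r) ≤ C r ^ ε`. Let `K` be a natural number
with `2 ≤ K ^ ε`; each prime `p ≥ K` dividing `r` has `2 ≤ p ^ ε`, and there are at most `K` primes below `K`, so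
`2 ^ ω(r) ≤ 2 ^ K ∏_{p | r} p ^ ε ≤ 2 ^ K r ^ ε` (`Nat.prod_primeFactors_dvd`). -/
theorem sw_omega (ε : ℝ) (hε : 0 < ε) :
    ∃ C : ℝ, 1 ≤ C ∧ ∀ r : ℕ, r ≠ 0 → (2 : ℝ) ^ r.primeFactors.card ≤ C * (r : ℝ) ^ ε := by
  obtain ⟨K, hK⟩ : ∃ K : ℕ, K = ⌈(2 : ℝ) ^ (1 / ε)⌉₊ := ⟨_, rfl⟩
  have hK2 : (2 : ℝ) ≤ (K : ℝ) ^ ε := by
    have h1 : (2 : ℝ) ^ (1 / ε) ≤ K := by rw [hK]; exact Nat.le_ceil _
    have h2 : ((2 : ℝ) ^ (1 / ε)) ^ ε ≤ (K : ℝ) ^ ε :=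
      Real.rpow_le_rpow (by positivity) h1 hε.le
    rw [← Real.rpow_mul (by norm_num), one_div, inv_mul_cancel₀ hε.ne', Real.rpow_one] at h2
    exact h2
  refine ⟨2 ^ K, one_le_pow₀ (by norm_num), fun r hr => ?_⟩
  have h3 : ∀ p ∈ r.primeFactors, (2 : ℝ) ≤ (if p < K then 2 else 1) * (p : ℝ) ^ ε := by
    intro p hp
    have hp1 : (1 : ℝ) ≤ p := by exact_mod_cast (Nat.prime_of_mem_primeFactors hp).one_le
    have hp2 : (1 : ℝ) ≤ (p : ℝ) ^ ε := Real.one_le_rpow hp1 hε.le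
    split_ifs with h
    · linarith
    · have h4 : (K : ℝ) ≤ p := by exact_mod_cast not_lt.1 h
      have h5 : (K : ℝ) ^ ε ≤ (p : ℝ) ^ ε := Real.rpow_le_rpow (Nat.cast_nonneg _) h4 hε.le
      linarith
  have h6 : ∏ p ∈ r.primeFactors, (if p < K then (2 : ℝ) else 1) ≤ 2 ^ K := by
    rw [Finset.prod_ite, Finset.prod_const, Finset.prod_const_one, mul_one]
    refine pow_le_pow_right₀ (by norm_num) ?_
    have h7 : r.primeFactors.filter (fun p => p < K) ⊆ range K := by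
      intro p hp
      rw [mem_range]
      exact (mem_filter.1 hp).2
    have h8 := card_le_card h7
    rwa [card_range] at h8
  have h9 : ∏ p ∈ r.primeFactors, (p : ℝ) ^ ε ≤ (r : ℝ) ^ ε := by
    rw [Real.finsetProd_rpow _ _ (fun p _ => Nat.cast_nonneg _)]
    refine Real.rpow_le_rpow (Finset.prod_nonneg (fun p _ => Nat.cast_nonneg _)) ?_ hε.le
    have h10 : ∏ p ∈ r.primeFactors, p ≤ r :=
      Nat.le_of_dvd (Nat.pos_of_ne_zero hr) (Nat.prod_primeFactors_dvd r)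
    have h11 : ((∏ p ∈ r.primeFactors, p : ℕ) : ℝ) ≤ (r : ℝ) := Nat.cast_le.2 h10
    rw [Nat.cast_prod] at h11
    exact h11
  calc (2 : ℝ) ^ r.primeFactors.card = ∏ _p ∈ r.primeFactors, (2 : ℝ) := by
        rw [Finset.prod_const]
    _ ≤ ∏ p ∈ r.primeFactors, ((if p < K then (2 : ℝ) else 1) * (p : ℝ) ^ ε) :=
        Finset.prod_le_prod (fun _ _ => by norm_num) h3
    _ = (∏ p ∈ r.primeFactors, (if p < K then (2 : ℝ) else 1)) *
          ∏ p ∈ r.primeFactors, (p : ℝ) ^ ε := Finset.prod_mul_distrib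
    _ ≤ 2 ^ K * (r : ℝ) ^ ε :=
        mul_le_mul h6 h9 (Finset.prod_nonneg (fun p _ => by positivity)) (by positivity)

/-- The principal character on `1 < Re s ≤ 2`.

Proof. `LFunctionTrivChar_eq_mul_riemannZeta`: `L(s, 1) = ∏_{p | r} (1 - p ^ (-s)) ζ(s)`, the product has norm at most
`2 ^ ω(r) ≤ C₁ r ^ ε` (`sw_omega`), and `sw_zeta_eps`; `C₂ T ^ ε + 1 / ‖s - 1‖ ≤ C₂ T ^ ε (1 + 1 / ‖s - 1‖)` as
`C₂ T ^ ε ≥ 1`, `T = |s.im| + 2`, and `r ^ ε T ^ ε = QQ r s.im ^ ε`. -/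
theorem sw_trivchar_eps (ε : ℝ) (hε : 0 < ε) :
    ∃ C : ℝ, 1 ≤ C ∧ ∀ (r : ℕ) [NeZero r] (s : ℂ), 1 < s.re → s.re ≤ 2 →
      ‖LFunction (1 : DirichletCharacter ℂ r) s‖ ≤ C * QQ r s.im ^ ε * (1 + 1 / ‖s - 1‖) := by
  obtain ⟨C₁, hC₁, h1⟩ := sw_omega ε hε
  obtain ⟨C₂, hC₂, h2⟩ := sw_zeta_eps ε hε
  refine ⟨C₁ * C₂, one_le_mul_of_one_le_of_one_le hC₁ hC₂, fun r _ s hs1 hs2 => ?_⟩
  have hs : s ≠ 1 := by
    rintro rfl
    simp at hs1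
  have h3 : LFunction (1 : DirichletCharacter ℂ r) s =
      (∏ p ∈ r.primeFactors, (1 - (p : ℂ) ^ (-s))) * riemannZeta s :=
    LFunctionTrivChar_eq_mul_riemannZeta hs
  have h4 : ‖∏ p ∈ r.primeFactors, (1 - (p : ℂ) ^ (-s))‖ ≤ 2 ^ r.primeFactors.card := by
    rw [norm_prod, ← Finset.prod_const]
    refine Finset.prod_le_prod (fun _ _ => norm_nonneg _) (fun p hp => ?_)
    have hp0 : 0 < p := (Nat.prime_of_mem_primeFactors hp).pos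
    have hp1 : (1 : ℝ) ≤ p := by exact_mod_cast hp0
    refine (norm_sub_le _ _).trans ?_
    rw [norm_one, Complex.norm_natCast_cpow_of_pos hp0, Complex.neg_re]
    have h5 : (p : ℝ) ^ (-s.re) ≤ 1 :=
      Real.rpow_le_one_of_one_le_of_nonpos hp1 (by linarith)
    linarith
  have hr : (r : ℕ) ≠ 0 := NeZero.ne r
  have hT : (2 : ℝ) ≤ |s.im| + 2 := by linarith [abs_nonneg s.im]
  have hT1 : (1 : ℝ) ≤ (|s.im| + 2) ^ ε := Real.one_le_rpow (by linarith) hε.le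
  have h6 : QQ r s.im ^ ε = (r : ℝ) ^ ε * (|s.im| + 2) ^ ε := by
    unfold QQ
    rw [Real.mul_rpow (Nat.cast_nonneg _) (by linarith)]
  have h7 : C₂ * (|s.im| + 2) ^ ε + 1 / ‖s - 1‖ ≤ C₂ * (|s.im| + 2) ^ ε * (1 + 1 / ‖s - 1‖) := by
    have h8 : (1 : ℝ) ≤ C₂ * (|s.im| + 2) ^ ε := one_le_mul_of_one_le_of_one_le hC₂ hT1
    have h9 : (0 : ℝ) ≤ 1 / ‖s - 1‖ := by positivity
    nlinarith
  have hr0 : (0 : ℝ) ≤ (r : ℝ) ^ ε := by positivity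
  rw [h3, norm_mul, h6]
  calc ‖∏ p ∈ r.primeFactors, (1 - (p : ℂ) ^ (-s))‖ * ‖riemannZeta s‖ ≤
      (C₁ * (r : ℝ) ^ ε) * (C₂ * (|s.im| + 2) ^ ε * (1 + 1 / ‖s - 1‖)) :=
        mul_le_mul (h4.trans (h1 r hr)) ((h2 s hs1 hs2).trans h7) (norm_nonneg _) (by positivity)
    _ = C₁ * C₂ * ((r : ℝ) ^ ε * (|s.im| + 2) ^ ε) * (1 + 1 / ‖s - 1‖) := by ring

end Pool.Agent.Wb58c63
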