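import Pool.Agent.W_b58c63_h68.SLbA
import Pool.Agent.W_b58c63_h68.SUbD
import Pool.Agent.W_b58c63_h68.SZeC

/-!
# Siegel-Walfisz, block S: the lower bound away from the real axis (helper49)
-/

set_option autoImplicit false

noncomputable section

open Finset DirichletCharacter

namespace Pool.Agent.Wb58c63

theorem SLbB_core (ε : ℝ) (hε : 0 < ε) :
    ∃ C₂ : ℝ, 1 ≤ C₂ ∧ ∀ (r : ℕ) [NeZero r] (χ : DirichletCharacter ℂ r), χ ≠ 1 →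
      ∀ (B : ℝ), 1 ≤ B → ∀ s : ℂ, 1 < s.re → s.re ≤ 2 →
      (∀ x : ℝ, 0 < x → x ≤ 1 → ‖LFunction (χ ^ 2) (1 + x + 2 * Complex.I * (s.im : ℝ))‖ ≤ B) →
      1 / (128 * B * (C₂ * QQ r s.im ^ (ε / 8)) ^ 3) ≤ ‖LFunction χ s‖ := by
  obtain ⟨C₂, hC₂, h⟩ := sw_lip (ε / 8) (by positivity)
  refine ⟨C₂, hC₂, fun r _ χ hχ B hB s hs hs2 hb => ?_⟩
  have hQ := QQ_ge (r := r) s.im
  have hQ1 : 1 ≤ QQ r s.im ^ (ε / 8) := Real.one_le_rpow (by linarith) (by positivity)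
  have hD : 1 ≤ C₂ * QQ r s.im ^ (ε / 8) := one_le_mul_of_one_le_of_one_le hC₂ hQ1
  have hT : QQ r |s.im| = QQ r s.im := by
    unfold QQ
    rw [abs_abs]
  have key := sw_lb_gen χ (y := s.im) hB hD hb (by
    intro x x' hx hx1 hx' hx1'
    have h1 := h r χ hχ |s.im| (abs_nonneg _) (1 + x + Complex.I * (s.im : ℝ))
      (1 + x' + Complex.I * (s.im : ℝ)) (by simp; linarith) (by simp; linarith) (by simp)
      (by simp; linarith) (by simp; linarith) (by simp)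
    rw [hT] at h1
    refine h1.trans (le_of_eq ?_)
    congr 1
    have h2 : (1 + (x : ℂ) + Complex.I * (s.im : ℝ)) - (1 + (x' : ℂ) + Complex.I * (s.im : ℝ)) =
        ((x - x' : ℝ) : ℂ) := by
      push_cast
      ring
    rw [h2, Complex.norm_real, Real.norm_eq_abs]) (s.re - 1) (by linarith) (by linarith)
  have h3 : (1 : ℂ) + ((s.re - 1 : ℝ) : ℂ) + Complex.I * (s.im : ℝ) = s := by
    apply Complex.ext
    · simp
    · simp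
  rw [h3] at key
  exact key

theorem SLbB_num {Q Q2 C1 C2 ε : ℝ} (hQ : 2 ≤ Q) (hQ2 : 0 < Q2) (hQ2' : Q2 ≤ 2 * Q) (h1 : 1 ≤ C1)
    (h2 : 1 ≤ C2) (hε : 0 < ε) :
    1 / (128 * C1 * C2 ^ 3) * Q ^ (-ε) ≤
      1 / (128 * (C1 * Q2 ^ (ε / 8)) * (C2 * Q ^ (ε / 8)) ^ 3) := by
  have hQ0 : 0 < Q := by linarith
  have hq : 0 < Q ^ (ε / 8) := Real.rpow_pos_of_pos hQ0 _
  have hq2 : 0 < Q2 ^ (ε / 8) := Real.rpow_pos_of_pos hQ2 _
  rw [Real.rpow_neg hQ0.le, ← one_div, div_mul_div_comm, one_mul]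
  apply one_div_le_one_div_of_le
  · positivity
  have e1 : Q2 ^ (ε / 8) ≤ Q ^ (ε / 4) := by
    have : Q2 ≤ Q ^ (2 : ℝ) := by
      rw [Real.rpow_two]
      nlinarith
    calc Q2 ^ (ε / 8) ≤ (Q ^ (2 : ℝ)) ^ (ε / 8) := Real.rpow_le_rpow hQ2.le this (by positivity)
      _ = Q ^ (ε / 4) := by
        rw [← Real.rpow_mul hQ0.le]
        congr 1
        ring
  have e2 : Q ^ (ε / 4) * (Q ^ (ε / 8)) ^ 3 ≤ Q ^ ε := by
    rw [← Real.rpow_natCast, ← Real.rpow_mul hQ0.le, ← Real.rpow_add hQ0]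
    apply Real.rpow_le_rpow_of_exponent_le (by linarith)
    push_cast
    linarith
  have e3 : Q2 ^ (ε / 8) * (Q ^ (ε / 8)) ^ 3 ≤ Q ^ ε :=
    (mul_le_mul_of_nonneg_right e1 (by positivity)).trans e2
  calc 128 * (C1 * Q2 ^ (ε / 8)) * (C2 * Q ^ (ε / 8)) ^ 3
      = 128 * C1 * C2 ^ 3 * (Q2 ^ (ε / 8) * (Q ^ (ε / 8)) ^ 3) := by ring
    _ ≤ 128 * C1 * C2 ^ 3 * Q ^ ε := mul_le_mul_of_nonneg_left e3 (by positivity)

theorem SLbB_two {r : ℕ} [NeZero r] (t : ℝ) : QQ r (2 * t) ≤ 2 * QQ r t := by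
  have h1 : (1 : ℝ) ≤ r := by exact_mod_cast Nat.one_le_iff_ne_zero.2 (NeZero.ne r)
  unfold QQ
  rw [abs_mul, abs_two]
  nlinarith

/-- The lower bound for complex characters.

Proof. Let `C₁` be the constant of `sw_eps` for `ε₁ = min (ε / 16) (1 / 2)` (bound `C₁ QQ ^ (2 ε₁)` on
`1 ≤ Re s ≤ 3`) and `C₂` the constant of `sw_lip (ε / 8)`. For `s = 1 + x + i y` (`x = s.re - 1`, `y = s.im`) apply
`sw_lb_gen` with `B = C₁ QQ r (2 y) ^ (ε / 8)` (`χ ^ 2 ≠ 1`, `QQ r (2 y) ≤ 2 QQ r y`, `QQ ≥ 1`) and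
`D = C₂ QQ r y ^ (ε / 8)`: `‖L‖ ≥ 1 / (128 B D ^ 3) ≥ c QQ r y ^ (-ε / 2) ≥ c QQ r y ^ (-ε)`. -/
theorem sw_lower_complex (ε : ℝ) (hε : 0 < ε) :
    ∃ c : ℝ, 0 < c ∧ ∀ (r : ℕ) [NeZero r] (χ : DirichletCharacter ℂ r), χ ≠ 1 → χ ^ 2 ≠ 1 →
      ∀ s : ℂ, 1 < s.re → s.re ≤ 2 → c * QQ r s.im ^ (-ε) ≤ ‖LFunction χ s‖ := by
  obtain ⟨C₂, hC₂, h⟩ := SLbB_core ε hε
  obtain ⟨C₁, hC₁, h'⟩ := sw_eps (min (ε / 16) (1 / 2)) (lt_min (by positivity) (by norm_num))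
    (min_le_right _ _)
  refine ⟨1 / (128 * C₁ * C₂ ^ 3), by positivity, fun r _ χ hχ hχ2 s hs hs2 => ?_⟩
  have hQ := QQ_ge (r := r) s.im
  have hQ2 := QQ_ge (r := r) (2 * s.im)
  refine (SLbB_num hQ (by linarith) (SLbB_two s.im) hC₁ hC₂ hε).trans ?_
  apply h r χ hχ _ ?_ s hs hs2 ?_
  · exact one_le_mul_of_one_le_of_one_le hC₁ (Real.one_le_rpow (by linarith) (by positivity))
  · intro x hx hx1
    have hm : 0 < min (ε / 16) (1 / 2) := lt_min (by positivity) (by norm_num)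
    have h1 := h' r (χ ^ 2) hχ2 (1 + x + 2 * Complex.I * (s.im : ℝ)) (by simp; linarith)
      (by simp; linarith)
    have h2 : (1 + (x : ℂ) + 2 * Complex.I * (s.im : ℝ)).im = 2 * s.im := by simp
    rw [h2] at h1
    refine h1.trans (mul_le_mul_of_nonneg_left ?_ (by linarith))
    apply Real.rpow_le_rpow_of_exponent_le (by linarith)
    have := min_le_left (ε / 16) (1 / 2 : ℝ)
    linarith

/-- The lower bound for real characters at height at least `δ`.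

Proof. As `sw_lower_complex`, now `χ ^ 2 = 1` and by `sw_trivchar_eps (ε / 8)` one may take
`B = C₁ QQ r (2 y) ^ (ε / 8) (1 + 1 / δ) ≤ 2 C₁ QQ r (2 y) ^ (ε / 8) / δ`, because
`‖(1 + x + 2 i y) - 1‖ ≥ 2 |y| ≥ δ`. So `‖L‖ ≥ 1 / (128 B D ^ 3) ≥ c δ QQ r y ^ (-ε)`. -/
theorem sw_lower_real_far (ε : ℝ) (hε : 0 < ε) :
    ∃ c : ℝ, 0 < c ∧ ∀ (r : ℕ) [NeZero r] (χ : DirichletCharacter ℂ r), χ ≠ 1 → χ ^ 2 = 1 →
      ∀ δ : ℝ, 0 < δ → δ ≤ 1 → ∀ s : ℂ, 1 < s.re → s.re ≤ 2 → δ ≤ |s.im| →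
        c * δ * QQ r s.im ^ (-ε) ≤ ‖LFunction χ s‖ := by
  obtain ⟨C₂, hC₂, h⟩ := SLbB_core ε hε
  obtain ⟨C₁, hC₁, h'⟩ := sw_trivchar_eps (ε / 8) (by positivity)
  refine ⟨1 / (128 * C₁ * C₂ ^ 3) / 2, by positivity,
    fun r _ χ hχ hχ2 δ hδ hδ1 s hs hs2 hsδ => ?_⟩
  have hQ := QQ_ge (r := r) s.im
  have hQ2 := QQ_ge (r := r) (2 * s.im)
  have hq : 1 ≤ QQ r s.im ^ (ε / 8) := Real.one_le_rpow (by linarith) (by positivity)
  have hq2 : 1 ≤ QQ r (2 * s.im) ^ (ε / 8) := Real.one_le_rpow (by linarith) (by positivity)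
  have hnum := SLbB_num hQ (by linarith) (SLbB_two s.im) hC₁ hC₂ hε
  have hc : 1 ≤ C₁ * QQ r (2 * s.im) ^ (ε / 8) := one_le_mul_of_one_le_of_one_le hC₁ hq2
  have key := h r χ hχ (2 * (C₁ * QQ r (2 * s.im) ^ (ε / 8)) / δ) (by
    rw [le_div_iff₀ hδ]
    linarith) s hs hs2 (by
    intro x hx hx1
    have h1 := h' r (1 + x + 2 * Complex.I * (s.im : ℝ)) (by simp; linarith)
      (by simp; linarith)
    have h2 : (1 + (x : ℂ) + 2 * Complex.I * (s.im : ℝ)).im = 2 * s.im := by simp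
    rw [h2] at h1
    rw [hχ2]
    refine h1.trans ?_
    have h3 : δ ≤ ‖(1 + (x : ℂ) + 2 * Complex.I * (s.im : ℝ)) - 1‖ := by
      have h4 := Complex.abs_im_le_norm ((1 + (x : ℂ) + 2 * Complex.I * (s.im : ℝ)) - 1)
      have h5 : ((1 + (x : ℂ) + 2 * Complex.I * (s.im : ℝ)) - 1).im = 2 * s.im := by simp
      rw [h5, abs_mul, abs_two] at h4
      linarith
    have h6 : 1 + 1 / ‖(1 + (x : ℂ) + 2 * Complex.I * (s.im : ℝ)) - 1‖ ≤ 2 / δ := by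
      have h7 := one_div_le_one_div_of_le hδ h3
      have h8 : 1 ≤ 1 / δ := by rw [le_div_iff₀ hδ]; linarith
      have h9 : 2 / δ = 1 / δ + 1 / δ := by ring
      linarith
    calc _ ≤ C₁ * QQ r (2 * s.im) ^ (ε / 8) * (2 / δ) :=
          mul_le_mul_of_nonneg_left h6 (by linarith)
      _ = 2 * (C₁ * QQ r (2 * s.im) ^ (ε / 8)) / δ := by ring)
  refine le_trans ?_ key
  calc 1 / (128 * C₁ * C₂ ^ 3) / 2 * δ * QQ r s.im ^ (-ε)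
      = δ / 2 * (1 / (128 * C₁ * C₂ ^ 3) * QQ r s.im ^ (-ε)) := by ring
    _ ≤ δ / 2 * (1 / (128 * (C₁ * QQ r (2 * s.im) ^ (ε / 8)) *
        (C₂ * QQ r s.im ^ (ε / 8)) ^ 3)) := mul_le_mul_of_nonneg_left hnum (by positivity)
    _ = 1 / (128 * (2 * (C₁ * QQ r (2 * s.im) ^ (ε / 8)) / δ) *
        (C₂ * QQ r s.im ^ (ε / 8)) ^ 3) := by
      have e1 : C₁ * QQ r (2 * s.im) ^ (ε / 8) ≠ 0 := by positivity
      have e2 : (C₂ * QQ r s.im ^ (ε / 8)) ^ 3 ≠ 0 := by positivity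
      generalize C₁ * QQ r (2 * s.im) ^ (ε / 8) = u at e1 ⊢
      generalize (C₂ * QQ r s.im ^ (ε / 8)) ^ 3 = w at e2 ⊢
      field_simp

end Pool.Agent.Wb58c63
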