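import Pool.Agent.W_b58c63_h68.SFub

/-!
# Siegel-Walfisz, block S: prime powers (helper49)
-/

set_option autoImplicit false

noncomputable section

open Finset DirichletCharacter ArithmeticFunction

namespace Pool.Agent.Wb58c63

/-- the terms of the smoothed sum -/
def SPp_f {r : ℕ} (χ : DirichletCharacter ℂ r) (k : ℕ) (v : ℝ) (n : ℕ) : ℂ :=
  χ (n : ZMod r) * ((vonMangoldt n : ℝ) : ℂ) * ((Real.log n : ℝ) : ℂ) ^ k *
    (tp (Real.log n - v) : ℂ)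

theorem SPp_v_pos {Y : ℝ} (hY : 3 ≤ Y) : 0 < vY Y := by
  unfold vY
  have h1 := l0_pos
  have h2 : 0 < Real.log Y := Real.log_pos (by linarith)
  linarith

theorem SPp_SS (k : ℕ) {Y : ℝ} (hY : 3 ≤ Y) {r : ℕ} (χ : DirichletCharacter ℂ r) :
    SS χ k (vY Y) = ∑ n ∈ range ⌈2 * Y⌉₊, SPp_f χ k (vY Y) n := by
  unfold SS
  refine tsum_eq_sum fun n hn => ?_
  rw [mem_range, not_lt] at hn
  have h1 : 2 * Y ≤ n := Nat.ceil_le.1 hn
  have h2 : Real.log (2 * Y) ≤ Real.log n := Real.log_le_log (by linarith) h1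
  rw [Real.log_mul two_ne_zero (by linarith)] at h2
  have h3 : l0 ≤ |Real.log n - vY Y| := by
    refine le_trans ?_ (le_abs_self _)
    unfold vY l0
    linarith
  rw [tp_zero h3, Complex.ofReal_zero, mul_zero]

theorem SPp_TT (k : ℕ) {Y : ℝ} (hY : 3 ≤ Y) {r : ℕ} (χ : DirichletCharacter ℂ r) :
    ((vY Y : ℝ) : ℂ) ^ k * TT k Y χ = ∑ p ∈ Pr Y, SPp_f χ k (vY Y) p := by
  have hv : ((vY Y : ℝ) : ℂ) ≠ 0 := by exact_mod_cast (SPp_v_pos hY).ne'
  unfold TT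
  rw [Finset.mul_sum]
  refine Finset.sum_congr rfl fun p hp => ?_
  have hp' : p.Prime := (mem_filter.1 hp).2
  unfold ap aw SPp_f
  rw [vonMangoldt_apply_prime hp']
  push_cast
  rw [div_pow]
  field_simp

theorem SPp_term (k : ℕ) {Y : ℝ} (hY : 3 ≤ Y) {r : ℕ} (χ : DirichletCharacter ℂ r) (n : ℕ)
    (hn : n ∈ range ⌈2 * Y⌉₊) :
    ‖SPp_f χ k (vY Y) n‖ ≤ Real.log (2 * Y) ^ k * vonMangoldt n := by
  have h1 : (n : ℝ) < 2 * Y := Nat.lt_ceil.1 (mem_range.1 hn)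
  have h2 : 0 ≤ Real.log n := Real.log_natCast_nonneg n
  have h3 : Real.log n ≤ Real.log (2 * Y) := by
    rcases Nat.eq_zero_or_pos n with rfl | hpos
    · rw [Nat.cast_zero, Real.log_zero]
      exact Real.log_nonneg (by linarith)
    · exact Real.log_le_log (by exact_mod_cast hpos) h1.le
  have h4 : 0 ≤ vonMangoldt n := vonMangoldt_nonneg
  unfold SPp_f
  rw [norm_mul, norm_mul, norm_mul, norm_pow, Complex.norm_real, Complex.norm_real,
    Complex.norm_real, Real.norm_of_nonneg h4, Real.norm_of_nonneg h2,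
    Real.norm_of_nonneg (tp_nonneg _)]
  have h5 : Real.log n ^ k ≤ Real.log (2 * Y) ^ k := pow_le_pow_left₀ h2 h3 k
  have h6 : ‖χ (n : ZMod r)‖ ≤ 1 := χ.norm_le_one _
  have h7 : 0 ≤ Real.log n ^ k := pow_nonneg h2 k
  calc ‖χ (n : ZMod r)‖ * vonMangoldt n * Real.log n ^ k * tp (Real.log n - vY Y)
      ≤ 1 * vonMangoldt n * Real.log (2 * Y) ^ k * 1 := by
        have h8 : 0 ≤ Real.log (2 * Y) ^ k := h7.trans h5
        gcongr
        · exact tp_nonneg _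
        · exact tp_le_one _
    _ = Real.log (2 * Y) ^ k * vonMangoldt n := by ring

theorem SPp_sum {Y : ℝ} (hY : 3 ≤ Y) :
    ∑ n ∈ (range ⌈2 * Y⌉₊).filter (fun n => ¬ n.Prime), vonMangoldt n ≤
      2 * Real.sqrt (2 * Y) * Real.log (2 * Y) := by
  refine le_trans ?_ (Chebyshev.psi_sub_theta_le (by linarith : (1 : ℝ) ≤ 2 * Y))
  rw [Chebyshev.psi_sub_theta_eq_sum_not_prime]
  have h1 : (range ⌈2 * Y⌉₊).filter (fun n => ¬ n.Prime) ⊆
      insert 0 ((Ioc 0 ⌊2 * Y⌋₊).filter (fun n => ¬ n.Prime)) := by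
    intro n hn
    rw [mem_filter, mem_range] at hn
    rw [mem_insert, mem_filter, mem_Ioc]
    rcases Nat.eq_zero_or_pos n with h | h
    · exact Or.inl h
    · exact Or.inr ⟨⟨h, Nat.le_floor (Nat.lt_ceil.1 hn.1).le⟩, hn.2⟩
  refine (Finset.sum_le_sum_of_subset_of_nonneg h1 fun i _ _ => vonMangoldt_nonneg).trans ?_
  rw [Finset.sum_insert (by simp)]
  simp

/-- Prime powers contribute little.

Proof. `vY Y ^ k * TT k Y χ = ∑ p ∈ Pr Y, tp (log p - v) (log p) ^ (k + 1) χ(p)` with `v = vY Y = log Y + l0 > 0`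
(`aw`, `ap`; `(log p / v) ^ k v ^ k = (log p) ^ k`). In `SS χ k v` only the `n` with `|log n - v| < l0`, i.e.
`Y < n < 2 Y`, contribute (`tp_zero`, `2 l0 = log 2`), so it is a finite sum over `n ∈ range ⌈2 Y⌉₊`; the primes
(`Λ p = log p`) give exactly `v ^ k TT`. The other `n` have `0 ≤ tp ≤ 1`, `(log n) ^ k ≤ (log (2 Y)) ^ k`,
`‖χ n‖ ≤ 1`, so the difference is at most `(log (2 Y)) ^ k ∑_{n ≤ 2 Y, n not prime} Λ(n) =
(log (2 Y)) ^ k (ψ(2 Y) - θ(2 Y))` (`Chebyshev.psi`, `Chebyshev.theta`), and `ψ(x) - θ(x) ≤ C √x log x` (Mathlib: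
`Chebyshev.psi_sub_theta_le...`, or `∑_{p ^ j ≤ x, j ≥ 2} log p ≤ √x log x` counting the primes `p ≤ √x`, each with
at most `log x / log p` powers). Finally `log (2 Y) ≤ 2 log Y` for `Y ≥ 3`. -/
theorem sw_primepow (k : ℕ) :
    ∃ C : ℝ, 0 < C ∧ ∀ (Y : ℝ) (r : ℕ) (χ : DirichletCharacter ℂ r), 3 ≤ Y →
      ‖((vY Y : ℝ) : ℂ) ^ k * TT k Y χ - SS χ k (vY Y)‖ ≤ C * Real.sqrt Y * Real.log Y ^ (k + 1) := by
  refine ⟨4 * 2 ^ (k + 1), by positivity, ?_⟩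
  intro Y r χ hY
  rw [SPp_TT k hY χ, SPp_SS k hY χ]
  have h1 : ∑ n ∈ range ⌈2 * Y⌉₊, SPp_f χ k (vY Y) n =
      ∑ p ∈ Pr Y, SPp_f χ k (vY Y) p +
        ∑ n ∈ (range ⌈2 * Y⌉₊).filter (fun n => ¬ n.Prime), SPp_f χ k (vY Y) n :=
    (Finset.sum_filter_add_sum_filter_not _ _ _).symm
  rw [h1, sub_add_cancel_left, norm_neg]
  have hlogY : 0 < Real.log Y := Real.log_pos (by linarith)
  have hlog0 : 0 ≤ Real.log (2 * Y) := Real.log_nonneg (by linarith)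
  have hlog : Real.log (2 * Y) ≤ 2 * Real.log Y := by
    rw [Real.log_mul two_ne_zero (by linarith)]
    have := Real.log_le_log (by norm_num : (0 : ℝ) < 2) (by linarith : (2 : ℝ) ≤ Y)
    linarith
  have hsq : Real.sqrt (2 * Y) ≤ 2 * Real.sqrt Y := by
    rw [Real.sqrt_mul (by norm_num : (0 : ℝ) ≤ 2)]
    refine mul_le_mul_of_nonneg_right ?_ (Real.sqrt_nonneg _)
    rw [Real.sqrt_le_left (by norm_num)]
    norm_num
  calc ‖∑ n ∈ (range ⌈2 * Y⌉₊).filter (fun n => ¬ n.Prime), SPp_f χ k (vY Y) n‖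
      ≤ ∑ n ∈ (range ⌈2 * Y⌉₊).filter (fun n => ¬ n.Prime),
          Real.log (2 * Y) ^ k * vonMangoldt n :=
        norm_sum_le_of_le _ fun n hn => SPp_term k hY χ n (mem_filter.1 hn).1
    _ = Real.log (2 * Y) ^ k *
          ∑ n ∈ (range ⌈2 * Y⌉₊).filter (fun n => ¬ n.Prime), vonMangoldt n := by
        rw [Finset.mul_sum]
    _ ≤ Real.log (2 * Y) ^ k * (2 * Real.sqrt (2 * Y) * Real.log (2 * Y)) :=
        mul_le_mul_of_nonneg_left (SPp_sum hY) (pow_nonneg hlog0 k)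
    _ = 2 * Real.sqrt (2 * Y) * Real.log (2 * Y) ^ (k + 1) := by ring
    _ ≤ 2 * (2 * Real.sqrt Y) * (2 * Real.log Y) ^ (k + 1) := by
        have h2 : 0 ≤ Real.sqrt Y := Real.sqrt_nonneg _
        gcongr
    _ = 4 * 2 ^ (k + 1) * Real.sqrt Y * Real.log Y ^ (k + 1) := by
        rw [mul_pow]
        ring

end Pool.Agent.Wb58c63
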