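import Pool.Agent.W_b58c63_h68.SRec

/-!
# Siegel-Walfisz, block S: the recursion (helper49)
-/

set_option autoImplicit false

noncomputable section

open Finset DirichletCharacter ArithmeticFunction

namespace Pool.Agent.Wb58c63

/-- `∑_{a b = n} Λ(b) = log n` with complex values -/
theorem SRecB_sum (n : ℕ) :
    ∑ p ∈ n.divisorsAntidiagonal, ((vonMangoldt p.2 : ℝ) : ℂ) = ((Real.log n : ℝ) : ℂ) := by
  rw [← vonMangoldt_sum, Complex.ofReal_sum]
  exact Nat.sum_divisorsAntidiagonal' (fun _ b => ((vonMangoldt b : ℝ) : ℂ))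

/-- the coefficients -/
theorem SRecB_coeff {r : ℕ} (χ : DirichletCharacter ℂ r) (k : ℕ) {n : ℕ} :
    χ (n : ZMod r) * ((Real.log n : ℝ) : ℂ) ^ (k + 1) =
      (∑ j ∈ range (k + 1), (k.choose j : ℂ) •
        LSeries.convolution (fun n => χ (n : ZMod r) * ((Real.log n : ℝ) : ℂ) ^ j)
          (fun n => χ (n : ZMod r) * ((vonMangoldt n : ℝ) : ℂ) *
            ((Real.log n : ℝ) : ℂ) ^ (k - j))) n := by
  rw [Finset.sum_apply]
  have h1 : ∀ j ∈ range (k + 1), ((k.choose j : ℂ) •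
        LSeries.convolution (fun n => χ (n : ZMod r) * ((Real.log n : ℝ) : ℂ) ^ j)
          (fun n => χ (n : ZMod r) * ((vonMangoldt n : ℝ) : ℂ) *
            ((Real.log n : ℝ) : ℂ) ^ (k - j))) n =
      ∑ p ∈ n.divisorsAntidiagonal, χ (n : ZMod r) * ((vonMangoldt p.2 : ℝ) : ℂ) *
        (((Real.log p.1 : ℝ) : ℂ) ^ j * ((Real.log p.2 : ℝ) : ℂ) ^ (k - j) *
          (k.choose j : ℂ)) := by
    intro j _
    rw [Pi.smul_apply, LSeries.convolution_def, smul_eq_mul, Finset.mul_sum]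
    refine Finset.sum_congr rfl fun p hp => ?_
    have h2 : χ (n : ZMod r) = χ (p.1 : ZMod r) * χ (p.2 : ZMod r) := by
      rw [← map_mul, ← Nat.cast_mul, (Nat.mem_divisorsAntidiagonal.1 hp).1]
    rw [h2]
    ring
  rw [Finset.sum_congr rfl h1, Finset.sum_comm]
  have h3 : ∀ p ∈ n.divisorsAntidiagonal, ∑ j ∈ range (k + 1),
      χ (n : ZMod r) * ((vonMangoldt p.2 : ℝ) : ℂ) *
        (((Real.log p.1 : ℝ) : ℂ) ^ j * ((Real.log p.2 : ℝ) : ℂ) ^ (k - j) *
          (k.choose j : ℂ)) =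
      χ (n : ZMod r) * ((Real.log n : ℝ) : ℂ) ^ k * ((vonMangoldt p.2 : ℝ) : ℂ) := by
    intro p hp
    obtain ⟨h4, h5⟩ := Nat.mem_divisorsAntidiagonal.1 hp
    have h6 : p.1 ≠ 0 := fun h => h5 (by rw [← h4, h, zero_mul])
    have h7 : p.2 ≠ 0 := fun h => h5 (by rw [← h4, h, mul_zero])
    have h8 : ((Real.log n : ℝ) : ℂ) = ((Real.log p.1 : ℝ) : ℂ) + ((Real.log p.2 : ℝ) : ℂ) := by
      rw [← h4, Nat.cast_mul, Real.log_mul (Nat.cast_ne_zero.2 h6) (Nat.cast_ne_zero.2 h7),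
        Complex.ofReal_add]
    rw [← Finset.mul_sum, ← add_pow, ← h8]
    ring
  rw [Finset.sum_congr rfl h3, ← Finset.mul_sum, SRecB_sum]
  ring

/-- The recursion.

Proof. `log n = ∑_{a b = n} Λ(a)` (`ArithmeticFunction.vonMangoldt_sum`) and `log n = log a + log b`, so
`χ(n) (log n) ^ (k + 1) = ∑_{a b = n} Λ(a) χ(a) χ(b) (log a + log b) ^ k =
∑_j binom(k, j) ∑_{a b = n} (χ(b) (log b) ^ j) (Λ(a) χ(a) (log a) ^ (k - j))`. Now `LSeries_convolution'` /
`LSeries_convolution` for each `j` (`sw_summable`), and linearity (`LSeries_add`, `LSeries_smul`, `LSeries_sum`). -/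
theorem sw_rec {r : ℕ} (χ : DirichletCharacter ℂ r) (k : ℕ) {s : ℂ} (hs : 1 < s.re) :
    Lj χ (k + 1) s = ∑ j ∈ range (k + 1), (k.choose j : ℂ) * Lj χ j s * Fk χ (k - j) s := by
  have h1 : LSeriesHasSum (∑ j ∈ range (k + 1), (k.choose j : ℂ) •
        LSeries.convolution (fun n => χ (n : ZMod r) * ((Real.log n : ℝ) : ℂ) ^ j)
          (fun n => χ (n : ZMod r) * ((vonMangoldt n : ℝ) : ℂ) *
            ((Real.log n : ℝ) : ℂ) ^ (k - j))) s
      (∑ j ∈ range (k + 1), (k.choose j : ℂ) * (Lj χ j s * Fk χ (k - j) s)) :=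
    LSeriesHasSum.sum fun j _ => LSeriesHasSum.smul _
      (LSeriesHasSum.convolution (sw_summable χ j hs).1.LSeriesHasSum
        (sw_summable χ (k - j) hs).2.LSeriesHasSum)
  have h2 : Lj χ (k + 1) s = LSeries (∑ j ∈ range (k + 1), (k.choose j : ℂ) •
        LSeries.convolution (fun n => χ (n : ZMod r) * ((Real.log n : ℝ) : ℂ) ^ j)
          (fun n => χ (n : ZMod r) * ((vonMangoldt n : ℝ) : ℂ) *
            ((Real.log n : ℝ) : ℂ) ^ (k - j))) s :=
    LSeries_congr (fun {n} _ => SRecB_coeff χ k) s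
  rw [h2, h1.LSeries_eq]
  refine Finset.sum_congr rfl fun j _ => ?_
  ring

end Pool.Agent.Wb58c63
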