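import Pool.Agent.W_b58c63_h68.Defs

/-!
# Siegel-Walfisz, block S: the Fourier transform of the tent (helper49)
-/

set_option autoImplicit false

noncomputable section

open Finset MeasureTheory

namespace Pool.Agent.Wb58c63

theorem l0_pos : 0 < l0 := by
  unfold l0
  have := Real.log_pos (by norm_num : (1 : ℝ) < 2)
  linarith

theorem tp_nonneg (y : ℝ) : 0 ≤ tp y := le_max_left _ _

theorem tp_le_one (y : ℝ) : tp y ≤ 1 := by
  unfold tp
  refine max_le zero_le_one ?_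
  have := div_nonneg (abs_nonneg y) l0_pos.le
  linarith

theorem tp_zero {y : ℝ} (h : l0 ≤ |y|) : tp y = 0 := by
  unfold tp
  refine max_eq_left ?_
  have := (one_le_div l0_pos).2 h
  linarith

theorem tp_cont : Continuous tp := by
  unfold tp
  fun_prop

/-- `(1 / 2 π) ∫ exp (z y) tp y dy` with `z = σ - i t`. -/
def KK (σ t : ℝ) : ℂ :=
  (1 / (2 * Real.pi) : ℝ) *
    ((Complex.exp (l0 * (σ - Complex.I * t)) + Complex.exp (-(l0 * (σ - Complex.I * t))) - 2) /
      (l0 * (σ - Complex.I * t) ^ 2))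

theorem STent_ne {σ : ℝ} (hσ : 0 < σ) (t : ℝ) : (σ : ℂ) - Complex.I * t ≠ 0 := by
  intro h
  have h1 := congrArg Complex.re h
  simp at h1
  exact absurd h1 (ne_of_gt hσ)

theorem STent_sq (σ t : ℝ) : ‖((σ : ℂ) - Complex.I * t) ^ 2‖ = σ ^ 2 + t ^ 2 := by
  rw [norm_pow, ← Complex.normSq_eq_norm_sq, Complex.normSq_apply]
  simp
  ring

theorem STent_exp (σ t : ℝ) :
    ‖Complex.exp (l0 * (σ - Complex.I * t))‖ = Real.exp (l0 * σ) := by
  rw [Complex.norm_exp]
  congr 1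
  simp

theorem STent_exp' (σ t : ℝ) :
    ‖Complex.exp (-(l0 * (σ - Complex.I * t)))‖ = Real.exp (-(l0 * σ)) := by
  rw [Complex.norm_exp]
  congr 1
  simp

/-- Proof. The denominator does not vanish: the real part of `σ - i t` is `σ ≠ 0`. -/
theorem KK_cont {σ : ℝ} (hσ : 0 < σ) : Continuous (KK σ) := by
  unfold KK
  refine Continuous.mul continuous_const (Continuous.div ?_ ?_ ?_)
  · fun_prop
  · fun_prop
  · intro t
    have h1 : (l0 : ℂ) ≠ 0 := by
      exact_mod_cast l0_pos.ne'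
    exact mul_ne_zero h1 (pow_ne_zero 2 (STent_ne hσ t))

/-- Proof. `‖exp (± l0 (σ - i t))‖ = exp (± l0 σ) ≤ exp 1` (`2 l0 = log 2 < 1`), and
`‖σ - i t‖ ^ 2 = σ ^ 2 + t ^ 2 ≥ 1 + t ^ 2`. -/
theorem KK_bound : ∃ C : ℝ, 0 < C ∧ ∀ σ t : ℝ, 1 ≤ σ → σ ≤ 2 → ‖KK σ t‖ ≤ C / (1 + t ^ 2) := by
  have hl := l0_pos
  have hpi := Real.pi_pos
  refine ⟨1 / (2 * Real.pi) * ((Real.exp 1 + Real.exp 1 + 2) / l0), by positivity, ?_⟩
  intro σ t h1 h2
  have hlog : l0 * 2 < 1 := by
    unfold l0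
    have := Real.log_two_lt_d9
    linarith
  have hs : l0 * σ ≤ 1 := by nlinarith
  have hs0 : 0 ≤ l0 * σ := by positivity
  have hn : ‖Complex.exp (l0 * (σ - Complex.I * t)) + Complex.exp (-(l0 * (σ - Complex.I * t))) - 2‖
      ≤ Real.exp 1 + Real.exp 1 + 2 := by
    refine (norm_sub_le _ _).trans ?_
    have h3 : ‖(2 : ℂ)‖ = 2 := by simp
    rw [h3]
    refine add_le_add ((norm_add_le _ _).trans ?_) le_rfl
    rw [STent_exp, STent_exp']
    exact add_le_add (Real.exp_le_exp.mpr hs) (Real.exp_le_exp.mpr (by linarith))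
  unfold KK
  rw [norm_mul, norm_div, norm_mul, STent_sq, Complex.norm_real, Complex.norm_real,
    Real.norm_eq_abs, Real.norm_eq_abs, abs_of_pos hl, abs_of_pos (show 0 < 1 / (2 * Real.pi) by
      positivity), mul_div_assoc, div_div]
  refine mul_le_mul_of_nonneg_left ?_ (by positivity)
  refine div_le_div₀ (by positivity) hn (by positivity) ?_
  refine mul_le_mul_of_nonneg_left ?_ hl.le
  nlinarith

end Pool.Agent.Wb58c63
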