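import Pool.Agent.W_b58c63_h68.STent

/-!
# Siegel-Walfisz, block S: Fourier inversion for the tent (helper49)
-/

set_option autoImplicit false

noncomputable section

open Finset MeasureTheory

namespace Pool.Agent.Wb58c63

theorem STentF_der_pos {z : ℂ} (hz : z ≠ 0) (y : ℝ) :
    HasDerivAt (fun y : ℝ => Complex.exp (z * y) * ((1 - (y : ℂ) / l0) / z + 1 / (l0 * z ^ 2)))
      (Complex.exp (z * y) * (1 - (y : ℂ) / l0)) y := by
  have hl : (l0 : ℂ) ≠ 0 := by exact_mod_cast l0_pos.ne'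
  have h1 : HasDerivAt (fun y : ℝ => (y : ℂ)) 1 y := Complex.ofRealCLM.hasDerivAt
  have h2 : HasDerivAt (fun y : ℝ => Complex.exp (z * y)) (Complex.exp (z * y) * (z * 1)) y :=
    (h1.const_mul z).cexp
  have h3 : HasDerivAt (fun y : ℝ => (1 - (y : ℂ) / l0) / z + 1 / (l0 * z ^ 2))
      ((-(1 / (l0 : ℂ))) / z) y :=
    (((h1.div_const (l0 : ℂ)).const_sub 1).div_const z).add_const _
  refine (h2.mul h3).congr_deriv ?_
  field_simp
  ring

theorem STentF_der_neg {z : ℂ} (hz : z ≠ 0) (y : ℝ) :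
    HasDerivAt (fun y : ℝ => Complex.exp (z * y) * ((1 + (y : ℂ) / l0) / z - 1 / (l0 * z ^ 2)))
      (Complex.exp (z * y) * (1 + (y : ℂ) / l0)) y := by
  have hl : (l0 : ℂ) ≠ 0 := by exact_mod_cast l0_pos.ne'
  have h1 : HasDerivAt (fun y : ℝ => (y : ℂ)) 1 y := Complex.ofRealCLM.hasDerivAt
  have h2 : HasDerivAt (fun y : ℝ => Complex.exp (z * y)) (Complex.exp (z * y) * (z * 1)) y :=
    (h1.const_mul z).cexp
  have h3 : HasDerivAt (fun y : ℝ => (1 + (y : ℂ) / l0) / z - 1 / (l0 * z ^ 2))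
      ((1 / (l0 : ℂ)) / z) y :=
    (((h1.div_const (l0 : ℂ)).const_add 1).div_const z).sub_const _
  refine (h2.mul h3).congr_deriv ?_
  field_simp
  ring

theorem STentF_tp_pos {y : ℝ} (h0 : 0 ≤ y) (h1 : y ≤ l0) : (tp y : ℂ) = 1 - (y : ℂ) / l0 := by
  have h2 : tp y = 1 - y / l0 := by
    unfold tp
    rw [abs_of_nonneg h0, max_eq_right]
    have := (div_le_one l0_pos).2 h1
    linarith
  rw [h2]
  push_cast
  rfl

theorem STentF_tp_neg {y : ℝ} (h0 : y ≤ 0) (h1 : -l0 ≤ y) : (tp y : ℂ) = 1 + (y : ℂ) / l0 := by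
  have h2 : tp y = 1 + y / l0 := by
    unfold tp
    have h3 : -y ≤ l0 := by linarith
    rw [abs_of_nonpos h0, max_eq_right]
    · ring
    · have := (div_le_one l0_pos).2 h3
      linarith
  rw [h2]
  push_cast
  rfl

theorem STentF_cont (z : ℂ) : Continuous fun y : ℝ => Complex.exp (z * y) * (tp y : ℂ) := by
  have := tp_cont
  fun_prop

theorem STentF_supp (z : ℂ) :
    Function.support (fun y : ℝ => Complex.exp (z * y) * (tp y : ℂ)) ⊆ Set.Ioc (-l0) l0 := by
  intro y hy
  have h1 : |y| < l0 := by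
    by_contra hcon
    exact hy (by simp [tp_zero (not_lt.1 hcon)])
  exact ⟨(abs_lt.1 h1).1, (abs_lt.1 h1).2.le⟩

theorem STentF_int {z : ℂ} (hz : z ≠ 0) :
    ∫ y : ℝ, Complex.exp (z * y) * (tp y : ℂ) =
      (Complex.exp (l0 * z) + Complex.exp (-(l0 * z)) - 2) / (l0 * z ^ 2) := by
  have hl : (l0 : ℂ) ≠ 0 := by exact_mod_cast l0_pos.ne'
  have hl0 := l0_pos
  have hc := STentF_cont z
  rw [← intervalIntegral.integral_eq_integral_of_support_subset (STentF_supp z),
    ← intervalIntegral.integral_add_adjacent_intervals (b := 0) (hc.intervalIntegrable _ _)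
      (hc.intervalIntegrable _ _)]
  have e1 : ∫ y in (-l0)..0, Complex.exp (z * y) * (tp y : ℂ) =
      ∫ y in (-l0)..0, Complex.exp (z * y) * (1 + (y : ℂ) / l0) := by
    refine intervalIntegral.integral_congr fun y hy => ?_
    rw [Set.uIcc_of_le (by linarith)] at hy
    rw [STentF_tp_neg hy.2 hy.1]
  have e2 : ∫ y in (0 : ℝ)..l0, Complex.exp (z * y) * (tp y : ℂ) =
      ∫ y in (0 : ℝ)..l0, Complex.exp (z * y) * (1 - (y : ℂ) / l0) := by
    refine intervalIntegral.integral_congr fun y hy => ?_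
    rw [Set.uIcc_of_le hl0.le] at hy
    rw [STentF_tp_pos hy.1 hy.2]
  rw [e1, e2,
    intervalIntegral.integral_eq_sub_of_hasDerivAt (fun y _ => STentF_der_neg hz y)
      (Continuous.intervalIntegrable (by fun_prop) _ _),
    intervalIntegral.integral_eq_sub_of_hasDerivAt (fun y _ => STentF_der_pos hz y)
      (Continuous.intervalIntegrable (by fun_prop) _ _)]
  have e3 : Complex.exp (z * ((-l0 : ℝ) : ℂ)) = Complex.exp (-(l0 * z)) := by
    congr 1
    push_cast
    ring
  have e4 : Complex.exp (z * (l0 : ℂ)) = Complex.exp (l0 * z) := by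
    rw [mul_comm]
  rw [e3, e4]
  push_cast
  rw [mul_zero, Complex.exp_zero]
  field_simp
  ring

theorem STentF_integrable {σ : ℝ} (hσ : 0 < σ) : Integrable (KK σ) := by
  have hl := l0_pos
  have hpi := Real.pi_pos
  obtain ⟨m, hm, hm1, hm2⟩ : ∃ m : ℝ, 0 < m ∧ m ≤ 1 ∧ m ≤ σ ^ 2 :=
    ⟨min 1 (σ ^ 2), by positivity, min_le_left _ _, min_le_right _ _⟩
  have hb : ∀ t : ℝ, ‖KK σ t‖ ≤
      (1 / (2 * Real.pi) * ((Real.exp (l0 * σ) + Real.exp (-(l0 * σ)) + 2) / (l0 * m))) *
        (1 + t ^ 2)⁻¹ := by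
    intro t
    have hn : ‖Complex.exp (l0 * (σ - Complex.I * t)) + Complex.exp (-(l0 * (σ - Complex.I * t))) - 2‖
        ≤ Real.exp (l0 * σ) + Real.exp (-(l0 * σ)) + 2 := by
      refine (norm_sub_le _ _).trans ?_
      have h3 : ‖(2 : ℂ)‖ = 2 := by simp
      rw [h3]
      refine add_le_add ((norm_add_le _ _).trans ?_) le_rfl
      rw [STent_exp, STent_exp']
    unfold KK
    rw [norm_mul, norm_div, norm_mul, STent_sq, Complex.norm_real, Complex.norm_real,
      Real.norm_eq_abs, Real.norm_eq_abs, abs_of_pos hl, abs_of_pos (show 0 < 1 / (2 * Real.pi) by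
        positivity), mul_assoc, ← div_eq_mul_inv, div_div]
    refine mul_le_mul_of_nonneg_left ?_ (by positivity)
    refine div_le_div₀ (by positivity) hn (by positivity) ?_
    rw [mul_assoc]
    refine mul_le_mul_of_nonneg_left ?_ hl.le
    have h4 : m * t ^ 2 ≤ 1 * t ^ 2 := mul_le_mul_of_nonneg_right hm1 (sq_nonneg t)
    nlinarith
  exact (integrable_inv_one_add_sq.const_mul _).mono' (KK_cont hσ).aestronglyMeasurable
    (Filter.Eventually.of_forall hb)

/-- The transform of the tent.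

Proof. `∫ y, exp (z y) tp y = ∫ y in (-l0)..l0, exp (z y) (1 - |y| / l0)`; on each half
`(d/dy) (exp (z y) ((1 - y / l0) / z + 1 / (l0 z ^ 2))) = exp (z y) (1 - y / l0)` for `y ≥ 0`, similarly for `y ≤ 0`;
the sum of the two halves is `(exp (l0 z) + exp (-l0 z) - 2) / (l0 z ^ 2)`. -/
theorem KK_eq {σ : ℝ} (hσ : 0 < σ) (t : ℝ) :
    KK σ t = (1 / (2 * Real.pi) : ℝ) * ∫ y : ℝ, Complex.exp ((σ - Complex.I * t) * y) * (tp y : ℂ) := by
  rw [STentF_int (STent_ne hσ t)]
  rfl

/-- Fourier inversion.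

Proof. Let `f y = exp (σ y) tp y`, continuous with compact support, so integrable. Its Fourier transform
`𝓕 f ξ = ∫ exp (-2 π i y ξ) f y dy = 2 π KK σ (2 π ξ)` (`KK_eq`) is integrable (`KK_cont`, and a bound `C / (1 + t ^ 2)`:
as in `KK_bound`, for `σ > 0` arbitrary the bound `C_σ / (σ ^ 2 + t ^ 2)`). Fourier inversion
(`MeasureTheory.Integrable.fourierInv_fourier_eq` or `Continuous.fourierInv_fourier_eq`) at `y`:
`f y = ∫ ξ, exp (2 π i y ξ) 2 π KK σ (2 π ξ)`, and substitute `t = 2 π ξ` (`integral_comp_mul_left`). -/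
theorem KK_fourier {σ : ℝ} (hσ : 0 < σ) (y : ℝ) :
    ∫ t : ℝ, KK σ t * Complex.exp (Complex.I * t * y) = Complex.exp (σ * y) * (tp y : ℂ) := by
  have hpi := Real.pi_pos
  have hfc : Continuous (fun y : ℝ => Complex.exp (σ * y) * (tp y : ℂ)) := STentF_cont σ
  have hcs : HasCompactSupport (fun y : ℝ => Complex.exp (σ * y) * (tp y : ℂ)) := by
    refine HasCompactSupport.intro (K := Set.Icc (-l0) l0) isCompact_Icc fun x hx => ?_
    by_contra hcon
    exact hx (Set.Ioc_subset_Icc_self (STentF_supp σ hcon))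
  have hfi : Integrable (fun y : ℝ => Complex.exp (σ * y) * (tp y : ℂ)) :=
    hfc.integrable_of_hasCompactSupport hcs
  have hF : FourierTransform.fourier (fun y : ℝ => Complex.exp (σ * y) * (tp y : ℂ)) =
      fun ξ : ℝ => (2 * Real.pi : ℝ) * KK σ (2 * Real.pi * ξ) := by
    funext ξ
    rw [Real.fourier_real_eq_integral_exp_smul, KK_eq hσ, ← mul_assoc, ← Complex.ofReal_mul,
      mul_one_div_cancel (by positivity), Complex.ofReal_one, one_mul]
    refine integral_congr_ae (Filter.Eventually.of_forall fun v => ?_)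
    simp only [smul_eq_mul]
    rw [← mul_assoc, ← Complex.exp_add]
    congr 2
    push_cast
    ring
  have hFi : Integrable
      (FourierTransform.fourier (fun y : ℝ => Complex.exp (σ * y) * (tp y : ℂ))) := by
    rw [hF]
    exact ((STentF_integrable hσ).comp_mul_left' (by positivity : (2 * Real.pi) ≠ 0)).const_mul _
  have h := hfi.fourierInv_fourier_eq hFi (v := y) hfc.continuousAt
  rw [hF, Real.fourierInv_eq'] at h
  rw [← h]
  have h2 := Measure.integral_comp_mul_left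
    (fun t : ℝ => ((2 * Real.pi : ℝ) : ℂ) * (KK σ t * Complex.exp (Complex.I * t * y))) (2 * Real.pi)
  have h3 : ∫ t : ℝ, KK σ t * Complex.exp (Complex.I * t * y) =
      ∫ x : ℝ, ((2 * Real.pi : ℝ) : ℂ) * (KK σ (2 * Real.pi * x) *
        Complex.exp (Complex.I * (2 * Real.pi * x : ℝ) * y)) := by
    rw [h2, integral_const_mul, abs_of_pos (by positivity), Complex.real_smul, ← mul_assoc,
      ← Complex.ofReal_mul, inv_mul_cancel₀ (by positivity), Complex.ofReal_one, one_mul]
  rw [h3]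
  refine integral_congr_ae (Filter.Eventually.of_forall fun x => ?_)
  simp only [smul_eq_mul]
  have e5 : Complex.exp (((2 * Real.pi * inner ℝ x y : ℝ) : ℂ) * Complex.I) =
      Complex.exp (Complex.I * (2 * Real.pi * x : ℝ) * y) := by
    congr 1
    simp
    ring
  rw [e5]
  ring

end Pool.Agent.Wb58c63
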