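import Pool.Agent.W_b58c63_h68.CharSum

/-!
# Siegel-Walfisz, block S: tails of character series (helper49)
-/

set_option autoImplicit false

noncomputable section

open Finset

namespace Pool.Agent.Wb58c63

/-- The difference of consecutive terms.

Proof. `(n + 1) ^ (-s) - n ^ (-s) = ∫ x in n..(n + 1), -s x ^ (-s - 1)` (`integral_cpow` or the derivative of
`x ↦ (x : ℂ) ^ (-s)` on the positive reals), the norm of the integrand is `‖s‖ x ^ (-s.re - 1)`, and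
`∫ x in n..(n + 1), x ^ (-s.re - 1) = (n ^ (-s.re) - (n + 1) ^ (-s.re)) / s.re` (`integral_rpow`). -/
theorem sw_diff {n : ℕ} (hn : 1 ≤ n) {s : ℂ} (hs : 0 < s.re) :
    ‖((n + 1 : ℕ) : ℂ) ^ (-s) - (n : ℂ) ^ (-s)‖ ≤
      ‖s‖ / s.re * ((n : ℝ) ^ (-s.re) - ((n + 1 : ℕ) : ℝ) ^ (-s.re)) := by
  have hn0 : (0 : ℝ) < n := by exact_mod_cast hn
  have hs0 : s ≠ 0 := by
    rintro rfl
    simp at hs
  have h0 : (0 : ℝ) ∉ Set.uIcc (n : ℝ) ((n + 1 : ℕ) : ℝ) := by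
    rw [Set.uIcc_of_le (by push_cast; linarith)]
    rintro ⟨h1, _⟩
    linarith
  have h1 : ∫ x in (n : ℝ)..((n + 1 : ℕ) : ℝ), (x : ℂ) ^ (-s - 1) =
      ((((n + 1 : ℕ) : ℝ) : ℂ) ^ (-s - 1 + 1) - ((n : ℝ) : ℂ) ^ (-s - 1 + 1)) / (-s - 1 + 1) := by
    refine integral_cpow (Or.inr ⟨?_, h0⟩)
    intro h
    apply hs0
    have h2 : -s = 0 := by
      have : -s - 1 + 1 = (-1 : ℂ) + 1 := by rw [h]
      simpa using this
    simpa using h2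
  have e1 : -s - 1 + 1 = -s := by ring
  rw [e1] at h1
  have h2 : ((n + 1 : ℕ) : ℂ) ^ (-s) - (n : ℂ) ^ (-s) =
      -s * ∫ x in (n : ℝ)..((n + 1 : ℕ) : ℝ), (x : ℂ) ^ (-s - 1) := by
    rw [h1]
    field_simp
    push_cast
    ring
  rw [h2, norm_mul, norm_neg]
  have h3 : ‖∫ x in (n : ℝ)..((n + 1 : ℕ) : ℝ), (x : ℂ) ^ (-s - 1)‖ ≤
      ∫ x in (n : ℝ)..((n + 1 : ℕ) : ℝ), x ^ (-s.re - 1) := by
    refine intervalIntegral.norm_integral_le_of_norm_le (by push_cast; linarith) ?_ ?_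
    · refine Filter.Eventually.of_forall fun x hx => ?_
      have hx0 : 0 < x := lt_trans hn0 hx.1
      rw [Complex.norm_cpow_eq_rpow_re_of_pos hx0]
      apply le_of_eq
      congr 1
    · refine intervalIntegral.intervalIntegrable_rpow (Or.inr h0)
  have h4 : ∫ x in (n : ℝ)..((n + 1 : ℕ) : ℝ), x ^ (-s.re - 1) =
      ((n : ℝ) ^ (-s.re) - ((n + 1 : ℕ) : ℝ) ^ (-s.re)) / s.re := by
    rw [integral_rpow (Or.inr ⟨by intro h; linarith, h0⟩)]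
    have e2 : -s.re - 1 + 1 = -s.re := by ring
    rw [e2]
    have := hs.ne'
    field_simp
    ring
  rw [h4] at h3
  refine (mul_le_mul_of_nonneg_left h3 (norm_nonneg _)).trans (le_of_eq ?_)
  ring

/-- The tail of the series of a nonprincipal character.

Proof. If `M ≤ N` the sum is empty. Otherwise `M = M' + 1` with `N ≤ M'`: `char_sum_abel_Ico` with
`ψ n = n ^ (-s)`, `‖ψ M'‖ = M' ^ (-s.re)` (`Complex.norm_natCast_cpow_of_pos`), and `sw_diff`, telescoping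
(`Finset.sum_Ico_sub` or induction): the bound is
`r (M' ^ (-s.re) + ‖s‖ / s.re (N ^ (-s.re) - M' ^ (-s.re)))`, and `M' ^ (-s.re) ≤ N ^ (-s.re)`. -/
theorem sw_tail {r : ℕ} [NeZero r] (χ : DirichletCharacter ℂ r) (hχ : χ ≠ 1) {N M : ℕ} (hN : 1 ≤ N) {s : ℂ}
    (hs : 0 < s.re) :
    ‖∑ n ∈ Ico N M, χ (n : ZMod r) * (n : ℂ) ^ (-s)‖ ≤ r * (1 + ‖s‖ / s.re) * (N : ℝ) ^ (-s.re) := by
  have hN0 : (0 : ℝ) < N := by exact_mod_cast hN
  have hq : 0 ≤ ‖s‖ / s.re := div_nonneg (norm_nonneg _) hs.le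
  have hpos : 0 ≤ (r : ℝ) * (1 + ‖s‖ / s.re) * (N : ℝ) ^ (-s.re) :=
    mul_nonneg (mul_nonneg (Nat.cast_nonneg r) (by linarith)) (Real.rpow_nonneg hN0.le _)
  rcases le_or_gt M N with h | h
  · rw [Finset.Ico_eq_empty_of_le h, Finset.sum_empty, norm_zero]
    exact hpos
  · obtain ⟨M', rfl⟩ : ∃ M', M = M' + 1 := ⟨M - 1, by omega⟩
    have hM : N ≤ M' := by omega
    have hM0 : (0 : ℝ) < M' := lt_of_lt_of_le hN0 (by exact_mod_cast hM)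
    refine (char_sum_abel_Ico χ hχ hM (fun n : ℕ => (n : ℂ) ^ (-s))).trans ?_
    have h1 : ∑ n ∈ Ico N M', ‖((n + 1 : ℕ) : ℂ) ^ (-s) - (n : ℂ) ^ (-s)‖ ≤
        ‖s‖ / s.re * ((N : ℝ) ^ (-s.re) - (M' : ℝ) ^ (-s.re)) := by
      have h2 : ∑ n ∈ Ico N M', ‖((n + 1 : ℕ) : ℂ) ^ (-s) - (n : ℂ) ^ (-s)‖ ≤
          ∑ n ∈ Ico N M', ‖s‖ / s.re * ((n : ℝ) ^ (-s.re) - ((n + 1 : ℕ) : ℝ) ^ (-s.re)) :=
        Finset.sum_le_sum fun n hn => sw_diff (hN.trans (Finset.mem_Ico.1 hn).1) hs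
      refine h2.trans (le_of_eq ?_)
      rw [← Finset.mul_sum]
      congr 1
      have h3 := Finset.sum_Ico_sub (fun n : ℕ => -((n : ℝ) ^ (-s.re))) hM
      have h4 : ∀ n : ℕ, (n : ℝ) ^ (-s.re) - ((n + 1 : ℕ) : ℝ) ^ (-s.re) =
          -(((n + 1 : ℕ) : ℝ) ^ (-s.re)) - -((n : ℝ) ^ (-s.re)) := fun n => by ring
      simp only [h4]
      rw [h3]
      ring
    have h5 : ‖((M' : ℕ) : ℂ) ^ (-s)‖ = (M' : ℝ) ^ (-s.re) := by
      rw [Complex.norm_natCast_cpow_of_pos (by omega)]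
      simp
    rw [mul_assoc]
    refine mul_le_mul_of_nonneg_left ?_ (Nat.cast_nonneg r)
    rw [h5]
    have h6 : (M' : ℝ) ^ (-s.re) ≤ (N : ℝ) ^ (-s.re) :=
      Real.rpow_le_rpow_of_nonpos hN0 (by exact_mod_cast hM) (by linarith)
    have h7 : 0 ≤ ‖s‖ / s.re * (M' : ℝ) ^ (-s.re) := mul_nonneg hq (Real.rpow_nonneg hM0.le _)
    nlinarith

end Pool.Agent.Wb58c63
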