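import Pool.Agent.W_b58c63_h68.SUbC

/-!
# Siegel-Walfisz, block S: the zeta function and the principal character on `Re s > 1` (helper49)
-/

set_option autoImplicit false

noncomputable section

open Finset DirichletCharacter

namespace Pool.Agent.Wb58c63

theorem SZeB_deriv (s : ℂ) (hs0 : s ≠ 0) {x : ℝ} (hx : 0 < x) :
    HasDerivAt (fun y : ℝ => (y : ℂ) ^ (-s)) (-s * (x : ℂ) ^ (-s - 1)) x :=
  hasDerivAt_ofReal_cpow_const hx.ne' (neg_ne_zero.2 hs0)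

theorem SZeB_pw (s : ℂ) (hs : 1 < s.re) {n : ℕ} (hn : 1 ≤ n) {x : ℝ} (hx : (n : ℝ) ≤ x) :
    ‖-s * (x : ℂ) ^ (-s - 1)‖ ≤ ‖s‖ * ((n : ℝ) ^ 2)⁻¹ := by
  have hn1 : (1 : ℝ) ≤ n := by exact_mod_cast hn
  have hn0 : (0 : ℝ) < n := by linarith
  have hx0 : 0 < x := by linarith
  rw [norm_mul, norm_neg, Complex.norm_cpow_eq_rpow_re_of_pos hx0]
  refine mul_le_mul_of_nonneg_left ?_ (norm_nonneg _)
  have h1 : (-s - 1).re = -s.re - 1 := by simp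
  rw [h1]
  calc x ^ (-s.re - 1) ≤ (n : ℝ) ^ (-s.re - 1) :=
        Real.rpow_le_rpow_of_nonpos hn0 hx (by linarith)
    _ ≤ (n : ℝ) ^ (-2 : ℝ) := Real.rpow_le_rpow_of_exponent_le hn1 (by linarith)
    _ = ((n : ℝ) ^ 2)⁻¹ := by rw [Real.rpow_neg hn0.le, Real.rpow_two]

theorem SZeB_diff (s : ℂ) (hs : 1 < s.re) {n : ℕ} (hn : 1 ≤ n) {x : ℝ} (hx : (n : ℝ) ≤ x)
    (hx1 : x ≤ n + 1) :
    ‖(x : ℂ) ^ (-s) - ((n : ℝ) : ℂ) ^ (-s)‖ ≤ ‖s‖ * ((n : ℝ) ^ 2)⁻¹ := by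
  have hn1 : (1 : ℝ) ≤ n := by exact_mod_cast hn
  have hs0 : s ≠ 0 := by
    rintro rfl
    simp at hs
    linarith
  have h := Convex.norm_image_sub_le_of_norm_hasDerivWithin_le
    (f := fun y : ℝ => (y : ℂ) ^ (-s)) (f' := fun y : ℝ => -s * (y : ℂ) ^ (-s - 1))
    (C := ‖s‖ * ((n : ℝ) ^ 2)⁻¹) (s := Set.Icc (n : ℝ) (n + 1)) (x := n) (y := x)
    (fun y hy => (SZeB_deriv s hs0 (by linarith [hy.1])).hasDerivWithinAt)
    (fun y hy => SZeB_pw s hs hn hy.1) (convex_Icc _ _) ⟨le_rfl, by linarith⟩ ⟨hx, hx1⟩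
  refine h.trans ?_
  have h1 : ‖x - (n : ℝ)‖ ≤ 1 := by
    rw [Real.norm_eq_abs, abs_of_nonneg (by linarith)]
    linarith
  have h2 : 0 ≤ ‖s‖ * ((n : ℝ) ^ 2)⁻¹ := by positivity
  calc _ ≤ ‖s‖ * ((n : ℝ) ^ 2)⁻¹ * 1 := mul_le_mul_of_nonneg_left h1 h2
    _ = _ := mul_one _

/-- the antiderivative -/
def SZeB_A (s : ℂ) (x : ℝ) : ℂ := -((x : ℂ) ^ (-s + 1) / (-s + 1))

theorem SZeB_term (s : ℂ) (hs : 1 < s.re) {n : ℕ} (hn : 1 ≤ n) :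
    ‖1 / (n : ℂ) ^ s - (SZeB_A s n - SZeB_A s (n + 1 : ℕ))‖ ≤ ‖s‖ * ((n : ℝ) ^ 2)⁻¹ := by
  have hn1 : (1 : ℝ) ≤ n := by exact_mod_cast hn
  have hs1 : -s ≠ -1 := by
    intro h
    have h2 : s = 1 := by linear_combination -h
    rw [h2] at hs
    simp at hs
  have hder : ∀ y ∈ Set.Icc (n : ℝ) (n + 1), HasDerivWithinAt
      (fun y : ℝ => (y : ℂ) ^ (-s + 1) / (-s + 1) - (y : ℂ) * ((n : ℝ) : ℂ) ^ (-s))
      ((y : ℂ) ^ (-s) - 1 * ((n : ℝ) : ℂ) ^ (-s)) (Set.Icc (n : ℝ) (n + 1)) y := by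
    intro y hy
    have hy0 : 0 < y := by linarith [hy.1]
    have h1 := hasDerivAt_ofReal_cpow_const' hy0.ne' (r := -s) hs1
    have h2 : HasDerivAt (fun y : ℝ => (y : ℂ)) 1 y := Complex.ofRealCLM.hasDerivAt
    exact (h1.sub (h2.mul_const _)).hasDerivWithinAt
  have h := Convex.norm_image_sub_le_of_norm_hasDerivWithin_le
    (C := ‖s‖ * ((n : ℝ) ^ 2)⁻¹) (x := (n : ℝ)) (y := (n : ℝ) + 1) hder
    (fun y hy => by rw [one_mul]; exact SZeB_diff s hs hn hy.1 hy.2) (convex_Icc _ _)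
    ⟨le_rfl, by linarith⟩ ⟨by linarith, le_rfl⟩
  have h1 : ‖(n : ℝ) + 1 - n‖ = 1 := by simp
  rw [h1, mul_one] at h
  refine le_trans (le_of_eq ?_) h
  rw [← norm_neg]
  congr 1
  unfold SZeB_A
  rw [one_div, ← Complex.cpow_neg]
  push_cast
  ring

theorem SZeB_partial (s : ℂ) (hs : 1 < s.re) {N : ℕ} (hN : 2 ≤ N) (M : ℕ) (hM : N ≤ M) :
    ‖∑ n ∈ range M, 1 / (n : ℂ) ^ s - (SZeB_A s N - SZeB_A s M)‖ ≤
      ∑ n ∈ range N, ‖1 / (n : ℂ) ^ s‖ + ‖s‖ * (1 / ((N : ℝ) - 1) - 1 / ((M : ℝ) - 1)) := by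
  induction M, hM using Nat.le_induction with
  | base =>
    rw [sub_self, sub_self, sub_zero, mul_zero, add_zero]
    exact norm_sum_le _ _
  | succ M hM ih =>
    have hM2 : (2 : ℝ) ≤ M := by exact_mod_cast hN.trans hM
    rw [Finset.sum_range_succ]
    have h1 : ∑ n ∈ range M, 1 / (n : ℂ) ^ s + 1 / (M : ℂ) ^ s
        - (SZeB_A s N - SZeB_A s (M + 1 : ℕ)) =
        (∑ n ∈ range M, 1 / (n : ℂ) ^ s - (SZeB_A s N - SZeB_A s M))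
          + (1 / (M : ℂ) ^ s - (SZeB_A s M - SZeB_A s (M + 1 : ℕ))) := by ring
    rw [h1]
    refine (norm_add_le _ _).trans ?_
    have h2 := SZeB_term s hs (n := M) (by omega)
    have h3 : ((M : ℝ) ^ 2)⁻¹ ≤ 1 / ((M : ℝ) - 1) - 1 / (((M + 1 : ℕ) : ℝ) - 1) := by
      push_cast
      rw [add_sub_cancel_right, div_sub_div _ _ (by linarith) (by linarith), ← one_div,
        div_le_div_iff₀ (by positivity) (by nlinarith)]
      nlinarith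
    have h4 := mul_le_mul_of_nonneg_left h3 (norm_nonneg s)
    have h5 : ‖s‖ * (1 / ((M : ℝ) - 1) - 1 / (((M + 1 : ℕ) : ℝ) - 1)) =
      ‖s‖ * (1 / ((N : ℝ) - 1) - 1 / (((M + 1 : ℕ) : ℝ) - 1)) -
        ‖s‖ * (1 / ((N : ℝ) - 1) - 1 / ((M : ℝ) - 1)) := by ring
    linarith

theorem SZeB_normA (s : ℂ) {n : ℕ} (hn : 1 ≤ n) :
    ‖SZeB_A s n‖ = (n : ℝ) ^ (1 - s.re) / ‖s - 1‖ := by
  have hn0 : (0 : ℝ) < n := by exact_mod_cast hn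
  unfold SZeB_A
  rw [norm_neg, norm_div, Complex.norm_cpow_eq_rpow_re_of_pos hn0]
  have h1 : (-s + 1).re = 1 - s.re := by simp; ring
  have h2 : ‖-s + 1‖ = ‖s - 1‖ := by
    rw [← norm_neg]
    congr 1
    ring
  rw [h1, h2]

theorem SZeB_main (s : ℂ) (hs : 1 < s.re) {N : ℕ} (hN : 2 ≤ N) :
    ‖riemannZeta s‖ ≤ ∑ n ∈ range N, ‖1 / (n : ℂ) ^ s‖ + ‖s‖ / ((N : ℝ) - 1) + 1 / ‖s - 1‖ := by
  have hN2 : (2 : ℝ) ≤ N := by exact_mod_cast hN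
  have hsum : HasSum (fun n : ℕ => 1 / (n : ℂ) ^ s) (riemannZeta s) := by
    rw [zeta_eq_tsum_one_div_nat_cpow hs]
    exact (Complex.summable_one_div_nat_cpow.2 hs).hasSum
  have hlim := hsum.tendsto_sum_nat.norm
  have hA : Filter.Tendsto (fun M : ℕ => (M : ℝ) ^ (1 - s.re) / ‖s - 1‖) Filter.atTop
      (nhds 0) := by
    have h1 : Filter.Tendsto (fun x : ℝ => x ^ (-(s.re - 1))) Filter.atTop (nhds 0) :=
      tendsto_rpow_neg_atTop (by linarith)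
    have h2 := (h1.comp tendsto_natCast_atTop_atTop).div_const ‖s - 1‖
    rw [zero_div] at h2
    refine h2.congr fun M => ?_
    simp only [Function.comp]
    rw [neg_sub]
  have hR : Filter.Tendsto (fun M : ℕ => (∑ n ∈ range N, ‖1 / (n : ℂ) ^ s‖
      + ‖s‖ / ((N : ℝ) - 1) + 1 / ‖s - 1‖) + (M : ℝ) ^ (1 - s.re) / ‖s - 1‖) Filter.atTop
      (nhds ((∑ n ∈ range N, ‖1 / (n : ℂ) ^ s‖ + ‖s‖ / ((N : ℝ) - 1) + 1 / ‖s - 1‖) + 0)) :=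
    tendsto_const_nhds.add hA
  rw [add_zero] at hR
  refine le_of_tendsto_of_tendsto hlim hR ?_
  filter_upwards [Filter.eventually_ge_atTop N] with M hM
  have h1 := SZeB_partial s hs hN M hM
  have h2 : ‖∑ n ∈ range M, 1 / (n : ℂ) ^ s‖ ≤
      ‖∑ n ∈ range M, 1 / (n : ℂ) ^ s - (SZeB_A s N - SZeB_A s M)‖
        + (‖SZeB_A s N‖ + ‖SZeB_A s M‖) := by
    have h3 := norm_add_le (∑ n ∈ range M, 1 / (n : ℂ) ^ s - (SZeB_A s N - SZeB_A s M))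
      (SZeB_A s N - SZeB_A s M)
    rw [sub_add_cancel] at h3
    have h4 := norm_sub_le (SZeB_A s N) (SZeB_A s M)
    linarith
  rw [SZeB_normA s (by omega : 1 ≤ N), SZeB_normA s (by omega : 1 ≤ M)] at h2
  have h5 : (N : ℝ) ^ (1 - s.re) / ‖s - 1‖ ≤ 1 / ‖s - 1‖ := by
    refine div_le_div_of_nonneg_right ?_ (norm_nonneg _)
    exact Real.rpow_le_one_of_one_le_of_nonpos (by linarith) (by linarith)
  have hM2 : (2 : ℝ) ≤ M := by exact_mod_cast hN.trans hM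
  have h6 : ‖s‖ * (1 / ((N : ℝ) - 1) - 1 / ((M : ℝ) - 1)) ≤ ‖s‖ / ((N : ℝ) - 1) := by
    rw [div_eq_mul_one_div ‖s‖]
    refine mul_le_mul_of_nonneg_left ?_ (norm_nonneg _)
    have : 0 ≤ 1 / ((M : ℝ) - 1) := one_div_nonneg.2 (by linarith)
    linarith
  linarith

/-- The zeta function on `1 < Re s ≤ 2`.

Proof. `zeta_eq_tsum_one_div_nat_add_one_cpow` or `zeta_eq_tsum_one_div_nat_cpow`. Let `T = |s.im| + 2`,
`N = ⌈T⌉₊`, so `T ≤ N ≤ 2 T`. The terms `n < N` contribute at most `∑_{1 ≤ n < N} 1 / n ≤ 1 + log N`. For the others,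
`∑_{n ≥ N} n ^ (-s) - N ^ (1 - s) / (s - 1) = ∑_{n ≥ N} (n ^ (-s) - (n ^ (1 - s) - (n + 1) ^ (1 - s)) / (s - 1))`
(telescoping, `n ^ (1 - s) → 0` as `Re s > 1`), and the term is `∫ x in n..(n + 1), (n ^ (-s) - x ^ (-s))`, of norm
at most `‖s‖ n ^ (-2)` (the derivative of `x ^ (-s)` has norm `‖s‖ x ^ (-s.re - 1) ≤ ‖s‖ n ^ (-2)`). So this
difference is at most `‖s‖ ∑_{n ≥ N} n ^ (-2) ≤ (T + 2) · 2 / N ≤ 4`. And `‖N ^ (1 - s)‖ ≤ 1`. Altogether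
`‖ζ(s)‖ ≤ 1 + log (2 T) + 4 + 1 / ‖s - 1‖`, and `5 + log (2 T) ≤ (6 + 1 / ε) T ^ ε` (`Real.log_le_rpow_div`,
`T ≥ 2`). -/
theorem sw_zeta_eps (ε : ℝ) (hε : 0 < ε) :
    ∃ C : ℝ, 1 ≤ C ∧ ∀ s : ℂ, 1 < s.re → s.re ≤ 2 →
      ‖riemannZeta s‖ ≤ C * (|s.im| + 2) ^ ε + 1 / ‖s - 1‖ := by
  set e : ℝ := min (ε / 2) (1 / 2) with he
  have he0 : 0 < e := lt_min (by linarith) (by norm_num)
  have he1 : e ≤ 1 / 2 := min_le_right _ _
  have he2 : 2 * e ≤ ε := by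
    have := min_le_left (ε / 2) (1 / 2)
    linarith
  refine ⟨2 * (1 + 1 / e) + 2, ?_, fun s hs hs2 => ?_⟩
  · have : 0 < 1 / e := by positivity
    linarith
  set T : ℝ := |s.im| + 2 with hT
  have hT2 : 2 ≤ T := by
    have := abs_nonneg s.im
    linarith
  have hN : 2 ≤ ⌈T⌉₊ := by
    have : (2 : ℝ) ≤ (⌈T⌉₊ : ℝ) := hT2.trans (Nat.le_ceil T)
    exact_mod_cast this
  have hNT : T ≤ (⌈T⌉₊ : ℝ) := Nat.le_ceil T
  have hNT2 : (⌈T⌉₊ : ℝ) ≤ 2 * T := by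
    have := Nat.ceil_lt_add_one (by linarith : 0 ≤ T)
    linarith
  have hmain := SZeB_main s hs hN
  have hhead : ∑ n ∈ range ⌈T⌉₊, ‖1 / (n : ℂ) ^ s‖ ≤ (1 + 1 / e) * ((⌈T⌉₊ : ℝ)) ^ (2 * e) := by
    refine le_trans (Finset.sum_le_sum fun n _ => ?_) (sw_head he0 he1 ⌈T⌉₊ (by omega))
    rcases Nat.eq_zero_or_pos n with rfl | hn
    · have hs0 : s ≠ 0 := by
        rintro rfl
        simp at hs
        linarith
      rw [Nat.cast_zero, Complex.zero_cpow hs0, div_zero, norm_zero]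
      exact Real.rpow_nonneg (by simp) _
    · have hn1 : (1 : ℝ) ≤ n := by exact_mod_cast hn
      rw [norm_div, norm_one, Complex.norm_natCast_cpow_of_pos hn, one_div,
        ← Real.rpow_neg (by linarith)]
      exact Real.rpow_le_rpow_of_exponent_le hn1 (by linarith)
  have hs' : ‖s‖ ≤ T := by
    have h1 := Complex.norm_le_abs_re_add_abs_im s
    rw [abs_of_pos (by linarith : 0 < s.re)] at h1
    linarith
  have htail : ‖s‖ / ((⌈T⌉₊ : ℝ) - 1) ≤ 2 := by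
    rw [div_le_iff₀ (by linarith)]
    linarith
  have hTe : 1 ≤ T ^ ε := Real.one_le_rpow (by linarith) hε.le
  have hNe : ((⌈T⌉₊ : ℝ)) ^ (2 * e) ≤ 2 * T ^ ε := by
    calc ((⌈T⌉₊ : ℝ)) ^ (2 * e) ≤ (2 * T) ^ (2 * e) :=
          Real.rpow_le_rpow (by positivity) hNT2 (by positivity)
      _ = (2 : ℝ) ^ (2 * e) * T ^ (2 * e) := Real.mul_rpow (by norm_num) (by linarith)
      _ ≤ (2 : ℝ) ^ (1 : ℝ) * T ^ ε := by
          refine mul_le_mul (Real.rpow_le_rpow_of_exponent_le (by norm_num) (by linarith))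
            (Real.rpow_le_rpow_of_exponent_le (by linarith) he2) (by positivity) (by positivity)
      _ = 2 * T ^ ε := by rw [Real.rpow_one]
  have h1 : (1 + 1 / e) * ((⌈T⌉₊ : ℝ)) ^ (2 * e) ≤ (1 + 1 / e) * (2 * T ^ ε) :=
    mul_le_mul_of_nonneg_left hNe (by positivity)
  nlinarith

end Pool.Agent.Wb58c63
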