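import Pool.Agent.W_b58c63_h68.SgA

/-!
# Siegel's theorem: the product of four L-functions without its pole (helper49)
-/

set_option autoImplicit false

noncomputable section

open Finset DirichletCharacter ArithmeticFunction
open scoped ComplexOrder

namespace Pool.Agent.Wb58c63

/-- The entire function `(s - 1) ζ(s)`. -/
def sgZ : ℂ → ℂ := Function.update (fun s : ℂ => (s - 1) * riemannZeta s) 1 1

/-- Proof. Differentiable away from `1` (`differentiableAt_riemannZeta`), continuous at `1`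
(`riemannZeta_residue_one`), so analytic (`analyticAt_of_differentiable_on_punctured_nhds_of_continuousAt`), see
Mathlib's `BadChar.F_differentiable` in `NumberTheory/LSeries/Nonvanishing`. -/
theorem sgZ_diff : Differentiable ℂ sgZ := by
  have hne : ∀ s : ℂ, s ≠ 1 → DifferentiableAt ℂ sgZ s := by
    intro s hs
    apply DifferentiableAt.congr_of_eventuallyEq (f := fun s : ℂ => (s - 1) * riemannZeta s)
    · exact ((differentiableAt_id).sub_const 1).mul (differentiableAt_riemannZeta hs)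
    · filter_upwards [eventually_ne_nhds hs] with t ht using Function.update_of_ne ht ..
  intro s
  rcases ne_or_eq s 1 with hs | rfl
  · exact hne s hs
  · refine (Complex.analyticAt_of_differentiable_on_punctured_nhds_of_continuousAt ?_ ?_).differentiableAt
    · filter_upwards [self_mem_nhdsWithin] with t ht
      exact hne t ht
    · simpa only [sgZ, continuousAt_update_same] using riemannZeta_residue_one

/-- `(s - 1) ζ(s) L(s, χ₁) L(s, χ₂) L(s, χ₁ χ₂)`. -/
def sgG {q₁ q₂ : ℕ} [NeZero q₁] [NeZero q₂] (χ₁ : DirichletCharacter ℂ q₁) (χ₂ : DirichletCharacter ℂ q₂)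
    (s : ℂ) : ℂ :=
  sgZ s * LFunction χ₁ s * LFunction χ₂ s * LFunction (chi12 χ₁ χ₂) s

/-- The residue. -/
def sgl {q₁ q₂ : ℕ} [NeZero q₁] [NeZero q₂] (χ₁ : DirichletCharacter ℂ q₁) (χ₂ : DirichletCharacter ℂ q₂) : ℂ :=
  LFunction χ₁ 1 * LFunction χ₂ 1 * LFunction (chi12 χ₁ χ₂) 1

/-- The product without its pole. -/
def sgPhi {q₁ q₂ : ℕ} [NeZero q₁] [NeZero q₂] (χ₁ : DirichletCharacter ℂ q₁) (χ₂ : DirichletCharacter ℂ q₂) :
    ℂ → ℂ := dslope (sgG χ₁ χ₂) 1

section

variable {q₁ q₂ : ℕ} [NeZero q₁] [NeZero q₂] {χ₁ : DirichletCharacter ℂ q₁} {χ₂ : DirichletCharacter ℂ q₂}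

/-- Proof. `sgZ_diff`, `differentiable_LFunction`, and `Complex.differentiableOn_dslope` (with the set `univ`). -/
theorem sgPhi_diff (h1 : χ₁ ≠ 1) (h2 : χ₂ ≠ 1) (h12 : chi12 χ₁ χ₂ ≠ 1) : Differentiable ℂ (sgPhi χ₁ χ₂) := by
  have hG : Differentiable ℂ (sgG χ₁ χ₂) :=
    ((sgZ_diff.mul (differentiable_LFunction h1)).mul (differentiable_LFunction h2)).mul
      (differentiable_LFunction h12)
  have := (Complex.differentiableOn_dslope (f := sgG χ₁ χ₂) (c := 1) (s := Set.univ) Filter.univ_mem).mpr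
    hG.differentiableOn
  exact differentiableOn_univ.mp this

/-- Proof. `dslope_of_ne`, `slope_def_field`, and `sgG χ₁ χ₂ 1 = sgl χ₁ χ₂`. -/
theorem sgPhi_eq {s : ℂ} (hs : s ≠ 1) : sgPhi χ₁ χ₂ s =
    riemannZeta s * LFunction χ₁ s * LFunction χ₂ s * LFunction (chi12 χ₁ χ₂) s - sgl χ₁ χ₂ / (s - 1) := by
  have hs' : s - 1 ≠ 0 := sub_ne_zero.mpr hs
  have e1 : sgG χ₁ χ₂ 1 = sgl χ₁ χ₂ := by
    simp only [sgG, sgl, sgZ, Function.update_self, one_mul]
  have e2 : sgG χ₁ χ₂ s = (s - 1) * riemannZeta s * LFunction χ₁ s * LFunction χ₂ s *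
      LFunction (chi12 χ₁ χ₂) s := by
    simp only [sgG, sgZ, Function.update_of_ne hs]
  rw [sgPhi, dslope_of_ne _ hs, slope_def_field, e1, e2]
  field_simp

end

end Pool.Agent.Wb58c63
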