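import Pool.Agent.W_b58c63_h68.SgB
import Pool.Agent.W_b58c63_h68.SgAs

/-!
# Siegel's theorem: the Taylor coefficients (helper49)
-/

set_option autoImplicit false

noncomputable section

open Finset DirichletCharacter ArithmeticFunction
open scoped ComplexOrder

namespace Pool.Agent.Wb58c63

variable {q₁ q₂ : ℕ} [NeZero q₁] [NeZero q₂] {χ₁ : DirichletCharacter ℂ q₁} {χ₂ : DirichletCharacter ℂ q₂}

theorem SgBc_absc (χ₁ : DirichletCharacter ℂ q₁) (χ₂ : DirichletCharacter ℂ q₂) :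
    LSeries.abscissaOfAbsConv (sgb χ₁ χ₂) ≤ 1 := by
  refine LSeries.abscissaOfAbsConv_le_of_forall_lt_LSeriesSummable' fun y hy => ?_
  have hy' : (1 : ℝ) < y := by exact_mod_cast hy
  refine (sgb_series χ₁ χ₂ ?_).1
  rw [Complex.ofReal_re]
  exact hy'

theorem SgBc_inv (c : ℂ) (m : ℕ) : iteratedDeriv m (fun s : ℂ => c / (s - 1)) 2 =
    c * ((-1) ^ m * (m.factorial : ℂ)) := by
  have e : (fun s : ℂ => c / (s - 1)) = fun s => c * (fun t : ℂ => t⁻¹) (s - 1) := by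
    funext s
    rw [div_eq_mul_inv]
  rw [e, iteratedDeriv_const_mul_field, iteratedDeriv_comp_sub_const, iteratedDeriv_eq_iterate]
  simp only
  rw [iter_deriv_inv]
  norm_num

/-- The Taylor coefficients at `2`.

Proof. Near `2` (for `Re s > 1`) `sgPhi = F - λ / (s - 1)` (`sgPhi_eq`), where `F s = LSeries (sgb χ₁ χ₂) s`
(`sgb_series`). `LSeries_iteratedDeriv`: `iteratedDeriv m F 2 = (-1) ^ m LSeries (logMul^[m] b) 2`, which is
`(-1) ^ m ∑ b(n) (log n) ^ m n ^ (-2)` with `b n ≥ 0` (`sgb_nonneg`; the series at the real point `2` has nonnegative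
real terms, see `ArithmeticFunction.iteratedDeriv_LSeries_alternating` in `NumberTheory/LSeries/Positivity`). So
`β m := (-1) ^ m iteratedDeriv m F 2 / m !` is real and `≥ 0`, and `β 0 = F 2 ≥ b 1 = 1` (`sgb_one`). And
`iteratedDeriv m (fun s => λ / (s - 1)) 2 = λ (-1) ^ m m !` (induction, or `iteratedDeriv` of `x ↦ x⁻¹`). -/
theorem sgPhi_coeff (h1 : χ₁ ≠ 1) (h2 : χ₂ ≠ 1) (h12 : chi12 χ₁ χ₂ ≠ 1) (h1' : χ₁ ^ 2 = 1)
    (h2' : χ₂ ^ 2 = 1) :
    ∃ β : ℕ → ℝ, (∀ m, 0 ≤ β m) ∧ 1 ≤ β 0 ∧ ∀ m,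
      iteratedDeriv m (sgPhi χ₁ χ₂) 2 = (-1) ^ m * (m.factorial : ℂ) * ((β m : ℂ) - sgl χ₁ χ₂) := by
  have habs : LSeries.abscissaOfAbsConv (sgb χ₁ χ₂) < ((2 : ℝ) : EReal) :=
    lt_of_le_of_lt (SgBc_absc χ₁ χ₂) (by exact_mod_cast one_lt_two)
  have hsum := (sgb_series χ₁ χ₂ (s := 2) (by norm_num)).1
  have hopen : IsOpen {s : ℂ | 1 < s.re} := isOpen_lt continuous_const Complex.continuous_re
  have hmem : (2 : ℂ) ∈ {s : ℂ | 1 < s.re} := by
    show 1 < (2 : ℂ).re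
    norm_num
  have heq : Set.EqOn (sgPhi χ₁ χ₂) ((LSeries (sgb χ₁ χ₂)) - fun s => sgl χ₁ χ₂ / (s - 1))
      {s : ℂ | 1 < s.re} := by
    intro s hs
    have hs1 : s ≠ 1 := by
      rintro rfl
      have hs' : (1 : ℝ) < (1 : ℂ).re := hs
      rw [Complex.one_re] at hs'
      exact lt_irrefl _ hs'
    rw [sgPhi_eq hs1, Pi.sub_apply, (sgb_series χ₁ χ₂ hs).2]
  have hF : ∀ m : ℕ, ContDiffAt ℂ m (LSeries (sgb χ₁ χ₂)) 2 := by
    intro m
    refine (LSeries_analyticOnNhd (sgb χ₁ χ₂) 2 ?_).contDiffAt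
    show LSeries.abscissaOfAbsConv (sgb χ₁ χ₂) < ((2 : ℂ).re : EReal)
    simpa using habs
  have hG : ∀ m : ℕ, ContDiffAt ℂ m (fun s : ℂ => sgl χ₁ χ₂ / (s - 1)) 2 := by
    intro m
    refine ContDiffAt.div contDiffAt_const (contDiffAt_id.sub contDiffAt_const) ?_
    norm_num
  have hder : ∀ m : ℕ, iteratedDeriv m (sgPhi χ₁ χ₂) 2 =
      iteratedDeriv m (LSeries (sgb χ₁ χ₂)) 2 - sgl χ₁ χ₂ * ((-1) ^ m * (m.factorial : ℂ)) := by
    intro m
    rw [heq.iteratedDeriv_of_isOpen hopen m hmem, iteratedDeriv_sub (hF m) (hG m), SgBc_inv]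
  have halt : ∀ m : ℕ, 0 ≤ (-1) ^ m * iteratedDeriv m (LSeries (sgb χ₁ χ₂)) ((2 : ℝ) : ℂ) :=
    fun m => LSeries.iteratedDeriv_alternating (fun n => sgb_nonneg h1' h2' n) habs m
  have h2eq : ((2 : ℝ) : ℂ) = 2 := by norm_num
  rw [h2eq] at halt
  refine ⟨fun m => ((-1) ^ m * iteratedDeriv m (LSeries (sgb χ₁ χ₂)) 2).re / m.factorial,
    fun m => ?_, ?_, fun m => ?_⟩
  · exact div_nonneg (Complex.le_def.1 (halt m)).1 (Nat.cast_nonneg _)
  · simp only [pow_zero, one_mul, Nat.factorial_zero, Nat.cast_one, div_one, iteratedDeriv_zero]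
    have h3 : LSeries.term (sgb χ₁ χ₂) 2 1 ≤ LSeries (sgb χ₁ χ₂) 2 := by
      refine hsum.le_tsum 1 fun j _ => ?_
      have := LSeries.term_nonneg (sgb_nonneg h1' h2' j) 2
      rwa [h2eq] at this
    have h4 : LSeries.term (sgb χ₁ χ₂) 2 1 = 1 := by
      rw [LSeries.term_of_ne_zero one_ne_zero, sgb_one]
      simp
    rw [h4] at h3
    simpa using (Complex.le_def.1 h3).1
  · rw [hder m]
    have him : ((-1) ^ m * iteratedDeriv m (LSeries (sgb χ₁ χ₂)) 2).im = 0 := by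
      have := (Complex.le_def.1 (halt m)).2
      simpa using this.symm
    have hre : (((((-1) ^ m * iteratedDeriv m (LSeries (sgb χ₁ χ₂)) 2).re / m.factorial : ℝ)) : ℂ) =
        ((-1) ^ m * iteratedDeriv m (LSeries (sgb χ₁ χ₂)) 2) / (m.factorial : ℂ) := by
      rw [Complex.ofReal_div, Complex.ofReal_natCast]
      congr 1
      exact Complex.ext rfl (by rw [him]; rfl)
    rw [hre]
    have hm : (m.factorial : ℂ) ≠ 0 := Nat.cast_ne_zero.2 m.factorial_ne_zero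
    have hs : ((-1 : ℂ) ^ m) * (-1) ^ m = 1 := by
      rw [← pow_add, ← two_mul, pow_mul, neg_one_sq, one_pow]
    field_simp
    linear_combination (-iteratedDeriv m (LSeries (sgb χ₁ χ₂)) 2) * hs

end Pool.Agent.Wb58c63
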