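import Pool.Agent.W_b58c63_h68.SgA

/-!
# Siegel's theorem (helper49)
-/

set_option autoImplicit false

noncomputable section

open Finset DirichletCharacter

namespace Pool.Agent.Wb58c63

/-- The product with a primitive character of larger modulus is not principal.

Proof. Suppose `chi12 χ₁ χ = 1`. Let `g = Nat.gcd r q₁`, a divisor of `r` with `g ≤ q₁ < r`. Claim: `χ` factors
through `g` (`factorsThrough_iff_ker_unitsMap`): let `u` be a unit modulo `r` with image `1` modulo `g`. By the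
Chinese remainder theorem (`Nat.chineseRemainder'`, moduli `r` and `q₁`, the residues `u.val` and `1` agree modulo
`g`) there is a natural number `m` with `m ≡ u.val` mod `r` and `m ≡ 1` mod `q₁`. It is coprime to `r` and to `q₁`, so
by `chi12_apply` `1 = chi12 χ₁ χ m = χ₁ m χ m = χ₁ 1 χ u = χ u`. Hence the conductor of `χ` is at most `g < r`
(`conductor_le...`, the conductor is the infimum of the conductor set), which contradicts `χ.IsPrimitive`
(`isPrimitive_def`). -/
theorem sg_ne_one {q₁ r : ℕ} [NeZero q₁] [NeZero r] (χ₁ : DirichletCharacter ℂ q₁)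
    (χ : DirichletCharacter ℂ r) (hχ : χ.IsPrimitive) (hr : q₁ < r) : chi12 χ₁ χ ≠ 1 := by
  intro h
  have h1 : changeLevel (dvd_mul_left r q₁) χ = changeLevel (dvd_mul_right q₁ r) χ₁⁻¹ := by
    rw [map_inv]
    unfold chi12 at h
    exact eq_inv_of_mul_eq_one_right h
  have h2 : ∀ (N : ℕ) (hN : N = q₁ * r) (ha : r ∣ N) (hb : q₁ ∣ N),
      changeLevel ha χ = changeLevel hb χ₁⁻¹ := by
    intro N hN ha hb
    subst hN
    exact h1
  have h3 : FactorsThrough χ (r.gcd q₁) :=
    factorsThrough_gcd χ χ₁⁻¹ (h2 (r * q₁) (mul_comm _ _) (r.dvd_mul_right q₁) (q₁.dvd_mul_left r))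
  have h4 : χ.conductor ≤ r.gcd q₁ := Nat.sInf_le ((mem_conductorSet_iff χ).2 h3)
  have h5 : r.gcd q₁ ≤ q₁ := Nat.gcd_le_right _ (Nat.pos_of_ne_zero (NeZero.ne q₁))
  have h6 : χ.conductor = r := (isPrimitive_def χ).1 hχ
  omega

/-- `chi12` of real characters is real. -/
theorem chi12_sq {q₁ q₂ : ℕ} {χ₁ : DirichletCharacter ℂ q₁} {χ₂ : DirichletCharacter ℂ q₂} (h1 : χ₁ ^ 2 = 1)
    (h2 : χ₂ ^ 2 = 1) : chi12 χ₁ χ₂ ^ 2 = 1 := by
  unfold chi12
  rw [mul_pow, ← map_pow, ← map_pow, h1, h2, map_one, map_one, one_mul]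

end Pool.Agent.Wb58c63
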