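import Pool.Agent.W_b58c63_h68.Defs

/-!
# Vaughan's identity (helper68)
-/

set_option autoImplicit false

noncomputable section

open Finset ArithmeticFunction

namespace Pool.Agent.Wb58c63

/-- The coefficients `∑_{m k = j, m, k ≤ U} μ(m) Λ(k)`. -/
def vc (U j : ℕ) : ℝ :=
  ∑ x ∈ j.divisorsAntidiagonal.filter (fun x => x.1 ≤ U ∧ x.2 ≤ U),
    (moebius x.1 : ℝ) * vonMangoldt x.2

/-- The coefficients `∑_{d ∣ m, d > U} μ(d)`. -/
def vb (U m : ℕ) : ℝ := ∑ d ∈ m.divisors.filter (fun d => U < d), (moebius d : ℝ)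

theorem Vau_mu_le (n : ℕ) : |((moebius n : ℤ) : ℝ)| ≤ 1 := by
  have h := abs_moebius_le_one (n := n)
  exact_mod_cast h

/-- `|vc U j| ≤ ∑_{k ∣ j} Λ(k) = log j`. -/
theorem abs_vc_le (U j : ℕ) (hj : 1 ≤ j) : |vc U j| ≤ Real.log j := by
  have h1 : ∑ i ∈ j.divisors, vonMangoldt i = Real.log j := vonMangoldt_sum
  have h2 : ∑ x ∈ j.divisorsAntidiagonal, vonMangoldt x.2 = Real.log j := by
    rw [Nat.sum_divisorsAntidiagonal' (fun _ b => vonMangoldt b)]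
    exact h1
  rw [← h2]
  unfold vc
  refine (Finset.abs_sum_le_sum_abs _ _).trans ?_
  refine (Finset.sum_le_sum (g := fun x : ℕ × ℕ => vonMangoldt x.2) ?_).trans ?_
  · intro x _
    rw [abs_mul, abs_of_nonneg (vonMangoldt_nonneg (n := x.2))]
    calc |((moebius x.1 : ℤ) : ℝ)| * vonMangoldt x.2 ≤ 1 * vonMangoldt x.2 :=
          mul_le_mul_of_nonneg_right (Vau_mu_le _) vonMangoldt_nonneg
      _ = vonMangoldt x.2 := one_mul _
  · exact Finset.sum_le_sum_of_subset_of_nonneg (Finset.filter_subset _ _)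
      (fun x _ _ => vonMangoldt_nonneg)

theorem abs_vb_le (U m : ℕ) : |vb U m| ≤ (m.divisors.card : ℝ) := by
  unfold vb
  refine (Finset.abs_sum_le_sum_abs _ _).trans ?_
  refine (Finset.sum_le_sum (g := fun _ : ℕ => (1 : ℝ)) (fun x _ => Vau_mu_le x)).trans ?_
  rw [Finset.sum_const, nsmul_eq_mul, mul_one]
  exact_mod_cast Finset.card_filter_le _ _

/-- truncations -/
def Vau_muL (U : ℕ) : ArithmeticFunction ℝ :=
  ⟨fun n => if n ≤ U then ((moebius n : ℤ) : ℝ) else 0, by simp⟩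

def Vau_muG (U : ℕ) : ArithmeticFunction ℝ :=
  ⟨fun n => if U < n then ((moebius n : ℤ) : ℝ) else 0, by simp⟩

def Vau_laL (U : ℕ) : ArithmeticFunction ℝ :=
  ⟨fun n => if n ≤ U then vonMangoldt n else 0, by simp⟩

def Vau_laG (U : ℕ) : ArithmeticFunction ℝ :=
  ⟨fun n => if U < n then vonMangoldt n else 0, by simp⟩

theorem Vau_muL_ap (U n : ℕ) : Vau_muL U n = if n ≤ U then ((moebius n : ℤ) : ℝ) else 0 := rfl
theorem Vau_muG_ap (U n : ℕ) : Vau_muG U n = if U < n then ((moebius n : ℤ) : ℝ) else 0 := rfl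
theorem Vau_laL_ap (U n : ℕ) : Vau_laL U n = if n ≤ U then vonMangoldt n else 0 := rfl
theorem Vau_laG_ap (U n : ℕ) : Vau_laG U n = if U < n then vonMangoldt n else 0 := rfl

theorem Vau_mu_split (U : ℕ) :
    ((moebius : ArithmeticFunction ℤ) : ArithmeticFunction ℝ) = Vau_muL U + Vau_muG U := by
  ext n
  rw [ArithmeticFunction.add_apply, intCoe_apply, Vau_muL_ap, Vau_muG_ap]
  rcases le_or_gt n U with h | h
  · rw [if_pos h, if_neg (not_lt.2 h), add_zero]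
  · rw [if_neg (not_le.2 h), if_pos h, zero_add]

theorem Vau_la_split (U : ℕ) : vonMangoldt = Vau_laL U + Vau_laG U := by
  ext n
  rw [ArithmeticFunction.add_apply, Vau_laL_ap, Vau_laG_ap]
  rcases le_or_gt n U with h | h
  · rw [if_pos h, if_neg (not_lt.2 h), add_zero]
  · rw [if_neg (not_le.2 h), if_pos h, zero_add]

theorem Vau_alg (U : ℕ) :
    Vau_laG U = Vau_muL U * log - (Vau_muL U * Vau_laL U) * ((zeta : ArithmeticFunction ℕ) :
      ArithmeticFunction ℝ) + Vau_laG U * (Vau_muG U * ((zeta : ArithmeticFunction ℕ) :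
      ArithmeticFunction ℝ)) := by
  have h1 : ((moebius : ArithmeticFunction ℤ) : ArithmeticFunction ℝ) *
      ((zeta : ArithmeticFunction ℕ) : ArithmeticFunction ℝ) = 1 := coe_moebius_mul_coe_zeta
  have h2 : vonMangoldt * ((zeta : ArithmeticFunction ℕ) : ArithmeticFunction ℝ) = log :=
    vonMangoldt_mul_zeta
  rw [Vau_mu_split U] at h1
  rw [Vau_la_split U] at h2
  rw [← h2]
  calc Vau_laG U = Vau_laG U * 1 := (mul_one _).symm
    _ = Vau_laG U * ((Vau_muL U + Vau_muG U) * ((zeta : ArithmeticFunction ℕ) :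
      ArithmeticFunction ℝ)) := by rw [h1]
    _ = _ := by ring

theorem Vau_vc (U j : ℕ) : (Vau_muL U * Vau_laL U) j = vc U j := by
  rw [mul_apply, vc, Finset.sum_filter]
  refine Finset.sum_congr rfl (fun x _ => ?_)
  rw [Vau_muL_ap, Vau_laL_ap]
  by_cases h1 : x.1 ≤ U <;> by_cases h2 : x.2 ≤ U <;> simp [h1, h2]

theorem Vau_vb (U m : ℕ) : (Vau_muG U * ((zeta : ArithmeticFunction ℕ) :
    ArithmeticFunction ℝ)) m = vb U m := by
  rw [mul_apply, vb, Finset.sum_filter]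
  rw [← Nat.sum_divisorsAntidiagonal (fun a _ => if U < a then ((moebius a : ℤ) : ℝ) else 0)]
  refine Finset.sum_congr rfl (fun x hx => ?_)
  have hx0 : x.2 ≠ 0 := by
    have := Nat.mem_divisorsAntidiagonal.1 hx
    intro h
    rw [h, mul_zero] at this
    exact this.2 this.1.symm
  rw [Vau_muG_ap]
  simp [hx0, natCoe_apply, zeta_apply]

theorem Vau_vb_zero (U m : ℕ) (hm : m ≤ U) : vb U m = 0 := by
  rw [vb, Finset.sum_eq_zero]
  intro d hd
  rw [Finset.mem_filter] at hd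
  have := Nat.divisor_le hd.1
  omega

/-- **Vaughan's identity, pointwise.** For `n > U`
`Λ(n) = ∑_{m d = n, m ≤ U} μ(m) log d - ∑_{j l = n} vc U j + ∑_{k m = n, k > U, m > U} Λ(k) vb U m`.

Proof. In the ring of arithmetic functions, with `Λ = Λ_{≤ U} + Λ_{> U}`, `μ = μ_{≤ U} + μ_{> U}`:
`Λ_{> U} = Λ_{> U} * μ * 1 = Λ_{> U} * μ_{≤ U} * 1 + Λ_{> U} * (μ_{> U} * 1)` and
`Λ_{> U} * μ_{≤ U} * 1 = μ_{≤ U} * (Λ * 1) - μ_{≤ U} * Λ_{≤ U} * 1 = μ_{≤ U} * log - μ_{≤ U} * Λ_{≤ U} * 1`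
(`vonMangoldt_mul_zeta`, `moebius_mul_coe_zeta`). Note `vb U m = (μ_{> U} * 1) (m) = 0` for `1 ≤ m ≤ U` (no divisor
of `m` exceeds `U`). -/
theorem vaughan_pt (U n : ℕ) (hn : U < n) :
    vonMangoldt n =
      ∑ x ∈ n.divisorsAntidiagonal.filter (fun x => x.1 ≤ U), (moebius x.1 : ℝ) * Real.log x.2 -
      ∑ x ∈ n.divisorsAntidiagonal, vc U x.1 +
      ∑ x ∈ n.divisorsAntidiagonal.filter (fun x => U < x.1 ∧ U < x.2),
        vonMangoldt x.1 * vb U x.2 := by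
  have h0 : vonMangoldt n = Vau_laG U n := by
    rw [Vau_laG_ap, if_pos hn]
  rw [h0, Vau_alg U]
  have hadd : ∀ a b c : ArithmeticFunction ℝ, (a - b + c) n = a n - b n + c n := fun _ _ _ => rfl
  rw [hadd]
  congr 1
  · congr 1
    · rw [mul_apply, Finset.sum_filter]
      refine Finset.sum_congr rfl (fun x _ => ?_)
      rw [Vau_muL_ap, log_apply]
      by_cases h1 : x.1 ≤ U <;> simp [h1]
    · rw [mul_apply]
      refine Finset.sum_congr rfl (fun x hx => ?_)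
      have hx0 : x.2 ≠ 0 := by
        have := Nat.mem_divisorsAntidiagonal.1 hx
        intro h
        rw [h, mul_zero] at this
        exact this.2 this.1.symm
      rw [Vau_vc]
      simp [natCoe_apply, zeta_apply, hx0]
  · rw [mul_apply, Finset.sum_filter]
    refine Finset.sum_congr rfl (fun x _ => ?_)
    rw [Vau_vb]
    rw [Vau_laG_ap]
    by_cases h1 : U < x.1 <;> by_cases h2 : U < x.2
    · simp [h1, h2]
    · simp [h1, h2, Vau_vb_zero U x.2 (not_lt.1 h2)]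
    · simp [h1, h2]
    · simp [h1, h2]

theorem Vau_exch (B : ℕ) (P : ℕ × ℕ → Prop) [DecidablePred P] (F : ℕ × ℕ → ℂ) (M D : Finset ℕ)
    (hM : ∀ m ∈ M, 1 ≤ m) (hD : ∀ d ∈ D, 1 ≤ d)
    (hsub : ∀ x : ℕ × ℕ, 1 ≤ x.1 → 1 ≤ x.2 → x.1 * x.2 < B → P x →
      (x.1 ∈ M ∧ x.2 ∈ D) ∨ F x = 0)
    (hz : ∀ m ∈ M, ∀ d ∈ D, (B ≤ m * d ∨ ¬ P (m, d)) → F (m, d) = 0) :
    ∑ n ∈ range B, ∑ x ∈ n.divisorsAntidiagonal.filter P, F x = ∑ m ∈ M, ∑ d ∈ D, F (m, d) := by
  classical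
  have hdisj : (↑(range B) : Set ℕ).PairwiseDisjoint
      (fun n : ℕ => n.divisorsAntidiagonal.filter P) := by
    intro a _ b _ hab
    rw [Function.onFun, Finset.disjoint_left]
    intro x hx hx'
    rw [Finset.mem_filter, Nat.mem_divisorsAntidiagonal] at hx hx'
    exact hab (hx.1.1.symm.trans hx'.1.1)
  rw [← Finset.sum_biUnion hdisj]
  rw [← Finset.sum_product' (s := M) (t := D) (f := fun m d => F (m, d))]
  set S₁ := (range B).biUnion (fun n : ℕ => n.divisorsAntidiagonal.filter P) with hS₁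
  have hmem : ∀ x : ℕ × ℕ, x ∈ S₁ ↔ 1 ≤ x.1 ∧ 1 ≤ x.2 ∧ x.1 * x.2 < B ∧ P x := by
    intro x
    rw [hS₁, Finset.mem_biUnion]
    constructor
    · rintro ⟨n, hn, hx⟩
      rw [Finset.mem_filter, Nat.mem_divisorsAntidiagonal] at hx
      obtain ⟨⟨h1, h2⟩, h3⟩ := hx
      have h4 : x.1 ≠ 0 := by rintro h; rw [h, zero_mul] at h1; exact h2 h1.symm
      have h5 : x.2 ≠ 0 := by rintro h; rw [h, mul_zero] at h1; exact h2 h1.symm
      exact ⟨Nat.one_le_iff_ne_zero.2 h4, Nat.one_le_iff_ne_zero.2 h5, h1 ▸ Finset.mem_range.1 hn,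
        h3⟩
    · rintro ⟨h1, h2, h3, h4⟩
      refine ⟨x.1 * x.2, Finset.mem_range.2 h3, ?_⟩
      rw [Finset.mem_filter, Nat.mem_divisorsAntidiagonal]
      exact ⟨⟨rfl, Nat.mul_ne_zero (by omega) (by omega)⟩, h4⟩
  have e1 : ∑ x ∈ S₁ ∩ (M ×ˢ D), F x = ∑ x ∈ S₁, F x := by
    refine Finset.sum_subset Finset.inter_subset_left (fun x hx hx' => ?_)
    obtain ⟨h1, h2, h3, h4⟩ := (hmem x).1 hx
    rcases hsub x h1 h2 h3 h4 with h | h
    · exact absurd (Finset.mem_inter.2 ⟨hx, Finset.mem_product.2 h⟩) hx'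
    · exact h
  have e2 : ∑ x ∈ S₁ ∩ (M ×ˢ D), F x = ∑ x ∈ M ×ˢ D, F x := by
    refine Finset.sum_subset Finset.inter_subset_right (fun x hx hx' => ?_)
    rw [Finset.mem_product] at hx
    have h1 := hM _ hx.1
    have h2 := hD _ hx.2
    by_cases hB : x.1 * x.2 < B
    · by_cases hP : P x
      · exact absurd (Finset.mem_inter.2 ⟨(hmem x).2 ⟨h1, h2, hB, hP⟩, Finset.mem_product.2 hx⟩) hx'
      · exact hz x.1 hx.1 x.2 hx.2 (Or.inr hP)
    · exact hz x.1 hx.1 x.2 hx.2 (Or.inl (not_lt.1 hB))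
  rw [← e1, e2]

theorem Vau_vc_zero (U j : ℕ) (hj : U ^ 2 < j) : vc U j = 0 := by
  rw [vc, Finset.sum_eq_zero]
  intro x hx
  exfalso
  rw [Finset.mem_filter, Nat.mem_divisorsAntidiagonal] at hx
  obtain ⟨⟨h1, _⟩, h2, h3⟩ := hx
  have : x.1 * x.2 ≤ U * U := Nat.mul_le_mul h2 h3
  nlinarith

/-- **Vaughan's identity for a sum.** `f` vanishes outside of `(U, B)`.

Proof. Multiply `vaughan_pt` by `f n`, sum over `n < B`, and exchange the sums: the pairs `(m, d)` with `m d < B`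
are in the given ranges, and `f (m d) = 0` for the other pairs of the ranges (`vc U j = 0` for `j > U ^ 2`). -/
theorem vaughan (U B : ℕ) (f : ℕ → ℂ) (h0 : ∀ n, n ≤ U → f n = 0) (h1 : ∀ n, B ≤ n → f n = 0) :
    ∑ n ∈ range B, ((vonMangoldt n : ℝ) : ℂ) * f n =
      ∑ m ∈ Icc 1 U, ((moebius m : ℝ) : ℂ) * ∑ d ∈ Ico 1 B, (Real.log d : ℂ) * f (m * d) -
      ∑ j ∈ Icc 1 (U ^ 2), (vc U j : ℂ) * ∑ l ∈ Ico 1 B, f (j * l) +
      ∑ k ∈ Ioo U B, ∑ m ∈ Ioo U B, ((vonMangoldt k : ℝ) : ℂ) * (vb U m : ℂ) * f (k * m) := by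
  have e1 : ∑ m ∈ Icc 1 U, ((moebius m : ℝ) : ℂ) * ∑ d ∈ Ico 1 B, (Real.log d : ℂ) * f (m * d) =
      ∑ n ∈ range B, ∑ x ∈ n.divisorsAntidiagonal.filter (fun x => x.1 ≤ U),
        ((moebius x.1 : ℝ) : ℂ) * (Real.log x.2 : ℂ) * f (x.1 * x.2) := by
    rw [Vau_exch B (fun x => x.1 ≤ U)
      (fun x => ((moebius x.1 : ℝ) : ℂ) * (Real.log x.2 : ℂ) * f (x.1 * x.2)) (Icc 1 U) (Ico 1 B)]
    · refine Finset.sum_congr rfl (fun m _ => ?_)
      rw [Finset.mul_sum]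
      exact Finset.sum_congr rfl (fun d _ => by ring)
    · exact fun m hm => (Finset.mem_Icc.1 hm).1
    · exact fun m hm => (Finset.mem_Ico.1 hm).1
    · intro x hx1 hx2 hB hP
      left
      refine ⟨Finset.mem_Icc.2 ⟨hx1, hP⟩, Finset.mem_Ico.2 ⟨hx2, ?_⟩⟩
      exact lt_of_le_of_lt (Nat.le_mul_of_pos_left _ hx1) hB
    · rintro m hm d _ (h | h)
      · simp only [h1 _ h, mul_zero]
      · exact absurd (Finset.mem_Icc.1 hm).2 h
  have e2 : ∑ j ∈ Icc 1 (U ^ 2), (vc U j : ℂ) * ∑ l ∈ Ico 1 B, f (j * l) =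
      ∑ n ∈ range B, ∑ x ∈ n.divisorsAntidiagonal.filter (fun _ => True),
        (vc U x.1 : ℂ) * f (x.1 * x.2) := by
    rw [Vau_exch B (fun _ => True) (fun x => (vc U x.1 : ℂ) * f (x.1 * x.2)) (Icc 1 (U ^ 2))
      (Ico 1 B)]
    · refine Finset.sum_congr rfl (fun m _ => ?_)
      rw [Finset.mul_sum]
    · exact fun m hm => (Finset.mem_Icc.1 hm).1
    · exact fun m hm => (Finset.mem_Ico.1 hm).1
    · intro x hx1 hx2 hB _
      rcases le_or_gt x.1 (U ^ 2) with h | h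
      · left
        refine ⟨Finset.mem_Icc.2 ⟨hx1, h⟩, Finset.mem_Ico.2 ⟨hx2, ?_⟩⟩
        exact lt_of_le_of_lt (Nat.le_mul_of_pos_left _ hx1) hB
      · right
        simp only [Vau_vc_zero U _ h, Complex.ofReal_zero, zero_mul]
    · rintro m hm d _ (h | h)
      · simp only [h1 _ h, mul_zero]
      · exact absurd trivial h
  have e3 : ∑ k ∈ Ioo U B, ∑ m ∈ Ioo U B, ((vonMangoldt k : ℝ) : ℂ) * (vb U m : ℂ) * f (k * m) =
      ∑ n ∈ range B, ∑ x ∈ n.divisorsAntidiagonal.filter (fun x => U < x.1 ∧ U < x.2),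
        ((vonMangoldt x.1 : ℝ) : ℂ) * (vb U x.2 : ℂ) * f (x.1 * x.2) := by
    rw [Vau_exch B (fun x => U < x.1 ∧ U < x.2)
      (fun x => ((vonMangoldt x.1 : ℝ) : ℂ) * (vb U x.2 : ℂ) * f (x.1 * x.2)) (Ioo U B) (Ioo U B)]
    · intro m hm
      have := (Finset.mem_Ioo.1 hm).1
      omega
    · intro m hm
      have := (Finset.mem_Ioo.1 hm).1
      omega
    · intro x hx1 hx2 hB hP
      left
      refine ⟨Finset.mem_Ioo.2 ⟨hP.1, ?_⟩, Finset.mem_Ioo.2 ⟨hP.2, ?_⟩⟩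
      · exact lt_of_le_of_lt (Nat.le_mul_of_pos_right _ hx2) hB
      · exact lt_of_le_of_lt (Nat.le_mul_of_pos_left _ hx1) hB
    · rintro m hm d hd (h | h)
      · simp only [h1 _ h, mul_zero]
      · exact absurd ⟨(Finset.mem_Ioo.1 hm).1, (Finset.mem_Ioo.1 hd).1⟩ h
  rw [e1, e2, e3, ← Finset.sum_sub_distrib, ← Finset.sum_add_distrib]
  refine Finset.sum_congr rfl (fun n _ => ?_)
  rcases le_or_gt n U with h | h
  · have hz : ∀ x ∈ n.divisorsAntidiagonal, f (x.1 * x.2) = 0 := by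
      intro x hx
      rw [(Nat.mem_divisorsAntidiagonal.1 hx).1]
      exact h0 n h
    rw [h0 n h, mul_zero, Finset.sum_eq_zero, Finset.sum_eq_zero, Finset.sum_eq_zero]
    · simp
    · intro x hx
      rw [hz x (Finset.mem_filter.1 hx).1, mul_zero]
    · intro x hx
      rw [hz x (Finset.mem_filter.1 hx).1, mul_zero]
    · intro x hx
      rw [hz x (Finset.mem_filter.1 hx).1, mul_zero]
  · rw [vaughan_pt U n h]
    push_cast
    rw [add_mul, sub_mul, Finset.sum_mul, Finset.sum_mul, Finset.sum_mul, Finset.filter_true]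
    congr 1
    · congr 1
      · refine Finset.sum_congr rfl (fun x hx => ?_)
        rw [(Nat.mem_divisorsAntidiagonal.1 (Finset.mem_filter.1 hx).1).1]
      · refine Finset.sum_congr rfl (fun x hx => ?_)
        rw [(Nat.mem_divisorsAntidiagonal.1 hx).1]
    · refine Finset.sum_congr rfl (fun x hx => ?_)
      rw [(Nat.mem_divisorsAntidiagonal.1 (Finset.mem_filter.1 hx).1).1]

end Pool.Agent.Wb58c63
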