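import Pool.Agent.W_b58c63_h68.VSep
import Pool.Agent.W_b58c63_h68.Vau
import Pool.Agent.W_b58c63_h68.ArA

/-!
# Type II sums (helper68)
-/

set_option autoImplicit false

noncomputable section

open Finset ArithmeticFunction

namespace Pool.Agent.Wb58c63

/-- `∑_{n < M} Λ(n) ^ 2 ≤ log M ψ(M) ≤ C M log M` (`Chebyshev.psi_le_const_mul_self`). -/
theorem sum_vm_sq : ∃ C : ℝ, 0 < C ∧ ∀ M : ℕ, 2 ≤ M →
    ∑ n ∈ range M, vonMangoldt n ^ 2 ≤ C * M * Real.log M := by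
  refine ⟨Real.log 4 + 4, ?_, fun M hM => ?_⟩
  · have := Real.log_pos (by norm_num : (1 : ℝ) < 4)
    linarith
  have hlogM : 0 ≤ Real.log M := Real.log_natCast_nonneg M
  have h1 : ∑ n ∈ range M, vonMangoldt n ^ 2 ≤ ∑ n ∈ range M, Real.log M * vonMangoldt n := by
    refine Finset.sum_le_sum fun n hn => ?_
    rw [Finset.mem_range] at hn
    have h2 : vonMangoldt n ≤ Real.log M := by
      refine vonMangoldt_le_log.trans ?_
      rcases Nat.eq_zero_or_pos n with rfl | hn0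
      · rw [Nat.cast_zero, Real.log_zero]
        exact hlogM
      · exact Real.log_le_log (by exact_mod_cast hn0) (by exact_mod_cast hn.le)
    rw [sq]
    exact mul_le_mul_of_nonneg_right h2 vonMangoldt_nonneg
  rw [← Finset.mul_sum] at h1
  have h3 : ∑ n ∈ range M, vonMangoldt n ≤ Chebyshev.psi M := by
    rw [Chebyshev.psi_eq_sum_Icc, Nat.floor_natCast]
    refine Finset.sum_le_sum_of_subset_of_nonneg ?_ fun _ _ _ => vonMangoldt_nonneg
    intro n hn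
    rw [Finset.mem_range] at hn
    rw [Finset.mem_Icc]
    omega
  have h4 := Chebyshev.psi_le_const_mul_self (x := M) (Nat.cast_nonneg M)
  calc ∑ n ∈ range M, vonMangoldt n ^ 2 ≤ Real.log M * ∑ n ∈ range M, vonMangoldt n := h1
    _ ≤ Real.log M * ((Real.log 4 + 4) * M) :=
        mul_le_mul_of_nonneg_left (h3.trans h4) hlogM
    _ = (Real.log 4 + 4) * M * Real.log M := by ring

/-- coefficients -/
def VTyB_a (U K x : ℕ) : ℂ := if U < x ∧ K ≤ x then ((vonMangoldt x : ℝ) : ℂ) else 0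

/-- coefficients -/
def VTyB_b (U m : ℕ) : ℂ := if U < m then (vb U m : ℂ) else 0

theorem VTyB_eq (Y : ℝ) (U B K : ℕ) (hK : 1 ≤ K) (F : ℕ → ℂ) (hF : ∀ n : ℕ, 2 * Y ≤ n → F n = 0) :
    ∑ x ∈ (Ioo U B).filter (fun x => K ≤ x ∧ x < 2 * K), ∑ m ∈ Ioo U B,
      ((vonMangoldt x : ℝ) : ℂ) * (vb U m : ℂ) * F (x * m) =
    ∑ x ∈ Ico 1 (min (2 * K) B), ∑ m ∈ Ico 1 (min ⌈2 * Y / K⌉₊ B),
      VTyB_a U K x * VTyB_b U m * F (x * m) := by
  have hK0 : (0 : ℝ) < K := by exact_mod_cast hK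
  have hin : ∀ x, K ≤ x → ∀ c : ℂ, ∑ m ∈ Ioo U B, c * (vb U m : ℂ) * F (x * m) =
      ∑ m ∈ Ico 1 (min ⌈2 * Y / K⌉₊ B), c * VTyB_b U m * F (x * m) := by
    intro x hx c
    calc ∑ m ∈ Ioo U B, c * (vb U m : ℂ) * F (x * m)
        = ∑ m ∈ Ioo U B, c * VTyB_b U m * F (x * m) := by
          refine Finset.sum_congr rfl fun m hm => ?_
          rw [Finset.mem_Ioo] at hm
          unfold VTyB_b
          rw [if_pos hm.1]
      _ = ∑ m ∈ Ico 1 B, c * VTyB_b U m * F (x * m) := by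
          refine Finset.sum_subset (fun m hm => ?_) fun m hm hm' => ?_
          · rw [Finset.mem_Ioo] at hm
            rw [Finset.mem_Ico]
            omega
          · rw [Finset.mem_Ico] at hm
            rw [Finset.mem_Ioo] at hm'
            unfold VTyB_b
            rw [if_neg (by omega), mul_zero, zero_mul]
      _ = ∑ m ∈ Ico 1 (min ⌈2 * Y / K⌉₊ B), c * VTyB_b U m * F (x * m) := by
          symm
          refine Finset.sum_subset (fun m hm => ?_) fun m hm hm' => ?_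
          · rw [Finset.mem_Ico] at hm ⊢
            exact ⟨hm.1, hm.2.trans_le (min_le_right _ _)⟩
          · rw [Finset.mem_Ico] at hm hm'
            have h1 : ⌈2 * Y / K⌉₊ ≤ m := by
              by_contra hcon
              push Not at hcon
              exact hm' ⟨hm.1, lt_min hcon hm.2⟩
            have h2 : 2 * Y / K ≤ m := Nat.ceil_le.1 h1
            rw [hF, mul_zero]
            rw [div_le_iff₀ hK0] at h2
            push_cast
            have h3 : (K : ℝ) ≤ x := by exact_mod_cast hx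
            have h4 : (0 : ℝ) ≤ m := Nat.cast_nonneg m
            nlinarith
  calc ∑ x ∈ (Ioo U B).filter (fun x => K ≤ x ∧ x < 2 * K), ∑ m ∈ Ioo U B,
        ((vonMangoldt x : ℝ) : ℂ) * (vb U m : ℂ) * F (x * m)
      = ∑ x ∈ (Ioo U B).filter (fun x => K ≤ x ∧ x < 2 * K),
          ∑ m ∈ Ico 1 (min ⌈2 * Y / K⌉₊ B), VTyB_a U K x * VTyB_b U m * F (x * m) := by
        refine Finset.sum_congr rfl fun x hx => ?_
        rw [Finset.mem_filter, Finset.mem_Ioo] at hx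
        have e : VTyB_a U K x = ((vonMangoldt x : ℝ) : ℂ) := by
          unfold VTyB_a
          rw [if_pos ⟨hx.1.1, hx.2.1⟩]
        rw [e]
        exact hin x hx.2.1 _
    _ = ∑ x ∈ Ico 1 (min (2 * K) B), ∑ m ∈ Ico 1 (min ⌈2 * Y / K⌉₊ B),
          VTyB_a U K x * VTyB_b U m * F (x * m) := by
        refine Finset.sum_subset (fun x hx => ?_) fun x hx hx' => ?_
        · rw [Finset.mem_filter, Finset.mem_Ioo] at hx
          rw [Finset.mem_Ico]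
          exact ⟨by omega, lt_min hx.2.2 hx.1.2⟩
        · rw [Finset.mem_Ico] at hx
          rw [Finset.mem_filter, Finset.mem_Ioo] at hx'
          have h1 := lt_min_iff.1 hx.2
          refine Finset.sum_eq_zero fun m _ => ?_
          have e : VTyB_a U K x = 0 := by
            unfold VTyB_a
            rw [if_neg]
            rintro ⟨h2, h3⟩
            exact hx' ⟨⟨h2, h1.2⟩, h3, h1.1⟩
          rw [e, zero_mul, zero_mul]

theorem VTyB_zero (Y : ℝ) (U B K : ℕ) (F : ℕ → ℂ) (hF : ∀ n : ℕ, 2 * Y ≤ n → F n = 0)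
    (h : B ≤ K ∨ 2 * K ≤ U ∨ 2 * Y ≤ K * U) :
    ∑ x ∈ (Ioo U B).filter (fun x => K ≤ x ∧ x < 2 * K), ∑ m ∈ Ioo U B,
      ((vonMangoldt x : ℝ) : ℂ) * (vb U m : ℂ) * F (x * m) = 0 := by
  refine Finset.sum_eq_zero fun x hx => Finset.sum_eq_zero fun m hm => ?_
  rw [Finset.mem_filter, Finset.mem_Ioo] at hx
  rw [Finset.mem_Ioo] at hm
  rcases h with h | h | h
  · omega
  · omega
  · rw [hF, mul_zero]
    refine h.trans ?_
    have h1 : K * U ≤ x * m := Nat.mul_le_mul hx.2.1 hm.1.le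
    exact_mod_cast h1

theorem VTyB_log {Y : ℝ} (hY : 2 ≤ Y) : 1 ≤ 2 * Real.log Y ∧ Real.log (2 * Y) ≤ 2 * Real.log Y := by
  have h1 := Real.log_two_gt_d9
  have h2 : Real.log 2 ≤ Real.log Y := Real.log_le_log (by norm_num) hY
  have h3 : Real.log (2 * Y) = Real.log 2 + Real.log Y := Real.log_mul (by norm_num) (by linarith)
  constructor <;> linarith

theorem VTyB_suma {C1 : ℝ} (hC1 : 0 < C1)
    (h1 : ∀ M : ℕ, 2 ≤ M → ∑ n ∈ range M, vonMangoldt n ^ 2 ≤ C1 * M * Real.log M)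
    {Y : ℝ} (hY : 2 ≤ Y) (U B K : ℕ) (hK : 1 ≤ K) (hKY : (K : ℝ) ≤ 2 * Y) :
    ∑ x ∈ Ico 1 (min (2 * K) B), ‖VTyB_a U K x‖ ^ 2 ≤ 6 * C1 * K * Real.log Y := by
  have e1 : ∑ x ∈ Ico 1 (min (2 * K) B), ‖VTyB_a U K x‖ ^ 2 ≤
      ∑ n ∈ range (2 * K), vonMangoldt n ^ 2 := by
    refine (Finset.sum_le_sum (g := fun n => vonMangoldt n ^ 2) fun x _ => ?_).trans ?_
    · unfold VTyB_a
      split_ifs
      · rw [Complex.norm_real, Real.norm_eq_abs, sq_abs]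
      · rw [norm_zero]
        simp only [ne_eq, OfNat.ofNat_ne_zero, not_false_eq_true, zero_pow]
        positivity
    · refine Finset.sum_le_sum_of_subset_of_nonneg (fun x hx => ?_) fun _ _ _ => sq_nonneg _
      rw [Finset.mem_Ico] at hx
      rw [Finset.mem_range]
      exact (lt_min_iff.1 hx.2).1
  have e2 := h1 (2 * K) (by omega)
  have hK0 : (0 : ℝ) < K := by exact_mod_cast hK
  have e3 : Real.log ((2 * K : ℕ) : ℝ) ≤ 3 * Real.log Y := by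
    have e4 : ((2 * K : ℕ) : ℝ) ≤ Y ^ 3 := by
      push_cast
      have f1 : 4 ≤ Y ^ 2 := by nlinarith
      have f2 : 4 * Y ≤ Y ^ 2 * Y := mul_le_mul_of_nonneg_right f1 (by linarith)
      have f3 : Y ^ 2 * Y = Y ^ 3 := by ring
      linarith
    have e5 : Real.log (Y ^ 3) = 3 * Real.log Y := by
      rw [Real.log_pow]
      norm_num
    rw [← e5]
    apply Real.log_le_log _ e4
    push_cast
    positivity
  refine e1.trans (e2.trans ?_)
  push_cast at e3 ⊢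
  have e6 : 0 ≤ C1 * (2 * (K : ℝ)) := by positivity
  have e7 := mul_le_mul_of_nonneg_left e3 e6
  linarith

theorem VTyB_sumb {Y : ℝ} (hY : 2 ≤ Y) (U B K : ℕ) (hK : 1 ≤ K) :
    ∑ m ∈ Ico 1 (min ⌈2 * Y / K⌉₊ B), ‖VTyB_b U m‖ ^ 2 ≤ 128 * (Y / K) * Real.log Y ^ 3 := by
  have hK0 : (0 : ℝ) < K := by exact_mod_cast hK
  have hK1 : (1 : ℝ) ≤ K := by exact_mod_cast hK
  obtain ⟨hl1, hl2⟩ := VTyB_log hY
  have hY0 : 0 < Y := by linarith
  have hr : 0 ≤ 128 * (Y / K) * Real.log Y ^ 3 := by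
    have : 0 ≤ Real.log Y := by linarith
    positivity
  have e1 : ∑ m ∈ Ico 1 (min ⌈2 * Y / K⌉₊ B), ‖VTyB_b U m‖ ^ 2 ≤
      ∑ m ∈ Ico 1 (min ⌈2 * Y / K⌉₊ B), (m.divisors.card : ℝ) ^ 2 := by
    refine Finset.sum_le_sum fun m _ => ?_
    unfold VTyB_b
    split_ifs
    · rw [Complex.norm_real, Real.norm_eq_abs]
      exact pow_le_pow_left₀ (abs_nonneg _) (abs_vb_le U m) 2
    · rw [norm_zero, zero_pow two_ne_zero]
      positivity
  refine e1.trans ?_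
  rcases Nat.lt_or_ge 1 (min ⌈2 * Y / K⌉₊ B) with h | h
  · obtain ⟨N, hN⟩ : ∃ N, min ⌈2 * Y / K⌉₊ B = N + 1 := ⟨min ⌈2 * Y / K⌉₊ B - 1, by omega⟩
    have hN1 : 1 ≤ N := by omega
    have e2 : Ico 1 (N + 1) = Icc 1 N := by
      ext m
      rw [Finset.mem_Ico, Finset.mem_Icc]
      omega
    rw [hN, e2]
    refine (sum_tau_sq N hN1).trans ?_
    have hNle : (N : ℝ) ≤ 2 * Y / K := by
      have h3 : N + 1 ≤ ⌈2 * Y / K⌉₊ := by
        rw [← hN]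
        exact min_le_left _ _
      have h4 : (⌈2 * Y / K⌉₊ : ℝ) < 2 * Y / K + 1 := Nat.ceil_lt_add_one (by positivity)
      have h5 : ((N + 1 : ℕ) : ℝ) ≤ (⌈2 * Y / K⌉₊ : ℝ) := by exact_mod_cast h3
      push_cast at h5
      linarith
    have hN0 : (0 : ℝ) < N := by exact_mod_cast hN1
    have h6 : Real.log N ≤ Real.log (2 * Y) := by
      apply Real.log_le_log hN0
      exact hNle.trans (div_le_self (by positivity) hK1)
    have h7 : 1 + Real.log N ≤ 4 * Real.log Y := by linarith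
    have h8 : 0 ≤ 1 + Real.log N := by
      have := Real.log_natCast_nonneg N
      linarith
    have h9 : (1 + Real.log N) ^ 3 ≤ (4 * Real.log Y) ^ 3 := pow_le_pow_left₀ h8 h7 3
    calc (N : ℝ) * (1 + Real.log N) ^ 3 ≤ (2 * Y / K) * (4 * Real.log Y) ^ 3 :=
          mul_le_mul hNle h9 (by positivity) (by positivity)
      _ = 128 * (Y / K) * Real.log Y ^ 3 := by ring
  · rw [Finset.Ico_eq_empty (by omega), Finset.sum_empty]
    exact hr

theorem VTyB_alg {Y K U Q : ℝ} (hY : 2 ≤ Y) (hK : 1 ≤ K) (hU : 1 ≤ U) (hQ : 1 ≤ Q)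
    (h1 : K ≤ 2 * Y) (h2 : K * U ≤ 2 * Y) (h3 : U ≤ 2 * K) :
    Y * ((2 * K + Q ^ 2) * (2 * Y / K + 1 + Q ^ 2)) ≤
      8 * (Y + Q * Y / Real.sqrt U + Q ^ 2 * Real.sqrt Y) ^ 2 := by
  have hK0 : 0 < K := by linarith
  have hU0 : 0 < U := by linarith
  have hY0 : 0 < Y := by linarith
  have hQ0 : 0 < Q := by linarith
  have e1 : Y ^ 2 + Q ^ 2 * Y ^ 2 / U + Q ^ 4 * Y ≤
      (Y + Q * Y / Real.sqrt U + Q ^ 2 * Real.sqrt Y) ^ 2 := by
    have f1 : (Q * Y / Real.sqrt U) ^ 2 = Q ^ 2 * Y ^ 2 / U := by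
      rw [div_pow, mul_pow, Real.sq_sqrt hU0.le]
    have f2 : (Q ^ 2 * Real.sqrt Y) ^ 2 = Q ^ 4 * Y := by
      rw [mul_pow, Real.sq_sqrt hY0.le]
      ring
    have f3 : 0 ≤ Q * Y / Real.sqrt U := by positivity
    have f4 : 0 ≤ Q ^ 2 * Real.sqrt Y := by positivity
    rw [← f1, ← f2]
    have f5 := mul_nonneg hY0.le f3
    have f6 := mul_nonneg hY0.le f4
    have f7 := mul_nonneg f3 f4
    linear_combination 2 * f5 + 2 * f6 + 2 * f7
  have e2 : Y * ((2 * K + Q ^ 2) * (2 * Y / K + 1 + Q ^ 2)) =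
      4 * Y ^ 2 + 2 * K * Y + 2 * K * Y * Q ^ 2 + 2 * Y ^ 2 * Q ^ 2 / K + Y * Q ^ 2 + Y * Q ^ 4 := by
    field_simp
    ring
  have g1 : 2 * K * Y ≤ 4 * Y ^ 2 := by nlinarith
  have g2 : 2 * K * Y * Q ^ 2 ≤ 4 * (Q ^ 2 * Y ^ 2 / U) := by
    rw [← mul_div_assoc, le_div_iff₀ hU0]
    have := mul_le_mul_of_nonneg_left h2 (by positivity : 0 ≤ 2 * Y * Q ^ 2)
    linarith
  have g3 : 2 * Y ^ 2 * Q ^ 2 / K ≤ 4 * (Q ^ 2 * Y ^ 2 / U) := by
    rw [← mul_div_assoc, div_le_div_iff₀ hK0 hU0]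
    have := mul_le_mul_of_nonneg_left h3 (by positivity : 0 ≤ 2 * Y ^ 2 * Q ^ 2)
    linarith
  have g4 : Y * Q ^ 2 ≤ Y * Q ^ 4 := by
    apply mul_le_mul_of_nonneg_left _ hY0.le
    exact pow_le_pow_right₀ hQ (by norm_num)
  have g5 : 0 ≤ Q ^ 4 * Y := by positivity
  rw [e2]
  linarith

/-- **One dyadic block**: `k ∈ [K, 2 K)`, `m < N`, where `U ≤ 2 K`, `2 ^ ...`: coefficients `Λ` and `vb U`.

Proof. `typeII_block` with `a = Λ` restricted to `Ico K (2 K)` and to `Ioo U B`, `b = vb U` restricted to `Ioo U B`;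
the pairs with `k m ≥ 2 Y` do not contribute, so `m` may be restricted to `m < N := min (⌈2 Y / K⌉₊, B)`.
`∑ ‖a‖ ^ 2 ≤ C K log Y` (`sum_vm_sq`), `∑ ‖b‖ ^ 2 ≤ C (Y / K) (log Y) ^ 3` (`abs_vb_le`, `sum_tau_sq`), so the square root is at
most `C (log Y) ^ 2 √Y √((2 K + Q ^ 2) (2 Y / K + 1 + Q ^ 2)) ≤ C (log Y) ^ 2 (Y + Q √Y (√K + √(Y / K)) + Q ^ 2 √Y)`. Here
`U / 2 ≤ K ≤ 2 Y / U` (otherwise the block is empty), so `√K, √(Y / K) ≤ 2 √(Y / U)`. -/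
theorem typeII_dyadic (k : ℕ) : ∃ C : ℝ, 0 < C ∧ ∀ (Y : ℝ) (U B Q K : ℕ), 2 ≤ Y → 1 ≤ U →
    2 * Y ≤ B → (B : ℝ) ≤ 2 * Y + 1 → 1 ≤ Q → 1 ≤ K →
      ∑ q ∈ Icc 1 Q, (q : ℝ) / q.totient * ∑ χ ∈ prim q,
        ‖∑ x ∈ (Ioo U B).filter (fun x => K ≤ x ∧ x < 2 * K), ∑ m ∈ Ioo U B,
          ((vonMangoldt x : ℝ) : ℂ) * (vb U m : ℂ) *
            ((aw k Y (x * m) : ℂ) * χ ((x * m : ℕ) : ZMod q))‖ ≤
        C * Real.log Y ^ 2 * (Y + Q * Y / Real.sqrt U + Q ^ 2 * Real.sqrt Y) := by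
  obtain ⟨C0, hC0, hblock⟩ := typeII_block k
  obtain ⟨C1, hC1, hvm⟩ := sum_vm_sq
  refine ⟨C0 * (6144 * C1 + 1), by positivity, fun Y U B Q K hY hU hB1 hB2 hQ hK => ?_⟩
  have hY0 : 0 < Y := by linarith
  have hl : 0 ≤ Real.log Y := Real.log_nonneg (by linarith)
  have hF : ∀ (q : ℕ) (χ : DirichletCharacter ℂ q) (n : ℕ), 2 * Y ≤ n →
      (fun n : ℕ => (aw k Y n : ℂ) * χ ((n : ℕ) : ZMod q)) n = 0 := by
    intro q χ n hn
    have h1 : aw k Y n = 0 := by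
      by_contra hcon
      exact absurd (aw_support k Y (by linarith) n hcon).2 (not_lt.2 hn)
    simp only [h1, Complex.ofReal_zero, zero_mul]
  have hT : 0 ≤ Y + Q * Y / Real.sqrt U + (Q : ℝ) ^ 2 * Real.sqrt Y := by positivity
  by_cases hcase : B ≤ K ∨ 2 * K ≤ U ∨ 2 * Y ≤ K * U
  · have h1 : ∀ q ∈ Icc 1 Q, (q : ℝ) / q.totient * ∑ χ ∈ prim q,
        ‖∑ x ∈ (Ioo U B).filter (fun x => K ≤ x ∧ x < 2 * K), ∑ m ∈ Ioo U B,
          ((vonMangoldt x : ℝ) : ℂ) * (vb U m : ℂ) *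
            ((aw k Y (x * m) : ℂ) * χ ((x * m : ℕ) : ZMod q))‖ = 0 := by
      intro q _
      rw [Finset.sum_eq_zero, mul_zero]
      intro χ _
      rw [norm_eq_zero]
      exact VTyB_zero Y U B K _ (hF q χ) hcase
    rw [Finset.sum_eq_zero h1]
    positivity
  · push Not at hcase
    obtain ⟨hc1, hc2, hc3⟩ := hcase
    have hKY : (K : ℝ) ≤ 2 * Y := by
      have h1 : ((K + 1 : ℕ) : ℝ) ≤ B := by exact_mod_cast hc1
      push_cast at h1
      linarith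
    have hM : ((min (2 * K) B : ℕ) : ℝ) ≤ 2 * Y + 1 := by
      refine le_trans ?_ hB2
      exact_mod_cast min_le_right _ _
    have hN : ((min ⌈2 * Y / K⌉₊ B : ℕ) : ℝ) ≤ 2 * Y + 1 := by
      refine le_trans ?_ hB2
      exact_mod_cast min_le_right _ _
    have h1 := hblock Y Q (min (2 * K) B) (min ⌈2 * Y / K⌉₊ B) (by linarith) hQ hM hN
      (VTyB_a U K) (VTyB_b U)
    have h2 : ∑ q ∈ Icc 1 Q, (q : ℝ) / q.totient * ∑ χ ∈ prim q,
        ‖∑ x ∈ (Ioo U B).filter (fun x => K ≤ x ∧ x < 2 * K), ∑ m ∈ Ioo U B,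
          ((vonMangoldt x : ℝ) : ℂ) * (vb U m : ℂ) *
            ((aw k Y (x * m) : ℂ) * χ ((x * m : ℕ) : ZMod q))‖ =
        ∑ q ∈ Icc 1 Q, (q : ℝ) / q.totient * ∑ χ ∈ prim q,
          ‖∑ x ∈ Ico 1 (min (2 * K) B), ∑ m ∈ Ico 1 (min ⌈2 * Y / K⌉₊ B),
            VTyB_a U K x * VTyB_b U m * ((aw k Y (x * m) : ℂ) * χ ((x * m : ℕ) : ZMod q))‖ := by
      refine Finset.sum_congr rfl fun q _ => ?_
      congr 1
      refine Finset.sum_congr rfl fun χ _ => ?_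
      congr 1
      exact VTyB_eq Y U B K hK (fun n : ℕ => (aw k Y n : ℂ) * χ ((n : ℕ) : ZMod q)) (hF q χ)
    rw [h2]
    refine h1.trans ?_
    rw [mul_assoc C0, mul_assoc C0]
    refine mul_le_mul_of_nonneg_left ?_ hC0.le
    have ha := VTyB_suma hC1 hvm hY U B K hK hKY
    have hb := VTyB_sumb hY U B K hK
    have hK0 : (0 : ℝ) < K := by exact_mod_cast hK
    have hK1 : (1 : ℝ) ≤ K := by exact_mod_cast hK
    have hU1 : (1 : ℝ) ≤ U := by exact_mod_cast hU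
    have hQ1 : (1 : ℝ) ≤ Q := by exact_mod_cast hQ
    have hM2 : ((min (2 * K) B : ℕ) : ℝ) ≤ 2 * K := by
      have : min (2 * K) B ≤ 2 * K := min_le_left _ _
      exact_mod_cast this
    have hN2 : ((min ⌈2 * Y / K⌉₊ B : ℕ) : ℝ) ≤ 2 * Y / K + 1 := by
      have h4 : (⌈2 * Y / K⌉₊ : ℝ) < 2 * Y / K + 1 := Nat.ceil_lt_add_one (by positivity)
      have h5 : ((min ⌈2 * Y / K⌉₊ B : ℕ) : ℝ) ≤ (⌈2 * Y / K⌉₊ : ℝ) := by
        exact_mod_cast min_le_left _ _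
      linarith
    have hKU : (U : ℝ) ≤ 2 * K := by exact_mod_cast hc2.le
    have halg := VTyB_alg hY hK1 hU1 hQ1 hKY hc3.le hKU
    rw [Real.sqrt_le_iff]
    refine ⟨by positivity, ?_⟩
    have hsa : 0 ≤ ∑ x ∈ Ico 1 (min (2 * K) B), ‖VTyB_a U K x‖ ^ 2 :=
      Finset.sum_nonneg fun _ _ => by positivity
    have hsb : 0 ≤ ∑ m ∈ Ico 1 (min ⌈2 * Y / K⌉₊ B), ‖VTyB_b U m‖ ^ 2 :=
      Finset.sum_nonneg fun _ _ => by positivity
    calc (((min (2 * K) B : ℕ) : ℝ) + (Q : ℝ) ^ 2) * (((min ⌈2 * Y / K⌉₊ B : ℕ) : ℝ) + (Q : ℝ) ^ 2) *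
          (∑ x ∈ Ico 1 (min (2 * K) B), ‖VTyB_a U K x‖ ^ 2) *
          (∑ m ∈ Ico 1 (min ⌈2 * Y / K⌉₊ B), ‖VTyB_b U m‖ ^ 2)
        ≤ ((2 * K + (Q : ℝ) ^ 2) * (2 * Y / K + 1 + (Q : ℝ) ^ 2)) * (6 * C1 * K * Real.log Y) *
          (128 * (Y / K) * Real.log Y ^ 3) := by
          refine mul_le_mul (mul_le_mul (mul_le_mul ?_ ?_ ?_ ?_) ha hsa ?_) hb hsb ?_
          · linarith
          · linarith
          · positivity
          · positivity
          · positivity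
          · positivity
      _ = 768 * C1 * Real.log Y ^ 4 *
          (Y * ((2 * K + (Q : ℝ) ^ 2) * (2 * Y / K + 1 + (Q : ℝ) ^ 2))) := by
          field_simp
          ring
      _ ≤ 768 * C1 * Real.log Y ^ 4 *
          (8 * (Y + Q * Y / Real.sqrt U + (Q : ℝ) ^ 2 * Real.sqrt Y) ^ 2) :=
          mul_le_mul_of_nonneg_left halg (by positivity)
      _ = (6144 * C1) * (Real.log Y ^ 2 *
          (Y + Q * Y / Real.sqrt U + (Q : ℝ) ^ 2 * Real.sqrt Y)) ^ 2 := by ring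
      _ ≤ (6144 * C1 + 1) ^ 2 * (Real.log Y ^ 2 *
          (Y + Q * Y / Real.sqrt U + (Q : ℝ) ^ 2 * Real.sqrt Y)) ^ 2 := by
          refine mul_le_mul_of_nonneg_right ?_ (by positivity)
          nlinarith
      _ = ((6144 * C1 + 1) * Real.log Y ^ 2 *
          (Y + Q * Y / Real.sqrt U + (Q : ℝ) ^ 2 * Real.sqrt Y)) ^ 2 := by ring

theorem VTyB_L {Y : ℝ} (hY : 2 ≤ Y) {B : ℕ} (hB : (B : ℝ) ≤ 2 * Y + 1) (hB0 : B ≠ 0) :
    ((Nat.log 2 B + 1 : ℕ) : ℝ) ≤ 8 * Real.log Y := by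
  obtain ⟨hl1, hl2⟩ := VTyB_log hY
  have h2 : (2 : ℝ) ^ (Nat.log 2 B) ≤ B := by exact_mod_cast Nat.pow_log_le_self 2 hB0
  have h3 : (Nat.log 2 B : ℝ) * Real.log 2 ≤ 3 * Real.log Y := by
    have h4 : Real.log ((2 : ℝ) ^ (Nat.log 2 B)) ≤ Real.log (Y ^ 3) := by
      apply Real.log_le_log (by positivity)
      refine h2.trans (hB.trans ?_)
      have f1 : 4 ≤ Y ^ 2 := by nlinarith
      have f2 : 4 * Y ≤ Y ^ 2 * Y := mul_le_mul_of_nonneg_right f1 (by linarith)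
      have f3 : Y ^ 2 * Y = Y ^ 3 := by ring
      linarith
    rw [Real.log_pow, Real.log_pow] at h4
    norm_num at h4
    exact h4
  have h5 := Real.log_two_gt_d9
  have h6 : (0 : ℝ) ≤ Nat.log 2 B := Nat.cast_nonneg _
  push_cast
  nlinarith

theorem VTyB_split (U B : ℕ) (G : ℕ → ℂ) :
    ∑ x ∈ Ioo U B, G x = ∑ i ∈ range (Nat.log 2 B + 1),
      ∑ x ∈ (Ioo U B).filter (fun x => 2 ^ i ≤ x ∧ x < 2 * 2 ^ i), G x := by
  have h1 : ∀ i ∈ range (Nat.log 2 B + 1),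
      ∑ x ∈ (Ioo U B).filter (fun x => 2 ^ i ≤ x ∧ x < 2 * 2 ^ i), G x =
      ∑ x ∈ (Ioo U B).filter (fun x => Nat.log 2 x = i), G x := by
    intro i _
    refine Finset.sum_congr ?_ fun _ _ => rfl
    refine Finset.filter_congr fun x hx => ?_
    rw [Finset.mem_Ioo] at hx
    have hx0 : x ≠ 0 := by omega
    constructor
    · rintro ⟨h2, h3⟩
      rw [← pow_succ'] at h3
      exact (Nat.log_eq_iff (Or.inr ⟨by norm_num, hx0⟩)).2 ⟨h2, h3⟩
    · intro h2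
      have h3 := (Nat.log_eq_iff (Or.inr ⟨by norm_num, hx0⟩)).1 h2
      rw [← pow_succ']
      exact h3
  rw [Finset.sum_congr rfl h1]
  symm
  apply Finset.sum_fiberwise_of_maps_to
  intro x hx
  rw [Finset.mem_Ioo] at hx
  rw [Finset.mem_range]
  have := Nat.log_mono_right (b := 2) hx.2.le
  omega

/-- **Type II sums of Vaughan's identity**: sum over the dyadic blocks `K = 2 ^ i < B`, at most `C log Y` of them. -/
theorem typeII (k : ℕ) : ∃ C : ℝ, 0 < C ∧ ∀ (Y : ℝ) (U B Q : ℕ), 2 ≤ Y → 1 ≤ U →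
    2 * Y ≤ B → (B : ℝ) ≤ 2 * Y + 1 → 1 ≤ Q →
      ∑ q ∈ Icc 1 Q, (q : ℝ) / q.totient * ∑ χ ∈ prim q,
        ‖∑ x ∈ Ioo U B, ∑ m ∈ Ioo U B, ((vonMangoldt x : ℝ) : ℂ) * (vb U m : ℂ) *
            ((aw k Y (x * m) : ℂ) * χ ((x * m : ℕ) : ZMod q))‖ ≤
        C * Real.log Y ^ 3 * (Y + Q * Y / Real.sqrt U + Q ^ 2 * Real.sqrt Y) := by
  obtain ⟨C, hC, hd⟩ := typeII_dyadic k
  refine ⟨8 * C, by positivity, fun Y U B Q hY hU hB1 hB2 hQ => ?_⟩
  have hY0 : 0 < Y := by linarith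
  have hl : 0 ≤ Real.log Y := Real.log_nonneg (by linarith)
  have hB0 : B ≠ 0 := by
    rintro rfl
    norm_num at hB1
    linarith
  have hT : 0 ≤ Y + Q * Y / Real.sqrt U + (Q : ℝ) ^ 2 * Real.sqrt Y := by positivity
  calc ∑ q ∈ Icc 1 Q, (q : ℝ) / q.totient * ∑ χ ∈ prim q,
        ‖∑ x ∈ Ioo U B, ∑ m ∈ Ioo U B, ((vonMangoldt x : ℝ) : ℂ) * (vb U m : ℂ) *
            ((aw k Y (x * m) : ℂ) * χ ((x * m : ℕ) : ZMod q))‖
      ≤ ∑ q ∈ Icc 1 Q, (q : ℝ) / q.totient * ∑ χ ∈ prim q, ∑ i ∈ range (Nat.log 2 B + 1),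
          ‖∑ x ∈ (Ioo U B).filter (fun x => 2 ^ i ≤ x ∧ x < 2 * 2 ^ i), ∑ m ∈ Ioo U B,
            ((vonMangoldt x : ℝ) : ℂ) * (vb U m : ℂ) *
            ((aw k Y (x * m) : ℂ) * χ ((x * m : ℕ) : ZMod q))‖ := by
        refine Finset.sum_le_sum fun q _ => ?_
        refine mul_le_mul_of_nonneg_left ?_ (by positivity)
        refine Finset.sum_le_sum fun χ _ => ?_
        rw [VTyB_split U B]
        exact norm_sum_le _ _
    _ = ∑ i ∈ range (Nat.log 2 B + 1), ∑ q ∈ Icc 1 Q, (q : ℝ) / q.totient * ∑ χ ∈ prim q,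
          ‖∑ x ∈ (Ioo U B).filter (fun x => 2 ^ i ≤ x ∧ x < 2 * 2 ^ i), ∑ m ∈ Ioo U B,
            ((vonMangoldt x : ℝ) : ℂ) * (vb U m : ℂ) *
            ((aw k Y (x * m) : ℂ) * χ ((x * m : ℕ) : ZMod q))‖ := by
        rw [Finset.sum_comm]
        refine Finset.sum_congr rfl fun q _ => ?_
        rw [Finset.sum_comm, Finset.mul_sum]
    _ ≤ ∑ _i ∈ range (Nat.log 2 B + 1),
          C * Real.log Y ^ 2 * (Y + Q * Y / Real.sqrt U + Q ^ 2 * Real.sqrt Y) := by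
        refine Finset.sum_le_sum fun i _ => ?_
        exact hd Y U B Q (2 ^ i) hY hU hB1 hB2 hQ Nat.one_le_two_pow
    _ = ((Nat.log 2 B + 1 : ℕ) : ℝ) *
          (C * Real.log Y ^ 2 * (Y + Q * Y / Real.sqrt U + Q ^ 2 * Real.sqrt Y)) := by
        rw [Finset.sum_const, Finset.card_range, nsmul_eq_mul]
    _ ≤ (8 * Real.log Y) *
          (C * Real.log Y ^ 2 * (Y + Q * Y / Real.sqrt U + Q ^ 2 * Real.sqrt Y)) :=
        mul_le_mul_of_nonneg_right (VTyB_L hY hB2 hB0) (by positivity)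
    _ = 8 * C * Real.log Y ^ 3 * (Y + Q * Y / Real.sqrt U + Q ^ 2 * Real.sqrt Y) := by ring

end Pool.Agent.Wb58c63
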