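import Pool.Agent.W_b58c63_h68.VTyA
import Pool.Agent.W_b58c63_h68.VTyB

/-!
# Moduli of medium size (helper68)
-/

set_option autoImplicit false

noncomputable section

open Finset ArithmeticFunction

namespace Pool.Agent.Wb58c63

/-- Primes and prime powers: `TT` differs from the sum with `Λ` by at most `2 ^ k (ψ (2 Y) - θ (2 Y))`
(`Chebyshev.psi_sub_theta_le`, `Chebyshev.psi_sub_theta_eq_sum_not_prime`). -/
theorem TT_vm (k : ℕ) : ∃ C : ℝ, 0 < C ∧ ∀ (Y : ℝ) (B r : ℕ), 2 ≤ Y → 2 * Y ≤ B →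
    (B : ℝ) ≤ 2 * Y + 1 → ∀ χ : DirichletCharacter ℂ r,
      ‖TT k Y χ - ∑ n ∈ range B, ((vonMangoldt n : ℝ) : ℂ) * ((aw k Y n : ℂ) * χ (n : ZMod r))‖ ≤
        C * Real.sqrt Y * Real.log Y := by
  obtain ⟨C, hC0, hC⟩ := arb_D_le
  refine ⟨2 ^ k * (4 * C) + 1, by positivity, fun Y B r hY hYB hBY χ => ?_⟩
  have hY1 : 1 ≤ Y := by linarith
  have hY0 : 0 < Y := by linarith
  have e1 : TT k Y χ = ∑ n ∈ range B, if n.Prime then
      (((vonMangoldt n : ℝ) : ℂ) * ((aw k Y n : ℂ) * χ (n : ZMod r))) else 0 := by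
    rw [← Finset.sum_filter]
    unfold TT
    have hsub : Pr Y ⊆ (range B).filter Nat.Prime := by
      intro p hp
      rw [mem_Pr] at hp
      rw [mem_filter, mem_range]
      refine ⟨?_, hp.1⟩
      have : (p : ℝ) < B := hp.2.trans_le hYB
      exact_mod_cast this
    rw [← Finset.sum_subset hsub]
    · refine Finset.sum_congr rfl fun p hp => ?_
      rw [mem_Pr] at hp
      rw [vonMangoldt_apply_prime hp.1]
      unfold ap
      push_cast
      ring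
    · intro p hp hp'
      rw [mem_filter] at hp
      have h1 : aw k Y p = 0 := by
        by_contra h
        exact hp' (mem_Pr.2 ⟨hp.2, (aw_support k Y hY1 p h).2⟩)
      rw [h1]
      simp
  have e2 : TT k Y χ - ∑ n ∈ range B, ((vonMangoldt n : ℝ) : ℂ) *
      ((aw k Y n : ℂ) * χ (n : ZMod r)) =
      ∑ n ∈ range B, -((arb_cc n : ℂ) * ((aw k Y n : ℂ) * χ (n : ZMod r))) := by
    rw [e1, ← Finset.sum_sub_distrib]
    refine Finset.sum_congr rfl fun n _ => ?_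
    unfold arb_cc
    split_ifs with h
    · simp
    · simp
  rw [e2]
  have h1 : ‖∑ n ∈ range B, -((arb_cc n : ℂ) * ((aw k Y n : ℂ) * χ (n : ZMod r)))‖ ≤
      ∑ n ∈ range B, 2 ^ k * arb_cc n := by
    refine norm_sum_le_of_le _ fun n _ => ?_
    rw [norm_neg, norm_mul, norm_mul, Complex.norm_real, Complex.norm_real, Real.norm_eq_abs,
      Real.norm_eq_abs, abs_of_nonneg (arb_cc_nonneg n), abs_of_nonneg (aw_nonneg k Y hY1 n)]
    have h2 : aw k Y n * ‖χ (n : ZMod r)‖ ≤ 2 ^ k * 1 :=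
      mul_le_mul (aw_le k Y hY1 n) (χ.norm_le_one _) (norm_nonneg _) (by positivity)
    rw [mul_one] at h2
    calc arb_cc n * (aw k Y n * ‖χ (n : ZMod r)‖) ≤ arb_cc n * 2 ^ k :=
          mul_le_mul_of_nonneg_left h2 (arb_cc_nonneg n)
      _ = _ := mul_comm _ _
  have h2 : ∑ n ∈ range B, arb_cc n ≤ ∑ n ∈ Icc 1 B, arb_cc n := by
    have h3 : ∑ n ∈ range B, arb_cc n ≤ ∑ n ∈ range (B + 1), arb_cc n :=
      Finset.sum_le_sum_of_subset_of_nonneg
        (Finset.range_subset_range.2 (Nat.le_succ B)) fun n _ _ => arb_cc_nonneg n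
    have h4 : ∑ n ∈ range (B + 1), arb_cc n = ∑ n ∈ Icc 1 B, arb_cc n := by
      rw [Finset.range_eq_Ico, Finset.sum_eq_sum_Ico_succ_bot (Nat.succ_pos B)]
      have : arb_cc 0 = 0 := by
        unfold arb_cc
        simp
      rw [this, zero_add]
      rfl
    linarith
  have h3 := hC B
  have h4 : Real.sqrt B ≤ 2 * Real.sqrt Y := by
    have : (2 : ℝ) = Real.sqrt 4 := by
      rw [show (4 : ℝ) = 2 ^ 2 by norm_num, Real.sqrt_sq (by norm_num)]
    rw [this, ← Real.sqrt_mul (by norm_num)]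
    apply Real.sqrt_le_sqrt
    linarith
  have h5 : 1 / 2 ≤ Real.log Y := by
    have := Real.log_two_gt_d9
    have h6 := Real.log_le_log (by norm_num) hY
    linarith
  have hs : 0 ≤ Real.sqrt Y := Real.sqrt_nonneg Y
  rw [← Finset.mul_sum] at h1
  have h6 : ∑ n ∈ range B, arb_cc n ≤ 4 * C * Real.sqrt Y * Real.log Y := by
    have h7 : C * Real.sqrt B ≤ C * (2 * Real.sqrt Y) := mul_le_mul_of_nonneg_left h4 hC0
    have h8 : 4 * C * Real.sqrt Y * (1 / 2) ≤ 4 * C * Real.sqrt Y * Real.log Y :=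
      mul_le_mul_of_nonneg_left h5 (by positivity)
    linarith
  have h7 : 2 ^ k * ∑ n ∈ range B, arb_cc n ≤ 2 ^ k * (4 * C * Real.sqrt Y * Real.log Y) :=
    mul_le_mul_of_nonneg_left h6 (by positivity)
  have h8 : 0 ≤ Real.sqrt Y * Real.log Y := mul_nonneg hs (by linarith)
  have h9 : (2 ^ k * (4 * C) + 1) * Real.sqrt Y * Real.log Y =
      2 ^ k * (4 * C * Real.sqrt Y * Real.log Y) + Real.sqrt Y * Real.log Y := by ring
  linarith

/-- The number of characters: `(1 / φ(r)) #prim r ≤ 1`. -/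
theorem card_prim_le (r : ℕ) (hr : 1 ≤ r) : ((prim r).card : ℝ) ≤ r.totient := by
  have : NeZero r := ⟨by omega⟩
  have h1 : (prim r).card ≤ Fintype.card (DirichletCharacter ℂ r) := by
    unfold prim
    exact Finset.card_le_univ _
  have h2 := DirichletCharacter.card_eq_totient_of_hasEnoughRootsOfUnity ℂ r
  rw [Nat.card_eq_fintype_card] at h2
  rw [h2] at h1
  exact_mod_cast h1

theorem VMed_prim_ne_one {r : ℕ} (hr : 2 ≤ r) {χ : DirichletCharacter ℂ r} (h : χ ∈ prim r) :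
    χ ≠ 1 := by
  rintro rfl
  have : NeZero r := ⟨by omega⟩
  have h1 : (1 : DirichletCharacter ℂ r).IsPrimitive := by
    classical
    unfold prim at h
    exact (Finset.mem_filter.1 h).2
  rw [DirichletCharacter.isPrimitive_def, DirichletCharacter.conductor_one] at h1
  omega

theorem VMed_pt (k : ℕ) : ∃ C1 Cv : ℝ, 0 < C1 ∧ 0 < Cv ∧ ∀ (Y : ℝ) (U B r : ℕ), 2 ≤ Y → 1 ≤ U →
    (U : ℝ) ≤ Y → 2 * Y ≤ B → (B : ℝ) ≤ 2 * Y + 1 → 2 ≤ r →
      ∀ χ : DirichletCharacter ℂ r, χ ∈ prim r →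
        ‖TT k Y χ‖ ≤ C1 * U ^ 3 * r * Real.log Y + Cv * Real.sqrt Y * Real.log Y +
          ‖∑ x ∈ Ioo U B, ∑ m ∈ Ioo U B, ((vonMangoldt x : ℝ) : ℂ) * (vb U m : ℂ) *
            ((aw k Y (x * m) : ℂ) * χ ((x * m : ℕ) : ZMod r))‖ := by
  obtain ⟨Ca, hCa, ha⟩ := typeI_a k
  obtain ⟨Cb, hCb, hb⟩ := typeI_b k
  obtain ⟨Cv, hCv, hv⟩ := TT_vm k
  refine ⟨Ca + Cb, Cv, by linarith, hCv, fun Y U B r hY hU hUY hYB hBY hr χ hχ => ?_⟩
  have hY1 : 1 ≤ Y := by linarith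
  have hne := VMed_prim_ne_one hr hχ
  have h1 := ha Y U B r hY hU hYB (by omega) χ hne
  have h2 := hb Y U B r hY hU hYB (by omega) χ hne
  have h3 := hv Y B r hY hYB hBY χ
  have h4 := vaughan U B (fun n => (aw k Y n : ℂ) * χ (n : ZMod r))
    (fun n hn => by
      have : aw k Y n = 0 := by
        by_contra h
        have h5 := (aw_support k Y hY1 n h).1
        have h6 : (n : ℝ) ≤ U := by exact_mod_cast hn
        linarith
      simp [this])
    (fun n hn => by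
      have : aw k Y n = 0 := by
        by_contra h
        have h5 := (aw_support k Y hY1 n h).2
        have h6 : (B : ℝ) ≤ n := by exact_mod_cast hn
        linarith
      simp [this])
  rw [h4] at h3
  set A := ∑ m ∈ Icc 1 U, ((moebius m : ℝ) : ℂ) * ∑ d ∈ Ico 1 B, (Real.log d : ℂ) *
        ((aw k Y (m * d) : ℂ) * χ ((m * d : ℕ) : ZMod r)) with hA
  set D := ∑ j ∈ Icc 1 (U ^ 2), (vc U j : ℂ) * ∑ l ∈ Ico 1 B,
        ((aw k Y (j * l) : ℂ) * χ ((j * l : ℕ) : ZMod r)) with hD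
  set E := ∑ x ∈ Ioo U B, ∑ m ∈ Ioo U B, ((vonMangoldt x : ℝ) : ℂ) * (vb U m : ℂ) *
            ((aw k Y (x * m) : ℂ) * χ ((x * m : ℕ) : ZMod r)) with hE
  have h5 : TT k Y χ = (TT k Y χ - (A - D + E)) + (A - D + E) := by ring
  rw [h5]
  have h6 : ‖A - D + E‖ ≤ ‖A‖ + ‖D‖ + ‖E‖ :=
    (norm_add_le _ _).trans (add_le_add (norm_sub_le _ _) le_rfl)
  refine (norm_add_le _ _).trans ?_
  have h7 : (Ca + Cb) * U ^ 3 * r * Real.log Y = Ca * U ^ 3 * r * Real.log Y +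
    Cb * U ^ 3 * r * Real.log Y := by ring
  linarith

/-- **Moduli of medium size.**

Proof. Vaughan's identity (`vaughan`) with `U = ⌊Y ^ (ε / 8)⌋₊`, `B = ⌈2 Y⌉₊`, `f n = aw k Y n χ n` (zero for `n ≤ U ≤ Y`
and for `n ≥ B`), `TT_vm`. Type I (`typeI_a`, `typeI_b`, `prim_ne_one`): the contribution is at most
`∑_{R < r ≤ 2 R} C U ^ 3 r log Y ≤ C U ^ 3 R ^ 2 log Y ≤ C Y ^ (1 - ε)`. Type II (`typeII` with `Q = 2 R`): since
`1 / φ(r) ≤ (1 / R) r / φ(r)` it is at most `(C / R) (log Y) ^ 3 (Y + R Y / √U + R ^ 2 √Y)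
≤ C (log Y) ^ 3 (Y / R + Y ^ (1 - ε / 17) + Y ^ (1 - ε))`. Prime powers: `C R √Y log Y ≤ C Y ^ (1 - ε / 2)`. -/
theorem medium (k : ℕ) (ε : ℝ) (hε : 0 < ε) (hε1 : ε < 1 / 2) : ∃ C δ : ℝ, 0 < C ∧ 0 < δ ∧
    ∀ (Y : ℝ) (R : ℕ), 3 ≤ Y → 1 ≤ R → (R : ℝ) ≤ Y ^ (1 / 2 - ε) →
      ∑ r ∈ Ioc R (2 * R), 1 / (r.totient : ℝ) * ∑ χ ∈ prim r, ‖TT k Y χ‖ ≤
        C * (Y * Real.log Y ^ 3 / R + Y ^ (1 - δ)) := by
  obtain ⟨C1, Cv, hC1, hCv, h1⟩ := VMed_pt k
  obtain ⟨C2, hC2, h2⟩ := typeII k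
  refine ⟨C2 + (96 / ε) ^ 3 * (2 * C1 + Cv + 8 * C2), ε / 32, by positivity, by positivity,
    fun Y R hY hR hRY => ?_⟩
  have hY0 : 0 < Y := by linarith
  have hY1 : 1 ≤ Y := by linarith
  have hR0 : (0 : ℝ) < R := by exact_mod_cast hR
  have hlog1 : 1 ≤ Real.log Y := by
    rw [Real.le_log_iff_exp_le hY0]
    have := Real.exp_one_lt_d9
    linarith
  have hlogL : Real.log Y ≤ Real.log Y ^ 3 := le_self_pow₀ hlog1 (by norm_num)
  have hL0 : 0 < Real.log Y ^ 3 := by positivity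
  set x : ℝ := Y ^ (ε / 8) with hx
  have hx1 : 1 ≤ x := Real.one_le_rpow hY1 (by positivity)
  set U := ⌊x⌋₊ with hU
  have hU1 : 1 ≤ U := Nat.le_floor (by exact_mod_cast hx1)
  have hU1' : (1 : ℝ) ≤ U := by exact_mod_cast hU1
  have hUx : (U : ℝ) ≤ x := Nat.floor_le (by linarith)
  have hxU : x / 2 ≤ U := by
    have := Nat.lt_floor_add_one x
    linarith
  have hxY : x ≤ Y := by
    calc x ≤ Y ^ (1 : ℝ) := Real.rpow_le_rpow_of_exponent_le hY1 (by linarith)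
      _ = Y := Real.rpow_one Y
  set B := ⌈2 * Y⌉₊ with hB
  have hB1 : 2 * Y ≤ B := Nat.le_ceil _
  have hB2 : (B : ℝ) ≤ 2 * Y + 1 := (Nat.ceil_lt_add_one (by linarith)).le
  set W : ℝ := Y ^ (1 - ε / 16) with hW
  have hW0 : 0 < W := Real.rpow_pos_of_pos hY0 _
  have hWL : W * Real.log Y ^ 3 ≤ (96 / ε) ^ 3 * Y ^ (1 - ε / 32) := by
    have h3 : Real.log Y ≤ Y ^ (ε / 96) * (96 / ε) := by
      have := Real.log_le_rpow_div hY0.le (show 0 < ε / 96 by positivity)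
      rwa [div_div_eq_mul_div, mul_div_assoc] at this
    have h4 : Real.log Y ^ 3 ≤ (Y ^ (ε / 96) * (96 / ε)) ^ 3 :=
      pow_le_pow_left₀ (by linarith) h3 3
    have h5 : (Y ^ (ε / 96) * (96 / ε)) ^ 3 = Y ^ (ε / 32) * (96 / ε) ^ 3 := by
      rw [mul_pow, ← Real.rpow_natCast (Y ^ (ε / 96)) 3, ← Real.rpow_mul hY0.le]
      congr 2
      push_cast
      ring
    rw [h5] at h4
    calc W * Real.log Y ^ 3 ≤ W * (Y ^ (ε / 32) * (96 / ε) ^ 3) :=
          mul_le_mul_of_nonneg_left h4 hW0.le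
      _ = (96 / ε) ^ 3 * (Y ^ (1 - ε / 16) * Y ^ (ε / 32)) := by
          rw [hW]
          ring
      _ = (96 / ε) ^ 3 * Y ^ (1 - ε / 32) := by
          rw [← Real.rpow_add hY0]
          congr 2
          ring
  have hRU : (R : ℝ) ^ 2 * U ^ 3 ≤ W := by
    have h3 : (R : ℝ) ^ 2 ≤ Y ^ (1 - 2 * ε) := by
      calc (R : ℝ) ^ 2 ≤ (Y ^ (1 / 2 - ε)) ^ 2 := pow_le_pow_left₀ hR0.le hRY 2
        _ = Y ^ (1 - 2 * ε) := by
          rw [← Real.rpow_natCast (Y ^ (1 / 2 - ε)) 2, ← Real.rpow_mul hY0.le]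
          congr 1
          push_cast
          ring
    have h4 : (U : ℝ) ^ 3 ≤ Y ^ (3 * ε / 8) := by
      calc (U : ℝ) ^ 3 ≤ x ^ 3 := pow_le_pow_left₀ (by linarith) hUx 3
        _ = Y ^ (3 * ε / 8) := by
          rw [hx, ← Real.rpow_natCast (Y ^ (ε / 8)) 3, ← Real.rpow_mul hY0.le]
          congr 1
          push_cast
          ring
    calc (R : ℝ) ^ 2 * U ^ 3 ≤ Y ^ (1 - 2 * ε) * Y ^ (3 * ε / 8) :=
          mul_le_mul h3 h4 (by positivity) (by positivity)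
      _ = Y ^ (1 - 2 * ε + 3 * ε / 8) := by rw [← Real.rpow_add hY0]
      _ ≤ W := Real.rpow_le_rpow_of_exponent_le hY1 (by linarith)
  have hRs : (R : ℝ) * Real.sqrt Y ≤ W := by
    calc (R : ℝ) * Real.sqrt Y ≤ Y ^ (1 / 2 - ε) * Y ^ (1 / 2 : ℝ) := by
          rw [Real.sqrt_eq_rpow]
          exact mul_le_mul_of_nonneg_right hRY (by positivity)
      _ = Y ^ (1 / 2 - ε + 1 / 2) := by rw [← Real.rpow_add hY0]
      _ ≤ W := Real.rpow_le_rpow_of_exponent_le hY1 (by linarith)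
  have hYU : Y / Real.sqrt U ≤ 2 * W := by
    have h3 : Y ^ (ε / 16) / 2 ≤ Real.sqrt U := by
      apply Real.le_sqrt_of_sq_le
      rw [div_pow, ← Real.rpow_natCast (Y ^ (ε / 16)) 2, ← Real.rpow_mul hY0.le]
      have e : ε / 16 * ((2 : ℕ) : ℝ) = ε / 8 := by
        push_cast
        ring
      rw [e, ← hx]
      linarith
    have h4 : 0 < Y ^ (ε / 16) := Real.rpow_pos_of_pos hY0 _
    rw [div_le_iff₀ (by positivity)]
    have h5 : W * Y ^ (ε / 16) = Y := by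
      rw [hW, ← Real.rpow_add hY0, sub_add_cancel, Real.rpow_one]
    nlinarith
  -- the pointwise bound
  have hpt : ∀ r ∈ Ioc R (2 * R), 1 / (r.totient : ℝ) * ∑ χ ∈ prim r, ‖TT k Y χ‖ ≤
      (2 * C1 * U ^ 3 * R * Real.log Y + Cv * Real.sqrt Y * Real.log Y) +
      1 / (R : ℝ) * ((r : ℝ) / r.totient * ∑ χ ∈ prim r,
        ‖∑ x ∈ Ioo U B, ∑ m ∈ Ioo U B, ((vonMangoldt x : ℝ) : ℂ) * (vb U m : ℂ) *
            ((aw k Y (x * m) : ℂ) * χ ((x * m : ℕ) : ZMod r))‖) := by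
    intro r hr
    rw [mem_Ioc] at hr
    have hr2 : 2 ≤ r := by omega
    have hφ : (0 : ℝ) < r.totient := by exact_mod_cast Nat.totient_pos.2 (by omega)
    have hrR : (r : ℝ) ≤ 2 * R := by exact_mod_cast hr.2
    have hRr : (R : ℝ) ≤ r := by exact_mod_cast hr.1.le
    have hcard := card_prim_le r (by omega)
    set E : ℝ := 2 * C1 * U ^ 3 * R * Real.log Y + Cv * Real.sqrt Y * Real.log Y with hE
    have hE0 : 0 ≤ E := by positivity
    have h3 : ∑ χ ∈ prim r, ‖TT k Y χ‖ ≤ (r.totient : ℝ) * E + ∑ χ ∈ prim r,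
        ‖∑ x ∈ Ioo U B, ∑ m ∈ Ioo U B, ((vonMangoldt x : ℝ) : ℂ) * (vb U m : ℂ) *
            ((aw k Y (x * m) : ℂ) * χ ((x * m : ℕ) : ZMod r))‖ := by
      have h4 : ∑ χ ∈ prim r, ‖TT k Y χ‖ ≤ ∑ χ ∈ prim r, (E +
        ‖∑ x ∈ Ioo U B, ∑ m ∈ Ioo U B, ((vonMangoldt x : ℝ) : ℂ) * (vb U m : ℂ) *
            ((aw k Y (x * m) : ℂ) * χ ((x * m : ℕ) : ZMod r))‖) := by
        refine Finset.sum_le_sum fun χ hχ => ?_
        refine (h1 Y U B r (by linarith) hU1 (hUx.trans hxY) hB1 hB2 hr2 χ hχ).trans ?_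
        have h5 : C1 * U ^ 3 * r * Real.log Y ≤ 2 * C1 * U ^ 3 * R * Real.log Y := by
          have h6 : C1 * U ^ 3 * Real.log Y * r ≤ C1 * U ^ 3 * Real.log Y * (2 * R) :=
            mul_le_mul_of_nonneg_left hrR (by positivity)
          linarith
        linarith
      rw [Finset.sum_add_distrib, Finset.sum_const, nsmul_eq_mul] at h4
      have h5 := mul_le_mul_of_nonneg_right hcard hE0
      linarith
    set T : ℝ := ∑ χ ∈ prim r,
        ‖∑ x ∈ Ioo U B, ∑ m ∈ Ioo U B, ((vonMangoldt x : ℝ) : ℂ) * (vb U m : ℂ) *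
            ((aw k Y (x * m) : ℂ) * χ ((x * m : ℕ) : ZMod r))‖ with hT
    have hT0 : 0 ≤ T := Finset.sum_nonneg fun _ _ => norm_nonneg _
    calc 1 / (r.totient : ℝ) * ∑ χ ∈ prim r, ‖TT k Y χ‖
        ≤ 1 / (r.totient : ℝ) * ((r.totient : ℝ) * E + T) :=
          mul_le_mul_of_nonneg_left h3 (by positivity)
      _ = E + 1 / (r.totient : ℝ) * T := by
          field_simp
      _ ≤ E + 1 / (R : ℝ) * ((r : ℝ) / r.totient * T) := by
          have h4 : 1 ≤ 1 / (R : ℝ) * r := by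
            rw [one_div, ← div_eq_inv_mul, one_le_div hR0]
            exact hRr
          have h5 : 1 / (R : ℝ) * ((r : ℝ) / r.totient * T) =
              (1 / (R : ℝ) * r) * (1 / (r.totient : ℝ) * T) := by ring
          rw [h5]
          have h6 : 0 ≤ 1 / (r.totient : ℝ) * T := by positivity
          nlinarith
  have hII := h2 Y U B (2 * R) (by linarith) hU1 hB1 hB2 (by omega)
  have hsum : ∑ r ∈ Ioc R (2 * R), 1 / (r.totient : ℝ) * ∑ χ ∈ prim r, ‖TT k Y χ‖ ≤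
      R * (2 * C1 * U ^ 3 * R * Real.log Y + Cv * Real.sqrt Y * Real.log Y) +
      1 / (R : ℝ) * (C2 * Real.log Y ^ 3 * (Y + ((2 * R : ℕ) : ℝ) * Y / Real.sqrt U +
        ((2 * R : ℕ) : ℝ) ^ 2 * Real.sqrt Y)) := by
    refine (Finset.sum_le_sum hpt).trans ?_
    rw [Finset.sum_add_distrib, Finset.sum_const, nsmul_eq_mul, Nat.card_Ioc, ← Finset.mul_sum]
    have e : 2 * R - R = R := by omega
    rw [e]
    refine add_le_add le_rfl (mul_le_mul_of_nonneg_left ?_ (by positivity))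
    refine le_trans ?_ hII
    apply Finset.sum_le_sum_of_subset_of_nonneg
    · intro r hr
      rw [mem_Ioc] at hr
      rw [mem_Icc]
      omega
    · intro r _ _
      exact mul_nonneg (by positivity) (Finset.sum_nonneg fun _ _ => norm_nonneg _)
  refine hsum.trans ?_
  push_cast
  have e1 : 1 / (R : ℝ) * (C2 * Real.log Y ^ 3 * (Y + 2 * R * Y / Real.sqrt U +
        (2 * R) ^ 2 * Real.sqrt Y)) = C2 * (Y * Real.log Y ^ 3 / R) +
        C2 * Real.log Y ^ 3 * (2 * (Y / Real.sqrt U) + 4 * (R * Real.sqrt Y)) := by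
    have hsU : Real.sqrt U ≠ 0 := (Real.sqrt_pos.2 (by linarith)).ne'
    field_simp
    ring
  rw [e1]
  have e2 : R * (2 * C1 * U ^ 3 * R * Real.log Y + Cv * Real.sqrt Y * Real.log Y) =
      2 * C1 * (R ^ 2 * U ^ 3) * Real.log Y + Cv * (R * Real.sqrt Y) * Real.log Y := by ring
  rw [e2]
  have h3 : 2 * C1 * (R ^ 2 * U ^ 3) * Real.log Y ≤ 2 * C1 * W * Real.log Y ^ 3 :=
    mul_le_mul (mul_le_mul_of_nonneg_left hRU (by positivity)) hlogL (by linarith) (by positivity)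
  have h4 : Cv * (R * Real.sqrt Y) * Real.log Y ≤ Cv * W * Real.log Y ^ 3 :=
    mul_le_mul (mul_le_mul_of_nonneg_left hRs (by positivity)) hlogL (by linarith) (by positivity)
  have h5 : C2 * Real.log Y ^ 3 * (2 * (Y / Real.sqrt U) + 4 * (R * Real.sqrt Y)) ≤
      C2 * Real.log Y ^ 3 * (8 * W) := by
    refine mul_le_mul_of_nonneg_left ?_ (by positivity)
    linarith
  have h6 : (2 * C1 + Cv + 8 * C2) * (W * Real.log Y ^ 3) ≤
      (2 * C1 + Cv + 8 * C2) * ((96 / ε) ^ 3 * Y ^ (1 - ε / 32)) :=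
    mul_le_mul_of_nonneg_left hWL (by positivity)
  have h7 : 0 ≤ C2 * Y ^ (1 - ε / 32) := by positivity
  have h8 : 0 ≤ (96 / ε) ^ 3 * (2 * C1 + Cv + 8 * C2) * (Y * Real.log Y ^ 3 / R) := by positivity
  have e3 : (C2 + (96 / ε) ^ 3 * (2 * C1 + Cv + 8 * C2)) *
      (Y * Real.log Y ^ 3 / R + Y ^ (1 - ε / 32)) = C2 * (Y * Real.log Y ^ 3 / R) +
      C2 * Y ^ (1 - ε / 32) +
      (96 / ε) ^ 3 * (2 * C1 + Cv + 8 * C2) * (Y * Real.log Y ^ 3 / R) +
      (2 * C1 + Cv + 8 * C2) * ((96 / ε) ^ 3 * Y ^ (1 - ε / 32)) := by ring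
  rw [e3]
  linarith

end Pool.Agent.Wb58c63
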