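import Pool.Agent.W_b58c63_h68.LSc
import Pool.Agent.W_b58c63_h68.ArC
import Pool.Agent.W_pnt_h80.Fejer

/-!
# Separation of variables (helper68)
-/

set_option autoImplicit false

noncomputable section

open Finset MeasureTheory

namespace Pool.Agent.Wb58c63

theorem VSep_tp_cont : Continuous tp := by
  unfold tp
  fun_prop

theorem VSep_tp_zero {y : ℝ} (h : y ∉ Set.Ioc (-l0) l0) : tp y = 0 := by
  by_contra h1
  have h2 := ArC_tp_ne h1
  rw [abs_lt] at h2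
  exact h ⟨h2.1, h2.2.le⟩

theorem VSep_tp_tri {y : ℝ} (h : y ∈ Set.uIcc (-l0) l0) : tp y = Pool.Agent.W_pnt_h80.tri l0 y := by
  have hl := l0_pos
  rw [Set.uIcc_of_le (by linarith)] at h
  unfold tp Pool.Agent.W_pnt_h80.tri
  apply max_eq_right
  have h1 : |y| ≤ l0 := abs_le.mpr h
  have h2 : |y| / l0 ≤ 1 := by rwa [div_le_iff₀ hl, one_mul]
  linarith

theorem VSep_tp_int : Integrable (fun y => (tp y : ℂ)) := by
  have h : Integrable tp := by
    have h1 : HasCompactSupport tp := by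
      refine HasCompactSupport.intro (isCompact_Icc (a := -l0) (b := l0)) fun y hy => ?_
      apply VSep_tp_zero
      intro h
      exact hy ⟨h.1.le, h.2⟩
    exact VSep_tp_cont.integrable_of_hasCompactSupport h1
  exact h.ofReal

theorem VSep_ft (u : ℝ) : ∫ y : ℝ, (tp y : ℂ) * Complex.exp (Complex.I * y * u) =
    (Pool.Agent.W_pnt_h80.fej l0 u : ℂ) := by
  have hl := l0_pos
  rw [← Pool.Agent.W_pnt_h80.fej_fourier hl u]
  rw [intervalIntegral.integral_of_le (by linarith)]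
  rw [← setIntegral_eq_integral_of_forall_compl_eq_zero (s := Set.Ioc (-l0) l0)]
  · refine setIntegral_congr_fun measurableSet_Ioc fun y hy => ?_
    rw [VSep_tp_tri]
    rw [Set.uIcc_of_le (by linarith)]
    exact ⟨hy.1.le, hy.2⟩
  · intro y hy
    rw [VSep_tp_zero hy]
    simp

open FourierTransform in
theorem VSep_F (w : ℝ) : 𝓕 (fun y : ℝ => (tp y : ℂ)) w =
    (Pool.Agent.W_pnt_h80.fej l0 (2 * Real.pi * w) : ℂ) := by
  rw [Real.fourier_real_eq_integral_exp_smul]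
  rw [← VSep_ft]
  have e : ∫ v : ℝ, Complex.exp (((-2 * Real.pi * v * w : ℝ) : ℂ) * Complex.I) • (tp v : ℂ) =
      ∫ v : ℝ, (fun v : ℝ => (tp v : ℂ) * Complex.exp (Complex.I * v * (2 * Real.pi * w : ℝ))) (-v) := by
    refine integral_congr_ae (Filter.Eventually.of_forall fun v => ?_)
    simp only
    have h1 : tp (-v) = tp v := by
      unfold tp
      rw [abs_neg]
    rw [h1, smul_eq_mul, mul_comm]
    congr 2
    push_cast
    ring
  rw [e, integral_neg_eq_self (fun v : ℝ => (tp v : ℂ) * Complex.exp (Complex.I * v * (2 * Real.pi * w : ℝ)))]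

/-- **The tent as a Fourier integral with a nonnegative integrable kernel.**

Proof. `K t = fej l0 t / (2 π)` (`Pool/Agent/W_pnt_h80/Fejer.lean`: `fej_fourier`: the Fourier transform of the tent is
`fej`, `fej_nonneg`, `fej_integrable`, `fej_continuous`); the tent is continuous and integrable and so is its
transform, so Fourier inversion (`MeasureTheory.Integrable.fourierInv_fourier_eq` or the like) gives the formula. -/
theorem tp_fourier : ∃ K : ℝ → ℝ, (∀ t, 0 ≤ K t) ∧ Continuous K ∧ Integrable K ∧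
    ∀ y : ℝ, (tp y : ℂ) = ∫ t : ℝ, (K t : ℂ) * Complex.exp (Complex.I * t * y) := by
  have hl := l0_pos
  have hπ := Real.pi_pos
  refine ⟨fun t => (2 * Real.pi)⁻¹ * Pool.Agent.W_pnt_h80.fej l0 t, ?_, ?_, ?_, ?_⟩
  · intro t
    have := Pool.Agent.W_pnt_h80.fej_nonneg hl t
    positivity
  · exact continuous_const.mul (Pool.Agent.W_pnt_h80.fej_continuous hl)
  · exact (Pool.Agent.W_pnt_h80.fej_integrable hl).const_mul _
  · intro y
    have hF : FourierTransform.fourier (fun y : ℝ => (tp y : ℂ)) =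
        fun w => (Pool.Agent.W_pnt_h80.fej l0 (2 * Real.pi * w) : ℂ) := funext VSep_F
    have hFi : Integrable (FourierTransform.fourier (fun y : ℝ => (tp y : ℂ))) := by
      rw [hF]
      have h1 := (Pool.Agent.W_pnt_h80.fej_integrable hl).comp_mul_left' (R := 2 * Real.pi)
        (by positivity)
      exact h1.ofReal
    have h2 := congrFun (Continuous.fourierInv_fourier_eq
      (Complex.continuous_ofReal.comp VSep_tp_cont) VSep_tp_int hFi) y
    change FourierTransformInv.fourierInv (FourierTransform.fourier (fun y : ℝ => (tp y : ℂ))) y = (tp y : ℂ) at h2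
    rw [hF] at h2
    rw [Real.fourierInv_eq'] at h2
    have h3 : ∫ v : ℝ, Complex.exp (((2 * Real.pi * inner ℝ v y : ℝ) : ℂ) * Complex.I) •
        (Pool.Agent.W_pnt_h80.fej l0 (2 * Real.pi * v) : ℂ) =
        ∫ v : ℝ, (fun t : ℝ => (Pool.Agent.W_pnt_h80.fej l0 t : ℂ) *
          Complex.exp (Complex.I * t * y)) (2 * Real.pi * v) := by
      refine integral_congr_ae (Filter.Eventually.of_forall fun v => ?_)
      simp only
      rw [smul_eq_mul, mul_comm]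
      congr 2
      have h4 : inner ℝ v y = y * v := by simp
      rw [h4]
      push_cast
      ring
    have h5 := h2.symm
    rw [h3, Measure.integral_comp_mul_left (fun t : ℝ => (Pool.Agent.W_pnt_h80.fej l0 t : ℂ) *
          Complex.exp (Complex.I * t * y)) (2 * Real.pi), abs_of_pos (by positivity)] at h5
    rw [h5, ← integral_smul]
    refine integral_congr_ae (Filter.Eventually.of_forall fun v => ?_)
    simp only [Complex.real_smul]
    push_cast
    ring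

/-- The twisted coefficients `a m (log m / v) ^ j m ^ (i t)`. -/
def tw (v : ℝ) (j : ℕ) (t : ℝ) (a : ℕ → ℂ) (m : ℕ) : ℂ :=
  a m * ((Real.log m / v) ^ j : ℝ) * Complex.exp (Complex.I * t * Real.log m)

theorem VSep_norm_exp (t x : ℝ) : ‖Complex.exp (Complex.I * t * x)‖ = 1 := by
  rw [show Complex.I * (t : ℂ) * (x : ℂ) = ((t * x : ℝ) : ℂ) * Complex.I by push_cast; ring]
  exact Complex.norm_exp_ofReal_mul_I _

theorem VSep_tw_norm (v : ℝ) (j : ℕ) (t : ℝ) (a : ℕ → ℂ) (m : ℕ) :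
    ‖tw v j t a m‖ = ‖a m‖ * |Real.log m / v| ^ j := by
  unfold tw
  rw [norm_mul, norm_mul, VSep_norm_exp, mul_one, Complex.norm_real, norm_pow, Real.norm_eq_abs]

theorem VSep_tw_cont (v : ℝ) (j : ℕ) (a : ℕ → ℂ) (m : ℕ) :
    Continuous fun t : ℝ => tw v j t a m := by
  unfold tw
  fun_prop

theorem VSep_sum_cont (v : ℝ) (j : ℕ) (a c : ℕ → ℂ) (M : ℕ) :
    Continuous fun t : ℝ => ∑ m ∈ Ico 1 M, tw v j t a m * c m := by
  refine continuous_finsetSum _ fun m _ => ?_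
  exact (VSep_tw_cont v j a m).mul continuous_const

theorem VSep_sum_bdd (v : ℝ) (j : ℕ) (a c : ℕ → ℂ) (M : ℕ) (t : ℝ) :
    ‖∑ m ∈ Ico 1 M, tw v j t a m * c m‖ ≤
      ∑ m ∈ Ico 1 M, ‖a m‖ * |Real.log m / v| ^ j * ‖c m‖ := by
  refine (norm_sum_le _ _).trans (Finset.sum_le_sum fun m _ => ?_)
  rw [norm_mul, VSep_tw_norm]

theorem VSep_int1 (K : ℝ → ℝ) (hK2 : Integrable K) (v : ℝ) (i j : ℕ) (a b c d : ℕ → ℂ) (M N : ℕ) :
    Integrable fun t : ℝ => K t * (‖∑ m ∈ Ico 1 M, tw v i t a m * c m‖ *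
      ‖∑ n ∈ Ico 1 N, tw v j t b n * d n‖) := by
  refine hK2.mul_bdd (c := (∑ m ∈ Ico 1 M, ‖a m‖ * |Real.log m / v| ^ i * ‖c m‖) *
    (∑ n ∈ Ico 1 N, ‖b n‖ * |Real.log n / v| ^ j * ‖d n‖)) ?_ ?_
  · exact ((VSep_sum_cont v i a c M).norm.mul (VSep_sum_cont v j b d N).norm).aestronglyMeasurable
  · refine Filter.Eventually.of_forall fun t => ?_
    rw [norm_mul, norm_norm, norm_norm]
    exact mul_le_mul (VSep_sum_bdd _ _ _ _ _ _) (VSep_sum_bdd _ _ _ _ _ _) (norm_nonneg _)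
      (Finset.sum_nonneg fun m _ => by positivity)

theorem VSep_int2 (K : ℝ → ℝ) (hK2 : Integrable K) (v w : ℝ) (i j : ℕ) (a b : ℕ → ℂ) (c d : ℂ)
    (m n : ℕ) :
    Integrable fun t : ℝ => (K t : ℂ) * (Complex.exp (Complex.I * t * w) *
      ((tw v i t a m * c) * (tw v j t b n * d))) := by
  refine hK2.ofReal.mul_bdd (c := (‖a m‖ * |Real.log m / v| ^ i * ‖c‖) *
    (‖b n‖ * |Real.log n / v| ^ j * ‖d‖)) ?_ ?_
  · refine Continuous.aestronglyMeasurable ?_
    have h1 := VSep_tw_cont v i a m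
    have h2 := VSep_tw_cont v j b n
    fun_prop
  · refine Filter.Eventually.of_forall fun t => ?_
    rw [norm_mul, VSep_norm_exp, one_mul, norm_mul, norm_mul, norm_mul, VSep_tw_norm, VSep_tw_norm]

theorem VSep_term (K : ℝ → ℝ)
    (hK : ∀ y : ℝ, (tp y : ℂ) = ∫ t : ℝ, (K t : ℂ) * Complex.exp (Complex.I * t * y))
    (v : ℝ) (i j : ℕ) (a b : ℕ → ℂ) (c d : ℂ) (m n : ℕ) :
    ∫ t : ℝ, (K t : ℂ) * (Complex.exp (Complex.I * t * (-v : ℝ)) *
      ((tw v i t a m * c) * (tw v j t b n * d))) =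
      a m * b n * (tp (Real.log m + Real.log n - v) * (c * d)) *
        (((Real.log m / v) ^ i * (Real.log n / v) ^ j : ℝ) : ℂ) := by
  have h1 : ∀ t : ℝ, (K t : ℂ) * (Complex.exp (Complex.I * t * (-v : ℝ)) *
      ((tw v i t a m * c) * (tw v j t b n * d))) =
      (a m * b n * (c * d) * (((Real.log m / v) ^ i * (Real.log n / v) ^ j : ℝ) : ℂ)) *
        ((K t : ℂ) * Complex.exp (Complex.I * t * ((Real.log m + Real.log n - v : ℝ) : ℂ))) := by
    intro t
    unfold tw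
    have h2 : Complex.exp (Complex.I * t * ((Real.log m + Real.log n - v : ℝ) : ℂ)) =
        Complex.exp (Complex.I * t * (Real.log m : ℝ)) * Complex.exp (Complex.I * t * (Real.log n : ℝ)) *
          Complex.exp (Complex.I * t * (-v : ℝ)) := by
      rw [← Complex.exp_add, ← Complex.exp_add]
      congr 1
      push_cast
      ring
    rw [h2]
    push_cast
    ring
  rw [integral_congr_ae (Filter.Eventually.of_forall h1), integral_const_mul, ← hK]
  ring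

theorem VSep_bin (k : ℕ) (x y : ℝ) :
    (x + y) ^ k = ∑ j ∈ range (k + 1), (k.choose j : ℝ) * (x ^ j * y ^ (k - j)) := by
  rw [add_pow]
  refine Finset.sum_congr rfl fun j _ => ?_
  ring

theorem VSep_aw (k : ℕ) (Y : ℝ) (m n : ℕ) (hm : 1 ≤ m) (hn : 1 ≤ n) :
    aw k Y (m * n) = tp (Real.log m + Real.log n - vY Y) *
      ∑ j ∈ range (k + 1), (k.choose j : ℝ) *
        ((Real.log m / vY Y) ^ j * (Real.log n / vY Y) ^ (k - j)) := by
  unfold aw
  have h1 : Real.log ((m * n : ℕ) : ℝ) = Real.log m + Real.log n := by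
    rw [Nat.cast_mul, Real.log_mul (by positivity) (by positivity)]
  rw [h1, add_div, VSep_bin]

theorem VSep_eq (K : ℝ → ℝ) (hK2 : Integrable K)
    (hK : ∀ y : ℝ, (tp y : ℂ) = ∫ t : ℝ, (K t : ℂ) * Complex.exp (Complex.I * t * y))
    (k : ℕ) (Y : ℝ) (M N r : ℕ) (χ : DirichletCharacter ℂ r) (a b : ℕ → ℂ) :
    ∑ m ∈ Ico 1 M, ∑ n ∈ Ico 1 N, a m * b n * ((aw k Y (m * n) : ℂ) * χ ((m * n : ℕ) : ZMod r)) =
      ∑ j ∈ range (k + 1), (k.choose j : ℂ) * ∫ t : ℝ, (K t : ℂ) *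
        (Complex.exp (Complex.I * t * (-vY Y : ℝ)) *
          ((∑ m ∈ Ico 1 M, tw (vY Y) j t a m * χ (m : ZMod r)) *
          (∑ n ∈ Ico 1 N, tw (vY Y) (k - j) t b n * χ (n : ZMod r)))) := by
  have h1 : ∀ j : ℕ, ∫ t : ℝ, (K t : ℂ) *
        (Complex.exp (Complex.I * t * (-vY Y : ℝ)) *
          ((∑ m ∈ Ico 1 M, tw (vY Y) j t a m * χ (m : ZMod r)) *
          (∑ n ∈ Ico 1 N, tw (vY Y) (k - j) t b n * χ (n : ZMod r)))) =
      ∑ m ∈ Ico 1 M, ∑ n ∈ Ico 1 N,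
        a m * b n * (tp (Real.log m + Real.log n - vY Y) *
          (χ (m : ZMod r) * χ (n : ZMod r))) *
        (((Real.log m / vY Y) ^ j * (Real.log n / vY Y) ^ (k - j) : ℝ) : ℂ) := by
    intro j
    have h2 : ∀ t : ℝ, (K t : ℂ) *
        (Complex.exp (Complex.I * t * (-vY Y : ℝ)) *
          ((∑ m ∈ Ico 1 M, tw (vY Y) j t a m * χ (m : ZMod r)) *
          (∑ n ∈ Ico 1 N, tw (vY Y) (k - j) t b n * χ (n : ZMod r)))) =
        ∑ m ∈ Ico 1 M, ∑ n ∈ Ico 1 N, (K t : ℂ) *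
        (Complex.exp (Complex.I * t * (-vY Y : ℝ)) *
          ((tw (vY Y) j t a m * χ (m : ZMod r)) *
          (tw (vY Y) (k - j) t b n * χ (n : ZMod r)))) := by
      intro t
      rw [Finset.sum_mul_sum, Finset.mul_sum, Finset.mul_sum]
      refine Finset.sum_congr rfl fun m _ => ?_
      rw [Finset.mul_sum, Finset.mul_sum]
    rw [integral_congr_ae (Filter.Eventually.of_forall h2), integral_finsetSum]
    · refine Finset.sum_congr rfl fun m _ => ?_
      rw [integral_finsetSum]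
      · refine Finset.sum_congr rfl fun n _ => ?_
        exact VSep_term K hK (vY Y) j (k - j) a b _ _ m n
      · intro n _
        exact VSep_int2 K hK2 _ _ _ _ _ _ _ _ _ _
    · intro m _
      refine integrable_finsetSum _ fun n _ => ?_
      exact VSep_int2 K hK2 _ _ _ _ _ _ _ _ _ _
  have h3 : ∑ j ∈ range (k + 1), (k.choose j : ℂ) * ∫ t : ℝ, (K t : ℂ) *
        (Complex.exp (Complex.I * t * (-vY Y : ℝ)) *
          ((∑ m ∈ Ico 1 M, tw (vY Y) j t a m * χ (m : ZMod r)) *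
          (∑ n ∈ Ico 1 N, tw (vY Y) (k - j) t b n * χ (n : ZMod r)))) =
      ∑ j ∈ range (k + 1), ∑ m ∈ Ico 1 M, ∑ n ∈ Ico 1 N, (k.choose j : ℂ) *
        (a m * b n * (tp (Real.log m + Real.log n - vY Y) *
          (χ (m : ZMod r) * χ (n : ZMod r))) *
        (((Real.log m / vY Y) ^ j * (Real.log n / vY Y) ^ (k - j) : ℝ) : ℂ)) := by
    refine Finset.sum_congr rfl fun j _ => ?_
    rw [h1 j, Finset.mul_sum]
    refine Finset.sum_congr rfl fun m _ => ?_
    rw [Finset.mul_sum]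
  rw [h3]
  conv_rhs => rw [Finset.sum_comm]
  refine Finset.sum_congr rfl fun m hm => ?_
  rw [Finset.sum_comm]
  refine Finset.sum_congr rfl fun n hn => ?_
  rw [Finset.mem_Ico] at hm hn
  rw [VSep_aw k Y m n hm.1 hn.1, Nat.cast_mul, map_mul]
  push_cast
  rw [Finset.mul_sum, Finset.sum_mul, Finset.mul_sum]
  refine Finset.sum_congr rfl fun j _ => ?_
  ring

/-- **Separation.** For `m, n ≥ 1` `log (m n) = log m + log n`; the binomial theorem for `((log m + log n) / v) ^ k` and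
`tp_fourier` for `tp (log m + log n - v)`; exchange of a finite sum and the integral; `‖exp (-i t v)‖ = 1`. -/
theorem bil_sep (K : ℝ → ℝ) (hK0 : ∀ t, 0 ≤ K t) (hK1 : Continuous K) (hK2 : Integrable K)
    (hK : ∀ y : ℝ, (tp y : ℂ) = ∫ t : ℝ, (K t : ℂ) * Complex.exp (Complex.I * t * y))
    (k : ℕ) (Y : ℝ) (hY : 1 ≤ Y) (M N r : ℕ) (χ : DirichletCharacter ℂ r) (a b : ℕ → ℂ) :
    ‖∑ m ∈ Ico 1 M, ∑ n ∈ Ico 1 N, a m * b n * ((aw k Y (m * n) : ℂ) * χ ((m * n : ℕ) : ZMod r))‖ ≤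
      ∑ j ∈ range (k + 1), (k.choose j : ℝ) * ∫ t : ℝ, K t *
        (‖∑ m ∈ Ico 1 M, tw (vY Y) j t a m * χ (m : ZMod r)‖ *
          ‖∑ n ∈ Ico 1 N, tw (vY Y) (k - j) t b n * χ (n : ZMod r)‖) := by
  rw [VSep_eq K hK2 hK]
  refine (norm_sum_le _ _).trans (Finset.sum_le_sum fun j _ => ?_)
  rw [norm_mul, Complex.norm_natCast]
  refine mul_le_mul_of_nonneg_left ?_ (Nat.cast_nonneg _)
  refine (norm_integral_le_integral_norm _).trans (le_of_eq ?_)
  refine integral_congr_ae (Filter.Eventually.of_forall fun t => ?_)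
  simp only
  rw [norm_mul, norm_mul, VSep_norm_exp, one_mul, norm_mul, Complex.norm_real, Real.norm_eq_abs,
    abs_of_nonneg (hK0 t)]

theorem VSep_range {R : Type*} [AddCommMonoid R] (M : ℕ) (f : ℕ → R) (h0 : f 0 = 0) :
    ∑ m ∈ range M, f m = ∑ m ∈ Ico 1 M, f m := by
  symm
  refine Finset.sum_subset ?_ ?_
  · intro m hm
    rw [Finset.mem_Ico] at hm
    exact Finset.mem_range.mpr hm.2
  · intro m hm hm2
    rw [Finset.mem_range] at hm
    rw [Finset.mem_Ico] at hm2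
    have : m = 0 := by omega
    rw [this, h0]

theorem VSep_log {Y : ℝ} (hY : 1 ≤ Y) {M m : ℕ} (hM : (M : ℝ) ≤ 2 * Y + 1) (hm : m ∈ Ico 1 M) :
    |Real.log m / vY Y| ≤ 2 := by
  rw [Finset.mem_Ico] at hm
  have hv := ArC_vY_pos hY
  have h1 : (m : ℝ) + 1 ≤ M := by exact_mod_cast hm.2
  have h2 : (m : ℝ) ≤ 2 * Y := by linarith
  have h3 : (1 : ℝ) ≤ m := by exact_mod_cast hm.1
  have h4 : 0 ≤ Real.log m := Real.log_nonneg h3
  rw [abs_of_nonneg (div_nonneg h4 hv.le), div_le_iff₀ hv]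
  have h5 : Real.log m ≤ Real.log (2 * Y) := Real.log_le_log (by linarith) h2
  rw [Real.log_mul (by norm_num) (by linarith)] at h5
  have h6 := Real.log_nonneg hY
  unfold vY l0
  linarith

theorem VSep_sq {Y : ℝ} (hY : 1 ≤ Y) {M : ℕ} (hM : (M : ℝ) ≤ 2 * Y + 1) (j : ℕ) (t : ℝ)
    (a : ℕ → ℂ) : ∑ m ∈ Ico 1 M, ‖tw (vY Y) j t a m‖ ^ 2 ≤
      (2 ^ j) ^ 2 * ∑ m ∈ Ico 1 M, ‖a m‖ ^ 2 := by
  rw [Finset.mul_sum]
  refine Finset.sum_le_sum fun m hm => ?_
  rw [VSep_tw_norm, mul_pow, mul_comm]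
  refine mul_le_mul_of_nonneg_right ?_ (by positivity)
  refine pow_le_pow_left₀ (by positivity) ?_ _
  exact pow_le_pow_left₀ (abs_nonneg _) (VSep_log hY hM hm) _

theorem VSep_ls {Y : ℝ} (hY : 1 ≤ Y) (Q M N : ℕ) (hQ : 1 ≤ Q) (hM : (M : ℝ) ≤ 2 * Y + 1)
    (hN : (N : ℝ) ≤ 2 * Y + 1) (i j : ℕ) (t : ℝ) (a b : ℕ → ℂ) :
    ∑ q ∈ Icc 1 Q, (q : ℝ) / q.totient * ∑ χ ∈ prim q,
        ‖∑ m ∈ Ico 1 M, tw (vY Y) i t a m * χ (m : ZMod q)‖ *
        ‖∑ n ∈ Ico 1 N, tw (vY Y) j t b n * χ (n : ZMod q)‖ ≤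
      12 * 2 ^ (i + j) * Real.sqrt (((M : ℝ) + Q ^ 2) * ((N : ℝ) + Q ^ 2) *
        (∑ m ∈ Ico 1 M, ‖a m‖ ^ 2) * (∑ n ∈ Ico 1 N, ‖b n‖ ^ 2)) := by
  have h1 := mult_ls_bil Q M N hQ (fun m => if m = 0 then 0 else tw (vY Y) i t a m)
    (fun n => if n = 0 then 0 else tw (vY Y) j t b n)
  have e1 : ∀ (i : ℕ) (a : ℕ → ℂ) (M q : ℕ) (χ : DirichletCharacter ℂ q),
      ∑ m ∈ range M, (if m = 0 then 0 else tw (vY Y) i t a m) * χ (m : ZMod q) =
      ∑ m ∈ Ico 1 M, tw (vY Y) i t a m * χ (m : ZMod q) := by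
    intro i a M q χ
    rw [VSep_range M _ (by rw [if_pos rfl, zero_mul])]
    refine Finset.sum_congr rfl fun m hm => ?_
    rw [Finset.mem_Ico] at hm
    rw [if_neg (by omega)]
  have e2 : ∀ (i : ℕ) (a : ℕ → ℂ) (M : ℕ),
      ∑ m ∈ range M, ‖(if m = 0 then 0 else tw (vY Y) i t a m)‖ ^ 2 =
      ∑ m ∈ Ico 1 M, ‖tw (vY Y) i t a m‖ ^ 2 := by
    intro i a M
    rw [VSep_range M _ (by rw [if_pos rfl, norm_zero]; norm_num)]
    refine Finset.sum_congr rfl fun m hm => ?_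
    rw [Finset.mem_Ico] at hm
    rw [if_neg (by omega)]
  simp only [e1, e2] at h1
  refine h1.trans ?_
  rw [mul_assoc (12 : ℝ)]
  refine mul_le_mul_of_nonneg_left ?_ (by norm_num : (0 : ℝ) ≤ 12)
  have h2 := VSep_sq hY hM i t a
  have h3 := VSep_sq hY hN j t b
  set A := ∑ m ∈ Ico 1 M, ‖a m‖ ^ 2
  set B := ∑ n ∈ Ico 1 N, ‖b n‖ ^ 2
  have hA : 0 ≤ A := Finset.sum_nonneg fun m _ => by positivity
  have hB : 0 ≤ B := Finset.sum_nonneg fun m _ => by positivity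
  have h4 : ((M : ℝ) + Q ^ 2) * ((N : ℝ) + Q ^ 2) *
      (∑ m ∈ Ico 1 M, ‖tw (vY Y) i t a m‖ ^ 2) * (∑ n ∈ Ico 1 N, ‖tw (vY Y) j t b n‖ ^ 2) ≤
      (2 ^ (i + j)) ^ 2 * (((M : ℝ) + Q ^ 2) * ((N : ℝ) + Q ^ 2) * A * B) := by
    calc ((M : ℝ) + Q ^ 2) * ((N : ℝ) + Q ^ 2) *
      (∑ m ∈ Ico 1 M, ‖tw (vY Y) i t a m‖ ^ 2) * (∑ n ∈ Ico 1 N, ‖tw (vY Y) j t b n‖ ^ 2) ≤
      ((M : ℝ) + Q ^ 2) * ((N : ℝ) + Q ^ 2) * ((2 ^ i) ^ 2 * A) * ((2 ^ j) ^ 2 * B) := by
          refine mul_le_mul ?_ h3 (Finset.sum_nonneg fun m _ => by positivity) (by positivity)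
          exact mul_le_mul_of_nonneg_left h2 (by positivity)
      _ = (2 ^ (i + j)) ^ 2 * (((M : ℝ) + Q ^ 2) * ((N : ℝ) + Q ^ 2) * A * B) := by
          rw [pow_add]
          ring
  refine (Real.sqrt_le_sqrt h4).trans (le_of_eq ?_)
  rw [Real.sqrt_mul (by positivity), Real.sqrt_sq (by positivity)]

theorem VSep_swap (s : Finset ℕ) (Q : ℕ) (w c : ℕ → ℝ)
    (F : ℕ → ∀ q : ℕ, DirichletCharacter ℂ q → ℝ) :
    ∑ q ∈ Icc 1 Q, w q * ∑ χ ∈ prim q, ∑ j ∈ s, c j * F j q χ =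
      ∑ j ∈ s, c j * ∑ q ∈ Icc 1 Q, w q * ∑ χ ∈ prim q, F j q χ := by
  have h1 : ∀ q, w q * ∑ χ ∈ prim q, ∑ j ∈ s, c j * F j q χ =
      ∑ j ∈ s, c j * (w q * ∑ χ ∈ prim q, F j q χ) := by
    intro q
    rw [Finset.sum_comm, Finset.mul_sum]
    refine Finset.sum_congr rfl fun j _ => ?_
    rw [← Finset.mul_sum]
    ring
  rw [Finset.sum_congr rfl fun q _ => h1 q, Finset.sum_comm]
  refine Finset.sum_congr rfl fun j _ => ?_
  rw [Finset.mul_sum]

/-- **Type II sums, one block.**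

Proof. `bil_sep`, sum over `q` and `χ` inside of the integral; for every `t` and `j` `mult_ls_bil` with the coefficients
`tw ..` on `Ico 1 M` (zero at `0`), whose absolute values are at most `2 ^ k ‖a m‖` (`log m ≤ log (2 Y) ≤ 2 v`); the integral of
`K` is finite. -/
theorem typeII_block (k : ℕ) : ∃ C : ℝ, 0 < C ∧ ∀ (Y : ℝ) (Q M N : ℕ), 1 ≤ Y → 1 ≤ Q →
    (M : ℝ) ≤ 2 * Y + 1 → (N : ℝ) ≤ 2 * Y + 1 → ∀ a b : ℕ → ℂ,
      ∑ q ∈ Icc 1 Q, (q : ℝ) / q.totient * ∑ χ ∈ prim q,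
        ‖∑ m ∈ Ico 1 M, ∑ n ∈ Ico 1 N,
          a m * b n * ((aw k Y (m * n) : ℂ) * χ ((m * n : ℕ) : ZMod q))‖ ≤
        C * Real.sqrt (((M : ℝ) + Q ^ 2) * ((N : ℝ) + Q ^ 2) * (∑ m ∈ Ico 1 M, ‖a m‖ ^ 2) *
          (∑ n ∈ Ico 1 N, ‖b n‖ ^ 2)) := by
  obtain ⟨K, hK0, hK1, hK2, hK⟩ := tp_fourier
  have hI : 0 ≤ ∫ t : ℝ, K t := integral_nonneg hK0
  refine ⟨(∑ j ∈ range (k + 1), (k.choose j : ℝ) * ((∫ t : ℝ, K t) * (12 * 2 ^ k))) + 1,
    by positivity, ?_⟩
  intro Y Q M N hY hQ hM hN a b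
  set R := Real.sqrt (((M : ℝ) + Q ^ 2) * ((N : ℝ) + Q ^ 2) * (∑ m ∈ Ico 1 M, ‖a m‖ ^ 2) *
          (∑ n ∈ Ico 1 N, ‖b n‖ ^ 2)) with hR
  have hR0 : 0 ≤ R := Real.sqrt_nonneg _
  set G : ∀ (j q : ℕ), DirichletCharacter ℂ q → ℝ → ℝ := fun j q χ t =>
    ‖∑ m ∈ Ico 1 M, tw (vY Y) j t a m * χ (m : ZMod q)‖ *
          ‖∑ n ∈ Ico 1 N, tw (vY Y) (k - j) t b n * χ (n : ZMod q)‖ with hG
  have hGi : ∀ (j q : ℕ) (χ : DirichletCharacter ℂ q), Integrable fun t => K t * G j q χ t := by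
    intro j q χ
    exact VSep_int1 K hK2 (vY Y) j (k - j) a b (fun m => χ (m : ZMod q)) (fun m => χ (m : ZMod q)) M N
  calc ∑ q ∈ Icc 1 Q, (q : ℝ) / q.totient * ∑ χ ∈ prim q,
        ‖∑ m ∈ Ico 1 M, ∑ n ∈ Ico 1 N,
          a m * b n * ((aw k Y (m * n) : ℂ) * χ ((m * n : ℕ) : ZMod q))‖
      ≤ ∑ q ∈ Icc 1 Q, (q : ℝ) / q.totient * ∑ χ ∈ prim q,
          ∑ j ∈ range (k + 1), (k.choose j : ℝ) * ∫ t : ℝ, K t * G j q χ t := by
        refine Finset.sum_le_sum fun q _ => mul_le_mul_of_nonneg_left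
          (Finset.sum_le_sum fun χ _ => ?_) (by positivity)
        exact bil_sep K hK0 hK1 hK2 hK k Y hY M N q χ a b
    _ = ∑ j ∈ range (k + 1), (k.choose j : ℝ) * ∫ t : ℝ, K t *
          ∑ q ∈ Icc 1 Q, (q : ℝ) / q.totient * ∑ χ ∈ prim q, G j q χ t := by
        have e1 : ∀ j : ℕ, ∫ t : ℝ, K t *
            ∑ q ∈ Icc 1 Q, (q : ℝ) / q.totient * ∑ χ ∈ prim q, G j q χ t =
            ∑ q ∈ Icc 1 Q, (q : ℝ) / q.totient * ∑ χ ∈ prim q, ∫ t : ℝ, K t * G j q χ t := by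
          intro j
          have e2 : ∀ t : ℝ, K t *
            ∑ q ∈ Icc 1 Q, (q : ℝ) / q.totient * ∑ χ ∈ prim q, G j q χ t =
            ∑ q ∈ Icc 1 Q, (q : ℝ) / q.totient * ∑ χ ∈ prim q, K t * G j q χ t := by
            intro t
            rw [Finset.mul_sum]
            refine Finset.sum_congr rfl fun q _ => ?_
            rw [← Finset.mul_sum]
            ring
          rw [integral_congr_ae (Filter.Eventually.of_forall e2), integral_finsetSum]
          · refine Finset.sum_congr rfl fun q _ => ?_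
            rw [integral_const_mul, integral_finsetSum]
            intro χ _
            exact hGi j q χ
          · intro q _
            refine Integrable.const_mul ?_ _
            exact integrable_finsetSum _ fun χ _ => hGi j q χ
        simp only [e1]
        exact VSep_swap (range (k + 1)) Q (fun q => (q : ℝ) / q.totient) (fun j => (k.choose j : ℝ))
          (fun j q χ => ∫ t : ℝ, K t * G j q χ t)
    _ ≤ ∑ j ∈ range (k + 1), (k.choose j : ℝ) * ((∫ t : ℝ, K t) * (12 * 2 ^ k) * R) := by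
        refine Finset.sum_le_sum fun j hj => mul_le_mul_of_nonneg_left ?_ (Nat.cast_nonneg _)
        rw [mul_assoc, ← integral_mul_const]
        have hj' : j + (k - j) = k := by
          rw [Finset.mem_range] at hj
          omega
        have hb : ∀ t : ℝ, ∑ q ∈ Icc 1 Q, (q : ℝ) / q.totient * ∑ χ ∈ prim q, G j q χ t ≤
            12 * 2 ^ k * R := by
          intro t
          have := VSep_ls hY Q M N hQ hM hN j (k - j) t a b
          rw [hj'] at this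
          exact this
        refine integral_mono_of_nonneg (Filter.Eventually.of_forall fun t => ?_)
          (hK2.mul_const _) (Filter.Eventually.of_forall fun t => ?_)
        · refine mul_nonneg (hK0 t) (Finset.sum_nonneg fun q _ => mul_nonneg (by positivity)
            (Finset.sum_nonneg fun χ _ => ?_))
          simp only [hG]
          positivity
        · exact mul_le_mul_of_nonneg_left (hb t) (hK0 t)
    _ ≤ ((∑ j ∈ range (k + 1), (k.choose j : ℝ) * ((∫ t : ℝ, K t) * (12 * 2 ^ k))) + 1) * R := by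
        rw [add_mul, one_mul, Finset.sum_mul]
        refine le_add_of_le_of_nonneg (le_of_eq ?_) hR0
        refine Finset.sum_congr rfl fun j _ => ?_
        ring

end Pool.Agent.Wb58c63
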