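import Pool.Agent.W_b58c63_h68.Vau
import Pool.Agent.W_b58c63_h68.CharSum
import Pool.Agent.W_b58c63_h68.ArC

/-!
# Type I sums (helper68)
-/

set_option autoImplicit false

noncomputable section

open Finset ArithmeticFunction

namespace Pool.Agent.Wb58c63

/-- Clamping to an interval. -/
def VTyA_cl (a b x : ℝ) : ℝ := max a (min x b)

theorem VTyA_cl_mono (a b : ℝ) : Monotone (VTyA_cl a b) := by
  intro x y h
  unfold VTyA_cl
  exact max_le_max le_rfl (min_le_min h le_rfl)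

theorem VTyA_cl_ge (a b x : ℝ) : a ≤ VTyA_cl a b x := le_max_left _ _

theorem VTyA_cl_le {a b : ℝ} (h : a ≤ b) (x : ℝ) : VTyA_cl a b x ≤ b :=
  max_le h (min_le_right _ _)

theorem VTyA_cl_eq {a b x : ℝ} (h1 : a ≤ x) (h2 : x ≤ b) : VTyA_cl a b x = x := by
  unfold VTyA_cl
  rw [min_eq_left h2, max_eq_right h1]

theorem VTyA_log_mono : Monotone fun n : ℕ => Real.log n := by
  intro a b h
  rcases Nat.eq_zero_or_pos a with h0 | h0
  · subst h0
    simp only [Nat.cast_zero, Real.log_zero]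
    exact Real.log_natCast_nonneg b
  · exact Real.log_le_log (by exact_mod_cast h0) (by exact_mod_cast h)

/-- Telescoping of a monotone sequence. -/
theorem VTyA_tel (a b : ℝ) (h : a ≤ b) (m B : ℕ) :
    ∑ d ∈ range B, |VTyA_cl a b (Real.log ((m * (d + 1) : ℕ) : ℝ)) -
      VTyA_cl a b (Real.log ((m * d : ℕ) : ℝ))| ≤ b - a := by
  have h1 : ∀ d ∈ range B, |VTyA_cl a b (Real.log ((m * (d + 1) : ℕ) : ℝ)) -
      VTyA_cl a b (Real.log ((m * d : ℕ) : ℝ))| =
      VTyA_cl a b (Real.log ((m * (d + 1) : ℕ) : ℝ)) - VTyA_cl a b (Real.log ((m * d : ℕ) : ℝ)) := by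
    intro d _
    apply abs_of_nonneg
    rw [sub_nonneg]
    apply VTyA_cl_mono
    exact VTyA_log_mono (Nat.mul_le_mul_left m (Nat.le_succ d))
  rw [sum_congr rfl h1]
  rw [sum_range_sub (fun d => VTyA_cl a b (Real.log ((m * d : ℕ) : ℝ)))]
  have h2 := VTyA_cl_le h (Real.log ((m * B : ℕ) : ℝ))
  have h3 := VTyA_cl_ge a b (Real.log ((m * 0 : ℕ) : ℝ))
  linarith

/-- The weight as a function of the logarithm. -/
def VTyA_F (k : ℕ) (v x : ℝ) : ℝ := tp (x - v) * (x / v) ^ k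

theorem VTyA_tp_lip (x y : ℝ) : |tp x - tp y| ≤ |x - y| / l0 := by
  unfold tp
  have h1 : |max 0 (1 - |x| / l0) - max 0 (1 - |y| / l0)| ≤
      |(1 - |x| / l0) - (1 - |y| / l0)| := by
    have := abs_max_sub_max_le_abs (1 - |x| / l0) (1 - |y| / l0) 0
    rwa [max_comm, max_comm (1 - |y| / l0) 0] at this
  refine h1.trans ?_
  have h2 : (1 - |x| / l0) - (1 - |y| / l0) = (|y| - |x|) / l0 := by ring
  rw [h2, abs_div, abs_of_pos l0_pos]
  refine div_le_div_of_nonneg_right ?_ l0_pos.le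
  rw [abs_sub_comm x y]
  exact abs_abs_sub_abs_le _ _

theorem VTyA_pow_lip (k : ℕ) {x y : ℝ} (hx0 : 0 ≤ x) (hx : x ≤ 2) (hy0 : 0 ≤ y) (hy : y ≤ 2) :
    |x ^ k - y ^ k| ≤ k * 2 ^ k * |x - y| := by
  induction k with
  | zero => simp
  | succ k ih =>
    have h1 : x ^ (k + 1) - y ^ (k + 1) = x * (x ^ k - y ^ k) + (x - y) * y ^ k := by ring
    rw [h1]
    refine (abs_add_le _ _).trans ?_
    rw [abs_mul, abs_mul, abs_of_nonneg hx0, abs_of_nonneg (pow_nonneg hy0 k)]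
    have h2 : y ^ k ≤ 2 ^ k := pow_le_pow_left₀ hy0 hy k
    have h3 : x * |x ^ k - y ^ k| ≤ 2 * (k * 2 ^ k * |x - y|) :=
      mul_le_mul hx ih (abs_nonneg _) (by norm_num)
    have h4 : |x - y| * y ^ k ≤ |x - y| * 2 ^ k :=
      mul_le_mul_of_nonneg_left h2 (abs_nonneg _)
    have h5 : |x - y| * 2 ^ k ≤ |x - y| * (2 * 2 ^ k) := by
      apply mul_le_mul_of_nonneg_left _ (abs_nonneg _)
      have : (0 : ℝ) < 2 ^ k := by positivity
      linarith
    push_cast
    rw [pow_succ]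
    linarith

theorem VTyA_F_lip (k : ℕ) {v x y : ℝ} (hv : l0 ≤ v) (hx0 : 0 ≤ x) (hx : x ≤ 2 * v)
    (hy0 : 0 ≤ y) (hy : y ≤ 2 * v) :
    |VTyA_F k v x - VTyA_F k v y| ≤ (2 ^ k / l0 + k * 2 ^ k / l0) * |x - y| := by
  have hl := l0_pos
  have hv0 : 0 < v := lt_of_lt_of_le hl hv
  have e1 : x / v ≤ 2 := by rwa [div_le_iff₀ hv0]
  have e2 : y / v ≤ 2 := by rwa [div_le_iff₀ hv0]
  have e3 : 0 ≤ x / v := div_nonneg hx0 hv0.le
  have e4 : 0 ≤ y / v := div_nonneg hy0 hv0.le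
  unfold VTyA_F
  have h1 : tp (x - v) * (x / v) ^ k - tp (y - v) * (y / v) ^ k =
      (tp (x - v) - tp (y - v)) * (x / v) ^ k + tp (y - v) * ((x / v) ^ k - (y / v) ^ k) := by ring
  rw [h1]
  refine (abs_add_le _ _).trans ?_
  rw [abs_mul, abs_mul, abs_of_nonneg (pow_nonneg e3 k), abs_of_nonneg (tp_nonneg _)]
  have h2 : |tp (x - v) - tp (y - v)| ≤ |x - y| / l0 := by
    have := VTyA_tp_lip (x - v) (y - v)
    rwa [show x - v - (y - v) = x - y by ring] at this
  have h3 : (x / v) ^ k ≤ 2 ^ k := pow_le_pow_left₀ e3 e1 k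
  have h4 : |(x / v) ^ k - (y / v) ^ k| ≤ k * 2 ^ k * (|x - y| / l0) := by
    refine (VTyA_pow_lip k e3 e1 e4 e2).trans ?_
    apply mul_le_mul_of_nonneg_left _ (by positivity)
    rw [show x / v - y / v = (x - y) / v by ring, abs_div, abs_of_pos hv0]
    exact div_le_div_of_nonneg_left (abs_nonneg _) hl hv
  have h5 : |tp (x - v) - tp (y - v)| * (x / v) ^ k ≤ |x - y| / l0 * 2 ^ k :=
    mul_le_mul h2 h3 (pow_nonneg e3 k) (by positivity)
  have h6 : tp (y - v) * |(x / v) ^ k - (y / v) ^ k| ≤ 1 * (k * 2 ^ k * (|x - y| / l0)) :=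
    mul_le_mul (tp_le_one _) h4 (abs_nonneg _) zero_le_one
  calc _ ≤ |x - y| / l0 * 2 ^ k + 1 * (k * 2 ^ k * (|x - y| / l0)) := add_le_add h5 h6
    _ = (2 ^ k / l0 + k * 2 ^ k / l0) * |x - y| := by ring

theorem VTyA_tp_out {y : ℝ} (h : l0 ≤ |y|) : tp y = 0 := by
  unfold tp
  have h1 : 1 ≤ |y| / l0 := by rwa [le_div_iff₀ l0_pos, one_mul]
  exact max_eq_left (by linarith)

/-- The weight does not change under clamping of the logarithm. -/
theorem VTyA_F_cl (k : ℕ) (v x : ℝ) : VTyA_F k v (VTyA_cl (v - l0) (v + l0) x) = VTyA_F k v x := by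
  have hl := l0_pos
  rcases le_or_gt x (v - l0) with h1 | h1
  · have e1 : VTyA_cl (v - l0) (v + l0) x = v - l0 := by
      unfold VTyA_cl
      exact max_eq_left ((min_le_left _ _).trans h1)
    rw [e1]
    unfold VTyA_F
    rw [VTyA_tp_out (y := v - l0 - v) (by rw [show v - l0 - v = -l0 by ring, abs_neg, abs_of_pos hl]),
      VTyA_tp_out (y := x - v) (by rw [abs_of_nonpos (by linarith)]; linarith)]
    simp
  · rcases le_or_gt (v + l0) x with h2 | h2
    · have e1 : VTyA_cl (v - l0) (v + l0) x = v + l0 := by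
        unfold VTyA_cl
        rw [min_eq_right h2]
        exact max_eq_right (by linarith)
      rw [e1]
      unfold VTyA_F
      rw [VTyA_tp_out (y := v + l0 - v) (by rw [show v + l0 - v = l0 by ring, abs_of_pos hl]),
        VTyA_tp_out (y := x - v) (by rw [abs_of_nonneg (by linarith)]; linarith)]
      simp
    · rw [VTyA_cl_eq h1.le h2.le]

theorem VTyA_aw_eq (k : ℕ) (Y : ℝ) (n : ℕ) : aw k Y n = VTyA_F k (vY Y) (Real.log n) := rfl

theorem VTyA_vY_ge {Y : ℝ} (hY : 2 ≤ Y) : l0 ≤ vY Y := by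
  unfold vY
  have := Real.log_nonneg (show (1 : ℝ) ≤ Y by linarith)
  linarith

theorem VTyA_aw_zero (k : ℕ) {Y : ℝ} (hY : 2 ≤ Y) : aw k Y 0 = 0 := by
  by_contra h
  have h1 := aw_support k Y (by linarith) 0 h
  rw [Nat.cast_zero] at h1
  linarith [h1.1]

/-- The constant of `var_aw`. -/
def VTyA_K (k : ℕ) : ℝ := 2 ^ k / l0 + k * 2 ^ k / l0

theorem VTyA_K_pos (k : ℕ) : 0 < VTyA_K k := by
  have := l0_pos
  unfold VTyA_K
  positivity

theorem VTyA_var (k : ℕ) (Y : ℝ) (hY : 2 ≤ Y) (m B : ℕ) :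
    ∑ d ∈ range B, |aw k Y (m * (d + 1)) - aw k Y (m * d)| ≤ VTyA_K k * (2 * l0) := by
  have hl := l0_pos
  have hv := VTyA_vY_ge hY
  have h1 : ∀ d ∈ range B, |aw k Y (m * (d + 1)) - aw k Y (m * d)| ≤
      VTyA_K k * |VTyA_cl (vY Y - l0) (vY Y + l0) (Real.log ((m * (d + 1) : ℕ) : ℝ)) -
      VTyA_cl (vY Y - l0) (vY Y + l0) (Real.log ((m * d : ℕ) : ℝ))| := by
    intro d _
    rw [VTyA_aw_eq, VTyA_aw_eq, ← VTyA_F_cl k (vY Y) (Real.log ((m * (d + 1) : ℕ) : ℝ)),
      ← VTyA_F_cl k (vY Y) (Real.log ((m * d : ℕ) : ℝ))]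
    have e1 := fun x => VTyA_cl_ge (vY Y - l0) (vY Y + l0) x
    have e2 := fun x => VTyA_cl_le (show vY Y - l0 ≤ vY Y + l0 by linarith) x
    apply VTyA_F_lip k hv
    · exact le_trans (by linarith) (e1 _)
    · exact le_trans (e2 _) (by linarith)
    · exact le_trans (by linarith) (e1 _)
    · exact le_trans (e2 _) (by linarith)
  refine (sum_le_sum h1).trans ?_
  rw [← mul_sum]
  apply mul_le_mul_of_nonneg_left _ (VTyA_K_pos k).le
  refine (VTyA_tel _ _ (by linarith) m B).trans ?_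
  linarith

/-- **The weights have bounded variation.**

Proof. `aw k Y n = Φ (log n)` with `Φ x = tp (x - v) (x / v) ^ k`, `v = vY Y`; on `x ≥ 0` the function `Φ` is Lipschitz
with a constant `C_k` (`tp` is Lipschitz with constant `1 / l0` and vanishes outside of `|x - v| < l0`, where
`0 ≤ x / v ≤ 2`). For `d ≥ 1` the term is at most `C_k (log (d + 1) - log d) ≤ C_k / d`, and it is nonzero only for
`Y / m - 1 < d < 2 Y / m`; `∑ 1 / d` over these `d ≥ 1` is at most `4` (distinguish `Y / m ≥ 2` and `< 2`). The term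
`d = 0` is at most `2 ^ k`. -/
theorem var_aw (k : ℕ) : ∃ C : ℝ, 0 < C ∧ ∀ Y : ℝ, 2 ≤ Y → ∀ m B : ℕ, 1 ≤ m →
    ∑ d ∈ range B, |aw k Y (m * (d + 1)) - aw k Y (m * d)| ≤ C := by
  refine ⟨VTyA_K k * (2 * l0), ?_, fun Y hY m B _ => VTyA_var k Y hY m B⟩
  have h1 := l0_pos
  have h2 := VTyA_K_pos k
  positivity

/-- The same with a factor `log d`: `log (d + 1) a' - log d a = log (d + 1) (a' - a) + (log (d + 1) - log d) a`; the relevant
`d` satisfy `d + 1 ≤ 2 Y + 1`, the second part is at most `2 ^ k ∑ 1 / d ≤ C` as before. -/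
theorem var_log_aw (k : ℕ) : ∃ C : ℝ, 0 < C ∧ ∀ Y : ℝ, 2 ≤ Y → ∀ m B : ℕ, 1 ≤ m →
    ∑ d ∈ range B, |Real.log ((d : ℝ) + 1) * aw k Y (m * (d + 1)) - Real.log d * aw k Y (m * d)| ≤
      C * Real.log Y := by
  have hl := l0_pos
  have hK := VTyA_K_pos k
  have hlog2 : 0 < Real.log 2 := Real.log_pos one_lt_two
  refine ⟨3 * (VTyA_K k * (2 * l0)) + 2 ^ k * 2, by positivity, fun Y hY m B hm => ?_⟩
  have hY1 : (1 : ℝ) ≤ Y := by linarith
  have hY0 : (0 : ℝ) < Y := by linarith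
  have hlY : Real.log 2 ≤ Real.log Y := Real.log_le_log (by norm_num) hY
  have hm0 : (1 : ℝ) ≤ m := by exact_mod_cast hm
  have key : ∀ d ∈ range B,
      |Real.log ((d : ℝ) + 1) * aw k Y (m * (d + 1)) - Real.log d * aw k Y (m * d)| ≤
      3 * Real.log Y * |aw k Y (m * (d + 1)) - aw k Y (m * d)| +
      2 ^ k * |VTyA_cl (Real.log Y) (Real.log Y + 2 * Real.log 2)
        (Real.log ((m * (d + 1) : ℕ) : ℝ)) -
      VTyA_cl (Real.log Y) (Real.log Y + 2 * Real.log 2) (Real.log ((m * d : ℕ) : ℝ))| := by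
    intro d _
    have h1 : Real.log ((d : ℝ) + 1) * aw k Y (m * (d + 1)) - Real.log d * aw k Y (m * d) =
        Real.log ((d : ℝ) + 1) * (aw k Y (m * (d + 1)) - aw k Y (m * d)) +
        (Real.log ((d : ℝ) + 1) - Real.log d) * aw k Y (m * d) := by ring
    rw [h1]
    refine (abs_add_le _ _).trans (add_le_add ?_ ?_)
    · rw [abs_mul]
      by_cases h0 : aw k Y (m * (d + 1)) - aw k Y (m * d) = 0
      · rw [h0, abs_zero, mul_zero, mul_zero]
      · have h2 : ((m * d : ℕ) : ℝ) < 2 * Y := by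
          by_cases h3 : aw k Y (m * d) = 0
          · have h4 : aw k Y (m * (d + 1)) ≠ 0 := by
              intro h5
              rw [h3, h5, sub_zero] at h0
              exact h0 rfl
            have h5 := (aw_support k Y hY1 _ h4).2
            refine lt_of_le_of_lt ?_ h5
            exact_mod_cast Nat.mul_le_mul_left m (Nat.le_succ d)
          · exact (aw_support k Y hY1 _ h3).2
        apply mul_le_mul_of_nonneg_right _ (abs_nonneg _)
        have h3 : (d : ℝ) ≤ ((m * d : ℕ) : ℝ) := by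
          exact_mod_cast Nat.le_mul_of_pos_left d (by omega)
        have h4 : (d : ℝ) + 1 ≤ Y ^ 3 := by nlinarith [sq_nonneg (Y - 2), mul_pos hY0 hY0]
        have h5 : (0 : ℝ) ≤ d := Nat.cast_nonneg d
        rw [abs_of_nonneg (Real.log_nonneg (by linarith))]
        calc Real.log ((d : ℝ) + 1) ≤ Real.log (Y ^ 3) := Real.log_le_log (by linarith) h4
          _ = 3 * Real.log Y := by rw [Real.log_pow]; norm_num
    · rw [abs_mul, abs_of_nonneg (aw_nonneg k Y hY1 _), mul_comm]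
      by_cases h0 : aw k Y (m * d) = 0
      · rw [h0, zero_mul]
        positivity
      · obtain ⟨h2, h3⟩ := aw_support k Y hY1 _ h0
        have hd : d ≠ 0 := by
          rintro rfl
          rw [mul_zero, Nat.cast_zero] at h2
          linarith
        have hd0 : (1 : ℝ) ≤ d := by exact_mod_cast Nat.one_le_iff_ne_zero.mpr hd
        have hmd : (0 : ℝ) < ((m * d : ℕ) : ℝ) := by linarith
        have h4 : Real.log ((m * d : ℕ) : ℝ) = Real.log m + Real.log d := by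
          rw [Nat.cast_mul, Real.log_mul (by linarith) (by linarith)]
        have h5 : Real.log ((m * (d + 1) : ℕ) : ℝ) = Real.log m + Real.log ((d : ℝ) + 1) := by
          rw [Nat.cast_mul, Real.log_mul (by linarith) (by push_cast; linarith)]
          push_cast
          rfl
        have h6 : Real.log Y ≤ Real.log ((m * d : ℕ) : ℝ) := Real.log_le_log hY0 h2.le
        have h7 : Real.log ((m * d : ℕ) : ℝ) ≤ Real.log ((m * (d + 1) : ℕ) : ℝ) :=
          VTyA_log_mono (Nat.mul_le_mul_left m (Nat.le_succ d))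
        have h8 : Real.log ((m * (d + 1) : ℕ) : ℝ) ≤ Real.log Y + 2 * Real.log 2 := by
          have e1 : ((m * (d + 1) : ℕ) : ℝ) ≤ Y * 2 ^ 2 := by
            push_cast
            push_cast at h3
            nlinarith
          calc Real.log ((m * (d + 1) : ℕ) : ℝ) ≤ Real.log (Y * 2 ^ 2) :=
                Real.log_le_log (by push_cast; positivity) e1
            _ = Real.log Y + 2 * Real.log 2 := by
                rw [Real.log_mul hY0.ne' (by norm_num), Real.log_pow]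
                norm_num
        rw [VTyA_cl_eq (h6.trans h7) h8, VTyA_cl_eq h6 (h7.trans h8), h4, h5]
        have h9 : Real.log m + Real.log ((d : ℝ) + 1) - (Real.log m + Real.log d) =
          Real.log ((d : ℝ) + 1) - Real.log d := by ring
        rw [h9]
        exact mul_le_mul_of_nonneg_right (aw_le k Y hY1 _) (abs_nonneg _)
  refine (sum_le_sum key).trans ?_
  rw [sum_add_distrib, ← mul_sum, ← mul_sum]
  have h1 := VTyA_var k Y hY m B
  have h2 := VTyA_tel (Real.log Y) (Real.log Y + 2 * Real.log 2) (by linarith) m B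
  have h3 : 3 * Real.log Y * ∑ d ∈ range B, |aw k Y (m * (d + 1)) - aw k Y (m * d)| ≤
      3 * Real.log Y * (VTyA_K k * (2 * l0)) :=
    mul_le_mul_of_nonneg_left h1 (by linarith)
  have h4 : 2 ^ k * ∑ d ∈ range B, |VTyA_cl (Real.log Y) (Real.log Y + 2 * Real.log 2)
        (Real.log ((m * (d + 1) : ℕ) : ℝ)) -
      VTyA_cl (Real.log Y) (Real.log Y + 2 * Real.log 2) (Real.log ((m * d : ℕ) : ℝ))| ≤
      2 ^ k * (2 * Real.log Y) :=
    mul_le_mul_of_nonneg_left (by linarith) (by positivity)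
  calc _ ≤ 3 * Real.log Y * (VTyA_K k * (2 * l0)) + 2 ^ k * (2 * Real.log Y) := add_le_add h3 h4
    _ = (3 * (VTyA_K k * (2 * l0)) + 2 ^ k * 2) * Real.log Y := by ring

/-- **Type I sums of Vaughan's identity.** `χ (m d) = χ m χ d`, `char_sum_abel` for `ψ d = log d aw (m d)` (it vanishes for
`d ≥ B`), `|μ| ≤ 1`. -/
theorem typeI_a (k : ℕ) : ∃ C : ℝ, 0 < C ∧ ∀ (Y : ℝ) (U B r : ℕ), 2 ≤ Y → 1 ≤ U → 2 * Y ≤ B →
    1 ≤ r → ∀ χ : DirichletCharacter ℂ r, χ ≠ 1 →
      ‖∑ m ∈ Icc 1 U, ((moebius m : ℝ) : ℂ) * ∑ d ∈ Ico 1 B, (Real.log d : ℂ) *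
        ((aw k Y (m * d) : ℂ) * χ ((m * d : ℕ) : ZMod r))‖ ≤ C * U ^ 3 * r * Real.log Y := by
  obtain ⟨C, hC, hvar⟩ := var_log_aw k
  refine ⟨C, hC, fun Y U B r hY hU hB hr χ hχ => ?_⟩
  haveI : NeZero r := ⟨by omega⟩
  have hY1 : (1 : ℝ) ≤ Y := by linarith
  have hlY : 0 ≤ Real.log Y := Real.log_nonneg hY1
  have hinner : ∀ m ∈ Icc 1 U, ‖((moebius m : ℝ) : ℂ) * ∑ d ∈ Ico 1 B, (Real.log d : ℂ) *
        ((aw k Y (m * d) : ℂ) * χ ((m * d : ℕ) : ZMod r))‖ ≤ r * (C * Real.log Y) := by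
    intro m hm
    rw [mem_Icc] at hm
    have h0 : ∑ d ∈ Ico 1 B, (Real.log d : ℂ) *
        ((aw k Y (m * d) : ℂ) * χ ((m * d : ℕ) : ZMod r)) =
        χ (m : ZMod r) * ∑ d ∈ range B, χ (d : ZMod r) *
          (((Real.log d * aw k Y (m * d) : ℝ)) : ℂ) := by
      rw [mul_sum]
      rw [range_eq_Ico]
      rcases Nat.eq_zero_or_pos B with hB0 | hB0
      · subst hB0; simp
      · rw [← sum_Ico_consecutive _ (Nat.zero_le 1) (by omega : 1 ≤ B)]
        have e1 : ∑ x ∈ Ico (0 : ℕ) 1, χ (m : ZMod r) * (χ (x : ZMod r) *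
          (((Real.log x * aw k Y (m * x) : ℝ)) : ℂ)) = 0 := by
          simp
        rw [e1, zero_add]
        refine sum_congr rfl fun d _ => ?_
        rw [Nat.cast_mul, map_mul]
        push_cast
        ring
    rw [h0, norm_mul, norm_mul]
    have h1 : ‖((moebius m : ℝ) : ℂ)‖ ≤ 1 := by
      rw [Complex.norm_real, Real.norm_eq_abs]
      have := abs_moebius_le_one (n := m)
      exact_mod_cast this
    have h2 : ‖χ (m : ZMod r)‖ ≤ 1 := DirichletCharacter.norm_le_one χ _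
    have h3 : ‖∑ d ∈ range B, χ (d : ZMod r) *
          (((Real.log d * aw k Y (m * d) : ℝ)) : ℂ)‖ ≤ r * (C * Real.log Y) := by
      have h4 := char_sum_abel χ hχ B (fun d => (((Real.log d * aw k Y (m * d) : ℝ)) : ℂ)) (by
        intro n hn
        have h5 : aw k Y (m * n) = 0 := by
          by_contra h6
          have h7 := (aw_support k Y hY1 _ h6).2
          have h8 : (B : ℝ) ≤ ((m * n : ℕ) : ℝ) := by
            exact_mod_cast hn.trans (Nat.le_mul_of_pos_left n (by omega))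
          linarith
        show (((Real.log n * aw k Y (m * n) : ℝ)) : ℂ) = 0
        rw [h5, mul_zero, Complex.ofReal_zero])
      refine h4.trans (mul_le_mul_of_nonneg_left ?_ (Nat.cast_nonneg r))
      refine le_trans (le_of_eq ?_) (hvar Y hY m B hm.1)
      refine sum_congr rfl fun d _ => ?_
      show ‖(((Real.log ((d + 1 : ℕ) : ℝ) * aw k Y (m * (d + 1)) : ℝ)) : ℂ) -
        (((Real.log d * aw k Y (m * d) : ℝ)) : ℂ)‖ = _
      rw [← Complex.ofReal_sub, Complex.norm_real, Real.norm_eq_abs]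
      push_cast
      rfl
    calc _ ≤ 1 * (1 * (r * (C * Real.log Y))) := by
          apply mul_le_mul h1 _ (by positivity) zero_le_one
          exact mul_le_mul h2 h3 (norm_nonneg _) zero_le_one
      _ = r * (C * Real.log Y) := by ring
  refine (norm_sum_le_of_le _ hinner).trans ?_
  rw [sum_const, Nat.card_Icc, nsmul_eq_mul, Nat.add_sub_cancel]
  have hU1 : (1 : ℝ) ≤ U := by exact_mod_cast hU
  have hU3 : (U : ℝ) ≤ U ^ 3 := by nlinarith [sq_nonneg ((U : ℝ) - 1)]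
  calc (U : ℝ) * (r * (C * Real.log Y)) ≤ (U : ℝ) ^ 3 * (r * (C * Real.log Y)) :=
        mul_le_mul_of_nonneg_right hU3 (by positivity)
    _ = C * U ^ 3 * r * Real.log Y := by ring

/-- The same for the second sum: `|vc U j| ≤ log j ≤ 2 U` for `j ≤ U ^ 2` (`abs_vc_le`), `var_aw`. -/
theorem typeI_b (k : ℕ) : ∃ C : ℝ, 0 < C ∧ ∀ (Y : ℝ) (U B r : ℕ), 2 ≤ Y → 1 ≤ U → 2 * Y ≤ B →
    1 ≤ r → ∀ χ : DirichletCharacter ℂ r, χ ≠ 1 →
      ‖∑ j ∈ Icc 1 (U ^ 2), (vc U j : ℂ) * ∑ l ∈ Ico 1 B,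
        ((aw k Y (j * l) : ℂ) * χ ((j * l : ℕ) : ZMod r))‖ ≤ C * U ^ 3 * r * Real.log Y := by
  obtain ⟨C, hC, hvar⟩ := var_aw k
  have hlog2 : 0 < Real.log 2 := Real.log_pos one_lt_two
  refine ⟨2 * C / Real.log 2, by positivity, fun Y U B r hY hU hB hr χ hχ => ?_⟩
  haveI : NeZero r := ⟨by omega⟩
  have hY1 : (1 : ℝ) ≤ Y := by linarith
  have hlY : Real.log 2 ≤ Real.log Y := Real.log_le_log (by norm_num) hY
  have hU1 : (1 : ℝ) ≤ U := by exact_mod_cast hU
  have hinner : ∀ j ∈ Icc 1 (U ^ 2), ‖(vc U j : ℂ) * ∑ l ∈ Ico 1 B,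
        ((aw k Y (j * l) : ℂ) * χ ((j * l : ℕ) : ZMod r))‖ ≤ 2 * U * (r * C) := by
    intro j hj
    rw [mem_Icc] at hj
    have h0 : ∑ l ∈ Ico 1 B, ((aw k Y (j * l) : ℂ) * χ ((j * l : ℕ) : ZMod r)) =
        χ (j : ZMod r) * ∑ l ∈ range B, χ (l : ZMod r) * ((aw k Y (j * l) : ℝ) : ℂ) := by
      rw [mul_sum]
      rw [range_eq_Ico]
      rcases Nat.eq_zero_or_pos B with hB0 | hB0
      · subst hB0; simp
      · rw [← sum_Ico_consecutive _ (Nat.zero_le 1) (by omega : 1 ≤ B)]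
        have e1 : ∑ x ∈ Ico (0 : ℕ) 1, χ (j : ZMod r) * (χ (x : ZMod r) *
          ((aw k Y (j * x) : ℝ) : ℂ)) = 0 := by
          simp [VTyA_aw_zero k hY]
        rw [e1, zero_add]
        refine sum_congr rfl fun d _ => ?_
        rw [Nat.cast_mul, map_mul]
        ring
    rw [h0, norm_mul, norm_mul]
    have h1 : ‖(vc U j : ℂ)‖ ≤ 2 * U := by
      rw [Complex.norm_real, Real.norm_eq_abs]
      refine (abs_vc_le U j hj.1).trans ?_
      have e1 : Real.log j ≤ Real.log ((U : ℝ) ^ 2) := by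
        apply Real.log_le_log (by exact_mod_cast hj.1)
        exact_mod_cast hj.2
      rw [Real.log_pow] at e1
      have e2 := Real.log_le_sub_one_of_pos (show (0 : ℝ) < U by linarith)
      push_cast at e1
      linarith
    have h2 : ‖χ (j : ZMod r)‖ ≤ 1 := DirichletCharacter.norm_le_one χ _
    have h3 : ‖∑ l ∈ range B, χ (l : ZMod r) * ((aw k Y (j * l) : ℝ) : ℂ)‖ ≤ r * C := by
      have h4 := char_sum_abel χ hχ B (fun d => ((aw k Y (j * d) : ℝ) : ℂ)) (by
        intro n hn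
        have h5 : aw k Y (j * n) = 0 := by
          by_contra h6
          have h7 := (aw_support k Y hY1 _ h6).2
          have h8 : (B : ℝ) ≤ ((j * n : ℕ) : ℝ) := by
            exact_mod_cast hn.trans (Nat.le_mul_of_pos_left n (by omega))
          linarith
        show ((aw k Y (j * n) : ℝ) : ℂ) = 0
        rw [h5, Complex.ofReal_zero])
      refine h4.trans (mul_le_mul_of_nonneg_left ?_ (Nat.cast_nonneg r))
      refine le_trans (le_of_eq ?_) (hvar Y hY j B hj.1)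
      refine sum_congr rfl fun d _ => ?_
      show ‖((aw k Y (j * (d + 1)) : ℝ) : ℂ) - ((aw k Y (j * d) : ℝ) : ℂ)‖ = _
      rw [← Complex.ofReal_sub, Complex.norm_real, Real.norm_eq_abs]
    calc _ ≤ 2 * U * (1 * (r * C)) := by
          apply mul_le_mul h1 _ (by positivity) (by positivity)
          exact mul_le_mul h2 h3 (norm_nonneg _) zero_le_one
      _ = 2 * U * (r * C) := by ring
  refine (norm_sum_le_of_le _ hinner).trans ?_
  rw [sum_const, Nat.card_Icc, nsmul_eq_mul, Nat.add_sub_cancel]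
  have h5 : (1 : ℝ) ≤ Real.log Y / Real.log 2 := by rwa [le_div_iff₀ hlog2, one_mul]
  push_cast
  calc (U : ℝ) ^ 2 * (2 * U * (r * C)) = (2 * C * U ^ 3 * r) * 1 := by ring
    _ ≤ (2 * C * U ^ 3 * r) * (Real.log Y / Real.log 2) :=
        mul_le_mul_of_nonneg_left h5 (by positivity)
    _ = 2 * C / Real.log 2 * U ^ 3 * r * Real.log Y := by ring

end Pool.Agent.Wb58c63
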